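import Pool.Agent.Helper74.TB.StX

/-!
MP_7d16da_al, Part H: conjugacy of torsion elements in the quotient.
See /team-store/MP_7d16da-plan.md.
-/

set_option autoImplicit false

namespace Pool.Agent.Helper74.TB

open Pool.Agent.Helper74.MH

namespace PH

variable {G : Type} [Group G] {d : G → G → ℕ} {δ C Δ : ℕ} {X F : Set G} {Tm : ℝ}

/-! ### hubs -/

theorem abs_inv (H : Hubs d X C) {f : G} (hf : f ∈ X) (x y : G) :
    |H.Φ f⁻¹ x y| ≤ |H.Φ f x y| + C := by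
  have h1 := H.neg f hf x y
  have h2 := abs_sub_abs_le_abs_sub (H.Φ f⁻¹ x y) (-H.Φ f x y)
  rw [abs_neg, sub_neg_eq_add] at h2
  linarith

theorem abs_pm (H : Hubs d X C) {f f' : G} (hf : f ∈ X) (h : f' = f ∨ f' = f⁻¹) (x y : G) :
    |H.Φ f' x y| ≤ |H.Φ f x y| + C ∧ H.T f' = H.T f := by
  have hC : (0 : ℝ) ≤ C := Nat.cast_nonneg C
  rcases h with rfl | rfl
  · exact ⟨by linarith, rfl⟩
  · exact ⟨abs_inv H hf x y, H.Tinv f hf⟩

theorem abs_equi (H : Hubs d X C) {f : G} (hf : f ∈ X) (g x y : G) :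
    |H.Φ f (g * x) (g * y)| ≤ |H.Φ (g⁻¹ * f * g) x y| + C := by
  have h0 : g⁻¹ * f * g ∈ X := by
    have := H.Xconj f hf g⁻¹
    rwa [inv_inv] at this
  have h1 := H.equi (g⁻¹ * f * g) h0 g x y
  have e : g * (g⁻¹ * f * g) * g⁻¹ = f := by group
  rw [e] at h1
  have h2 := abs_sub_abs_le_abs_sub (H.Φ f (g * x) (g * y)) (H.Φ (g⁻¹ * f * g) x y)
  linarith

theorem abs_symm (H : Hubs d X C) {f : G} (hf : f ∈ X) (x y : G) :
    |H.Φ f y x| = |H.Φ f x y| := by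
  rw [hl_symm H hf, abs_neg]

theorem abs_tri (H : Hubs d X C) {f : G} (hf : f ∈ X) (x y z : G) :
    |H.Φ f x z| ≤ |H.Φ f x y| + |H.Φ f y z| := by
  rw [← H.coc f hf x y z]
  exact abs_add_le _ _

theorem near_pt (hG : HypG d δ) (H : Hubs d X C) {f : G} (hf : f ∈ X) {x w : G}
    (hw : w ∈ H.Z f) (hmin : ∀ z ∈ H.Z f, d x w ≤ d x z) : |H.Φ f x w| ≤ 2 * C := by
  have h1 := H.pr_gate f hf x w hw
  have h2 := hmin _ (H.pr_mem f hf x)
  have h3 := H.pr_phi f hf x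
  have h4 := H.lip f hf (H.pr f x) w
  have h5 := abs_tri H hf x (H.pr f x) w
  have _ := hG
  have h6 : d (H.pr f x) w ≤ C := by omega
  have h7 : (d (H.pr f x) w : ℝ) ≤ C := by exact_mod_cast h6
  linarith

theorem Z_conj (H : Hubs d X C) {f : G} (hf : f ∈ X) (g : G) {x : G} (hx : x ∈ H.Z f) :
    g * x ∈ H.Z (g * f * g⁻¹) := (H.Zconj f hf g x).2 hx

theorem Z_comm (H : Hubs d X C) {f y : G} (hf : f ∈ X) (hy : Commute y f) {x : G}
    (hx : x ∈ H.Z f) : y * x ∈ H.Z f := by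
  have h := Z_conj H hf y hx
  rwa [hy.eq, mul_inv_cancel_right] at h

theorem T_pos (H : Hubs d X C) (hF : Fam H F Δ Tm) (hT : 1000 * (Δ : ℝ) ≤ Tm) {f : G}
    (hf : f ∈ F) : 0 < H.T f ∧ 1000 * (Δ : ℝ) ≤ H.T f := by
  have h1 := hF.big f hf
  have h2 : (1 : ℝ) ≤ C := by exact_mod_cast hF.hC1
  have h3 : 1000 * (C : ℝ) ≤ Δ := by exact_mod_cast hF.hC
  constructor <;> linarith

/-- adjust an element by a power of `f` -/
theorem adjust (H : Hubs d X C) (hF : Fam H F Δ Tm) (hT : 1000 * (Δ : ℝ) ≤ Tm) {f : G}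
    (hf : f ∈ F) (x z : G) : ∃ m : ℤ, |H.Φ f x (f ^ m * z)| ≤ H.T f / 2 := by
  have hT0 := (T_pos H hF hT hf).1
  refine ⟨-round (H.Φ f x z / H.T f), ?_⟩
  have h1 := H.coc f (hF.sub hf) x z (f ^ (-round (H.Φ f x z / H.T f)) * z)
  have h2 := hl_zpow H (hF.sub hf) z (-round (H.Φ f x z / H.T f))
  rw [h2] at h1
  rw [← h1]
  have h3 := abs_sub_round (H.Φ f x z / H.T f)
  have h4 : H.Φ f x z + ((-round (H.Φ f x z / H.T f) : ℤ) : ℝ) * H.T f =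
      (H.Φ f x z / H.T f - (round (H.Φ f x z / H.T f) : ℝ)) * H.T f := by
    push_cast
    field_simp
    ring
  rw [h4, abs_mul, abs_of_pos hT0]
  nlinarith

/-- powers of relators are nontrivial -/
theorem pow_ne (H : Hubs d X C) (hF : Fam H F Δ Tm) (hT : 1000 * (Δ : ℝ) ≤ Tm) {f : G}
    (hf : f ∈ F) {m : ℤ} (hm : f ^ m = 1) : m = 0 := by
  have hT0 := (T_pos H hF hT hf).1
  have h1 := hl_zpow H (hF.sub hf) 1 m
  rw [hm, one_mul, hl_refl H (hF.sub hf)] at h1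
  have h2 : ((m : ℤ) : ℝ) = 0 := by
    rcases mul_eq_zero.1 h1.symm with h | h
    · exact h
    · exact absurd h hT0.ne'
  exact_mod_cast h2

/-- `K`-minimal pairs are tight -/
theorem min_tight (hG : HypG d δ) {H : Hubs d X C} (hF : Fam H F Δ Tm)
    (hT : 1000 * (Δ : ℝ) ≤ Tm) {x y : G} (hmin : ∀ k ∈ Subgroup.closure F, d x y ≤ d x (k * y))
    {f : G} (hf : f ∈ F) : |H.Φ f x y| ≤ H.T f / 2 + 11 * C := by
  have h2 : (1 : ℝ) ≤ C := by exact_mod_cast hF.hC1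
  have h3 : 1000 * (C : ℝ) ≤ Δ := by exact_mod_cast hF.hC
  have h4 := hl_min hG hF (by linarith) (x := x) (y := y)
    (fun k hk => (hmin k hk).trans (Nat.le_add_right _ _))
  have h5 := h4 f hf
  have h6 := h4 f⁻¹ (hF.inv f hf)
  have h7 := H.neg f (hF.sub hf) x y
  have h8 := H.Tinv f (hF.sub hf)
  simp only at h5 h6
  rw [h8] at h6
  rw [abs_le] at h7 ⊢
  constructor <;> linarith [h7.1, h7.2]

/-- (H0) same range lemma -/
theorem same_range (hG : HypG d δ) {H : Hubs d X C} (hF : Fam H F Δ Tm) (hC : 100 * δ ≤ C)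
    (hT : 1000 * (Δ : ℝ) ≤ Tm) {f : G} (hf : f ∈ F) {g x1 x2 : G} (hg : d x1 (g * x1) ≤ 3 * Δ)
    (h1 : H.T f / 3 ≤ |H.Φ f x1 x2|) (h2 : H.T f / 3 ≤ |H.Φ f (g * x1) (g * x2)|) :
    g * f * g⁻¹ = f ∨ g * f * g⁻¹ = f⁻¹ := by
  have hC1 : (1 : ℝ) ≤ C := by exact_mod_cast hF.hC1
  have hΔ : 1000 * (C : ℝ) ≤ Δ := by exact_mod_cast hF.hC
  have hfX := hF.sub hf
  have hTf := (T_pos H hF hT hf).2
  have hf'F := hF.conj f hf g
  have hf'X := hF.sub hf'F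
  obtain ⟨γ, hγ0, hγ1, hγ⟩ := exists_geo hG.path (g * x1) (g * x2)
  have h3 : H.T f / 3 - C ≤ |H.Φ (g * f * g⁻¹) (g * x1) (g * x2)| := by
    have h4 := H.equi f hfX g x1 x2
    have h5 := abs_sub_abs_le_abs_sub (H.Φ f x1 x2) (H.Φ (g * f * g⁻¹) (g * x1) (g * x2))
    rw [abs_sub_comm] at h5
    linarith
  have h2' : 10 * (C : ℝ) ≤ |H.Φ f (γ 0) (γ (d (g * x1) (g * x2)))| := by
    rw [hγ0, hγ1]; linarith
  have h3' : 10 * (C : ℝ) ≤ |H.Φ (g * f * g⁻¹) (γ 0) (γ (d (g * x1) (g * x2)))| := by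
    rw [hγ0, hγ1]; linarith
  obtain ⟨i1, i2, a1, a2, a3, a4, a5, a6, a7, a8, a9, a10, a11, a12⟩ :=
    hl_ee hG H hC hfX hγ (Nat.zero_le _) le_rfl h2'
  obtain ⟨j1, j2, b1, b2, b3, b4, b5, b6, b7, b8, b9, b10, b11, b12⟩ :=
    hl_ee hG H hC hf'X hγ (Nat.zero_le _) le_rfl h3'
  rw [hγ0] at a6 a9 a10 b6 b9 b10
  rw [hγ1] at a7 b7
  -- lengths
  have c1 : H.T f / 3 - 12 * C ≤ (i2 : ℝ) - i1 := by
    have e1 := abs_tri H hfX (g * x1) (γ i1) (g * x2)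
    have e2 := abs_tri H hfX (γ i1) (γ i2) (g * x2)
    have e3 := H.lip f hfX (γ i1) (γ i2)
    have e4 := hγ i1 i2 a2.le a3
    have e5 : (d (γ i1) (γ i2) : ℝ) + i1 = i2 := by exact_mod_cast e4
    linarith
  have c2 : H.T f / 3 - 13 * C ≤ (j2 : ℝ) - j1 := by
    have e1 := abs_tri H hf'X (g * x1) (γ j1) (g * x2)
    have e2 := abs_tri H hf'X (γ j1) (γ j2) (g * x2)
    have e3 := H.lip _ hf'X (γ j1) (γ j2)
    have e4 := hγ j1 j2 b2.le b3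
    have e5 : (d (γ j1) (γ j2) : ℝ) + j1 = j2 := by exact_mod_cast e4
    linarith
  -- entries
  have c3 : d (g * x1) (H.pr (g * f * g⁻¹) (g * x1)) ≤ d x1 (H.pr f x1) := by
    have e1 := H.pr_min _ hf'X (g * x1) _ (Z_conj H hfX g (H.pr_mem f hfX x1))
    rwa [hG.inv] at e1
  have c4 : d x1 (H.pr f x1) ≤ d (g * x1) (H.pr (g * f * g⁻¹) (g * x1)) := by
    have e0 : g⁻¹ * H.pr (g * f * g⁻¹) (g * x1) ∈ H.Z f := by
      have e1 := (H.Zconj f hfX g (g⁻¹ * H.pr (g * f * g⁻¹) (g * x1))).1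
      rw [mul_inv_cancel_left] at e1
      exact e1 (H.pr_mem _ hf'X _)
    have e1 := H.pr_min f hfX x1 _ e0
    have e2 := hG.inv g x1 (g⁻¹ * H.pr (g * f * g⁻¹) (g * x1))
    rw [mul_inv_cancel_left] at e2
    omega
  have c5 : d (g * x1) (H.pr f (g * x1)) ≤ d x1 (H.pr f x1) + 3 * Δ := by
    have e1 := H.pr_min f hfX (g * x1) _ (H.pr_mem f hfX x1)
    have e2 := hG.path.tri (g * x1) x1 (H.pr f x1)
    have e3 := hG.path.symm (g * x1) x1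
    omega
  have c6 : d x1 (H.pr f x1) ≤ d (g * x1) (H.pr f (g * x1)) + 3 * Δ := by
    have e1 := H.pr_min f hfX x1 _ (H.pr_mem f hfX (g * x1))
    have e2 := hG.path.tri x1 (g * x1) (H.pr f (g * x1))
    omega
  have c7 : i1 ≤ j1 + (3 * Δ + 5 * C) := by omega
  have c8 : j1 ≤ i1 + (3 * Δ + 5 * C) := by omega
  have c7' : (i1 : ℝ) ≤ j1 + (3 * Δ + 5 * C) := by exact_mod_cast c7
  have c8' : (j1 : ℝ) ≤ i1 + (3 * Δ + 5 * C) := by exact_mod_cast c8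
  -- a common piece
  obtain ⟨a, b, c9, c10, c11, c12, c13⟩ : ∃ a b : ℕ, i1 ≤ a ∧ j1 ≤ a ∧ b ≤ i2 ∧ b ≤ j2 ∧
      a + (Δ + 100 * C) ≤ b := by
    have e1 : (i1 : ℝ) + (Δ + 100 * C) ≤ i2 := by linarith
    have e2 : (i1 : ℝ) + (Δ + 100 * C) ≤ j2 := by linarith
    have e3 : (j1 : ℝ) + (Δ + 100 * C) ≤ i2 := by linarith
    have e4 : (j1 : ℝ) + (Δ + 100 * C) ≤ j2 := by linarith
    have e1' : i1 + (Δ + 100 * C) ≤ i2 := by exact_mod_cast e1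
    have e2' : i1 + (Δ + 100 * C) ≤ j2 := by exact_mod_cast e2
    have e3' : j1 + (Δ + 100 * C) ≤ i2 := by exact_mod_cast e3
    have e4' : j1 + (Δ + 100 * C) ≤ j2 := by exact_mod_cast e4
    exact ⟨max i1 j1, min i2 j2, le_max_left _ _, le_max_right _ _, min_le_left _ _,
      min_le_right _ _, by omega⟩
  have c14 : d (γ a) (γ b) + a = b := hγ a b (by omega) (by omega)
  have nh : ∀ {S : Set G} {x : G}, Nh d (7 * C) S x → Nh d (10 * C) S x := by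
    rintro S x ⟨z, hz, hd⟩
    exact ⟨z, hz, hd.trans (by omega)⟩
  have n1 := nh (a8 a (by omega) (by omega))
  have n2 := nh (a8 b (by omega) (by omega))
  have n3 := nh (b8 a (by omega) (by omega))
  have n4 := nh (b8 b (by omega) (by omega))
  exact hl_ov hG hF hf hf'F n1 n2 n3 n4 (by omega)

/-! ### algebra -/

section alg

variable {n q L Ax : ℕ} {H : Hubs d (Lx d (100 * C)) C}

theorem pow_n_ne (hF : Fam H F Δ Tm) (hT : 1000 * (Δ : ℝ) ≤ Tm) (hn : 3 ≤ n) {f : G}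
    (hf : f ∈ F) : f ^ n ≠ 1 := by
  intro h
  have h1 : f ^ (n : ℤ) = 1 := by rw [zpow_natCast]; exact h
  have h2 := pow_ne H hF hT hf h1
  omega

theorem comm_of_pm (hA : Alg H n q L Ax) (hF : Fam H F Δ Tm) (hT : 1000 * (Δ : ℝ) ≤ Tm)
    (hn : 3 ≤ n) {f g : G} (hf : f ∈ F) (h : g * f * g⁻¹ = f ∨ g * f * g⁻¹ = f⁻¹) :
    Commute g f := by
  rcases h with h | h
  · exact mul_inv_eq_iff_eq_mul.1 h
  · refine hA.ninv f g 1 (-1) (pow_n_ne hF hT hn hf) one_ne_zero ?_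
    rw [zpow_one, zpow_neg_one]
    exact h

theorem cent_tf (hA : Alg H n q L Ax) (hF : Fam H F Δ Tm) (hT : 1000 * (Δ : ℝ) ≤ Tm)
    (hn : 3 ≤ n) {f y : G} (hf : f ∈ F) (hy : Commute y f) (hyn : y ^ n = 1) : y = 1 := by
  obtain ⟨r, hr⟩ := hA.cent f (pow_n_ne hF hT hn hf)
  obtain ⟨a, ha⟩ := Subgroup.mem_zpowers_iff.1 ((hr y).1 hy)
  obtain ⟨b, hb⟩ := Subgroup.mem_zpowers_iff.1 ((hr f).1 (Commute.refl f))
  have h1 : f ^ (a * (n : ℤ)) = 1 := by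
    have e : f ^ (a * (n : ℤ)) = (y ^ n) ^ b := by
      rw [← hb, ← ha, ← zpow_natCast, ← zpow_mul, ← zpow_mul, ← zpow_mul]
      congr 1
      ring
    rw [e, hyn, one_zpow]
  have h2 := pow_ne H hF hT hf h1
  have h3 : a = 0 := by
    rcases mul_eq_zero.1 h2 with h | h
    · exact h
    · omega
  rw [← ha, h3, zpow_zero]

theorem common_cent (hA : Alg H n q L Ax) (hF : Fam H F Δ Tm) (hT : 1000 * (Δ : ℝ) ≤ Tm)
    (hn : 3 ≤ n) {f f1 y : G} (hf : f ∈ F) (hf1 : f1 ∈ F) (h : Commute y f)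
    (h1 : Commute y f1) (hy : y ≠ 1) : f1 = f ∨ f1 = f⁻¹ := by
  by_contra hcon
  push Not at hcon
  have hC1 : (1 : ℝ) ≤ C := by exact_mod_cast hF.hC1
  have hΔ : 1000 * (C : ℝ) ≤ Δ := by exact_mod_cast hF.hC
  have hyn : y ^ n ≠ 1 := fun e => hy (cent_tf hA hF hT hn hf h e)
  obtain ⟨r, hr⟩ := hA.cent y hyn
  obtain ⟨a, ha⟩ := Subgroup.mem_zpowers_iff.1 ((hr f).1 h.symm)
  obtain ⟨b, hb⟩ := Subgroup.mem_zpowers_iff.1 ((hr f1).1 h1.symm)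
  have e : f ^ b = f1 ^ a := by
    rw [← ha, ← hb, ← zpow_mul, ← zpow_mul, mul_comm]
  have hb0 : b ≠ 0 := by
    intro h0
    rw [h0, zpow_zero] at hb
    have h2 : f1 ^ (1 : ℤ) = 1 := by rw [zpow_one]; exact hb.symm
    exact absurd (pow_ne H hF hT hf1 h2) one_ne_zero
  have hx := H.pr_mem f1 (hF.sub hf1) 1
  have hx' := (hl_Zpow H (hF.sub hf1) (H.pr f1 1) a).2 hx
  have h2 := hF.sep f hf f1 hf1 hcon.1 hcon.2 _ hx _ hx'
  rw [← e, hl_zpow H (hF.sub hf), abs_mul] at h2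
  have h3 : (1 : ℝ) ≤ |(b : ℝ)| := by
    have h4 : (1 : ℤ) ≤ |b| := Int.one_le_abs hb0
    exact_mod_cast h4
  obtain ⟨h4, h5⟩ := T_pos H hF hT hf
  rw [abs_of_pos h4] at h2
  nlinarith

end alg

theorem exists_min {α : Type*} (P : α → Prop) (φ : α → ℕ) (h : ∃ a, P a) :
    ∃ a, P a ∧ ∀ b, P b → φ a ≤ φ b := by
  obtain ⟨a0, ha0⟩ := h
  have hne : {m : ℕ | ∃ a, P a ∧ φ a = m}.Nonempty := ⟨φ a0, a0, ha0, rfl⟩
  obtain ⟨a, ha, e⟩ := Nat.sInf_mem hne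
  exact ⟨a, ha, fun b hb => e ▸ Nat.sInf_le ⟨b, hb, rfl⟩⟩

/-! ### torsion -/

section tors

variable {n q L Ax : ℕ} {H : Hubs d (Lx d (100 * C)) C}

/-- The hypotheses. -/
structure Hyp (d : G → G → ℕ) (δ C Δ n q L Ax : ℕ) (H : Hubs d (Lx d (100 * C)) C) (F : Set G)
    (Tm : ℝ) : Prop where
  hG : HypG d δ
  hA : Alg H n q L Ax
  hF : Fam H F Δ Tm
  hC : 100 * δ ≤ C
  hT : 1000 * (Δ : ℝ) ≤ Tm
  hn : 3 ≤ n
  hK : ∀ k ∈ Subgroup.closure F, k ≠ 1 → ∀ x, ∃ f ∈ F, H.T f - 20 * Δ ≤ |H.Φ f x (k * x)|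
  hN : ∀ k ∈ Subgroup.closure F, ∀ g, g * k * g⁻¹ ∈ Subgroup.closure F

theorem t1 (h : Hyp d δ C Δ n q L Ax H F Tm) {g : G} (hg : g ^ n = 1)
    (hk : g ∈ Subgroup.closure F) : g = 1 := by
  by_contra hne
  have hC1 : (1 : ℝ) ≤ C := by exact_mod_cast h.hF.hC1
  have hΔ : 1000 * (C : ℝ) ≤ Δ := by exact_mod_cast h.hF.hC
  obtain ⟨x, hx⟩ := h.hA.ctr g hg
  obtain ⟨f, hf, h1⟩ := h.hK g hk hne x
  have h2 := H.lip f (h.hF.sub hf) x (g * x)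
  have h3 := hx 1
  rw [zpow_one] at h3
  have h4 : (d x (g * x) : ℝ) ≤ C := by exact_mod_cast h3
  have h5 := (T_pos H h.hF h.hT hf).2
  linarith

theorem t11 (h : Hyp d δ C Δ n q L Ax H F Tm) {g1 g2 : G} (hg1 : g1 ^ n = 1)
    (hg2 : g2 ^ n = 1) (hk : g1 * g2⁻¹ ∈ Subgroup.closure F) :
    ∃ k ∈ Subgroup.closure F, g1 = k * g2 * k⁻¹ := by
  have hC1 : (1 : ℝ) ≤ C := by exact_mod_cast h.hF.hC1
  have hΔ : 1000 * (C : ℝ) ≤ Δ := by exact_mod_cast h.hF.hC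
  have hG := h.hG
  obtain ⟨x1, hx1⟩ := h.hA.ctr g1 hg1
  obtain ⟨x2, hx2⟩ := h.hA.ctr g2 hg2
  obtain ⟨k0, hk0, hmin⟩ := exists_min (fun k => k ∈ Subgroup.closure F)
    (fun k => d x1 (k * x2)) ⟨1, Subgroup.one_mem _⟩
  -- the conjugate of `g2`
  obtain ⟨y2, hy2⟩ : ∃ y2, y2 = k0 * g2 * k0⁻¹ := ⟨_, rfl⟩
  obtain ⟨z2, hz2⟩ : ∃ z2, z2 = k0 * x2 := ⟨_, rfl⟩
  have hy2n : y2 ^ n = 1 := by rw [hy2, conj_pow, hg2]; group
  have hc2 : d z2 (y2 * z2) ≤ C := by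
    have h3 := hx2 1
    rw [zpow_one] at h3
    have e : y2 * z2 = k0 * (g2 * x2) := by rw [hy2, hz2]; group
    rw [e, hz2, hG.inv]
    exact h3
  have hc1 : d x1 (g1 * x1) ≤ C := by
    have h3 := hx1 1
    rwa [zpow_one] at h3
  have hmin' : ∀ k ∈ Subgroup.closure F, d x1 z2 ≤ d x1 (k * z2) := by
    intro k hk
    have h3 := hmin (k * k0) (Subgroup.mul_mem _ hk hk0)
    rw [hz2, ← mul_assoc]
    exact h3
  have hk2 : g1 * y2⁻¹ ∈ Subgroup.closure F := by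
    have e : g1 * y2⁻¹ = (g1 * g2⁻¹) * (g2 * (k0 * (g2⁻¹ * k0⁻¹ * g2⁻¹⁻¹)) * g2⁻¹) := by
      rw [hy2]; group
    rw [e]
    refine Subgroup.mul_mem _ hk (h.hN _ (Subgroup.mul_mem _ hk0 ?_) g2)
    exact h.hN _ (Subgroup.inv_mem _ hk0) g2⁻¹
  by_cases hone : g1 * y2⁻¹ = 1
  · refine ⟨k0, hk0, ?_⟩
    rw [← hy2]
    exact mul_inv_eq_one.1 hone
  exfalso
  obtain ⟨f, hf, h1⟩ := h.hK _ hk2 hone (y2 * z2)
  have e1 : g1 * y2⁻¹ * (y2 * z2) = g1 * z2 := by group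
  rw [e1] at h1
  have hfX := h.hF.sub hf
  have hTf := (T_pos H h.hF h.hT hf).2
  have a1 := abs_tri H hfX (y2 * z2) z2 (g1 * z2)
  have a2 := abs_tri H hfX z2 x1 (g1 * z2)
  have a3 := abs_tri H hfX x1 (g1 * x1) (g1 * z2)
  have a4 := abs_symm H hfX z2 (y2 * z2)
  have a5 := H.lip f hfX z2 (y2 * z2)
  have a6 := H.lip f hfX x1 (g1 * x1)
  have a7 : (d z2 (y2 * z2) : ℝ) ≤ C := by exact_mod_cast hc2
  have a8 : (d x1 (g1 * x1) : ℝ) ≤ C := by exact_mod_cast hc1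
  have a9 := min_tight hG h.hF h.hT hmin' hf
  have a10 := abs_symm H hfX x1 z2
  have a11 := abs_equi H hfX g1 x1 z2
  have hf2 : g1⁻¹ * f * g1 ∈ F := by
    have := h.hF.conj f hf g1⁻¹
    rwa [inv_inv] at this
  have a12 := min_tight hG h.hF h.hT hmin' hf2
  have a13 : H.T (g1⁻¹ * f * g1) = H.T f := by
    have := H.Tconj f hfX g1⁻¹
    rwa [inv_inv] at this
  rw [a13] at a12
  have a14 : d x1 (g1 * x1) ≤ 3 * Δ := by
    have := h.hF.hC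
    omega
  have a15 := same_range hG h.hF h.hC h.hT hf a14 (x2 := z2) (by linarith) (by linarith)
  have a16 := comm_of_pm h.hA h.hF h.hT h.hn hf a15
  have a17 := cent_tf h.hA h.hF h.hT h.hn hf a16 hg1
  have a18 : y2 ∈ Subgroup.closure F := by
    have := Subgroup.inv_mem _ hk2
    rwa [a17, one_mul, inv_inv] at this
  have a19 := t1 h hy2n a18
  exact hone (by rw [a17, a19]; group)

theorem t2 (h : Hyp d δ C Δ n q L Ax H F Tm) {f y : G} (hf : f ∈ F) (hy : Commute y f)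
    (hk : y ∈ Subgroup.closure F) : y ∈ Subgroup.zpowers f := by
  have hC1 : (1 : ℝ) ≤ C := by exact_mod_cast h.hF.hC1
  have hΔ : 1000 * (C : ℝ) ≤ Δ := by exact_mod_cast h.hF.hC
  have hfX := h.hF.sub hf
  have hx := H.pr_mem f hfX 1
  obtain ⟨x, hxd⟩ : ∃ x, x = H.pr f 1 := ⟨_, rfl⟩
  rw [← hxd] at hx
  obtain ⟨m, hm⟩ := adjust H h.hF h.hT hf x (y * x)
  rw [← mul_assoc] at hm
  have hc : Commute (f ^ m * y) f := ((Commute.refl f).zpow_left m).mul_left hy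
  have hk' : f ^ m * y ∈ Subgroup.closure F :=
    Subgroup.mul_mem _ (Subgroup.zpow_mem _ (Subgroup.subset_closure hf) m) hk
  by_cases hone : f ^ m * y = 1
  · rw [Subgroup.mem_zpowers_iff]
    refine ⟨-m, ?_⟩
    rw [zpow_neg]
    exact (eq_inv_of_mul_eq_one_right hone).symm
  exfalso
  obtain ⟨f', hf', h1⟩ := h.hK _ hk' hone x
  have hTf' := (T_pos H h.hF h.hT hf').2
  have hTf := (T_pos H h.hF h.hT hf).2
  by_cases hpm : f = f' ∨ f = f'⁻¹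
  · have hpm' : f' = f ∨ f' = f⁻¹ := by
      rcases hpm with e | e
      · exact Or.inl e.symm
      · exact Or.inr (by rw [e, inv_inv])
    obtain ⟨h2, h3⟩ := abs_pm H hfX hpm' x (f ^ m * y * x)
    rw [h3] at h1
    linarith
  · push Not at hpm
    have h2 := h.hF.sep f' hf' f hf hpm.1 hpm.2 x hx _ (Z_comm H hfX hc hx)
    linarith

theorem t12 (h : Hyp d δ C Δ n q L Ax H F Tm) {g f y : G} (hg : g ^ n = 1) (hf : f ∈ F)
    (hy : Commute y f) (hk : g * y⁻¹ ∈ Subgroup.closure F) : y ∈ Subgroup.closure F := by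
  have hC1 : (1 : ℝ) ≤ C := by exact_mod_cast h.hF.hC1
  have hΔ : 1000 * (C : ℝ) ≤ Δ := by exact_mod_cast h.hF.hC
  have hG := h.hG
  by_contra hyK
  obtain ⟨x1, hx1⟩ := h.hA.ctr g hg
  have hc1 : d x1 (g * x1) ≤ C := by
    have h3 := hx1 1
    rwa [zpow_one] at h3
  -- nearest point of a translate of the axis
  obtain ⟨⟨k0, x2⟩, ⟨hk0, hx2⟩, hmin⟩ := exists_min
    (fun p : G × G => p.1 ∈ Subgroup.closure F ∧ p.2 ∈ H.Z (p.1 * f * p.1⁻¹))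
    (fun p => d x1 p.2) ⟨(1, H.pr f 1), Subgroup.one_mem _, by
      simp only [one_mul, inv_one, mul_one]
      exact H.pr_mem f (h.hF.sub hf) 1⟩
  simp only at hk0 hx2 hmin
  obtain ⟨f0, hf0d⟩ : ∃ f0, f0 = k0 * f * k0⁻¹ := ⟨_, rfl⟩
  rw [← hf0d] at hx2
  have hf0 : f0 ∈ F := by rw [hf0d]; exact h.hF.conj f hf k0
  have hf0X := h.hF.sub hf0
  have hmin1 : ∀ k ∈ Subgroup.closure F, ∀ z ∈ H.Z (k * f0 * k⁻¹), d x1 x2 ≤ d x1 z := by
    intro k hk z hz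
    refine hmin (k * k0, z) ⟨Subgroup.mul_mem _ hk hk0, ?_⟩
    have e : k * k0 * f * (k * k0)⁻¹ = k * f0 * k⁻¹ := by rw [hf0d]; group
    simp only
    rw [e]
    exact hz
  have hmin2 : ∀ k ∈ Subgroup.closure F, d x1 x2 ≤ d x1 (k * x2) := fun k hk =>
    hmin1 k hk _ (Z_conj H hf0X k hx2)
  have hmin3 : ∀ z ∈ H.Z f0, d x1 x2 ≤ d x1 z := by
    intro z hz
    refine hmin1 1 (Subgroup.one_mem _) z ?_
    rwa [one_mul, inv_one, mul_one]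
  -- adjusted element
  obtain ⟨m, hm⟩ := adjust H h.hF h.hT hf0 x2 (k0 * y * k0⁻¹ * x2)
  rw [← mul_assoc] at hm
  obtain ⟨y0, hy0d⟩ : ∃ y0, y0 = f0 ^ m * (k0 * y * k0⁻¹) := ⟨_, rfl⟩
  rw [← hy0d] at hm
  have hy0 : Commute y0 f0 := by
    rw [hy0d]
    refine ((Commute.refl f0).zpow_left m).mul_left ?_
    rw [hf0d]
    exact (hy.conj k0)
  have hyy0 : y0 * y⁻¹ ∈ Subgroup.closure F := by
    rw [hy0d]
    have e : f0 ^ m * (k0 * y * k0⁻¹) * y⁻¹ = f0 ^ m * (k0 * (y * k0⁻¹ * y⁻¹)) := by group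
    rw [e]
    exact Subgroup.mul_mem _ (Subgroup.zpow_mem _ (Subgroup.subset_closure hf0) m)
      (Subgroup.mul_mem _ hk0 (h.hN _ (Subgroup.inv_mem _ hk0) y))
  have hy0K : y0 ∉ Subgroup.closure F := by
    intro h0
    apply hyK
    have e : y = (y0 * y⁻¹)⁻¹ * y0 := by group
    rw [e]
    exact Subgroup.mul_mem _ (Subgroup.inv_mem _ hyy0) h0
  have hk1 : y0 * g⁻¹ ∈ Subgroup.closure F := by
    have e : y0 * g⁻¹ = (y0 * y⁻¹) * (g * y⁻¹)⁻¹ := by group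
    rw [e]
    exact Subgroup.mul_mem _ hyy0 (Subgroup.inv_mem _ hk)
  by_cases hone : y0 * g⁻¹ = 1
  · have e : y0 = g := mul_inv_eq_one.1 hone
    have h1 := cent_tf h.hA h.hF h.hT h.hn hf0 hy0 (by rw [e]; exact hg)
    exact hy0K (by rw [h1]; exact Subgroup.one_mem _)
  obtain ⟨f', hf', h1⟩ := h.hK _ hk1 hone (g * x2)
  have e1 : y0 * g⁻¹ * (g * x2) = y0 * x2 := by group
  rw [e1] at h1
  have hf'X := h.hF.sub hf'
  have hTf' := (T_pos H h.hF h.hT hf').2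
  have hTf0 := (T_pos H h.hF h.hT hf0).2
  have a8 : (d x1 (g * x1) : ℝ) ≤ C := by exact_mod_cast hc1
  by_cases hpm : f0 = f' ∨ f0 = f'⁻¹
  · have hpm' : f' = f0 ∨ f' = f0⁻¹ := by
      rcases hpm with e | e
      · exact Or.inl e.symm
      · exact Or.inr (by rw [e, inv_inv])
    obtain ⟨h2, h3⟩ := abs_pm H hf0X hpm' (g * x2) (y0 * x2)
    rw [h3] at h1
    have b1 := near_pt hG H hf0X hx2 hmin3
    have a1 := abs_tri H hf0X (g * x2) (g * x1) (y0 * x2)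
    have a2 := abs_tri H hf0X (g * x1) x1 (y0 * x2)
    have a3 := abs_tri H hf0X x1 x2 (y0 * x2)
    have a4 := abs_symm H hf0X x1 (g * x1)
    have a5 := H.lip f0 hf0X x1 (g * x1)
    have a6 := abs_symm H hf0X (g * x1) (g * x2)
    have a7 := H.thr f0 hf0X (g * x1) (g * x2) (by linarith)
    have b2 := hG.inv g x1 x2
    rw [b2] at a7
    have b3 := hmin3 _ (H.pr_mem f0 hf0X (g * x1))
    have b4 := hG.path.tri x1 (g * x1) (H.pr f0 (g * x1))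
    have b5 : (d x1 x2 : ℝ) ≤ d x1 (g * x1) + d (g * x1) (H.pr f0 (g * x1)) := by
      exact_mod_cast b3.trans b4
    have b6 : (0 : ℝ) ≤ d (H.pr f0 (g * x2)) (g * x2) := Nat.cast_nonneg _
    linarith
  · push Not at hpm
    have b1 := h.hF.sep f' hf' f0 hf0 hpm.1 hpm.2 x2 hx2 _ (Z_comm H hf0X hy0 hx2)
    have a1 := abs_tri H hf'X (g * x2) (g * x1) (y0 * x2)
    have a2 := abs_tri H hf'X (g * x1) x1 (y0 * x2)
    have a3 := abs_tri H hf'X x1 x2 (y0 * x2)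
    have a4 := abs_symm H hf'X x1 (g * x1)
    have a5 := H.lip f' hf'X x1 (g * x1)
    have a6 := abs_symm H hf'X (g * x1) (g * x2)
    have a9 := min_tight hG h.hF h.hT hmin2 hf'
    have a11 := abs_equi H hf'X g x1 x2
    have hf2 : g⁻¹ * f' * g ∈ F := by
      have := h.hF.conj f' hf' g⁻¹
      rwa [inv_inv] at this
    have a12 := min_tight hG h.hF h.hT hmin2 hf2
    have a13 : H.T (g⁻¹ * f' * g) = H.T f' := by
      have := H.Tconj f' hf'X g⁻¹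
      rwa [inv_inv] at this
    rw [a13] at a12
    have a14 : d x1 (g * x1) ≤ 3 * Δ := by
      have := h.hF.hC
      omega
    have a15 := same_range hG h.hF h.hC h.hT hf' a14 (x2 := x2) (by linarith) (by linarith)
    have a16 := comm_of_pm h.hA h.hF h.hT h.hn hf' a15
    have a17 := cent_tf h.hA h.hF h.hT h.hn hf' a16 hg
    apply hy0K
    rw [a17, inv_one, mul_one] at hk1
    exact hk1

theorem t22 (h : Hyp d δ C Δ n q L Ax H F Tm) {f1 f2 y1 y2 : G} (hf1 : f1 ∈ F) (hf2 : f2 ∈ F)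
    (hy1 : Commute y1 f1) (hy2 : Commute y2 f2) (hk : y1 * y2⁻¹ ∈ Subgroup.closure F)
    (hy1K : y1 ∉ Subgroup.closure F) :
    ∃ k ∈ Subgroup.closure F, f1 = k * f2 * k⁻¹ ∨ f1 = k * f2⁻¹ * k⁻¹ := by
  have hC1 : (1 : ℝ) ≤ C := by exact_mod_cast h.hF.hC1
  have hΔ : 1000 * (C : ℝ) ≤ Δ := by exact_mod_cast h.hF.hC
  have hG := h.hG
  have hf1X := h.hF.sub hf1
  by_contra hcon
  push Not at hcon
  obtain ⟨⟨k0, x1, x2⟩, ⟨hk0, hx1, hx2⟩, hmin⟩ := exists_min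
    (fun p : G × G × G => p.1 ∈ Subgroup.closure F ∧ p.2.1 ∈ H.Z f1 ∧
      p.2.2 ∈ H.Z (p.1 * f2 * p.1⁻¹))
    (fun p => d p.2.1 p.2.2) ⟨(1, H.pr f1 1, H.pr f2 1), Subgroup.one_mem _,
      H.pr_mem f1 hf1X 1, by
      simp only [one_mul, inv_one, mul_one]
      exact H.pr_mem f2 (h.hF.sub hf2) 1⟩
  simp only at hk0 hx1 hx2 hmin
  obtain ⟨f0, hf0d⟩ : ∃ f0, f0 = k0 * f2 * k0⁻¹ := ⟨_, rfl⟩
  rw [← hf0d] at hx2
  have hf0 : f0 ∈ F := by rw [hf0d]; exact h.hF.conj f2 hf2 k0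
  have hf0X := h.hF.sub hf0
  have hne1 : f0 ≠ f1 := by
    intro e
    exact (hcon k0 hk0).1 (by rw [← hf0d, e])
  have hne2 : f0 ≠ f1⁻¹ := by
    intro e
    refine (hcon k0 hk0).2 ?_
    have e2 : k0 * f2⁻¹ * k0⁻¹ = f0⁻¹ := by rw [hf0d]; group
    rw [e2, e, inv_inv]
  have hne1' : f1 ≠ f0 := fun e => hne1 e.symm
  have hne2' : f1 ≠ f0⁻¹ := fun e => hne2 (by rw [e, inv_inv])
  have hmin1 : ∀ k ∈ Subgroup.closure F, ∀ w ∈ H.Z f1, ∀ z ∈ H.Z (k * f0 * k⁻¹),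
      d x1 x2 ≤ d w z := by
    intro k hk w hw z hz
    refine hmin (k * k0, w, z) ⟨Subgroup.mul_mem _ hk hk0, hw, ?_⟩
    have e : k * k0 * f2 * (k * k0)⁻¹ = k * f0 * k⁻¹ := by rw [hf0d]; group
    simp only
    rw [e]
    exact hz
  have hmin2 : ∀ k ∈ Subgroup.closure F, d x1 x2 ≤ d x1 (k * x2) := fun k hk =>
    hmin1 k hk _ hx1 _ (Z_conj H hf0X k hx2)
  have hmin3 : ∀ w ∈ H.Z f1, ∀ z ∈ H.Z f0, d x1 x2 ≤ d w z := by
    intro w hw z hz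
    refine hmin1 1 (Subgroup.one_mem _) w hw z ?_
    rwa [one_mul, inv_one, mul_one]
  have hmin4 : ∀ w ∈ H.Z f1, d x2 x1 ≤ d x2 w := by
    intro w hw
    rw [hG.path.symm x2 x1, hG.path.symm x2 w]
    exact hmin3 w hw x2 hx2
  -- adjusted elements
  obtain ⟨m1, hm1⟩ := adjust H h.hF h.hT hf1 x1 (y1 * x1)
  rw [← mul_assoc] at hm1
  obtain ⟨u1, hu1d⟩ : ∃ u1, u1 = f1 ^ m1 * y1 := ⟨_, rfl⟩
  rw [← hu1d] at hm1
  obtain ⟨m2, hm2⟩ := adjust H h.hF h.hT hf0 x2 (k0 * y2 * k0⁻¹ * x2)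
  rw [← mul_assoc] at hm2
  obtain ⟨u2, hu2d⟩ : ∃ u2, u2 = f0 ^ m2 * (k0 * y2 * k0⁻¹) := ⟨_, rfl⟩
  rw [← hu2d] at hm2
  have hu1 : Commute u1 f1 := by
    rw [hu1d]
    exact ((Commute.refl f1).zpow_left m1).mul_left hy1
  have hu2 : Commute u2 f0 := by
    rw [hu2d]
    refine ((Commute.refl f0).zpow_left m2).mul_left ?_
    rw [hf0d]
    exact (hy2.conj k0)
  have hu1y : u1 * y1⁻¹ ∈ Subgroup.closure F := by
    rw [hu1d, mul_inv_cancel_right]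
    exact Subgroup.zpow_mem _ (Subgroup.subset_closure hf1) m1
  have hu2y : u2 * y2⁻¹ ∈ Subgroup.closure F := by
    rw [hu2d]
    have e : f0 ^ m2 * (k0 * y2 * k0⁻¹) * y2⁻¹ = f0 ^ m2 * (k0 * (y2 * k0⁻¹ * y2⁻¹)) := by group
    rw [e]
    exact Subgroup.mul_mem _ (Subgroup.zpow_mem _ (Subgroup.subset_closure hf0) m2)
      (Subgroup.mul_mem _ hk0 (h.hN _ (Subgroup.inv_mem _ hk0) y2))
  have hu1K : u1 ∉ Subgroup.closure F := by
    intro h0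
    apply hy1K
    have e : y1 = (u1 * y1⁻¹)⁻¹ * u1 := by group
    rw [e]
    exact Subgroup.mul_mem _ (Subgroup.inv_mem _ hu1y) h0
  have hu1ne : u1 ≠ 1 := by
    intro e
    exact hu1K (by rw [e]; exact Subgroup.one_mem _)
  have hk1 : u1 * u2⁻¹ ∈ Subgroup.closure F := by
    have e : u1 * u2⁻¹ = (u1 * y1⁻¹) * (y1 * y2⁻¹) * (u2 * y2⁻¹)⁻¹ := by group
    rw [e]
    exact Subgroup.mul_mem _ (Subgroup.mul_mem _ hu1y hk) (Subgroup.inv_mem _ hu2y)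
  by_cases hone : u1 * u2⁻¹ = 1
  · have e : u1 = u2 := mul_inv_eq_one.1 hone
    have h1 := common_cent h.hA h.hF h.hT h.hn hf1 hf0 hu1 (by rw [e]; exact hu2) hu1ne
    rcases h1 with h1 | h1
    · exact hne1 h1
    · exact hne2 h1
  obtain ⟨f, hf, h1⟩ := h.hK _ hk1 hone (u2 * x2)
  have e1 : u1 * u2⁻¹ * (u2 * x2) = u1 * x2 := by group
  rw [e1] at h1
  have hfX := h.hF.sub hf
  have hTf := (T_pos H h.hF h.hT hf).2
  have hTf0 := (T_pos H h.hF h.hT hf0).2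
  have hTf1 := (T_pos H h.hF h.hT hf1).2
  have z1 := Z_comm H hf1X hu1 hx1
  have z2 := Z_comm H hf0X hu2 hx2
  by_cases hpm : f1 = f ∨ f1 = f⁻¹
  · have hpm' : f = f1 ∨ f = f1⁻¹ := by
      rcases hpm with e | e
      · exact Or.inl e.symm
      · exact Or.inr (by rw [e, inv_inv])
    obtain ⟨h2, h3⟩ := abs_pm H hf1X hpm' (u2 * x2) (u1 * x2)
    rw [h3] at h1
    have b1 := near_pt hG H hf1X hx1 hmin4
    have b2 := h.hF.sep f1 hf1 f0 hf0 hne1 hne2 _ z2 x2 hx2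
    have a1 := abs_tri H hf1X (u2 * x2) x2 (u1 * x2)
    have a2 := abs_tri H hf1X x2 x1 (u1 * x2)
    have a3 := abs_tri H hf1X x1 (u1 * x1) (u1 * x2)
    have a4 := abs_equi H hf1X u1 x1 x2
    have e2 : u1⁻¹ * f1 * u1 = f1 := by rw [mul_assoc, ← hu1.eq, inv_mul_cancel_left]
    rw [e2, abs_symm H hf1X x2 x1] at a4
    linarith
  by_cases hpm0 : f0 = f ∨ f0 = f⁻¹
  · have hpm' : f = f0 ∨ f = f0⁻¹ := by
      rcases hpm0 with e | e
      · exact Or.inl e.symm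
      · exact Or.inr (by rw [e, inv_inv])
    obtain ⟨h2, h3⟩ := abs_pm H hf0X hpm' (u2 * x2) (u1 * x2)
    rw [h3] at h1
    have b1 := near_pt hG H hf0X hx2 (hmin3 x1 hx1)
    have b2 := h.hF.sep f0 hf0 f1 hf1 hne1' hne2' x1 hx1 _ z1
    have a1 := abs_tri H hf0X (u2 * x2) x2 (u1 * x2)
    have a2 := abs_tri H hf0X x2 x1 (u1 * x2)
    have a3 := abs_tri H hf0X x1 (u1 * x1) (u1 * x2)
    rw [abs_symm H hf0X x1 x2] at a2
    rw [abs_symm H hf0X x2 (u2 * x2)] at a1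
    have a7 := H.thr f0 hf0X (u1 * x1) (u1 * x2) (by linarith)
    rw [hG.inv u1 x1 x2] at a7
    have b3 := hmin3 _ z1 _ (H.pr_mem f0 hf0X (u1 * x1))
    have b5 : (d x1 x2 : ℝ) ≤ d (u1 * x1) (H.pr f0 (u1 * x1)) := by exact_mod_cast b3
    have b6 : (0 : ℝ) ≤ d (H.pr f0 (u1 * x2)) (u1 * x2) := Nat.cast_nonneg _
    linarith
  push Not at hpm hpm0
  have b1 := h.hF.sep f hf f0 hf0 hpm0.1 hpm0.2 _ z2 x2 hx2
  have b2 := h.hF.sep f hf f1 hf1 hpm.1 hpm.2 x1 hx1 _ z1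
  have a1 := abs_tri H hfX (u2 * x2) x2 (u1 * x2)
  have a2 := abs_tri H hfX x2 x1 (u1 * x2)
  have a3 := abs_tri H hfX x1 (u1 * x1) (u1 * x2)
  have a4 := abs_symm H hfX x1 x2
  have a9 := min_tight hG h.hF h.hT hmin2 hf
  have a11 := abs_equi H hfX u1 x1 x2
  have hfc : u1⁻¹ * f * u1 ∈ F := by
    have := h.hF.conj f hf u1⁻¹
    rwa [inv_inv] at this
  have a12 := min_tight hG h.hF h.hT hmin2 hfc
  have a13 : H.T (u1⁻¹ * f * u1) = H.T f := by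
    have := H.Tconj f hfX u1⁻¹
    rwa [inv_inv] at this
  rw [a13] at a12
  have c1 : H.T f / 3 ≤ |H.Φ f x1 x2| := by linarith
  have c2 : H.T f / 3 ≤ |H.Φ f (u1 * x1) (u1 * x2)| := by linarith
  have d1 : ∀ z ∈ H.Z f, |H.Φ f1 x2 z| ≤ Δ + 10 * C := by
    rcases hl_beh hG h.hF hf hf1 hpm.1 hpm.2 x2 with e | e
    · have := e x1 hx1
      linarith
    · exact e
  have d2 : ∀ z ∈ H.Z f, |H.Φ f1 (u1 * x2) z| ≤ Δ + 10 * C := by
    rcases hl_beh hG h.hF hf hf1 hpm.1 hpm.2 (u1 * x2) with e | e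
    · have e3 := e _ z1
      rw [abs_symm H hfX (u1 * x1) (u1 * x2)] at e3
      linarith
    · exact e
  have d3 := d1 _ (H.pr_mem f hfX 1)
  have d4 := d2 _ (H.pr_mem f hfX 1)
  have g1 := abs_tri H hf1X x1 x2 (u1 * x1)
  have g2 := abs_tri H hf1X x2 (H.pr f 1) (u1 * x1)
  have g3 := abs_tri H hf1X (H.pr f 1) (u1 * x2) (u1 * x1)
  rw [abs_symm H hf1X (u1 * x2) (H.pr f 1)] at g3
  have g4 := near_pt hG H hf1X hx1 hmin4
  have g5 := abs_equi H hf1X u1 x2 x1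
  have e2 : u1⁻¹ * f1 * u1 = f1 := by rw [mul_assoc, ← hu1.eq, inv_mul_cancel_left]
  rw [e2] at g5
  rw [abs_symm H hf1X x2 x1] at g1
  have g6 := H.on f1 hf1X x1 hx1 _ z1
  have g7 : (d x1 (u1 * x1) : ℝ) ≤ 3 * Δ := by linarith
  have g8 : d x1 (u1 * x1) ≤ 3 * Δ := by exact_mod_cast g7
  have a15 := same_range hG h.hF h.hC h.hT hf g8 c1 c2
  have a16 := comm_of_pm h.hA h.hF h.hT h.hn hf a15
  have a17 := common_cent h.hA h.hF h.hT h.hn hf hf1 a16 hu1 hu1ne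
  rcases a17 with e | e
  · exact hpm.1 e
  · exact hpm.2 e

end tors

end PH

open PH

/-- Part H1. -/
theorem stH : StC → StH := by
  intro hSC G G' _ _ d d' δ C Δ R n q A L Ax L1 M1 F H Tm π hS hA hR hc2 hQ
  have hT : 1000 * (Δ : ℝ) ≤ Tm := by
    have h1 : 1000 * (Δ : ℝ) ≤ R := by exact_mod_cast hc2.cst.hR
    have h2 := hc2.cst.hT
    have h3 : (0 : ℝ) ≤ R := Nat.cast_nonneg R
    linarith
  have hΔ0 : (0 : ℝ) ≤ Δ := Nat.cast_nonneg Δ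
  have h : Hyp d δ C Δ n q L Ax H F Tm :=
    { hG := hS.toHypG
      hA := hA
      hF := hR.toFam
      hC := hc2.cst.hC
      hT := hT
      hn := hc2.hn
      hK := hSC G d δ C Δ _ F H Tm hS.toHypG hc2.cst.hC hR.toFam (by linarith)
      hN := by
        intro k hk g
        rw [← hQ.ker] at hk ⊢
        rw [map_mul, map_mul, hk, mul_one, ← map_mul, mul_inv_cancel, map_one] }
  refine ⟨?_, ?_, ?_, ?_, ?_⟩
  · intro g1 g2 hg1 hg2 t' ht'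
    obtain ⟨s, rfl⟩ := hQ.surj t'
    have h1 : (s * g2 * s⁻¹) ^ n = 1 := by rw [conj_pow, hg2]; group
    obtain ⟨k, hk, e⟩ := t11 h hg1 h1 (by
      rw [← hQ.ker]
      simp only [map_mul, map_inv, ht', mul_inv_cancel])
    refine ⟨k * s, ?_, ?_⟩
    · rw [← hQ.ker] at hk
      rw [map_mul, hk, one_mul]
    · rw [e]; group
  · intro g hg hk
    exact t1 h hg ((hQ.ker g).1 hk)
  · intro f1 hf1 f2 hf2 y1 y2 hy1 hy2 hne t' ht'
    obtain ⟨s, rfl⟩ := hQ.surj t'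
    obtain ⟨k, hk, e⟩ := t22 h hf1 (h.hF.conj f2 hf2 s) hy1 (hy2.conj s) (by
      rw [← hQ.ker]
      simp only [map_mul, map_inv, ht', mul_inv_cancel]) (by
      rw [← hQ.ker]; exact hne)
    refine ⟨k * s, ?_, ?_⟩
    · rw [← hQ.ker] at hk
      rw [map_mul, hk, one_mul]
    · rcases e with e | e
      · left; rw [e]; group
      · right; rw [e]; group
  · intro f hf y hy hk
    exact t2 h hf hy ((hQ.ker y).1 hk)
  · intro g hg f hf y hy hne t' ht'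
    obtain ⟨s, rfl⟩ := hQ.surj t'
    have h1 := t12 h hg (h.hF.conj f hf s) (hy.conj s) (by
      rw [← hQ.ker]
      simp only [map_mul, map_inv, ht', mul_inv_cancel])
    rw [← hQ.ker] at h1
    apply hne
    rw [map_mul, map_mul, map_inv] at h1
    have h2 := mul_inv_eq_one.1 h1
    exact mul_eq_left.1 h2

end Pool.Agent.Helper74.TB
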