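import Pool.Agent.Helper74.TB.StX

/-!
MP_7d16da_al: the power relators form a relator family (Part P).
-/

set_option autoImplicit false

namespace Pool.Agent.Helper74.TB

open Pool.Agent.Helper74.MH

section

variable {G : Type*} [Group G] {d : G → G → ℕ}

/-- Sublinear comparison. -/
theorem p_lim {a b c : ℝ} (h : ∀ m : ℕ, a * m ≤ b * m + c) : a ≤ b := by
  by_contra hcon
  push Not at hcon
  obtain ⟨m, hm⟩ := exists_nat_gt (c / (a - b))
  have h1 := h m
  rw [div_lt_iff₀ (by linarith)] at hm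
  nlinarith

/-- Data of a power relator. -/
theorem p_data {δ n q A L : ℕ} (hS : Stage d δ n q A L) {g r : G}
    (hg : g ^ n ≠ 1) (hr : ∀ y, Commute y g ↔ y ∈ Subgroup.zpowers r) :
    (∀ (x : G) (m : ℕ), m ≤ q * d x (r ^ m * x)) ∧
    (∃ k : ℤ, g = r ^ k ∧ k ≠ 0) := by
  obtain ⟨k, hk⟩ := Subgroup.mem_zpowers_iff.1 ((hr g).1 (Commute.refl g))
  have hrn : r ^ n ≠ 1 := by
    intro h
    apply hg
    rw [← hk, ← zpow_natCast, ← zpow_mul, mul_comm, zpow_mul, zpow_natCast, h, one_zpow]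
  refine ⟨(hS.tor r).resolve_left hrn, k, hk.symm, ?_⟩
  rintro rfl
  apply hg
  rw [← hk, zpow_zero, one_pow]

/-- An element with linear orbits has infinite order. -/
theorem p_inf {q : ℕ} (h0 : ∀ x y : G, d x y = 0 ↔ x = y) {r : G}
    (hr : ∀ (x : G) (m : ℕ), m ≤ q * d x (r ^ m * x)) {m : ℤ} (hm : r ^ m = 1) : m = 0 := by
  have key : ∀ k : ℕ, r ^ k = 1 → k = 0 := by
    intro k hk
    have h1 := hr 1 k
    rw [hk, one_mul, (h0 1 1).2 rfl, mul_zero] at h1
    omega
  rcases Int.natAbs_eq m with h | h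
  · rw [h, zpow_natCast] at hm
    rw [h, key _ hm]
    rfl
  · rw [h, zpow_neg, zpow_natCast, inv_eq_one] at hm
    rw [h, key _ hm]
    rfl

/-- Powers of a commuting element move the axis linearly. -/
theorem p_lin {C : ℕ} {X : Set G} (H : Hubs d X C) {f : G} (hf : f ∈ X) {r : G}
    (hrf : Commute r f) (x : G) (m : ℕ) :
    |H.Φ f x (r ^ m * x) - m * H.Φ f x (r * x)| ≤ m * C := by
  induction m with
  | zero =>
    have h1 := H.coc f hf x x x
    have h2 : H.Φ f x x = 0 := by linarith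
    rw [pow_zero, one_mul, h2]
    simp
  | succ m ih =>
    have h1 := H.coc f hf x (r ^ m * x) (r ^ (m + 1) * x)
    have h2 := H.equi f hf (r ^ m) x (r * x)
    have e1 : r ^ m * f * (r ^ m)⁻¹ = f := by
      rw [(hrf.pow_left m).eq, mul_inv_cancel_right]
    rw [e1, ← mul_assoc, ← pow_succ] at h2
    rw [abs_le] at ih h2 ⊢
    push_cast
    constructor <;> linarith [ih.1, ih.2, h2.1, h2.2]

/-- Everything about one power relator. -/
theorem p_one {δ C n q A L Ax L1 : ℕ} (H : Hubs d (Lx d (100 * C)) C)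
    (hS : Stage d δ n q A L) (hn : Odd n) (hq : 1 ≤ q) (hA : Alg H n q L Ax)
    (hCq : 100 * C * q ≤ n) {f g r : G}
    (hg : g ^ n ≠ 1) (hx : ∃ x, d x (g * x) ≤ L1)
    (hr : ∀ y, Commute y g ↔ y ∈ Subgroup.zpowers r) (hf : f = r ^ n) :
    f ∈ Lx d (100 * C) ∧ (n : ℝ) ≤ q * H.T f ∧
    (∀ y, Commute y f ↔ y ∈ Subgroup.zpowers r) ∧ (∀ m : ℤ, r ^ m = 1 → m = 0) ∧
    (∀ z ∈ H.Z f, d z (r * z) ≤ L1 + 2 * C) := by
  obtain ⟨hlin, k, hk, hk0⟩ := p_data hS hg hr
  have hG := hS.toHypG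
  have hinf : ∀ m : ℤ, r ^ m = 1 → m = 0 := fun m hm => p_inf hG.path.zero_iff hlin hm
  have hn0 : 0 < n := hn.pos
  have hfX : f ∈ Lx d (100 * C) := by
    intro x
    have h1 := hlin x n
    rw [← hf] at h1
    have h2 : q * (100 * C) ≤ q * d x (f * x) := by
      calc q * (100 * C) = 100 * C * q := by ring
        _ ≤ n := hCq
        _ ≤ _ := h1
    exact Nat.le_of_mul_le_mul_left h2 hq
  have hT0 : 0 ≤ H.T f := hl_Tpos H hfX
  -- lower bound for the length
  have hlow : (n : ℝ) ≤ q * H.T f := by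
    have hz := H.pr_mem f hfX 1
    set z := H.pr f 1 with hzdef
    apply p_lim (c := q * C)
    intro m
    have h1 := hlin z (n * m)
    rw [pow_mul, ← hf] at h1
    have h2 : f ^ m * z ∈ H.Z f := by
      have := (hl_Zpow H hfX z m).2 hz
      rwa [zpow_natCast] at this
    have h3 := H.on f hfX z hz _ h2
    have h4 := hl_zpow H hfX z m
    rw [zpow_natCast] at h4
    push_cast at h4
    rw [h4, abs_of_nonneg (by positivity)] at h3
    have h5 : ((n * m : ℕ) : ℝ) ≤ q * d z (f ^ m * z) := by exact_mod_cast h1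
    have h6 : (0 : ℝ) ≤ q := Nat.cast_nonneg q
    push_cast at h5
    calc (n : ℝ) * m ≤ q * d z (f ^ m * z) := h5
      _ ≤ q * (m * H.T f + C) := mul_le_mul_of_nonneg_left h3 h6
      _ = q * H.T f * m + q * C := by ring
  -- the centralizer
  have hcent : ∀ y, Commute y f ↔ y ∈ Subgroup.zpowers r := by
    have hfn : f ^ n ≠ 1 := by
      intro h
      rw [hf, ← pow_mul, ← zpow_natCast] at h
      have h1 := hinf _ h
      have h2 : 0 < n * n := Nat.mul_pos hn0 hn0
      omega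
    obtain ⟨s, hs⟩ := hA.cent f hfn
    intro y
    constructor
    · intro hy
      obtain ⟨b, hb⟩ := Subgroup.mem_zpowers_iff.1 ((hs y).1 hy)
      have h1 : Commute r f := by rw [hf]; exact (Commute.refl r).pow_right n
      obtain ⟨a, ha⟩ := Subgroup.mem_zpowers_iff.1 ((hs r).1 h1)
      have h2 : Commute s g := by
        rw [hk, ← ha]
        exact ((Commute.refl s).zpow_right a).zpow_right k
      obtain ⟨c, hc⟩ := Subgroup.mem_zpowers_iff.1 ((hr s).1 h2)
      rw [Subgroup.mem_zpowers_iff]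
      exact ⟨c * b, by rw [zpow_mul, hc, hb]⟩
    · intro hy
      obtain ⟨b, hb⟩ := Subgroup.mem_zpowers_iff.1 hy
      rw [← hb, hf]
      exact ((Commute.refl r).zpow_left b).pow_right n
  refine ⟨hfX, hlow, hcent, hinf, ?_⟩
  -- upper bound for the length
  have hup : H.T f ≤ n * L1 := by
    obtain ⟨x, hx⟩ := hx
    have h1 : ∀ m : ℕ, d x (g ^ m * x) ≤ m * L1 := by
      intro m
      induction m with
      | zero => rw [pow_zero, one_mul, (hG.path.zero_iff x x).2 rfl]; omega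
      | succ m ih =>
        have h2 := hG.path.tri x (g ^ m * x) (g ^ (m + 1) * x)
        have h3 := hG.inv (g ^ m) x (g * x)
        rw [← mul_assoc, ← pow_succ] at h3
        rw [Nat.succ_mul]
        omega
    have h2 := h1 n
    have e1 : g ^ n = f ^ k := by
      rw [hk, hf, ← zpow_natCast, ← zpow_mul, mul_comm, zpow_mul, zpow_natCast]
    rw [e1] at h2
    have h3 := H.lip f hfX x (f ^ k * x)
    rw [hl_zpow H hfX, abs_mul, abs_of_nonneg hT0] at h3
    have h4 : (1 : ℝ) ≤ |(k : ℝ)| := by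
      have := Int.one_le_abs hk0
      exact_mod_cast this
    have h5 : (d x (f ^ k * x) : ℝ) ≤ n * L1 := by exact_mod_cast h2
    nlinarith
  intro z hz
  have hrf : Commute r f := (hcent r).2 (Subgroup.mem_zpowers r)
  have hrz : r * z ∈ H.Z f := by
    have h1 := (H.Zconj f hfX r z).2 hz
    rwa [hrf.eq, mul_inv_cancel_right] at h1
  have h1 := H.on f hfX z hz _ hrz
  have h2 := p_lin H hfX hrf z n
  rw [← hf, H.shift f hfX] at h2
  have hn1 : (1 : ℝ) ≤ n := by exact_mod_cast hn0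
  have h3 : (n : ℝ) * |H.Φ f z (r * z)| ≤ n * (L1 + C) := by
    have h4 : (n : ℝ) * |H.Φ f z (r * z)| = |n * H.Φ f z (r * z)| := by
      rw [abs_mul, abs_of_nonneg (by linarith : (0 : ℝ) ≤ n)]
    rw [h4]
    rw [abs_le] at h2 ⊢
    have hC0 : (0 : ℝ) ≤ C := Nat.cast_nonneg C
    have hL0 : (0 : ℝ) ≤ n * L1 := by positivity
    constructor <;> nlinarith [h2.1, h2.2]
  have h4 : |H.Φ f z (r * z)| ≤ L1 + C := le_of_mul_le_mul_left h3 (by linarith)
  have h5 : (d z (r * z) : ℝ) ≤ L1 + 2 * C := by linarith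
  exact_mod_cast h5

/-- Near the axis the root moves points little. -/
theorem p_near {δ C L1 e : ℕ} (hG : HypG d δ) {X : Set G} (H : Hubs d X C) {f r : G}
    (hr : ∀ z ∈ H.Z f, d z (r * z) ≤ L1 + 2 * C) {a : G} (ha : Nh d e (H.Z f) a) :
    d a (r * a) ≤ L1 + 2 * C + 2 * e := by
  obtain ⟨z, hz, haz⟩ := ha
  have h1 := hr z hz
  have h2 := hG.path.tri a z (r * a)
  have h3 := hG.path.tri z (r * z) (r * a)
  have h4 := hG.inv r z a
  have h5 := hG.path.symm z a
  omega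

end

/-- Part P: the power relators form a relator family. -/
theorem stP : StP := by
  intro G _ d δ C n q A L Ax L1 Δ Tm H hS hn hδC hC hL hq hA hLL1 hAxL1 hΔ hTm hCq
  have hG := hS.toHypG
  have hn0 : 0 < n := hn.pos
  have hqR : (0 : ℝ) < q := by exact_mod_cast hq
  have hsub : Fp d n L1 ⊆ Lx d (100 * C) := by
    rintro f ⟨g, r, hg, hx, hr, hf⟩
    exact (p_one H hS hn hq hA hCq hg hx hr hf).1
  have hC3 : 1000 * C ≤ Δ := by omega
  refine ⟨⟨⟨hsub, ?_, ?_, ?_, ?_, hC3, hC⟩, ?_, ?_⟩, ?_⟩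
  · -- conj
    rintro f ⟨g, r, hg, ⟨x, hx⟩, hr, hf⟩ h
    refine ⟨h * g * h⁻¹, h * r * h⁻¹, ?_, ⟨h * x, ?_⟩, ?_, ?_⟩
    · rw [conj_pow]
      intro h1
      apply hg
      have h2 : h * g ^ n * h⁻¹ = h * 1 * h⁻¹ := by rw [h1]; group
      exact mul_left_cancel (mul_right_cancel h2)
    · have e : h * g * h⁻¹ * (h * x) = h * (g * x) := by group
      rw [e, hG.inv]
      exact hx
    · intro y
      have e : Commute y (h * g * h⁻¹) ↔ Commute (h⁻¹ * y * h) g := by
        constructor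
        · intro h1
          have h2 : y * (h * g * h⁻¹) = h * g * h⁻¹ * y := h1
          have h3 : h⁻¹ * (y * (h * g * h⁻¹)) * h = h⁻¹ * (h * g * h⁻¹ * y) * h := by rw [h2]
          have h4 : h⁻¹ * (y * (h * g * h⁻¹)) * h = h⁻¹ * y * h * g := by group
          have h5 : h⁻¹ * (h * g * h⁻¹ * y) * h = g * (h⁻¹ * y * h) := by group
          show h⁻¹ * y * h * g = g * (h⁻¹ * y * h)
          rw [← h4, h3, h5]
        · intro h1
          have h2 : h⁻¹ * y * h * g = g * (h⁻¹ * y * h) := h1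
          have h3 : h * (h⁻¹ * y * h * g) * h⁻¹ = h * (g * (h⁻¹ * y * h)) * h⁻¹ := by rw [h2]
          have h4 : h * (h⁻¹ * y * h * g) * h⁻¹ = y * (h * g * h⁻¹) := by group
          have h5 : h * (g * (h⁻¹ * y * h)) * h⁻¹ = h * g * h⁻¹ * y := by group
          show y * (h * g * h⁻¹) = h * g * h⁻¹ * y
          rw [← h4, h3, h5]
      rw [e, hr, Subgroup.mem_zpowers_iff, Subgroup.mem_zpowers_iff]
      constructor
      · rintro ⟨k, hk⟩
        refine ⟨k, ?_⟩
        rw [conj_zpow, hk]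
        group
      · rintro ⟨k, hk⟩
        refine ⟨k, ?_⟩
        rw [conj_zpow] at hk
        rw [← hk]
        group
    · rw [conj_pow, hf]
  · -- inv
    rintro f ⟨g, r, hg, hx, hr, hf⟩
    refine ⟨g, r⁻¹, hg, hx, ?_, ?_⟩
    · intro y
      rw [hr, Subgroup.zpowers_inv]
    · rw [hf, inv_pow]
  · -- sep
    rintro f ⟨g, r, hg, hx, hr, hf⟩ f' ⟨g', r', hg', hx', hr', hf'⟩ hne hne' x hxZ y hyZ
    obtain ⟨hfX, -, hcen, hinf, hmv⟩ := p_one H hS hn hq hA hCq hg hx hr hf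
    obtain ⟨hfX', -, hcen', hinf', hmv'⟩ := p_one H hS hn hq hA hCq hg' hx' hr' hf'
    by_contra hcon
    push Not at hcon
    have hCR : (1 : ℝ) ≤ C := by exact_mod_cast hC
    have hΔR : (300 : ℝ) * L1 ≤ Δ := by exact_mod_cast hΔ
    have hL1R : (1000 : ℝ) * C ≤ L1 := by
      have : 1000 * C ≤ L1 := by omega
      exact_mod_cast this
    obtain ⟨γ, hγ0, hγ1, hγ⟩ := exists_geo hG.path x y
    obtain ⟨i1, i2, -, h12, h2N, -, -, hΦ1, hΦ2, hnear, -⟩ :=
      hl_ee hG H hδC hfX hγ (Nat.zero_le _) le_rfl (by rw [hγ0, hγ1]; linarith)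
    rw [hγ0] at hΦ1
    rw [hγ1] at hΦ2
    have hc1 := H.coc f hfX x (γ i1) (γ i2)
    have hc2 := H.coc f hfX x (γ i2) y
    have hlip := H.lip f hfX (γ i1) (γ i2)
    have hdist : (Δ : ℝ) - 12 * C ≤ d (γ i1) (γ i2) := by
      have h1 : H.Φ f (γ i1) (γ i2) = H.Φ f x y - H.Φ f x (γ i1) - H.Φ f (γ i2) y := by linarith
      have h2 : |H.Φ f x y| ≤ |H.Φ f (γ i1) (γ i2)| + |H.Φ f x (γ i1)| + |H.Φ f (γ i2) y| := by
        have h3 : H.Φ f x y = H.Φ f (γ i1) (γ i2) + H.Φ f x (γ i1) + H.Φ f (γ i2) y := by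
          linarith
        rw [h3]
        exact (abs_add_le _ _).trans (add_le_add (abs_add_le _ _) le_rfl)
      linarith
    have hdN : Δ ≤ d (γ i1) (γ i2) + 12 * C := by
      have : (Δ : ℝ) ≤ d (γ i1) (γ i2) + 12 * C := by linarith
      exact_mod_cast this
    have hbt : ∀ t ≤ d x y, Nh d C (H.Z f') (γ t) := by
      intro t ht
      have hb := hb_btw hG hγ (Nat.zero_le t) ht le_rfl
      rw [hγ0, hγ1] at hb
      exact H.qc f' hfX' x hxZ y hyZ _ hb
    have a1 := p_near hG H hmv (hnear i1 le_rfl h12.le)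
    have a2 := p_near hG H hmv (hnear i2 h12.le le_rfl)
    have b1 := p_near hG H hmv' (hbt i1 (by omega))
    have b2 := p_near hG H hmv' (hbt i2 (by omega))
    have hcomm : Commute r r' := by
      apply hA.ext r r' (γ i1) (γ i2) (L1 + 16 * C) (by omega) (by omega) (by omega) (by omega)
        (by omega) (by omega)
    have m1 : r' ∈ Subgroup.zpowers r := by
      rw [← hcen, hf]
      exact hcomm.symm.pow_right n
    have m2 : r ∈ Subgroup.zpowers r' := by
      rw [← hcen', hf']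
      exact hcomm.pow_right n
    obtain ⟨a, ha⟩ := Subgroup.mem_zpowers_iff.1 m1
    obtain ⟨b, hb⟩ := Subgroup.mem_zpowers_iff.1 m2
    have hab : a * b = 1 := by
      have h1 : r ^ (a * b - 1) = 1 := by
        rw [zpow_sub, zpow_mul, ha, hb, zpow_one, mul_inv_cancel]
      have := hinf _ h1
      omega
    rcases Int.eq_one_or_neg_one_of_mul_eq_one hab with h | h
    · apply hne
      rw [hf, hf', ← ha, h, zpow_one]
    · apply hne'
      rw [hf, hf', ← ha, h, zpow_neg_one, inv_pow]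
  · -- big
    rintro f ⟨g, r, hg, hx, hr, hf⟩
    have h1 := (p_one H hS hn hq hA hCq hg hx hr hf).2.1
    exact le_of_mul_le_mul_left (hTm.trans h1) hqR
  · -- short
    intro g hg hx
    obtain ⟨r, hr⟩ := hA.cent g hg
    refine ⟨r ^ n, ⟨g, r, hg, hx, hr, rfl⟩, ?_⟩
    exact (((hr r).2 (Subgroup.mem_zpowers r)).symm).pow_right n
  · -- cent
    rintro f ⟨g, r, hg, hx, hr, hf⟩ y hy
    have h1 := (p_one H hS hn hq hA hCq hg hx hr hf).2.2.1
    obtain ⟨m, hm⟩ := Subgroup.mem_zpowers_iff.1 ((h1 y).1 hy)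
    refine ⟨m, ?_⟩
    rw [← hm, hf, ← zpow_natCast, ← zpow_mul, mul_comm, zpow_mul, zpow_natCast]
  · rintro f ⟨g, r, hg, hx, hr, hf⟩
    obtain ⟨-, -, hcen, -, hmv⟩ := p_one H hS hn hq hA hCq hg hx hr hf
    exact ⟨r, hf, hcen, fun z hz => (hmv z hz).trans (by omega)⟩

end Pool.Agent.Helper74.TB
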