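import Pool.Agent.Helper74.TB.KAl
import Pool.Agent.Helper74.TB.P
import Pool.Agent.Helper74.TB.H

/-! MP_7d16da_al, Part K, module KA: the chain of hubs of a pair. -/

set_option autoImplicit false

namespace Pool.Agent.Helper74.TB

open Pool.Agent.Helper74.MH
open PH

namespace KAm

variable {G : Type} [Group G]

/-! ### the sequence of frames -/

/-- the product over one period -/
def P (S r : G) (bb : ℕ → ℤ) : ℕ → G
  | 0 => 1
  | j + 1 => P S r bb j * (S * r ^ bb j)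

/-- the frames -/
def g (S r : G) (bb : ℕ → ℤ) (h : ℕ) (k : ℤ) : G :=
  P S r bb h ^ (k / (h : ℤ)) * P S r bb (k % (h : ℤ)).toNat

/-- the exponents -/
def b (bb : ℕ → ℤ) (h : ℕ) (k : ℤ) : ℤ := bb (k % (h : ℤ)).toNat

theorem g_zero (S r : G) (bb : ℕ → ℤ) (h : ℕ) : g S r bb h 0 = 1 := by
  simp [g, P]

theorem g_h (S r : G) (bb : ℕ → ℤ) {h : ℕ} (hh : 1 ≤ h) : g S r bb h h = P S r bb h := by
  have h0 : (h : ℤ) ≠ 0 := by omega
  simp [g, P, Int.ediv_self h0]

theorem g_per (S r : G) (bb : ℕ → ℤ) {h : ℕ} (hh : 1 ≤ h) (k : ℤ) :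
    g S r bb h (k + h) = g S r bb h h * g S r bb h k := by
  have h0 : (h : ℤ) ≠ 0 := by omega
  rw [g_h S r bb hh]
  unfold g
  rw [Int.add_ediv_of_dvd_right (dvd_refl (h : ℤ)), Int.ediv_self h0, Int.add_emod_right,
    add_comm, zpow_one_add, mul_assoc]

theorem b_per (bb : ℕ → ℤ) (h : ℕ) (k : ℤ) : b bb h (k + h) = b bb h k := by
  unfold b
  rw [Int.add_emod_right]

theorem b_nat (bb : ℕ → ℤ) {h k : ℕ} (hk : k < h) : b bb h k = bb k := by
  unfold b
  rw [Int.emod_eq_of_lt (by omega) (by omega), Int.toNat_natCast]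

theorem g_step (S r : G) (bb : ℕ → ℤ) {h : ℕ} (hh : 1 ≤ h) (k : ℤ) :
    g S r bb h (k + 1) = g S r bb h k * (S * r ^ b bb h k) := by
  have h0 : (0 : ℤ) < h := by omega
  have e0 := Int.emod_add_mul_ediv k h
  have e1 := Int.emod_nonneg k h0.ne'
  have e2 := Int.emod_lt_of_pos k h0
  set m := k / (h : ℤ) with hm
  set j := k % (h : ℤ) with hj
  have e3 : (j.toNat : ℤ) = j := Int.toNat_of_nonneg e1
  by_cases hc : j + 1 < h
  · have d1 : (k + 1) / (h : ℤ) = m := by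
      rw [show k + 1 = (j + 1) + h * m by omega, Int.add_mul_ediv_left _ _ h0.ne',
        Int.ediv_eq_zero_of_lt (by omega) hc]
      ring
    have d2 : (k + 1) % (h : ℤ) = j + 1 := by
      rw [show k + 1 = (j + 1) + h * m by omega, Int.add_mul_emod_self_left,
        Int.emod_eq_of_lt (by omega) hc]
    have d3 : (j + 1).toNat = j.toNat + 1 := by omega
    unfold g b
    rw [d1, d2, d3, ← hm, ← hj]
    show _ * (P S r bb j.toNat * (S * r ^ bb j.toNat)) = _
    rw [mul_assoc]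
  · have d0 : j + 1 = h := by omega
    have d1 : (k + 1) / (h : ℤ) = m + 1 := by
      rw [show k + 1 = h * (m + 1) by rw [mul_add, mul_one]; omega, Int.mul_ediv_cancel_left _ h0.ne']
    have d2 : (k + 1) % (h : ℤ) = 0 := by
      rw [show k + 1 = h * (m + 1) by rw [mul_add, mul_one]; omega, Int.mul_emod_right]
    have d3 : h = j.toNat + 1 := by omega
    have d4 : P S r bb h = P S r bb j.toNat * (S * r ^ bb j.toNat) := by
      conv_lhs => rw [d3]
      rfl
    unfold g b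
    rw [d1, d2, ← hm, ← hj, zpow_add_one]
    show _ * P S r bb h * 1 = _
    rw [mul_one, mul_assoc (P S r bb h ^ m), ← d4]

/-- the word -/
theorem word {G' : Type} [Group G'] (π : G →* G') (S r : G) (bb : ℕ → ℤ) (n : ℕ) (a : ℤ)
    (e : ℕ → ℤ) (c : ℕ → ℤ) (hb : ∀ j, bb j = a * e j + n * c j) (hr : π (r ^ n) = 1) (h : ℕ) :
    π (P S r bb h) = π (ww S r a h e) := by
  induction h with
  | zero => simp [P, ww]
  | succ h ih =>
    have e1 : ww S r a (h + 1) e = ww S r a h e * (S * r ^ (a * e h)) := by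
      simp [ww, List.range_succ, List.map_append, List.prod_append]
    rw [e1]
    show π (P S r bb h * (S * r ^ bb h)) = _
    rw [map_mul, ih, map_mul (f := π) (ww S r a h e)]
    congr 1
    rw [map_mul, map_mul, hb, zpow_add, map_mul]
    have e2 : π (r ^ ((n : ℤ) * c h)) = 1 := by
      rw [zpow_mul, zpow_natCast, map_zpow, hr, one_zpow]
    rw [e2, mul_one]

theorem circ_arith {n q km h M0 lam Θ : ℕ} {a : ℤ} (_hkm : 1 ≤ km) (hlam : km + 2 ≤ lam)
    (hM0 : 10 * q * Θ ≤ M0) (hn8 : 8 * km * M0 * lam ^ h ≤ n) (hM0n : 8 * M0 ≤ n) (ha0 : a ≠ 0)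
    (hak : |a| ≤ km) {i j : ℕ} (hih : i < h) (hjh : j < h) (hij : i ≠ j) (ci cj m : ℤ) {τ : ℝ}
    (hτ0 : 0 < τ) (hq : 1 ≤ (q : ℝ) * τ) :
    10 * (Θ : ℝ) ≤ |(((a * ((M0 : ℤ) * (lam : ℤ) ^ i) + n * ci) -
      (a * ((M0 : ℤ) * (lam : ℤ) ^ j) + n * cj) + m * n : ℤ) : ℝ)| * τ := by
  have hlam2 : 2 ≤ lam := by omega
  have hpw : ∀ t : ℕ, t < h → lam ^ t ≤ lam ^ h := fun t ht =>
    Nat.pow_le_pow_right (by omega) ht.le
  have hM00 : (0 : ℤ) ≤ M0 := Int.natCast_nonneg _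
  have hab : (1 : ℤ) ≤ |a| := Int.one_le_abs ha0
  obtain ⟨X, hX⟩ : ∃ X : ℤ, X = a * (M0 * ((lam : ℤ) ^ i - (lam : ℤ) ^ j)) := ⟨_, rfl⟩
  have hX1 : (M0 : ℤ) ≤ |X| := by
    have e1 : (1 : ℤ) ≤ |(lam : ℤ) ^ i - (lam : ℤ) ^ j| := by
      refine Int.one_le_abs fun h0 => hij ?_
      have e2 : (lam : ℤ) ^ i = (lam : ℤ) ^ j := by omega
      have e3 : lam ^ i = lam ^ j := by exact_mod_cast e2
      exact Nat.pow_right_injective hlam2 e3
    rw [hX, abs_mul, abs_mul, abs_of_nonneg hM00]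
    calc (M0 : ℤ) = 1 * (M0 * 1) := by ring
      _ ≤ |a| * (M0 * |(lam : ℤ) ^ i - (lam : ℤ) ^ j|) :=
        mul_le_mul hab (mul_le_mul_of_nonneg_left e1 hM00) (by positivity) (by positivity)
  have hX2 : 8 * |X| ≤ n := by
    have e1 : |(lam : ℤ) ^ i - (lam : ℤ) ^ j| ≤ (lam : ℤ) ^ h := by
      have a1 : (0 : ℤ) ≤ (lam : ℤ) ^ i := by positivity
      have a2 : (0 : ℤ) ≤ (lam : ℤ) ^ j := by positivity
      have a3 : (lam : ℤ) ^ i ≤ (lam : ℤ) ^ h := by exact_mod_cast hpw i hih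
      have a4 : (lam : ℤ) ^ j ≤ (lam : ℤ) ^ h := by exact_mod_cast hpw j hjh
      rw [abs_le]
      constructor <;> linarith
    have e2 : |X| ≤ km * (M0 * (lam : ℤ) ^ h) := by
      rw [hX, abs_mul, abs_mul, abs_of_nonneg hM00]
      exact mul_le_mul hak (mul_le_mul_of_nonneg_left e1 hM00) (by positivity)
        (Int.natCast_nonneg _)
    have e3 : (8 * km * M0 * lam ^ h : ℤ) ≤ n := by exact_mod_cast hn8
    have e4 : 8 * ((km : ℤ) * (M0 * (lam : ℤ) ^ h)) = 8 * km * M0 * lam ^ h := by ring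
    linarith
  obtain ⟨M, hM⟩ : ∃ M : ℤ, M = ci - cj + m := ⟨_, rfl⟩
  obtain ⟨N, hN⟩ : ∃ N : ℤ, N = X + n * M := ⟨_, rfl⟩
  have hN1 : (M0 : ℤ) ≤ |N| := by
    by_cases hM0' : M = 0
    · rw [hN, hM0', mul_zero, add_zero]; exact hX1
    · have e1 : (n : ℤ) ≤ |(n : ℤ) * M| := by
        rw [abs_mul, abs_of_nonneg (Int.natCast_nonneg n)]
        exact le_mul_of_one_le_right (Int.natCast_nonneg n) (Int.one_le_abs hM0')
      have e2 : |(n : ℤ) * M| ≤ |N| + |X| := by
        have e3 : (n : ℤ) * M = N - X := by rw [hN]; ring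
        rw [e3]
        exact abs_sub _ _
      have e3 : (8 * M0 : ℤ) ≤ n := by exact_mod_cast hM0n
      linarith
  have hval : (a * ((M0 : ℤ) * (lam : ℤ) ^ i) + n * ci) -
      (a * ((M0 : ℤ) * (lam : ℤ) ^ j) + n * cj) + m * n = N := by
    rw [hN, hX, hM]; ring
  rw [hval]
  have e2 : (M0 : ℝ) ≤ |(N : ℝ)| := by
    have : ((M0 : ℤ) : ℝ) ≤ ((|N| : ℤ) : ℝ) := by exact_mod_cast hN1
    simpa using this
  have e3 : (10 * q * Θ : ℝ) ≤ M0 := by exact_mod_cast hM0
  have e4 : (0 : ℝ) ≤ Θ := Nat.cast_nonneg Θ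
  calc 10 * (Θ : ℝ) = 10 * Θ * 1 := by ring
    _ ≤ 10 * Θ * (q * τ) := mul_le_mul_of_nonneg_left hq (by positivity)
    _ = (10 * q * Θ) * τ := by ring
    _ ≤ M0 * τ := mul_le_mul_of_nonneg_right e3 hτ0.le
    _ ≤ |(N : ℝ)| * τ := mul_le_mul_of_nonneg_right e2 hτ0.le

end KAm

open KAm

/-- Module KA: every pair has a chain. -/
theorem stKA : StKA := by
  intro G G' _ _ d d' C Δ R n q A L Ax L1 L2 km h M0 lam Θ M1 F H H' Tm π K S r a hp
  obtain ⟨nC, nL, nL1, nCC, nqCC, nΔ, nR, nΘ, nRΘ, nΘ'⟩ := K.nums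
  have q1 := K.q1
  have hG : HypG d 2000 := K.hS.toHypG
  have hF : Fam H F Δ Tm := K.hR.toFam
  have hn3 : 3 ≤ n := K.hc.hn
  have hodd : Odd n := K.hc.odd
  have hC1 : (1 : ℝ) ≤ C := by exact_mod_cast hF.hC1
  have hT : 1000 * (Δ : ℝ) ≤ Tm := by
    have e1 : 1000 * (Δ : ℝ) ≤ R := by exact_mod_cast nR
    have e2 := K.hc.cst.hT
    have e3 : (0 : ℝ) ≤ R := Nat.cast_nonneg R
    linarith
  have hh2 : 2 ≤ h := by
    have e1 := K.hc3.hh
    have e2 : (1 : ℝ) ≤ M1 := by exact_mod_cast K.hM1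
    have e3 : (0 : ℝ) ≤ Δ := Nat.cast_nonneg Δ
    have e4 : (1000 : ℝ) ≤ Tm + 1000 + 100 * C := by linarith
    have e5 : (2 : ℝ) ≤ h := by nlinarith
    exact_mod_cast e5
  have hh1 : 1 ≤ h := by omega
  -- the relator `f = r ^ n`
  set f := r ^ n with hf
  have fF : f ∈ F := K.hFp hp.fp
  have fX : f ∈ Lx d (100 * C) := hF.sub fF
  have hkm := K.hc3.hk
  have hlam := K.hc3.hlam
  have hM0 := K.hc3.hM0
  have hn8 := K.hc3.hn
  have hlamh : 1 ≤ lam ^ h := Nat.one_le_pow _ _ (by omega)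
  have hM0n : 8 * M0 ≤ n := by
    calc 8 * M0 = 8 * 1 * M0 * 1 := by ring
      _ ≤ 8 * km * M0 * lam ^ h :=
        Nat.mul_le_mul (Nat.mul_le_mul (Nat.mul_le_mul_left _ hkm) le_rfl) hlamh
      _ ≤ n := hn8
  have hCΘ : 10 * C ≤ Θ := by omega
  have hCq : 100 * C * q ≤ n := by
    have e1 : q * (10 * C) ≤ q * Θ := Nat.mul_le_mul_left _ hCΘ
    have e2 : 100 * C * q = 10 * (q * (10 * C)) := by ring
    have e3 : 10 * (q * Θ) ≤ M0 := by
      calc 10 * (q * Θ) = 10 * q * Θ := by ring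
        _ ≤ M0 := hM0
    omega
  have htau : (n : ℝ) ≤ q * H.T f := by
    obtain ⟨g', r', hg', hx', hr', hf'⟩ := hp.fp
    exact (p_one H K.hS hodd q1 K.hA hCq hg' hx' hr' hf').2.1
  have hTpos := (T_pos H hF hT fF).1
  have hn0 : (0 : ℝ) < n := by
    have : (3 : ℝ) ≤ n := by exact_mod_cast hn3
    linarith
  -- infinite order
  have hinf : ∀ m : ℤ, r ^ m = 1 → m = 0 := by
    intro m hm
    refine pow_ne H hF hT fF (m := m) ?_
    rw [hf, ← zpow_natCast, ← zpow_mul, mul_comm, zpow_mul, hm, one_zpow]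
  have hrf : Commute r f := (hp.cen r).2 (Subgroup.mem_zpowers r)
  have hrbf : ∀ m : ℤ, Commute (r ^ m) f := fun m => hrf.zpow_left m
  -- `S` does not commute with `f`
  have hSf : ¬ Commute S f := fun hc => hp.ne (cent_tf K.hA hF hT hn3 fF hc hp.tor)
  have hSne : S * f * S⁻¹ ≠ f ∧ S * f * S⁻¹ ≠ f⁻¹ :=
    ⟨fun e => hSf (comm_of_pm K.hA hF hT hn3 fF (Or.inl e)),
      fun e => hSf (comm_of_pm K.hA hF hT hn3 fF (Or.inr e))⟩
  -- `S r^m S` does not commute with `f`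
  have hSS : ∀ m : ℤ, ¬ Commute (S * r ^ m * S) f := by
    intro m hc
    obtain ⟨c', hc'⟩ := Subgroup.mem_zpowers_iff.1 ((hp.cen _).1 hc)
    set x := S * r ^ m with hx
    have hxx : x * x = r ^ (c' + m) := by
      rw [zpow_add, hc', hx]; group
    have hxf : ¬ Commute x f := by
      intro hcx
      apply hSf
      have e1 : S = x * r ^ (-m) := by rw [hx]; group
      rw [e1]
      exact hcx.mul_left (hrbf _)
    by_cases hc0 : c' + m = 0
    · rw [hc0, zpow_zero] at hxx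
      have hx2 : x ^ 2 = 1 := by rw [pow_two]; exact hxx
      have hxn : x ^ n = 1 := by
        rcases K.hS.tor x with h1 | h1
        · exact h1
        · exfalso
          have h2 := h1 1 2
          rw [hx2, one_mul, hb_self hG, mul_zero] at h2
          omega
      have hx1 : x = 1 := by
        obtain ⟨s, hs⟩ := hodd
        rw [hs, pow_succ, pow_mul, hx2, one_pow, one_mul] at hxn
        exact hxn
      apply hxf
      rw [hx1]
      exact Commute.one_left f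
    · apply hxf
      have e1 : x * r ^ (c' + m) * x⁻¹ = r ^ (c' + m) := by
        rw [← hxx]; group
      have hrn : r ^ n ≠ 1 := by
        intro e
        have := hinf n (by rw [zpow_natCast]; exact e)
        omega
      have h1 := K.hA.ninv r x (c' + m) (c' + m) hrn hc0 e1
      exact h1.pow_right n
  -- moving along the hub
  have hmove : ∀ (m : ℤ) (x : G), |H.Φ f x (r ^ m * x) - m * (H.T f / n)| ≤ C := by
    intro m x
    have e1 := p_lin H fX (hrbf m) x n
    have e2 : (r ^ m) ^ n = f ^ m := by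
      rw [hf, ← zpow_natCast, ← zpow_mul, ← zpow_natCast, ← zpow_mul, mul_comm]
    rw [e2, hl_zpow H fX] at e1
    have e3 : (m : ℝ) * H.T f - n * H.Φ f x (r ^ m * x) =
        -(n * (H.Φ f x (r ^ m * x) - m * (H.T f / n))) := by
      field_simp
      ring
    rw [e3, abs_neg, abs_mul, abs_of_pos hn0] at e1
    exact le_of_mul_le_mul_left e1 hn0
  -- the gates
  have fSF : S * f * S⁻¹ ∈ F := hF.conj f fF S
  have fSX := hF.sub fSF
  obtain ⟨x0, hx0, z0, hz0, hxz0⟩ := hp.near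
  have hz0S : d z0 (S * z0) ≤ 2 * L2 + C := by
    have e1 := hG.path.tri z0 x0 (S * z0)
    have e2 := hG.path.tri x0 (S * x0) (S * z0)
    have e3 := hG.inv S x0 z0
    have e4 := hx0 1
    rw [zpow_one] at e4
    have e5 := hG.path.symm z0 x0
    omega
  obtain ⟨⟨u, v⟩, ⟨hu, hv⟩, hmin⟩ := exists_min
    (fun p : G × G => p.1 ∈ H.Z f ∧ p.2 ∈ H.Z (S * f * S⁻¹)) (fun p => d p.1 p.2)
    ⟨(z0, S * z0), hz0, Z_conj H fX S hz0⟩
  simp only at hu hv hmin
  have huv : d u v ≤ 2 * L2 + C :=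
    (hmin (z0, S * z0) ⟨hz0, Z_conj H fX S hz0⟩).trans hz0S
  have hΦ1 : |H.Φ f u v| ≤ 2 * C := by
    rw [abs_symm H fX v u]
    refine near_pt hG H fX hu fun z hz => ?_
    have e1 := hmin (z, v) ⟨hz, hv⟩
    simp only at e1
    rw [hG.path.symm v u, hG.path.symm v z]
    exact e1
  have hΦ2 : |H.Φ (S * f * S⁻¹) u v| ≤ 2 * C :=
    near_pt hG H fSX hv fun z hz => hmin (u, z) ⟨hu, hz⟩
  -- the exponents
  set β := H.Φ f (S⁻¹ * v) u with hβ
  set e : ℕ → ℤ := fun k => (M0 : ℤ) * (lam : ℤ) ^ k with he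
  set τ : ℝ := H.T f / n with hτ
  have hnτ : (n : ℝ) * τ = H.T f := by rw [hτ]; field_simp
  have hτ0 : 0 < τ := div_pos hTpos hn0
  set c : ℕ → ℤ := fun j => -round ((β + (a * e j : ℤ) * τ) / H.T f) with hc
  set bb : ℕ → ℤ := fun j => a * e j + n * c j with hbb
  have hhalf : ∀ j, 2 * |β + (bb j : ℝ) * τ| ≤ H.T f := by
    intro j
    have e1 := abs_sub_round ((β + (a * e j : ℤ) * τ) / H.T f)
    have e2 : β + (bb j : ℝ) * τ = ((β + (a * e j : ℤ) * τ) / H.T f -
        (round ((β + (a * e j : ℤ) * τ) / H.T f) : ℝ)) * H.T f := by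
      have e3 : (bb j : ℝ) * τ = ((a * e j : ℤ) : ℝ) * τ + (c j : ℝ) * H.T f := by
        rw [← hnτ, hbb]; push_cast; ring
      rw [e3, hc]
      push_cast
      field_simp
      ring
    rw [e2, abs_mul, abs_of_pos hTpos]
    nlinarith
  set gk := g S r bb h with hgk
  set bk := b bb h with hbk
  set θ : ℤ → ℝ := fun k => β + (bk (k - 1) : ℝ) * τ with hθ
  have hθ1 : ∀ k, θ (k + 1) = β + (bk k : ℝ) * τ := by
    intro k
    simp only [hθ]
    rw [add_sub_cancel_right]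
  have hgs : ∀ k, gk (k + 1) = gk k * (S * r ^ bk k) := g_step S r bb hh1
  -- separation of the angles
  have hbe : ∀ j : ℕ, (n : ℤ) ∣ bb j - a * e j := fun j => ⟨c j, by rw [hbb]; ring⟩
  have hcirc : ∀ k l, ¬ (h : ℤ) ∣ k - l → ∀ m : ℤ, 10 * (Θ : ℝ) ≤ |θ k - θ l + m * H.T f| := by
    intro k l hkl m
    have h0 : (0 : ℤ) < h := by omega
    set i := ((k - 1) % (h : ℤ)).toNat with hi
    set j := ((l - 1) % (h : ℤ)).toNat with hj
    have hi' : (i : ℤ) = (k - 1) % (h : ℤ) := Int.toNat_of_nonneg (Int.emod_nonneg _ h0.ne')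
    have hj' : (j : ℤ) = (l - 1) % (h : ℤ) := Int.toNat_of_nonneg (Int.emod_nonneg _ h0.ne')
    have hih : i < h := by
      have := Int.emod_lt_of_pos (k - 1) h0
      omega
    have hjh : j < h := by
      have := Int.emod_lt_of_pos (l - 1) h0
      omega
    have hij : i ≠ j := by
      intro hEq
      apply hkl
      have e1 : (k - 1) % (h : ℤ) = (l - 1) % (h : ℤ) := by rw [← hi', ← hj', hEq]
      have e3 : (h : ℤ) ∣ (k - 1) - (l - 1) :=
        Int.dvd_of_emod_eq_zero (Int.emod_eq_emod_iff_emod_sub_eq_zero.1 e1)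
      have e4 : (k - 1) - (l - 1) = k - l := by ring
      rwa [e4] at e3
    have hval : θ k - θ l + m * H.T f = ((bb i - bb j + m * n : ℤ) : ℝ) * τ := by
      have e1 : bk (k - 1) = bb i := rfl
      have e2 : bk (l - 1) = bb j := rfl
      simp only [hθ]
      rw [e1, e2, ← hnτ]
      push_cast
      ring
    rw [hval, abs_mul, abs_of_pos hτ0]
    exact circ_arith hkm hlam hM0 hn8 hM0n hp.a0 hp.ak hih hjh hij (c i) (c j) m hτ0 (by
      rw [hτ, ← mul_div_assoc, le_div_iff₀ hn0, one_mul]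
      exact htau)
  -- conjugation
  have hconj : ∀ (x : G) (m : ℤ), (x * (S * r ^ m)) * f * (x * (S * r ^ m))⁻¹ =
      x * (S * f * S⁻¹) * x⁻¹ := by
    intro x m
    have e1 : r ^ m * f * (r ^ m)⁻¹ = f := conj_of_commute (hrbf m).symm
    calc (x * (S * r ^ m)) * f * (x * (S * r ^ m))⁻¹ =
        x * (S * (r ^ m * f * (r ^ m)⁻¹) * S⁻¹) * x⁻¹ := by group
      _ = x * (S * f * S⁻¹) * x⁻¹ := by rw [e1]
  have hci : ∀ (x y z : G), x * y * x⁻¹ = x * z * x⁻¹ → y = z := by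
    intro x y z hxyz
    exact mul_left_cancel (mul_right_cancel hxyz)
  have hci' : ∀ (x y z : G), x * y * x⁻¹ = (x * z * x⁻¹)⁻¹ → y = z⁻¹ := by
    intro x y z hxyz
    apply hci x
    rw [hxyz]
    group
  refine ⟨gk, bk, u, v, θ, ?_⟩
  refine
    { g0 := g_zero S r bb h
      gs := hgs
      gp := g_per S r bb hh1
      bp := b_per bb h
      be := ?_
      word := ?_
      tr := ?_
      ang := ⟨β, hθ1⟩
      per := ?_
      circ := hcirc
      tau := htau }
  · intro k hk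
    have e1 : bk k = bb k := b_nat bb hk
    rw [e1]
    exact hbe k
  · have e1 : gk h = P S r bb h := g_h S r bb hh1
    rw [e1]
    refine KAm.word π S r bb n a e c (fun j => rfl) ?_ h
    exact (K.hQ.ker f).2 (Subgroup.subset_closure fF)
  · intro t
    have hgk : ∀ k, t * gk (k + 1) = (t * gk k) * (S * r ^ bk k) := by
      intro k; rw [hgs k]; group
    have hub : ∀ k, t * gk (k + 1) * f * (t * gk (k + 1))⁻¹ =
        (t * gk k) * (S * f * S⁻¹) * (t * gk k)⁻¹ := by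
      intro k
      rw [hgk k]
      exact hconj _ _
    refine
      { hf := fun k => hF.conj f fF _
        hz := fun k => Z_conj H fX _ hu
        hy := ?_
        hD := ?_
        g1 := ?_
        g2 := ?_
        ang := ?_
        ne1 := ?_
        ne2 := ?_
        half := ?_
        iso := ?_ }
    · intro k
      have e1 := hub (k - 1)
      rw [sub_add_cancel] at e1
      show t * gk (k - 1) * v ∈ H.Z (t * gk k * f * (t * gk k)⁻¹)
      rw [e1]
      exact Z_conj H fSX _ hv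
    · intro k
      show d (t * gk k * u) (t * gk (k + 1 - 1) * v) ≤ 2 * L2 + C
      rw [add_sub_cancel_right, hG.inv]
      exact huv
    · intro k
      show |H.Φ (t * gk k * f * (t * gk k)⁻¹) (t * gk k * u) (t * gk (k + 1 - 1) * v)| ≤ 3 * C
      rw [add_sub_cancel_right]
      have e1 := H.equi f fX (t * gk k) u v
      have e2 := abs_sub_abs_le_abs_sub (H.Φ (t * gk k * f * (t * gk k)⁻¹) (t * gk k * u)
        (t * gk k * v)) (H.Φ f u v)
      linarith
    · intro k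
      show |H.Φ (t * gk (k + 1) * f * (t * gk (k + 1))⁻¹) (t * gk k * u)
        (t * gk (k + 1 - 1) * v)| ≤ 3 * C
      rw [add_sub_cancel_right, hub k]
      have e1 := H.equi (S * f * S⁻¹) fSX (t * gk k) u v
      have e2 := abs_sub_abs_le_abs_sub (H.Φ (t * gk k * (S * f * S⁻¹) * (t * gk k)⁻¹)
        (t * gk k * u) (t * gk k * v)) (H.Φ (S * f * S⁻¹) u v)
      linarith
    · intro k
      obtain ⟨l, rfl⟩ : ∃ l, k = l + 1 := ⟨k - 1, by ring⟩
      show |H.Φ (t * gk (l + 1) * f * (t * gk (l + 1))⁻¹) (t * gk (l + 1 - 1) * v)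
        (t * gk (l + 1) * u) - θ (l + 1)| ≤ 3 * C
      rw [add_sub_cancel_right, hub l, hθ1 l, hgk l]
      set x := t * gk l * S with hx
      have e1 : t * gk l * (S * f * S⁻¹) * (t * gk l)⁻¹ = x * f * x⁻¹ := by rw [hx]; group
      have e2 : t * gk l * v = x * (S⁻¹ * v) := by rw [hx]; group
      have e3 : t * gk l * (S * r ^ bk l) * u = x * (r ^ bk l * u) := by rw [hx]; group
      rw [e1, e2, e3]
      have e4 := H.equi f fX x (S⁻¹ * v) (r ^ bk l * u)
      have e5 := H.coc f fX (S⁻¹ * v) u (r ^ bk l * u)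
      have e6 := hmove (bk l) u
      rw [abs_le] at e4 e6 ⊢
      constructor <;> linarith [e4.1, e4.2, e6.1, e6.2]
    · intro k
      show t * gk (k + 1) * f * (t * gk (k + 1))⁻¹ ≠ t * gk k * f * (t * gk k)⁻¹ ∧
        t * gk (k + 1) * f * (t * gk (k + 1))⁻¹ ≠ (t * gk k * f * (t * gk k)⁻¹)⁻¹
      rw [hub k]
      exact ⟨fun e1 => hSne.1 (hci _ _ _ e1), fun e1 => hSne.2 (hci' _ _ _ e1)⟩
    · intro k
      show t * gk (k + 2) * f * (t * gk (k + 2))⁻¹ ≠ t * gk k * f * (t * gk k)⁻¹ ∧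
        t * gk (k + 2) * f * (t * gk (k + 2))⁻¹ ≠ (t * gk k * f * (t * gk k)⁻¹)⁻¹
      have e0 : t * gk (k + 2) * f * (t * gk (k + 2))⁻¹ =
          t * gk k * ((S * r ^ bk k * S) * f * (S * r ^ bk k * S)⁻¹) * (t * gk k)⁻¹ := by
        have e1 := hub (k + 1)
        rw [show k + 1 + 1 = k + 2 by ring, hgk k] at e1
        rw [e1]
        group
      rw [e0]
      exact ⟨fun e1 => hSS _ (comm_of_pm K.hA hF hT hn3 fF (Or.inl (hci _ _ _ e1))),
        fun e1 => hSS _ (comm_of_pm K.hA hF hT hn3 fF (Or.inr (hci' _ _ _ e1)))⟩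
    · intro k
      show 2 * |θ k| ≤ H.T (t * gk k * f * (t * gk k)⁻¹)
      rw [H.Tconj f fX]
      exact hhalf _
    · intro k
      have e1 := hcirc k (k + 1) (by
        intro hdvd
        have e2 : k - (k + 1) = -1 := by ring
        rw [e2] at hdvd
        have e3 := Int.le_of_dvd (by norm_num) ((dvd_neg (a := (h : ℤ)) (b := 1)).1 hdvd)
        omega) 0
      rw [Int.cast_zero, zero_mul, add_zero] at e1
      by_contra hcon
      push Not at hcon
      have e2 := abs_sub (θ k) (θ (k + 1))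
      have e4 : (0 : ℝ) ≤ Θ := Nat.cast_nonneg Θ
      linarith [hcon.1, hcon.2]
  · intro k
    simp only [hθ]
    have e1 : k + h - 1 = (k - 1) + h := by ring
    have e2 : bk (k - 1 + h) = bk (k - 1) := b_per bb h (k - 1)
    rw [e1, e2]

end Pool.Agent.Helper74.TB
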