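import Pool.Agent.Helper74.TB.StKK

/-! MP_7d16da_al, Part K: assembly of the alignment lemma. -/

set_option autoImplicit false

namespace Pool.Agent.Helper74.TB

open Pool.Agent.Helper74.MH

namespace KHyp

variable {G G' : Type} [Group G] [Group G'] {d : G → G → ℕ} {d' : G' → G' → ℕ}
    {C Δ R n q A L Ax L1 L2 km h M0 lam Θ M1 : ℕ} {F : Set G}
    {H : Hubs d (Lx d (100 * C)) C} {H' : Hubs d' (Lx d' (100 * C)) C} {Tm : ℝ} {π : G →* G'}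

theorem hC (K : KHyp d d' C Δ R n q A L Ax L1 L2 km h M0 lam Θ M1 F H H' Tm π) :
    100 * 2000 ≤ C := K.hc.cst.hC

theorem q1 (K : KHyp d d' C Δ R n q A L Ax L1 L2 km h M0 lam Θ M1 F H H' Tm π) :
    1 ≤ q := by
  rcases Nat.eq_zero_or_pos q with h0 | h0
  · exfalso
    have h1 := K.hc.hq
    have h2 := K.hc.cst.hR
    have h3 := K.hc.cst.hΔ
    have h4 := K.hC
    rw [h0, zero_mul] at h1
    have h5 : 0 < R := by omega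
    have h6 : 0 < 10 * R * M1 := Nat.mul_pos (by omega) (by have := K.hM1; omega)
    omega
  · exact h0

/-- the basic inequalities between the constants -/
theorem nums (K : KHyp d d' C Δ R n q A L Ax L1 L2 km h M0 lam Θ M1 F H H' Tm π) :
    200000 ≤ C ∧ 1000 * C ≤ L ∧ L ≤ L1 ∧ 10 ^ 8 * C * C ≤ L1 ∧ 10 ^ 8 * q * C * C ≤ L1 ∧
      300 * L1 ≤ Δ ∧ 1000 * Δ ≤ R ∧ 10 ^ 4 * (Δ + L2 + R * h) ≤ Θ ∧ R ≤ Θ ∧
      10 ^ 3 * (Δ + (2 * L2 + C)) ≤ Θ := by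
  have h1 := K.hC
  have h2 := K.hc.hL
  have h3 := K.hc.hL1
  have h4 := K.hc.hΔ
  have h5 := K.hc.cst.hR
  have h6 := K.hc3.hΘ
  have h7 := K.hAx
  have h8 := K.hc.hAx
  have h9 := K.q1
  have hh : 1 ≤ h := by
    have h10 := K.hc3.hh
    have h11 := K.hM1
    have h12 : (1 : ℝ) ≤ M1 := by exact_mod_cast h11
    have h13 : 0 ≤ Tm := by
      have := K.hc.cst.hT
      have : (0 : ℝ) ≤ R := Nat.cast_nonneg _
      linarith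
    have h14 : (0 : ℝ) ≤ C := Nat.cast_nonneg _
    have h15 : (0 : ℝ) < h := by
      have : (0 : ℝ) < 10 ^ 4 * (M1 : ℝ) * (Tm + 1000 + 100 * C) := by positivity
      linarith
    exact_mod_cast h15
  have h20 : 10 ^ 8 * q * C * C ≤ L1 := by
    have e1 : 10 ^ 5 * q * (1000 * C) * C ≤ 10 ^ 5 * q * L * C :=
      Nat.mul_le_mul_right _ (Nat.mul_le_mul_left _ h2)
    have e2 : 10 ^ 5 * q * (1000 * C) * C = 10 ^ 8 * q * C * C := by ring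
    omega
  have h21 : 10 ^ 8 * C * C ≤ 10 ^ 8 * q * C * C := by
    have : 10 ^ 8 * C * C * 1 ≤ 10 ^ 8 * C * C * q := Nat.mul_le_mul_left _ h9
    calc 10 ^ 8 * C * C = 10 ^ 8 * C * C * 1 := by ring
      _ ≤ 10 ^ 8 * C * C * q := this
      _ = 10 ^ 8 * q * C * C := by ring
  have h22 : R ≤ R * h := Nat.le_mul_of_pos_right R hh
  refine ⟨by omega, h2, h3, by omega, h20, h4, h5, h6, by omega, by omega⟩

end KHyp

/-- Assembly of the alignment lemma. -/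
theorem stKal_of (hB : StKB) (hW : StKW) (hD : StKD) (hE : StKE) (hF : StKF) : StKal := by
  intro G G' _ _ d d' C Δ R n q A L Ax L1 L2 km h M0 lam Θ M1 F H H' Tm π K S1 r1 a1 g1 b1 u1 v1
    θ1 S2 r2 a2 g2 b2 u2 v2 θ2 hp1 hw1 hx1 hp2 hw2 hx2 t1 t2 a b hab ha1 hb1 ha2 hb2
  obtain ⟨nC, nL, nL1, -, -, nΔ, nR, nΘ, -, nΘ'⟩ := K.nums
  have hG : HypG d 2000 := K.hS.toHypG
  have hFam : Fam H F Δ Tm := K.hR.toFam
  obtain ⟨ka, kb, la, lb, s, hka, hkb, h1, h2, h3, h4⟩ := hW G G' d d' C Δ R n q A L Ax L1 L2 km h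
    M0 lam Θ M1 F H H' Tm π K S1 r1 a1 g1 b1 u1 v1 θ1 S2 r2 a2 g2 b2 u2 v2 θ2 hw1 hx1 hw2 hx2 t1
    t2 a b hab ha1 hb1 ha2 hb2
  have o1 := hB G d 2000 C Δ (2 * L2 + C) Θ _ F H Tm hG K.hC hFam nΘ' _ _ _ _ (hw1.tr t1)
  have o2 := hB G d 2000 C Δ (2 * L2 + C) Θ _ F H Tm hG K.hC hFam nΘ' _ _ _ _ (hw2.tr t2)
  have hTm : 4000 * ((Δ : ℝ) + (2 * L2 + C : ℕ)) ≤ Tm := by
    have e1 := K.hc3.hT
    have e2 : 1000 * (C : ℝ) ≤ Δ := by exact_mod_cast hFam.hC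
    push_cast
    have e3 : (0 : ℝ) ≤ L2 := Nat.cast_nonneg _
    have e4 : (0 : ℝ) ≤ C := Nat.cast_nonneg _
    linarith
  obtain ⟨κ, hκ, h5⟩ := hD G G' d d' 2000 C Δ R (2 * L2 + C) Θ (9 * L1) _ F H Tm π hG hFam
    K.hc.cst K.hQ nΘ' hTm _ _ _ θ1 _ _ _ θ2 (hw1.tr t1) o1 (hw2.tr t2) o2 ka kb la lb s (s + 100)
    hka hkb h1 (by omega) h2 h4
  have o3 := hB G d 2000 C Δ (2 * L2 + C) Θ _ F H Tm hG K.hC hFam nΘ' _ _ _ _ (hw2.tr (κ * t2))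
  obtain ⟨k, l, ε, hkl, hε, ha, h6⟩ := hE G G' d d' C Δ R n q A L Ax L1 L2 km h
    M0 lam Θ M1 F H H' Tm π K S1 r1 a1 g1 b1 u1 v1 θ1 S2 r2 a2 g2 b2 u2 v2 θ2 hp1 hw1 hp2 hw2 t1
    (κ * t2) o1 o3 s (min la lb) (by
      intro k hk1 hk2
      obtain ⟨l, hl1, hl2, hl3, hl4⟩ := h5 k hk1 hk2
      refine ⟨l, hl1, by omega, hl3, ?_⟩
      have e : κ * t2 * g2 l * r2 ^ n * (κ * t2 * g2 l)⁻¹ =
        κ * (t2 * g2 l * r2 ^ n * (t2 * g2 l)⁻¹) * κ⁻¹ := by group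
      rw [e]
      exact hl4)
  have h7 := hF G G' d d' C Δ R n q A L Ax L1 L2 km h
    M0 lam Θ M1 F H H' Tm π K S1 r1 a1 g1 b1 u1 v1 θ1 S2 r2 a2 g2 b2 u2 v2 θ2 hp1 hw1 hp2 hw2 t1
    (κ * t2) k l ε hkl hε ha h6
  have e : π (κ * t2) = π t2 := by rw [map_mul, (K.hQ.ker κ).2 hκ, one_mul]
  rw [e] at h7
  exact h7

end Pool.Agent.Helper74.TB
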