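import Pool.Agent.Helper74.TB.StKK
import Pool.Agent.Helper74.TB.H

/-! MP_7d16da_al, Part K, module KB: a chain of hubs is a quasi-geodesic. -/

set_option autoImplicit false

namespace Pool.Agent.Helper74.TB

open Pool.Agent.Helper74.MH

namespace KB

variable {G : Type} [Group G] {d : G → G → ℕ} {δ C Δ D0 Θ : ℕ} {X F : Set G} {H : Hubs d X C}
  {Tm : ℝ} {f z y : ℤ → G} {θ : ℤ → ℝ}

/-- The reversed chain. -/
theorem rev (hG : HypG d δ) (hF : Fam H F Δ Tm) (K : HChain H F D0 Θ f z y θ) :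
    HChain H F D0 Θ (fun k => f (-k)) (fun k => y (-k)) (fun k => z (-k))
      (fun k => -θ (-k)) where
  hf k := K.hf (-k)
  hz k := K.hy (-k)
  hy k := K.hz (-k)
  hD k := by
    have h := K.hD (-(k + 1))
    have e : -(k + 1) + 1 = -k := by ring
    rw [e, hG.path.symm] at h
    exact h
  g1 k := by
    have h := K.g2 (-(k + 1))
    have e : -(k + 1) + 1 = -k := by ring
    rw [e, ← PH.abs_symm H (hF.sub (K.hf _))] at h
    exact h
  g2 k := by
    have h := K.g1 (-(k + 1))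
    have e : -(k + 1) + 1 = -k := by ring
    rw [e, ← PH.abs_symm H (hF.sub (K.hf _))] at h
    exact h
  ang k := by
    have h := K.ang (-k)
    have h1 := hl_symm H (hF.sub (K.hf (-k))) (y (-k)) (z (-k))
    change |H.Φ (f (-k)) (z (-k)) (y (-k)) - -θ (-k)| ≤ 3 * C
    rw [h1]
    have e : -H.Φ (f (-k)) (y (-k)) (z (-k)) - -θ (-k) =
        -(H.Φ (f (-k)) (y (-k)) (z (-k)) - θ (-k)) := by ring
    rw [e, abs_neg]
    exact h
  ne1 k := by
    have h := K.ne1 (-(k + 1))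
    have e : -(k + 1) + 1 = -k := by ring
    rw [e] at h
    exact ⟨fun h1 => h.1 h1.symm, fun h1 => h.2 (by
      change f (-(k + 1)) = (f (-k))⁻¹ at h1
      rw [h1, inv_inv])⟩
  ne2 k := by
    have h := K.ne2 (-(k + 2))
    have e : -(k + 2) + 2 = -k := by ring
    rw [e] at h
    exact ⟨fun h1 => h.1 h1.symm, fun h1 => h.2 (by
      change f (-(k + 2)) = (f (-k))⁻¹ at h1
      rw [h1, inv_inv])⟩
  half k := by
    have h := K.half (-k)
    change 2 * |-θ (-k)| ≤ H.T (f (-k))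
    rwa [abs_neg]
  iso k := by
    have h := K.iso (-(k + 1))
    have e : -(k + 1) + 1 = -k := by ring
    rw [e] at h
    change 4 * (Θ : ℝ) ≤ |-θ (-k)| ∨ 4 * (Θ : ℝ) ≤ |-θ (-(k + 1))|
    rw [abs_neg, abs_neg]
    exact h.symm

/-- basic numbers -/
theorem nums (hF : Fam H F Δ Tm) (hΘ : 10 ^ 3 * (Δ + D0) ≤ Θ) :
    (1 : ℝ) ≤ C ∧ 1000 * (C : ℝ) ≤ Δ ∧ (0 : ℝ) ≤ D0 ∧ 1000 * ((Δ : ℝ) + D0) ≤ Θ := by
  refine ⟨by exact_mod_cast hF.hC1, by exact_mod_cast hF.hC, Nat.cast_nonneg _, ?_⟩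
  have h : (((10 ^ 3 * (Δ + D0) : ℕ)) : ℝ) ≤ Θ := by exact_mod_cast hΘ
  push_cast at h
  linarith

/-- two points of `Z(f k)` for a relator which is not `f k` -/
theorem seph (hF : Fam H F Δ Tm) (K : HChain H F D0 Θ f z y θ) {g : G} (hg : g ∈ F) {k : ℤ}
    (h1 : g ≠ f k) (h2 : g ≠ (f k)⁻¹) {a b : G} (ha : a ∈ H.Z (f k)) (hb : b ∈ H.Z (f k)) :
    |H.Φ g a b| ≤ Δ :=
  hF.sep g hg (f k) (K.hf k) (fun e => h1 e.symm) (fun e => h2 (by rw [e, inv_inv])) a ha b hb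

theorem ne1' (K : HChain H F D0 Θ f z y θ) (k : ℤ) : f k ≠ f (k - 1) ∧ f k ≠ (f (k - 1))⁻¹ := by
  have h := K.ne1 (k - 1)
  rwa [sub_add_cancel] at h

theorem ne2' (K : HChain H F D0 Θ f z y θ) (k : ℤ) : f k ≠ f (k - 2) ∧ f k ≠ (f (k - 2))⁻¹ := by
  have h := K.ne2 (k - 2)
  rwa [sub_add_cancel] at h

theorem ne1s (K : HChain H F D0 Θ f z y θ) (k : ℤ) : f k ≠ f (k + 1) ∧ f k ≠ (f (k + 1))⁻¹ := by
  have h := K.ne1 k
  exact ⟨fun e => h.1 e.symm, fun e => h.2 (by rw [e, inv_inv])⟩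

theorem ne2s (K : HChain H F D0 Θ f z y θ) (k : ℤ) : f k ≠ f (k + 2) ∧ f k ≠ (f (k + 2))⁻¹ := by
  have h := K.ne2 k
  exact ⟨fun e => h.1 e.symm, fun e => h.2 (by rw [e, inv_inv])⟩

/-- bridge of length two: `z k → y (k+1) → z (k+1)`, seen from a relator different from `f (k+1)` -/
theorem br1 (hF : Fam H F Δ Tm) (K : HChain H F D0 Θ f z y θ) {g : G} (hg : g ∈ F) (k : ℤ)
    (h1 : g ≠ f (k + 1)) (h2 : g ≠ (f (k + 1))⁻¹) : |H.Φ g (z k) (z (k + 1))| ≤ D0 + Δ := by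
  have hgX := hF.sub hg
  have e1 := PH.abs_tri H hgX (z k) (y (k + 1)) (z (k + 1))
  have e2 := H.lip g hgX (z k) (y (k + 1))
  have e3 : (d (z k) (y (k + 1)) : ℝ) ≤ D0 := by exact_mod_cast K.hD k
  have e4 := seph hF K hg h1 h2 (K.hy (k + 1)) (K.hz (k + 1))
  linarith

/-- short bridge -/
theorem br0 (hF : Fam H F Δ Tm) (K : HChain H F D0 Θ f z y θ) {g : G} (hg : g ∈ F) (k : ℤ) :
    |H.Φ g (z k) (y (k + 1))| ≤ D0 := by
  have e2 := H.lip g (hF.sub hg) (z k) (y (k + 1))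
  have e3 : (d (z k) (y (k + 1)) : ℝ) ≤ D0 := by exact_mod_cast K.hD k
  linarith

/-- `Φ` at a hub between `z (k-1)` and `z k` -/
theorem hub (hF : Fam H F Δ Tm) (K : HChain H F D0 Θ f z y θ) (k : ℤ) :
    |H.Φ (f k) (z (k - 1)) (z k) - θ k| ≤ 6 * C := by
  have hX := hF.sub (K.hf k)
  have e1 := H.coc (f k) hX (z (k - 1)) (y k) (z k)
  have e2 := K.g2 (k - 1)
  rw [sub_add_cancel] at e2
  have e3 := K.ang k
  rw [abs_le] at e2 e3 ⊢
  constructor <;> linarith [e2.1, e2.2, e3.1, e3.2]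

/-- (S) one sided statement: a main hub `k` sees everything behind it near `z (k-1)`. -/
theorem back (hG : HypG d δ) (hF : Fam H F Δ Tm) (hΘ : 10 ^ 3 * (Δ + D0) ≤ Θ)
    (K : HChain H F D0 Θ f z y θ) :
    ∀ (n : ℕ) (i k : ℤ), k - i = n → 0 < n → 4 * (Θ : ℝ) ≤ |θ k| → ∀ x ∈ H.Z (f i),
      |H.Φ (f k) x (z (k - 1))| ≤ 2 * Δ + D0 + 10 * C := by
  obtain ⟨nC, nΔ, nD, nΘ⟩ := nums hF hΘ
  intro n
  induction n using Nat.strong_induction_on with
  | _ n ih =>
    intro i k hik hn hmain x hx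
    have hkX := hF.sub (K.hf k)
    have n1 := ne1' K k
    have n2 := ne2' K k
    by_cases h1 : n = 1
    · -- `i = k - 1`
      have ei : i = k - 1 := by omega
      subst ei
      have := seph hF K (K.hf k) n1.1 n1.2 hx (K.hz (k - 1))
      linarith
    -- from `z (k-2)` to `z (k-1)`
    have b1 : |H.Φ (f k) (z (k - 2)) (z (k - 1))| ≤ D0 + Δ := by
      have e : k - 2 + 1 = k - 1 := by ring
      have := br1 hF K (K.hf k) (k - 2) (by rw [e]; exact n1.1) (by rw [e]; exact n1.2)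
      rwa [e] at this
    by_cases h2 : n = 2
    · have ei : i = k - 2 := by omega
      subst ei
      have e1 := seph hF K (K.hf k) n2.1 n2.2 hx (K.hz (k - 2))
      have e2 := PH.abs_tri H hkX x (z (k - 2)) (z (k - 1))
      linarith
    -- the general case: the previous main hub `p`
    have hp : ∃ p : ℤ, (p = k - 1 ∨ p = k - 2) ∧ 4 * (Θ : ℝ) ≤ |θ p| := by
      have h := K.iso (k - 2)
      have e : k - 2 + 1 = k - 1 := by ring
      rw [e] at h
      rcases h with h | h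
      · exact ⟨k - 2, Or.inr rfl, h⟩
      · exact ⟨k - 1, Or.inl rfl, h⟩
    obtain ⟨p, hpk, hpm⟩ := hp
    have hpX := hF.sub (K.hf p)
    have npk : f k ≠ f p ∧ f k ≠ (f p)⁻¹ := by
      rcases hpk with rfl | rfl
      · exact n1
      · exact n2
    have I := ih (p - i).toNat (by rcases hpk with rfl | rfl <;> omega) i p
      (by rcases hpk with rfl | rfl <;> omega) (by rcases hpk with rfl | rfl <;> omega) hpm x hx
    -- behind `p`
    have e1 := H.coc (f p) hpX x (z (p - 1)) (z p)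
    have e2 := hub hF K p
    have e3 : |H.Φ (f p) (z p) (y k)| ≤ Δ + D0 + 3 * C := by
      rcases hpk with rfl | rfl
      · have h := K.g1 (k - 1)
        rw [sub_add_cancel] at h
        linarith
      · have h := K.g1 (k - 2)
        have e : k - 2 + 1 = k - 1 := by ring
        rw [e] at h
        have n3 := ne1s K (k - 2)
        rw [e] at n3
        have h4 := seph hF K (K.hf (k - 2)) n3.1 n3.2 (K.hy (k - 1)) (K.hz (k - 1))
        have h5 := br0 hF K (K.hf (k - 2)) (k - 1)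
        rw [sub_add_cancel] at h5
        have h6 := PH.abs_tri H hpX (z (k - 2)) (y (k - 1)) (y k)
        have h7 := PH.abs_tri H hpX (y (k - 1)) (z (k - 1)) (y k)
        linarith
    have e4 := H.coc (f p) hpX x (z p) (y k)
    have e5 : (Δ : ℝ) + 10 * C < |H.Φ (f p) x (y k)| := by
      have e6 : |θ p| ≤ |H.Φ (f p) x (y k)| + |H.Φ (f p) x (z (p - 1))| +
          |H.Φ (f p) (z (p - 1)) (z p) - θ p| + |H.Φ (f p) (z p) (y k)| := by
        have e7 : θ p = H.Φ (f p) x (y k) + -H.Φ (f p) x (z (p - 1)) +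
            -(H.Φ (f p) (z (p - 1)) (z p) - θ p) + -H.Φ (f p) (z p) (y k) := by
          linarith
        have e8 := abs_add_le (H.Φ (f p) x (y k) + -H.Φ (f p) x (z (p - 1)) +
            -(H.Φ (f p) (z (p - 1)) (z p) - θ p)) (-H.Φ (f p) (z p) (y k))
        have e9 := abs_add_le (H.Φ (f p) x (y k) + -H.Φ (f p) x (z (p - 1)))
            (-(H.Φ (f p) (z (p - 1)) (z p) - θ p))
        have e10 := abs_add_le (H.Φ (f p) x (y k)) (-H.Φ (f p) x (z (p - 1)))
        rw [← e7] at e8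
        rw [abs_neg] at e8 e9 e10
        linarith
      linarith
    rcases hl_beh hG hF (K.hf p) (K.hf k) npk.1 npk.2 x with h | h
    · exfalso
      have := h _ (K.hy k)
      linarith
    · have h3 := h _ (K.hz p)
      rcases hpk with rfl | rfl
      · linarith
      · have h4 := PH.abs_tri H hkX x (z (k - 2)) (z (k - 1))
        linarith

theorem back' (hG : HypG d δ) (hF : Fam H F Δ Tm) (hΘ : 10 ^ 3 * (Δ + D0) ≤ Θ)
    (K : HChain H F D0 Θ f z y θ) {i k : ℤ} (hik : i < k) (hm : 4 * (Θ : ℝ) ≤ |θ k|) {x : G}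
    (hx : x ∈ H.Z (f i)) : |H.Φ (f k) x (z (k - 1))| ≤ 2 * Δ + D0 + 10 * C :=
  back hG hF hΘ K (k - i).toNat i k (by omega) (by omega) hm x hx

/-- the mirror statement -/
theorem fwd' (hG : HypG d δ) (hF : Fam H F Δ Tm) (hΘ : 10 ^ 3 * (Δ + D0) ≤ Θ)
    (K : HChain H F D0 Θ f z y θ) {k j : ℤ} (hkj : k < j) (hm : 4 * (Θ : ℝ) ≤ |θ k|) {x : G}
    (hx : x ∈ H.Z (f j)) : |H.Φ (f k) (z k) x| ≤ 2 * Δ + D0 + 13 * C := by
  have h := back' hG hF hΘ (rev hG hF K) (i := -j) (k := -k) (by omega)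
    (by change 4 * (Θ : ℝ) ≤ |-θ (- -k)|; rw [neg_neg, abs_neg]; exact hm) (x := x)
    (by change x ∈ H.Z (f (- -j)); rw [neg_neg]; exact hx)
  change |H.Φ (f (- -k)) x (y (-(-k - 1)))| ≤ 2 * Δ + D0 + 10 * C at h
  have e : -(-k - 1) = k + 1 := by ring
  rw [neg_neg, e] at h
  have hX := hF.sub (K.hf k)
  have h1 := PH.abs_tri H hX (z k) (y (k + 1)) x
  have h2 := K.g1 k
  rw [PH.abs_symm H hX] at h
  linarith

/-- a main hub between two hubs -/
theorem mid (hG : HypG d δ) (hF : Fam H F Δ Tm) (hΘ : 10 ^ 3 * (Δ + D0) ≤ Θ)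
    (K : HChain H F D0 Θ f z y θ) {i k j : ℤ} (hik : i < k) (hkj : k ≤ j)
    (hm : 4 * (Θ : ℝ) ≤ |θ k|) {a b : G} (ha : a ∈ H.Z (f i))
    (hb : (k < j ∧ b ∈ H.Z (f j)) ∨ (k = j ∧ b = z k)) :
    |H.Φ (f k) a b - θ k| ≤ 4 * Δ + 2 * D0 + 29 * C := by
  obtain ⟨nC, nΔ, nD, nΘ⟩ := nums hF hΘ
  have hX := hF.sub (K.hf k)
  have h1 := back' hG hF hΘ K hik hm ha
  have h2 := hub hF K k
  have h3 : |H.Φ (f k) (z k) b| ≤ 2 * Δ + D0 + 13 * C := by
    rcases hb with ⟨h, hb⟩ | ⟨h, rfl⟩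
    · exact fwd' hG hF hΘ K h hm hb
    · rw [hl_refl H hX, abs_zero]
      linarith
  have h4 := H.coc (f k) hX a (z (k - 1)) (z k)
  have h5 := H.coc (f k) hX a (z k) b
  have _ := hkj
  rw [abs_le] at h1 h2 h3 ⊢
  constructor <;> linarith [h1.1, h1.2, h2.1, h2.2, h3.1, h3.2]

/-- hubs are distinct -/
theorem distlt (hG : HypG d δ) (hF : Fam H F Δ Tm) (hΘ : 10 ^ 3 * (Δ + D0) ≤ Θ)
    (K : HChain H F D0 Θ f z y θ) {k l : ℤ} (hkl : k < l) : f l ≠ f k ∧ f l ≠ (f k)⁻¹ := by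
  obtain ⟨nC, nΔ, nD, nΘ⟩ := nums hF hΘ
  rcases eq_or_ne l (k + 1) with rfl | h1
  · exact K.ne1 k
  rcases eq_or_ne l (k + 2) with rfl | h2
  · exact K.ne2 k
  -- the main hub behind `k`
  obtain ⟨m, hkm, hm⟩ : ∃ m : ℤ, (m = k + 1 ∨ m = k + 2) ∧ 4 * (Θ : ℝ) ≤ |θ m| := by
    have h := K.iso (k + 1)
    have e : k + 1 + 1 = k + 2 := by ring
    rw [e] at h
    rcases h with h | h
    · exact ⟨k + 1, Or.inl rfl, h⟩
    · exact ⟨k + 2, Or.inr rfl, h⟩
  have hml : m < l := by rcases hkm with rfl | rfl <;> omega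
  have hkm' : k < m := by rcases hkm with rfl | rfl <;> omega
  have nmk : f m ≠ f k ∧ f m ≠ (f k)⁻¹ := by
    rcases hkm with rfl | rfl
    · exact K.ne1 k
    · exact K.ne2 k
  by_contra hcon
  have hZ : H.Z (f l) = H.Z (f k) := by
    by_cases h3 : f l = f k
    · rw [h3]
    · have h4 : f l = (f k)⁻¹ := by
        by_contra h4
        exact hcon ⟨h3, h4⟩
      rw [h4, H.Zinv _ (hF.sub (K.hf k))]
  have h5 : y l ∈ H.Z (f k) := hZ ▸ K.hy l
  have h6 := seph hF K (K.hf m) nmk.1 nmk.2 (K.hz k) h5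
  have h7 := mid hG hF hΘ K hkm' hml.le hm (K.hz k) (Or.inl ⟨hml, K.hy l⟩)
  have h8 := abs_sub_abs_le_abs_sub (θ m) (H.Φ (f m) (z k) (y l))
  rw [abs_sub_comm] at h8
  linarith

theorem distne (hG : HypG d δ) (hF : Fam H F Δ Tm) (hΘ : 10 ^ 3 * (Δ + D0) ≤ Θ)
    (K : HChain H F D0 Θ f z y θ) {k l : ℤ} (hkl : k ≠ l) : f k ≠ f l ∧ f k ≠ (f l)⁻¹ := by
  rcases lt_or_gt_of_ne hkl with h | h
  · have h1 := distlt hG hF hΘ K h
    exact ⟨fun e => h1.1 e.symm, fun e => h1.2 (by rw [e, inv_inv])⟩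
  · exact distlt hG hF hΘ K h

open Classical in
/-- the next main hub -/
noncomputable def nx (Θ : ℕ) (θ : ℤ → ℝ) (k : ℤ) : ℤ :=
  if 4 * (Θ : ℝ) ≤ |θ (k + 1)| then k + 1 else k + 2

theorem nx_main (K : HChain H F D0 Θ f z y θ) (k : ℤ) : 4 * (Θ : ℝ) ≤ |θ (nx Θ θ k)| := by
  unfold nx
  split_ifs with h
  · exact h
  · have h1 := K.iso (k + 1)
    have e : k + 1 + 1 = k + 2 := by ring
    rw [e] at h1
    exact h1.resolve_left h

theorem nx_cases (k : ℤ) : nx Θ θ k = k + 1 ∨ nx Θ θ k = k + 2 := by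
  unfold nx
  split_ifs with h
  · exact Or.inl rfl
  · exact Or.inr rfl

/-- the sequence of main hubs after `i` -/
noncomputable def sq (Θ : ℕ) (θ : ℤ → ℝ) (i : ℤ) : ℕ → ℤ
  | 0 => nx Θ θ i
  | n + 1 => nx Θ θ (sq Θ θ i n)

theorem sq_main (K : HChain H F D0 Θ f z y θ) (i : ℤ) (n : ℕ) :
    4 * (Θ : ℝ) ≤ |θ (sq Θ θ i n)| := by
  cases n with
  | zero => exact nx_main K i
  | succ n => exact nx_main K _

theorem sq_gt (i : ℤ) (n : ℕ) : i + n < sq Θ θ i n := by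
  induction n with
  | zero =>
    have := nx_cases (Θ := Θ) (θ := θ) i
    change i + ((0 : ℕ) : ℤ) < nx Θ θ i
    push_cast
    omega
  | succ n ih =>
    have := nx_cases (Θ := Θ) (θ := θ) (sq Θ θ i n)
    change i + ((n + 1 : ℕ) : ℤ) < nx Θ θ (sq Θ θ i n)
    push_cast
    omega

theorem sq_mono (i : ℤ) {m n : ℕ} (h : m ≤ n) : sq Θ θ i m ≤ sq Θ θ i n := by
  induction n, h using Nat.le_induction with
  | base => exact le_rfl
  | succ n _ ih =>
    have := nx_cases (Θ := Θ) (θ := θ) (sq Θ θ i n)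
    change sq Θ θ i m ≤ nx Θ θ (sq Θ θ i n)
    omega

/-- bridge from `z k` to `y (nx k)` -/
theorem brnx (hF : Fam H F Δ Tm) (K : HChain H F D0 Θ f z y θ) {g : G} (hg : g ∈ F) (k : ℤ)
    (h : k + 1 < nx Θ θ k → g ≠ f (k + 1) ∧ g ≠ (f (k + 1))⁻¹) :
    |H.Φ g (z k) (y (nx Θ θ k))| ≤ 2 * D0 + Δ := by
  have nD : (0 : ℝ) ≤ D0 := Nat.cast_nonneg _
  have nΔ : (0 : ℝ) ≤ Δ := Nat.cast_nonneg _
  rcases nx_cases (Θ := Θ) (θ := θ) k with e | e
  · rw [e]
    have := br0 hF K hg k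
    linarith
  · have h1 := h (by omega)
    rw [e]
    have h2 := br1 hF K hg k h1.1 h1.2
    have h3 := br0 hF K hg (k + 1)
    have e' : k + 1 + 1 = k + 2 := by ring
    rw [e'] at h3
    have h4 := PH.abs_tri H (hF.sub hg) (z k) (z (k + 1)) (y (k + 2))
    linarith

/-- relators off the chain -/
theorem off (hB : StCHB) (hG : HypG d δ) (hF : Fam H F Δ Tm) (hΘ : 10 ^ 3 * (Δ + D0) ≤ Θ)
    (K : HChain H F D0 Θ f z y θ) {i j : ℤ} (hij : i ≤ j) {g : G} (hg : g ∈ F)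
    (hne : ∀ k, i < k → k ≤ j → g ≠ f k ∧ g ≠ (f k)⁻¹) :
    |H.Φ g (z i) (z j)| ≤ 2 * D0 + 3 * Δ + 20 * C := by
  obtain ⟨nC, nΔ, nD, nΘ⟩ := nums hF hΘ
  have hgX := hF.sub hg
  by_cases h0 : sq Θ θ i 0 ≤ j
  · -- the last main hub
    obtain ⟨m, hm, hm1⟩ : ∃ m : ℕ, sq Θ θ i m ≤ j ∧ j < sq Θ θ i (m + 1) := by
      by_contra hcon
      push Not at hcon
      have key : ∀ n : ℕ, sq Θ θ i n ≤ j := by
        intro n
        induction n with
        | zero => exact h0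
        | succ n ih => exact hcon n ih
      have h1 := key (j - i).toNat
      have h2 := sq_gt (Θ := Θ) (θ := θ) i (j - i).toNat
      omega
    have hle : ∀ n ≤ m, i < sq Θ θ i n ∧ sq Θ θ i n ≤ j := by
      intro n hn
      have h1 := sq_gt (Θ := Θ) (θ := θ) i n
      have h2 := sq_mono (Θ := Θ) (θ := θ) i hn
      omega
    have hj : j = sq Θ θ i m ∨ j = sq Θ θ i m + 1 := by
      have h1 := nx_cases (Θ := Θ) (θ := θ) (sq Θ θ i m)
      change j < nx Θ θ (sq Θ θ i m) at hm1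
      omega
    have h1 := hB G d δ C Δ X F H Tm (2 * D0 + Δ) hG hF m (fun n => f (sq Θ θ i n)) (z i) (z j) g
      (fun n => y (sq Θ θ i n)) (fun n => z (sq Θ θ i n)) (fun n _ => K.hf _) hg
      (fun n hn => hne _ (hle n hn).1 (hle n hn).2) (fun n hn => by
        have h2 := mid hG hF hΘ K (hle n hn).1 (hle n hn).2 (sq_main K i n) (K.hz i) (b := z j) (by
          rcases lt_or_eq_of_le (hle n hn).2 with h3 | h3
          · exact Or.inl ⟨h3, K.hz j⟩
          · exact Or.inr ⟨h3, by rw [h3]⟩)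
        have h3 := sq_main K i n
        have h4 := abs_sub_abs_le_abs_sub (θ (sq Θ θ i n)) (H.Φ (f (sq Θ θ i n)) (z i) (z j))
        rw [abs_sub_comm] at h4
        change 2 * ((Δ : ℝ) + 10 * C) < |H.Φ (f (sq Θ θ i n)) (z i) (z j)|
        linarith)
      (fun n _ => K.hy _) (fun n _ => K.hz _)
      (brnx hF K hg i (fun h => hne _ (by omega) (by
        change nx Θ θ i ≤ j at h0
        omega)))
      (fun n hn => brnx hF K hg (sq Θ θ i n) (fun h => hne _ (by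
        have := (hle n (by omega)).1
        omega) (by
        have h2 := (hle (n + 1) (by omega)).2
        change nx Θ θ (sq Θ θ i n) ≤ j at h2
        omega)))
      (by
        change |H.Φ g (z (sq Θ θ i m)) (z j)| ≤ 2 * D0 + Δ
        rcases hj with h2 | h2
        · rw [← h2, hl_refl H hgX, abs_zero]
          linarith
        · have h3 := (hle m le_rfl)
          have h4 := hne j (by omega) le_rfl
          rw [h2] at h4 ⊢
          have h5 := br1 hF K hg (sq Θ θ i m) h4.1 h4.2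
          linarith)
    linarith
  · -- no main hub
    have h1 := nx_cases (Θ := Θ) (θ := θ) i
    change ¬ nx Θ θ i ≤ j at h0
    have h2 : j = i ∨ j = i + 1 := by omega
    rcases h2 with rfl | rfl
    · rw [hl_refl H hgX, abs_zero]
      linarith
    · have h4 := hne (i + 1) (by omega) le_rfl
      have h5 := br1 hF K hg i h4.1 h4.2
      linarith

/-- every hub on the chain -/
theorem on (hB : StCHB) (hG : HypG d δ) (hF : Fam H F Δ Tm) (hΘ : 10 ^ 3 * (Δ + D0) ≤ Θ)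
    (K : HChain H F D0 Θ f z y θ) {i k j : ℤ} (hik : i < k) (hkj : k ≤ j) :
    |H.Φ (f k) (z i) (z j) - θ k| ≤ 4 * D0 + 6 * Δ + 46 * C := by
  have hX := hF.sub (K.hf k)
  have h1 := off hB hG hF hΘ K (i := i) (j := k - 1) (by omega) (K.hf k)
    (fun l _ hl => distne hG hF hΘ K (by omega))
  have h2 := off hB hG hF hΘ K hkj (K.hf k) (fun l hl _ => distne hG hF hΘ K (by omega))
  have h3 := hub hF K k
  have h4 := H.coc (f k) hX (z i) (z (k - 1)) (z k)
  have h5 := H.coc (f k) hX (z i) (z k) (z j)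
  rw [abs_le] at h1 h2 h3 ⊢
  constructor <;> linarith [h1.1, h1.2, h2.1, h2.2, h3.1, h3.2]

end KB

/-- Module KB. -/
theorem stKB (h : StCHB) : StKB := by
  intro G _ d δ C Δ D0 Θ X F H Tm hG hC hF hΘ f z y θ K
  obtain ⟨nC, nΔ, nD, nΘ⟩ := KB.nums hF hΘ
  have _ := hC
  refine ⟨fun k l hkl => KB.distne hG hF hΘ K hkl, ?_, ?_, ?_, ?_⟩
  · intro i k j hik hkj
    have h1 := KB.on h hG hF hΘ K hik hkj
    linarith
  · intro i j hij g hg hne
    have h1 := KB.off h hG hF hΘ K hij hg hne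
    linarith
  · intro i k j hik hkj a ha b hb
    have hX := hF.sub (K.hf k)
    have n1 := KB.distne hG hF hΘ K (k := k) (l := i) (by omega)
    have n2 := KB.distne hG hF hΘ K (k := k) (l := j) (by omega)
    have h1 := KB.on h hG hF hΘ K hik hkj.le
    have h2 := KB.seph hF K (K.hf k) n1.1 n1.2 ha (K.hz i)
    have h3 := KB.seph hF K (K.hf k) n2.1 n2.2 (K.hz j) hb
    have h4 := H.coc (f k) hX a (z i) (z j)
    have h5 := H.coc (f k) hX a (z j) b
    rw [abs_le] at h1 h2 h3 ⊢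
    constructor <;> linarith [h1.1, h1.2, h2.1, h2.2, h3.1, h3.2]
  · intro i j g hg
    have hgX := hF.sub hg
    -- symmetric
    have key : ∀ i j : ℤ, i ≤ j → |H.Φ g (z i) (z j)| ≤ H.T g / 2 + 10 * ((Δ : ℝ) + D0) := by
      intro i j hij
      by_cases hex : ∃ k, i < k ∧ k ≤ j ∧ (g = f k ∨ g = (f k)⁻¹)
      · obtain ⟨k, hik, hkj, hgk⟩ := hex
        have h1 := KB.on h hG hF hΘ K hik hkj
        have h2 := PH.abs_pm H (hF.sub (K.hf k)) hgk (z i) (z j)
        have h3 := K.half k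
        have h4 := abs_sub_abs_le_abs_sub (H.Φ (f k) (z i) (z j)) (θ k)
        rw [h2.2]
        linarith [h2.1]
      · push Not at hex
        have h1 := KB.off h hG hF hΘ K hij hg (fun k h1 h2 => hex k h1 h2)
        have h2 := hl_Tpos H hgX
        linarith
    rcases le_total i j with hij | hij
    · exact key i j hij
    · rw [PH.abs_symm H hgX]
      exact key j i hij

end Pool.Agent.Helper74.TB
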