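import Pool.Agent.Helper74.TB.StAC

/-! MP_7d16da_al: statements of Part D (tight pairs) and Part E (the quotient metric). -/

set_option autoImplicit false

namespace Pool.Agent.Helper74.TB

open Pool.Agent.Helper74.MH

/-- Closeness of the pieces `γ[i,i']` and `u γ'[j,j']`. -/
def Cl {G : Type*} [Group G] {d : G → G → ℕ} {X : Set G} {C : ℕ} (H : Hubs d X C)
    (F : Set G) (R : ℕ) (r0 : ℝ) (γ γ' : ℕ → G) (i i' j j' : ℕ) (u : G) : Prop :=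
  (∀ t, i ≤ t → t ≤ i' → ∃ t', j ≤ t' ∧ t' ≤ j' ∧ Adj H F R (γ t) (u * γ' t') ∧
    (d (γ t) (u * γ' t') : ℝ) ≤ r0) ∧
  (∀ t', j ≤ t' → t' ≤ j' → ∃ t, i ≤ t ∧ t ≤ i' ∧ Adj H F R (γ t) (u * γ' t') ∧
    (d (γ t) (u * γ' t') : ℝ) ≤ r0)

/-- Digon structure: from the indices `i, j` on, the geodesic `γ` and the translate `u γ'` are
close, then both run along a hub `f`, then `γ` is compared with `f u γ'`, and so on.
`c0` bounds the defects. -/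
inductive DC {G : Type*} [Group G] {d : G → G → ℕ} {X : Set G} {C : ℕ} (H : Hubs d X C)
    (F : Set G) (R : ℕ) (b b' : G → ℝ) (c0 r0 : ℝ) (γ γ' : ℕ → G) (N N' : ℕ) :
    ℕ → ℕ → G → Prop
  | fin (i j : ℕ) (u : G) : i ≤ N → j ≤ N' → u ∈ Subgroup.closure F → γ N = u * γ' N' →
      Cl H F R r0 γ γ' i N j N' u → DC H F R b b' c0 r0 γ γ' N N' i j u
  | hub (i j : ℕ) (u : G) (i1 i2 j1 j2 : ℕ) (f : G) : f ∈ F → u ∈ Subgroup.closure F →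
      i ≤ i1 → i1 < i2 → i2 ≤ N → j ≤ j1 → j1 < j2 → j2 ≤ N' →
      Cl H F R r0 γ γ' i i1 j j1 u →
      (∀ t, i1 ≤ t → t ≤ i2 → Nh d (7 * C) (H.Z f) (γ t)) →
      (∀ t, j1 ≤ t → t ≤ j2 → Nh d (7 * C) (H.Z f) (u * γ' t)) →
      b f - c0 ≤ H.Φ f (γ i1) (γ i2) → b' f⁻¹ - c0 ≤ -H.Φ f (u * γ' j1) (u * γ' j2) →
      DC H F R b b' c0 r0 γ γ' N N' i2 j2 (f * u) → DC H F R b b' c0 r0 γ γ' N N' i j u

/-- Common hypotheses on the constants. -/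
structure Cst (δ C Δ R : ℕ) (c Tm : ℝ) : Prop where
  hδ : 1 ≤ δ
  hC : 100 * δ ≤ C
  hΔ : 1000 * C ≤ Δ
  hR : 1000 * Δ ≤ R
  hc : 0 ≤ c
  hcT : 100 * c ≤ Tm
  hT : 10 * (R : ℝ) ≤ Tm

/-- Part D1: the V-lemma. -/
def StV : Prop :=
  ∀ (G : Type) [Group G] (d : G → G → ℕ) (δ C Δ R : ℕ) (X F : Set G) (H : Hubs d X C)
    (b : G → ℝ) (c Tm : ℝ), HypG d δ → Fam H F Δ Tm → Cst δ C Δ R c Tm → Wt H F b →
    ∀ (N N' : ℕ) (γ γ' : ℕ → G), IsGeo d N γ → IsGeo d N' γ' → γ N = γ' 0 →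
      Tight H F b c (γ 0) (γ N) → Tight H F b c (γ' 0) (γ' N') →
      ∃ i ≤ N, ∃ j ≤ N', ∃ k ∈ Subgroup.closure F,
        Tight H F b (c + 3 * Δ) (γ 0) (k * γ' N') ∧
        (γ i = k * γ' j ∨ ∃ f ∈ F, Nh d (7 * C) (H.Z f) (γ i) ∧
          Nh d (7 * C) (H.Z f) (k * γ' j)) ∧
        (∀ t, i ≤ t → t ≤ N → ∃ t' ≤ j, AdjK H F R (γ t) (γ' t')) ∧
        (∀ t' ≤ j, ∃ t, i ≤ t ∧ t ≤ N ∧ AdjK H F R (γ t) (γ' t'))

/-- Part D2: the digon lemma. -/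
def StDig : Prop :=
  ∀ (G : Type) [Group G] (d : G → G → ℕ) (δ C Δ R : ℕ) (X F : Set G) (H : Hubs d X C)
    (b b' : G → ℝ) (c lam Tm : ℝ), HypG d δ → Fam H F Δ Tm → Cst δ C Δ R c Tm → Wt H F b →
    Wt H F b' → (∀ f ∈ F, |b f - b' f| ≤ lam) → 0 ≤ lam → 10 * lam ≤ Tm →
    ∀ (N N' : ℕ) (γ γ' : ℕ → G), IsGeo d N γ → IsGeo d N' γ' → γ 0 = γ' 0 →
      (∃ k ∈ Subgroup.closure F, γ N = k * γ' N') →
      Tight H F b c (γ 0) (γ N) → Tight H F b' c (γ' 0) (γ' N') →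
      DC H F R b b' (lam + c + 24 * Δ) (lam + 2 * c + 25 * Δ) γ γ' N N' 0 0 1

/-- Part D3: chords. -/
def StCh : Prop :=
  ∀ (G : Type) [Group G] (d : G → G → ℕ) (δ C Δ R : ℕ) (X F : Set G) (H : Hubs d X C)
    (b : G → ℝ) (c Tm : ℝ), HypG d δ → Fam H F Δ Tm → Cst δ C Δ R c Tm → Wt H F b →
    ∀ x y, Adj H F R x y → ∃ k ∈ Subgroup.closure F, Adj H F R x (k * y) ∧
      Tight H F b C x (k * y)

/-- Part E1: the quotient metric is hyperbolic with an absolute constant, and tight geodesics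
map close to geodesics. -/
def StE : Prop :=
  ∀ (G G' : Type) [Group G] [Group G'] (d : G → G → ℕ) (d' : G' → G' → ℕ) (δ C Δ R : ℕ)
    (X F : Set G) (H : Hubs d X C) (c Tm : ℝ) (π : G →* G'), HypG d δ → Fam H F Δ Tm →
    Cst δ C Δ R c Tm → Quo H F R π d' →
    HypG d' 2000 ∧
    ∀ b : G → ℝ, Wt H F b → (∀ f ∈ F, |b f - H.T f / 2| ≤ Tm / 10) →
      ∀ (N : ℕ) (γ : ℕ → G), IsGeo d N γ → Tight H F b c (γ 0) (γ N) →
        ∀ (N' : ℕ) (γ' : ℕ → G'), IsGeo d' N' γ' → γ' 0 = π (γ 0) → γ' N' = π (γ N) →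
          (∀ t ≤ N, ∃ s ≤ N', d' (γ' s) (π (γ t)) ≤ 150) ∧
          (∀ s ≤ N', ∃ t ≤ N, d' (γ' s) (π (γ t)) ≤ 450)

/-- Part E2: electric length in `G` of tight pairs is bounded by the length in the quotient. -/
def StLen : Prop :=
  ∃ M1 : ℕ, ∀ (G G' : Type) [Group G] [Group G'] (d : G → G → ℕ) (d' : G' → G' → ℕ)
    (δ C Δ R : ℕ) (X F : Set G) (H : Hubs d X C) (c Tm : ℝ) (π : G →* G'), HypG d δ →
    Fam H F Δ Tm → Cst δ C Δ R c Tm → 200 * c ≤ Tm → Quo H F R π d' → (M1 : ℝ) * R ≤ Tm →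
    ∀ b : G → ℝ, Wt H F b → (∀ f ∈ F, |b f - H.T f / 2| ≤ Tm / 10) →
      ∀ x y, Tight H F b c x y → ∀ m : ℕ, d' (π x) (π y) ≤ m → DE H F R (M1 * (m + 1)) x y

/-- Part E3: counting long hubs. -/
def StCount : Prop :=
  ∀ (G : Type) [Group G] (d : G → G → ℕ) (δ C Δ R : ℕ) (X F : Set G) (H : Hubs d X C)
    (c Tm : ℝ), HypG d δ → Fam H F Δ Tm → Cst δ C Δ R c Tm →
    ∀ (n : ℕ) (x y : G), DE H F R n x y → ∀ S : Finset G, (∀ f ∈ S, f ∈ F) →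
      (∀ f ∈ S, (R : ℝ) * n < |H.Φ f x y|) → (∀ f ∈ S, ∀ f' ∈ S, f' ≠ f⁻¹) → S.card ≤ n

end Pool.Agent.Helper74.TB
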