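import Pool.Agent.Helper74.TB.E0
import Pool.Agent.Helper74.TB.StDE

/-! MP_7d16da_al, Part E1: the quotient metric is hyperbolic. -/

set_option autoImplicit false

namespace Pool.Agent.Helper74.TB

open Pool.Agent.Helper74.MH

namespace E1

section
variable {G G' : Type*} [Group G] [Group G'] {d : G → G → ℕ} {d' : G' → G' → ℕ}
  {δ C Δ R : ℕ} {X F : Set G} {H : Hubs d X C} {Tm : ℝ} {π : G →* G'}

theorem nh_smul (hG : HypG d δ) {f : G} (hf : f ∈ X) {r : ℕ} {x : G}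
    (h : Nh d r (H.Z f) x) (g : G) : Nh d r (H.Z (g * f * g⁻¹)) (g * x) := by
  obtain ⟨z, hz, hd⟩ := h
  exact ⟨g * z, (H.Zconj f hf g z).2 hz, by rw [hG.inv]; exact hd⟩

theorem nh_mono {r r' : ℕ} (hr : r ≤ r') {S : Set G} {x : G} (h : Nh d r S x) : Nh d r' S x := by
  obtain ⟨z, hz, hd⟩ := h
  exact ⟨z, hz, hd.trans hr⟩

theorem nh_move (hG : HypG d δ) {r s : ℕ} {S : Set G} {x y : G} (h : Nh d r S y)
    (hxy : d x y ≤ s) : Nh d (r + s) S x := by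
  obtain ⟨z, hz, hd⟩ := h
  refine ⟨z, hz, ?_⟩
  have := hG.path.tri x y z
  omega

theorem adj_smul (hG : HypG d δ) (hF : Fam H F Δ Tm) {x y : G} (h : Adj H F R x y) (g : G) :
    Adj H F R (g * x) (g * y) := by
  rcases h with h | ⟨f, hf, h1, h2⟩
  · left; rw [hG.inv]; exact h
  · right
    exact ⟨g * f * g⁻¹, hF.conj f hf g, nh_smul hG (hF.sub hf) h1 g,
      nh_smul hG (hF.sub hf) h2 g⟩

theorem q_le_of_adj (hQ : Quo H F R π d') {x y : G} (h : Adj H F R x y) :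
    d' (π x) (π y) ≤ 1 := (hQ.adj _ _).2 ⟨x, y, rfl, rfl, h⟩

theorem q_ker (hQ : Quo H F R π d') {k : G} (hk : k ∈ Subgroup.closure F) (y : G) :
    π (k * y) = π y := by
  rw [map_mul, (hQ.ker k).2 hk, one_mul]

theorem q_eq (hQ : Quo H F R π d') {x y : G} (h : π x = π y) :
    ∃ k ∈ Subgroup.closure F, x = k * y := by
  refine ⟨x * y⁻¹, (hQ.ker _).1 ?_, by rw [inv_mul_cancel_right]⟩
  rw [map_mul, map_inv, h, mul_inv_cancel]

theorem q_le_of_adjK (hQ : Quo H F R π d') {x y : G} (h : AdjK H F R x y) :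
    d' (π x) (π y) ≤ 1 := by
  obtain ⟨k, hk, h⟩ := h
  rw [← q_ker hQ hk y]
  exact q_le_of_adj hQ h

/-- what the digon structure says about closeness -/
theorem dc_close {b b' : G → ℝ} {c0 r0 : ℝ} {γ γ' : ℕ → G} {N N' i j : ℕ} {u : G}
    (h : DC H F R b b' c0 r0 γ γ' N N' i j u) :
    (∀ t, i ≤ t → t ≤ N → ∃ t', t' ≤ N' ∧ AdjK H F R (γ t) (γ' t')) ∧
    (∀ t', j ≤ t' → t' ≤ N' → ∃ t, t ≤ N ∧ AdjK H F R (γ t) (γ' t')) := by
  induction h with
  | fin i j u hi hj hu he hcl =>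
    constructor
    · intro t h1 h2
      obtain ⟨t', -, h4, h5, -⟩ := hcl.1 t h1 h2
      exact ⟨t', h4, u, hu, h5⟩
    · intro t' h1 h2
      obtain ⟨t, -, h4, h5, -⟩ := hcl.2 t' h1 h2
      exact ⟨t, h4, u, hu, h5⟩
  | hub i j u i1 i2 j1 j2 f hf hu hi1 hi12 hi2 hj1 hj12 hj2 hcl hn1 hn2 hb1 hb2 hDC ih =>
    have hadj : ∀ t t', i1 ≤ t → t ≤ i2 → j1 ≤ t' → t' ≤ j2 → AdjK H F R (γ t) (γ' t') := by
      intro t t' h1 h2 h3 h4
      exact ⟨u, hu, Or.inr ⟨f, hf, nh_mono (by omega) (hn1 t h1 h2),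
        nh_mono (by omega) (hn2 t' h3 h4)⟩⟩
    constructor
    · intro t h1 h2
      rcases le_total t i1 with h3 | h3
      · obtain ⟨t', -, h5, h6, -⟩ := hcl.1 t h1 h3
        exact ⟨t', by omega, u, hu, h6⟩
      · rcases le_total t i2 with h4 | h4
        · exact ⟨j1, by omega, hadj t j1 h3 h4 le_rfl hj12.le⟩
        · exact ih.1 t h4 h2
    · intro t' h1 h2
      rcases le_total t' j1 with h3 | h3
      · obtain ⟨t, -, h5, h6, -⟩ := hcl.2 t' h1 h3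
        exact ⟨t, by omega, u, hu, h6⟩
      · rcases le_total t' j2 with h4 | h4
        · exact ⟨i1, by omega, hadj i1 t' le_rfl hi12.le h3 h4⟩
        · exact ih.2 t' h4 h2

/-- the weight `T/2` -/
theorem wt_half (hF : Fam H F Δ Tm) : Wt H F (fun f => H.T f / 2) := by
  refine ⟨?_, ?_, ?_⟩
  · intro f hf g
    show H.T (g * f * g⁻¹) / 2 = H.T f / 2
    rw [H.Tconj f (hF.sub hf)]
  · intro f hf
    show H.T f / 2 + H.T f⁻¹ / 2 = H.T f
    rw [H.Tinv f (hF.sub hf)]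
    ring
  · intro f hf
    have := hl_Tpos H (hF.sub hf)
    show H.T f ≤ 3 * (H.T f / 2)
    linarith

theorem tight_mono {b : G → ℝ} {c c' : ℝ} (hc : c ≤ c') {x y : G} (h : Tight H F b c x y) :
    Tight H F b c' x y := fun f hf => (h f hf).trans (by linarith)

/-- the chosen geodesics -/
structure Chs (H : Hubs d X C) (F : Set G) (π : G →* G') (nn : G' → G' → ℕ)
    (gg : G' → G' → ℕ → G) : Prop where
  geo : ∀ a b, IsGeo d (nn a b) (gg a b)
  h0 : ∀ a b, π (gg a b 0) = a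
  h1 : ∀ a b, π (gg a b (nn a b)) = b
  hmin : ∀ a b x y, π x = a → π y = b → nn a b ≤ d x y

theorem exists_chs (hG : HypG d δ) (hQ : Quo H F R π d') :
    ∃ (nn : G' → G' → ℕ) (gg : G' → G' → ℕ → G), Chs H F π nn gg := by
  classical
  have key : ∀ a b : G', ∃ (n : ℕ) (γ : ℕ → G), IsGeo d n γ ∧ π (γ 0) = a ∧ π (γ n) = b ∧
      ∀ x y, π x = a → π y = b → n ≤ d x y := by
    intro a b
    have hex : ∃ n, ∃ x y, π x = a ∧ π y = b ∧ d x y = n := by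
      obtain ⟨x, hx⟩ := hQ.surj a
      obtain ⟨y, hy⟩ := hQ.surj b
      exact ⟨d x y, x, y, hx, hy, rfl⟩
    obtain ⟨x, y, hx, hy, hn⟩ := Nat.find_spec hex
    obtain ⟨γ, g0, g1, hγ⟩ := exists_geo hG.path x y
    refine ⟨d x y, γ, hγ, by rw [g0]; exact hx, by rw [g1]; exact hy, ?_⟩
    intro x' y' hx' hy'
    rw [hn]
    exact Nat.find_min' hex ⟨x', y', hx', hy', rfl⟩
  choose nn gg h1 h2 h3 h4 using key
  exact ⟨nn, gg, ⟨h1, h2, h3, h4⟩⟩

/-- translates of chosen geodesics -/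
theorem chs_tr (hG : HypG d δ) (hF : Fam H F Δ Tm) (hT : 100 * (C : ℝ) ≤ Tm)
    (hQ : Quo H F R π d') {nn : G' → G' → ℕ} {gg : G' → G' → ℕ → G} (hch : Chs H F π nn gg)
    (a b : G') (x : G) (hx : π x = a) :
    ∃ γ : ℕ → G, IsGeo d (nn a b) γ ∧ γ 0 = x ∧ (∀ t, π (γ t) = π (gg a b t)) ∧
      Tight H F (fun f => H.T f / 2) (10 * C) (γ 0) (γ (nn a b)) := by
  obtain ⟨k, hk, hkx⟩ := q_eq hQ (x := x) (y := gg a b 0) (by rw [hx, hch.h0])
  have hgeo := hb_smul hG (hch.geo a b) k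
  refine ⟨fun t => k * gg a b t, hgeo, hkx.symm, fun t => q_ker hQ hk _, ?_⟩
  refine hl_min hG hF hT ?_
  intro k' hk'
  have h1 := hgeo 0 (nn a b) (Nat.zero_le _) le_rfl
  have h2 := hch.hmin a b (k * gg a b 0) (k' * (k * gg a b (nn a b)))
    (by rw [q_ker hQ hk, hch.h0]) (by rw [q_ker hQ hk', q_ker hQ hk, hch.h1])
  show d (k * gg a b 0) (k * gg a b (nn a b)) ≤
    d (k * gg a b 0) (k' * (k * gg a b (nn a b))) + 10 * C
  have h3 : d (k * gg a b 0) (k * gg a b (nn a b)) + 0 = nn a b := h1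
  omega

/-- reversed translates of chosen geodesics -/
theorem chs_rev (hG : HypG d δ) (hF : Fam H F Δ Tm) (hT : 100 * (C : ℝ) ≤ Tm)
    (hQ : Quo H F R π d') {nn : G' → G' → ℕ} {gg : G' → G' → ℕ → G} (hch : Chs H F π nn gg)
    (a b : G') (y : G) (hy : π y = b) :
    ∃ γ : ℕ → G, IsGeo d (nn a b) γ ∧ γ 0 = y ∧
      (∀ t ≤ nn a b, π (γ t) = π (gg a b (nn a b - t))) ∧
      Tight H F (fun f => H.T f / 2) (10 * C) (γ 0) (γ (nn a b)) := by
  obtain ⟨k, hk, hky⟩ := q_eq hQ (x := y) (y := gg a b (nn a b)) (by rw [hy, hch.h1])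
  have hgeo := hb_rev hG (hb_smul hG (hch.geo a b) k)
  refine ⟨fun t => k * gg a b (nn a b - t), hgeo, ?_, fun t _ => q_ker hQ hk _, ?_⟩
  · show k * gg a b (nn a b - 0) = y
    rw [Nat.sub_zero]; exact hky.symm
  refine hl_min hG hF hT ?_
  intro k' hk'
  have h1 := hgeo 0 (nn a b) (Nat.zero_le _) le_rfl
  have h2 := hch.hmin a b (k' * (k * gg a b (nn a b - nn a b))) (k * gg a b (nn a b - 0))
    (by rw [q_ker hQ hk', q_ker hQ hk, Nat.sub_self, hch.h0])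
    (by rw [q_ker hQ hk, Nat.sub_zero, hch.h1])
  have h4 := hG.path.symm (k' * (k * gg a b (nn a b - nn a b))) (k * gg a b (nn a b - 0))
  show d (k * gg a b (nn a b - 0)) (k * gg a b (nn a b - nn a b)) ≤
    d (k * gg a b (nn a b - 0)) (k' * (k * gg a b (nn a b - nn a b))) + 10 * C
  have h3 : d (k * gg a b (nn a b - 0)) (k * gg a b (nn a b - nn a b)) + 0 = nn a b := h1
  omega

/-- the guessed geodesics -/
def Lc (π : G →* G') (nn : G' → G' → ℕ) (gg : G' → G' → ℕ → G) (a b : G') : Set G' :=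
  {p | ∃ t ≤ nn a b, p = π (gg a b t)}


end

section
variable {G G' : Type} [Group G] [Group G'] {d : G → G → ℕ} {d' : G' → G' → ℕ}
  {δ C Δ R : ℕ} {X F : Set G} {H : Hubs d X C} {Tm : ℝ} {π : G →* G'}

/-- the common hypotheses -/
structure Hyp (δ C Δ R : ℕ) (H : Hubs d X C) (F : Set G) (Tm : ℝ) (π : G →* G')
    (d' : G' → G' → ℕ) (nn : G' → G' → ℕ) (gg : G' → G' → ℕ → G) : Prop where
  hG : HypG d δ
  hF : Fam H F Δ Tm
  hδ : 1 ≤ δ
  hC : 100 * δ ≤ C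
  hΔ : 1000 * C ≤ Δ
  hR : 1000 * Δ ≤ R
  hT : 10 * (R : ℝ) ≤ Tm
  hQ : Quo H F R π d'
  hch : Chs H F π nn gg

variable {nn : G' → G' → ℕ} {gg : G' → G' → ℕ → G}

theorem Hyp.bounds (h : Hyp δ C Δ R H F Tm π d' nn gg) :
    (1 : ℝ) ≤ C ∧ 1000 * (C : ℝ) ≤ Δ ∧ 1000 * (Δ : ℝ) ≤ R := by
  refine ⟨by exact_mod_cast h.hF.hC1, by exact_mod_cast h.hΔ, by exact_mod_cast h.hR⟩

theorem Hyp.hT' (h : Hyp δ C Δ R H F Tm π d' nn gg) : 100 * (C : ℝ) ≤ Tm := by
  obtain ⟨h1, h2, h3⟩ := h.bounds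
  have := h.hT
  linarith

theorem Hyp.cst (h : Hyp δ C Δ R H F Tm π d' nn gg) {c : ℝ} (hc : 0 ≤ c)
    (hcT : 100 * c ≤ Tm) : Cst δ C Δ R c Tm :=
  ⟨h.hδ, h.hC, h.hΔ, h.hR, hc, hcT, h.hT⟩

theorem Hyp.cst10 (h : Hyp δ C Δ R H F Tm π d' nn gg) : Cst δ C Δ R (10 * C) Tm := by
  obtain ⟨h1, h2, h3⟩ := h.bounds
  have := h.hT
  exact h.cst (by linarith) (by linarith)

theorem Hyp.cst13 (h : Hyp δ C Δ R H F Tm π d' nn gg) : Cst δ C Δ R (10 * C + 3 * Δ) Tm := by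
  obtain ⟨h1, h2, h3⟩ := h.bounds
  have := h.hT
  exact h.cst (by linarith) (by linarith)

/-- comparison of a tight geodesic with a chosen one -/
theorem compare (hDig : StDig) (h : Hyp δ C Δ R H F Tm π d' nn gg) {b : G → ℝ} {c : ℝ}
    (hc : Cst δ C Δ R c Tm) (h10 : 10 * (C : ℝ) ≤ c) (hb : Wt H F b)
    (hbT : ∀ f ∈ F, |b f - H.T f / 2| ≤ Tm / 10) {N : ℕ} {γ : ℕ → G} (hγ : IsGeo d N γ)
    (ht : Tight H F b c (γ 0) (γ N)) {a₁ a₂ : G'} (e0 : π (γ 0) = a₁) (e1 : π (γ N) = a₂) :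
    (∀ t ≤ N, ∃ p ∈ Lc π nn gg a₁ a₂, d' (π (γ t)) p ≤ 1) ∧
    (∀ p ∈ Lc π nn gg a₁ a₂, ∃ t ≤ N, d' (π (γ t)) p ≤ 1) := by
  obtain ⟨γ', g1, g2, g3, g4⟩ := chs_tr h.hG h.hF h.hT' h.hQ h.hch a₁ a₂ (γ 0) e0
  have hend : ∃ k ∈ Subgroup.closure F, γ N = k * γ' (nn a₁ a₂) := by
    apply q_eq h.hQ
    rw [e1, g3, h.hch.h1]
  have hDC := hDig G d δ C Δ R X F H b (fun f => H.T f / 2) c (Tm / 10) Tm h.hG h.hF hc hb
    (wt_half h.hF) hbT
    (by have h1 := hc.hT; have h2 : (0 : ℝ) ≤ R := Nat.cast_nonneg _; linarith)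
    (by linarith) N (nn a₁ a₂) γ γ' hγ g1 g2.symm hend ht
    (tight_mono h10 g4)
  obtain ⟨k1, k2⟩ := dc_close hDC
  constructor
  · intro t htN
    obtain ⟨t', h1, h2⟩ := k1 t (Nat.zero_le _) htN
    exact ⟨π (gg a₁ a₂ t'), ⟨t', h1, rfl⟩, by rw [← g3]; exact q_le_of_adjK h.hQ h2⟩
  · rintro p ⟨t', h1, rfl⟩
    obtain ⟨t, h2, h3⟩ := k2 t' (Nat.zero_le _) h1
    exact ⟨t, h2, by rw [← g3]; exact q_le_of_adjK h.hQ h3⟩

theorem half_near (h : Hyp δ C Δ R H F Tm π d' nn gg) :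
    ∀ f ∈ F, |(fun f => H.T f / 2) f - H.T f / 2| ≤ Tm / 10 := by
  intro f _
  obtain ⟨h1, h2, h3⟩ := h.bounds
  have := h.hT
  show |H.T f / 2 - H.T f / 2| ≤ Tm / 10
  rw [sub_self, abs_zero]
  linarith

/-- close points are adjacent -/
theorem Hyp.small (h : Hyp δ C Δ R H F Tm π d' nn gg) : 22 * C ≤ R ∧ 8 * δ ≤ R ∧ 1 ≤ R := by
  have h1 := h.hδ
  have h2 := h.hC
  have h3 := h.hΔ
  have h4 := h.hR
  refine ⟨?_, ?_, ?_⟩ <;> omega

theorem guess1 (hDig : StDig) (hCh : StCh) (h : Hyp δ C Δ R H F Tm π d' nn gg) (a b : G')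
    (hab : d' a b ≤ 1) : ∀ p ∈ Lc π nn gg a b, d' a p ≤ 3 := by
  intro p hp
  obtain ⟨x₁, y₁, hx, hy, hadj⟩ := (h.hQ.adj a b).1 hab
  obtain ⟨hs1, hs2, hs3⟩ := h.small
  obtain ⟨b1, b2, b3⟩ := h.bounds
  have hT := h.hT
  obtain ⟨k, hk, hadj', htight⟩ := hCh G d δ C Δ R X F H (fun f => H.T f / 2) (10 * C) Tm h.hG
    h.hF h.cst10 (wt_half h.hF) x₁ y₁ hadj
  obtain ⟨γ, g0, g1, hγ⟩ := exists_geo h.hG.path x₁ (k * y₁)
  obtain ⟨t, ht, hpt⟩ := (compare hDig h (b := fun f => H.T f / 2) h.cst10 le_rfl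
    (wt_half h.hF) (half_near h) hγ (by
      rw [g0, g1]
      exact tight_mono (by linarith) htight) (a₁ := a) (a₂ := b) (by rw [g0, hx])
    (by rw [g1, q_ker h.hQ hk, hy])).2 p hp
  -- the point of the short geodesic is close to the first point
  have h2 : d' a (π (γ t)) ≤ 2 := by
    rw [← hx]
    rcases hadj' with h3 | ⟨f, hf, h3, h4⟩
    · have h4 : d x₁ (γ t) ≤ R := by
        have h5 := hγ 0 t (Nat.zero_le _) ht
        rw [g0] at h5
        omega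
      have := q_le_of_adj h.hQ (H := H) (Or.inl h4)
      omega
    · have hbt := hb_btw h.hG hγ (Nat.zero_le t) ht le_rfl
      rw [g0, g1] at hbt
      obtain ⟨z, hz, hzd⟩ := hl_qc h.hG H h.hC (h.hF.sub hf) h3 h4 hbt
      have e1 : d' (π x₁) (π z) ≤ 1 := q_le_of_adj h.hQ (H := H) (Or.inr ⟨f, hf, h3, z, hz, by
        rw [hb_self h.hG]; exact Nat.zero_le _⟩)
      have e2 : d' (π (γ t)) (π z) ≤ 1 := q_le_of_adj h.hQ (H := H) (Or.inl (by omega))
      have e3 := h.hQ.path.tri (π x₁) (π z) (π (γ t))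
      have e4 := h.hQ.path.symm (π z) (π (γ t))
      omega
  have h5 := h.hQ.path.tri a (π (γ t)) p
  omega

theorem guess2 (hV : StV) (hDig : StDig) (h : Hyp δ C Δ R H F Tm π d' nn gg) (a b e : G') :
    ∀ p ∈ Lc π nn gg a b, ∃ q ∈ Lc π nn gg a e ∪ Lc π nn gg e b, d' p q ≤ 3 := by
  rintro p ⟨t, ht, rfl⟩
  obtain ⟨hs1, hs2, hs3⟩ := h.small
  obtain ⟨b1, b2, b3⟩ := h.bounds
  have hT := h.hT
  -- the two chosen geodesics
  obtain ⟨γ, g1, g2, g3, g4⟩ := chs_tr h.hG h.hF h.hT' h.hQ h.hch a b (gg a b 0) (h.hch.h0 a b)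
  have hγN : π (γ (nn a b)) = b := by rw [g3, h.hch.h1]
  obtain ⟨γ', k1, k2, k3, k4⟩ := chs_rev h.hG h.hF h.hT' h.hQ h.hch e b (γ (nn a b)) hγN
  have hγ'N : π (γ' (nn e b)) = e := by rw [k3 _ le_rfl, Nat.sub_self, h.hch.h0]
  rw [← g3]
  obtain ⟨i, hi, j, hj, k, hk, v1, v2, v3, v4⟩ := hV G d δ C Δ R X F H (fun f => H.T f / 2)
    (10 * C) Tm h.hG h.hF h.cst10 (wt_half h.hF) (nn a b) (nn e b) γ γ' g1 k1 k2.symm g4 k4
  have hmem : ∀ t' ≤ nn e b, π (γ' t') ∈ Lc π nn gg e b := fun t' ht' =>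
    ⟨nn e b - t', Nat.sub_le _ _, k3 t' ht'⟩
  rcases le_total i t with hit | hti
  · obtain ⟨t', ht', hadj⟩ := v3 t hit ht
    refine ⟨π (γ' t'), Or.inr (hmem t' (by omega)), ?_⟩
    have := q_le_of_adjK h.hQ hadj
    omega
  · -- the quadrilateral
    obtain ⟨η, n0, n1, hη⟩ := exists_geo h.hG.path (γ 0) (k * γ' (nn e b))
    obtain ⟨ζ, z0, z1, hζ⟩ := exists_geo h.hG.path (k * γ' j) (γ i)
    have hκ : IsGeo d (nn e b - j) (fun s => k * γ' (nn e b - s)) := by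
      have h1 := hb_rev h.hG (hb_smul h.hG k1 k)
      intro p q hpq hq
      exact h1 p q hpq (by omega)
    have hγi : IsGeo d i γ := fun p q hpq hq => g1 p q hpq (by omega)
    rcases hb_quad h.hG hγi hη hκ hζ n0.symm (by rw [n1, Nat.sub_zero])
      (by
        show k * γ' (nn e b - (nn e b - j)) = ζ 0
        rw [z0, Nat.sub_sub_self hj]) z1.symm hti with ⟨s, hs, hd⟩ | ⟨s, hs, hd⟩ | ⟨s, hs, hd⟩
    · -- near the third side
      obtain ⟨q, hq, hqd⟩ := (compare hDig h (b := fun f => H.T f / 2) h.cst13 (by linarith)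
        (wt_half h.hF) (half_near h) hη (by rw [n0, n1]; exact v1) (a₁ := a) (a₂ := e)
        (by rw [n0, g2, h.hch.h0]) (by rw [n1, q_ker h.hQ hk, hγ'N])).1 s hs
      refine ⟨q, Or.inl hq, ?_⟩
      have e1 : d' (π (γ t)) (π (η s)) ≤ 1 := q_le_of_adj h.hQ (H := H) (Or.inl (by omega))
      have e2 := h.hQ.path.tri (π (γ t)) (π (η s)) q
      omega
    · refine ⟨π (γ' (nn e b - s)), Or.inr (hmem _ (Nat.sub_le _ _)), ?_⟩
      have e1 : d' (π (γ t)) (π (k * γ' (nn e b - s))) ≤ 1 :=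
        q_le_of_adj h.hQ (H := H) (Or.inl (by
          have : d (γ t) (k * γ' (nn e b - s)) ≤ 8 * δ := hd
          omega))
      rw [q_ker h.hQ hk] at e1
      omega
    · refine ⟨π (γ' j), Or.inr (hmem j hj), ?_⟩
      have e1 : d' (π (γ t)) (π (k * γ' j)) ≤ 1 := by
        apply q_le_of_adj h.hQ (H := H)
        rcases v2 with v2 | ⟨f, hf, hf1, hf2⟩
        · left
          have h1 := hζ 0 (d (k * γ' j) (γ i)) (Nat.zero_le _) le_rfl
          have h2 : d (k * γ' j) (γ i) = 0 := by rw [v2, hb_self h.hG]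
          rw [h2] at hs
          have h3 : s = 0 := by omega
          rw [h3, z0] at hd
          omega
        · right
          refine ⟨f, hf, ?_, nh_mono (by omega) hf2⟩
          have hbt := hb_btw h.hG hζ (Nat.zero_le s) hs le_rfl
          rw [z0, z1] at hbt
          have h1 := hl_qc h.hG H h.hC (h.hF.sub hf) hf2 hf1 hbt
          have h2 := nh_move h.hG h1 hd
          have := h.hC
          exact nh_mono (by omega) h2
      rw [q_ker h.hQ hk] at e1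
      omega

theorem guess3 (h : Hyp δ C Δ R H F Tm π d' nn gg) (a b : G') :
    Chain d' (Lc π nn gg a b) 3 a b := by
  have hs := h.small
  have key : ∀ t ≤ nn a b, Chain d' (Lc π nn gg a b) 3 (π (gg a b 0)) (π (gg a b t)) := by
    intro t
    induction t with
    | zero => intro _; exact Relation.ReflTransGen.refl
    | succ t ih =>
      intro ht
      refine Relation.ReflTransGen.tail (ih (by omega)) ⟨⟨t, by omega, rfl⟩, ⟨t + 1, ht, rfl⟩, ?_⟩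
      have h1 := h.hch.geo a b t (t + 1) (by omega) ht
      have h2 : d' (π (gg a b t)) (π (gg a b (t + 1))) ≤ 1 :=
        q_le_of_adj h.hQ (H := H) (Or.inl (by omega))
      omega
  have h1 := key (nn a b) le_rfl
  rw [h.hch.h0, h.hch.h1] at h1
  exact h1

end

end E1

open E1 in
theorem stE' : StV → StDig → StCh → StE := by
  intro hV hDig hCh G G' _ _ d d' δ C Δ R X F H c Tm π hG hF hc hQ
  obtain ⟨nn, gg, hch⟩ := exists_chs (H := H) (F := F) hG hQ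
  have h : Hyp δ C Δ R H F Tm π d' nn gg :=
    ⟨hG, hF, hc.hδ, hc.hC, hc.hΔ, hc.hR, hc.hT, hQ, hch⟩
  obtain ⟨b1, b2, b3⟩ := h.bounds
  have hT := h.hT
  have h0 : ∀ x y, x ∈ Lc π nn gg x y := fun x y =>
    ⟨0, Nat.zero_le _, (hch.h0 x y).symm⟩
  have h1 := guess1 hDig hCh h
  have h2 := guess2 hV hDig h
  have h3 := guess3 h
  have hslim := E0.slim_of_guess hQ.path (Lc π nn gg) 3 h0 h1 h2 h3
  have hnear := E0.gg_near hQ.path h1 h2
  refine ⟨⟨hQ.path, hQ.inv, ?_, by norm_num⟩, ?_⟩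
  · intro x y z w
    have := E0.four_of_slim hQ.path _ hslim x y z w
    norm_num at this
    omega
  · intro b hb hbT N γ hγ ht N' γ' hγ' e0 e1
    have hmax : Cst δ C Δ R (max c (10 * C)) Tm := by
      refine h.cst (le_max_of_le_left hc.hc) ?_
      rcases le_total c (10 * C) with h4 | h4
      · rw [max_eq_right h4]; linarith
      · rw [max_eq_left h4]; exact hc.hcT
    obtain ⟨k1, k2⟩ := compare hDig h hmax (le_max_right _ _) hb hbT hγ
      (tight_mono (le_max_left _ _) ht) (a₁ := γ' 0) (a₂ := γ' N') e0.symm e1.symm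
    constructor
    · intro t htN
      obtain ⟨p, hp, hpd⟩ := k1 t htN
      obtain ⟨i, hi, hid⟩ := hnear N' γ' hγ' p hp
      refine ⟨i, hi, ?_⟩
      have h4 := hQ.path.tri (γ' i) p (π (γ t))
      have h5 := hQ.path.symm p (π (γ t))
      norm_num at hid
      omega
    · intro s hs
      obtain ⟨p, hp, hpd⟩ := gg_back hQ.path hγ' (h0 (γ' 0) (γ' N')) (hnear N' γ' hγ')
        (h3 (γ' 0) (γ' N')) s hs
      obtain ⟨t, htN, htd⟩ := k2 p hp
      refine ⟨t, htN, ?_⟩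
      have h4 := hQ.path.tri (γ' s) p (π (γ t))
      have h5 := hQ.path.symm p (π (γ t))
      norm_num at hpd
      omega

/-- Part E1. -/
theorem stE : StC → StV → StDig → StCh → StE := fun _ => stE'

end Pool.Agent.Helper74.TB
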