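import Pool.Agent.Helper74.TB.StDE

/-!
MP_7d16da_al: Part E2, electric length of tight pairs (StLen).
-/

set_option autoImplicit false

namespace Pool.Agent.Helper74.TB

open Pool.Agent.Helper74.MH

section Calc

variable {G : Type*} [Group G] {d : G → G → ℕ} {δ C Δ R : ℕ} {X F : Set G} {Tm : ℝ}
  {H : Hubs d X C}

theorem adj_self (hG : HypG d δ) (x : G) : Adj H F R x x := by
  left; rw [hb_self hG]; exact Nat.zero_le _

theorem adj_symm (hG : HypG d δ) {x y : G} (h : Adj H F R x y) : Adj H F R y x := by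
  rcases h with h | ⟨f, hf, h1, h2⟩
  · left; rw [hG.path.symm]; exact h
  · exact Or.inr ⟨f, hf, h2, h1⟩

theorem adj_smul (hG : HypG d δ) (hF : Fam H F Δ Tm) (u : G) {x y : G}
    (h : Adj H F R x y) : Adj H F R (u * x) (u * y) := by
  rcases h with h | ⟨f, hf, ⟨z, hz, h1⟩, w, hw, h2⟩
  · left; rw [hG.inv]; exact h
  · refine Or.inr ⟨u * f * u⁻¹, hF.conj f hf u, ⟨u * z, ?_, ?_⟩, u * w, ?_, ?_⟩
    · exact (H.Zconj f (hF.sub hf) u z).2 hz
    · rw [hG.inv]; exact h1
    · exact (H.Zconj f (hF.sub hf) u w).2 hw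
    · rw [hG.inv]; exact h2

theorem de_refl (x : G) : DE H F R 0 x x := ⟨fun _ => x, rfl, rfl, fun i hi => by omega⟩

theorem de_one {x y : G} (h : Adj H F R x y) : DE H F R 1 x y := by
  refine ⟨fun i => if i = 0 then x else y, by simp, by simp, ?_⟩
  intro i hi
  have : i = 0 := by omega
  subst this
  simpa using h

theorem de_trans {n m : ℕ} {x y z : G} (h1 : DE H F R n x y) (h2 : DE H F R m y z) :
    DE H F R (n + m) x z := by
  obtain ⟨q, hq0, hqn, hq⟩ := h1
  obtain ⟨p, hp0, hpm, hp⟩ := h2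
  refine ⟨fun i => if i ≤ n then q i else p (i - n), by simp [hq0], ?_, ?_⟩
  · by_cases hm : n + m ≤ n
    · have : m = 0 := by omega
      subst this
      simp [hqn, ← hpm, hp0]
    · simp only [if_neg hm, Nat.add_sub_cancel_left, hpm]
  · intro i hi
    by_cases h1 : i < n
    · simp only [if_pos h1.le, if_pos (Nat.succ_le_of_lt h1)]
      exact hq i h1
    · have h2 : ¬ i + 1 ≤ n := by omega
      simp only [if_neg h2]
      have h3 : i + 1 - n = (i - n) + 1 := by omega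
      rw [h3]
      by_cases h4 : i ≤ n
      · have h5 : i = n := by omega
        subst h5
        simp only [le_refl, if_true, Nat.sub_self]
        have := hp 0 (by omega)
        rw [hp0] at this
        rw [hqn]
        exact this
      · simp only [if_neg h4]
        exact hp (i - n) (by omega)

theorem de_self (hG : HypG d δ) (n : ℕ) (x : G) : DE H F R n x x :=
  ⟨fun _ => x, rfl, rfl, fun _ _ => adj_self hG x⟩

theorem de_mono (hG : HypG d δ) {n m : ℕ} (hnm : n ≤ m) {x y : G} (h : DE H F R n x y) :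
    DE H F R m x y := by
  have := de_trans h (de_self hG (m - n) y)
  rwa [Nat.add_sub_cancel' hnm] at this

theorem de_symm (hG : HypG d δ) {n : ℕ} {x y : G} (h : DE H F R n x y) : DE H F R n y x := by
  obtain ⟨q, hq0, hqn, hq⟩ := h
  refine ⟨fun i => q (n - i), by simp [hqn], by simp [hq0], ?_⟩
  intro i hi
  have h1 := hq (n - (i + 1)) (by omega)
  have h2 : n - (i + 1) + 1 = n - i := by omega
  rw [h2] at h1
  exact adj_symm hG h1

theorem de_smul (hG : HypG d δ) (hF : Fam H F Δ Tm) (u : G) {n : ℕ} {x y : G}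
    (h : DE H F R n x y) : DE H F R n (u * x) (u * y) := by
  obtain ⟨q, hq0, hqn, hq⟩ := h
  refine ⟨fun i => u * q i, by simp only [hq0], by simp only [hqn], ?_⟩
  intro i hi
  exact adj_smul hG hF u (hq i hi)

theorem de_len (hG : HypG d δ) {n : ℕ} {x y : G} (h : d x y ≤ n * R) : DE H F R n x y := by
  induction n generalizing x with
  | zero =>
    have : x = y := (hG.path.zero_iff x y).1 (by omega)
    rw [this]
    exact de_refl y
  | succ n ih =>
    by_cases h1 : d x y ≤ R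
    · exact de_mono hG (Nat.le_add_left 1 n) (de_one (Or.inl h1))
    · obtain ⟨z, hz, hz1⟩ := hG.path.geod x y R (by omega)
      unfold MH.Btw at hz
      have h2 : (n + 1) * R = n * R + R := by ring
      have h3 := ih (x := z) (by omega)
      have h4 := de_trans (de_one (H := H) (F := F) (R := R) (Or.inl (by omega : d x z ≤ R))) h3
      rwa [add_comm] at h4

/-- a point between two adjacent points is two steps away from both -/
theorem adj_btw (hG : HypG d δ) (hC : 100 * δ ≤ C) (hF : Fam H F Δ Tm) (hR : 22 * C ≤ R)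
    {x y p : G} (h : Adj H F R x y) (hp : d x p + d p y = d x y) : DE H F R 2 x p := by
  rcases h with h | ⟨f, hf, h1, h2⟩
  · exact de_mono hG (by omega) (de_one (Or.inl (by omega)))
  · obtain ⟨w, hw, hpw⟩ := hl_qc hG H hC (hF.sub hf) h1 h2 hp
    have e1 : Adj H F R x w := Or.inr ⟨f, hf, h1, w, hw, by rw [hb_self hG]; exact Nat.zero_le _⟩
    have e2 : Adj H F R w p := Or.inl (by rw [hG.path.symm]; omega)
    exact de_trans (de_one e1) (de_one e2)

theorem adj_btw' (hG : HypG d δ) (hC : 100 * δ ≤ C) (hF : Fam H F Δ Tm) (hR : 22 * C ≤ R)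
    {x y p : G} (h : Adj H F R x y) (hp : d x p + d p y = d x y) : DE H F R 2 p y := by
  have h1 : d y p + d p x = d y x := by
    have e1 := hG.path.symm y p
    have e2 := hG.path.symm p x
    have e3 := hG.path.symm y x
    omega
  exact de_symm hG (adj_btw hG hC hF hR (adj_symm hG h) h1)

/-- (R1) a point between `x` and `y` is at controlled electric distance of `x`. -/
theorem de_btw (hG : HypG d δ) (hC : 100 * δ ≤ C) (hF : Fam H F Δ Tm) (hR : 22 * C ≤ R)
    {n : ℕ} {x y p : G} (h : DE H F R n x y) (hp : d x p + d p y = d x y) :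
    DE H F R (2 * n + 5) x p := by
  have hδ := hG.one
  obtain ⟨q, hq0, hqn, hq⟩ := h
  rcases Nat.eq_zero_or_pos n with rfl | hn
  · have h1 : x = y := hq0.symm.trans hqn
    subst h1
    have h2 : d x x = 0 := hb_self hG x
    have h3 : x = p := (hG.path.zero_iff x p).1 (by omega)
    rw [h3]
    exact de_self hG _ _
  obtain ⟨γ, hγ0, hγp, hγ1, hγ⟩ := hb_through hG hp
  obtain ⟨i, hi, p', hp', hd⟩ := hb_path hG hγ (x := q) (m := n) (hq0.trans hγ0.symm)
    (hqn.trans hγ1.symm) hn (t := d x p) (by omega)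
  rw [hγp] at hd
  have s1 : DE H F R i x (q i) := ⟨q, hq0, rfl, fun j hj => hq j (by omega)⟩
  have s2 := adj_btw hG hC hF hR (hq i hi) hp'
  have s3 : DE H F R n p' p := by
    apply de_len hG
    rw [hG.path.symm]
    refine hd.trans ?_
    rw [mul_comm]
    exact Nat.mul_le_mul_left _ (by omega)
  exact de_mono hG (by omega) (de_trans (de_trans s1 s2) s3)

/-- an element of the family is not its own inverse -/
theorem fam_ne_inv (hF : Fam H F Δ Tm) {f : G} (hf : f ∈ F) : f ≠ f⁻¹ := by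
  intro h
  have hX := hF.sub hf
  have h1 := H.neg f hX 1 (f * 1)
  rw [← h, H.shift f hX] at h1
  have h2 := H.Tbig f hX
  have h3 : (1 : ℝ) ≤ C := by exact_mod_cast hF.hC1
  rw [abs_le] at h1
  linarith [h1.1, h1.2]

/-- The digon structure gives a set of long hubs and a bound for the electric length. -/
theorem dc_count (hG : HypG d δ) (hC : 100 * δ ≤ C) (hF : Fam H F Δ Tm)
    {b b' : G → ℝ} {c0 r0 E : ℝ} {γ γ' : ℕ → G} {N N' : ℕ} (hγ' : IsGeo d N' γ')
    (hb' : ∀ f ∈ F, H.T f / 2 - E ≤ b' f⁻¹ - c0 - 2 * C)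
    (hE0 : 0 ≤ E) (hE : 2 * E + 20 * C < Tm / 3)
    (htight : ∀ f ∈ F, H.Φ f (γ' 0) (γ' N') < H.T f - 2 * E - 9 * C)
    {W : ℕ} (hW : ∀ s ≤ N', ∀ s' ≤ N', DE H F R W (γ' s) (γ' s'))
    {i j : ℕ} {u : G} (h : DC H F R b b' c0 r0 γ γ' N N' i j u) :
    ∃ S : Finset G, (∀ f ∈ S, f ∈ F ∧ ∃ j1 j2, j ≤ j1 ∧ j1 ≤ j2 ∧ j2 ≤ N' ∧
        H.T f / 2 - E ≤ H.Φ f (γ' j1) (γ' j2)) ∧
      (∀ f ∈ S, ∀ f' ∈ S, f' ≠ f⁻¹) ∧ DE H F R ((W + 3) * S.card + (W + 2)) (γ i) (γ N) := by
  classical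
  have hC1 : (1 : ℝ) ≤ C := by exact_mod_cast hF.hC1
  -- the comparison of two points of `γ` close to points of `γ'`
  have piece : ∀ {a b a' b' : ℕ} {v : G}, Cl H F R r0 γ γ' a a' b b' v → a ≤ a' → b' ≤ N' →
      DE H F R (W + 2) (γ a) (γ a') := by
    intro a b a' b' v hcl ha hb
    obtain ⟨t, ht1, ht2, ht3, -⟩ := hcl.1 a le_rfl ha
    obtain ⟨s, hs1, hs2, hs3, -⟩ := hcl.1 a' ha le_rfl
    have w := de_smul hG hF v (hW t (ht2.trans hb) s (hs2.trans hb))
    have := de_trans (de_trans (de_one ht3) w) (de_one (adj_symm hG hs3))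
    exact de_mono hG (by omega) this
  induction h with
  | fin i j u hi hj hu heq hcl =>
    refine ⟨∅, by simp, by simp, ?_⟩
    simp only [Finset.card_empty, Nat.mul_zero, Nat.zero_add]
    exact piece hcl hi le_rfl
  | hub i j u i1 i2 j1 j2 f hf hu h1 h2 h3 h4 h5 h6 hcl hn1 hn2 hΦ1 hΦ2 hrest ih =>
    obtain ⟨S, hS1, hS2, hS3⟩ := ih
    have hfX := hF.sub hf
    -- the new hub
    set g := u⁻¹ * f⁻¹ * (u⁻¹)⁻¹ with hg
    have hgF : g ∈ F := hF.conj _ (hF.inv f hf) _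
    have hgX := hF.sub hgF
    have hTg : H.T g = H.T f := by
      rw [hg, H.Tconj _ (H.Xinv f hfX), H.Tinv f hfX]
    have hTbig : Tm ≤ H.T g := hF.big g hgF
    have hΦg : H.T g / 2 - E ≤ H.Φ g (γ' j1) (γ' j2) := by
      have e1 := H.neg f hfX (u * γ' j1) (u * γ' j2)
      have e2 := H.equi f⁻¹ (H.Xinv f hfX) u⁻¹ (u * γ' j1) (u * γ' j2)
      rw [inv_mul_cancel_left, inv_mul_cancel_left, ← hg] at e2
      have e3 := hb' f hf
      rw [abs_le] at e1 e2
      rw [hTg]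
      linarith [e1.1, e2.1]
    have hpos : 3 * (C : ℝ) < H.Φ g (γ' j1) (γ' j2) := by linarith
    -- `γ'` from `j1` to any later index
    have hlate : ∀ s, j2 ≤ s → s ≤ N' → H.T g / 2 - E - 3 * C ≤ H.Φ g (γ' j1) (γ' s) := by
      intro s hs1 hs2
      have e1 := hl_mono hG H hC hgX (hb_btw hG hγ' h5.le hs1 hs2) hpos
      have e2 := H.coc g hgX (γ' j1) (γ' j2) (γ' s)
      linarith
    have hnot : g ∉ S := by
      intro hgS
      obtain ⟨-, k1, k2, hk1, hk2, hk3, hk4⟩ := hS1 g hgS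
      have e1 := hl_mono' hG H hC hgX (hb_btw hG hγ' (Nat.zero_le j1) h5.le
        (h6)) hpos
      have e2 := hl_mono hG H hC hgX (hb_btw hG hγ' h5.le hk1 (hk2.trans hk3)) hpos
      have e3 := hl_mono hG H hC hgX (hb_btw hG hγ' hk2 hk3 le_rfl)
        (show 3 * (C : ℝ) < H.Φ g (γ' k1) (γ' k2) by linarith)
      have c1 := H.coc g hgX (γ' 0) (γ' j1) (γ' N')
      have c2 := H.coc g hgX (γ' j1) (γ' j2) (γ' N')
      have c3 := H.coc g hgX (γ' j2) (γ' k1) (γ' N')
      have c4 := H.coc g hgX (γ' k1) (γ' k2) (γ' N')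
      have e4 := htight g hgF
      linarith
    have hnot' : g⁻¹ ∉ S := by
      intro hgS
      obtain ⟨-, k1, k2, hk1, hk2, hk3, hk4⟩ := hS1 g⁻¹ hgS
      rw [H.Tinv g hgX] at hk4
      have e1 := hlate k1 hk1 (hk2.trans hk3)
      have e2 := hl_mono hG H hC hgX (hb_btw hG hγ' (h5.le.trans hk1) hk2 hk3)
        (show 3 * (C : ℝ) < H.Φ g (γ' j1) (γ' k1) by linarith)
      have e3 := H.neg g hgX (γ' k1) (γ' k2)
      rw [abs_le] at e3
      linarith [e3.1, e3.2]
    refine ⟨insert g S, ?_, ?_, ?_⟩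
    · intro f' hf'
      rcases Finset.mem_insert.1 hf' with rfl | hf'
      · exact ⟨hgF, j1, j2, h4, h5.le, h6, hΦg⟩
      · obtain ⟨k0, k1, k2, hk1, hk2, hk3, hk4⟩ := hS1 f' hf'
        exact ⟨k0, k1, k2, by omega, hk2, hk3, hk4⟩
    · intro f1 hf1 f2 hf2
      rcases Finset.mem_insert.1 hf1 with rfl | hf1' <;>
        rcases Finset.mem_insert.1 hf2 with rfl | hf2'
      · exact fam_ne_inv hF hgF
      · intro h; rw [h] at hf2'; exact hnot' hf2'
      · intro h
        apply hnot'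
        rw [h, inv_inv]
        exact hf1'
      · exact hS2 f1 hf1' f2 hf2'
    · rw [Finset.card_insert_of_notMem hnot]
      have e1 := piece hcl h1 (h5.le.trans h6)
      have e2 : Adj H F R (γ i1) (γ i2) := by
        refine Or.inr ⟨f, hf, ?_, ?_⟩
        · obtain ⟨z, hz, hz'⟩ := hn1 i1 le_rfl h2.le
          exact ⟨z, hz, by omega⟩
        · obtain ⟨z, hz, hz'⟩ := hn1 i2 h2.le le_rfl
          exact ⟨z, hz, by omega⟩
      have e3 := de_trans (de_trans e1 (de_one e2)) hS3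
      refine de_mono hG (le_of_eq ?_) e3
      ring

theorem tight_mono {b : G → ℝ} {c c' : ℝ} (hcc : c ≤ c') {x y : G} (h : Tight H F b c x y) :
    Tight H F b c' x y := fun f hf => (h f hf).trans (by linarith)

theorem wt_half (hF : Fam H F Δ Tm) : Wt H F (fun f => H.T f / 2) where
  conj := fun f hf g => by rw [H.Tconj f (hF.sub hf)]
  add := fun f hf => by rw [H.Tinv f (hF.sub hf)]; ring
  ge := fun f hf => by
    have := hl_Tpos H (hF.sub hf)
    linarith

/-- pieces of tight geodesics are tight -/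
theorem tight_sub (hG : HypG d δ) (hC : 100 * δ ≤ C) (hF : Fam H F Δ Tm) {b : G → ℝ}
    (hb : Wt H F b) {c : ℝ} (hc : 0 ≤ c) {N : ℕ} {γ : ℕ → G} (hγ : IsGeo d N γ)
    (ht : Tight H F b c (γ 0) (γ N)) {i j : ℕ} (hij : i ≤ j) (hj : j ≤ N) :
    Tight H F b (c + 6 * C) (γ i) (γ j) := by
  intro f hf
  have h1 := hl_sub hG H hC (hF.sub hf) hγ hij hj
  have h2 := ht f hf
  have h3 := hb.ge f hf
  have h4 := hl_Tpos H (hF.sub hf)
  have h5 : max (H.Φ f (γ 0) (γ N)) 0 ≤ b f + c := max_le h2 (by linarith)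
  linarith

end Calc

section Quot

variable {G G' : Type*} [Group G] [Group G'] {d : G → G → ℕ} {d' : G' → G' → ℕ}
  {δ C Δ R : ℕ} {X F : Set G} {H : Hubs d X C} {π : G →* G'}

theorem quo_lift (hQ : Quo H F R π d') {x y : G} (h : π x = π y) :
    ∃ k ∈ Subgroup.closure F, y = k * x := by
  refine ⟨y * x⁻¹, (hQ.ker _).1 ?_, by group⟩
  rw [map_mul, map_inv, h, mul_inv_cancel]

theorem quo_mul (hQ : Quo H F R π d') {k : G} (hk : k ∈ Subgroup.closure F) (x : G) :
    π (k * x) = π x := by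
  rw [map_mul, (hQ.ker k).2 hk, one_mul]

theorem quo_min (hQ : Quo H F R π d') (x : G) (a : G') :
    ∃ y, π y = a ∧ ∀ y', π y' = a → d x y ≤ d x y' := by
  classical
  have hex : ∃ n, ∃ y, π y = a ∧ d x y = n := by
    obtain ⟨y, hy⟩ := hQ.surj a
    exact ⟨_, y, hy, rfl⟩
  obtain ⟨y, hy, hy'⟩ := Nat.find_spec hex
  refine ⟨y, hy, fun y' h' => ?_⟩
  rw [hy']
  exact Nat.find_min' hex ⟨y', h', rfl⟩

end Quot

/-- the bound `M` for quotient distance at most `m` -/
def LenP (M m : ℕ) : Prop :=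
  ∀ (G G' : Type) [Group G] [Group G'] (d : G → G → ℕ) (d' : G' → G' → ℕ)
    (δ C Δ R : ℕ) (X F : Set G) (H : Hubs d X C) (c Tm : ℝ) (π : G →* G'), HypG d δ →
    Fam H F Δ Tm → Cst δ C Δ R c Tm → Quo H F R π d' → 10 * (M : ℝ) * R ≤ Tm →
    ∀ b : G → ℝ, Wt H F b → (∀ f ∈ F, |b f - H.T f / 2| ≤ Tm / 10) →
      ∀ x y, Tight H F b c x y → d' (π x) (π y) ≤ m → DE H F R M x y

/-- the constants as real numbers -/
theorem cst_real {δ C Δ R : ℕ} {c Tm : ℝ} (h : Cst δ C Δ R c Tm) :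
    100 ≤ (C : ℝ) ∧ 1000 * (C : ℝ) ≤ Δ ∧ 1000 * (Δ : ℝ) ≤ R ∧ 10 * (R : ℝ) ≤ Tm := by
  obtain ⟨h1, h2, h3, h4, h5, h6, h7⟩ := h
  refine ⟨?_, ?_, ?_, h7⟩
  · have : 100 ≤ C := by omega
    exact_mod_cast this
  · exact_mod_cast h3
  · exact_mod_cast h4

theorem cst_c {δ C Δ R : ℕ} {c c' Tm : ℝ} (h : Cst δ C Δ R c Tm) (h1 : 0 ≤ c')
    (h2 : 100 * c' ≤ Tm) : Cst δ C Δ R c' Tm :=
  ⟨h.hδ, h.hC, h.hΔ, h.hR, h1, h2, h.hT⟩

/-- (R2) -/
theorem lenP_zero (hC : StC) : LenP 0 0 := by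
  intro G G' _ _ d d' δ C Δ R X F H c Tm π hG hF hcst hQ hM b hb hbT x y ht hm
  have hxy : π x = π y := (hQ.path.zero_iff _ _).1 (by omega)
  obtain ⟨k, hk, rfl⟩ := quo_lift hQ hxy
  obtain ⟨r1, r2, r3, r4⟩ := cst_real hcst
  have hcT := hcst.hcT
  by_cases hk1 : k = 1
  · rw [hk1, one_mul]
    exact de_refl x
  · exfalso
    obtain ⟨f, hf, h1⟩ := hC G d δ C Δ X F H Tm hG hcst.hC hF (by linarith) k hk hk1 x
    have hfX := hF.sub hf
    have hfi := hF.inv f hf
    have h2 := ht f hf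
    have h3 := ht f⁻¹ hfi
    have h4 := hbT f hf
    have h5 := hbT f⁻¹ hfi
    have h6 := H.neg f hfX x (k * x)
    have h7 := hF.big f hf
    rw [H.Tinv f hfX] at h5
    rw [abs_le] at h4 h5 h6
    have h8 : |H.Φ f x (k * x)| ≤ H.T f / 2 + Tm / 10 + c + C := by
      rw [abs_le]
      constructor <;> linarith [h4.1, h4.2, h5.1, h5.2, h6.1, h6.2]
    linarith

/-- (R3) -/
theorem lenP_succ (hV : StV) (hD : StDig) (hCh : StCh) (hCo : StCount) {M m : ℕ}
    (hM : LenP M m) : LenP ((2 * M + 9) * (8 * M + 45)) (m + 1) := by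
  intro G G' _ _ d d' δ C Δ R X F H c Tm π hG hF hcst hQ hM' b hb hbT x y ht hm
  obtain ⟨r1, r2, r3, r4⟩ := cst_real hcst
  have hcT := hcst.hcT
  have hc0 := hcst.hc
  have hC := hcst.hC
  have hR22 : 22 * C ≤ R := by
    have e1 := hcst.hΔ
    have e2 := hcst.hR
    omega
  have hRr : (0 : ℝ) ≤ R := Nat.cast_nonneg R
  have hMle : M ≤ (2 * M + 9) * (8 * M + 45) := by nlinarith
  have hN1le : 2 * M + 8 ≤ (2 * M + 9) * (8 * M + 45) := by nlinarith
  have hM10 : 10 * (M : ℝ) * R ≤ Tm := by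
    refine le_trans ?_ hM'
    have : (M : ℝ) ≤ ((2 * M + 9) * (8 * M + 45) : ℕ) := by exact_mod_cast hMle
    gcongr
  have hN10 : 10 * ((2 * M + 8 : ℕ) : ℝ) * R ≤ Tm := by
    refine le_trans ?_ hM'
    have : ((2 * M + 8 : ℕ) : ℝ) ≤ ((2 * M + 9) * (8 * M + 45) : ℕ) := by exact_mod_cast hN1le
    gcongr
  by_cases hcase : d' (π x) (π y) ≤ m
  · exact de_mono hG hMle (hM G G' d d' δ C Δ R X F H c Tm π hG hF hcst hQ hM10 b hb hbT x y ht
      hcase)
  -- the point before the last one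
  obtain ⟨a, ha1, ha2⟩ := hQ.path.geod (π x) (π y) m (by omega)
  unfold MH.Btw at ha1
  obtain ⟨x0, y0, hx0, hy0, hadj0⟩ := (hQ.adj a (π y)).1 (by omega)
  obtain ⟨y1, hy1, hmin⟩ := quo_min hQ x a
  obtain ⟨k0, hk0, hk0'⟩ := quo_lift hQ (hx0.trans hy1.symm)
  have hadj1 : Adj H F R y1 (k0 * y0) := by
    rw [hk0']
    exact adj_smul hG hF k0 hadj0
  set b0 : G → ℝ := fun f => H.T f / 2 with hb0
  have hwt0 : Wt H F b0 := wt_half hF
  have hb0T : ∀ f ∈ F, |b0 f - H.T f / 2| ≤ Tm / 10 := by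
    intro f _
    rw [hb0]
    simp only [sub_self, abs_zero]
    linarith
  have hcst1 : Cst δ C Δ R (10 * C) Tm := cst_c hcst (by linarith) (by linarith)
  obtain ⟨k1, hk1, hadj2, ht2⟩ := hCh G d δ C Δ R X F H b0 (10 * C) Tm hG hF hcst1 hwt0 y1
    (k0 * y0) hadj1
  set z := k1 * (k0 * y0) with hz
  have hπz : π z = π y := by
    rw [hz, quo_mul hQ hk1, quo_mul hQ hk0, hy0]
  have ht1 : Tight H F b0 (10 * C) x y1 := by
    apply hl_min hG hF (by linarith)
    intro k hk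
    have := hmin (k * y1) (by rw [quo_mul hQ hk, hy1])
    omega
  obtain ⟨γ1, hγ10, hγ11, hγ1⟩ := exists_geo hG.path x y1
  obtain ⟨γ2, hγ20, hγ21, hγ2⟩ := exists_geo hG.path y1 z
  obtain ⟨i, hi, j, hj, k, hk, htk, hlink, -, -⟩ := hV G d δ C Δ R X F H b0 (10 * C) Tm hG hF
    hcst1 hwt0 _ _ γ1 γ2 hγ1 hγ2 (hγ11.trans hγ20.symm) (by rw [hγ10, hγ11]; exact ht1)
    (by rw [hγ20, hγ21]; exact tight_mono (by linarith) ht2)
  rw [hγ10, hγ21] at htk
  -- the electric length of `x, k z`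
  have e1 : DE H F R M x y1 := hM G G' d d' δ C Δ R X F H (10 * C) Tm π hG hF hcst1 hQ hM10 b0
    hwt0 hb0T x y1 ht1 (by rw [hy1]; omega)
  have e2 : DE H F R (2 * M + 5) x (γ1 i) := by
    apply de_btw hG hC hF hR22 e1
    have := hb_btw hG hγ1 (Nat.zero_le i) hi le_rfl
    rwa [hγ10, hγ11] at this
  have e3 : Adj H F R (γ1 i) (k * γ2 j) := by
    rcases hlink with h | ⟨f, hf, ⟨w, hw, hw'⟩, v, hv, hv'⟩
    · rw [h]; exact adj_self hG _
    · exact Or.inr ⟨f, hf, ⟨w, hw, by omega⟩, v, hv, by omega⟩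
  have e4 : DE H F R 2 (γ2 j) z := by
    apply adj_btw' hG hC hF hR22 hadj2
    have := hb_btw hG hγ2 (Nat.zero_le j) hj le_rfl
    rwa [hγ20, hγ21] at this
  have e5 : DE H F R (2 * M + 8) x (k * z) :=
    de_mono hG (by omega) (de_trans (de_trans e2 (de_one e3)) (de_smul hG hF k e4))
  -- the digon
  obtain ⟨γa, hγa0, hγa1, hγa⟩ := exists_geo hG.path x y
  obtain ⟨γb, hγb0, hγb1, hγb⟩ := exists_geo hG.path x (k * z)
  set c1 : ℝ := max c (10 * C + 3 * Δ) with hc1
  have hc1a : c ≤ c1 := le_max_left _ _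
  have hc1b : 10 * (C : ℝ) + 3 * Δ ≤ c1 := le_max_right _ _
  have hc1c : 100 * c1 ≤ Tm := by
    have : c1 ≤ Tm / 100 := max_le (by linarith) (by linarith)
    linarith
  have hcst2 : Cst δ C Δ R c1 Tm := cst_c hcst (by linarith) hc1c
  have hbb : ∀ f ∈ F, |b f - b0 f| ≤ Tm / 10 := hbT
  obtain ⟨k2, hk2, hk2'⟩ := quo_lift hQ (show π (k * z) = π y by rw [quo_mul hQ hk, hπz])
  have hDC := hD G d δ C Δ R X F H b b0 c1 (Tm / 10) Tm hG hF hcst2 hb hwt0 hbb (by linarith) (by linarith)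
    _ _ γa γb hγa hγb (hγa0.trans hγb0.symm) ⟨k2, hk2, by rw [hγa1, hγb1]; exact hk2'⟩
    (by rw [hγa0, hγa1]; exact tight_mono hc1a ht)
    (by rw [hγb0, hγb1]; exact tight_mono hc1b htk)
  have hW : ∀ s ≤ d x (k * z), ∀ s' ≤ d x (k * z),
      DE H F R (8 * M + 42) (γb s) (γb s') := by
    have hw : ∀ s ≤ d x (k * z), DE H F R (2 * (2 * M + 8) + 5) x (γb s) := by
      intro s hs
      apply de_btw hG hC hF hR22 e5
      have := hb_btw hG hγb (Nat.zero_le s) hs le_rfl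
      rwa [hγb0, hγb1] at this
    intro s hs s' hs'
    exact de_mono hG (by omega) (de_trans (de_symm hG (hw s hs)) (hw s' hs'))
  set E : ℝ := Tm / 10 + c1 + 24 * Δ + 2 * C with hE
  obtain ⟨S, hS1, hS2, hS3⟩ := dc_count hG hC hF (E := E) hγb
    (by
      intro f hf
      show H.T f / 2 - E ≤ H.T f⁻¹ / 2 - (Tm / 10 + c1 + 24 * Δ) - 2 * C
      rw [H.Tinv f (hF.sub hf), hE]
      linarith)
    (by rw [hE]; linarith) (by rw [hE]; linarith)
    (by
      intro f hf
      rw [hγb0, hγb1]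
      have g1 := htk f hf
      have g2 := hF.big f hf
      have g3 : b0 f = H.T f / 2 := rfl
      rw [g3] at g1
      rw [hE]
      linarith) hW hDC
  have hcard : S.card ≤ 2 * M + 8 := by
    apply hCo G d δ C Δ R X F H c Tm hG hF hcst (2 * M + 8) x (k * z) e5 S
      (fun f hf => (hS1 f hf).1) _ hS2
    intro f hf
    obtain ⟨hfF, j1, j2, -, hj12, hj2, hΦ⟩ := hS1 f hf
    have g1 := hl_sub hG H hC (hF.sub hfF) hγb hj12 hj2
    rw [hγb0, hγb1] at g1
    have g2 := hF.big f hfF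
    have g3 : (R : ℝ) * ((2 * M + 8 : ℕ) : ℝ) ≤ Tm / 10 := by linarith
    have g4 : Tm / 10 < max (H.Φ f x (k * z)) 0 := by
      rw [hE] at hΦ
      linarith
    have g5 : Tm / 10 < H.Φ f x (k * z) := by
      rcases lt_max_iff.1 g4 with h | h
      · exact h
      · linarith
    exact (g3.trans_lt g5).trans_le (le_abs_self _)
  rw [hγa0, hγa1] at hS3
  refine de_mono hG ?_ hS3
  have e6 : (8 * M + 42 + 3) * S.card ≤ (8 * M + 42 + 3) * (2 * M + 8) :=
    Nat.mul_le_mul_left _ hcard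
  have e7 : (2 * M + 9) * (8 * M + 45) = (8 * M + 42 + 3) * (2 * M + 8) + (8 * M + 45) := by ring
  omega

theorem lenP_all (hC : StC) (hV : StV) (hD : StDig) (hCh : StCh) (hCo : StCount) (m : ℕ) :
    ∃ M, LenP M m := by
  induction m with
  | zero => exact ⟨0, lenP_zero hC⟩
  | succ m ih =>
    obtain ⟨M, hM⟩ := ih
    exact ⟨_, lenP_succ hV hD hCh hCo hM⟩

/-- (R4) -/
theorem stLen (hC : StC) (hV : StV) (hD : StDig) (hCh : StCh) (hE : StE) (hCo : StCount) :
    StLen := by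
  classical
  obtain ⟨M, hM⟩ := lenP_all hC hV hD hCh hCo 300
  refine ⟨10 * M + 1, ?_⟩
  intro G G' _ _ d d' δ C Δ R X F H c Tm π hG hF hcst hcT hQ hMR b hb hbT x y ht m hm
  obtain ⟨r1, r2, r3, r4⟩ := cst_real hcst
  have hc0 := hcst.hc
  have hRr : (0 : ℝ) ≤ R := Nat.cast_nonneg R
  have hR1 : 1 ≤ R := by
    have : (1 : ℝ) ≤ R := by linarith
    exact_mod_cast this
  have hM10 : 10 * (M : ℝ) * R ≤ Tm := by
    refine le_trans ?_ hMR
    have : 10 * (M : ℝ) ≤ ((10 * M + 1 : ℕ) : ℝ) := by push_cast; linarith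
    gcongr
  obtain ⟨γ, hγ0, hγ1, hγ⟩ := exists_geo hG.path x y
  obtain ⟨γ', hγ'0, hγ'1, hγ'⟩ := exists_geo hQ.path (π x) (π y)
  obtain ⟨hcov, -⟩ := (hE G G' d d' δ C Δ R X F H c Tm π hG hF hcst hQ).2 b hb hbT _ γ hγ
    (by rw [hγ0, hγ1]; exact ht) _ γ' hγ' (by rw [hγ'0, hγ0]) (by rw [hγ'1, hγ1])
  set N := d x y with hN
  set N' := d' (π x) (π y) with hN'
  have hcst' : Cst δ C Δ R (c + 6 * C) Tm := cst_c hcst (by linarith) (by linarith)
  -- a jump
  have hjump : ∀ s t t' : ℕ, t ≤ t' → t' ≤ N → d' (γ' s) (π (γ t)) ≤ 150 →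
      d' (γ' s) (π (γ t')) ≤ 150 → DE H F R M (γ t) (γ t') := by
    intro s t t' htt ht' h1 h2
    apply hM G G' d d' δ C Δ R X F H (c + 6 * C) Tm π hG hF hcst' hQ hM10 b hb hbT
    · exact tight_sub hG hcst.hC hF hb hc0 hγ (by rw [hγ0, hγ1]; exact ht) htt ht'
    · have e1 := hQ.path.tri (π (γ t)) (γ' s) (π (γ t'))
      have e2 := hQ.path.symm (π (γ t)) (γ' s)
      omega
  have hmain : ∀ n t : ℕ, t ≤ N →
      ((Finset.range (N' + 1)).filter
        (fun s => ∃ t', t ≤ t' ∧ t' ≤ N ∧ d' (γ' s) (π (γ t')) ≤ 150)).card ≤ n →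
      DE H F R (n * (M + 1)) (γ t) (γ N) := by
    intro n
    induction n with
    | zero =>
      intro t ht' hcard
      exfalso
      obtain ⟨s, hs, hst⟩ := hcov t ht'
      have : s ∈ (Finset.range (N' + 1)).filter
          (fun s => ∃ t', t ≤ t' ∧ t' ≤ N ∧ d' (γ' s) (π (γ t')) ≤ 150) := by
        rw [Finset.mem_filter, Finset.mem_range]
        exact ⟨by omega, t, le_rfl, ht', hst⟩
      have := Finset.card_pos.2 ⟨s, this⟩
      omega
    | succ n ih =>
      intro t ht' hcard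
      obtain ⟨s, hs, hst⟩ := hcov t ht'
      -- the last index close to `γ' s`
      have hex : ∃ t1, t ≤ t1 ∧ t1 ≤ N ∧ d' (γ' s) (π (γ t1)) ≤ 150 ∧
          ∀ t2, t1 < t2 → t2 ≤ N → ¬ d' (γ' s) (π (γ t2)) ≤ 150 := by
        have hne : ((Finset.range (N + 1)).filter
            (fun t' => t ≤ t' ∧ d' (γ' s) (π (γ t')) ≤ 150)).Nonempty :=
          ⟨t, by rw [Finset.mem_filter, Finset.mem_range]; exact ⟨by omega, le_rfl, hst⟩⟩
        refine ⟨Finset.max' _ hne, ?_, ?_, ?_, ?_⟩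
        · have := Finset.max'_mem _ hne
          rw [Finset.mem_filter] at this
          exact this.2.1
        · have := Finset.max'_mem _ hne
          rw [Finset.mem_filter, Finset.mem_range] at this
          omega
        · have := Finset.max'_mem _ hne
          rw [Finset.mem_filter] at this
          exact this.2.2
        · intro t2 h1 h2 h3
          have hmem : t2 ∈ (Finset.range (N + 1)).filter
              (fun t' => t ≤ t' ∧ d' (γ' s) (π (γ t')) ≤ 150) := by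
            have := Finset.max'_mem _ hne
            rw [Finset.mem_filter] at this
            rw [Finset.mem_filter, Finset.mem_range]
            exact ⟨by omega, by omega, h3⟩
          have := Finset.le_max' _ _ hmem
          omega
      obtain ⟨t1, h1, h2, h3, h4⟩ := hex
      have g1 := hjump s t t1 h1 h2 hst h3
      have hring : (n + 1) * (M + 1) = M + 1 + n * (M + 1) := by ring
      rcases h2.eq_or_lt with h5 | h5
      · rw [h5] at g1
        exact de_mono hG (by rw [hring]; omega) g1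
      · have hcard' : ((Finset.range (N' + 1)).filter
            (fun s => ∃ t', t1 + 1 ≤ t' ∧ t' ≤ N ∧ d' (γ' s) (π (γ t')) ≤ 150)).card ≤ n := by
          have hss : (Finset.range (N' + 1)).filter
              (fun s => ∃ t', t1 + 1 ≤ t' ∧ t' ≤ N ∧ d' (γ' s) (π (γ t')) ≤ 150) ⊂
              (Finset.range (N' + 1)).filter
              (fun s => ∃ t', t ≤ t' ∧ t' ≤ N ∧ d' (γ' s) (π (γ t')) ≤ 150) := by
            rw [Finset.ssubset_iff_of_subset]
            · refine ⟨s, ?_, ?_⟩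
              · rw [Finset.mem_filter, Finset.mem_range]
                exact ⟨by omega, t, le_rfl, ht', hst⟩
              · rw [Finset.mem_filter]
                rintro ⟨-, t2, g2, g3, g4⟩
                exact h4 t2 (by omega) g3 g4
            · intro s' hs'
              rw [Finset.mem_filter] at hs' ⊢
              obtain ⟨g2, t2, g3, g4, g5⟩ := hs'
              exact ⟨g2, t2, by omega, g4, g5⟩
          have := Finset.card_lt_card hss
          omega
        have g2 := ih (t1 + 1) h5 hcard'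
        have g3 : Adj H F R (γ t1) (γ (t1 + 1)) := by
          left
          have := hγ t1 (t1 + 1) (by omega) h5
          omega
        have g4 := de_trans (de_trans g1 (de_one g3)) g2
        rw [hring]
        exact g4
  have hfin := hmain (N' + 1) 0 (Nat.zero_le _) (by
    refine (Finset.card_filter_le _ _).trans ?_
    rw [Finset.card_range])
  rw [hγ0, hγ1] at hfin
  refine de_mono hG ?_ hfin
  have e1 : N' + 1 ≤ m + 1 := by omega
  calc (N' + 1) * (M + 1) ≤ (m + 1) * (10 * M + 1) :=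
        Nat.mul_le_mul e1 (by omega)
    _ = (10 * M + 1) * (m + 1) := mul_comm _ _

end Pool.Agent.Helper74.TB
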