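import Pool.Agent.Helper74.TB.KAl
import Pool.Agent.Helper74.TB.Len
import Pool.Agent.Helper74.TB.E
import Pool.Agent.Helper74.TB.P

/-! MP_7d16da_al, Part K, module KC: displacement of the words (helper20). -/

set_option autoImplicit false

namespace Pool.Agent.Helper74.TB

open Pool.Agent.Helper74.MH

namespace KC

/-- the quotient distance is bounded by the electric length -/
theorem quo_de {G G' : Type*} [Group G] [Group G'] {d : G → G → ℕ} {d' : G' → G' → ℕ}
    {C R : ℕ} {X F : Set G} {H : Hubs d X C} {π : G →* G'} (hQ : Quo H F R π d')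
    {n : ℕ} {x y : G} (h : DE H F R n x y) : d' (π x) (π y) ≤ n := by
  obtain ⟨q, h0, hn, hq⟩ := h
  have key : ∀ i : ℕ, i ≤ n → d' (π x) (π (q i)) ≤ i := by
    intro i
    induction i with
    | zero =>
      intro _
      rw [h0, (hQ.path.zero_iff _ _).2 rfl]
    | succ i ih =>
      intro hi
      have h1 := ih (by omega)
      have h2 := E1.q_le_of_adj hQ (hq i (by omega))
      have h3 := hQ.path.tri (π x) (π (q i)) (π (q (i + 1)))
      omega
  have := key n le_rfl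
  rwa [hn] at this

/-- discrete intermediate value theorem -/
theorem ivt {φ : ℤ → ℝ} {e : ℝ} (he : 0 ≤ e) (hφ : ∀ k, φ k ≤ φ (k + 1) + e) {a : ℤ}
    (ha : 0 ≤ φ a) : ∀ n : ℕ, φ (a + n) ≤ 0 → ∃ k, |φ k| ≤ e := by
  intro n
  induction n with
  | zero =>
    intro h
    refine ⟨a, ?_⟩
    have h1 : φ (a + (0 : ℕ)) = φ a := by
      congr 1
      push_cast
      ring
    rw [h1] at h
    rw [abs_le]
    constructor <;> linarith
  | succ n ih =>
    intro h
    by_cases h1 : φ (a + n) ≤ 0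
    · exact ih h1
    · push Not at h1
      refine ⟨a + n, ?_⟩
      have h2 := hφ (a + n)
      have h3 : φ (a + n + 1) = φ (a + ((n + 1 : ℕ) : ℤ)) := by
        congr 1
        push_cast
        ring
      rw [h3] at h2
      rw [abs_of_pos h1]
      linarith

section Abs

variable {G' : Type} [Group G'] {d' : G' → G' → ℕ} {C : ℕ} {W : G'} {P : ℤ → G'} {h e0 L1 : ℕ}
  {Tm : ℝ} {mn : ℤ → Prop}

theorem P_mul (hP : ∀ k, P (k + h) = W * P k) (k : ℤ) (m : ℕ) :
    P (k + m * h) = W ^ m * P k := by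
  induction m with
  | zero =>
    rw [pow_zero, one_mul]
    congr 1
    push_cast
    ring
  | succ m ih =>
    have e : k + ((m + 1 : ℕ) : ℤ) * h = (k + m * h) + h := by push_cast; ring
    rw [e, hP, ih, pow_succ', mul_assoc]

theorem mn_mul (hper : ∀ k, mn k → mn (k + h)) {k : ℤ} (hk : mn k) (m : ℕ) :
    mn (k + m * h) := by
  induction m with
  | zero =>
    have e : k + ((0 : ℕ) : ℤ) * h = k := by push_cast; ring
    rw [e]
    exact hk
  | succ m ih =>
    have e : k + ((m + 1 : ℕ) : ℤ) * h = (k + m * h) + h := by push_cast; ring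
    rw [e]
    exact hper _ ih

/-- linear growth of the displacement -/
theorem grow (hG : HypG d' 2000) (h1 : 1 ≤ h) (hP : ∀ k, P (k + h) = W * P k)
    (hadd : ∀ i k j, i < k → k ≤ j → mn k →
      d' (P i) (P k) + d' (P k) (P j) ≤ d' (P i) (P j) + 310)
    (hper : ∀ k, mn k → mn (k + h)) {k : ℤ} (hk : mn k) (m : ℕ) :
    m * d' (P k) (P (k + h)) ≤ d' (P k) (W ^ m * P k) + 310 * m := by
  induction m with
  | zero => omega
  | succ m ih =>
    rcases Nat.eq_zero_or_pos m with rfl | hm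
    · have : W ^ (0 + 1) * P k = P (k + h) := by rw [hP, zero_add, pow_one]
      rw [this]
      omega
    · have hmh : (1 : ℤ) ≤ m * h := by
        have : 1 ≤ m * h := Nat.one_le_iff_ne_zero.2 (by positivity)
        exact_mod_cast this
      have a1 := hadd k (k + m * h) (k + m * h + h) (by omega) (by omega) (mn_mul hper hk m)
      rw [P_mul hP k m, hP (k + m * h), P_mul hP k m] at a1
      have a2 : d' (W ^ m * P k) (W * (W ^ m * P k)) = d' (P k) (P (k + h)) := by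
        rw [hP, ← mul_assoc, ← pow_succ', pow_succ, mul_assoc, hG.inv]
      have a3 : W * (W ^ m * P k) = W ^ (m + 1) * P k := by
        rw [← mul_assoc, ← pow_succ']
      rw [a2, a3] at a1
      have a4 : (m + 1) * d' (P k) (P (k + h)) =
        m * d' (P k) (P (k + h)) + d' (P k) (P (k + h)) := by ring
      omega

theorem disp_pow (hG : HypG d' 2000) (x : G') (m : ℕ) :
    d' x (W ^ m * x) ≤ m * d' x (W * x) := by
  induction m with
  | zero => rw [pow_zero, one_mul, (hG.path.zero_iff _ _).2 rfl]; omega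
  | succ m ih =>
    have h1 := hG.path.tri x (W ^ m * x) (W ^ (m + 1) * x)
    have h2 : d' (W ^ m * x) (W ^ (m + 1) * x) = d' x (W * x) := by
      rw [pow_succ, mul_assoc, hG.inv]
    have h3 : (m + 1) * d' x (W * x) = m * d' x (W * x) + d' x (W * x) := by ring
    omega

theorem absA (hG : HypG d' 2000) (hC : 200000 ≤ C) (H' : Hubs d' (Lx d' (100 * C)) C)
    (h2 : 2 ≤ h) (hP : ∀ k, P (k + h) = W * P k) (hmn : ∀ k, mn k ∨ mn (k + 1))
    (hst : ∀ k, d' (P k) (P (k + 1)) ≤ e0)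
    (hadd : ∀ i k j, i < k → k ≤ j → mn k →
      d' (P i) (P k) + d' (P k) (P j) ≤ d' (P i) (P j) + 310)
    (hu : ∀ k, Tm + 1000 + 100 * C + e0 ≤ (d' (P k) (P (k + h)) : ℝ))
    (hper : ∀ k, mn k → mn (k + h)) (hL : 5 * e0 + 5 * C ≤ L1) (hTm : 200 * (L1 : ℝ) ≤ Tm) :
    W ∈ Lx d' (100 * C) ∧ Tm ≤ H'.T W ∧ (∀ k, Nh d' L1 (H'.Z W) (P k)) ∧
      (∀ p ∈ H'.Z W, ∃ k, d' (P k) p ≤ L1) ∧
      ∀ k l : ℤ, k + h ≤ l → 100 * L1 < d' (P k) (P l) := by
  have hC0 : (200000 : ℝ) ≤ C := by exact_mod_cast hC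
  have hL0 : (0 : ℝ) ≤ L1 := Nat.cast_nonneg _
  have he0 : (0 : ℝ) ≤ e0 := Nat.cast_nonneg _
  have hLr : 5 * (e0 : ℝ) + 5 * C ≤ L1 := by exact_mod_cast hL
  have hgrow : ∀ k, mn k → ∀ m : ℕ, ((d' (P k) (P (k + h)) : ℝ) - 310) * m ≤
      d' (P k) (W ^ m * P k) := by
    intro k hk m
    have h3 := grow hG (by omega) hP hadd hper hk m
    have h4 : (m : ℝ) * d' (P k) (P (k + h)) ≤ d' (P k) (W ^ m * P k) + 310 * m := by
      exact_mod_cast h3
    linarith
  -- every point moves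
  have hX : W ∈ Lx d' (100 * C) := by
    intro x
    obtain ⟨k, hk⟩ : ∃ k, mn k := by
      rcases hmn 0 with h3 | h3
      · exact ⟨_, h3⟩
      · exact ⟨_, h3⟩
    have h4 : (d' (P k) (P (k + h)) : ℝ) - 310 ≤ d' x (W * x) := by
      apply p_lim (c := 2 * (d' (P k) x : ℝ))
      intro m
      have h5 := hgrow k hk m
      have h6 := disp_pow (W := W) hG x m
      have t1 := hG.path.tri (P k) x (W ^ m * P k)
      have t2 := hG.path.tri x (W ^ m * x) (W ^ m * P k)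
      have t3 := hG.inv (W ^ m) x (P k)
      have t4 := hG.path.symm x (P k)
      have h7 : d' (P k) (W ^ m * P k) ≤ m * d' x (W * x) + 2 * d' (P k) x := by omega
      have h8 : (d' (P k) (W ^ m * P k) : ℝ) ≤ m * d' x (W * x) + 2 * d' (P k) x := by
        exact_mod_cast h7
      linarith
    have h5 := hu k
    have h6 : ((100 * C : ℕ) : ℝ) ≤ d' x (W * x) := by
      push_cast
      linarith
    exact_mod_cast h6
  have hT : ∀ k, mn k → (d' (P k) (P (k + h)) : ℝ) - 310 ≤ H'.T W := by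
    intro k hk
    obtain ⟨E, hE⟩ := hl_len hG H' hX (P k)
    apply p_lim (c := E)
    intro m
    have h5 := hgrow k hk m
    have h6 := (abs_le.1 (hE m)).2
    linarith
  have hTbig : Tm ≤ H'.T W := by
    obtain ⟨k, hk⟩ : ∃ k, mn k := by
      rcases hmn 0 with h3 | h3
      · exact ⟨_, h3⟩
      · exact ⟨_, h3⟩
    have h3 := hT k hk
    have h4 := hu k
    linarith
  have hnear0 : ∀ k, mn k → d' (P k) (H'.pr W (P k)) ≤ C := by
    intro k hk
    have h3 := hl_dispZ hG H' hX (P k)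
    rw [← hP k] at h3
    have h4 := hT k hk
    have h5 : 2 * (d' (P k) (H'.pr W (P k)) : ℝ) ≤ 2 * C := by linarith
    have h6 : (d' (P k) (H'.pr W (P k)) : ℝ) ≤ C := by linarith
    exact_mod_cast h6
  have hnear : ∀ k, Nh d' (e0 + C) (H'.Z W) (P k) := by
    intro k
    rcases hmn k with h3 | h3
    · refine ⟨H'.pr W (P k), H'.pr_mem W hX _, ?_⟩
      have := hnear0 k h3
      omega
    · refine ⟨H'.pr W (P (k + 1)), H'.pr_mem W hX _, ?_⟩
      have h4 := hnear0 _ h3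
      have h5 := hst k
      have h6 := hG.path.tri (P k) (P (k + 1)) (H'.pr W (P (k + 1)))
      omega
  refine ⟨hX, hTbig, ?_, ?_, ?_⟩
  · intro k
    exact E1.nh_mono (by omega) (hnear k)
  · intro p hp
    have hφ1 : ∀ k : ℤ, H'.Φ W (P k) p ≤ H'.Φ W (P (k + 1)) p + e0 := by
      intro k
      have h3 := H'.coc W hX (P k) (P (k + 1)) p
      have h4 := H'.lip W hX (P k) (P (k + 1))
      have h5 : (d' (P k) (P (k + 1)) : ℝ) ≤ e0 := by exact_mod_cast hst k
      have h6 := (abs_le.1 h4).2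
      linarith
    have hφ2 : ∀ (k : ℤ) (m : ℕ), H'.Φ W (P (k + m * h)) p = H'.Φ W (P k) p - m * H'.T W := by
      intro k m
      rw [P_mul hP k m]
      have h3 := H'.coc W hX (P k) (W ^ m * P k) p
      have h4 := hl_zpow H' hX (P k) (m : ℤ)
      rw [zpow_natCast] at h4
      push_cast at h4
      linarith
    have hTpos : 0 < H'.T W := by
      have := H'.Tbig W hX
      linarith
    obtain ⟨M, hM⟩ := exists_nat_gt (|H'.Φ W (P 0) p| / H'.T W)
    rw [div_lt_iff₀ hTpos] at hM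
    have hab := abs_le.1 (le_refl |H'.Φ W (P 0) p|)
    have h3 := hφ2 0 M
    have h4 := hφ2 (-(M * h : ℤ)) M
    have e1 : -(M * h : ℤ) + M * h = 0 := by ring
    rw [e1] at h4
    have h5 : 0 ≤ H'.Φ W (P (-(M * h : ℤ))) p := by linarith [hab.1]
    have h6 : H'.Φ W (P (-(M * h : ℤ) + ((2 * (M * h) : ℕ) : ℤ))) p ≤ 0 := by
      have e2 : -(M * h : ℤ) + ((2 * (M * h) : ℕ) : ℤ) = 0 + M * h := by push_cast; ring
      rw [e2, h3]
      linarith [hab.2]
    obtain ⟨k, hk⟩ := ivt (φ := fun k => H'.Φ W (P k) p) he0 hφ1 h5 _ h6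
    refine ⟨k, ?_⟩
    have h7 := hl_near hG H' hX (hnear k) (⟨p, hp, by rw [hb_self hG]; exact Nat.zero_le _⟩ :
      Nh d' (e0 + C) (H'.Z W) p)
    have h8 : (d' (P k) p : ℝ) ≤ (5 * e0 + 5 * C : ℕ) := by
      push_cast at h7 ⊢
      have : |H'.Φ W (P k) p| ≤ e0 := hk
      linarith
    have h9 : d' (P k) p ≤ 5 * e0 + 5 * C := by exact_mod_cast h8
    omega
  · intro k l hkl
    obtain ⟨m, hm1, hm2, hm3, hm4⟩ : ∃ m : ℤ, mn m ∧ k < m ∧ m ≤ l ∧
        d' (P k) (P (k + h)) ≤ d' (P k) (P m) + e0 := by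
      rcases hmn (k + h - 1) with h3 | h3
      · refine ⟨_, h3, by omega, by omega, ?_⟩
        have h4 := hst (k + h - 1)
        have e1 : k + (h : ℤ) - 1 + 1 = k + h := by ring
        rw [e1] at h4
        have h5 := hG.path.tri (P k) (P (k + h - 1)) (P (k + h))
        omega
      · have e1 : k + (h : ℤ) - 1 + 1 = k + h := by ring
        rw [e1] at h3
        exact ⟨_, h3, by omega, hkl, by omega⟩
    have h3 := hadd k m l hm2 hm3 hm1
    have h4 : d' (P k) (P (k + h)) ≤ d' (P k) (P l) + 310 + e0 := by omega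
    have h5 : (d' (P k) (P (k + h)) : ℝ) ≤ d' (P k) (P l) + 310 + e0 := by exact_mod_cast h4
    have h6 := hu k
    have h7 : ((100 * L1 : ℕ) : ℝ) < d' (P k) (P l) := by
      push_cast
      linarith
    exact_mod_cast h7

end Abs

section Chain

variable {G G' : Type} [Group G] [Group G'] {d : G → G → ℕ} {d' : G' → G' → ℕ}
  {δ C Δ R D0 Θ h : ℕ} {X F : Set G} {H : Hubs d X C} {Tm : ℝ} {π : G →* G'}
  {f z y : ℤ → G} {θ : ℤ → ℝ}

/-- consecutive gates are close in the quotient -/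
theorem stepL (hG : HypG d δ) (hQ : Quo H F R π d') (hR : 0 < R)
    (hch : HChain H F D0 Θ f z y θ) (k : ℤ) :
    d' (π (z k)) (π (z (k + 1))) ≤ D0 / R + 2 := by
  have h1 := hch.hD k
  have h2 : D0 ≤ (D0 / R + 1) * R := by
    have e1 := Nat.div_add_mod D0 R
    have e2 := Nat.mod_lt D0 hR
    have e3 : (D0 / R + 1) * R = R * (D0 / R) + R := by ring
    omega
  have h3 : DE H F R (D0 / R + 1) (z k) (y (k + 1)) := de_len hG (h1.trans h2)
  have h4 : Adj H F R (y (k + 1)) (z (k + 1)) := by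
    refine Or.inr ⟨f (k + 1), hch.hf _, ⟨_, hch.hy _, ?_⟩, ⟨_, hch.hz _, ?_⟩⟩
    · rw [hb_self hG]; exact Nat.zero_le _
    · rw [hb_self hG]; exact Nat.zero_le _
  have h5 := quo_de hQ (de_trans h3 (de_one h4))
  omega

/-- the path in the quotient passes close to the gates of the long hubs -/
theorem addL (hE : StE) (hG : HypG d δ) (hC : 100 * δ ≤ C) (hF : Fam H F Δ Tm)
    (hQ : Quo H F R π d') (hcst : Cst δ C Δ R (10 * ((Δ : ℝ) + D0)) Tm)
    (hch : HChain H F D0 Θ f z y θ) (o : HOut H F Δ D0 f z θ) (nΘ : 10 ^ 3 * (Δ + D0) ≤ Θ)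
    {i k j : ℤ} (hik : i < k) (hkj : k ≤ j) (hk : 4 * (Θ : ℝ) ≤ |θ k|) :
    d' (π (z i)) (π (z k)) + d' (π (z k)) (π (z j)) ≤ d' (π (z i)) (π (z j)) + 310 := by
  have hC1 : (1 : ℝ) ≤ C := by exact_mod_cast hF.hC1
  have hCΔ : 1000 * (C : ℝ) ≤ Δ := by exact_mod_cast hF.hC
  have hΘ : 10 ^ 3 * ((Δ : ℝ) + D0) ≤ Θ := by exact_mod_cast nΘ
  have hD0 : (0 : ℝ) ≤ D0 := Nat.cast_nonneg _
  have hTm : 0 ≤ Tm := by
    have e1 := hcst.hT
    have e2 : (0 : ℝ) ≤ R := Nat.cast_nonneg _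
    linarith
  obtain ⟨γ, hγ0, hγ1, hγ⟩ := exists_geo hG.path (z i) (z j)
  have hΦ : 10 * (C : ℝ) ≤ |H.Φ (f k) (γ 0) (γ (d (z i) (z j)))| := by
    rw [hγ0, hγ1]
    have e1 := o.on i k j hik hkj
    have e2 := abs_sub_abs_le_abs_sub (θ k) (H.Φ (f k) (z i) (z j))
    rw [abs_sub_comm] at e2
    linarith
  obtain ⟨i1, i2, a1, a2, a3, -, -, -, -, a4, -⟩ := hl_ee hG H hC (hF.sub (hch.hf k)) hγ
    (Nat.zero_le _) le_rfl hΦ
  have hadj : Adj H F R (γ i1) (z k) := by
    refine Or.inr ⟨f k, hch.hf k, ?_, ⟨_, hch.hz k, ?_⟩⟩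
    · exact E1.nh_mono (by omega) (a4 i1 le_rfl a2.le)
    · rw [hb_self hG]; exact Nat.zero_le _
  have hadj' := E1.q_le_of_adj hQ hadj
  obtain ⟨hG', hE'⟩ := hE G G' d d' δ C Δ R X F H _ Tm π hG hF hcst hQ
  obtain ⟨γ', hγ0', hγ1', hγ'⟩ := exists_geo hG'.path (π (z i)) (π (z j))
  have htight : Tight H F (fun f => H.T f / 2) (10 * ((Δ : ℝ) + D0)) (γ 0)
      (γ (d (z i) (z j))) := by
    intro g hg
    rw [hγ0, hγ1]
    exact (le_abs_self _).trans (o.tight i j g hg)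
  obtain ⟨b1, -⟩ := hE' (fun f => H.T f / 2) (E1.wt_half hF) (fun g hg => by
    show |H.T g / 2 - H.T g / 2| ≤ Tm / 10
    rw [sub_self, abs_zero]
    linarith) _ γ hγ htight _ γ' hγ' (by rw [hγ0, hγ0']) (by rw [hγ1, hγ1'])
  obtain ⟨s, hs, hs'⟩ := b1 i1 (by omega)
  have t1 := hγ' 0 s (Nat.zero_le _) hs
  have t2 := hγ' s _ hs le_rfl
  rw [hγ0'] at t1
  rw [hγ1'] at t2
  have t3 := hG'.path.tri (π (z i)) (γ' s) (π (γ i1))
  have t4 := hG'.path.tri (π (z i)) (π (γ i1)) (π (z k))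
  have t5 := hG'.path.tri (π (z k)) (π (γ i1)) (γ' s)
  have t6 := hG'.path.tri (π (z k)) (γ' s) (π (z j))
  have t7 := hG'.path.symm (π (z k)) (π (γ i1))
  have t8 := hG'.path.symm (π (γ i1)) (γ' s)
  omega

/-- counting the long hubs of a period -/
theorem cntL (hCo : StCount) (hG : HypG d δ) (hF : Fam H F Δ Tm)
    (hcst : Cst δ C Δ R (10 * ((Δ : ℝ) + D0)) Tm)
    (hch : HChain H F D0 Θ f z y θ) (o : HOut H F Δ D0 f z θ) (nΘ : 10 ^ 3 * (Δ + D0) ≤ Θ)
    (nΘ2 : 10 ^ 4 * (R * h) ≤ Θ) (hΘ0 : 0 < Θ)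
    (hcirc : ∀ k l, ¬ (h : ℤ) ∣ k - l → 10 * (Θ : ℝ) ≤ |θ k - θ l|) {N : ℕ} {k : ℤ}
    (hDE : DE H F R N (z k) (z (k + h))) : h ≤ N + 1 := by
  classical
  by_contra hcon
  push Not at hcon
  have hΘ : 10 ^ 3 * ((Δ : ℝ) + D0) ≤ Θ := by exact_mod_cast nΘ
  have hΘp : (0 : ℝ) < Θ := by exact_mod_cast hΘ0
  have hD0 : (0 : ℝ) ≤ (Δ : ℝ) + D0 := by positivity
  set M := (Finset.Ioc k (k + h)).filter (fun j => 4 * (Θ : ℝ) ≤ |θ j|) with hM
  have hnon : ((Finset.Ioc k (k + h)).filter (fun j => ¬ 4 * (Θ : ℝ) ≤ |θ j|)).card ≤ 1 := by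
    rw [Finset.card_le_one]
    intro a ha b hb
    rw [Finset.mem_filter, Finset.mem_Ioc] at ha hb
    by_contra hab
    have hdvd : ¬ (h : ℤ) ∣ a - b := by
      intro hd
      have h1 : |a - b| < h := by
        rw [abs_lt]
        constructor <;> omega
      have h2 := Int.eq_zero_of_abs_lt_dvd hd h1
      omega
    have h1 := hcirc a b hdvd
    have h2 := abs_sub (θ a) (θ b)
    have h3 := ha.2
    have h4 := hb.2
    push Not at h3 h4
    linarith
  have hcardM : h ≤ M.card + 1 := by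
    have h1 := Finset.card_filter_add_card_filter_not (s := Finset.Ioc k (k + h))
      (fun j => 4 * (Θ : ℝ) ≤ |θ j|)
    rw [Int.card_Ioc] at h1
    have h2 : (k + (h : ℤ) - k).toNat = h := by
      have : k + (h : ℤ) - k = h := by ring
      rw [this, Int.toNat_natCast]
    rw [h2, ← hM] at h1
    omega
  have hinj : Set.InjOn f (M : Set ℤ) := by
    intro a _ b _ hab
    by_contra hne
    exact (o.dist a b hne).1 hab
  have hS := hCo G d δ C Δ R X F H _ Tm hG hF hcst N (z k) (z (k + h)) hDE (M.image f)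
    (by
      intro g hg
      obtain ⟨j, -, rfl⟩ := Finset.mem_image.1 hg
      exact hch.hf j)
    (by
      intro g hg
      obtain ⟨j, hj, rfl⟩ := Finset.mem_image.1 hg
      rw [hM, Finset.mem_filter, Finset.mem_Ioc] at hj
      have e1 := o.on k j (k + h) hj.1.1 hj.1.2
      have e2 := abs_sub_abs_le_abs_sub (θ j) (H.Φ (f j) (z k) (z (k + h)))
      rw [abs_sub_comm] at e2
      have e3 : (R : ℝ) * N ≤ Θ := by
        have e4 : R * N ≤ R * h := Nat.mul_le_mul_left _ (by omega)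
        have e5 : R * N ≤ Θ := by omega
        exact_mod_cast e5
      linarith [hj.2])
    (by
      intro g hg g' hg'
      obtain ⟨j, -, rfl⟩ := Finset.mem_image.1 hg
      obtain ⟨j', -, rfl⟩ := Finset.mem_image.1 hg'
      by_cases hjj : j' = j
      · rw [hjj]
        exact fam_ne_inv hF (hch.hf j)
      · exact (o.dist j' j hjj).2)
  rw [Finset.card_image_of_injOn hinj] at hS
  omega

end Chain

section Main

variable {G G' : Type} [Group G] [Group G'] {d : G → G → ℕ} {d' : G' → G' → ℕ}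
    {C Δ R n q A L Ax L1 L2 km h M0 lam Θ M1 : ℕ} {F : Set G}
    {H : Hubs d (Lx d (100 * C)) C} {H' : Hubs d' (Lx d' (100 * C)) C} {Tm : ℝ} {π : G →* G'}

/-- the distance of consecutive gates is small compared to `L1` -/
theorem num2 (K : KHyp d d' C Δ R n q A L Ax L1 L2 km h M0 lam Θ M1 F H H' Tm π) :
    10 ^ 6 * ((2 * L2 + C) / R + 2) ≤ L1 := by
  obtain ⟨nC, nL, nL1, -, nq, nΔ, nR, -⟩ := K.nums
  have hq := K.q1
  have h1 := K.hc3.hL2
  have h2 := Nat.div_mul_le_self (2 * L2 + C) R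
  set s := (2 * L2 + C) / R with hs
  have h3 : s * (300000 * L1) ≤ s * R := Nat.mul_le_mul_left _ (by omega)
  have h4 : q * C * L1 * 10 ^ 5 = 10 ^ 5 * (q * C * L1) := by ring
  have h5 : 2 * L2 + C ≤ 2000 * (q * C * L1) + L1 := by omega
  have h6 : 2000 * (q * C * L1) + L1 = (2000 * (q * C) + 1) * L1 := by ring
  have h7 : s * (300000 * L1) = s * 300000 * L1 := by ring
  have h8 : s * 300000 * L1 ≤ (2000 * (q * C) + 1) * L1 := by omega
  have h9 : s * 300000 ≤ 2000 * (q * C) + 1 := Nat.le_of_mul_le_mul_right h8 (by omega)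
  have h10 : 10 ^ 8 * (q * C) * 200000 ≤ 10 ^ 8 * (q * C) * C := Nat.mul_le_mul_left _ nC
  have h11 : 10 ^ 8 * (q * C) * C = 10 ^ 8 * q * C * C := by ring
  have h12 : 1 * 200000 ≤ q * C := Nat.mul_le_mul hq nC
  have h13 : 10 ^ 8 * (q * C) * 200000 = 20000000000000 * (q * C) := by ring
  omega

end Main

end KC

theorem stKC (hE : StE) (hLen : StLen) (hCo : StCount) (hB : StKB) : StKC := by
  obtain ⟨Ml, hLen⟩ := hLen
  refine ⟨max 1 Ml, le_max_left _ _, ?_⟩
  intro G G' _ _ d d' C Δ R n q A L Ax L1 L2 km h M0 lam Θ F H H' Tm π K S r a g b u v θ _ hw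
  obtain ⟨nC, nL, nL1, -, -, nΔ, nR, nΘ, nRΘ, nΘ'⟩ := K.nums
  have hG : HypG d 2000 := K.hS.toHypG
  have hG' : HypG d' 2000 := K.hS'.toHypG
  have hFam : Fam H F Δ Tm := K.hR.toFam
  have hch := hw.tr 1
  have o := hB G d 2000 C Δ (2 * L2 + C) Θ _ F H Tm hG K.hC hFam nΘ' _ _ _ _ hch
  simp only [one_mul] at hch o
  have rC : (200000 : ℝ) ≤ C := by exact_mod_cast nC
  have rL : 1000 * (C : ℝ) ≤ L := by exact_mod_cast nL
  have rL1 : (L : ℝ) ≤ L1 := by exact_mod_cast nL1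
  have rΔ : 300 * (L1 : ℝ) ≤ Δ := by exact_mod_cast nΔ
  have rR : 1000 * (Δ : ℝ) ≤ R := by exact_mod_cast nR
  have rT := K.hc.cst.hT
  have rT2 := K.hc3.hT
  have rL2 : (0 : ℝ) ≤ L2 := Nat.cast_nonneg _
  have hcst : Cst 2000 C Δ R (10 * ((Δ : ℝ) + (2 * L2 + C : ℕ))) Tm := by
    refine ⟨by norm_num, K.hC, hFam.hC, nR, by positivity, ?_, rT⟩
    push_cast
    linarith
  have hcK : 200 * (10 * ((Δ : ℝ) + (2 * L2 + C : ℕ))) ≤ Tm := by
    push_cast
    linarith
  have he0 := KC.num2 K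
  have hst : ∀ k, d' (π (g k * u)) (π (g (k + 1) * u)) ≤ (2 * L2 + C) / R + 2 := fun k =>
    KC.stepL hG K.hQ (by omega) hch k
  have re0 : (((2 * L2 + C) / R + 2 : ℕ) : ℝ) ≤ L1 := by
    have : (2 * L2 + C) / R + 2 ≤ L1 := by omega
    exact_mod_cast this
  have rM : (1 : ℝ) ≤ ((max 1 Ml : ℕ) : ℝ) := by
    exact_mod_cast le_max_left 1 Ml
  have rM' : (Ml : ℝ) ≤ ((max 1 Ml : ℕ) : ℝ) := by
    exact_mod_cast le_max_right 1 Ml
  have hu : ∀ k, Tm + 1000 + 100 * C + ((2 * L2 + C) / R + 2 : ℕ) ≤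
      (d' (π (g k * u)) (π (g (k + h) * u)) : ℝ) := by
    intro k
    have h1 := hLen G G' d d' 2000 C Δ R _ F H _ Tm π hG hFam hcst hcK K.hQ (by
      have e1 := K.hc.hM
      have e2 : (0 : ℝ) ≤ R := Nat.cast_nonneg _
      have e3 := mul_le_mul_of_nonneg_right rM' e2
      linarith) (fun f => H.T f / 2) (E1.wt_half hFam) (fun g hg => by
        show |H.T g / 2 - H.T g / 2| ≤ Tm / 10
        rw [sub_self, abs_zero]
        linarith) (g k * u) (g (k + h) * u) (fun f hf =>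
          (le_abs_self _).trans (o.tight k (k + h) f hf)) _ le_rfl
    have h2 := KC.cntL hCo hG hFam hcst hch o nΘ' (by omega) (by omega) (fun k l hkl => by
      have := hw.circ k l hkl 0
      rwa [Int.cast_zero, zero_mul, add_zero] at this) h1
    set m := d' (π (g k * u)) (π (g (k + h) * u)) with hm
    have h3 := K.hc3.hh
    have h4 : (h : ℝ) ≤ Ml * (m + 1) + 1 := by exact_mod_cast h2
    set M := ((max 1 Ml : ℕ) : ℝ) with hMdef
    have h5 : (Ml : ℝ) * (m + 1) ≤ M * (m + 1) :=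
      mul_le_mul_of_nonneg_right rM' (by positivity)
    have h6 : M * (10 ^ 4 * (Tm + 1000 + 100 * C)) ≤ M * (m + 2) := by
      have e1 : 10 ^ 4 * M * (Tm + 1000 + 100 * C) = M * (10 ^ 4 * (Tm + 1000 + 100 * C)) := by
        ring
      have e2 : M * ((m : ℝ) + 2) = M * (m + 1) + M := by ring
      linarith
    have h7 : 10 ^ 4 * (Tm + 1000 + 100 * C) ≤ (m : ℝ) + 2 :=
      le_of_mul_le_mul_left h6 (by linarith)
    linarith
  have hper : ∀ k : ℤ, 4 * (Θ : ℝ) ≤ |θ k| → 4 * (Θ : ℝ) ≤ |θ (k + h)| := by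
    intro k hk
    rwa [hw.per k]
  have h2 : 2 ≤ h := by
    have h3 := K.hc3.hh
    have h4 : (2 : ℝ) ≤ h := by
      have e1 : (1 : ℝ) * (Tm + 1000 + 100 * C) ≤
          ((max 1 Ml : ℕ) : ℝ) * (Tm + 1000 + 100 * C) :=
        mul_le_mul_of_nonneg_right rM (by linarith)
      have e2 : 10 ^ 4 * ((max 1 Ml : ℕ) : ℝ) * (Tm + 1000 + 100 * C) =
        10 ^ 4 * (((max 1 Ml : ℕ) : ℝ) * (Tm + 1000 + 100 * C)) := by ring
      linarith
    exact_mod_cast h4
  obtain ⟨r1, r2, r3, r4, r5⟩ := KC.absA (W := π (g h)) (P := fun k => π (g k * u)) (h := h)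
    (e0 := (2 * L2 + C) / R + 2) (L1 := L1) (Tm := Tm) (mn := fun k => 4 * (Θ : ℝ) ≤ |θ k|)
    hG' nC H' h2 (fun k => by
      show π (g (k + h) * u) = π (g h) * π (g k * u)
      rw [hw.gp k, ← map_mul, mul_assoc]) hch.iso hst
    (fun i k j hik hkj hk => KC.addL hE hG K.hC hFam K.hQ hcst hch o nΘ' hik hkj hk) hu hper
    (by omega) (by linarith)
  refine ⟨r1, r2, r3, r4, fun k => ?_, r5⟩
  have := Nat.mul_le_mul_left (10 ^ 6) (hst k)
  omega

end Pool.Agent.Helper74.TB
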