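import Pool.Agent.Helper74.TB.StKK

/-!
MP_7d16da_al, Part KD: two chains of hubs which are close in the quotient have common hubs.
-/

set_option autoImplicit false

namespace Pool.Agent.Helper74.TB

open Pool.Agent.Helper74.MH

namespace KD

theorem abs_lo {a b e : ℝ} (h : |a - b| ≤ e) : |b| - e ≤ |a| := by
  have h1 := abs_sub_abs_le_abs_sub b a
  rw [abs_sub_comm] at h1
  linarith

theorem abs_hi {a b e : ℝ} (h : |a - b| ≤ e) : |a| ≤ |b| + e := by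
  have h1 := abs_sub_abs_le_abs_sub a b
  linarith

section

variable {G : Type*} [Group G] {d : G → G → ℕ} {δ C Δ R : ℕ} {X F : Set G} {H : Hubs d X C}
  {Tm : ℝ}

/-- the digon structure restricted to a run without hub pieces -/
theorem dc_run {b b' : G → ℝ} {c0 r0 : ℝ} {γ γ' : ℕ → G} {N N' i j : ℕ} {u : G}
    (h : DC H F R b b' c0 r0 γ γ' N N' i j u) {s1 s2 : ℕ} (h2 : s2 ≤ N)
    (hno : ∀ f ∈ F, ∀ i1 i2, i1 < i2 → i2 ≤ N →
      (∀ t, i1 ≤ t → t ≤ i2 → Nh d (7 * C) (H.Z f) (γ t)) →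
      b f - c0 ≤ H.Φ f (γ i1) (γ i2) → i2 ≤ s1 ∨ s2 ≤ i1) (h1 : i ≤ s1) :
    ∃ u' ∈ Subgroup.closure F, ∀ t, s1 ≤ t → t ≤ s2 →
      ∃ t' ≤ N', (d (γ t) (u' * γ' t') : ℝ) ≤ r0 := by
  induction h with
  | fin i j u hi hj hu hN hcl =>
    refine ⟨u, hu, fun t ht1 ht2 => ?_⟩
    obtain ⟨t', -, ht', -, hd⟩ := hcl.1 t (by omega) (by omega)
    exact ⟨t', ht', hd⟩
  | hub i j u i1 i2 j1 j2 f hf hu hi hi12 hi2 hj hj12 hj2 hcl hn1 hn2 hb1 hb2 _ ih =>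
    rcases hno f hf i1 i2 hi12 hi2 hn1 hb1 with h | h
    · exact ih h
    · refine ⟨u, hu, fun t ht1 ht2 => ?_⟩
      obtain ⟨t', -, ht', -, hd⟩ := hcl.1 t (by omega) (by omega)
      exact ⟨t', by omega, hd⟩

/-- coarse monotonicity, absolute values -/
theorem mono_abs (hG : HypG d δ) (H : Hubs d X C) {f : G} (hf : f ∈ X) {x p y : G}
    (hp : d x p + d p y = d x y) {a : ℝ} (h1 : |H.Φ f x y| ≤ a)
    (h2 : a + 10 * C < |H.Φ f x p|) : False := by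
  have hC0 : (0 : ℝ) ≤ C := Nat.cast_nonneg C
  have ha : 0 ≤ a := (abs_nonneg _).trans h1
  have h3 := H.coc f hf x p y
  have h4 : |H.Φ f x p| - a ≤ |H.Φ f p y| := by
    have h5 := abs_sub_abs_le_abs_sub (H.Φ f x p) (H.Φ f x y)
    have h6 : H.Φ f x p - H.Φ f x y = -H.Φ f p y := by linarith
    rw [h6, abs_neg] at h5
    linarith
  have h7 := hl_mono_aux hG H hf hp (by linarith) (by linarith)
  linarith

theorem mono_abs' (hG : HypG d δ) (H : Hubs d X C) {f : G} (hf : f ∈ X) {x p y : G}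
    (hp : d x p + d p y = d x y) {a : ℝ} (h1 : |H.Φ f x y| ≤ a)
    (h2 : a + 10 * C < |H.Φ f p y|) : False := by
  have h3 : d y p + d p x = d y x := by
    rw [hG.path.symm y p, hG.path.symm p x, hG.path.symm y x]
    omega
  refine mono_abs hG H hf h3 (a := a) ?_ ?_
  · rw [hl_symm H hf, abs_neg]; exact h1
  · rw [hl_symm H hf, abs_neg]; exact h2

/-- pieces of a geodesic, absolute values -/
theorem sub_abs (hG : HypG d δ) (H : Hubs d X C) (hC : 100 * δ ≤ C) {f : G} (hf : f ∈ X)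
    {N : ℕ} {γ : ℕ → G} (hγ : IsGeo d N γ) {i j : ℕ} (hi : i ≤ N) (hj : j ≤ N) :
    |H.Φ f (γ i) (γ j)| ≤ |H.Φ f (γ 0) (γ N)| + 8 * C := by
  have hC0 : (0 : ℝ) ≤ C := Nat.cast_nonneg C
  have key : ∀ i j, i ≤ j → j ≤ N → |H.Φ f (γ i) (γ j)| ≤ |H.Φ f (γ 0) (γ N)| + 8 * C := by
    intro i j hij hj
    have h1 := hl_sub hG H hC hf hγ hij hj
    have h2 := hl_sub hG H hC (H.Xinv f hf) hγ hij hj
    have h3 := H.neg f hf (γ i) (γ j)
    have h4 := H.neg f hf (γ 0) (γ N)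
    have h5 : max (H.Φ f (γ 0) (γ N)) 0 ≤ |H.Φ f (γ 0) (γ N)| :=
      max_le (le_abs_self _) (abs_nonneg _)
    have h6 : max (H.Φ f⁻¹ (γ 0) (γ N)) 0 ≤ |H.Φ f (γ 0) (γ N)| + C := by
      refine max_le ?_ (by positivity)
      have := neg_abs_le (H.Φ f (γ 0) (γ N))
      rw [abs_le] at h4
      linarith [h4.2]
    rw [abs_le] at h3
    rw [abs_le]
    constructor <;> linarith [h3.1, h3.2]
  rcases le_total i j with h | h
  · exact key i j h hj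
  · rw [hl_symm H hf, abs_neg]
    exact key j i h hi

omit [Group G] in
theorem nh_mono {r r' : ℕ} (hr : r ≤ r') {S : Set G} {x : G} (h : Nh d r S x) : Nh d r' S x := by
  obtain ⟨z, hz, hd⟩ := h
  exact ⟨z, hz, hd.trans hr⟩

theorem nh_move (hG : HypG d δ) {r s : ℕ} {S : Set G} {x y : G} (h : Nh d r S y)
    (hxy : d x y ≤ s) : Nh d (r + s) S x := by
  obtain ⟨z, hz, hd⟩ := h
  refine ⟨z, hz, ?_⟩
  have := hG.path.tri x y z
  omega

section chain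

variable {D0 Θ : ℕ} {f z y : ℤ → G} {θ : ℤ → ℝ}

/-- positions on both sides of a hub -/
theorem pos1 (hG : HypG d δ) (hF : Fam H F Δ Tm) (hc : HChain H F D0 Θ f z y θ)
    (ho : HOut H F Δ D0 f z θ) {i k j : ℤ} (h1 : i < k) (h2 : k < j) {r r' : ℕ} {p q : G}
    (hp : Nh d r (H.Z (f i)) p) (hq : Nh d r' (H.Z (f j)) q) :
    |H.Φ (f k) p q - θ k| ≤ 10 * ((Δ : ℝ) + D0) + r + r' := by
  obtain ⟨a, ha, hpa⟩ := hp
  obtain ⟨b, hb, hqb⟩ := hq
  have h3 := ho.btw i k j h1 h2 a ha b hb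
  have h4 := hl_lip2 hG H (hF.sub (hc.hf k)) p q a b
  have h5 : (d p a : ℝ) ≤ r := by exact_mod_cast hpa
  have h6 : (d q b : ℝ) ≤ r' := by exact_mod_cast hqb
  rw [abs_le] at h3 h4 ⊢
  constructor <;> linarith [h3.1, h3.2, h4.1, h4.2]

/-- both positions before the hub -/
theorem pos2 (hG : HypG d δ) (hF : Fam H F Δ Tm) (hc : HChain H F D0 Θ f z y θ)
    (ho : HOut H F Δ D0 f z θ) {i j k : ℤ} (h1 : i < k) (h2 : j < k) {r r' : ℕ} {p q : G}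
    (hp : Nh d r (H.Z (f i)) p) (hq : Nh d r' (H.Z (f j)) q) :
    |H.Φ (f k) p q| ≤ 20 * ((Δ : ℝ) + D0) + r + r' := by
  have hz : Nh d 0 (H.Z (f (k + 1))) (z (k + 1)) := ⟨z (k + 1), hc.hz _, by rw [hb_self hG]⟩
  have h3 := pos1 hG hF hc ho h1 (lt_add_one k) hp hz
  have h4 := pos1 hG hF hc ho h2 (lt_add_one k) hq hz
  have h5 := H.coc (f k) (hF.sub (hc.hf k)) p q (z (k + 1))
  push_cast at h3 h4
  rw [abs_le] at h3 h4 ⊢
  constructor <;> linarith [h3.1, h3.2, h4.1, h4.2]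

/-- both positions after the hub -/
theorem pos3 (hG : HypG d δ) (hF : Fam H F Δ Tm) (hc : HChain H F D0 Θ f z y θ)
    (ho : HOut H F Δ D0 f z θ) {i j k : ℤ} (h1 : k < i) (h2 : k < j) {r r' : ℕ} {p q : G}
    (hp : Nh d r (H.Z (f i)) p) (hq : Nh d r' (H.Z (f j)) q) :
    |H.Φ (f k) p q| ≤ 20 * ((Δ : ℝ) + D0) + r + r' := by
  have hz : Nh d 0 (H.Z (f (k - 1))) (z (k - 1)) := ⟨z (k - 1), hc.hz _, by rw [hb_self hG]⟩
  have h3 := pos1 hG hF hc ho (sub_one_lt k) h1 hz hp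
  have h4 := pos1 hG hF hc ho (sub_one_lt k) h2 hz hq
  have h5 := H.coc (f k) (hF.sub (hc.hf k)) (z (k - 1)) p q
  push_cast at h3 h4
  rw [abs_le] at h3 h4 ⊢
  constructor <;> linarith [h3.1, h3.2, h4.1, h4.2]

/-- The core lemma, positive direction. -/
theorem core_fwd (hG : HypG d δ) (hC : 100 * δ ≤ C) (hF : Fam H F Δ Tm)
    (hΘ : 10 ^ 3 * (Δ + D0) ≤ Θ) (hT : 4000 * ((Δ : ℝ) + D0) ≤ Tm)
    (hc : HChain H F D0 Θ f z y θ) (ho : HOut H F Δ D0 f z θ) {ka kb s s' : ℤ}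
    (h1 : ka + 2 < s) (h2 : s ≤ s') (h3 : s' + 2 < kb)
    (hgood : ∀ k, s - 2 ≤ k → k ≤ s' + 2 → 5 * (Θ : ℝ) ≤ |θ k| ∧
      2 * |θ k| + 10 * (Θ : ℝ) ≤ H.T (f k))
    {N M : ℕ} {γ η : ℕ → G} (hγ : IsGeo d N γ) (hγ0 : γ 0 = z ka) (hγ1 : γ N = z kb)
    (hη : IsGeo d M η) {tA tB sA sB : ℕ} (htA : tA ≤ N) (htB : tB ≤ N) (hsAB : sA ≤ sB)
    (hsB : sB ≤ M) (hA : d (γ tA) (η sA) ≤ 20 * C) (hB : d (γ tB) (η sB) ≤ 20 * C)
    (hAn : Nh d (7 * C) (H.Z (f (s - 2))) (γ tA))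
    (hAe : |H.Φ (f (s - 2)) (γ 0) (γ tA)| ≤ 6 * C)
    (hBn : Nh d (7 * C) (H.Z (f (s' + 2))) (γ tB))
    (hBe : |H.Φ (f (s' + 2)) (γ tB) (γ N)| ≤ 6 * C) :
    ∃ σ1 σ2, σ1 ≤ σ2 ∧ σ2 ≤ M ∧
      (∀ k, s ≤ k → k ≤ s' →
        |θ k| - 11 * ((Δ : ℝ) + D0) ≤ |H.Φ (f k) (η σ1) (η σ2)|) ∧
      ∀ g ∈ F, ∀ i1 i2, i1 < i2 → i2 ≤ M →
        (∀ t, i1 ≤ t → t ≤ i2 → Nh d (7 * C) (H.Z g) (η t)) →
        H.T g / 2 - 50 * ((Δ : ℝ) + D0) ≤ |H.Φ g (η i1) (η i2)| → i2 ≤ σ1 ∨ σ2 ≤ i1 := by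
  have hδ := hG.one
  have hC100 : 100 ≤ C := by omega
  have rC : (100 : ℝ) ≤ C := by exact_mod_cast hC100
  have rΔ : 1000 * (C : ℝ) ≤ Δ := by exact_mod_cast hF.hC
  have rD : (0 : ℝ) ≤ D0 := Nat.cast_nonneg _
  have rΘ : 1000 * ((Δ : ℝ) + D0) ≤ Θ := by exact_mod_cast hΘ
  have fX : ∀ k, f k ∈ X := fun k => hF.sub (hc.hf k)
  have zN : ∀ k, Nh d 0 (H.Z (f k)) (z k) := fun k => ⟨z k, hc.hz k, by rw [hb_self hG]⟩
  -- tA ≤ tB
  have htAB : tA ≤ tB := by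
    by_contra hcon
    push Not at hcon
    have a1 := pos2 hG hF hc ho (i := ka) (j := s - 2) (k := s) (by omega) (by omega) (zN ka) hAn
    have a2 := pos1 hG hF hc ho (i := ka) (j := s' + 2) (k := s) (by omega) (by omega) (zN ka) hBn
    have a3 := (hgood s (by omega) (by omega)).1
    have a4 := abs_lo a2
    push_cast at a1 a4
    rw [← hγ0] at a1 a4
    exact mono_abs hG H (fX s) (hb_btw hG hγ (Nat.zero_le tB) hcon.le htA) a1 (by linarith)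
  have hAη : Nh d (27 * C) (H.Z (f (s - 2))) (η sA) := by
    have h4 := nh_move hG hAn (x := η sA) (s := 20 * C) (by rw [hG.path.symm]; exact hA)
    exact nh_mono (by omega) h4
  have hBη : Nh d (27 * C) (H.Z (f (s' + 2))) (η sB) := by
    have h4 := nh_move hG hBn (x := η sB) (s := 20 * C) (by rw [hG.path.symm]; exact hB)
    exact nh_mono (by omega) h4
  -- closeness on `[sA, sB]`
  have hclose : ∀ t, sA ≤ t → t ≤ sB → ∃ t1 ≤ N, d (η t) (γ t1) ≤ 21 * C := by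
    intro t ht1 ht2
    have e1 : γ (tA + (tB - tA)) = γ tB := by congr 1; omega
    have e2 : η (sA + (sB - sA)) = η sB := by congr 1; omega
    obtain ⟨s1, hs1, hd1⟩ := hb_ft hG (hb_sub hG hη hsAB hsB) (hb_sub hG hγ htAB htB)
      (r := 20 * C) (by simpa [hG.path.symm (η sA) (γ tA)] using hA)
      (by simp only [e1, e2]; rw [hG.path.symm]; exact hB) (t := t - sA) (by omega)
    have e3 : sA + (t - sA) = t := by omega
    simp only [e3] at hd1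
    exact ⟨tA + s1, by omega, by omega⟩
  -- angles on `[sA, sB]`
  have hang : ∀ k, s - 1 ≤ k → k ≤ s' + 1 → 4 * (Θ : ℝ) ≤ |H.Φ (f k) (η sA) (η sB)| := by
    intro k hk1 hk2
    have a1 := pos1 hG hF hc ho (i := s - 2) (j := s' + 2) (k := k) (by omega) (by omega) hAη hBη
    have a2 := abs_lo a1
    have a3 := (hgood k (by omega) (by omega)).1
    push_cast at a2
    linarith
  obtain ⟨ρ1, σ1, hσ10, hσ11, hσ1B, -, -, -, hσ1e, hσ1n, -⟩ := hl_ee hG H hC (fX (s - 1)) hη hsAB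
    hsB (by have := hang (s - 1) le_rfl (by omega); linarith)
  obtain ⟨σ2, ρ2, hσ2A, hσ21, hρ2B, -, -, hσ2e, -, hσ2n, -⟩ := hl_ee hG H hC (fX (s' + 1)) hη hsAB
    hsB (by have := hang (s' + 1) (by omega) le_rfl; linarith)
  have hσ1A : sA ≤ σ1 := by omega
  have hσ2B : σ2 ≤ sB := by omega
  have n1 : Nh d (7 * C) (H.Z (f (s - 1))) (η σ1) := hσ1n σ1 hσ11.le le_rfl
  have n2 : Nh d (7 * C) (H.Z (f (s' + 1))) (η σ2) := hσ2n σ2 le_rfl hσ21.le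
  have hσ12 : σ1 ≤ σ2 := by
    by_contra hcon
    push Not at hcon
    have a1 := pos2 hG hF hc ho (i := s - 2) (j := s - 1) (k := s) (by omega) (by omega) hAη n1
    have a2 := pos1 hG hF hc ho (i := s - 2) (j := s' + 1) (k := s) (by omega) (by omega) hAη n2
    have a3 := (hgood s (by omega) (by omega)).1
    have a4 := abs_lo a2
    push_cast at a1 a4
    exact mono_abs hG H (fX s) (hb_btw hG hη hσ2A hcon.le (by omega)) a1 (by linarith)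
  refine ⟨σ1, σ2, hσ12, by omega, ?_, ?_⟩
  · intro k hk1 hk2
    have a1 := pos1 hG hF hc ho (i := s - 1) (j := s' + 1) (k := k) (by omega) (by omega) n1 n2
    have a2 := abs_lo a1
    push_cast at a2
    linarith
  intro g hg i1 i2 hi12 hi2M hgn hgΦ
  by_contra hcon
  push Not at hcon
  obtain ⟨hc1, hc2⟩ := hcon
  have hTg := hF.big g hg
  -- case (a)
  have ca : sA ≤ i1 := by
    by_contra hcon
    push Not at hcon
    have m1 := hgn sA (by omega) (by omega)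
    have m2 := hgn σ1 (by omega) (by omega)
    -- first hub
    have b1 : g = f (s - 1) ∨ g = (f (s - 1))⁻¹ := by
      by_contra hne
      push Not at hne
      have c1 := hl_sep hG hF (hc.hf (s - 1)) hg hne.1 hne.2 m1 m2
      have c2 := H.coc (f (s - 1)) (fX (s - 1)) (η sA) (η σ1) (η sB)
      have c3 := hang (s - 1) le_rfl (by omega)
      have c4 := abs_add_le (H.Φ (f (s - 1)) (η sA) (η σ1)) (H.Φ (f (s - 1)) (η σ1) (η sB))
      rw [c2] at c4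
      push_cast at c1
      linarith
    have b2 : g = f (s - 2) ∨ g = (f (s - 2))⁻¹ := by
      by_contra hne
      push Not at hne
      have c1 := hl_sep hG hF (hc.hf (s - 2)) hg hne.1 hne.2 m1 m2
      have c2 := pos1 hG hF hc ho (i := ka) (j := s - 1) (k := s - 2) (by omega) (by omega)
        (zN ka) n1
      have c3 := (hgood (s - 2) le_rfl (by omega)).1
      have c4 := abs_lo c2
      rw [← hγ0] at c4
      have c5 := H.coc (f (s - 2)) (fX (s - 2)) (γ 0) (γ tA) (η σ1)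
      have c6 := H.coc (f (s - 2)) (fX (s - 2)) (γ tA) (η sA) (η σ1)
      have c7 := H.lip (f (s - 2)) (fX (s - 2)) (γ tA) (η sA)
      have c8 : (d (γ tA) (η sA) : ℝ) ≤ 20 * C := by exact_mod_cast hA
      have c9 : |H.Φ (f (s - 2)) (γ 0) (η σ1)| ≤ |H.Φ (f (s - 2)) (η sA) (η σ1)| + 26 * C := by
        apply abs_hi
        have e : H.Φ (f (s - 2)) (γ 0) (η σ1) - H.Φ (f (s - 2)) (η sA) (η σ1) =
          H.Φ (f (s - 2)) (γ 0) (γ tA) + H.Φ (f (s - 2)) (γ tA) (η sA) := by linarith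
        rw [e]
        exact (abs_add_le _ _).trans (by linarith)
      push_cast at c1 c4
      linarith
    have b3 := ho.dist (s - 1) (s - 2) (by omega)
    rcases b1 with b1 | b1 <;> rcases b2 with b2 | b2
    · exact b3.1 (b1.symm.trans b2)
    · exact b3.2 (b1.symm.trans b2)
    · apply b3.2
      rw [← b2, b1, inv_inv]
    · exact b3.1 (inv_injective (b1.symm.trans b2))
  have cb : i2 ≤ sB := by
    by_contra hcon
    push Not at hcon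
    have m1 := hgn σ2 (by omega) (by omega)
    have m2 := hgn sB (by omega) (by omega)
    have b1 : g = f (s' + 1) ∨ g = (f (s' + 1))⁻¹ := by
      by_contra hne
      push Not at hne
      have c1 := hl_sep hG hF (hc.hf (s' + 1)) hg hne.1 hne.2 m1 m2
      have c2 := H.coc (f (s' + 1)) (fX (s' + 1)) (η sA) (η σ2) (η sB)
      have c3 := hang (s' + 1) (by omega) le_rfl
      have c4 := abs_add_le (H.Φ (f (s' + 1)) (η sA) (η σ2)) (H.Φ (f (s' + 1)) (η σ2) (η sB))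
      rw [c2] at c4
      push_cast at c1
      linarith
    have b2 : g = f (s' + 2) ∨ g = (f (s' + 2))⁻¹ := by
      by_contra hne
      push Not at hne
      have c1 := hl_sep hG hF (hc.hf (s' + 2)) hg hne.1 hne.2 m1 m2
      have c2 := pos1 hG hF hc ho (i := s' + 1) (j := kb) (k := s' + 2) (by omega) (by omega)
        n2 (zN kb)
      have c3 := (hgood (s' + 2) (by omega) le_rfl).1
      have c4 := abs_lo c2
      rw [← hγ1] at c4
      have c5 := H.coc (f (s' + 2)) (fX (s' + 2)) (η σ2) (γ tB) (γ N)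
      have c6 := H.coc (f (s' + 2)) (fX (s' + 2)) (η σ2) (η sB) (γ tB)
      have c7 := H.lip (f (s' + 2)) (fX (s' + 2)) (η sB) (γ tB)
      have c8 : (d (η sB) (γ tB) : ℝ) ≤ 20 * C := by
        rw [hG.path.symm]; exact_mod_cast hB
      have c9 : |H.Φ (f (s' + 2)) (η σ2) (γ N)| ≤ |H.Φ (f (s' + 2)) (η σ2) (η sB)| + 26 * C := by
        apply abs_hi
        have e : H.Φ (f (s' + 2)) (η σ2) (γ N) - H.Φ (f (s' + 2)) (η σ2) (η sB) =
          H.Φ (f (s' + 2)) (η sB) (γ tB) + H.Φ (f (s' + 2)) (γ tB) (γ N) := by linarith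
        rw [e]
        exact (abs_add_le _ _).trans (by linarith)
      push_cast at c1 c4
      linarith
    have b3 := ho.dist (s' + 1) (s' + 2) (by omega)
    rcases b1 with b1 | b1 <;> rcases b2 with b2 | b2
    · exact b3.1 (b1.symm.trans b2)
    · exact b3.2 (b1.symm.trans b2)
    · apply b3.2
      rw [← b2, b1, inv_inv]
    · exact b3.1 (inv_injective (b1.symm.trans b2))
  -- case (b): the piece is inside `[sA, sB]`
  obtain ⟨t1, ht1, hd1⟩ := hclose i1 ca (by omega)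
  obtain ⟨t2, ht2, hd2⟩ := hclose i2 (by omega) cb
  have gX := hF.sub hg
  have d1 : |H.Φ g (η i1) (η i2)| ≤ |H.Φ g (γ t1) (γ t2)| + 42 * C := by
    apply abs_hi
    have e1 := hl_lip2 hG H gX (η i1) (η i2) (γ t1) (γ t2)
    have e2 : (d (η i1) (γ t1) : ℝ) ≤ 21 * C := by exact_mod_cast hd1
    have e3 : (d (η i2) (γ t2) : ℝ) ≤ 21 * C := by exact_mod_cast hd2
    linarith
  have d2 := sub_abs hG H hC gX hγ ht1 ht2
  rw [hγ0, hγ1] at d2
  have d3 : ∃ k, ka < k ∧ k ≤ kb ∧ (g = f k ∨ g = (f k)⁻¹) := by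
    by_contra hne
    push Not at hne
    have e1 := ho.off ka kb (by omega) g hg (fun k hk1 hk2 => hne k hk1 hk2)
    linarith
  obtain ⟨k, hk1, hk2, hgk⟩ := d3
  have hTk : H.T (f k) = H.T g := by
    rcases hgk with hgk | hgk
    · rw [hgk]
    · rw [hgk, H.Tinv _ (fX k)]
  have hZk : H.Z g = H.Z (f k) := by
    rcases hgk with hgk | hgk
    · rw [hgk]
    · rw [hgk, H.Zinv _ (fX k)]
  have d4 : |H.Φ g (z ka) (z kb)| ≤ |θ k| + 10 * ((Δ : ℝ) + D0) + C := by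
    have e1 := abs_hi (ho.on ka k kb hk1 hk2)
    rcases hgk with hgk | hgk
    · rw [hgk]; linarith
    · have e2 := H.neg (f k) (fX k) (z ka) (z kb)
      rw [← hgk] at e2
      have e3 : |H.Φ g (z ka) (z kb)| ≤ |H.Φ (f k) (z ka) (z kb)| + C := by
        have e4 : |H.Φ g (z ka) (z kb)| ≤ |-H.Φ (f k) (z ka) (z kb)| + C := by
          apply abs_hi
          rw [sub_neg_eq_add]; exact e2
        rwa [abs_neg] at e4
      linarith
  have hkout : k < s - 2 ∨ s' + 2 < k := by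
    by_contra hne
    push Not at hne
    have e1 := (hgood k hne.1 hne.2).2
    rw [hTk] at e1
    linarith
  rcases hkout with hk | hk
  · have nt : Nh d (7 * C) (H.Z (f k)) (η (max i1 σ1)) := by
      rw [← hZk]
      exact hgn _ (le_max_left _ _) (by omega)
    have a1 := pos2 hG hF hc ho (i := s - 2) (j := k) (k := s - 1) (by omega) (by omega) hAη nt
    have a3 := hang (s - 1) le_rfl (by omega)
    have a4 : |H.Φ (f (s - 1)) (η sA) (η sB)| ≤ |H.Φ (f (s - 1)) (η sA) (η σ1)| + 6 * C := by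
      apply abs_hi
      have e := H.coc (f (s - 1)) (fX (s - 1)) (η sA) (η σ1) (η sB)
      have e' : H.Φ (f (s - 1)) (η sA) (η sB) - H.Φ (f (s - 1)) (η sA) (η σ1) =
        H.Φ (f (s - 1)) (η σ1) (η sB) := by linarith
      rw [e']
      exact hσ1e
    push_cast at a1
    exact mono_abs hG H (fX (s - 1)) (hb_btw hG hη hσ1A (le_max_right i1 σ1) (by omega)) a1
      (by linarith)
  · have nt : Nh d (7 * C) (H.Z (f k)) (η (min i2 σ2)) := by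
      rw [← hZk]
      exact hgn _ (by omega) (min_le_left _ _)
    have a1 := pos3 hG hF hc ho (i := k) (j := s' + 2) (k := s' + 1) (by omega) (by omega) nt hBη
    have a3 := hang (s' + 1) (by omega) le_rfl
    have a4 : |H.Φ (f (s' + 1)) (η sA) (η sB)| ≤ |H.Φ (f (s' + 1)) (η σ2) (η sB)| + 6 * C := by
      apply abs_hi
      have e := H.coc (f (s' + 1)) (fX (s' + 1)) (η sA) (η σ2) (η sB)
      have e' : H.Φ (f (s' + 1)) (η sA) (η sB) - H.Φ (f (s' + 1)) (η σ2) (η sB) =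
        H.Φ (f (s' + 1)) (η sA) (η σ2) := by linarith
      rw [e']
      exact hσ2e
    push_cast at a1
    exact mono_abs' hG H (fX (s' + 1)) (hb_btw hG hη (min_le_right i2 σ2) hσ2B hsB) a1
      (by linarith)

/-- The core lemma. -/
theorem core (hG : HypG d δ) (hC : 100 * δ ≤ C) (hF : Fam H F Δ Tm)
    (hΘ : 10 ^ 3 * (Δ + D0) ≤ Θ) (hT : 4000 * ((Δ : ℝ) + D0) ≤ Tm)
    (hc : HChain H F D0 Θ f z y θ) (ho : HOut H F Δ D0 f z θ) {ka kb s s' : ℤ}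
    (h1 : ka + 2 < s) (h2 : s ≤ s') (h3 : s' + 2 < kb)
    (hgood : ∀ k, s - 2 ≤ k → k ≤ s' + 2 → 5 * (Θ : ℝ) ≤ |θ k| ∧
      2 * |θ k| + 10 * (Θ : ℝ) ≤ H.T (f k))
    {N M : ℕ} {γ η : ℕ → G} (hγ : IsGeo d N γ) (hγ0 : γ 0 = z ka) (hγ1 : γ N = z kb)
    (hη : IsGeo d M η)
    (hnear : ∀ k, s - 2 ≤ k → k ≤ s' + 2 → ∀ t ≤ N, Nh d (7 * C) (H.Z (f k)) (γ t) →
      ∃ u ≤ M, d (γ t) (η u) ≤ 20 * C) :
    ∃ σ1 σ2, σ1 ≤ σ2 ∧ σ2 ≤ M ∧
      (∀ k, s ≤ k → k ≤ s' →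
        |θ k| - 11 * ((Δ : ℝ) + D0) ≤ |H.Φ (f k) (η σ1) (η σ2)|) ∧
      ∀ g ∈ F, ∀ i1 i2, i1 < i2 → i2 ≤ M →
        (∀ t, i1 ≤ t → t ≤ i2 → Nh d (7 * C) (H.Z g) (η t)) →
        H.T g / 2 - 50 * ((Δ : ℝ) + D0) ≤ |H.Φ g (η i1) (η i2)| → i2 ≤ σ1 ∨ σ2 ≤ i1 := by
  have hδ := hG.one
  have hC100 : 100 ≤ C := by omega
  have rC : (100 : ℝ) ≤ C := by exact_mod_cast hC100
  have rΔ : 1000 * (C : ℝ) ≤ Δ := by exact_mod_cast hF.hC
  have rD : (0 : ℝ) ≤ D0 := Nat.cast_nonneg _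
  have rΘ : 1000 * ((Δ : ℝ) + D0) ≤ Θ := by exact_mod_cast hΘ
  have fX : ∀ k, f k ∈ X := fun k => hF.sub (hc.hf k)
  have hbig : ∀ k, s - 2 ≤ k → k ≤ s' + 2 → 10 * (C : ℝ) ≤ |H.Φ (f k) (γ 0) (γ N)| := by
    intro k hk1 hk2
    have a1 := abs_lo (ho.on ka k kb (by omega) (by omega))
    have a2 := (hgood k hk1 hk2).1
    rw [hγ0, hγ1]
    linarith
  obtain ⟨tA, ρA, -, hA1, hA2, -, -, hAe, -, hAn, -⟩ := hl_ee hG H hC (fX (s - 2)) hγ
    (Nat.zero_le N) le_rfl (hbig _ le_rfl (by omega))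
  obtain ⟨ρB, tB, -, hB1, hB2, -, -, -, hBe, hBn, -⟩ := hl_ee hG H hC (fX (s' + 2)) hγ
    (Nat.zero_le N) le_rfl (hbig _ (by omega) le_rfl)
  have nA := hAn tA le_rfl hA1.le
  have nB := hBn tB hB1.le le_rfl
  obtain ⟨sA, hsA, hdA⟩ := hnear (s - 2) le_rfl (by omega) tA (by omega) nA
  obtain ⟨sB, hsB, hdB⟩ := hnear (s' + 2) (by omega) le_rfl tB hB2 nB
  rcases le_total sA sB with hs | hs
  · exact core_fwd hG hC hF hΘ hT hc ho h1 h2 h3 hgood hγ hγ0 hγ1 hη (by omega) hB2 hs hsB hdA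
      hdB nA hAe nB hBe
  · obtain ⟨σ1, σ2, h12, h2M, ha, hb⟩ := core_fwd hG hC hF hΘ hT hc ho h1 h2 h3 hgood hγ hγ0 hγ1
      (hb_rev hG hη) (sA := M - sA) (sB := M - sB) (tA := tA) (tB := tB) (by omega) hB2
      (by omega) (by omega) (by rw [Nat.sub_sub_self hsA]; exact hdA)
      (by rw [Nat.sub_sub_self hsB]; exact hdB) nA hAe nB hBe
    refine ⟨M - σ2, M - σ1, by omega, by omega, ?_, ?_⟩
    · intro k hk1 hk2
      have := ha k hk1 hk2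
      rw [hl_symm H (fX k), abs_neg] at this
      exact this
    · intro g hg i1 i2 hi hi2 hn hΦ
      have := hb g hg (M - i2) (M - i1) (by omega) (by omega) (by
        intro t ht1 ht2
        exact hn (M - t) (by omega) (by omega)) (by
        rw [Nat.sub_sub_self hi2, Nat.sub_sub_self (by omega : i1 ≤ M),
          hl_symm H (hF.sub hg), abs_neg]
        exact hΦ)
      omega

end chain

end

end KD

open KD in
theorem stKD (hTR : StTR) (hDig : StDig) : StKD := by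
  intro G G' _ _ d d' δ C Δ R D0 Θ E X F H Tm π hG hF hcst hQ hΘ hT f1 z1 y1 θ1 f2 z2 y2 θ2
    hc1 ho1 hc2 ho2 ka kb la lb s s' hda hdb h1 h2 h3 hall
  have hδ := hG.one
  have hC := hcst.hC
  have hC100 : 100 ≤ C := by omega
  have rC : (100 : ℝ) ≤ C := by exact_mod_cast hC100
  have rΔ : 1000 * (C : ℝ) ≤ Δ := by exact_mod_cast hF.hC
  have rD : (0 : ℝ) ≤ D0 := Nat.cast_nonneg _
  have rΘ : 1000 * ((Δ : ℝ) + D0) ≤ Θ := by exact_mod_cast hΘ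
  have hgood : ∀ k, s - 2 ≤ k → k ≤ s' + 2 → 5 * (Θ : ℝ) ≤ |θ1 k| ∧
      2 * |θ1 k| + 10 * (Θ : ℝ) ≤ H.T (f1 k) := fun k hk1 hk2 =>
    ⟨(hall k hk1 hk2).1, (hall k hk1 hk2).2.1⟩
  -- weights
  have hW : Wt H F (fun f => H.T f / 2) :=
    { conj := fun f hf g => by rw [H.Tconj f (hF.sub hf)]
      add := fun f hf => by rw [H.Tinv f (hF.sub hf)]; ring
      ge := fun f hf => by
        have := hl_Tpos H (hF.sub hf)
        linarith }
  set K0 : ℝ := (Δ : ℝ) + D0 with hK0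
  have hTm0 : 0 ≤ Tm := by linarith
  have hbT : ∀ f ∈ F, |(fun f => H.T f / 2) f - H.T f / 2| ≤ Tm / 10 := fun f hf => by
    simp only [sub_self, abs_zero]
    linarith
  -- geodesics
  obtain ⟨γ1, g10, g11, hγ1⟩ := exists_geo hG.path (z1 ka) (z1 kb)
  obtain ⟨γ2, g20, g21, hγ2⟩ := exists_geo hG.path (z2 la) (z2 lb)
  set N1 := d (z1 ka) (z1 kb) with hN1
  set N2 := d (z2 la) (z2 lb) with hN2
  have ti1 : Tight H F (fun f => H.T f / 2) (10 * K0) (γ1 0) (γ1 N1) := by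
    intro f hf
    rw [g10, g11]
    exact (le_abs_self _).trans (ho1.tight ka kb f hf)
  have ti2 : Tight H F (fun f => H.T f / 2) (10 * K0) (γ2 0) (γ2 N2) := by
    intro f hf
    rw [g20, g21]
    exact (le_abs_self _).trans (ho2.tight la lb f hf)
  -- existence of tight pairs
  have hEx : ∀ x y, d' (π x) (π y) ≤ E → ∃ k ∈ Subgroup.closure F,
      Tight H F (fun f => H.T f / 2) (10 * K0) x (k * y) := by
    intro x y _
    classical
    have hex : ∃ n, ∃ k ∈ Subgroup.closure F, d x (k * y) = n :=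
      ⟨_, 1, Subgroup.one_mem _, rfl⟩
    obtain ⟨k, hk, hk'⟩ := Nat.find_spec hex
    refine ⟨k, hk, ?_⟩
    have hmin := hl_min hG hF (by linarith : 100 * (C : ℝ) ≤ Tm) (x := x) (y := k * y) (by
      intro k' hk2
      have h4 := Nat.find_min' hex ⟨k' * k, mul_mem hk2 hk, rfl⟩
      rw [hk']
      rw [mul_assoc] at h4
      omega)
    intro f hf
    have := hmin f hf
    linarith
  obtain ⟨κ, hκ, κ2, hκ2, κ3, hκ3, N3, γ3, hγ3, h30, h31, ti3, hcl⟩ := hTR G G' d d' δ C Δ R X F H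
    (fun f => H.T f / 2) (10 * K0) Tm π hG hF (by linarith)
    ⟨hcst.hδ, hcst.hC, hcst.hΔ, hcst.hR, by linarith, by linarith, hcst.hT⟩ hQ hW hbT E hEx N1 N2
    γ1 γ2 hγ1 hγ2 ti1 ti2 (by rw [g10, g20]; exact hda) (by rw [g11, g21]; exact hdb)
  -- the digon
  have hdc := hDig G d δ C Δ R X F H (fun f => H.T f / 2) (fun f => H.T f / 2) (10 * K0 + 7 * Δ) 0
    Tm hG hF ⟨hcst.hδ, hcst.hC, hcst.hΔ, hcst.hR, by linarith, by linarith, hcst.hT⟩ hW hW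
    (fun f _ => by simp) le_rfl (by linarith) N3 N2 γ3 (fun t => κ2 * γ2 t) hγ3
    (hb_smul hG hγ2 κ2) h30 ⟨κ3 * κ2⁻¹, mul_mem hκ3 (inv_mem hκ2), by rw [h31]; group⟩ ti3 (by
      intro f hf
      have hf' : κ2⁻¹ * f * κ2⁻¹⁻¹ ∈ F := hF.conj f hf κ2⁻¹
      have h4 := ti2 _ hf'
      have h44 := H.Tconj f (hF.sub hf) κ2⁻¹
      show H.Φ f (κ2 * γ2 0) (κ2 * γ2 N2) ≤ H.T f / 2 + (10 * K0 + 7 * ↑Δ)
      have h45 : H.Φ (κ2⁻¹ * f * κ2⁻¹⁻¹) (γ2 0) (γ2 N2) ≤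
        H.T (κ2⁻¹ * f * κ2⁻¹⁻¹) / 2 + 10 * K0 := h4
      have h5 := H.equi f (hF.sub hf) κ2⁻¹ (κ2 * γ2 0) (κ2 * γ2 N2)
      rw [inv_mul_cancel_left, inv_mul_cancel_left] at h5
      have h6 := (abs_le.1 h5).1
      linarith)
  -- the core lemma for `κ⁻¹ γ3`
  obtain ⟨σ1, σ2, h12, h2N, hang, hno⟩ := core hG hC hF hΘ hT hc1 ho1 h1 h2 h3 hgood hγ1 g10 g11
    (hb_smul hG hγ3 κ⁻¹) (by
      intro k hk1 hk2 t ht hn
      have h4 : d' (π (γ1 t)) (π (z1 k)) ≤ 1 := by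
        refine (hQ.adj _ _).2 ⟨γ1 t, z1 k, rfl, rfl, Or.inr ⟨f1 k, hc1.hf k, ?_, ?_⟩⟩
        · exact nh_mono (by omega) hn
        · exact ⟨z1 k, hc1.hz k, by rw [hb_self hG]; exact Nat.zero_le _⟩
      obtain ⟨-, -, h5, h6⟩ := hall k hk1 hk2
      have h7 := hQ.path.tri (π (z1 k)) (π (γ1 t)) (π (z1 ka))
      have h8 := hQ.path.tri (π (z1 k)) (π (γ1 t)) (π (z1 kb))
      have h9 := hQ.path.symm (π (z1 k)) (π (γ1 t))
      obtain ⟨u, hu, hdu⟩ := hcl t ht (by rw [g10]; omega) (by rw [g11]; omega)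
      refine ⟨u, hu, ?_⟩
      have h10 := hG.inv κ (γ1 t) (κ⁻¹ * γ3 u)
      rw [mul_inv_cancel_left] at h10
      omega)
  obtain ⟨u, hu, hrun⟩ := dc_run hdc h2N (by
    intro f hf i1 i2 hi hi2 hn hΦ
    have hf' : κ⁻¹ * f * κ⁻¹⁻¹ ∈ F := hF.conj f hf κ⁻¹
    refine hno _ hf' i1 i2 hi hi2 (fun t ht1 ht2 => ?_) ?_
    · obtain ⟨w, hw, hd⟩ := hn t ht1 ht2
      exact ⟨κ⁻¹ * w, (H.Zconj f (hF.sub hf) κ⁻¹ w).2 hw, by rw [hG.inv]; exact hd⟩
    · rw [H.Tconj f (hF.sub hf) κ⁻¹]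
      have h5 := H.equi f (hF.sub hf) κ⁻¹ (γ3 i1) (γ3 i2)
      have h6 := (abs_le.1 h5).1
      have h7 := le_abs_self (H.Φ (κ⁻¹ * f * κ⁻¹⁻¹) (κ⁻¹ * γ3 i1) (κ⁻¹ * γ3 i2))
      linarith) (Nat.zero_le _)
  obtain ⟨t1, ht1, hd1⟩ := hrun σ1 le_rfl h12
  obtain ⟨t2, ht2, hd2⟩ := hrun σ2 h12 le_rfl
  refine ⟨κ⁻¹ * u * κ2, mul_mem (mul_mem (inv_mem hκ) hu) hκ2, fun k hk1 hk2 => ?_⟩
  set v := κ⁻¹ * u * κ2 with hv
  have fX := hF.sub (hc1.hf k)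
  have hg : v⁻¹ * f1 k * v⁻¹⁻¹ ∈ F := hF.conj _ (hc1.hf k) _
  have hgX := hF.sub hg
  -- the angle of `g = v⁻¹ f v` on the second geodesic
  have e1 := hang k hk1 hk2
  have hd1' : (d (κ⁻¹ * γ3 σ1) (v * γ2 t1) : ℝ) ≤ 0 + 2 * (10 * K0 + 7 * Δ) + 25 * Δ := by
    have : v * γ2 t1 = κ⁻¹ * (u * (κ2 * γ2 t1)) := by rw [hv]; group
    rw [this, hG.inv]
    exact hd1
  have hd2' : (d (κ⁻¹ * γ3 σ2) (v * γ2 t2) : ℝ) ≤ 0 + 2 * (10 * K0 + 7 * Δ) + 25 * Δ := by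
    have : v * γ2 t2 = κ⁻¹ * (u * (κ2 * γ2 t2)) := by rw [hv]; group
    rw [this, hG.inv]
    exact hd2
  have e2 := hl_lip2 hG H fX (κ⁻¹ * γ3 σ1) (κ⁻¹ * γ3 σ2) (v * γ2 t1) (v * γ2 t2)
  have e3 : |H.Φ (f1 k) (κ⁻¹ * γ3 σ1) (κ⁻¹ * γ3 σ2)| ≤
      |H.Φ (f1 k) (v * γ2 t1) (v * γ2 t2)| + (40 * K0 + 78 * Δ) := by
    apply abs_hi
    linarith
  have e4 : |H.Φ (f1 k) (v * γ2 t1) (v * γ2 t2)| ≤
      |H.Φ (v⁻¹ * f1 k * v⁻¹⁻¹) (γ2 t1) (γ2 t2)| + C := by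
    have h5 := H.equi (f1 k) fX v⁻¹ (v * γ2 t1) (v * γ2 t2)
    rw [inv_mul_cancel_left, inv_mul_cancel_left, abs_sub_comm] at h5
    exact abs_hi h5
  have e5 := sub_abs hG H hC hgX hγ2 ht1 ht2
  rw [g20, g21] at e5
  have e6 := (hgood k (by omega) (by omega)).1
  have e7 : 4 * (Θ : ℝ) + 20 * K0 + 100 * C ≤ |H.Φ (v⁻¹ * f1 k * v⁻¹⁻¹) (z2 la) (z2 lb)| := by
    linarith
  -- positions in the second chain
  have key : ∀ i j, i ≤ j → |H.Φ (v⁻¹ * f1 k * v⁻¹⁻¹) (z2 i) (z2 j)| =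
      |H.Φ (v⁻¹ * f1 k * v⁻¹⁻¹) (z2 la) (z2 lb)| → ∃ l, i < l ∧ l ≤ j ∧
      4 * (Θ : ℝ) ≤ |θ2 l| ∧ (v⁻¹ * f1 k * v⁻¹⁻¹ = f2 l ∨ v⁻¹ * f1 k * v⁻¹⁻¹ = (f2 l)⁻¹) := by
    intro i j hij he
    rw [← he] at e7
    by_contra hne
    push Not at hne
    have hex : ∃ l, i < l ∧ l ≤ j ∧
        (v⁻¹ * f1 k * v⁻¹⁻¹ = f2 l ∨ v⁻¹ * f1 k * v⁻¹⁻¹ = (f2 l)⁻¹) := by
      by_contra hno
      push Not at hno
      have := ho2.off i j hij _ hg (fun l hl1 hl2 => hno l hl1 hl2)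
      linarith
    obtain ⟨l, hl1, hl2, hl3⟩ := hex
    have a1 := abs_hi (ho2.on i l j hl1 hl2)
    have a2 : |H.Φ (v⁻¹ * f1 k * v⁻¹⁻¹) (z2 i) (z2 j)| ≤ |H.Φ (f2 l) (z2 i) (z2 j)| + C := by
      rcases hl3 with hl3 | hl3
      · rw [hl3]
        linarith
      · have a3 := H.neg (f2 l) (hF.sub (hc2.hf l)) (z2 i) (z2 j)
        rw [← hl3, ← sub_neg_eq_add] at a3
        have a4 := abs_hi a3
        rwa [abs_neg] at a4
    have a3 : 4 * (Θ : ℝ) ≤ |θ2 l| := by linarith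
    have a4 := hne l hl1 hl2 a3
    rcases hl3 with hl3 | hl3
    · exact a4.1 hl3
    · exact a4.2 hl3
  have hfin : ∃ l, min la lb < l ∧ l ≤ max la lb ∧ 4 * (Θ : ℝ) ≤ |θ2 l| ∧
      (v⁻¹ * f1 k * v⁻¹⁻¹ = f2 l ∨ v⁻¹ * f1 k * v⁻¹⁻¹ = (f2 l)⁻¹) := by
    rcases le_total la lb with hl | hl
    · rw [min_eq_left hl, max_eq_right hl]
      exact key la lb hl rfl
    · rw [min_eq_right hl, max_eq_left hl]
      refine key lb la hl ?_
      rw [hl_symm H hgX, abs_neg]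
  obtain ⟨l, hl1, hl2, hl3, hl4⟩ := hfin
  refine ⟨l, hl1, hl2, hl3, ?_⟩
  rcases hl4 with hl4 | hl4
  · left
    rw [← hl4]
    group
  · right
    have : f2 l = (v⁻¹ * f1 k * v⁻¹⁻¹)⁻¹ := by rw [hl4, inv_inv]
    rw [this]
    group

end Pool.Agent.Helper74.TB
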