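import Pool.Agent.Helper74.TB.KAl
import Pool.Agent.Helper74.TB.H

/-! MP_7d16da_al, module KE (helper24): matching of the hubs of two word chains gives matching
exponents. -/

set_option autoImplicit false

namespace Pool.Agent.Helper74.TB

open Pool.Agent.Helper74.MH

namespace KE

/-- increasing case of the choice of a clean run -/
theorem comb_inc (h : ℕ) (hh : 101 < h) (s l0 : ℤ) (lk : ℤ → ℤ) (B : ℤ → Prop)
    (win : ∀ k, s ≤ k → k ≤ s + 100 → l0 < lk k ∧ lk k < l0 + h)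
    (inc : ∀ k, s ≤ k → k + 1 ≤ s + 100 → lk (k + 1) = lk k + 1 ∨
      (lk (k + 1) = lk k + 2 ∧ B (lk k + 1)))
    (uni : ∀ m m', l0 < m → m < l0 + h → l0 < m' → m' < l0 + h → B m → B m' → m = m') :
    ∃ p, s ≤ p ∧ p + 5 ≤ s + 100 ∧ (∀ i, 0 ≤ i → i ≤ 5 → lk (p + i) = lk p + i) ∧
      ∀ i, 0 ≤ i → i ≤ 5 → ¬ (h : ℤ) ∣ p + i ∧ ¬ (h : ℤ) ∣ lk (p + i) := by
  have mono : ∀ j : ℕ, ∀ k, s ≤ k → k + j ≤ s + 100 → lk k + j ≤ lk (k + j) := by
    intro j
    induction j with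
    | zero => intro k _ _; simp
    | succ j ih =>
      intro k h1 h2
      push_cast at h2 ⊢
      have h3 := ih k h1 (by omega)
      have h4 := inc (k + j) (by omega) (by omega)
      rw [show k + ((j : ℤ) + 1) = k + j + 1 by ring]
      rcases h4 with h4 | ⟨h4, -⟩ <;> omega
  have mono' : ∀ k k', s ≤ k → k ≤ k' → k' ≤ s + 100 → lk k + (k' - k) ≤ lk k' := by
    intro k k' h1 h2 h3
    have h4 := mono (k' - k).toNat k h1 (by omega)
    have e : ((k' - k).toNat : ℤ) = k' - k := Int.toNat_of_nonneg (by omega)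
    rw [e] at h4
    rw [show k + (k' - k) = k' by ring] at h4
    exact h4
  -- the three kinds of bad indices are unique
  have u1 : ∀ k k', s ≤ k → k ≤ s + 100 → s ≤ k' → k' ≤ s + 100 → (h : ℤ) ∣ k → (h : ℤ) ∣ k' →
      k = k' := by
    intro k k' _ _ _ _ h5 h6
    have h7 : (h : ℤ) ∣ k - k' := dvd_sub h5 h6
    have h8 : k - k' = 0 := by
      apply Int.eq_zero_of_abs_lt_dvd h7
      rw [abs_lt]
      constructor <;> omega
    omega
  have u2 : ∀ k k', s ≤ k → k ≤ s + 100 → s ≤ k' → k' ≤ s + 100 → (h : ℤ) ∣ lk k →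
      (h : ℤ) ∣ lk k' → k = k' := by
    intro k k' h1 h2 h3 h4 h5 h6
    have h7 : (h : ℤ) ∣ lk k - lk k' := dvd_sub h5 h6
    have w1 := win k h1 h2
    have w2 := win k' h3 h4
    have h8 : lk k - lk k' = 0 := by
      apply Int.eq_zero_of_abs_lt_dvd h7
      rw [abs_lt]
      constructor <;> omega
    rcases lt_trichotomy k k' with h9 | h9 | h9
    · have := mono' k k' h1 h9.le h4
      omega
    · exact h9
    · have := mono' k' k h3 h9.le h2
      omega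
  have u3 : ∀ k k', s ≤ k → k + 1 ≤ s + 100 → s ≤ k' → k' + 1 ≤ s + 100 →
      (lk (k + 1) = lk k + 2 ∧ B (lk k + 1)) → (lk (k' + 1) = lk k' + 2 ∧ B (lk k' + 1)) →
      k = k' := by
    intro k k' h1 h2 h3 h4 h5 h6
    have w1 := win k h1 (by omega)
    have w1' := win (k + 1) (by omega) (by omega)
    have w2 := win k' h3 (by omega)
    have w2' := win (k' + 1) (by omega) (by omega)
    have h7 := uni (lk k + 1) (lk k' + 1) (by omega) (by omega) (by omega) (by omega) h5.2 h6.2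
    rcases lt_trichotomy k k' with h9 | h9 | h9
    · have := mono' k k' h1 h9.le (by omega)
      omega
    · exact h9
    · have := mono' k' k h3 h9.le (by omega)
      omega
  -- a block without bad indices
  have blk : ∃ p, s ≤ p ∧ p + 5 ≤ s + 30 ∧ ∀ k, p ≤ k → k ≤ p + 5 → ¬ (h : ℤ) ∣ k ∧
      ¬ (h : ℤ) ∣ lk k ∧ ¬ (lk (k + 1) = lk k + 2 ∧ B (lk k + 1)) := by
    by_contra hcon
    push Not at hcon
    have bad : ∀ p, s ≤ p → p + 5 ≤ s + 30 → ∃ k, p ≤ k ∧ k ≤ p + 5 ∧ ((h : ℤ) ∣ k ∨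
        (h : ℤ) ∣ lk k ∨ (lk (k + 1) = lk k + 2 ∧ B (lk k + 1))) := by
      intro p h1 h2
      obtain ⟨k, h3, h4, h5⟩ := hcon p h1 h2
      refine ⟨k, h3, h4, ?_⟩
      by_cases c1 : (h : ℤ) ∣ k
      · exact Or.inl c1
      · by_cases c2 : (h : ℤ) ∣ lk k
        · exact Or.inr (Or.inl c2)
        · exact Or.inr (Or.inr (h5 c1 c2))
    obtain ⟨k0, a0, b0, c0⟩ := bad s (by omega) (by omega)
    obtain ⟨k1, a1, b1, c1⟩ := bad (s + 6) (by omega) (by omega)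
    obtain ⟨k2, a2, b2, c2⟩ := bad (s + 12) (by omega) (by omega)
    obtain ⟨k3, a3, b3, c3⟩ := bad (s + 18) (by omega) (by omega)
    have n01 : k0 ≠ k1 := by omega
    have n02 : k0 ≠ k2 := by omega
    have n03 : k0 ≠ k3 := by omega
    have n12 : k1 ≠ k2 := by omega
    have n13 : k1 ≠ k3 := by omega
    have n23 : k2 ≠ k3 := by omega
    have v1 : ∀ k k', s ≤ k → k + 1 ≤ s + 100 → s ≤ k' → k' + 1 ≤ s + 100 → k ≠ k' →
      (h : ℤ) ∣ k → ¬ (h : ℤ) ∣ k' := fun k k' h1 h2 h3 h4 hn h5 h6 =>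
        hn (u1 k k' h1 (by omega) h3 (by omega) h5 h6)
    have v2 : ∀ k k', s ≤ k → k + 1 ≤ s + 100 → s ≤ k' → k' + 1 ≤ s + 100 → k ≠ k' →
      (h : ℤ) ∣ lk k → ¬ (h : ℤ) ∣ lk k' := fun k k' h1 h2 h3 h4 hn h5 h6 =>
        hn (u2 k k' h1 (by omega) h3 (by omega) h5 h6)
    have v3 : ∀ k k', s ≤ k → k + 1 ≤ s + 100 → s ≤ k' → k' + 1 ≤ s + 100 → k ≠ k' →
      (lk (k + 1) = lk k + 2 ∧ B (lk k + 1)) → ¬ (lk (k' + 1) = lk k' + 2 ∧ B (lk k' + 1)) :=
        fun k k' h1 h2 h3 h4 hn h5 h6 => hn (u3 k k' h1 h2 h3 h4 h5 h6)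
    have r0 : s ≤ k0 ∧ k0 + 1 ≤ s + 100 := by omega
    have r1 : s ≤ k1 ∧ k1 + 1 ≤ s + 100 := by omega
    have r2 : s ≤ k2 ∧ k2 + 1 ≤ s + 100 := by omega
    have r3 : s ≤ k3 ∧ k3 + 1 ≤ s + 100 := by omega
    rcases c0 with c0 | c0 | c0 <;> rcases c1 with c1 | c1 | c1 <;>
      rcases c2 with c2 | c2 | c2 <;> rcases c3 with c3 | c3 | c3 <;>
    first
      | exact v1 k0 k1 r0.1 r0.2 r1.1 r1.2 n01 c0 c1
      | exact v1 k0 k2 r0.1 r0.2 r2.1 r2.2 n02 c0 c2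
      | exact v1 k0 k3 r0.1 r0.2 r3.1 r3.2 n03 c0 c3
      | exact v1 k1 k2 r1.1 r1.2 r2.1 r2.2 n12 c1 c2
      | exact v1 k1 k3 r1.1 r1.2 r3.1 r3.2 n13 c1 c3
      | exact v1 k2 k3 r2.1 r2.2 r3.1 r3.2 n23 c2 c3
      | exact v2 k0 k1 r0.1 r0.2 r1.1 r1.2 n01 c0 c1
      | exact v2 k0 k2 r0.1 r0.2 r2.1 r2.2 n02 c0 c2
      | exact v2 k0 k3 r0.1 r0.2 r3.1 r3.2 n03 c0 c3
      | exact v2 k1 k2 r1.1 r1.2 r2.1 r2.2 n12 c1 c2
      | exact v2 k1 k3 r1.1 r1.2 r3.1 r3.2 n13 c1 c3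
      | exact v2 k2 k3 r2.1 r2.2 r3.1 r3.2 n23 c2 c3
      | exact v3 k0 k1 r0.1 r0.2 r1.1 r1.2 n01 c0 c1
      | exact v3 k0 k2 r0.1 r0.2 r2.1 r2.2 n02 c0 c2
      | exact v3 k0 k3 r0.1 r0.2 r3.1 r3.2 n03 c0 c3
      | exact v3 k1 k2 r1.1 r1.2 r2.1 r2.2 n12 c1 c2
      | exact v3 k1 k3 r1.1 r1.2 r3.1 r3.2 n13 c1 c3
      | exact v3 k2 k3 r2.1 r2.2 r3.1 r3.2 n23 c2 c3
  obtain ⟨p, p1, p2, hp⟩ := blk
  have st : ∀ k, p ≤ k → k ≤ p + 5 → lk (k + 1) = lk k + 1 := by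
    intro k h1 h2
    rcases inc k (by omega) (by omega) with h3 | h3
    · exact h3
    · exact absurd h3 (hp k h1 h2).2.2
  refine ⟨p, p1, by omega, ?_, ?_⟩
  · intro i h1 h2
    have e0 := st p (by omega) (by omega)
    have e1 := st (p + 1) (by omega) (by omega)
    have e2 := st (p + 1 + 1) (by omega) (by omega)
    have e3 := st (p + 1 + 1 + 1) (by omega) (by omega)
    have e4 := st (p + 1 + 1 + 1 + 1) (by omega) (by omega)
    have hi : i = 0 ∨ i = 1 ∨ i = 2 ∨ i = 3 ∨ i = 4 ∨ i = 5 := by omega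
    rcases hi with rfl | rfl | rfl | rfl | rfl | rfl
    · simp
    · exact e0
    · rw [show p + 2 = p + 1 + 1 by ring]; omega
    · rw [show p + 3 = p + 1 + 1 + 1 by ring]; omega
    · rw [show p + 4 = p + 1 + 1 + 1 + 1 by ring]; omega
    · rw [show p + 5 = p + 1 + 1 + 1 + 1 + 1 by ring]; omega
  · intro i h1 h2
    have := hp (p + i) (by omega) (by omega)
    exact ⟨this.1, this.2.1⟩

/-- the choice of a clean run -/
theorem comb (h : ℕ) (hh : 101 < h) (s l0 : ℤ) (lk : ℤ → ℤ) (B : ℤ → Prop)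
    (win : ∀ k, s ≤ k → k ≤ s + 100 → l0 < lk k ∧ lk k < l0 + h ∧ ¬ B (lk k))
    (inj : ∀ k k', s ≤ k → k ≤ s + 100 → s ≤ k' → k' ≤ s + 100 → lk k = lk k' → k = k')
    (mid : ∀ k, s ≤ k → k + 1 ≤ s + 100 → ∀ m, (lk k < m ∧ m < lk (k + 1)) ∨
      (lk (k + 1) < m ∧ m < lk k) → B m)
    (iso : ∀ m, ¬ (B m ∧ B (m + 1)))
    (uni : ∀ m m', l0 < m → m < l0 + h → l0 < m' → m' < l0 + h → B m → B m' → m = m') :
    ∃ p σ, s ≤ p ∧ p + 5 ≤ s + 100 ∧ (σ = 1 ∨ σ = -1) ∧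
      (∀ i, 0 ≤ i → i ≤ 5 → lk (p + i) = lk p + σ * i) ∧
      ∀ i, 0 ≤ i → i ≤ 5 → ¬ (h : ℤ) ∣ p + i ∧ ¬ (h : ℤ) ∣ lk (p + i) := by
  -- steps
  have step : ∀ k, s ≤ k → k + 1 ≤ s + 100 →
      (lk (k + 1) = lk k + 1 ∨ (lk (k + 1) = lk k + 2 ∧ B (lk k + 1))) ∨
      (lk (k + 1) = lk k - 1 ∨ (lk (k + 1) = lk k - 2 ∧ B (lk k - 1))) := by
    intro k h1 h2
    have hne : lk k ≠ lk (k + 1) := fun he => by
      have := inj k (k + 1) h1 (by omega) (by omega) h2 he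
      omega
    have hm := mid k h1 h2
    rcases lt_or_gt_of_ne hne with hlt | hlt
    · left
      by_cases c1 : lk (k + 1) = lk k + 1
      · exact Or.inl c1
      · by_cases c2 : lk (k + 1) = lk k + 2
        · exact Or.inr ⟨c2, hm _ (Or.inl (by omega))⟩
        · exact absurd ⟨hm (lk k + 1) (Or.inl (by omega)), hm (lk k + 1 + 1) (Or.inl (by omega))⟩
            (iso _)
    · right
      by_cases c1 : lk (k + 1) = lk k - 1
      · exact Or.inl c1
      · by_cases c2 : lk (k + 1) = lk k - 2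
        · exact Or.inr ⟨c2, hm _ (Or.inr (by omega))⟩
        · exact absurd ⟨hm (lk (k + 1) + 1) (Or.inr (by omega)),
            hm (lk (k + 1) + 1 + 1) (Or.inr (by omega))⟩ (iso _)
  have turn1 : ∀ k, s ≤ k → k + 1 + 1 ≤ s + 100 → lk k < lk (k + 1) →
      lk (k + 1) < lk (k + 1 + 1) := by
    intro k h1 h2 h3
    have s1 := step k h1 (by omega)
    have s2 := step (k + 1) (by omega) h2
    have n0 := (win k h1 (by omega)).2.2
    have n2 := (win (k + 1 + 1) (by omega) h2).2.2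
    have i02 : lk k ≠ lk (k + 1 + 1) := fun he => by
      have := inj k (k + 1 + 1) h1 (by omega) (by omega) h2 he
      omega
    rcases s1 with (s1 | ⟨s1, b1⟩) | (s1 | ⟨s1, b1⟩) <;>
      rcases s2 with (s2 | ⟨s2, b2⟩) | (s2 | ⟨s2, b2⟩)
    all_goals first
      | omega
      | (exfalso; apply n0; rw [show lk k = lk (k + 1) - 1 by omega]; exact b2)
      | (exfalso; apply n2; rw [show lk (k + 1 + 1) = lk k + 1 by omega]; exact b1)
  have turn2 : ∀ k, s ≤ k → k + 1 + 1 ≤ s + 100 → lk (k + 1) < lk k →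
      lk (k + 1 + 1) < lk (k + 1) := by
    intro k h1 h2 h3
    have s1 := step k h1 (by omega)
    have s2 := step (k + 1) (by omega) h2
    have n0 := (win k h1 (by omega)).2.2
    have n2 := (win (k + 1 + 1) (by omega) h2).2.2
    have i02 : lk k ≠ lk (k + 1 + 1) := fun he => by
      have := inj k (k + 1 + 1) h1 (by omega) (by omega) h2 he
      omega
    rcases s1 with (s1 | ⟨s1, b1⟩) | (s1 | ⟨s1, b1⟩) <;>
      rcases s2 with (s2 | ⟨s2, b2⟩) | (s2 | ⟨s2, b2⟩)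
    all_goals first
      | omega
      | (exfalso; apply n0; rw [show lk k = lk (k + 1) + 1 by omega]; exact b2)
      | (exfalso; apply n2; rw [show lk (k + 1 + 1) = lk k - 1 by omega]; exact b1)
  have hne0 : lk s ≠ lk (s + 1) := fun he => by
    have := inj s (s + 1) (by omega) (by omega) (by omega) (by omega) he
    omega
  rcases lt_or_gt_of_ne hne0 with hlt | hlt
  · have dir : ∀ j : ℕ, s + j + 1 ≤ s + 100 → lk (s + j) < lk (s + j + 1) := by
      intro j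
      induction j with
      | zero => intro _; simpa using hlt
      | succ j ih =>
        intro h1
        push_cast at h1 ⊢
        have := turn1 (s + j) (by omega) (by omega) (ih (by omega))
        rw [← add_assoc]
        exact this
    obtain ⟨p, p1, p2, p3, p4⟩ := comb_inc h hh s l0 lk B (fun k h1 h2 =>
      ⟨(win k h1 h2).1, (win k h1 h2).2.1⟩) (by
        intro k h1 h2
        have hd := dir (k - s).toNat (by omega)
        rw [show s + ((k - s).toNat : ℤ) = k by omega] at hd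
        rcases step k h1 h2 with h3 | h3
        · exact h3
        · rcases h3 with h3 | ⟨h3, -⟩ <;> omega) uni
    exact ⟨p, 1, p1, p2, Or.inl rfl, fun i h1 h2 => by rw [one_mul]; exact p3 i h1 h2, p4⟩
  · have dir : ∀ j : ℕ, s + j + 1 ≤ s + 100 → lk (s + j + 1) < lk (s + j) := by
      intro j
      induction j with
      | zero => intro _; simpa using hlt
      | succ j ih =>
        intro h1
        push_cast at h1 ⊢
        have := turn2 (s + j) (by omega) (by omega) (ih (by omega))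
        rw [← add_assoc]
        exact this
    obtain ⟨p, p1, p2, p3, p4⟩ := comb_inc h hh s (-(l0 + h)) (fun k => -lk k) (fun m => B (-m))
      (fun k h1 h2 => by
        have := win k h1 h2
        constructor <;> omega) (by
        intro k h1 h2
        have hd := dir (k - s).toNat (by omega)
        rw [show s + ((k - s).toNat : ℤ) = k by omega] at hd
        rcases step k h1 h2 with h3 | h3
        · rcases h3 with h3 | ⟨h3, -⟩ <;> omega
        · rcases h3 with h3 | ⟨h3, h4⟩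
          · left; omega
          · right
            refine ⟨by omega, ?_⟩
            rw [show -(-lk k + 1) = lk k - 1 by ring]
            exact h4) (by
        intro m m' h1 h2 h3 h4 h5 h6
        have := uni (-m) (-m') (by omega) (by omega) (by omega) (by omega) h5 h6
        omega)
    refine ⟨p, -1, p1, p2, Or.inr rfl, fun i h1 h2 => ?_, fun i h1 h2 => ?_⟩
    · have := p3 i h1 h2
      linarith
    · have := p4 i h1 h2
      refine ⟨this.1, fun hd => this.2 ?_⟩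
      exact (Int.dvd_neg).2 hd


/-! ### arithmetic -/

theorem b_mod {b : ℤ → ℤ} {h : ℕ} (bp : ∀ k, b (k + h) = b k) (k : ℤ) : b (k % h) = b k := by
  have hper : Function.Periodic b (h : ℤ) := bp
  have h1 := hper.int_mul (k / h) (k % h)
  rw [← h1]
  congr 1
  have := Int.emod_add_mul_ediv k h
  rw [mul_comm] at this
  exact this

theorem mod_succ {h : ℕ} (hh : 0 < h) {k : ℤ} (hk : ¬ (h : ℤ) ∣ k + 1) :
    ((k + 1) % h).toNat = (k % h).toNat + 1 ∧ (k % h).toNat + 1 < h := by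
  have h0 : (0 : ℤ) < h := by exact_mod_cast hh
  have h1 := Int.emod_nonneg k h0.ne'
  have h2 := Int.emod_lt_of_pos k h0
  have h3 := Int.emod_add_mul_ediv k h
  have h4 : k % h + 1 ≠ h := by
    intro e
    apply hk
    refine ⟨k / h + 1, ?_⟩
    rw [mul_add, mul_one]
    linarith
  have h5 : (k + 1) % h = k % h + 1 := by
    have e : k + 1 = (k % h + 1) + h * (k / h) := by linarith
    rw [e, Int.add_mul_emod_self_left]
    exact Int.emod_eq_of_lt (by omega) (by omega)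
  rw [h5]
  constructor <;> omega

/-- difference of consecutive exponents modulo `n` -/
theorem b_diff {b : ℤ → ℤ} {n h M0 lam : ℕ} {a : ℤ} (hh : 0 < h) (bp : ∀ k, b (k + h) = b k)
    (be : ∀ k : ℕ, k < h → (n : ℤ) ∣ b k - a * ((M0 : ℤ) * (lam : ℤ) ^ k)) {k : ℤ}
    (hk : ¬ (h : ℤ) ∣ k + 1) :
    (n : ℤ) ∣ (b (k + 1) - b k) - (M0 : ℤ) * (lam - 1) * (a * (lam : ℤ) ^ (k % h).toNat) := by
  obtain ⟨h1, h2⟩ := mod_succ hh hk
  have h0 : (0 : ℤ) < h := by exact_mod_cast hh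
  have e1 := be ((k + 1) % h).toNat (by omega)
  have e2 := be (k % h).toNat (by omega)
  rw [Int.toNat_of_nonneg (Int.emod_nonneg _ h0.ne'), b_mod bp] at e1 e2
  rw [h1] at e1
  have e3 := dvd_sub e1 e2
  have e4 : b (k + 1) - a * ((M0 : ℤ) * (lam : ℤ) ^ ((k % h).toNat + 1)) -
      (b k - a * ((M0 : ℤ) * (lam : ℤ) ^ (k % h).toNat)) =
      (b (k + 1) - b k) - (M0 : ℤ) * (lam - 1) * (a * (lam : ℤ) ^ (k % h).toNat) := by
    rw [pow_succ]; ring
  rw [e4] at e3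
  exact e3

theorem arith_lt {lam km : ℕ} {a1 a2 δ : ℤ} {j j' : ℕ} (hlam : km + 2 ≤ lam)
    (hδ : δ = 1 ∨ δ = -1) (h1' : |a1| ≤ km) (h2 : a2 ≠ 0)
    (he : a1 * (lam : ℤ) ^ j = δ * (a2 * (lam : ℤ) ^ j')) (hlt : j < j') : False := by
  obtain ⟨m, rfl⟩ := Nat.exists_eq_add_of_lt hlt
  have hl : (0 : ℤ) < (lam : ℤ) ^ j := by
    have : (0 : ℤ) < lam := by omega
    positivity
  have h3 : a1 = δ * (a2 * (lam : ℤ) ^ (m + 1)) := by
    have e : a1 * (lam : ℤ) ^ j = (δ * (a2 * (lam : ℤ) ^ (m + 1))) * (lam : ℤ) ^ j := by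
      rw [he, show j + m + 1 = (m + 1) + j by ring, pow_add]; ring
    exact mul_right_cancel₀ hl.ne' e
  have hδ1 : |δ| = 1 := by rcases hδ with rfl | rfl <;> simp
  have h4 : |a1| = |a2| * (lam : ℤ) ^ (m + 1) := by
    rw [h3, abs_mul, abs_mul, hδ1, one_mul, abs_of_nonneg (a := (lam : ℤ) ^ (m + 1))
      (by positivity)]
  have h5 : (1 : ℤ) ≤ |a2| := Int.one_le_abs h2
  have h6 : (lam : ℤ) ≤ (lam : ℤ) ^ (m + 1) := by
    rw [pow_succ]
    have : (1 : ℤ) ≤ (lam : ℤ) ^ m := one_le_pow₀ (by omega)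
    nlinarith
  have h7 : (lam : ℤ) ≤ |a1| := by
    rw [h4]
    nlinarith
  omega

theorem arith {n M0 lam km h : ℕ} {a1 a2 δ N : ℤ} {j j' : ℕ} (hn : 8 * km * M0 * lam ^ h ≤ n)
    (hk : 1 ≤ km) (hlam : km + 2 ≤ lam) (hM : 2 * |N| < M0) (hδ : δ = 1 ∨ δ = -1)
    (h1 : a1 ≠ 0) (h1' : |a1| ≤ km) (h2 : a2 ≠ 0) (h2' : |a2| ≤ km) (hj : j < h) (hj' : j' < h)
    (hd : (n : ℤ) ∣ N - (M0 : ℤ) * (lam - 1) * (a1 * (lam : ℤ) ^ j -
      δ * (a2 * (lam : ℤ) ^ j'))) : j = j' ∧ a1 = δ * a2 := by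
  have hδ1 : |δ| = 1 := by rcases hδ with rfl | rfl <;> simp
  set E : ℤ := a1 * (lam : ℤ) ^ j - δ * (a2 * (lam : ℤ) ^ j') with hE
  set P : ℤ := (lam : ℤ) ^ (h - 1) with hP
  have hl1 : (1 : ℤ) ≤ lam := by omega
  have hP1 : (1 : ℤ) ≤ P := one_le_pow₀ hl1
  have p1 : (lam : ℤ) ^ j ≤ P := pow_le_pow_right₀ hl1 (by omega)
  have p2 : (lam : ℤ) ^ j' ≤ P := pow_le_pow_right₀ hl1 (by omega)
  have hPl : (lam : ℤ) * P = (lam : ℤ) ^ h := by
    rw [hP, ← pow_succ']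
    congr 1
    omega
  have hE1 : |E| ≤ 2 * (km * P) := by
    have e1 : |a1 * (lam : ℤ) ^ j| ≤ km * P := by
      rw [abs_mul, abs_of_nonneg (a := (lam : ℤ) ^ j) (by positivity)]
      exact mul_le_mul h1' p1 (by positivity) (by positivity)
    have e2 : |δ * (a2 * (lam : ℤ) ^ j')| ≤ km * P := by
      rw [abs_mul, abs_mul, hδ1, one_mul, abs_of_nonneg (a := (lam : ℤ) ^ j') (by positivity)]
      exact mul_le_mul h2' p2 (by positivity) (by positivity)
    have e3 := abs_sub (a1 * (lam : ℤ) ^ j) (δ * (a2 * (lam : ℤ) ^ j'))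
    linarith
  have hM0 : (0 : ℤ) < M0 := by
    have := abs_nonneg N
    omega
  have hlm : (0 : ℤ) < (lam : ℤ) - 1 := by omega
  have hn' : 8 * ((km : ℤ) * M0 * (lam : ℤ) ^ h) ≤ n := by
    have : ((8 * km * M0 * lam ^ h : ℕ) : ℤ) ≤ n := by exact_mod_cast hn
    push_cast at this
    linarith
  have hD : |(M0 : ℤ) * (lam - 1) * E| ≤ 2 * ((km : ℤ) * M0 * (lam : ℤ) ^ h) := by
    rw [abs_mul, abs_mul, abs_of_pos hM0, abs_of_pos hlm]
    calc (M0 : ℤ) * ((lam : ℤ) - 1) * |E| ≤ (M0 : ℤ) * (lam : ℤ) * (2 * (km * P)) := by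
          apply mul_le_mul _ hE1 (abs_nonneg _) (by positivity)
          apply mul_le_mul_of_nonneg_left _ hM0.le
          omega
      _ = 2 * ((km : ℤ) * M0 * (lam * P)) := by ring
      _ = 2 * ((km : ℤ) * M0 * (lam : ℤ) ^ h) := by rw [hPl]
  have hbig : (M0 : ℤ) ≤ (km : ℤ) * M0 * (lam : ℤ) ^ h := by
    have e1 : (1 : ℤ) ≤ (lam : ℤ) ^ h := one_le_pow₀ hl1
    have e2 : (1 : ℤ) ≤ km := by exact_mod_cast hk
    have e3 : (M0 : ℤ) ≤ (km : ℤ) * M0 := by nlinarith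
    nlinarith
  have hz : N - (M0 : ℤ) * (lam - 1) * E = 0 := by
    apply Int.eq_zero_of_abs_lt_dvd hd
    have e1 := abs_sub N ((M0 : ℤ) * (lam - 1) * E)
    linarith [abs_nonneg N]
  have hE0 : E = 0 := by
    by_contra hne
    have e1 : (1 : ℤ) ≤ |E| := Int.one_le_abs hne
    have e2 : |N| = (M0 : ℤ) * ((lam : ℤ) - 1) * |E| := by
      rw [show N = (M0 : ℤ) * (lam - 1) * E by linarith, abs_mul, abs_mul, abs_of_pos hM0,
        abs_of_pos hlm]
    have e3 : (M0 : ℤ) ≤ (M0 : ℤ) * ((lam : ℤ) - 1) := by nlinarith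
    have e4 : (M0 : ℤ) ≤ |N| := by
      rw [e2]
      nlinarith
    linarith [abs_nonneg N]
  have he : a1 * (lam : ℤ) ^ j = δ * (a2 * (lam : ℤ) ^ j') := by linarith
  have he' : a2 * (lam : ℤ) ^ j' = δ * (a1 * (lam : ℤ) ^ j) := by
    rcases hδ with rfl | rfl <;> linarith
  have hjj : j = j' := by
    rcases lt_trichotomy j j' with h3 | h3 | h3
    · exact (arith_lt hlam hδ h1' h2 he h3).elim
    · exact h3
    · exact (arith_lt hlam hδ h2' h1 he' h3).elim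
  refine ⟨hjj, ?_⟩
  subst hjj
  have hl : (0 : ℤ) < (lam : ℤ) ^ j := by positivity
  have e : a1 * (lam : ℤ) ^ j = (δ * a2) * (lam : ℤ) ^ j := by rw [he]; ring
  exact mul_right_cancel₀ hl.ne' e


/-! ### hubs -/

section hubs

variable {G : Type} [Group G] {d : G → G → ℕ} {C Δ D0 : ℕ} {X F : Set G} {Tm : ℝ}

theorem phi_pm (H : Hubs d X C) {f f' : G} {ε : ℤ} (hf' : f' ∈ X) (hε : ε = 1 ∨ ε = -1)
    (he : f = f' ^ ε) (a b : G) :
    |H.Φ f a b - ε * H.Φ f' a b| ≤ C ∧ H.Z f = H.Z f' ∧ H.T f = H.T f' := by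
  have hC : (0 : ℝ) ≤ C := Nat.cast_nonneg C
  rcases hε with rfl | rfl
  · rw [zpow_one] at he
    subst he
    refine ⟨?_, rfl, rfl⟩
    push_cast
    rw [one_mul, sub_self, abs_zero]
    exact hC
  · rw [zpow_neg_one] at he
    subst he
    refine ⟨?_, H.Zinv f' hf', H.Tinv f' hf'⟩
    have h1 := H.neg f' hf' a b
    push_cast
    rw [neg_one_mul, sub_neg_eq_add]
    exact h1

theorem angle (H : Hubs d X C) (hFX : F ⊆ X) {f1 z1 f2 z2 : ℤ → G} {θ1 θ2 : ℤ → ℝ}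
    (o1 : HOut H F Δ D0 f1 z1 θ1) (o2 : HOut H F Δ D0 f2 z2 θ2) (hf2 : ∀ k, f2 k ∈ F)
    (hz : ∀ k, z1 k ∈ H.Z (f1 k)) {ε σ : ℤ} (hε : ε = 1 ∨ ε = -1) (hσ : σ = 1 ∨ σ = -1)
    {k l : ℤ} (h0 : f1 (k - 1) = f2 (l - σ) ^ ε) (h1 : f1 k = f2 l ^ ε)
    (h2 : f1 (k + 1) = f2 (l + σ) ^ ε) :
    |θ1 k - ((ε * σ : ℤ) : ℝ) * θ2 l| ≤ 20 * ((Δ : ℝ) + D0) + C := by
  have ha := hz (k - 1)
  have hb := hz (k + 1)
  have q1 := o1.btw (k - 1) k (k + 1) (by omega) (by omega) _ ha _ hb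
  have ea := (phi_pm H (hFX (hf2 _)) hε h0 1 1).2.1
  have eb := (phi_pm H (hFX (hf2 _)) hε h2 1 1).2.1
  have q3 := (phi_pm H (hFX (hf2 _)) hε h1 (z1 (k - 1)) (z1 (k + 1))).1
  rw [ea] at ha
  rw [eb] at hb
  rcases hσ with rfl | rfl
  · have q2 := o2.btw (l - 1) l (l + 1) (by omega) (by omega) _ ha _ hb
    rcases hε with rfl | rfl
    · push_cast at q3 ⊢
      rw [abs_le] at q1 q2 q3 ⊢
      constructor <;> linarith [q1.1, q1.2, q2.1, q2.2, q3.1, q3.2]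
    · push_cast at q3 ⊢
      rw [abs_le] at q1 q2 q3 ⊢
      constructor <;> linarith [q1.1, q1.2, q2.1, q2.2, q3.1, q3.2]
  · rw [show l - -1 = l + 1 by ring] at ha
    rw [show l + -1 = l - 1 by ring] at hb
    have q2 := o2.btw (l - 1) l (l + 1) (by omega) (by omega) _ hb _ ha
    rw [hl_symm H (hFX (hf2 l))] at q2
    rcases hε with rfl | rfl
    · push_cast at q3 ⊢
      rw [abs_le] at q1 q2 q3 ⊢
      constructor <;> linarith [q1.1, q1.2, q2.1, q2.2, q3.1, q3.2]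
    · push_cast at q3 ⊢
      rw [abs_le] at q1 q2 q3 ⊢
      constructor <;> linarith [q1.1, q1.2, q2.1, q2.2, q3.1, q3.2]

theorem conj_contra {f ρ A B A' B' : G} (h1 : A * ρ * A⁻¹ = B * f * B⁻¹)
    (h2 : A' * ρ * A'⁻¹ = (B' * f * B'⁻¹)⁻¹) : ∃ t, t * f * t⁻¹ = f⁻¹ := by
  have hρ : ρ = A⁻¹ * (B * f * B⁻¹) * A := by rw [← h1]; group
  refine ⟨B'⁻¹ * A' * A⁻¹ * B, ?_⟩
  calc B'⁻¹ * A' * A⁻¹ * B * f * (B'⁻¹ * A' * A⁻¹ * B)⁻¹
      = B'⁻¹ * (A' * (A⁻¹ * (B * f * B⁻¹) * A) * A'⁻¹) * B' := by group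
    _ = B'⁻¹ * (A' * ρ * A'⁻¹) * B' := by rw [← hρ]
    _ = B'⁻¹ * (B' * f * B'⁻¹)⁻¹ * B' := by rw [h2]
    _ = f⁻¹ := by group

end hubs

/-- from the real bound to the integer bound -/
theorem small {n q Θ M0 W C : ℕ} {T e : ℝ} {N : ℤ} (hn : 0 < n) (hT : 0 < T)
    (hq : (n : ℝ) ≤ q * T) (hq1 : 1 ≤ q) (he : e ≤ 21 * (W : ℝ)) (hW : 10 ^ 3 * W ≤ Θ)
    (hW1 : 1 ≤ W) (hM0 : 10 * q * Θ ≤ M0) (hN : |(N : ℝ)| * (T / n) ≤ 2 * e) :
    2 * |N| < M0 := by
  have _ := C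
  have hn' : (0 : ℝ) < n := by exact_mod_cast hn
  have h1 : |(N : ℝ)| * T ≤ 2 * e * n := by
    rw [mul_div_assoc', div_le_iff₀ hn'] at hN
    exact hN
  have he0 : 0 ≤ e := by
    have : 0 ≤ |(N : ℝ)| * (T / n) := by positivity
    linarith
  have h2 : |(N : ℝ)| * T ≤ (2 * e * q) * T := by
    calc |(N : ℝ)| * T ≤ 2 * e * n := h1
      _ ≤ 2 * e * (q * T) := by apply mul_le_mul_of_nonneg_left hq; positivity
      _ = (2 * e * q) * T := by ring
  have h3 : |(N : ℝ)| ≤ 2 * e * q := le_of_mul_le_mul_right h2 hT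
  have h4 : |(N : ℝ)| ≤ 42 * (W : ℝ) * q := by
    have : (0 : ℝ) ≤ q := Nat.cast_nonneg q
    nlinarith
  have h5 : (10 : ℝ) ^ 4 * q * W ≤ M0 := by
    have e1 : 10 * q * (10 ^ 3 * W) ≤ 10 * q * Θ := Nat.mul_le_mul_left _ hW
    have e2 : 10 ^ 4 * q * W ≤ M0 := by
      calc 10 ^ 4 * q * W = 10 * q * (10 ^ 3 * W) := by ring
        _ ≤ 10 * q * Θ := e1
        _ ≤ M0 := hM0
    exact_mod_cast e2
  have h6 : (0 : ℝ) < (q : ℝ) * W := by
    have e1 : (0 : ℝ) < q := by exact_mod_cast hq1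
    have e2 : (0 : ℝ) < W := by exact_mod_cast hW1
    positivity
  have h7 : 2 * |(N : ℝ)| < M0 := by nlinarith
  exact_mod_cast h7

end KE

open KE in
theorem stKE : StKE := by
  intro G G' _ _ d d' C Δ R n q A L Ax L1 L2 km h M0 lam Θ M1 F H H' Tm π K S1 r1 a1 g1 b1 u1 v1
    θ1 S2 r2 a2 g2 b2 u2 v2 θ2 hp1 hw1 hp2 hw2 t1 t2 o1 o2 s l0 hm
  obtain ⟨nC, nL, nL1, -, -, nΔ, nR, nΘ, nRΘ, nΘ'⟩ := K.nums
  have hFam : Fam H F Δ Tm := K.hR.toFam
  have hFX := hFam.sub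
  have hT1 : 1000 * (Δ : ℝ) ≤ Tm := by
    have e1 := K.hc.cst.hT
    have e2 : (1000 : ℝ) * Δ ≤ R := by exact_mod_cast nR
    have e3 : (0 : ℝ) ≤ R := Nat.cast_nonneg R
    linarith
  have hn3 := K.hc.hn
  have hn0 : 0 < n := by omega
  have f1F : r1 ^ n ∈ F := K.hFp hp1.fp
  have f2F : r2 ^ n ∈ F := K.hFp hp2.fp
  have c1 := hw1.tr t1
  have c2 := hw2.tr t2
  have hsymm := K.hS.path.symm
  -- the size of h
  have hh : 101 < h := by
    have e1 := K.hc3.hh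
    have e2 : (1 : ℝ) ≤ M1 := by exact_mod_cast K.hM1
    have e3 : (0 : ℝ) ≤ Tm := by
      have : (0 : ℝ) ≤ Δ := Nat.cast_nonneg Δ
      linarith
    have e4 : (0 : ℝ) ≤ C := Nat.cast_nonneg C
    have e5 : (101 : ℝ) < h := by
      have e6 : 10 ^ 4 * (1 : ℝ) * 1000 ≤ 10 ^ 4 * (M1 : ℝ) * (Tm + 1000 + 100 * C) := by
        apply mul_le_mul
        · linarith
        · linarith
        · norm_num
        · positivity
      linarith
    exact_mod_cast e5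
  have hh0 : 0 < h := by omega
  -- the matching function
  have hm' : ∀ k, ∃ l, s ≤ k → k ≤ s + 100 → (l0 < l ∧ l < l0 + h ∧ 4 * (Θ : ℝ) ≤ |θ2 l| ∧
        (t1 * g1 k * r1 ^ n * (t1 * g1 k)⁻¹ = t2 * g2 l * r2 ^ n * (t2 * g2 l)⁻¹ ∨
          t1 * g1 k * r1 ^ n * (t1 * g1 k)⁻¹ = (t2 * g2 l * r2 ^ n * (t2 * g2 l)⁻¹)⁻¹)) := by
    intro k
    by_cases c : s ≤ k ∧ k ≤ s + 100
    · obtain ⟨l, hl⟩ := hm k c.1 c.2
      exact ⟨l, fun _ _ => hl⟩
    · exact ⟨0, fun h1 h2 => absurd ⟨h1, h2⟩ c⟩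
  choose lk hlk using hm'
  set f1 : ℤ → G := fun k => t1 * g1 k * r1 ^ n * (t1 * g1 k)⁻¹ with hf1
  set f2 : ℤ → G := fun k => t2 * g2 k * r2 ^ n * (t2 * g2 k)⁻¹ with hf2
  have f1m : ∀ k, f1 k ∈ F := c1.hf
  have f2m : ∀ k, f2 k ∈ F := c2.hf
  -- constant sign
  have hsgn : ∃ ε : ℤ, (ε = 1 ∨ ε = -1) ∧ ∀ k, s ≤ k → k ≤ s + 100 →
      f1 k = f2 (lk k) ^ ε := by
    by_cases c : ∃ k0, s ≤ k0 ∧ k0 ≤ s + 100 ∧ f1 k0 = f2 (lk k0)
    · obtain ⟨k0, x1, x2, x3⟩ := c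
      refine ⟨1, Or.inl rfl, fun k y1 y2 => ?_⟩
      rw [zpow_one]
      rcases (hlk k y1 y2).2.2.2 with y3 | y3
      · exact y3
      · exfalso
        obtain ⟨t, ht⟩ := conj_contra x3 y3
        have hcm := PH.comm_of_pm K.hA hFam hT1 hn3 f2F (Or.inr ht)
        have e1 : r2 ^ n = (r2 ^ n)⁻¹ := by
          rw [← ht, hcm.eq, mul_inv_cancel_right]
        have e2 : (r2 ^ n) ^ (2 : ℤ) = 1 := by
          rw [zpow_two]
          nth_rewrite 2 [e1]
          rw [mul_inv_cancel]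
        exact absurd (PH.pow_ne H hFam hT1 f2F e2) (by norm_num)
    · refine ⟨-1, Or.inr rfl, fun k y1 y2 => ?_⟩
      rw [zpow_neg_one]
      rcases (hlk k y1 y2).2.2.2 with y3 | y3
      · exact absurd ⟨k, y1, y2, y3⟩ c
      · exact y3
  obtain ⟨ε, hε, hsg⟩ := hsgn
  -- the clean run
  have cK : 10 * ((Δ : ℝ) + (2 * L2 + C : ℕ)) + (2 * L2 + C : ℕ) < 4 * (Θ : ℝ) := by
    have e1 : (10 : ℝ) ^ 3 * ((Δ : ℝ) + (2 * L2 + C : ℕ)) ≤ Θ := by exact_mod_cast nΘ'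
    have e2 : (0 : ℝ) ≤ ((2 * L2 + C : ℕ) : ℝ) := Nat.cast_nonneg _
    have e3 : (1 : ℝ) ≤ Δ := by exact_mod_cast (by omega : 1 ≤ Δ)
    linarith
  have run := comb h hh s l0 lk (fun m => |θ2 m| < 4 * (Θ : ℝ))
    (fun k h1 h2 => ⟨(hlk k h1 h2).1, (hlk k h1 h2).2.1, not_lt.2 (hlk k h1 h2).2.2.1⟩)
    (by
      intro k k' h1 h2 h3 h4 he
      by_contra hne
      have hd := o1.dist k k' hne
      have e1 := hsg k h1 h2
      have e2 := hsg k' h3 h4
      rw [he, ← e2] at e1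
      exact hd.1 e1)
    (by
      intro k h1 h2 m hmid
      have e1 := (phi_pm H (hFX (f2m (lk k))) hε (hsg k h1 (by omega)) 1 1).2.1
      have e2 := (phi_pm H (hFX (f2m (lk (k + 1)))) hε (hsg (k + 1) (by omega) h2) 1 1).2.1
      have x1 := c1.hz k
      have x2 := c1.hy (k + 1)
      have x3 := c1.hD k
      have x1' : t1 * g1 k * u1 ∈ H.Z (f2 (lk k)) := by rw [← e1]; exact x1
      have x2' : t1 * g1 (k + 1 - 1) * v1 ∈ H.Z (f2 (lk (k + 1))) := by rw [← e2]; exact x2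
      have x4 : (d (t1 * g1 k * u1) (t1 * g1 (k + 1 - 1) * v1) : ℝ) ≤ (2 * L2 + C : ℕ) := by
        exact_mod_cast x3
      rcases hmid with ⟨y1, y2⟩ | ⟨y1, y2⟩
      · have q1 := o2.btw _ m _ y1 y2 _ x1' _ x2'
        have q2 := H.lip _ (hFX (f2m m)) (t1 * g1 k * u1) (t1 * g1 (k + 1 - 1) * v1)
        show |θ2 m| < 4 * (Θ : ℝ)
        have q3 := abs_sub_abs_le_abs_sub (θ2 m)
          (H.Φ (f2 m) (t1 * g1 k * u1) (t1 * g1 (k + 1 - 1) * v1))
        rw [abs_sub_comm] at q3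
        linarith
      · have q1 := o2.btw _ m _ y1 y2 _ x2' _ x1'
        have q2 := H.lip _ (hFX (f2m m)) (t1 * g1 (k + 1 - 1) * v1) (t1 * g1 k * u1)
        rw [hsymm] at q2
        show |θ2 m| < 4 * (Θ : ℝ)
        have q3 := abs_sub_abs_le_abs_sub (θ2 m)
          (H.Φ (f2 m) (t1 * g1 (k + 1 - 1) * v1) (t1 * g1 k * u1))
        rw [abs_sub_comm] at q3
        linarith)
    (by
      rintro m ⟨x1, x2⟩
      rcases c2.iso m with x3 | x3
      · exact absurd x3 (not_le.2 x1)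
      · exact absurd x3 (not_le.2 x2))
    (by
      intro m m' h1 h2 h3 h4 h5 h6
      by_contra hne
      have hnd : ¬ (h : ℤ) ∣ m - m' := by
        intro hd
        have := Int.eq_zero_of_abs_lt_dvd hd (by rw [abs_lt]; constructor <;> omega)
        omega
      have e1 := hw2.circ m m' hnd 0
      have e2 : |θ2 m - θ2 m' + ((0 : ℤ) : ℝ) * H.T (r2 ^ n)| < 8 * (Θ : ℝ) := by
        push_cast
        rw [zero_mul, add_zero]
        have := abs_sub (θ2 m) (θ2 m')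
        linarith
      have e3 : (0 : ℝ) ≤ Θ := Nat.cast_nonneg Θ
      linarith)
  obtain ⟨p, σ, hp1', hp2', hσ, hl, hndv⟩ := run
  -- equal translation lengths
  have fe : ∀ i, 0 ≤ i → i ≤ 5 → f1 (p + i) = f2 (lk p + σ * i) ^ ε := by
    intro i h1 h2
    rw [← hl i h1 h2]
    exact hsg _ (by omega) (by omega)
  have hTe : H.T (r1 ^ n) = H.T (r2 ^ n) := by
    have e1 := (phi_pm H (hFX (f2m _)) hε (fe 0 le_rfl (by norm_num)) 1 1).2.2
    have e2 : H.T (f1 (p + 0)) = H.T (r1 ^ n) := H.Tconj _ (hFX f1F) _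
    have e3 : H.T (f2 (lk p + σ * 0)) = H.T (r2 ^ n) := H.Tconj _ (hFX f2F) _
    rw [← e2, e1, e3]
  have hTpos : 0 < H.T (r1 ^ n) := (PH.T_pos H hFam hT1 f1F).1
  -- angles
  have ang : ∀ i, 1 ≤ i → i ≤ 4 → |θ1 (p + i) - ((ε * σ : ℤ) : ℝ) * θ2 (lk p + σ * i)| ≤
      20 * ((Δ : ℝ) + (2 * L2 + C : ℕ)) + C := by
    intro i h1 h2
    refine angle H hFX o1 o2 f2m c1.hz hε hσ ?_ (fe i (by omega) (by omega)) ?_
    · have := fe (i - 1) (by omega) (by omega)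
      rw [show p + i - 1 = p + (i - 1) by ring, this]
      congr 2
      ring
    · have := fe (i + 1) (by omega) (by omega)
      rw [show p + i + 1 = p + (i + 1) by ring, this]
      congr 2
      ring
  obtain ⟨β1, hβ1⟩ := hw1.ang
  obtain ⟨β2, hβ2⟩ := hw2.ang
  rw [← hTe] at hβ2
  have htau := hw1.tau
  have hsmall : ∀ N : ℤ, |(N : ℝ)| * (H.T (r1 ^ n) / n) ≤
      2 * (20 * ((Δ : ℝ) + (2 * L2 + C : ℕ)) + C) → 2 * |N| < M0 := by
    intro N hN
    refine small (C := C) (W := Δ + (2 * L2 + C)) hn0 hTpos htau K.q1 ?_ nΘ' (by omega)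
      K.hc3.hM0 hN
    have e1 : (C : ℝ) ≤ Δ := by exact_mod_cast (by omega : C ≤ Δ)
    have e2 : (0 : ℝ) ≤ ((2 * L2 + C : ℕ) : ℝ) := Nat.cast_nonneg _
    push_cast at e2 ⊢
    linarith
  have hakm1 := hp1.ak
  have hakm2 := hp2.ak
  have htoNat : ∀ x y : ℤ, (x % h).toNat = (y % h).toNat → (h : ℤ) ∣ x - y := by
    intro x y hxy
    have h0 : (0 : ℤ) < h := by exact_mod_cast hh0
    have e1 := Int.emod_nonneg x h0.ne'
    have e2 := Int.emod_nonneg y h0.ne'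
    have e3 : x % h = y % h := by omega
    exact (show y ≡ x [ZMOD (h : ℤ)] from e3.symm).dvd
  have hltn : ∀ x : ℤ, (x % h).toNat < h := by
    intro x
    have h0 : (0 : ℤ) < h := by exact_mod_cast hh0
    have e1 := Int.emod_nonneg x h0.ne'
    have e2 := Int.emod_lt_of_pos x h0
    omega
  rcases hσ with rfl | rfl
  · -- same direction
    have A1 := ang 1 (by norm_num) (by norm_num)
    have A2 := ang 2 (by norm_num) (by norm_num)
    have B1 := hβ1 p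
    have B2 := hβ1 (p + 1)
    have B3 := hβ2 (lk p)
    have B4 := hβ2 (lk p + 1)
    rw [show p + 1 + 1 = p + 2 by ring] at B2
    rw [show lk p + 1 + 1 = lk p + 1 * 2 by ring] at B4
    rw [show lk p + 1 = lk p + 1 * 1 by ring] at B3
    have hN := hsmall ((b1 (p + 1) - b1 p) - ε * (b2 (lk p + 1) - b2 (lk p))) (by
      have hτ : (0 : ℝ) ≤ H.T (r1 ^ n) / n := by positivity
      have hτ' : ∀ z : ℝ, |z| * (H.T (r1 ^ n) / n) = |z * (H.T (r1 ^ n) / n)| := by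
        intro z
        rw [abs_mul, abs_of_nonneg hτ]
      rw [hτ']
      have e : (((b1 (p + 1) - b1 p) - ε * (b2 (lk p + 1) - b2 (lk p)) : ℤ) : ℝ) *
          (H.T (r1 ^ n) / n) = (θ1 (p + 2) - ((ε * 1 : ℤ) : ℝ) * θ2 (lk p + 1 * 2)) -
            (θ1 (p + 1) - ((ε * 1 : ℤ) : ℝ) * θ2 (lk p + 1 * 1)) +
            (((1 : ℤ) - 1 : ℤ) : ℝ) * (β1 - ε * β2) := by
        rw [B1, B2, B3, B4]
        push_cast
        ring
      rw [e, sub_self, Int.cast_zero, zero_mul, add_zero]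
      have := abs_sub (θ1 (p + 2) - ((ε * 1 : ℤ) : ℝ) * θ2 (lk p + 1 * 2))
            (θ1 (p + 1) - ((ε * 1 : ℤ) : ℝ) * θ2 (lk p + 1 * 1))
      linarith)
    have D1 := b_diff hh0 hw1.bp hw1.be (hndv 1 (by norm_num) (by norm_num)).1
    have D2 := b_diff (k := lk p) hh0 hw2.bp hw2.be (by
      have := (hndv 1 (by norm_num) (by norm_num)).2
      rw [hl 1 (by norm_num) (by norm_num), one_mul] at this
      exact this)
    have D3 := arith (h := h) (δ := ε) K.hc3.hn K.hc3.hk K.hc3.hlam hN hε hp1.a0 hakm1 hp2.a0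
      hakm2 (hltn p) (hltn (lk p)) (by
        obtain ⟨c, hc⟩ := dvd_sub D1 (Dvd.dvd.mul_left D2 ε)
        exact ⟨c, by linear_combination hc⟩)
    refine ⟨p, lk p, ε, htoNat _ _ D3.1, hε, D3.2, fun i h1 h2 => ?_⟩
    have := fe i h1 (by omega)
    rw [one_mul] at this
    exact this
  · -- opposite direction is impossible
    exfalso
    have key : ∀ i, 1 ≤ i → i ≤ 2 → ((p + i - 1) % h).toNat = ((lk p - i - 2) % h).toNat := by
      intro i h1 h2
      have A1 := ang i h1 (by omega)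
      have A2 := ang (i + 1) (by omega) (by omega)
      have B1 := hβ1 (p + i - 1)
      have B2 := hβ1 (p + i)
      have B3 := hβ2 (lk p - i - 1)
      have B4 := hβ2 (lk p - i - 2)
      rw [show p + i - 1 + 1 = p + i by ring] at B1
      rw [show p + i + 1 = p + (i + 1) by ring] at B2
      rw [show lk p - i - 1 + 1 = lk p + -1 * i by ring] at B3
      rw [show lk p - i - 2 + 1 = lk p + -1 * (i + 1) by ring] at B4
      have hN := hsmall ((b1 (p + i) - b1 (p + i - 1)) -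
          ε * (b2 (lk p - i - 1) - b2 (lk p - i - 2))) (by
        have hτ : (0 : ℝ) ≤ H.T (r1 ^ n) / n := by positivity
        have hτ' : ∀ z : ℝ, |z| * (H.T (r1 ^ n) / n) = |z * (H.T (r1 ^ n) / n)| := by
          intro z
          rw [abs_mul, abs_of_nonneg hτ]
        rw [hτ']
        have e : (((b1 (p + i) - b1 (p + i - 1)) -
            ε * (b2 (lk p - i - 1) - b2 (lk p - i - 2)) : ℤ) : ℝ) *
            (H.T (r1 ^ n) / n) = (θ1 (p + (i + 1)) -
              ((ε * -1 : ℤ) : ℝ) * θ2 (lk p + -1 * (i + 1))) -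
              (θ1 (p + i) - ((ε * -1 : ℤ) : ℝ) * θ2 (lk p + -1 * i)) := by
          rw [B1, B2, B3, B4]
          push_cast
          ring
        rw [e]
        have := abs_sub (θ1 (p + (i + 1)) - ((ε * -1 : ℤ) : ℝ) * θ2 (lk p + -1 * (i + 1)))
              (θ1 (p + i) - ((ε * -1 : ℤ) : ℝ) * θ2 (lk p + -1 * i))
        linarith)
      have D1 := b_diff (k := p + i - 1) hh0 hw1.bp hw1.be (by
        rw [show p + i - 1 + 1 = p + i by ring]
        exact (hndv i (by omega) (by omega)).1)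
      rw [show p + i - 1 + 1 = p + i by ring] at D1
      have D2 := b_diff (k := lk p - i - 2) hh0 hw2.bp hw2.be (by
        have := (hndv (i + 1) (by omega) (by omega)).2
        rw [hl (i + 1) (by omega) (by omega)] at this
        rw [show lk p - i - 2 + 1 = lk p + -1 * (i + 1) by ring]
        exact this)
      rw [show lk p - i - 2 + 1 = lk p - i - 1 by ring] at D2
      have D3 := arith (h := h) (δ := ε) K.hc3.hn K.hc3.hk K.hc3.hlam hN hε hp1.a0 hakm1 hp2.a0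
        hakm2 (hltn (p + i - 1)) (hltn (lk p - i - 2)) (by
          obtain ⟨c, hc⟩ := dvd_sub D1 (Dvd.dvd.mul_left D2 ε)
          exact ⟨c, by linear_combination hc⟩)
      exact D3.1
    have k1 := key 1 le_rfl (by norm_num)
    have k2 := key 2 (by norm_num) le_rfl
    rw [show p + 1 - 1 = p by ring, show lk p - 1 - 2 = lk p - 3 by ring] at k1
    rw [show p + 2 - 1 = p + 1 by ring, show lk p - 2 - 2 = lk p - 4 by ring] at k2
    have m1 := (mod_succ hh0 (hndv 1 (by norm_num) (by norm_num)).1).1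
    have m2 := (mod_succ (k := lk p - 4) hh0 (by
      have := (hndv 3 (by norm_num) (by norm_num)).2
      rw [hl 3 (by norm_num) (by norm_num)] at this
      rw [show lk p - 4 + 1 = lk p + -1 * 3 by ring]
      exact this)).1
    rw [show lk p - 4 + 1 = lk p - 3 by ring] at m2
    omega

end Pool.Agent.Helper74.TB
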