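import Pool.Agent.Helper74.TB.StKK

/-! MP_7d16da_al, Part K, module KF: algebra of the frames. -/

set_option autoImplicit false

namespace Pool.Agent.Helper74.TB

open Pool.Agent.Helper74.MH

namespace KF

section

variable {G G' : Type} [Group G] [Group G'] {d : G → G → ℕ} {d' : G' → G' → ℕ}
    {C Δ R n q A L Ax L1 L2 km h M0 lam Θ M1 : ℕ} {F : Set G}
    {H : Hubs d (Lx d (100 * C)) C} {H' : Hubs d' (Lx d' (100 * C)) C} {Tm : ℝ} {π : G →* G'}

/-- long elements are not torsion -/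
theorem pow_ne (K : KHyp d d' C Δ R n q A L Ax L1 L2 km h M0 lam Θ M1 F H H' Tm π) {f : G}
    (hf : f ∈ F) : f ^ n ≠ 1 := by
  intro h0
  obtain ⟨x, hx⟩ := K.hA.ctr f h0
  have h1 := K.hR.sub hf x
  have h2 := hx 1
  rw [zpow_one] at h2
  have h3 := K.hc.cst.hC
  omega

theorem zpow_ne (K : KHyp d d' C Δ R n q A L Ax L1 L2 km h M0 lam Θ M1 F H H' Tm π) {f : G}
    (hf : f ∈ F) {m : ℤ} (hm : f ^ m = 1) : m = 0 := by
  by_contra h0
  have h1 : f ^ m.natAbs = 1 := by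
    rcases Int.natAbs_eq m with h2 | h2
    · rw [h2, zpow_natCast] at hm
      exact hm
    · rw [h2, zpow_neg, zpow_natCast, inv_eq_one] at hm
      exact hm
  have h2 := (K.hS.tor f).resolve_left (pow_ne K hf) 1 m.natAbs
  rw [h1, one_mul, (K.hS.path.zero_iff 1 1).2 rfl, mul_zero] at h2
  omega

theorem r_inf (K : KHyp d d' C Δ R n q A L Ax L1 L2 km h M0 lam Θ M1 F H H' Tm π) {S r : G}
    {a : ℤ} (P : Pair H n L1 L2 km S r a) {m : ℤ} (hm : r ^ m = 1) : m = 0 := by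
  apply zpow_ne K (K.hFp P.fp)
  rw [← zpow_natCast, ← zpow_mul, mul_comm, zpow_mul, hm, one_zpow]

theorem r_inj (K : KHyp d d' C Δ R n q A L Ax L1 L2 km h M0 lam Θ M1 F H H' Tm π) {S r : G}
    {a : ℤ} (P : Pair H n L1 L2 km S r a) {m m' : ℤ} (hm : r ^ m = r ^ m') : m = m' := by
  have h1 : r ^ (m - m') = 1 := by rw [zpow_sub, hm, mul_inv_cancel]
  have := r_inf K P h1
  omega

theorem npos (K : KHyp d d' C Δ R n q A L Ax L1 L2 km h M0 lam Θ M1 F H H' Tm π) : 3 ≤ n :=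
  K.hc.hn

theorem S_notin (K : KHyp d d' C Δ R n q A L Ax L1 L2 km h M0 lam Θ M1 F H H' Tm π) {S r : G}
    {a : ℤ} (P : Pair H n L1 L2 km S r a) : ¬ Commute S (r ^ n) := by
  intro h0
  obtain ⟨j, hj⟩ := Subgroup.mem_zpowers_iff.1 ((P.cen S).1 h0)
  have h1 : r ^ (j * n) = 1 := by
    rw [zpow_mul, hj, zpow_natCast, P.tor]
  have h2 := r_inf K P h1
  have h3 := npos K
  have h4 : j = 0 := by
    rcases mul_eq_zero.1 h2 with h5 | h5
    · exact h5
    · omega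
  rw [h4, zpow_zero] at hj
  exact P.ne hj.symm

theorem m_zero (K : KHyp d d' C Δ R n q A L Ax L1 L2 km h M0 lam Θ M1 F H H' Tm π) {S r : G}
    {a : ℤ} (P : Pair H n L1 L2 km S r a) {m m' : ℤ} (h0 : S⁻¹ * r ^ m * S = r ^ m') :
    m = 0 := by
  by_contra hm
  have h1 : (r : G) ^ n ≠ 1 := by
    intro h2
    have h3 : r ^ (n : ℤ) = 1 := by rw [zpow_natCast, h2]
    have h4 := r_inf K P h3
    have h5 := npos K
    omega
  have h2 := K.hA.ninv r S⁻¹ m m' h1 hm (by rw [inv_inv, h0])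
  apply S_notin K P
  have h3 : Commute S r := by
    have := h2.inv_left
    rwa [inv_inv] at this
  exact h3.pow_right n

theorem pi_r (K : KHyp d d' C Δ R n q A L Ax L1 L2 km h M0 lam Θ M1 F H H' Tm π) {S r : G}
    {a : ℤ} (P : Pair H n L1 L2 km S r a) {m : ℤ} (hm : (n : ℤ) ∣ m) : π (r ^ m) = 1 := by
  obtain ⟨c, rfl⟩ := hm
  rw [zpow_mul, map_zpow, zpow_natCast,
    (K.hQ.ker (r ^ n)).2 (Subgroup.subset_closure (K.hFp P.fp)), one_zpow]

theorem hpos (K : KHyp d d' C Δ R n q A L Ax L1 L2 km h M0 lam Θ M1 F H H' Tm π) : 1 ≤ h := by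
  have h10 := K.hc3.hh
  have h11 := K.hM1
  have h12 : (1 : ℝ) ≤ M1 := by exact_mod_cast h11
  have h13 : 0 ≤ Tm := by
    have := K.hc.cst.hT
    have : (0 : ℝ) ≤ R := Nat.cast_nonneg _
    linarith
  have h14 : (0 : ℝ) ≤ C := Nat.cast_nonneg _
  have h15 : (0 : ℝ) < h := by
    have : (0 : ℝ) < 10 ^ 4 * (M1 : ℝ) * (Tm + 1000 + 100 * C) := by positivity
    linarith
  exact_mod_cast h15

end

/-- reduction modulo the period -/
theorem b_mod {b : ℤ → ℤ} {h : ℕ} (hb : ∀ k, b (k + h) = b k) (k : ℤ) : b k = b (k % h) := by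
  have h1 : Function.Periodic b (h : ℤ) := hb
  have h2 := h1.int_mul (k / h) (k % h)
  rw [← h2]
  congr 1
  have := Int.emod_add_mul_ediv k h
  rw [Int.cast_id, mul_comm]
  exact this.symm

theorem g_mul {G : Type} [Group G] {g : ℤ → G} {h : ℕ} (hg : ∀ k, g (k + h) = g h * g k)
    (m : ℤ) (k : ℤ) : g (k + m * h) = g h ^ m * g k := by
  induction m using Int.induction_on with
  | zero => simp
  | succ i ih =>
    have e : k + ((i : ℤ) + 1) * h = (k + i * h) + h := by ring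
    rw [e, hg, ih, ← mul_assoc, ← zpow_one_add, add_comm]
  | pred i ih =>
    have e : k + (-(i : ℤ)) * h = (k + (-(i : ℤ) - 1) * h) + h := by ring
    rw [e, hg] at ih
    have h1 : g (k + (-(i : ℤ) - 1) * h) = (g h)⁻¹ * (g h ^ (-(i : ℤ)) * g k) := by
      rw [← ih]
      group
    rw [h1, ← mul_assoc, ← zpow_neg_one, ← zpow_add]
    congr 2
    ring

end KF

open KF in
theorem stKF : StKF := by
  intro G G' _ _ d d' C Δ R n q A L Ax L1 L2 km h M0 lam Θ M1 F H H' Tm π K S1 r1 a1 g1 b1 u1 v1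
    θ1 S2 r2 a2 g2 b2 u2 v2 θ2 P1 W1 P2 W2 t1 t2 k l ε hkl hε ha H6
  have hn := npos K
  have hh := hpos K
  have hεε : ε * ε = 1 := by rcases hε with rfl | rfl <;> norm_num
  obtain ⟨x, hx⟩ : ∃ x, x = (t1 * g1 k)⁻¹ * (t2 * g2 l) := ⟨_, rfl⟩
  have hx' : t2 * g2 l = t1 * g1 k * x := by rw [hx]; group
  -- the hubs
  have hub1 : ∀ (S r : G) (g : ℤ → G) (b : ℤ → ℤ) (j : ℤ) (t : G),
      (∀ k, g (k + 1) = g k * (S * r ^ b k)) →
      t * g (j + 1) * r ^ n * (t * g (j + 1))⁻¹ =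
        (t * g j) * (S * r ^ n * S⁻¹) * (t * g j)⁻¹ := by
    intro S r g b j t hg
    rw [hg]
    have h1 : r ^ b j * r ^ n * (r ^ b j)⁻¹ = r ^ n := by
      rw [← zpow_natCast, ← zpow_neg, ← zpow_add, ← zpow_add]
      congr 1
      ring
    calc t * (g j * (S * r ^ b j)) * r ^ n * (t * (g j * (S * r ^ b j)))⁻¹
        = (t * g j) * (S * (r ^ b j * r ^ n * (r ^ b j)⁻¹) * S⁻¹) * (t * g j)⁻¹ := by
          simp only [mul_inv_rev, mul_assoc]
      _ = _ := by rw [h1]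
  have hub2 : ∀ (S r : G) (g : ℤ → G) (b : ℤ → ℤ) (j : ℤ) (t : G),
      (∀ k, g (k + 1) = g k * (S * r ^ b k)) →
      t * g (j + 2) * r ^ n * (t * g (j + 2))⁻¹ =
        (t * g j) * ((S * r ^ b j * S) * r ^ n * (S * r ^ b j * S)⁻¹) * (t * g j)⁻¹ := by
    intro S r g b j t hg
    have e : j + 2 = (j + 1) + 1 := by ring
    rw [e, hub1 S r g b (j + 1) t hg, hg j]
    simp only [mul_inv_rev, mul_assoc]
  have T0 : r1 ^ n = x * (r2 ^ n) ^ ε * x⁻¹ := by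
    have h1 := H6 0 le_rfl (by norm_num)
    rw [add_zero, add_zero, hx', conj_zpow] at h1
    have h2 : t1 * g1 k * r1 ^ n * (t1 * g1 k)⁻¹ =
        t1 * g1 k * (x * (r2 ^ n) ^ ε * x⁻¹) * (t1 * g1 k)⁻¹ := by
      rw [h1]
      simp only [mul_inv_rev, mul_assoc]
    exact mul_left_cancel (mul_right_cancel h2)
  have T0' : (r2 ^ n) ^ ε = x⁻¹ * r1 ^ n * x := by rw [T0]; group
  have hxr : x * r2 * x⁻¹ = r1 ^ ε := by
    have h1 : Commute (x * r2 * x⁻¹) (r1 ^ n) := by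
      rw [T0]
      exact ((Commute.refl r2).pow_right n |>.zpow_right ε).conj x
    obtain ⟨c, hc⟩ := Subgroup.mem_zpowers_iff.1 ((P1.cen _).1 h1)
    have h2 : r1 ^ (c * (n * ε)) = r1 ^ (n : ℤ) := by
      rw [zpow_mul, hc, conj_zpow, zpow_mul, zpow_natCast, ← T0, zpow_natCast]
    have h3 := r_inj K P1 h2
    have h4 : (n : ℤ) * (c * ε) = n * 1 := by
      calc (n : ℤ) * (c * ε) = c * (n * ε) := by ring
        _ = n * 1 := by rw [h3, mul_one]
    have h5 : c * ε = 1 := mul_left_cancel₀ (by omega) h4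
    have h6 : c = ε := by
      calc c = c * (ε * ε) := by rw [hεε, mul_one]
        _ = (c * ε) * ε := by ring
        _ = ε := by rw [h5, one_mul]
    rw [← hc, h6]
  obtain ⟨b', hb'⟩ : ∃ b' : ℤ, x * S2 * x⁻¹ = S1 * r1 ^ b' := by
    have h1 := H6 1 (by norm_num) (by norm_num)
    rw [hub1 S1 r1 g1 b1 k t1 W1.gs, hub1 S2 r2 g2 b2 l t2 W2.gs, hx', conj_zpow, conj_zpow,
      T0'] at h1
    have h2 : t1 * g1 k * (S1 * r1 ^ n * S1⁻¹) * (t1 * g1 k)⁻¹ =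
        t1 * g1 k * ((x * S2 * x⁻¹) * r1 ^ n * (x * S2 * x⁻¹)⁻¹) * (t1 * g1 k)⁻¹ := by
      rw [h1]
      simp only [mul_inv_rev, mul_assoc, inv_inv]
    have h3 := mul_left_cancel (mul_right_cancel h2)
    have h4 : Commute (S1⁻¹ * (x * S2 * x⁻¹)) (r1 ^ n) := by
      change S1⁻¹ * (x * S2 * x⁻¹) * r1 ^ n = r1 ^ n * (S1⁻¹ * (x * S2 * x⁻¹))
      have h5 : (x * S2 * x⁻¹) * r1 ^ n = (S1 * r1 ^ n * S1⁻¹) * (x * S2 * x⁻¹) := by
        rw [h3]; group
      rw [mul_assoc, h5]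
      group
    obtain ⟨b', hb'⟩ := Subgroup.mem_zpowers_iff.1 ((P1.cen _).1 h4)
    exact ⟨b', by rw [hb']; group⟩
  have hm : b' + ε * b2 l - b1 k = 0 := by
    have h1 := H6 2 (by norm_num) (by norm_num)
    rw [hub2 S1 r1 g1 b1 k t1 W1.gs, hub2 S2 r2 g2 b2 l t2 W2.gs, hx', conj_zpow, conj_zpow,
      T0'] at h1
    have h2 : t1 * g1 k * ((S1 * r1 ^ b1 k * S1) * r1 ^ n * (S1 * r1 ^ b1 k * S1)⁻¹) *
        (t1 * g1 k)⁻¹ =
        t1 * g1 k * ((x * (S2 * r2 ^ b2 l * S2) * x⁻¹) * r1 ^ n *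
          (x * (S2 * r2 ^ b2 l * S2) * x⁻¹)⁻¹) * (t1 * g1 k)⁻¹ := by
      rw [h1]
      simp only [mul_inv_rev, mul_assoc, inv_inv]
    have h3 := mul_left_cancel (mul_right_cancel h2)
    have h4 : x * (S2 * r2 ^ b2 l * S2) * x⁻¹ = S1 * r1 ^ (b' + ε * b2 l) * S1 * r1 ^ b' := by
      calc x * (S2 * r2 ^ b2 l * S2) * x⁻¹
          = (x * S2 * x⁻¹) * (x * r2 ^ b2 l * x⁻¹) * (x * S2 * x⁻¹) := by group
        _ = (x * S2 * x⁻¹) * (x * r2 * x⁻¹) ^ b2 l * (x * S2 * x⁻¹) := by rw [conj_zpow]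
        _ = (S1 * r1 ^ b') * (r1 ^ ε) ^ b2 l * (S1 * r1 ^ b') := by rw [hb', hxr]
        _ = _ := by rw [← zpow_mul, zpow_add]; simp only [mul_assoc]
    rw [h4] at h3
    obtain ⟨y, hy⟩ : ∃ y, y = (S1 * r1 ^ b1 k * S1)⁻¹ * (S1 * r1 ^ (b' + ε * b2 l) * S1 * r1 ^ b') :=
      ⟨_, rfl⟩
    have hy' : S1 * r1 ^ (b' + ε * b2 l) * S1 * r1 ^ b' = (S1 * r1 ^ b1 k * S1) * y := by
      rw [hy]; group
    rw [hy'] at h3
    have h5 : Commute y (r1 ^ n) := by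
      have h6 : (S1 * r1 ^ b1 k * S1) * (r1 ^ n) * (S1 * r1 ^ b1 k * S1)⁻¹ =
          (S1 * r1 ^ b1 k * S1) * (y * r1 ^ n * y⁻¹) * (S1 * r1 ^ b1 k * S1)⁻¹ := by
        refine h3.trans ?_
        simp only [mul_inv_rev, mul_assoc]
      have h7 := mul_left_cancel (mul_right_cancel h6)
      exact mul_inv_eq_iff_eq_mul.1 h7.symm
    obtain ⟨j, hj⟩ := Subgroup.mem_zpowers_iff.1 ((P1.cen _).1 h5)
    apply m_zero K P1 (m' := j - b')
    rw [zpow_sub r1 j b', hj, hy, zpow_sub]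
    group
  have hcong : ∀ i : ℤ, (n : ℤ) ∣ b1 (k + i) - ε * b2 (l + i) := by
    intro i
    have hh' : (0 : ℤ) < h := by exact_mod_cast hh
    have h1 : (l + i) % (h : ℤ) = (k + i) % (h : ℤ) := by
      apply (Int.modEq_iff_dvd).2
      have e : k + i - (l + i) = k - l := by ring
      rwa [e]
    obtain ⟨j, hj⟩ : ∃ j : ℕ, (j : ℤ) = (k + i) % (h : ℤ) :=
      ⟨((k + i) % (h : ℤ)).toNat, Int.toNat_of_nonneg (Int.emod_nonneg _ hh'.ne')⟩
    have hjh : j < h := by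
      have := Int.emod_lt_of_pos (k + i) hh'
      omega
    rw [b_mod W1.bp (k + i), b_mod W2.bp (l + i), h1, ← hj]
    obtain ⟨c1, h2⟩ := W1.be j hjh
    obtain ⟨c2, h3⟩ := W2.be j hjh
    refine ⟨c1 - ε * c2, ?_⟩
    have h4 : b1 j = n * c1 + a1 * ((M0 : ℤ) * (lam : ℤ) ^ j) := by linarith
    have h5 : b2 j = n * c2 + a2 * ((M0 : ℤ) * (lam : ℤ) ^ j) := by linarith
    rw [h4, h5, ha]
    ring
  have hb'n : (n : ℤ) ∣ b' := by
    have h1 := hcong 0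
    rw [add_zero, add_zero] at h1
    have h2 : b' = b1 k - ε * b2 l := by linarith
    rwa [h2]
  have hpi : ∀ i : ℕ, π (x * ((g2 l)⁻¹ * g2 (l + i)) * x⁻¹) = π ((g1 k)⁻¹ * g1 (k + i)) := by
    intro i
    induction i with
    | zero => simp
    | succ i ih =>
      have e1 : l + ((i + 1 : ℕ) : ℤ) = (l + i) + 1 := by push_cast; ring
      have e2 : k + ((i + 1 : ℕ) : ℤ) = (k + i) + 1 := by push_cast; ring
      have h1 : x * ((g2 l)⁻¹ * (g2 (l + i) * (S2 * r2 ^ b2 (l + i)))) * x⁻¹ =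
          (x * ((g2 l)⁻¹ * g2 (l + i)) * x⁻¹) * (S1 * r1 ^ b' * r1 ^ (ε * b2 (l + i))) := by
        rw [zpow_mul, ← hxr, conj_zpow, ← hb']
        group
      have h2 : (g1 k)⁻¹ * (g1 (k + i) * (S1 * r1 ^ b1 (k + i))) =
          ((g1 k)⁻¹ * g1 (k + i)) * (S1 * r1 ^ (b1 (k + i) - ε * b2 (l + i)) *
            r1 ^ (ε * b2 (l + i))) := by
        rw [mul_assoc S1, ← zpow_add, sub_add_cancel]
        simp only [mul_assoc]
      rw [e1, e2, W1.gs, W2.gs, h1, h2, map_mul, ih, map_mul π ((g1 k)⁻¹ * g1 (k + i))]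
      congr 1
      rw [map_mul, map_mul, map_mul π (S1 * _), map_mul π S1, pi_r K P1 hb'n,
        pi_r K P1 (hcong i)]
  refine ⟨?_, ?_⟩
  · have h1 := hpi h
    rw [W1.gp, W2.gp] at h1
    have h3 : π (t2 * g2 h * t2⁻¹) = π (t1 * g1 h * t1⁻¹) := by
      have e1 : t2 = t1 * g1 k * x * (g2 l)⁻¹ := by rw [← hx']; group
      have e2 : t2 * g2 h * t2⁻¹ =
          (t1 * g1 k) * (x * ((g2 l)⁻¹ * (g2 h * g2 l)) * x⁻¹) * (t1 * g1 k)⁻¹ := by
        rw [e1]; group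
      have e3 : t1 * g1 h * t1⁻¹ =
          (t1 * g1 k) * ((g1 k)⁻¹ * (g1 h * g1 k)) * (t1 * g1 k)⁻¹ := by
        group
      rw [e2, e3, map_mul, map_mul, h1, ← map_mul, ← map_mul]
    rw [← map_mul, ← map_inv, ← map_mul, ← map_mul, ← map_inv, ← map_mul, h3]
  · intro hS hr haa hg
    subst hS hr hg
    have hε1 : ε = 1 := by
      rcases hε with h1 | h1
      · exact h1
      · exfalso
        rw [h1, ← haa] at ha
        have := P1.a0
        omega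
    rw [hε1, zpow_one] at hxr
    have h1 : Commute x (r1 ^ n) := by
      have : Commute x r1 := by
        change x * r1 = r1 * x
        rw [← mul_inv_eq_iff_eq_mul, hxr]
      exact this.pow_right n
    obtain ⟨c, hc⟩ := Subgroup.mem_zpowers_iff.1 ((P1.cen _).1 h1)
    have h2 : c = 0 := by
      apply m_zero K P1 (m' := b' + c)
      rw [zpow_add, hc]
      have h3 : x * S1 = S1 * r1 ^ b' * x := by rw [← hb']; group
      rw [mul_assoc, h3]
      group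
    rw [h2, zpow_zero] at hc
    rw [← hc, mul_one] at hx'
    obtain ⟨m, hm⟩ := hkl
    have h4 : g1 k = g1 h ^ m * g1 l := by
      rw [← g_mul W1.gp]
      congr 1
      linarith
    have h5 : t2 = t1 * g1 h ^ m := by
      rw [h4, ← mul_assoc] at hx'
      exact mul_right_cancel hx'
    rw [h5, map_mul, ← mul_assoc, inv_mul_cancel, one_mul, map_zpow]
    exact Subgroup.zpow_mem_zpowers _ _

end Pool.Agent.Helper74.TB
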