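import Pool.Agent.Helper74.TB.KAl

/-! MP_7d16da_al, module KW (helper24): the window. -/

set_option autoImplicit false

namespace Pool.Agent.Helper74.TB

open Pool.Agent.Helper74.MH

namespace KW

/-- a window of clean indices along a slowly moving sequence -/
theorem window {α : Type*} {d : α → α → ℕ} (hself : ∀ x, d x x = 0) (hsymm : ∀ x y, d x y = d y x)
    (htri : ∀ x y z, d x z ≤ d x y + d y z) {L1 : ℕ} (hL1 : 0 < L1) (x : ℤ → α)
    (hstep : ∀ k, 10 ^ 6 * d (x k) (x (k + 1)) ≤ L1) {ka kb : ℤ} (hab : ka < kb)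
    (hd : 51 * L1 ≤ d (x ka) (x kb)) (B1 B2 : ℤ → Prop)
    (u1 : ∀ k k', k < k' → k' ≤ k + 400 → B1 k → ¬ B1 k')
    (u2 : ∀ k k', k < k' → k' ≤ k + 400 → B2 k → ¬ B2 k') :
    ∃ s, ka + 2 < s ∧ s + 100 + 2 < kb ∧ ∀ k, s - 2 ≤ k → k ≤ s + 100 + 2 →
      ¬ B1 k ∧ ¬ B2 k ∧ 24 * L1 ≤ d (x k) (x ka) ∧ 24 * L1 ≤ d (x k) (x kb) := by
  classical
  -- multi step
  have ms : ∀ (j : ℕ) (k : ℤ), 10 ^ 6 * d (x k) (x (k + j)) ≤ j * L1 := by
    intro j
    induction j with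
    | zero => intro k; simp [hself]
    | succ j ih =>
      intro k
      have h1 := ih k
      have h2 := hstep (k + j)
      have h3 := htri (x k) (x (k + j)) (x (k + j + 1))
      rw [show k + ((j + 1 : ℕ) : ℤ) = k + j + 1 by push_cast; ring]
      have h4 : (j + 1) * L1 = j * L1 + L1 := by ring
      rw [h4]
      calc 10 ^ 6 * d (x k) (x (k + j + 1))
          ≤ 10 ^ 6 * (d (x k) (x (k + j)) + d (x (k + j)) (x (k + j + 1))) :=
            Nat.mul_le_mul_left _ h3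
        _ = 10 ^ 6 * d (x k) (x (k + j)) + 10 ^ 6 * d (x (k + j)) (x (k + j + 1)) := by ring
        _ ≤ j * L1 + L1 := Nat.add_le_add h1 h2
  have hex : ∃ j : ℕ, 25 * L1 ≤ d (x (ka + j)) (x ka) := by
    refine ⟨(kb - ka).toNat, ?_⟩
    rw [show ka + ((kb - ka).toNat : ℤ) = kb by omega, hsymm]
    omega
  set j0 := Nat.find hex with hj0
  have hj1 : 25 * L1 ≤ d (x (ka + j0)) (x ka) := Nat.find_spec hex
  have hj2 : ∀ j : ℕ, j < j0 → d (x (ka + j)) (x ka) < 25 * L1 := by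
    intro j hj
    have := Nat.find_min hex hj
    omega
  have hjk : ka + j0 ≤ kb := by
    have : j0 ≤ (kb - ka).toNat := by
      apply Nat.find_min'
      rw [show ka + ((kb - ka).toNat : ℤ) = kb by omega, hsymm]
      omega
    omega
  have hjpos : 0 < j0 := by
    rcases Nat.eq_zero_or_pos j0 with h0 | h0
    · exfalso
      rw [h0] at hj1
      simp only [Nat.cast_zero, add_zero] at hj1
      rw [hself] at hj1
      omega
    · exact h0
  set km : ℤ := ka + j0 with hkm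
  have hkm2 : d (x km) (x ka) ≤ 26 * L1 := by
    have h1 := hj2 (j0 - 1) (by omega)
    have e : ka + ((j0 - 1 : ℕ) : ℤ) = km - 1 := by omega
    rw [e] at h1
    have h2 := hstep (km - 1)
    rw [show km - 1 + 1 = km by ring] at h2
    have h3 := htri (x km) (x (km - 1)) (x ka)
    rw [hsymm (x km) (x (km - 1))] at h3
    omega
  have rng : ∀ k, km ≤ k → k ≤ km + 399 → 24 * L1 ≤ d (x k) (x ka) ∧
      24 * L1 ≤ d (x k) (x kb) := by
    intro k h1 h2
    have h3 := ms (k - km).toNat km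
    rw [show km + ((k - km).toNat : ℤ) = k by omega] at h3
    have h4 : (k - km).toNat * L1 ≤ 10 ^ 6 * L1 := Nat.mul_le_mul_right _ (by omega)
    have h5 : d (x km) (x k) ≤ L1 := by omega
    have h6 := htri (x km) (x k) (x ka)
    have h7 := htri (x k) (x km) (x ka)
    have h8 := hsymm (x k) (x km)
    have h9 := htri (x ka) (x k) (x kb)
    have h10 := hsymm (x ka) (x k)
    constructor <;> omega
  have hkb : km + 399 < kb := by
    by_contra hcon
    have := (rng kb (by omega) (by omega)).2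
    rw [hself] at this
    omega
  -- a clean block
  have blk : ∃ p, km ≤ p ∧ p + 104 ≤ km + 350 ∧ ∀ k, p ≤ k → k ≤ p + 104 → ¬ B1 k ∧ ¬ B2 k := by
    by_contra hcon
    push Not at hcon
    have bad : ∀ p, km ≤ p → p + 104 ≤ km + 350 → ∃ k, p ≤ k ∧ k ≤ p + 104 ∧ (B1 k ∨ B2 k) := by
      intro p h1 h2
      obtain ⟨k, h3, h4, h5⟩ := hcon p h1 h2
      refine ⟨k, h3, h4, ?_⟩
      by_cases c1 : B1 k
      · exact Or.inl c1
      · exact Or.inr (h5 c1)
    obtain ⟨k0, a0, b0, c0⟩ := bad km (by omega) (by omega)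
    obtain ⟨k1, a1, b1, c1⟩ := bad (km + 105) (by omega) (by omega)
    obtain ⟨k2, a2, b2, c2⟩ := bad (km + 210) (by omega) (by omega)
    rcases c0 with c0 | c0 <;> rcases c1 with c1 | c1 <;> rcases c2 with c2 | c2
    all_goals first
      | exact u1 k0 k1 (by omega) (by omega) c0 c1
      | exact u1 k0 k2 (by omega) (by omega) c0 c2
      | exact u1 k1 k2 (by omega) (by omega) c1 c2
      | exact u2 k0 k1 (by omega) (by omega) c0 c1
      | exact u2 k0 k2 (by omega) (by omega) c0 c2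
      | exact u2 k1 k2 (by omega) (by omega) c1 c2
  obtain ⟨p, hp1, hp2, hp3⟩ := blk
  refine ⟨p + 2, by omega, by omega, fun k h1 h2 => ?_⟩
  have h3 := hp3 k (by omega) (by omega)
  have h4 := rng k (by omega) (by omega)
  exact ⟨h3.1, h3.2, h4.1, h4.2⟩

section

variable {G G' : Type} [Group G] [Group G'] {d : G → G → ℕ} {d' : G' → G' → ℕ}
    {C Δ R n q A L Ax L1 L2 km h M0 lam Θ M1 : ℕ} {F : Set G}
    {H : Hubs d (Lx d (100 * C)) C} {H' : Hubs d' (Lx d' (100 * C)) C} {Tm : ℝ} {π : G →* G'}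

theorem big_h (K : KHyp d d' C Δ R n q A L Ax L1 L2 km h M0 lam Θ M1 F H H' Tm π) :
    1000 < h := by
  have e1 := K.hc3.hh
  have e2 : (1 : ℝ) ≤ M1 := by exact_mod_cast K.hM1
  have e3 : (0 : ℝ) ≤ Tm := by
    have e1 := K.hc.cst.hT
    have e3 : (0 : ℝ) ≤ R := Nat.cast_nonneg R
    linarith
  have e4 : (0 : ℝ) ≤ C := Nat.cast_nonneg C
  have e5 : (1000 : ℝ) < h := by
    have e6 : 10 ^ 4 * (1 : ℝ) * 1000 ≤ 10 ^ 4 * (M1 : ℝ) * (Tm + 1000 + 100 * C) := by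
      apply mul_le_mul
      · linarith
      · linarith
      · norm_num
      · positivity
    linarith
  exact_mod_cast e5

/-- the two kinds of bad indices are isolated -/
theorem bad1 {S r : G} {a : ℤ} {g : ℤ → G} {b : ℤ → ℤ} {u v : G} {θ : ℤ → ℝ}
    (hh : 1000 < h) (hw : WCh H F π n q L2 h M0 lam Θ S r a g b u v θ) (k k' : ℤ) (h1 : k < k')
    (h2 : k' ≤ k + 400) (b1 : |θ k| < 5 * (Θ : ℝ)) : ¬ |θ k'| < 5 * (Θ : ℝ) := by
  intro b2
  have hnd : ¬ (h : ℤ) ∣ k - k' := by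
    intro hd
    have := Int.eq_zero_of_abs_lt_dvd hd (by rw [abs_lt]; constructor <;> omega)
    omega
  have e1 := hw.circ k k' hnd 0
  push_cast at e1
  rw [zero_mul, add_zero] at e1
  have := abs_sub (θ k) (θ k')
  linarith

theorem bad2 {S r : G} {a : ℤ} {g : ℤ → G} {b : ℤ → ℤ} {u v : G} {θ : ℤ → ℝ}
    (hh : 1000 < h) (hw : WCh H F π n q L2 h M0 lam Θ S r a g b u v θ)
    (hhalf : ∀ k, 2 * |θ k| ≤ H.T (r ^ n)) (k k' : ℤ) (h1 : k < k')
    (h2 : k' ≤ k + 400) (b1 : H.T (r ^ n) < 2 * |θ k| + 10 * (Θ : ℝ)) :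
    ¬ H.T (r ^ n) < 2 * |θ k'| + 10 * (Θ : ℝ) := by
  intro b2
  have hnd : ¬ (h : ℤ) ∣ k - k' := by
    intro hd
    have := Int.eq_zero_of_abs_lt_dvd hd (by rw [abs_lt]; constructor <;> omega)
    omega
  have e0 := hw.circ k k' hnd 0
  have e1 := hw.circ k k' hnd 1
  have e2 := hw.circ k k' hnd (-1)
  have f1 := hhalf k
  have f2 := hhalf k'
  have hΘ : (0 : ℝ) ≤ Θ := Nat.cast_nonneg Θ
  push_cast at e0 e1 e2
  rcases le_total 0 (θ k) with s1 | s1 <;> rcases le_total 0 (θ k') with s2 | s2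
  · rw [abs_of_nonneg s1] at b1 f1
    rw [abs_of_nonneg s2] at b2 f2
    have : |θ k - θ k' + 0 * H.T (r ^ n)| < 10 * (Θ : ℝ) := by
      rw [abs_lt]
      constructor <;> linarith
    linarith
  · rw [abs_of_nonneg s1] at b1 f1
    rw [abs_of_nonpos s2] at b2 f2
    have : |θ k - θ k' + -1 * H.T (r ^ n)| < 10 * (Θ : ℝ) := by
      rw [abs_lt]
      constructor <;> linarith
    linarith
  · rw [abs_of_nonpos s1] at b1 f1
    rw [abs_of_nonneg s2] at b2 f2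
    have : |θ k - θ k' + 1 * H.T (r ^ n)| < 10 * (Θ : ℝ) := by
      rw [abs_lt]
      constructor <;> linarith
    linarith
  · rw [abs_of_nonpos s1] at b1 f1
    rw [abs_of_nonpos s2] at b2 f2
    have : |θ k - θ k' + 0 * H.T (r ^ n)| < 10 * (Θ : ℝ) := by
      rw [abs_lt]
      constructor <;> linarith
    linarith

/-- a point near the axis is near the chain -/
theorem near_chain (hG' : HypG d' 2000) {S r : G} {a : ℤ} {g : ℤ → G} {b : ℤ → ℤ} {u v : G}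
    {θ : ℤ → ℝ} (_hw : WCh H F π n q L2 h M0 lam Θ S r a g b u v θ) (hx : WAx H' π L1 h Tm g u)
    (t : G) (ρ : ℕ) (p : G') (hp : Nh d' ρ (H'.Z (π t * π (g h) * (π t)⁻¹)) p) :
    ∃ k, d' (π (t * g k * u)) p ≤ L1 + ρ := by
  obtain ⟨z, hz, hd⟩ := hp
  have hz' : π t * ((π t)⁻¹ * z) ∈ H'.Z (π t * π (g h) * (π t)⁻¹) := by
    rw [mul_inv_cancel_left]
    exact hz
  have h1 := (H'.Zconj _ hx.mem (π t) _).1 hz'
  obtain ⟨k, hk⟩ := hx.cov _ h1
  refine ⟨k, ?_⟩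
  have h2 := hG'.inv (π t) (π (g k * u)) ((π t)⁻¹ * z)
  rw [mul_inv_cancel_left, ← map_mul, ← mul_assoc] at h2
  have h3 := hG'.path.tri (π (t * g k * u)) z p
  have h4 := hG'.path.symm z p
  omega

end

end KW

open KW in
theorem stKW : StKW := by
  intro G G' _ _ d d' C Δ R n q A L Ax L1 L2 km h M0 lam Θ M1 F H H' Tm π K S1 r1 a1 g1 b1 u1 v1
    θ1 S2 r2 a2 g2 b2 u2 v2 θ2 hw1 hx1 hw2 hx2 t1 t2 a b hab ha1 hb1 ha2 hb2
  obtain ⟨nC, nL, nL1, nC2, -, nΔ, nR, nΘ, nRΘ, nΘ'⟩ := K.nums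
  have hG' : HypG d' 2000 := K.hS'.toHypG
  have hh := big_h K
  have hself : ∀ x, d' x x = 0 := fun x => (hG'.path.zero_iff x x).2 rfl
  have hsymm := hG'.path.symm
  have htri := hG'.path.tri
  have hCL : 1000 * C ≤ L1 := by omega
  -- a point at distance 60 L1
  obtain ⟨b', hb', hab'⟩ := hG'.path.geod a b (60 * L1) hab
  have X1 : π t1 * π (g1 h) * (π t1)⁻¹ ∈ Lx d' (100 * C) := H'.Xconj _ hx1.mem _
  have X2 : π t2 * π (g2 h) * (π t2)⁻¹ ∈ Lx d' (100 * C) := H'.Xconj _ hx2.mem _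
  have nb1 := hl_qc hG' H' K.hC X1 ha1 hb1 hb'
  have nb2 := hl_qc hG' H' K.hC X2 ha2 hb2 hb'
  obtain ⟨ka, hka⟩ := near_chain hG' hw1 hx1 t1 _ a ha1
  obtain ⟨kb, hkb⟩ := near_chain hG' hw1 hx1 t1 _ b' nb1
  obtain ⟨la, hla⟩ := near_chain hG' hw2 hx2 t2 _ a ha2
  obtain ⟨lb, hlb⟩ := near_chain hG' hw2 hx2 t2 _ b' nb2
  have hL0 : 0 < L1 := by omega
  have d1 : d' (π (t1 * g1 ka * u1)) (π (t2 * g2 la * u2)) ≤ 9 * L1 := by
    have h1 := htri (π (t1 * g1 ka * u1)) a (π (t2 * g2 la * u2))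
    have h2 := hsymm a (π (t2 * g2 la * u2))
    omega
  have d2 : d' (π (t1 * g1 kb * u1)) (π (t2 * g2 lb * u2)) ≤ 9 * L1 := by
    have h1 := htri (π (t1 * g1 kb * u1)) b' (π (t2 * g2 lb * u2))
    have h2 := hsymm b' (π (t2 * g2 lb * u2))
    omega
  have d3 : 51 * L1 ≤ d' (π (t1 * g1 ka * u1)) (π (t1 * g1 kb * u1)) := by
    have h1 := htri a (π (t1 * g1 ka * u1)) b'
    have h2 := htri (π (t1 * g1 ka * u1)) (π (t1 * g1 kb * u1)) b'
    have h3 := hsymm a (π (t1 * g1 ka * u1))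
    omega
  have d4 : d' (π (t2 * g2 la * u2)) (π (t2 * g2 lb * u2)) ≤ 70 * L1 := by
    have h1 := htri (π (t2 * g2 la * u2)) a (π (t2 * g2 lb * u2))
    have h2 := htri a b' (π (t2 * g2 lb * u2))
    have h3 := hsymm b' (π (t2 * g2 lb * u2))
    omega
  have dt : ∀ (t : G) (g : ℤ → G) (u : G) (k l : ℤ), d' (π (t * g k * u)) (π (t * g l * u)) =
      d' (π (g k * u)) (π (g l * u)) := by
    intro t g u k l
    have := hG'.inv (π t) (π (g k * u)) (π (g l * u))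
    rw [← map_mul, ← map_mul, ← mul_assoc, ← mul_assoc] at this
    exact this
  have hm : max la lb < min la lb + h := by
    rcases le_total la lb with hl | hl
    · rw [max_eq_right hl, min_eq_left hl]
      by_contra hcon
      have h1 := hx2.far la lb (by omega)
      rw [dt t2 g2 u2] at d4
      omega
    · rw [max_eq_left hl, min_eq_right hl]
      by_contra hcon
      have h1 := hx2.far lb la (by omega)
      rw [dt t2 g2 u2, hsymm] at d4
      omega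
  have hT : ∀ k, H.T (t1 * g1 k * r1 ^ n * (t1 * g1 k)⁻¹) = H.T (r1 ^ n) := by
    intro k
    have h1 : (t1 * g1 k * r1 ^ n * (t1 * g1 k)⁻¹) ∈ Lx d (100 * C) :=
      K.hR.sub ((hw1.tr t1).hf k)
    have h2 := H.Tconj _ h1 (t1 * g1 k)⁻¹
    rw [← h2]
    congr 1
    group
  have hhalf : ∀ k, 2 * |θ1 k| ≤ H.T (r1 ^ n) := by
    intro k
    have := (hw1.tr t1).half k
    rw [hT] at this
    exact this
  have hstep : ∀ k, 10 ^ 6 * d' (π (t1 * g1 k * u1)) (π (t1 * g1 (k + 1) * u1)) ≤ L1 := by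
    intro k
    rw [dt]
    exact hx1.step k
  have concl : ∀ k, ¬ |θ1 k| < 5 * (Θ : ℝ) → ¬ H.T (r1 ^ n) < 2 * |θ1 k| + 10 * (Θ : ℝ) →
      5 * (Θ : ℝ) ≤ |θ1 k| ∧
        2 * |θ1 k| + 10 * (Θ : ℝ) ≤ H.T (t1 * g1 k * r1 ^ n * (t1 * g1 k)⁻¹) := by
    intro k c1 c2
    rw [hT]
    exact ⟨not_lt.1 c1, not_lt.1 c2⟩
  rcases lt_trichotomy ka kb with hlt | heq | hlt
  · obtain ⟨s, s1, s2, s3⟩ := window hself hsymm htri hL0 (fun k => π (t1 * g1 k * u1)) hstep hlt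
      d3 (fun k => |θ1 k| < 5 * (Θ : ℝ)) (fun k => H.T (r1 ^ n) < 2 * |θ1 k| + 10 * (Θ : ℝ))
      (bad1 hh hw1) (bad2 hh hw1 hhalf)
    refine ⟨ka, kb, la, lb, s, d1, d2, s1, s2, hm, fun k y1 y2 => ?_⟩
    obtain ⟨w1, w2, w3, w4⟩ := s3 k y1 y2
    obtain ⟨c1, c2⟩ := concl k w1 w2
    refine ⟨c1, c2, ?_, ?_⟩
    · have : 9 * L1 + 4000 ≤ 24 * L1 := by omega
      exact this.trans w3
    · have : 9 * L1 + 4000 ≤ 24 * L1 := by omega
      exact this.trans w4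
  · exfalso
    rw [heq, hself] at d3
    omega
  · obtain ⟨s, s1, s2, s3⟩ := window hself hsymm htri hL0 (fun k => π (t1 * g1 k * u1)) hstep hlt
      (by rw [hsymm]; exact d3) (fun k => |θ1 k| < 5 * (Θ : ℝ))
      (fun k => H.T (r1 ^ n) < 2 * |θ1 k| + 10 * (Θ : ℝ))
      (bad1 hh hw1) (bad2 hh hw1 hhalf)
    refine ⟨kb, ka, lb, la, s, d2, d1, s1, s2, by rw [max_comm, min_comm]; exact hm,
      fun k y1 y2 => ?_⟩
    obtain ⟨w1, w2, w3, w4⟩ := s3 k y1 y2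
    obtain ⟨c1, c2⟩ := concl k w1 w2
    refine ⟨c1, c2, ?_, ?_⟩
    · have : 9 * L1 + 4000 ≤ 24 * L1 := by omega
      exact this.trans w3
    · have : 9 * L1 + 4000 ≤ 24 * L1 := by omega
      exact this.trans w4

end Pool.Agent.Helper74.TB
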