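import Pool.Agent.Helper74.TB.HL

/-! MP_7d16da_al: further consequences of the `Hubs` interface (module HL2). -/

set_option autoImplicit false

namespace Pool.Agent.Helper74.TB

open Pool.Agent.Helper74.MH

variable {G : Type*} [Group G] {d : G → G → ℕ} {δ C Δ : ℕ} {X F : Set G} {Tm : ℝ}

/-- The length is the stable translation length. -/
theorem hl_len (hG : HypG d δ) (H : Hubs d X C) {f : G} (hf : f ∈ X) (x : G) :
    ∃ E : ℝ, ∀ m : ℕ, |(d x (f ^ m * x) : ℝ) - m * H.T f| ≤ E := by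
  refine ⟨C + 2 * (d x (H.pr f x) : ℝ), fun m => ?_⟩
  have hz := H.pr_mem f hf x
  set z := H.pr f x with hzdef
  have hfz : f ^ m * z ∈ H.Z f := by
    have := (hl_Zpow H hf z (m : ℤ)).2 hz
    rwa [zpow_natCast] at this
  have h1 := H.on f hf z hz _ hfz
  have h2 := hl_zpow H hf z (m : ℤ)
  rw [zpow_natCast] at h2
  have h3 := H.lip f hf z (f ^ m * z)
  have hT := hl_Tpos H hf
  have hm : (0 : ℝ) ≤ (m : ℝ) * H.T f := mul_nonneg (Nat.cast_nonneg m) hT
  rw [h2] at h1 h3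
  have e1 : ((m : ℤ) : ℝ) = (m : ℝ) := by push_cast; rfl
  rw [e1, abs_of_nonneg hm] at h1 h3
  have t1 := hG.path.tri x z (f ^ m * x)
  have t2 := hG.path.tri z (f ^ m * z) (f ^ m * x)
  have t3 := hG.inv (f ^ m) z x
  have t4 := hG.path.tri z x (f ^ m * z)
  have t5 := hG.path.tri x (f ^ m * x) (f ^ m * z)
  have t6 := hG.inv (f ^ m) x z
  have t7 := hG.path.symm z x
  have u1 : d x (f ^ m * x) ≤ d z (f ^ m * z) + 2 * d x z := by omega
  have u2 : d z (f ^ m * z) ≤ d x (f ^ m * x) + 2 * d x z := by omega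
  have u1' : (d x (f ^ m * x) : ℝ) ≤ d z (f ^ m * z) + 2 * d x z := by exact_mod_cast u1
  have u2' : (d z (f ^ m * z) : ℝ) ≤ d x (f ^ m * x) + 2 * d x z := by exact_mod_cast u2
  have hC : (0 : ℝ) ≤ C := Nat.cast_nonneg C
  rw [abs_le]
  constructor <;> linarith

theorem conj_of_commute {f g : G} (h : Commute f g) : g * f * g⁻¹ = f := by
  rw [← h.eq, mul_inv_cancel_right]

/-- Commuting elements have parallel axes. Proof: `|x gx| ≤ |Φ_f(x,gx)| + C`,
`|Φ_f(x,g^M x) - M Φ_f(x,gx)| ≤ M C`, `|x g^M x| ≤ M T_g + const`, so `|x gx| ≤ T_g + 2C`, and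
`hl_dispZ`. -/
theorem hl_comm (hG : HypG d δ) (H : Hubs d X C) (hC : 1 ≤ C) {f g : G} (hf : f ∈ X)
    (hg : g ∈ X) (hfg : Commute f g) {x : G} (hx : x ∈ H.Z f) : Nh d (2 * C) (H.Z g) x := by
  have hC0 : (1 : ℝ) ≤ C := by exact_mod_cast hC
  have hgx : g * x ∈ H.Z f := by
    have := (H.Zconj f hf g x).2 hx
    rwa [conj_of_commute hfg] at this
  have h1 := H.on f hf x hx _ hgx
  -- powers
  have hpow : ∀ M : ℕ, |H.Φ f x (g ^ M * x) - M * H.Φ f x (g * x)| ≤ M * C := by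
    intro M
    induction M with
    | zero =>
      rw [pow_zero, one_mul, hl_refl H hf]
      push_cast
      rw [zero_mul, zero_mul, sub_zero, abs_zero]
    | succ M ih =>
      have c1 := H.coc f hf x (g ^ M * x) (g ^ (M + 1) * x)
      have c2 := H.equi f hf (g ^ M) x (g * x)
      rw [conj_of_commute (hfg.pow_right M), ← mul_assoc, ← pow_succ] at c2
      rw [abs_le] at ih c2 ⊢
      push_cast
      constructor <;> linarith [ih.1, ih.2, c2.1, c2.2]
  obtain ⟨E, hE⟩ := hl_len hG H hg x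
  -- the estimate of the signed length
  have h2 : |H.Φ f x (g * x)| ≤ H.T g + C := by
    by_contra hcon
    push Not at hcon
    set ε := |H.Φ f x (g * x)| - (H.T g + C) with hε
    have hεpos : 0 < ε := by linarith
    obtain ⟨M, hM⟩ := exists_nat_gt (E / ε)
    have hM1 : E < M * ε := by rwa [div_lt_iff₀ hεpos] at hM
    have k1 := hpow M
    have k2 := H.lip f hf x (g ^ M * x)
    have k3 := (abs_le.1 (hE M)).2
    have k4 : (M : ℝ) * |H.Φ f x (g * x)| ≤ |H.Φ f x (g ^ M * x)| + M * C := by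
      have : (M : ℝ) * |H.Φ f x (g * x)| = |(M : ℝ) * H.Φ f x (g * x)| := by
        rw [abs_mul, Nat.abs_cast]
      rw [this]
      have k5 := abs_sub_abs_le_abs_sub ((M : ℝ) * H.Φ f x (g * x)) (H.Φ f x (g ^ M * x))
      rw [abs_sub_comm] at k1
      linarith
    have k6 : (M : ℝ) * ε = M * |H.Φ f x (g * x)| - M * H.T g - M * C := by
      rw [hε]; ring
    linarith
  have h3 := hl_dispZ hG H hg x
  refine ⟨H.pr g x, H.pr_mem g hg x, ?_⟩
  have h4 : 2 * (d x (H.pr g x) : ℝ) ≤ 3 * C := by linarith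
  have h5 : 2 * d x (H.pr g x) ≤ 3 * C := by exact_mod_cast h4
  omega

end Pool.Agent.Helper74.TB
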