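import Pool.Agent.Helper74.TB.StL

/-! MP_7d16da_al: conjugacy, exponent and centralizers in the limit group (Part L3). -/

set_option autoImplicit false

namespace Pool.Agent.Helper74.TB

open Pool.Agent.Helper74.MH

/-- The quotient map contracts distances by the factor `R`. -/
theorem quo_lip {G G' : Type*} [Group G] [Group G'] {d : G → G → ℕ} {δ C R : ℕ} {X F : Set G}
    {H : Hubs d X C} {π : G →* G'} {d' : G' → G' → ℕ} (hG : HypG d δ) (hQ : Quo H F R π d')
    (k : ℕ) : ∀ x y : G, d x y ≤ R * k → d' (π x) (π y) ≤ k := by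
  induction k with
  | zero =>
    intro x y h
    have h1 : d x y = 0 := by simpa using h
    rw [(hG.path.zero_iff x y).1 h1, (hQ.path.zero_iff _ _).2 rfl]
  | succ k ih =>
    intro x y h
    obtain ⟨z, hz1, hz2⟩ := hG.path.geod x y (min R (d x y)) (min_le_right _ _)
    have h1 : d' (π x) (π z) ≤ 1 := by
      refine (hQ.adj _ _).2 ⟨x, z, rfl, rfl, Or.inl ?_⟩
      rw [hz2]
      exact min_le_left _ _
    have h2 : d z y ≤ R * k := by
      unfold MH.Btw at hz1
      rw [hz2] at hz1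
      rw [Nat.mul_succ] at h
      rcases le_total R (d x y) with h3 | h3
      · rw [min_eq_left h3] at hz1
        omega
      · rw [min_eq_right h3] at hz1
        have : d z y = 0 := by omega
        rw [this]
        exact Nat.zero_le _
    have h3 := ih z y h2
    have h4 := hQ.path.tri (π x) (π z) (π y)
    omega

section

variable {B : Type} [Group B] {P : Par} {M1 T0 : ℕ} {T : Tow B P.C}
  {deg : B →* Multiplicative (ZMod P.n)} {D : Type} [Group D] {ω : B →* D}

theorem lim_up (hT : T.Good P deg) {i j : ℕ} (hij : i ≤ j) {b : B} (h : T.p i b = 1) :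
    T.p j b = 1 := by
  induction hij with
  | refl => exact h
  | step _ ih =>
    rw [← hT.comp, ih, map_one]

theorem lim_one (hL : Lim T ω) {i : ℕ} {b : B} (h : T.p i b = 1) : ω b = 1 :=
  (hL.ker b).2 ⟨i, h⟩

theorem lim_eq (hL : Lim T ω) {i : ℕ} {b b' : B} (h : T.p i b = T.p i b') : ω b = ω b' := by
  have h1 : T.p i (b⁻¹ * b') = 1 := by
    rw [map_mul, map_inv, h, inv_mul_cancel]
  have h2 := lim_one hL h1
  rw [map_mul, map_inv] at h2
  exact inv_mul_eq_one.1 h2

theorem lim_tc (hT : T.Good P deg) (hL : Lim T ω) (i : ℕ) (bg bh z : B)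
    (hg : (T.p i bg) ^ P.n = 1) (hh : (T.p i bh) ^ P.n = 1)
    (he : ω bg = ω z * ω bh * (ω z)⁻¹) :
    ∃ bt : B, ω bt = ω z ∧ T.p i bg = T.p i bt * T.p i bh * (T.p i bt)⁻¹ := by
  have h1 : ω (bg⁻¹ * (z * bh * z⁻¹)) = 1 := by
    rw [map_mul, map_mul, map_mul, map_inv, map_inv, he, inv_mul_cancel]
  obtain ⟨j, hj⟩ := (hL.ker _).1 h1
  have h2 : T.p (max i j) (bg⁻¹ * (z * bh * z⁻¹)) = 1 := lim_up hT (le_max_right i j) hj
  have h3 : T.p (max i j) bg = T.p (max i j) z * T.p (max i j) bh * (T.p (max i j) z)⁻¹ := by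
    rw [map_mul, map_mul, map_mul, map_inv, map_inv] at h2
    exact inv_mul_eq_one.1 h2
  have key : ∀ k : ℕ, (∃ bt : B, ω bt = ω z ∧
      T.p (i + k) bg = T.p (i + k) bt * T.p (i + k) bh * (T.p (i + k) bt)⁻¹) →
      ∃ bt : B, ω bt = ω z ∧ T.p i bg = T.p i bt * T.p i bh * (T.p i bt)⁻¹ := by
    intro k
    induction k with
    | zero => exact fun h => h
    | succ k ih =>
      rintro ⟨bt, e1, e2⟩
      apply ih
      have g1 : (T.p (i + k) bg) ^ P.n = 1 := by
        rw [← map_pow]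
        rw [← map_pow] at hg
        exact lim_up hT (Nat.le_add_right i k) hg
      have g2 : (T.p (i + k) bh) ^ P.n = 1 := by
        rw [← map_pow]
        rw [← map_pow] at hh
        exact lim_up hT (Nat.le_add_right i k) hh
      have e3 : T.π (i + k) (T.p (i + k) bg) = T.p (i + k + 1) bt *
          T.π (i + k) (T.p (i + k) bh) * (T.p (i + k + 1) bt)⁻¹ := by
        rw [hT.comp, hT.comp]
        exact e2
      obtain ⟨t, ht1, ht2⟩ := (hT.tors (i + k)).t11 _ _ g1 g2 _ e3
      obtain ⟨b', hb'⟩ := hT.surj (i + k) t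
      refine ⟨b', ?_, ?_⟩
      · rw [← e1]
        refine lim_eq hL (i := i + k + 1) ?_
        rw [← hT.comp, hb', ht1]
      · rw [hb']
        exact ht2
  have h4 : max i j = i + (max i j - i) := by omega
  refine key (max i j - i) ⟨z, rfl, ?_⟩
  rw [← h4]
  exact h3

theorem lim_exp (hP : P.Ok M1 T0) (hT : T.Good P deg) (b : B) :
    ∃ i, (T.p i b) ^ P.n = 1 := by
  have c1 := hP.cst2.cst.hR
  have c2 := hP.cst2.cst.hΔ
  have c3 := hP.cst2.cst.hC
  have hR : 2 ≤ P.R := by omega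
  have hL1 : 1 ≤ P.L1 := by
    have d1 := hP.hL
    have d2 := hP.cst2.hL1
    omega
  have key : ∀ N : ℕ, ∀ i : ℕ, T.d i 1 (T.p i b) ≤ N → ∃ i, (T.p i b) ^ P.n = 1 := by
    intro N
    induction N with
    | zero =>
      intro i h
      refine ⟨i, ?_⟩
      have h1 : T.d i 1 (T.p i b) = 0 := by omega
      rw [← ((hT.stage i).path.zero_iff _ _).1 h1, one_pow]
    | succ N ih =>
      intro i h
      by_cases hs : T.d i 1 (T.p i b) ≤ 1
      · by_cases ht : (T.p i b) ^ P.n = 1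
        · exact ⟨i, ht⟩
        · obtain ⟨f, hf, hc⟩ := (hT.rels i).short _ ht ⟨1, by
            rw [mul_one]
            exact hs.trans hL1⟩
          obtain ⟨m, hm⟩ := (hT.rels i).cent f hf _ hc
          refine ⟨i + 1, ?_⟩
          have h1 : T.π i f = 1 := ((hT.quo i).ker f).2 (Subgroup.subset_closure hf)
          rw [← hT.comp, ← map_pow, hm, map_zpow, h1, one_zpow]
      · refine ih (i + 1) ?_
        have h1 := quo_lip (hT.stage i).toHypG (hT.quo i) N 1 (T.p i b) (by
          have : 2 * N ≤ P.R * N := Nat.mul_le_mul_right _ hR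
          omega)
        rw [map_one, hT.comp] at h1
        exact h1
  exact key _ 0 le_rfl

theorem stage_fin {G : Type*} [Group G] {d : G → G → ℕ} {δ n q A L : ℕ}
    (hS : Stage d δ n q A L) {c : G} {k : ℤ} (hk : k ≠ 0) (hn : 1 ≤ n)
    (hc : (c ^ k) ^ n = 1) : c ^ n = 1 := by
  rcases hS.tor c with h | h
  · exact h
  · exfalso
    have h1 : c ^ (k.natAbs * n) = 1 := by
      have h2 : c ^ (k * (n : ℤ)) = 1 := by
        rw [zpow_mul, zpow_natCast]
        exact hc
      rcases Int.natAbs_eq k with h3 | h3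
      · rw [h3] at h2
        rw [← zpow_natCast]
        push_cast
        push_cast at h2
        exact h2
      · rw [h3] at h2
        rw [← zpow_natCast]
        push_cast
        push_cast at h2
        rw [neg_mul, zpow_neg, inv_eq_one] at h2
        exact h2
    have h2 := h 1 (k.natAbs * n)
    rw [h1, one_mul, (hS.path.zero_iff 1 1).2 rfl, Nat.mul_zero] at h2
    have h3 : 1 ≤ k.natAbs := Int.natAbs_pos.2 hk
    have h4 : 1 ≤ k.natAbs * n := Nat.one_le_iff_ne_zero.2 (by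
      have : k.natAbs ≠ 0 := by omega
      exact Nat.mul_ne_zero this (by omega))
    omega

theorem stage_centor {G : Type*} [Group G] {d : G → G → ℕ} {δ n q A L : ℕ}
    (hS : Stage d δ n q A L) (hn : 1 ≤ n) {s t : G} (hs : s ^ n = 1) (hs1 : s ≠ 1)
    (hst : Commute t s) : t ^ n = 1 := by
  obtain ⟨c, hc⟩ := hS.cyc s hs hs1
  obtain ⟨k, hk⟩ := Subgroup.mem_zpowers_iff.1 (hc s (Commute.refl s))
  obtain ⟨m, hm⟩ := Subgroup.mem_zpowers_iff.1 (hc t hst)
  have hk0 : k ≠ 0 := by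
    rintro rfl
    rw [zpow_zero] at hk
    exact hs1 hk.symm
  have h1 : c ^ n = 1 := stage_fin hS hk0 hn (by rw [hk]; exact hs)
  rw [← hm, ← zpow_natCast, ← zpow_mul, mul_comm, zpow_mul, zpow_natCast, h1, one_zpow]

/-- An element commuting with the value of a torsion element is the value of an element of its
centralizer. -/
theorem lim_comm (hT : T.Good P deg) (hL : Lim T ω) {i : ℕ} {b z : B}
    (hb : (T.p i b) ^ P.n = 1) (hz : Commute (ω z) (ω b)) :
    ∃ bt : B, ω bt = ω z ∧ Commute (T.p i bt) (T.p i b) := by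
  obtain ⟨bt, h1, h2⟩ := lim_tc hT hL i b b z hb hb (by
    rw [hz.eq, mul_inv_cancel_right])
  refine ⟨bt, h1, ?_⟩
  have h3 : T.p i b * T.p i bt = T.p i bt * T.p i b := by
    nth_rewrite 1 [h2]
    rw [inv_mul_cancel_right]
  exact h3.symm

end

theorem stLimA : StLimA := by
  intro B _ P M1 T0 T deg D _ ω hP hT hL
  have hn : 1 ≤ P.n := by
    have := hP.cst2.hn
    omega
  have hexp : ∀ z : D, z ^ P.n = 1 := by
    intro z
    obtain ⟨b, rfl⟩ := hL.surj z
    obtain ⟨i, hi⟩ := lim_exp hP hT b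
    rw [← map_pow] at hi ⊢
    exact lim_one hL hi
  refine ⟨?_, hexp, ?_, ?_⟩
  · intro i g h hg hh bg bh z e1 e2 e3
    subst e1 e2
    obtain ⟨bt, h1, h2⟩ := lim_tc hT hL i bg bh z hg hh e3
    exact ⟨T.p i bt, bt, rfl, h1, h2⟩
  · intro S hS
    obtain ⟨b, rfl⟩ := hL.surj S
    obtain ⟨i, hi⟩ := lim_exp hP hT b
    have hb1 : T.p i b ≠ 1 := fun h => hS (lim_one hL h)
    obtain ⟨c, hc⟩ := (hT.stage i).cyc _ hi hb1
    obtain ⟨bc, rfl⟩ := hT.surj i c
    refine ⟨ω bc, fun x hx => ?_⟩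
    obtain ⟨bx, rfl⟩ := hL.surj x
    obtain ⟨bt, h1, h2⟩ := lim_comm hT hL hi hx
    obtain ⟨k, hk⟩ := Subgroup.mem_zpowers_iff.1 (hc _ h2)
    rw [← h1]
    refine Subgroup.mem_zpowers_iff.2 ⟨k, ?_⟩
    rw [← map_zpow] at hk ⊢
    exact lim_eq hL hk
  · intro S g x hS hx h1 h2
    obtain ⟨b, rfl⟩ := hL.surj S
    obtain ⟨bg, rfl⟩ := hL.surj g
    obtain ⟨bx, rfl⟩ := hL.surj x
    obtain ⟨i, hi⟩ := lim_exp hP hT b
    have hb1 : T.p i b ≠ 1 := fun h => hS (lim_one hL h)
    obtain ⟨b1, e1, e2⟩ := lim_comm hT hL hi h1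
    rw [← map_inv, ← map_mul, ← map_mul] at h2
    obtain ⟨b2, e3, e4⟩ := lim_comm hT hL hi h2
    have t1 := stage_centor (hT.stage i) hn hi hb1 e2
    have t2 := stage_centor (hT.stage i) hn hi hb1 e4
    obtain ⟨bu, e5, e6⟩ := lim_tc hT hL i b2 b1 bg t2 t1 (by
      rw [e3, e1, map_mul, map_mul, map_inv])
    have hx1 : T.p i b1 ≠ 1 := fun h => hx (by rw [← e1]; exact lim_one hL h)
    have e7 := (hT.stage i).mal (T.p i b) (T.p i b1) (T.p i bu) hi hb1 hx1 e2 (by
      rw [← e6]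
      exact e4)
    rw [← e5]
    have e8 : T.p i (bu * b) = T.p i (b * bu) := by
      rw [map_mul, map_mul]
      exact e7.eq
    have e9 := lim_eq hL e8
    rw [map_mul, map_mul] at e9
    exact e9

end Pool.Agent.Helper74.TB
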