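import Pool.Agent.Helper74.TB.HL

/-! MP_7d16da_al: statements of Part A and Part C. -/

set_option autoImplicit false

namespace Pool.Agent.Helper74.TB

open Pool.Agent.Helper74.MH

/-- Part A: coarse axes exist for all elements moving every point at least `100 C`. -/
def StA : Prop :=
  ∀ δ : ℕ, 1 ≤ δ → ∃ C : ℕ, 100 * δ ≤ C ∧
    ∀ (G : Type) [Group G] (d : G → G → ℕ), HypG d δ → Nonempty (Hubs d (Lx d (100 * C)) C)

/-- Part C: Greendlinger's lemma. -/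
def StC : Prop :=
  ∀ (G : Type) [Group G] (d : G → G → ℕ) (δ C Δ : ℕ) (X F : Set G) (H : Hubs d X C) (Tm : ℝ),
    HypG d δ → 100 * δ ≤ C → Fam H F Δ Tm → 100 * (Δ : ℝ) ≤ Tm →
    ∀ k ∈ Subgroup.closure F, k ≠ 1 → ∀ x, ∃ f ∈ F, H.T f - 20 * Δ ≤ |H.Φ f x (k * x)|

end Pool.Agent.Helper74.TB
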