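import Pool.Agent.Helper74.TB.StL
import Pool.Agent.Helper74.TB.StAC

/-!
MP_7d16da_al, Part L6: construction of the tower.
See /team-store/MP_7d16da-plan.md.
-/

set_option autoImplicit false

namespace Pool.Agent.Helper74.TB

open Pool.Agent.Helper74.MH

/-! ### monotonicity of the constants -/

theorem Cst2.anti {δ C Δ R n q L Ax L1 M M' : ℕ} {Tm : ℝ}
    (h : Cst2 δ C Δ R n q L Ax L1 M Tm) (hM : M' ≤ M) : Cst2 δ C Δ R n q L Ax L1 M' Tm where
  cst := h.cst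
  odd := h.odd
  hn := h.hn
  hq := (Nat.mul_le_mul_left _ hM).trans h.hq
  hL := h.hL
  hL1 := h.hL1
  hAx := h.hAx
  hΔ := h.hΔ
  hM := by
    refine le_trans ?_ h.hM
    have h1 : (M' : ℝ) ≤ M := by exact_mod_cast hM
    exact mul_le_mul_of_nonneg_right h1 (Nat.cast_nonneg _)

theorem Cst3.anti {C Δ R n q L1 L2 km h M0 lam Θ M M' : ℕ} {Tm : ℝ}
    (hc : Cst3 C Δ R n q L1 L2 km h M0 lam Θ M Tm) (hM : M' ≤ M) :
    Cst3 C Δ R n q L1 L2 km h M0 lam Θ M' Tm where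
  hL2 := hc.hL2
  hΘ := hc.hΘ
  hM0 := hc.hM0
  hlam := hc.hlam
  hk := hc.hk
  hh := by
    refine le_trans ?_ hc.hh
    have h1 : (M' : ℝ) ≤ M := by exact_mod_cast hM
    have h2 : 0 ≤ Tm := le_trans (by positivity) hc.hT
    have h3 : (0 : ℝ) ≤ Tm + 1000 + 100 * C := by positivity
    exact mul_le_mul_of_nonneg_right (mul_le_mul_of_nonneg_left h1 (by norm_num)) h3
  hn := hc.hn
  hT := hc.hT

/-! ### one stage of the tower -/

/-- A stage of the tower with its relators and the map from the free group. -/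
structure TowSt (P : Par) (deg : FreeGroup (Fin 2) →* Multiplicative (ZMod P.n)) where
  G : Type
  grp : Group G
  d : G → G → ℕ
  H : Hubs d (Lx d (100 * P.C)) P.C
  F : Set G
  p : FreeGroup (Fin 2) →* G
  surj : Function.Surjective p
  stage : Stage d 2000 P.n P.q (10 ^ 6 * P.L) P.L
  alg : Alg H P.n P.q P.L P.Ax
  rels : Rels H F P.n P.L1 P.Δ P.Tm
  fp : Fp d P.n P.L1 ⊆ F
  fw : ∀ f ∈ F, f ∉ Fp d P.n P.L1 → ∀ y, Commute y f ↔ y ∈ Subgroup.zpowers f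
  degF : ∀ f ∈ F, ∃ b, p b = f ∧ deg b = 1

attribute [instance] TowSt.grp

/-- Two consecutive stages. -/
structure TowRel {P : Par} {deg : FreeGroup (Fin 2) →* Multiplicative (ZMod P.n)}
    (s s' : TowSt P deg) (π : s.G →* s'.G) : Prop where
  comp : ∀ b, π (s.p b) = s'.p b
  quo : Quo s.H s.F P.R π s'.d
  word : ∀ (S r : s.G) (a : ℤ), Pair s.H P.n P.L1 P.L2 P.km S r a →
    (∃ b, s.p b = S ∧ deg b = 1) → (∃ b, s.p b = r ^ a ∧ deg b = 1) →
    π (ww S r a P.h (fun k => (P.M0 : ℤ) * P.lam ^ k)) ∈ s'.F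

/-! ### degrees -/

theorem deg_pow_n {B : Type} [Group B] {n : ℕ} (deg : B →* Multiplicative (ZMod n)) (b : B) :
    deg (b ^ n) = 1 := by
  rw [map_pow]
  apply Multiplicative.toAdd.injective
  rw [toAdd_pow, toAdd_one]
  simp

/-- the power relators have lifts of degree zero -/
theorem deg_Fp {B G : Type} [Group B] [Group G] {n L1 : ℕ} (deg : B →* Multiplicative (ZMod n))
    {p : B →* G} (hp : Function.Surjective p) {d : G → G → ℕ} :
    ∀ f ∈ Fp d n L1, ∃ b, p b = f ∧ deg b = 1 := by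
  rintro f ⟨g, r, -, -, -, rfl⟩
  obtain ⟨b, rfl⟩ := hp r
  exact ⟨b ^ n, map_pow _ _ _, deg_pow_n deg b⟩

/-- the words have lifts of degree zero -/
theorem deg_ww {B G : Type} [Group B] [Group G] {n : ℕ} (deg : B →* Multiplicative (ZMod n))
    {p : B →* G} {S r : G} {a : ℤ} {h : ℕ} {e : ℕ → ℤ} (hS : ∃ b, p b = S ∧ deg b = 1)
    (hr : ∃ b, p b = r ^ a ∧ deg b = 1) : ∃ b, p b = ww S r a h e ∧ deg b = 1 := by
  obtain ⟨bS, hbS, dS⟩ := hS
  obtain ⟨br, hbr, dr⟩ := hr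
  refine ⟨((List.range h).map (fun k => bS * br ^ (e k))).prod, ?_, ?_⟩
  · rw [map_list_prod, List.map_map]
    unfold ww
    congr 1
    apply List.map_congr_left
    intro k _
    rw [Function.comp_apply, map_mul, map_zpow, hbS, hbr, zpow_mul]
  · rw [map_list_prod, List.map_map]
    apply List.prod_eq_one
    intro x hx
    obtain ⟨k, -, rfl⟩ := List.mem_map.1 hx
    rw [Function.comp_apply, map_mul, map_zpow, dS, dr, one_zpow, one_mul]

theorem deg_conj {B : Type} [Group B] {n : ℕ} (deg : B →* Multiplicative (ZMod n)) {b : B}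
    (t : B) (hb : deg b = 1) : deg (t * b * t⁻¹) = 1 := by
  rw [map_mul, map_mul, hb, mul_one, ← map_mul, mul_inv_cancel, map_one]

theorem deg_Fw {B G G' : Type} [Group B] [Group G] [Group G'] {n L1 L2 km h C : ℕ}
    (deg : B →* Multiplicative (ZMod n)) {p : B →* G} {π : G →* G'}
    (hp : Function.Surjective (π.comp p)) {d : G → G → ℕ} {H : Hubs d (Lx d (100 * C)) C}
    {e : ℕ → ℤ} :
    ∀ f ∈ Fw H π n L1 L2 km h e
      (fun S r a => (∃ b, p b = S ∧ deg b = 1) ∧ ∃ b, p b = r ^ a ∧ deg b = 1),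
      ∃ b, π.comp p b = f ∧ deg b = 1 := by
  rintro f ⟨S, r, a, t, -, ⟨hS, hr⟩, hf⟩
  obtain ⟨w, hw, dw⟩ := deg_ww (h := h) (e := e) deg hS hr
  obtain ⟨bt, hbt⟩ := hp t
  have key : π.comp p (bt * w * bt⁻¹) = t * π (ww S r a h e) * t⁻¹ := by
    rw [map_mul, map_mul, map_inv, hbt, MonoidHom.comp_apply, hw]
  rcases hf with rfl | rfl
  · exact ⟨_, key, deg_conj deg bt dw⟩
  · refine ⟨(bt * w * bt⁻¹)⁻¹, ?_, ?_⟩
    · rw [map_inv, key]
    · rw [map_inv, deg_conj deg bt dw, inv_one]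

/-! ### the step -/

section

variable {P : Par} {M1 T0 : ℕ}

theorem Par.Ok.hC2 (hP : P.Ok M1 T0) : 100 * 2000 ≤ P.C := hP.hC

/-- The next stage. -/
theorem tow_step (hX : StX) (hPP : StP) (hQ : StQuo) (hP : P.Ok M1 T0) {M1s : ℕ}
    (hM1s : M1s ≤ M1)
    (hStep : ∀ (G G' : Type) [Group G] [Group G'] (d : G → G → ℕ) (d' : G' → G' → ℕ)
      (Δ R n q Ax L1 : ℕ) (F : Set G) (H : Hubs d (Lx d (100 * P.C)) P.C) (Tm : ℝ)
      (π : G →* G'), Stage d 2000 n q (10 ^ 6 * P.L) P.L → Alg H n q P.L Ax →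
      Rels H F n L1 Δ Tm → Cst2 2000 P.C Δ R n q P.L Ax L1 M1s Tm → Quo H F R π d' →
      (T0 : ℝ) * R ≤ Tm → Stage d' 2000 n q (10 ^ 6 * P.L) P.L)
    {M1k : ℕ} (hM1k : M1k ≤ M1)
    (hK : ∀ (G G' : Type) [Group G] [Group G'] (d : G → G → ℕ) (d' : G' → G' → ℕ)
      (C Δ R n q A L Ax L1 L2 km h M0 lam Θ : ℕ) (F : Set G) (H : Hubs d (Lx d (100 * C)) C)
      (H' : Hubs d' (Lx d' (100 * C)) C) (Tm : ℝ) (π : G →* G') (P : G → G → ℤ → Prop),
      Stage d 2000 n q A L → Alg H n q L Ax → 10 ^ 5 * q * L * C ≤ Ax →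
      Rels H F n L1 Δ Tm → Cst2 2000 C Δ R n q L Ax L1 M1k Tm → R ≤ 10 ^ 6 * L1 →
      Quo H F R π d' → Fp d n L1 ⊆ F →
      Stage d' 2000 n q A L → Alg H' n q L Ax → Rels H' (Fp d' n L1) n L1 Δ Tm →
      Cst3 C Δ R n q L1 L2 km h M0 lam Θ M1k Tm →
      Rels H' (Fp d' n L1 ∪ Fw H π n L1 L2 km h (fun k => M0 * lam ^ k) P) n L1 Δ Tm ∧
      ∀ w ∈ Fw H π n L1 L2 km h (fun k => M0 * lam ^ k) P, ∀ y,
        Commute y w ↔ y ∈ Subgroup.zpowers w)
    (hHub : ∀ (G : Type) [Group G] (d : G → G → ℕ), HypG d 2000 →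
      Nonempty (Hubs d (Lx d (100 * P.C)) P.C))
    {deg : FreeGroup (Fin 2) →* Multiplicative (ZMod P.n)} (s : TowSt P deg) :
    ∃ (s' : TowSt P deg) (π : s.G →* s'.G), TowRel s s' π := by
  have hcst := hP.cst2
  have hC := hP.hC
  have hR1 : 1 ≤ P.R := by
    have h1 := hcst.cst.hR
    have h2 := hcst.cst.hΔ
    omega
  obtain ⟨G', grp', π, d', hquo⟩ := hQ s.G s.d 2000 P.C P.Δ P.R _ s.F s.H P.Tm s.stage.toHypG
    s.rels.toFam hR1
  have hst' : Stage d' 2000 P.n P.q (10 ^ 6 * P.L) P.L :=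
    hStep s.G G' s.d d' P.Δ P.R P.n P.q P.Ax P.L1 s.F s.H P.Tm π s.stage s.alg s.rels
      (hcst.anti hM1s) hquo hP.hT0
  obtain ⟨H'⟩ := hHub G' d' hst'.toHypG
  have hδC : 100 * 2000 ≤ P.C := hC
  have halg' : Alg H' P.n P.q P.L P.Ax :=
    hX G' d' 2000 P.C P.n P.q (10 ^ 6 * P.L) P.L P.Ax H' hst' hcst.odd hδC hcst.hL hP.hq hP.hAx
  have hrp' : Rels H' (Fp d' P.n P.L1) P.n P.L1 P.Δ P.Tm :=
    (hPP G' d' 2000 P.C P.n P.q (10 ^ 6 * P.L) P.L P.Ax P.L1 P.Δ P.Tm H' hst' hcst.odd hδC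
      (by omega) hcst.hL hP.hq halg' hcst.hL1 hcst.hAx hcst.hΔ hP.hqT hP.hqn).1
  have hAx5 : 10 ^ 5 * P.q * P.L * P.C ≤ P.Ax := le_trans (Nat.le_add_left _ _) hP.hAx
  have hk := hK s.G G' s.d d' P.C P.Δ P.R P.n P.q (10 ^ 6 * P.L) P.L P.Ax P.L1 P.L2 P.km P.h
    P.M0 P.lam P.Θ s.F s.H H' P.Tm π
    (fun S r a => (∃ b, s.p b = S ∧ deg b = 1) ∧ ∃ b, s.p b = r ^ a ∧ deg b = 1)
    s.stage s.alg hAx5 s.rels (hcst.anti hM1k) hP.hR hquo s.fp hst' halg' hrp'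
    (hP.cst3.anti hM1k)
  obtain ⟨hrels', hcen'⟩ := hk
  have hsurj : Function.Surjective (π.comp s.p) := by
    intro x
    obtain ⟨y, rfl⟩ := hquo.surj x
    obtain ⟨b, rfl⟩ := s.surj y
    exact ⟨b, rfl⟩
  refine ⟨{ G := G'
            grp := grp'
            d := d'
            H := H'
            F := Fp d' P.n P.L1 ∪ Fw s.H π P.n P.L1 P.L2 P.km P.h
              (fun k => (P.M0 : ℤ) * P.lam ^ k)
              (fun S r a => (∃ b, s.p b = S ∧ deg b = 1) ∧ ∃ b, s.p b = r ^ a ∧ deg b = 1)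
            p := π.comp s.p
            surj := hsurj
            stage := hst'
            alg := halg'
            rels := hrels'
            fp := Set.subset_union_left
            fw := ?_
            degF := ?_ }, π, ?_⟩
  · intro f hf hfp
    exact hcen' f (hf.resolve_left hfp)
  · intro f hf
    rcases hf with hf | hf
    · exact deg_Fp deg hsurj f hf
    · exact deg_Fw deg hsurj f hf
  · refine ⟨fun b => rfl, hquo, ?_⟩
    intro S r a hpair hS hr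
    refine Or.inr ⟨S, r, a, 1, hpair, ⟨hS, hr⟩, Or.inl ?_⟩
    rw [one_mul, inv_one, mul_one]

/-- The Greendlinger property of a stage. -/
theorem tow_green (hCC : StC) (hP : P.Ok M1 T0)
    {deg : FreeGroup (Fin 2) →* Multiplicative (ZMod P.n)} (s : TowSt P deg) :
    ∀ k ∈ Subgroup.closure s.F, k ≠ 1 → ∀ x, ∃ f ∈ s.F,
      s.H.T f - 20 * P.Δ ≤ |s.H.Φ f x (k * x)| := by
  have hcst := hP.cst2
  have hδC : 100 * 2000 ≤ P.C := hP.hC
  have hT : 100 * (P.Δ : ℝ) ≤ P.Tm := by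
    have h1 := hcst.cst.hcT
    have h2 : (0 : ℝ) ≤ P.Δ := Nat.cast_nonneg _
    linarith
  exact hCC s.G s.d 2000 P.C P.Δ _ s.F s.H P.Tm s.stage.toHypG hδC s.rels.toFam hT

/-- Torsion in the next stage. -/
theorem tow_tors (hH : StH) (hP : P.Ok M1 T0)
    {deg : FreeGroup (Fin 2) →* Multiplicative (ZMod P.n)} {s s' : TowSt P deg}
    {π : s.G →* s'.G} (h : TowRel s s' π) : Tors s.F π P.n :=
  hH s.G s'.G s.d s'.d 2000 P.C P.Δ P.R P.n P.q (10 ^ 6 * P.L) P.L P.Ax P.L1 M1 s.F s.H P.Tm π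
    s.stage s.alg s.rels hP.cst2 h.quo

/-- Classification of the elements of the next stage. -/
theorem tow_cls (hP : P.Ok M1 T0) {Mf : ℕ} (mF : Mf ≤ M1)
    (hF : ∀ (G G' : Type) [Group G] [Group G'] (d : G → G → ℕ) (d' : G' → G' → ℕ)
    (δ C Δ R n q A L Ax L1 : ℕ) (F : Set G) (H : Hubs d (Lx d (100 * C)) C) (Tm : ℝ)
    (π : G →* G'), Stage d δ n q A L → Alg H n q L Ax → Rels H F n L1 Δ Tm →
    Cst2 δ C Δ R n q L Ax L1 Mf Tm → Quo H F R π d' →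
    ∀ a : G', (∃ g, g ^ n = 1 ∧ π g = a) ∨ (∃ f ∈ F, ∃ y, Commute y f ∧ π y = a) ∨
      ∀ (x : G') (m : ℕ), m ≤ q * d' x (a ^ m * x))
    {deg : FreeGroup (Fin 2) →* Multiplicative (ZMod P.n)} {s s' : TowSt P deg}
    {π : s.G →* s'.G} (h : TowRel s s' π) :
    ∀ a : s'.G, (∃ g, g ^ P.n = 1 ∧ π g = a) ∨ (∃ f ∈ s.F, ∃ y, Commute y f ∧ π y = a) ∨
      ∀ (x : s'.G) (m : ℕ), m ≤ P.q * s'.d x (a ^ m * x) :=
  hF s.G s'.G s.d s'.d 2000 P.C P.Δ P.R P.n P.q (10 ^ 6 * P.L) P.L P.Ax P.L1 s.F s.H P.Tm π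
    s.stage s.alg s.rels (hP.cst2.anti mF) h.quo

theorem tow_hAC (hP : P.Ok M1 T0) : 10 ^ 6 * P.L + P.C ≤ P.Ax := by
  have hcst := hP.cst2
  refine le_trans ?_ hP.hAx
  apply Nat.add_le_add_left
  have h1 : 1 ≤ 10 ^ 5 * P.q * P.L := by
    have h2 := hP.hq
    have h3 : 1 ≤ P.L := by
      have := hcst.hL
      have := hP.hC
      omega
    calc 1 ≤ 10 ^ 5 * 1 * 1 := by norm_num
      _ ≤ 10 ^ 5 * P.q * P.L :=
        Nat.mul_le_mul (Nat.mul_le_mul_left _ h2) h3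
  calc P.C = 1 * P.C := (one_mul _).symm
    _ ≤ 10 ^ 5 * P.q * P.L * P.C := Nat.mul_le_mul_right _ h1

/-- J1 for one step of the tower. -/
theorem tow_j1 (hP : P.Ok M1 T0) {Mj : ℕ} (mJ : Mj ≤ M1)
    (hJ1 : ∀ (G G' : Type) [Group G] [Group G'] (d : G → G → ℕ) (d' : G' → G' → ℕ)
    (δ C Δ R n q A L Ax L1 : ℕ) (F : Set G) (H : Hubs d (Lx d (100 * C)) C) (Tm : ℝ)
    (π : G →* G'), Stage d δ n q A L → Alg H n q L Ax → A + C ≤ Ax → Rels H F n L1 Δ Tm →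
    Cst2 δ C Δ R n q L Ax L1 Mj Tm → Quo H F R π d' →
    ∀ P Q x y : G, P ^ n = 1 → P ≠ 1 → Q ^ n = 1 → Q ≠ 1 → (∀ j : ℤ, d x (P ^ j * x) ≤ C) →
      (∀ j : ℤ, d y (Q ^ j * y) ≤ C) → (∀ k ∈ Subgroup.closure F, d x y ≤ d x (k * y)) →
      100 * Ax ≤ d x y → ∀ U, U = P * Q ∨ U = P * Q * P⁻¹ * Q⁻¹ →
      U ^ n ≠ 1 ∧ (((∃ f ∈ F, Commute U f ∧ Nh d (4 * Ax) (H.Z f) x) ∧ d x y ≤ 2 * Δ) ∨
        π U ^ n ≠ 1))
    {deg : FreeGroup (Fin 2) →* Multiplicative (ZMod P.n)} {s s' : TowSt P deg}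
    {π : s.G →* s'.G} (h : TowRel s s' π) : J1P s.H s.F π P.n P.Ax P.Δ :=
  hJ1 s.G s'.G s.d s'.d 2000 P.C P.Δ P.R P.n P.q (10 ^ 6 * P.L) P.L P.Ax P.L1 s.F s.H P.Tm π
    s.stage s.alg (tow_hAC hP) s.rels (hP.cst2.anti mJ) h.quo

/-- J2 for one step of the tower. -/
theorem tow_j2 (hP : P.Ok M1 T0) {Mj : ℕ} (mJ : Mj ≤ M1)
    (hJ2 : ∀ (G G' : Type) [Group G] [Group G'] (d : G → G → ℕ) (d' : G' → G' → ℕ)
    (δ C Δ R n q A L Ax L1 : ℕ) (F : Set G) (H : Hubs d (Lx d (100 * C)) C) (Tm : ℝ)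
    (π : G →* G'), Stage d δ n q A L → Alg H n q L Ax → Rels H F n L1 Δ Tm →
    Cst2 δ C Δ R n q L Ax L1 Mj Tm → Quo H F R π d' →
    ∀ f ∈ F, ∀ r t : G, (∀ y, Commute y f ↔ y ∈ Subgroup.zpowers r) → f = r ^ n →
      t * f * t⁻¹ ≠ f → t * f * t⁻¹ ≠ f⁻¹ → ∀ x ∈ H.Z f, ∀ y ∈ H.Z (t * f * t⁻¹),
      (∀ x' ∈ H.Z f, ∀ y' ∈ H.Z (t * f * t⁻¹), ∀ k ∈ Subgroup.closure F,
        d x y ≤ d x' (k * y')) →
      ∀ k1 k2 : ℤ, k1 ≠ 0 → k2 ≠ 0 → 2 * |k1| ≤ n → 2 * |k2| ≤ n →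
      (100 * (Δ : ℝ) * n ≤ |(k1 : ℝ)| * H.T f ∨ 100 * (Δ : ℝ) * n ≤ |(k2 : ℝ)| * H.T f) →
      ∀ U, U = r ^ k1 * (t * r ^ k2 * t⁻¹) ∨
        U = r ^ k1 * (t * r ^ k2 * t⁻¹) * (r ^ k1)⁻¹ * (t * r ^ k2 * t⁻¹)⁻¹ →
      U ^ n ≠ 1 ∧ π U ^ n ≠ 1)
    {deg : FreeGroup (Fin 2) →* Multiplicative (ZMod P.n)} {s s' : TowSt P deg}
    {π : s.G →* s'.G} (h : TowRel s s' π) : J2P s.H s.F π P.n P.Δ :=
  hJ2 s.G s'.G s.d s'.d 2000 P.C P.Δ P.R P.n P.q (10 ^ 6 * P.L) P.L P.Ax P.L1 s.F s.H P.Tm π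
    s.stage s.alg s.rels (hP.cst2.anti mJ) h.quo

/-- The first stage. -/
theorem tow_zero (hX : StX) (hPP : StP) (hP : P.Ok M1 T0)
    (hHub : ∀ (G : Type) [Group G] (d : G → G → ℕ), HypG d 2000 →
      Nonempty (Hubs d (Lx d (100 * P.C)) P.C))
    {d : FreeGroup (Fin 2) → FreeGroup (Fin 2) → ℕ}
    (hd : ∀ n q A L : ℕ, 1 ≤ n → 1 ≤ q → 1 ≤ L → 10 * L ≤ A → Stage d 2000 n q A L)
    (deg : FreeGroup (Fin 2) →* Multiplicative (ZMod P.n)) :
    ∃ (H : Hubs d (Lx d (100 * P.C)) P.C),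
      Stage d 2000 P.n P.q (10 ^ 6 * P.L) P.L ∧ Alg H P.n P.q P.L P.Ax ∧
      Rels H (Fp d P.n P.L1) P.n P.L1 P.Δ P.Tm := by
  have hcst := hP.cst2
  have hC := hP.hC
  have hδC : 100 * 2000 ≤ P.C := hC
  have hL := hcst.hL
  have hn := hcst.hn
  have hst : Stage d 2000 P.n P.q (10 ^ 6 * P.L) P.L :=
    hd _ _ _ _ (by omega) hP.hq (by omega) (by omega)
  obtain ⟨H⟩ := hHub _ d hst.toHypG
  have halg : Alg H P.n P.q P.L P.Ax :=
    hX _ d 2000 P.C P.n P.q (10 ^ 6 * P.L) P.L P.Ax H hst hcst.odd hδC hcst.hL hP.hq hP.hAx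
  have _ := deg
  exact ⟨H, hst, halg,
    (hPP _ d 2000 P.C P.n P.q (10 ^ 6 * P.L) P.L P.Ax P.L1 P.Δ P.Tm H hst hcst.odd hδC
      (by omega) hcst.hL hP.hq halg hcst.hL1 hcst.hAx hcst.hΔ hP.hqT hP.hqn).1⟩

end

/-! ### the degree map -/

/-- the degree map: the first generator goes to `1`, the second to `0` -/
def degM (n : ℕ) : FreeGroup (Fin 2) →* Multiplicative (ZMod n) :=
  FreeGroup.lift ![Multiplicative.ofAdd (1 : ZMod n), 1]

theorem degM_surj (n : ℕ) : Function.Surjective (degM n) := by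
  intro z
  obtain ⟨m, hm⟩ := ZMod.intCast_surjective (Multiplicative.toAdd z)
  refine ⟨FreeGroup.of 0 ^ m, ?_⟩
  rw [map_zpow]
  have h1 : degM n (FreeGroup.of 0) = Multiplicative.ofAdd (1 : ZMod n) := by
    unfold degM
    rw [FreeGroup.lift_apply_of]
    rfl
  rw [h1]
  apply Multiplicative.toAdd.injective
  rw [toAdd_zpow, toAdd_ofAdd, ← hm]
  simp

theorem degM_one (n : ℕ) : degM n (FreeGroup.of 1) = 1 := by
  unfold degM
  rw [FreeGroup.lift_apply_of]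
  rfl

/-! ### the tower -/

theorem stTow : StZero → StX → StP → StQuo → StStep → StF → StH → StC → StJ1 → StJ2 → StK →
    StTow := by
  intro hZero hX hPP hQ hStep hF hH hCC hJ1 hJ2 hK
  obtain ⟨Ms, hStep⟩ := hStep
  obtain ⟨Mf, hF⟩ := hF
  obtain ⟨Mj1, hJ1⟩ := hJ1
  obtain ⟨Mj2, hJ2⟩ := hJ2
  obtain ⟨Mk, -, hK⟩ := hK
  refine ⟨max Ms (max Mf (max Mj1 (max Mj2 Mk))), ?_⟩
  set M1 := max Ms (max Mf (max Mj1 (max Mj2 Mk))) with hM1
  have mS : Ms ≤ M1 := le_max_left _ _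
  have mF : Mf ≤ M1 := le_trans (le_max_left _ _) (le_max_right _ _)
  have mJ1 : Mj1 ≤ M1 :=
    le_trans (le_trans (le_max_left _ _) (le_max_right _ _)) (le_max_right _ _)
  have mJ2 : Mj2 ≤ M1 :=
    le_trans (le_trans (le_trans (le_max_left _ _) (le_max_right _ _)) (le_max_right _ _))
      (le_max_right _ _)
  have mK : Mk ≤ M1 :=
    le_trans (le_trans (le_trans (le_max_right _ _) (le_max_right _ _)) (le_max_right _ _))
      (le_max_right _ _)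
  clear_value M1
  intro C hC hHub
  obtain ⟨T0, hStep⟩ := hStep C (1000 * C) hC le_rfl
  refine ⟨T0, ?_⟩
  intro P hPC hPL hP
  subst hPC
  rw [← hPL] at hStep
  obtain ⟨d0, hd0, hd0g, hfree⟩ := hZero
  have hcst := hP.cst2
  have hn1 : 1 ≤ P.n := le_trans (by norm_num) hcst.hn
  -- the first stage
  obtain ⟨H0, hst0, halg0, hrel0⟩ := tow_zero hX hPP hP hHub hd0 (degM P.n)
  let s0 : TowSt P (degM P.n) :=
    { G := FreeGroup (Fin 2)
      grp := inferInstance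
      d := d0
      H := H0
      F := Fp d0 P.n P.L1
      p := MonoidHom.id _
      surj := fun x => ⟨x, rfl⟩
      stage := hst0
      alg := halg0
      rels := hrel0
      fp := Set.Subset.refl _
      fw := fun f hf hf' => absurd hf hf'
      degF := deg_Fp (degM P.n) (p := MonoidHom.id _) (fun x => ⟨x, rfl⟩) }
  have hnext : ∀ s : TowSt P (degM P.n), ∃ (s' : TowSt P (degM P.n)) (π : s.G →* s'.G),
      TowRel s s' π := fun s => tow_step hX hPP hQ hP mS hStep mK hK hHub s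
  choose nx pi hnx using hnext
  let f : ℕ → TowSt P (degM P.n) := fun i => Nat.rec s0 (fun _ s => nx s) i
  let T : Tow (FreeGroup (Fin 2)) P.C :=
    { G := fun i => (f i).G
      grp := fun i => (f i).grp
      d := fun i => (f i).d
      H := fun i => (f i).H
      F := fun i => (f i).F
      π := fun i => pi (f i)
      p := fun i => (f i).p }
  have hrel : ∀ i, TowRel (f i) (f (i + 1)) (pi (f i)) := fun i => hnx (f i)
  refine ⟨T, degM P.n, ?_, degM_surj P.n, FreeGroup.of 1, degM_one P.n, ?_, ?_⟩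
  · refine
      { surj := fun i => (f i).surj
        comp := fun i b => (hrel i).comp b
        stage := fun i => (f i).stage
        alg := fun i => (f i).alg
        rels := fun i => (f i).rels
        fp := fun i => (f i).fp
        fw := fun i => (f i).fw
        quo := fun i => (hrel i).quo
        green := ?_
        tors := ?_
        cls := ?_
        j1 := ?_
        j2 := ?_
        zero := ?_
        inj0 := fun x y h => h
        degF := fun i => (f i).degF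
        word := ?_ }
    · intro i
      exact tow_green hCC hP (f i)
    · exact fun i => tow_tors hH hP (hrel i)
    · exact fun i => tow_cls (M1 := M1) (T0 := T0) hP mF hF (hrel i)
    · exact fun i => tow_j1 hP mJ1 hJ1 (hrel i)
    · exact fun i => tow_j2 hP mJ2 hJ2 (hrel i)
    · intro g hg
      exact hfree P.n hn1 g hg
    · intro i S r a hpair hS hr
      have h1 := (hrel i).word S r a hpair hS hr
      have h2 := Subgroup.subset_closure (G := (f (i + 1)).G) h1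
      exact ((hrel (i + 1)).quo.ker _).2 h2
  · exact FreeGroup.of_ne_one 1
  · exact (hd0g 1).le

end Pool.Agent.Helper74.TB
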