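import Pool.Agent.Helper74.TB.StL
import Pool.Agent.Helper74.MH.Fa

/-! MP_7d16da_al: the free group is a stage (Part L1). -/

set_option autoImplicit false

namespace Pool.Agent.Helper74.TB

open Pool.Agent.Helper74.MH

/-- Four point condition of a tree. -/
theorem tree_four {α : Type*} {d : α → α → ℕ} (hd : IsNTree d) (x y z w : α) :
    d x z + d y w ≤ max (d x y + d z w) (d x w + d y z) := by
  obtain ⟨m, h1, h2, h3⟩ := hd.med x z y
  -- h1 : m ∈ [x,z], h2 : m ∈ [z,y], h3 : m ∈ [x,y]
  have h4 := hd.tri y m w
  have s1 := hd.symm y m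
  have s2 := hd.symm z m
  have s3 := hd.symm w m
  have s4 := hd.symm w z
  have s5 := hd.symm y z
  rcases hd.thin w h1 with h5 | h5
  · refine le_trans ?_ (le_max_right _ _)
    unfold MH.Btw at h1 h2 h3 h5
    omega
  · refine le_trans ?_ (le_max_left _ _)
    unfold MH.Btw at h1 h2 h3 h5
    omega

/-- An isometry moving the ends of a long segment little shifts the middle part. -/
theorem tree_shift {α : Type*} {d : α → α → ℕ} (hd : IsNTree d) {f : α → α}
    (hf : ∀ x y, d (f x) (f y) = d x y) {p p' v : α} {L : ℕ} (h1 : d p (f p) ≤ L)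
    (h2 : d p' (f p') ≤ L) (hv : MH.Btw d p v p') (h3 : L < d p v) (h4 : L < d v p') :
    MH.Btw d p (f v) p' ∧ d p (f v) + d p p' = d p v + d p (f p') := by
  have hdp := hd.toIsPathMetric
  have e1 : MH.Btw d (f p) (f v) (f p') := by
    unfold MH.Btw
    rw [hf, hf, hf]
    exact hv
  have s1 := hd.symm p (f v)
  have s2 := hd.symm (f p) (f v)
  have s3 := hd.symm p (f p)
  have s4 := hd.symm p' (f v)
  have e2 : d (f p) (f v) = d p v := hf p v
  have e3 : d (f v) (f p') = d v p' := hf v p'
  rcases hd.thin p e1 with h5 | h5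
  · exfalso
    unfold MH.Btw at h5
    omega
  · rcases hd.thin p' h5 with h6 | h6
    · refine ⟨h6, ?_⟩
      unfold MH.Btw at h5 hv
      omega
    · exfalso
      unfold MH.Btw at h6
      omega

/-- Translation length in the free group. -/
theorem norm_pow_ge {α : Type*} [DecidableEq α] {h : FreeGroup α} (hh : h ≠ 1) (m : ℕ) :
    m ≤ FreeGroup.norm (h ^ m) := by
  rcases Nat.eq_zero_or_pos m with h0 | h0
  · rw [h0]; exact Nat.zero_le _
  · obtain ⟨k, rfl⟩ := Nat.exists_eq_add_one_of_ne_zero (by omega : m ≠ 0)
    have h1 : (h ^ (k + 1)).toWord = FreeGroup.reduceCyclically.conjugator h.toWord ++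
        (List.replicate (k + 1) (FreeGroup.reduceCyclically h.toWord)).flatten ++
        FreeGroup.invRev (FreeGroup.reduceCyclically.conjugator h.toWord) := by
      rw [FreeGroup.toWord_pow]
      exact FreeGroup.reduceCyclically.reduce_flatten_replicate_succ
        FreeGroup.isReduced_toWord k
    have h2 : 1 ≤ (FreeGroup.reduceCyclically h.toWord).length := by
      by_contra hc
      have h3 : FreeGroup.reduceCyclically h.toWord = [] :=
        List.length_eq_zero_iff.1 (by omega)
      have h4 := FreeGroup.reduceCyclically.conj_conjugator_reduceCyclically h.toWord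
      rw [h3, List.append_nil] at h4
      have h5 := congrArg FreeGroup.mk h4
      rw [← FreeGroup.mul_mk, ← FreeGroup.inv_mk, mul_inv_cancel, FreeGroup.mk_toWord] at h5
      exact hh h5.symm
    unfold FreeGroup.norm
    rw [h1, List.length_append, List.length_append, List.length_flatten, List.map_replicate,
      List.sum_replicate, smul_eq_mul]
    have h3 : (k + 1) * 1 ≤ (k + 1) * (FreeGroup.reduceCyclically h.toWord).length :=
      Nat.mul_le_mul_left _ h2
    omega

theorem free_tf {α : Type*} (g : FreeGroup α) {n : ℕ} (hn : 1 ≤ n) (h : g ^ n = 1) : g = 1 := by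
  classical
  by_contra hg
  have h1 := norm_pow_ge hg n
  rw [h, FreeGroup.norm_one] at h1
  omega

theorem stZero : StZero := by
  have hT : LTree (FreeGroup (Fin 2)) (dF (X := Fin 2)) := ltree_dF
  have hd := hT.tree
  have hdp := hd.toIsPathMetric
  refine ⟨dF, ?_, ?_, fun n hn g hg => free_tf g hn hg⟩
  · intro n q A L hn hq hL hA
    have hyp : HypG (dF (X := Fin 2)) 2000 :=
      ⟨hdp, hT.inv, fun x y z w => (tree_four hd x y z w).trans (Nat.le_add_right _ _),
        by norm_num⟩
    refine ⟨hyp, ?_, ?_, ?_, ?_, ?_⟩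
    · intro g
      by_cases hg : g = 1
      · left
        rw [hg, one_pow]
      · right
        intro x m
        have h1 : dF x (g ^ m * x) = FreeGroup.norm ((x⁻¹ * g * x) ^ m) := by
          unfold dF
          congr 1
          have : (x⁻¹ * g * x) ^ m = x⁻¹ * g ^ m * x := by
            have e := conj_pow (i := m) (a := x⁻¹) (b := g)
            rw [inv_inv] at e
            exact e
          rw [this, mul_assoc]
        have h2 : x⁻¹ * g * x ≠ 1 := by
          intro h
          apply hg
          have : g = x * (x⁻¹ * g * x) * x⁻¹ := by group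
          rw [this, h, mul_one, mul_inv_cancel]
        rw [h1]
        have h3 := norm_pow_ge h2 m
        have h4 : 1 * FreeGroup.norm ((x⁻¹ * g * x) ^ m) ≤
            q * FreeGroup.norm ((x⁻¹ * g * x) ^ m) := Nat.mul_le_mul_right _ hq
        omega
    · intro g h p p' hpp hg1 hg2 hh1 hh2
      obtain ⟨v, hv1, hv2⟩ := hdp.geod p p' (5 * L) (by omega)
      have hv3 : dF v p' + 5 * L = dF p p' := by
        unfold MH.Btw at hv1
        omega
      have fg : ∀ x y, dF (g * x) (g * y) = dF x y := hT.inv g
      have fh : ∀ x y, dF (h * x) (h * y) = dF x y := hT.inv h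
      -- bounds of the shifts
      have bg1 := hdp.tri p p' (g * p')
      have bg2 := hdp.tri p (g * p') p'
      have bh1 := hdp.tri p p' (h * p')
      have bh2 := hdp.tri p (h * p') p'
      have sg := hdp.symm p' (g * p')
      have sh := hdp.symm p' (h * p')
      obtain ⟨g1, g2⟩ := tree_shift hd fg hg1 hg2 hv1 (by omega) (by omega)
      obtain ⟨h1, h2⟩ := tree_shift hd fh hh1 hh2 hv1 (by omega) (by omega)
      have g1' := g1
      have h1' := h1
      unfold MH.Btw at g1' h1'
      obtain ⟨k1, k2⟩ := tree_shift hd fg hg1 hg2 h1 (by omega) (by omega)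
      obtain ⟨l1, l2⟩ := tree_shift hd fh hh1 hh2 g1 (by omega) (by omega)
      have e := hd.uniq p p' _ _ k1 l1 (by omega)
      have e2 : g * h * v = h * g * v := by
        rw [mul_assoc, mul_assoc]
        exact e
      exact mul_right_cancel e2
    · intro g p p' hg _ _ _
      exact free_tf g hn hg
    · intro g hg hg1
      exact absurd (free_tf g hn hg) hg1
    · intro g x t hg hg1
      exact absurd (free_tf g hn hg) hg1
  · intro x
    exact (dF_one_iff _).2 ⟨x, Or.inl rfl⟩

end Pool.Agent.Helper74.TB
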