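import Pool.Agent.Helper74.TB.StAC

/-!
MP_7d16da_al (S02038): Part C, Greendlinger's lemma by windmills.
A windmill is a quasi-convex set `W` with the relators `FW` whose axes lie in it; one growth step
adds the axes coming close to `W`.  Chains of translates of `W` are treated by the inductive
predicate `Rc`, peeling off the first hub.
-/

set_option autoImplicit false

namespace Pool.Agent.Helper74.TB

open Pool.Agent.Helper74.MH

variable {G : Type*} [Group G] {d : G → G → ℕ} {δ C Δ : ℕ} {X F : Set G} {Tm : ℝ}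

/-- A windmill. -/
structure Wm (H : Hubs d X C) (F : Set G) (δ Δ : ℕ) (x0 : G) (W FW : Set G) : Prop where
  mem : x0 ∈ W
  sub : FW ⊆ F
  inv : ∀ f ∈ FW, f⁻¹ ∈ FW
  Zsub : ∀ f ∈ FW, H.Z f ⊆ W
  act : ∀ k ∈ Subgroup.closure FW, ∀ x ∈ W, k * x ∈ W
  conj : ∀ k ∈ Subgroup.closure FW, ∀ f ∈ FW, k * f * k⁻¹ ∈ FW
  qc : ∀ x ∈ W, ∀ y ∈ W, ∀ p, d x p + d p y = d x y → Nh d (8 * δ) W p
  sml : ∀ f ∈ F, f ∉ FW → ∀ x ∈ W, ∀ y ∈ W, |H.Φ f x y| ≤ 3 * Δ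
  big : ∀ k ∈ Subgroup.closure FW, k ≠ 1 → ∃ f ∈ F, H.T f - 20 * Δ ≤ |H.Φ f x0 (k * x0)|

/-- The hubs added in one growth step. -/
def FN (H : Hubs d X C) (F W FW : Set G) : Set G :=
  {f | f ∈ F ∧ f ∉ FW ∧ ∃ z ∈ H.Z f, ∃ w ∈ W, d z w ≤ 9 * C}

/-- The new group. -/
def KN (H : Hubs d X C) (F W FW : Set G) : Subgroup G :=
  Subgroup.closure (FW ∪ FN H F W FW)

/-- The unthickened new set. -/
def UN (H : Hubs d X C) (F W FW : Set G) : Set G :=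
  {u | ∃ k ∈ KN H F W FW, k⁻¹ * u ∈ W ∨ ∃ f ∈ FN H F W FW, k⁻¹ * u ∈ H.Z f}

/-- The new relators. -/
def FP (H : Hubs d X C) (F W FW : Set G) : Set G :=
  {f | ∃ k ∈ KN H F W FW, k⁻¹ * f * k ∈ FW ∪ FN H F W FW}

/-- The new set. -/
def WP (H : Hubs d X C) (F W FW : Set G) : Set G := {x | Nh d (11 * C) (UN H F W FW) x}

/-- Reduced chains starting at the translate `g W`, with first hub different from `h` and `h⁻¹`,
and ending with the condition `E`. -/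
inductive Rc (F1 : Set G) (E : G → G → Prop) : G → G → Prop
  | fin {g h : G} : E g h → Rc F1 E g h
  | step {g h f : G} {j : ℤ} : g⁻¹ * f * g ∈ F1 → f ≠ h → f ≠ h⁻¹ → j ≠ 0 →
      Rc F1 E (f ^ j * g) f → Rc F1 E g h

/-- `x` is attached to the translate `g W`, directly or through the hub `h`. -/
def At (H : Hubs d X C) (W F1 : Set G) (g h x : G) : Prop :=
  g⁻¹ * x ∈ W ∨ (g⁻¹ * h * g ∈ F1 ∧ Nh d (5 * C) (H.Z h) x)

/-- End condition: the point `y` is attached to `g W`, not through `h`. -/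
def EP (H : Hubs d X C) (W F1 : Set G) (y g h : G) : Prop :=
  g⁻¹ * y ∈ W ∨ ∃ f, g⁻¹ * f * g ∈ F1 ∧ f ≠ h ∧ f ≠ h⁻¹ ∧ Nh d (5 * C) (H.Z f) y

/-- End condition for group elements. -/
def EK (FW : Set G) (k g _h : G) : Prop := g⁻¹ * k ∈ Subgroup.closure FW

theorem Rc.mono {F1 : Set G} {E E' : G → G → Prop} (hE : ∀ g h, E g h → E' g h) {g h : G}
    (hc : Rc F1 E g h) : Rc F1 E' g h := by
  induction hc with
  | fin h1 => exact Rc.fin (hE _ _ h1)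
  | step h1 h2 h3 h4 _ ih => exact Rc.step h1 h2 h3 h4 ih

section
variable {H : Hubs d X C} {W FW : Set G} {x0 : G}

theorem c_ne_one (hF : Fam H F Δ Tm) {f : G} (hf : f ∈ F) : f ≠ 1 := by
  rintro rfl
  have h1 := H.Tbig 1 (hF.sub hf)
  have h2 := H.shift 1 (hF.sub hf) 1
  rw [mul_one, hl_refl H (hF.sub hf)] at h2
  have h3 : (1 : ℝ) ≤ C := by exact_mod_cast hF.hC1
  linarith

theorem c_pow (f g : G) (j : ℤ) : (f ^ j * g)⁻¹ * f * (f ^ j * g) = g⁻¹ * f * g := by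
  have h1 : f ^ (-j) * f * f ^ j = f := by
    rw [← zpow_add_one, ← zpow_add]
    simp
  calc (f ^ j * g)⁻¹ * f * (f ^ j * g) = g⁻¹ * (f ^ (-j) * f * f ^ j) * g := by
        rw [zpow_neg]; group
    _ = g⁻¹ * f * g := by rw [h1]

theorem c_fn_inv (hF : Fam H F Δ Tm) (hW : Wm H F δ Δ x0 W FW) {f : G}
    (hf : f ∈ FN H F W FW) : f⁻¹ ∈ FN H F W FW := by
  obtain ⟨h1, h2, z, hz, w, hw, hzw⟩ := hf
  refine ⟨hF.inv f h1, fun h3 => h2 ?_, z, ?_, w, hw, hzw⟩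
  · have := hW.inv _ h3
    rwa [inv_inv] at this
  · rw [H.Zinv f (hF.sub h1)]
    exact hz

theorem c_fn_conj (hG : HypG d δ) (hF : Fam H F Δ Tm) (hW : Wm H F δ Δ x0 W FW) {k f : G}
    (hk : k ∈ Subgroup.closure FW) (hf : f ∈ FN H F W FW) : k * f * k⁻¹ ∈ FN H F W FW := by
  obtain ⟨h1, h2, z, hz, w, hw, hzw⟩ := hf
  refine ⟨hF.conj f h1 k, fun h3 => h2 ?_, k * z, (H.Zconj f (hF.sub h1) k z).2 hz, k * w,
    hW.act k hk w hw, by rw [hG.inv]; exact hzw⟩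
  have h4 := hW.conj k⁻¹ (inv_mem hk) _ h3
  have h5 : k⁻¹ * (k * f * k⁻¹) * k⁻¹⁻¹ = f := by group
  rwa [h5] at h4

theorem c_memF (hF : Fam H F Δ Tm) {g f : G} (hf : g⁻¹ * f * g ∈ FN H F W FW) : f ∈ F := by
  have h1 := hF.conj _ hf.1 g
  have h2 : g * (g⁻¹ * f * g) * g⁻¹ = f := by group
  rwa [h2] at h1

theorem c_bridge (hG : HypG d δ) (hF : Fam H F Δ Tm) {g h : G}
    (hh : g⁻¹ * h * g ∈ FN H F W FW) : ∃ z ∈ H.Z h, ∃ w, g⁻¹ * w ∈ W ∧ d z w ≤ 9 * C := by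
  obtain ⟨h1, h2, z, hz, w, hw, hzw⟩ := hh
  refine ⟨g * z, ?_, g * w, by rwa [inv_mul_cancel_left], by rw [hG.inv]; exact hzw⟩
  have h3 := (H.Zconj _ (hF.sub h1) g z).2 hz
  have h4 : g * (g⁻¹ * h * g) * g⁻¹ = h := by group
  rwa [h4] at h3

theorem c_close (hG : HypG d δ) (hF : Fam H F Δ Tm) {g h x f : G}
    (hx : At H W (FN H F W FW) g h x) (hf : f ∈ F) (h1 : f ≠ h) (h2 : f ≠ h⁻¹) :
    ∃ w, g⁻¹ * w ∈ W ∧ |H.Φ f x w| ≤ Δ + 19 * C := by
  rcases hx with hx | ⟨hh, hx⟩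
  · refine ⟨x, hx, ?_⟩
    rw [hl_refl H (hF.sub hf), abs_zero]
    positivity
  · obtain ⟨z, hz, w, hw, hzw⟩ := c_bridge hG hF hh
    refine ⟨w, hw, ?_⟩
    have h3 := hl_sep hG hF hf (c_memF hF hh) (fun h => h1 h.symm)
      (fun h => h2 (by rw [h, inv_inv])) hx (r := 5 * C)
      (⟨z, hz, by rw [hb_self hG]; exact Nat.zero_le _⟩ : Nh d (5 * C) (H.Z h) z)
    have h4 := H.coc f (hF.sub hf) x z w
    have h5 := H.lip f (hF.sub hf) z w
    have h6 : (d z w : ℝ) ≤ 9 * C := by exact_mod_cast hzw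
    push_cast at h3
    rw [← h4]
    refine (abs_add_le _ _).trans ?_
    linarith

theorem c_gap (hF : Fam H F Δ Tm) (hW : Wm H F δ Δ x0 W FW) {g f x y w w' : G}
    {j : ℤ} (hf : g⁻¹ * f * g ∈ FN H F W FW) (hj : j ≠ 0) (hw : g⁻¹ * w ∈ W)
    (hw' : (f ^ j * g)⁻¹ * w' ∈ W) (hx : |H.Φ f x w| ≤ Δ + 19 * C)
    (hy : |H.Φ f y w'| ≤ Δ + 19 * C) : H.T f - 6 * Δ ≤ |H.Φ f x y| := by
  have hfF := c_memF hF hf
  have hfX := hF.sub hfF
  have h1 := hW.sml _ hf.1 hf.2.1 _ hw _ hw'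
  have h2 := H.equi _ (hF.sub hf.1) g (g⁻¹ * w) ((f ^ j * g)⁻¹ * w')
  have h3 : g * (g⁻¹ * f * g) * g⁻¹ = f := by group
  have h4 : g * (g⁻¹ * w) = w := by group
  rw [h3, h4] at h2
  set v := g * ((f ^ j * g)⁻¹ * w') with hv
  have h5 : w' = f ^ j * v := by rw [hv]; group
  have h6 := hl_zpow H hfX v j
  rw [← h5] at h6
  have h7 := H.coc f hfX x w v
  have h8 := H.coc f hfX x v w'
  have h9 := H.coc f hfX x w' y
  have h10 := hl_symm H hfX y w'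
  have hC1 : (1000 : ℝ) * C ≤ Δ := by exact_mod_cast hF.hC
  have hT := hl_Tpos H hfX
  have hjT : H.T f ≤ |(j : ℝ) * H.T f| := by
    rw [abs_mul, abs_of_nonneg hT]
    have : (1 : ℝ) ≤ |(j : ℝ)| := by
      have := Int.one_le_abs hj
      exact_mod_cast this
    nlinarith
  have hC0 : (0 : ℝ) ≤ C := Nat.cast_nonneg _
  have h11 : H.Φ f x y = j * H.T f + (H.Φ f x w + H.Φ f w v - H.Φ f y w') := by
    rw [← h9, ← h8, ← h7, h6, h10]; ring
  have h12 : |H.Φ f x w + H.Φ f w v - H.Φ f y w'| ≤ 6 * Δ := by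
    rw [abs_le] at *
    constructor <;> linarith [h1.1, h1.2, h2.1, h2.2, hx.1, hx.2, hy.1, hy.2]
  have h13 := abs_add_le (H.Φ f x y) (-(H.Φ f x w + H.Φ f w v - H.Φ f y w'))
  rw [abs_neg] at h13
  have h14 : H.Φ f x y + -(H.Φ f x w + H.Φ f w v - H.Φ f y w') = j * H.T f := by
    rw [h11]; ring
  rw [h14] at h13
  linarith

theorem c_near (hG : HypG d δ) (hF : Fam H F Δ Tm) (hT : 100 * (Δ : ℝ) ≤ Tm)
    (hW : Wm H F δ Δ x0 W FW) {y g f : G}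
    (hc : Rc (FN H F W FW) (EP H W (FN H F W FW) y) g f) :
    g⁻¹ * f * g ∈ FN H F W FW → ∃ w, g⁻¹ * w ∈ W ∧ |H.Φ f y w| ≤ Δ + 19 * C := by
  induction hc with
  | @fin g f h1 =>
    intro hf
    have hfF := c_memF hF hf
    rcases h1 with h1 | ⟨f', h1, h2, h3, h4⟩
    · exact ⟨y, h1, by rw [hl_refl H (hF.sub hfF), abs_zero]; positivity⟩
    · exact c_close hG hF (Or.inr ⟨h1, h4⟩) hfF (fun h => h2 h.symm)
        (fun h => h3 (by rw [h, inv_inv]))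
  | @step g f f' j h1 h2 h3 h4 _ ih =>
    intro hf
    have hfF := c_memF hF hf
    have hf'F := c_memF hF h1
    have hC1 : (1000 : ℝ) * C ≤ Δ := by exact_mod_cast hF.hC
    have hC0 : (1 : ℝ) ≤ C := by exact_mod_cast hF.hC1
    obtain ⟨w', hw', hyw'⟩ := ih (by rw [c_pow]; exact h1)
    have hz : H.pr f 1 ∈ H.Z f := H.pr_mem f (hF.sub hfF) 1
    obtain ⟨w, hw, hzw⟩ := c_close hG hF (g := g) (h := f) (x := H.pr f 1)
      (Or.inr ⟨hf, H.pr f 1, hz, by rw [hb_self hG]; exact Nat.zero_le _⟩) hf'F h2 h3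
    have h5 := c_gap hF hW h1 h4 hw hw' hzw hyw'
    rcases hl_beh hG hF hf'F hfF (fun h => h2 h.symm) (fun h => h3 (by rw [h, inv_inv])) y with
      h6 | h6
    · exfalso
      have h7 := h6 _ hz
      rw [hl_symm H (hF.sub hf'F), abs_neg] at h5
      have h8 := hF.big f' hf'F
      linarith
    · obtain ⟨z', hz', w'', hw'', hzw''⟩ := c_bridge hG hF h1
      refine ⟨w'', hw'', ?_⟩
      have h7 := h6 z' hz'
      have h8 := H.coc f (hF.sub hfF) y z' w''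
      have h9 := H.lip f (hF.sub hfF) z' w''
      have h10 : (d z' w'' : ℝ) ≤ 9 * C := by exact_mod_cast hzw''
      rw [← h8]
      refine (abs_add_le _ _).trans ?_
      linarith

theorem c_big (hG : HypG d δ) (hF : Fam H F Δ Tm) (hT : 100 * (Δ : ℝ) ≤ Tm)
    (hW : Wm H F δ Δ x0 W FW) {y g h x f : G} {j : ℤ} (hx : At H W (FN H F W FW) g h x)
    (h1 : g⁻¹ * f * g ∈ FN H F W FW) (h2 : f ≠ h) (h3 : f ≠ h⁻¹) (h4 : j ≠ 0)
    (hc : Rc (FN H F W FW) (EP H W (FN H F W FW) y) (f ^ j * g) f) :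
    H.T f - 6 * Δ ≤ |H.Φ f x y| := by
  obtain ⟨w, hw, hxw⟩ := c_close hG hF hx (c_memF hF h1) h2 h3
  obtain ⟨w', hw', hyw'⟩ := c_near hG hF hT hW hc (by rw [c_pow]; exact h1)
  exact c_gap hF hW h1 h4 hw hw' hxw hyw'

theorem c_split (hG : HypG d δ) (hC : 100 * δ ≤ C) (hF : Fam H F Δ Tm) (hT : 100 * (Δ : ℝ) ≤ Tm)
    (hW : Wm H F δ Δ x0 W FW) {y g h x f : G} {j : ℤ} (hx : At H W (FN H F W FW) g h x)
    (h1 : g⁻¹ * f * g ∈ FN H F W FW) (h2 : f ≠ h) (h3 : f ≠ h⁻¹) (h4 : j ≠ 0)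
    (hc : Rc (FN H F W FW) (EP H W (FN H F W FW) y) (f ^ j * g) f) {N : ℕ} {γ : ℕ → G}
    (hγ : IsGeo d N γ) (e0 : γ 0 = x) (e1 : γ N = y) :
    ∃ a b, a + (Δ + 100 * C) ≤ b ∧ b ≤ N ∧ Nh d (5 * C) (H.Z f) (γ a) ∧
      Nh d (5 * C) (H.Z f) (γ b) := by
  have hfF := c_memF hF h1
  have hfX := hF.sub hfF
  have h5 := c_big hG hF hT hW hx h1 h2 h3 h4 hc
  have hC1 : (1000 : ℝ) * C ≤ Δ := by exact_mod_cast hF.hC
  have hC0 : (1 : ℝ) ≤ C := by exact_mod_cast hF.hC1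
  have h6 := hF.big f hfF
  rw [← e0, ← e1] at h5
  obtain ⟨a, b, -, hab, hbN, ha, hb, ha', hb', -⟩ := hl_ee hG H hC hfX hγ (Nat.zero_le N) le_rfl
    (by linarith)
  refine ⟨a, b, ?_, hbN, ⟨_, H.pr_mem f hfX _, ha⟩, ⟨_, H.pr_mem f hfX _, hb⟩⟩
  have h7 := H.coc f hfX (γ 0) (γ a) (γ N)
  have h8 := H.coc f hfX (γ a) (γ b) (γ N)
  have h9 := H.lip f hfX (γ a) (γ b)
  have h10 : (d (γ a) (γ b) : ℝ) + a = b := by
    have := hγ a b hab.le hbN
    exact_mod_cast this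
  have h11 : |H.Φ f (γ 0) (γ N)| ≤ 12 * C + |H.Φ f (γ a) (γ b)| := by
    rw [← h7, ← h8]
    refine (abs_add_le _ _).trans ?_
    have := abs_add_le (H.Φ f (γ a) (γ b)) (H.Φ f (γ b) (γ N))
    linarith
  have h12 : (a : ℝ) + (Δ + 100 * C) ≤ b := by linarith
  exact_mod_cast h12

/-- An attached point with its bridge. -/
theorem c_att (hG : HypG d δ) (hF : Fam H F Δ Tm) {g h x : G}
    (hx : At H W (FN H F W FW) g h x) : ∃ z w, g⁻¹ * w ∈ W ∧ ((x = z ∧ z = w) ∨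
      (g⁻¹ * h * g ∈ FN H F W FW ∧ z ∈ H.Z h ∧ d z w ≤ 9 * C ∧ Nh d (5 * C) (H.Z h) x)) := by
  rcases hx with hx | ⟨hh, hx⟩
  · exact ⟨x, x, hx, Or.inl ⟨rfl, rfl⟩⟩
  · obtain ⟨z, hz, w, hw, hzw⟩ := c_bridge hG hF hh
    exact ⟨z, w, hw, Or.inr ⟨hh, hz, hzw, hx⟩⟩

/-- Points on the two short sides of an attachment. -/
theorem c_att1 (hG : HypG d δ) (hC : 100 * δ ≤ C) (hF : Fam H F Δ Tm) {g h x z w p q : G}
    (hw : g⁻¹ * w ∈ W) (hx : (x = z ∧ z = w) ∨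
      (g⁻¹ * h * g ∈ FN H F W FW ∧ z ∈ H.Z h ∧ d z w ≤ 9 * C ∧ Nh d (5 * C) (H.Z h) x))
    (hp : d x p + d p z = d x z ∨ d z p + d p w = d z w) (hq : d q p ≤ 20 * δ) :
    Nh d C {u | g⁻¹ * u ∈ W} q ∨
      (g⁻¹ * h * g ∈ FN H F W FW ∧ Nh d (10 * C) (H.Z h) q) := by
  rcases hx with ⟨rfl, rfl⟩ | ⟨hh, hz, hzw, hx⟩
  · left
    refine ⟨x, hw, ?_⟩
    have h1 := hG.path.tri q p x
    have h2 := hb_self hG x
    rw [h2] at hp
    omega
  · right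
    refine ⟨hh, ?_⟩
    rcases hp with hp | hp
    · obtain ⟨u, hu, hpu⟩ := hl_qc hG H hC (hF.sub (c_memF hF hh)) hx
        (⟨z, hz, by rw [hb_self hG]; exact Nat.zero_le _⟩ : Nh d (5 * C) (H.Z h) z) hp
      refine ⟨u, hu, ?_⟩
      have := hG.path.tri q p u
      omega
    · refine ⟨z, hz, ?_⟩
      have h1 := hG.path.tri q p z
      have h2 := hG.path.symm p z
      omega

/-- Geodesics between two points attached to the same translate. -/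
theorem c_hex (hG : HypG d δ) (hC : 100 * δ ≤ C) (hF : Fam H F Δ Tm)
    (hW : Wm H F δ Δ x0 W FW) {g h1 h2 x y : G} (hx : At H W (FN H F W FW) g h1 x)
    (hy : At H W (FN H F W FW) g h2 y) {N : ℕ} {γ : ℕ → G}
    (hγ : IsGeo d N γ) (e0 : γ 0 = x) (e1 : γ N = y) {t : ℕ} (ht : t ≤ N) :
    Nh d C {u | g⁻¹ * u ∈ W} (γ t) ∨
      (g⁻¹ * h1 * g ∈ FN H F W FW ∧ Nh d (10 * C) (H.Z h1) (γ t)) ∨
      (g⁻¹ * h2 * g ∈ FN H F W FW ∧ Nh d (10 * C) (H.Z h2) (γ t)) := by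
  obtain ⟨z, w, hw, hxz⟩ := c_att hG hF hx
  obtain ⟨z', w', hw', hyz⟩ := c_att hG hF hy
  obtain ⟨i, hi, p, hp, hq⟩ := hb_path hG hγ (m := 5)
    (x := fun i => if i = 0 then x else if i = 1 then z else if i = 2 then w else
      if i = 3 then w' else if i = 4 then z' else y) (by simp [e0]) (by simp [e1])
      (by norm_num) ht
  have hq' : d (γ t) p ≤ 20 * δ := by omega
  have hcase : i = 0 ∨ i = 1 ∨ i = 2 ∨ i = 3 ∨ i = 4 := by omega
  rcases hcase with rfl | rfl | rfl | rfl | rfl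
  · rcases c_att1 hG hC hF hw hxz (Or.inl (by simpa using hp)) hq' with h | h
    · exact Or.inl h
    · exact Or.inr (Or.inl h)
  · rcases c_att1 hG hC hF hw hxz (Or.inr (by simpa using hp)) hq' with h | h
    · exact Or.inl h
    · exact Or.inr (Or.inl h)
  · left
    have hp' : d w p + d p w' = d w w' := by simpa using hp
    obtain ⟨u, hu, hpu⟩ := hW.qc _ hw _ hw' (g⁻¹ * p) (by rw [hG.inv, hG.inv, hG.inv]; exact hp')
    refine ⟨g * u, by simpa using hu, ?_⟩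
    have h3 : d p (g * u) = d (g⁻¹ * p) u := by
      rw [← hG.inv g⁻¹ p (g * u), inv_mul_cancel_left]
    have h4 := hG.path.tri (γ t) p (g * u)
    omega
  · have hp' : d w' p + d p z' = d w' z' := by simpa using hp
    have h3 := hG.path.symm w' p
    have h4 := hG.path.symm p z'
    have h5 := hG.path.symm w' z'
    rcases c_att1 hG hC hF hw' hyz (p := p) (Or.inr (by omega)) hq' with h | h
    · exact Or.inl h
    · exact Or.inr (Or.inr h)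
  · have hp' : d z' p + d p y = d z' y := by simpa using hp
    have h3 := hG.path.symm z' p
    have h4 := hG.path.symm p y
    have h5 := hG.path.symm z' y
    rcases c_att1 hG hC hF hw' hyz (p := p) (Or.inl (by omega)) hq' with h | h
    · exact Or.inl h
    · exact Or.inr (Or.inr h)

/-- The same inside the new set. -/
theorem c_hexU (hG : HypG d δ) (hC : 100 * δ ≤ C) (hF : Fam H F Δ Tm)
    (hW : Wm H F δ Δ x0 W FW) {g h1 h2 x y : G} (hg : g ∈ KN H F W FW)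
    (hx : At H W (FN H F W FW) g h1 x)
    (hy : At H W (FN H F W FW) g h2 y) {N : ℕ} {γ : ℕ → G}
    (hγ : IsGeo d N γ) (e0 : γ 0 = x) (e1 : γ N = y) {t : ℕ} (ht : t ≤ N) :
    Nh d (10 * C) (UN H F W FW) (γ t) := by
  have key : ∀ h, g⁻¹ * h * g ∈ FN H F W FW → Nh d (10 * C) (H.Z h) (γ t) →
      Nh d (10 * C) (UN H F W FW) (γ t) := by
    rintro h hh ⟨u, hu, hd⟩
    refine ⟨u, ⟨g, hg, Or.inr ⟨_, hh, ?_⟩⟩, hd⟩
    have h3 := (H.Zconj h (hF.sub (c_memF hF hh)) g⁻¹ u).2 hu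
    rwa [inv_inv] at h3
  rcases c_hex hG hC hF hW hx hy hγ e0 e1 ht with ⟨u, hu, hd⟩ | ⟨h3, h4⟩ | ⟨h3, h4⟩
  · exact ⟨u, ⟨g, hg, Or.inl hu⟩, hd.trans (by omega)⟩
  · exact key _ h3 h4
  · exact key _ h3 h4

theorem c_step_mem {g f : G} {j : ℤ} (hg : g ∈ KN H F W FW)
    (h1 : g⁻¹ * f * g ∈ FN H F W FW) : f ^ j * g ∈ KN H F W FW := by
  have h5 : f ^ j * g = g * (g⁻¹ * f * g) ^ j := by
    have h6 : (g⁻¹ * f * g⁻¹⁻¹) ^ j = g⁻¹ * f ^ j * g⁻¹⁻¹ := conj_zpow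
    rw [inv_inv] at h6
    rw [h6]; group
  have h7 : g⁻¹ * f * g ∈ KN H F W FW := Subgroup.subset_closure (Or.inr h1)
  rw [h5]
  exact mul_mem hg (zpow_mem h7 j)

/-- Geodesics along chains stay close to the new set. -/
theorem c_P (hG : HypG d δ) (hC : 100 * δ ≤ C) (hF : Fam H F Δ Tm) (hT : 100 * (Δ : ℝ) ≤ Tm)
    (hW : Wm H F δ Δ x0 W FW) {y g h : G}
    (hc : Rc (FN H F W FW) (EP H W (FN H F W FW) y) g h) :
    g ∈ KN H F W FW → ∀ x, At H W (FN H F W FW) g h x → ∀ (N : ℕ) (γ : ℕ → G),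
      IsGeo d N γ → γ 0 = x → γ N = y → ∀ t ≤ N, Nh d (10 * C) (UN H F W FW) (γ t) := by
  induction hc with
  | @fin g h h1 =>
    intro hg x hx N γ hγ e0 e1 t ht
    rcases h1 with h1 | ⟨f', h1, h2, h3, h4⟩
    · exact c_hexU hG hC hF hW hg hx (h2 := h) (Or.inl h1) hγ e0 e1 ht
    · exact c_hexU hG hC hF hW hg hx (Or.inr ⟨h1, h4⟩) hγ e0 e1 ht
  | @step g h f j h1 h2 h3 h4 hc ih =>
    intro hg x hx N γ hγ e0 e1 t ht
    obtain ⟨a, b, hab, hbN, ha, hb⟩ := c_split hG hC hF hT hW hx h1 h2 h3 h4 hc hγ e0 e1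
    by_cases htb : t ≤ b
    · have h5 := hb_sub hG hγ (Nat.zero_le b) hbN
      have h6 := c_hexU hG hC hF hW hg hx (y := γ b) (Or.inr ⟨h1, hb⟩) h5 (by simpa using e0)
        (by simp) (t := t) (by omega)
      simpa using h6
    · have hg' := c_step_mem (j := j) hg h1
      have h7 := ih hg' (γ a) (Or.inr ⟨by rw [c_pow]; exact h1, ha⟩) (N - a)
        (fun s => γ (a + s)) (hb_sub hG hγ (by omega) le_rfl) (by simp)
        (by rw [Nat.add_sub_cancel' (by omega)]; exact e1) (t - a) (by omega)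
      rwa [Nat.add_sub_cancel' (by omega)] at h7

theorem c_fp_inv (hF : Fam H F Δ Tm) (hW : Wm H F δ Δ x0 W FW) {f : G}
    (hf : f ∈ FP H F W FW) : f⁻¹ ∈ FP H F W FW := by
  obtain ⟨k, hk, hf⟩ := hf
  refine ⟨k, hk, ?_⟩
  have h1 : k⁻¹ * f⁻¹ * k = (k⁻¹ * f * k)⁻¹ := by group
  rw [h1]
  rcases hf with hf | hf
  · exact Or.inl (hW.inv _ hf)
  · exact Or.inr (c_fn_inv hF hW hf)

/-- Stretches near an old hub between two points attached to the same translate. -/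
theorem c_hexQ (hG : HypG d δ) (hC : 100 * δ ≤ C) (hF : Fam H F Δ Tm)
    (hW : Wm H F δ Δ x0 W FW) {g h1 h2 x y : G} (hg : g ∈ KN H F W FW)
    (hx : At H W (FN H F W FW) g h1 x)
    (hy : At H W (FN H F W FW) g h2 y) {N : ℕ} {γ : ℕ → G}
    (hγ : IsGeo d N γ) (e0 : γ 0 = x) (e1 : γ N = y) {f : G} (hf : f ∈ F)
    (hf' : f ∉ FP H F W FW) {i1 i2 : ℕ} (hi2 : i2 ≤ N)
    (hi : ∀ t, i1 ≤ t → t ≤ i2 → Nh d (7 * C) (H.Z f) (γ t)) :
    i2 < i1 + 2 * (Δ + 100 * C) := by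
  by_contra hcon
  push Not at hcon
  have hC1 := hF.hC1
  -- every point is near one of the two hubs
  have key : ∀ t, i1 ≤ t → t ≤ i2 →
      (g⁻¹ * h1 * g ∈ FN H F W FW ∧ Nh d (10 * C) (H.Z h1) (γ t)) ∨
      (g⁻¹ * h2 * g ∈ FN H F W FW ∧ Nh d (10 * C) (H.Z h2) (γ t)) := by
    intro t ht1 ht2
    rcases c_hex hG hC hF hW hx hy hγ e0 e1 (ht2.trans hi2) with ⟨u, hu, hd⟩ | h | h
    · exfalso
      obtain ⟨z, hz, hzd⟩ := hi t ht1 ht2
      refine hf' ⟨g, hg, ?_⟩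
      by_cases hW' : g⁻¹ * f * g ∈ FW
      · exact Or.inl hW'
      · right
        have h3 := hF.conj f hf g⁻¹
        rw [inv_inv] at h3
        have h4 := (H.Zconj f (hF.sub hf) g⁻¹ z).2 hz
        rw [inv_inv] at h4
        refine ⟨h3, hW', g⁻¹ * z, h4, g⁻¹ * u, hu, ?_⟩
        rw [hG.inv]
        have h5 := hG.path.tri z (γ t) u
        have h6 := hG.path.symm z (γ t)
        omega
    · exact Or.inl h
    · exact Or.inr h
  -- two points near the same hub are close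
  have dia : ∀ h, g⁻¹ * h * g ∈ FN H F W FW → ∀ s t, i1 ≤ s → s ≤ t → t ≤ i2 →
      s + (Δ + 100 * C) ≤ t → Nh d (10 * C) (H.Z h) (γ s) → Nh d (10 * C) (H.Z h) (γ t) →
      False := by
    intro h hh s t hs hst ht hlen hns hnt
    have n1 : ∀ r, i1 ≤ r → r ≤ i2 → Nh d (10 * C) (H.Z f) (γ r) := by
      intro r hr1 hr2
      obtain ⟨z, hz, hzd⟩ := hi r hr1 hr2
      exact ⟨z, hz, by omega⟩
    have h3 : d (γ s) (γ t) + s = t := hγ s t hst (ht.trans hi2)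
    have h4 := hl_ov hG hF hf (c_memF hF hh) (n1 s hs (hst.trans ht)) (n1 t (hs.trans hst) ht)
      hns hnt (by omega)
    have h5 : h ∈ FP H F W FW := ⟨g, hg, Or.inr hh⟩
    rcases h4 with h4 | h4
    · exact hf' (h4 ▸ h5)
    · have := c_fp_inv hF hW h5
      rw [h4, inv_inv] at this
      exact hf' this
  have k0 := key i1 le_rfl (by omega)
  have k1 := key (i1 + (Δ + 100 * C)) (by omega) (by omega)
  have k2 := key (i1 + 2 * (Δ + 100 * C)) (by omega) (by omega)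
  rcases k0 with ⟨a0, b0⟩ | ⟨a0, b0⟩ <;> rcases k1 with ⟨a1, b1⟩ | ⟨a1, b1⟩ <;>
    rcases k2 with ⟨a2, b2⟩ | ⟨a2, b2⟩
  · exact dia _ a0 _ _ le_rfl (by omega) (by omega) le_rfl b0 b1
  · exact dia _ a0 _ _ le_rfl (by omega) (by omega) le_rfl b0 b1
  · exact dia _ a0 _ _ le_rfl (by omega) (by omega) (by omega) b0 b2
  · exact dia _ a1 _ _ (by omega) (by omega) (by omega) (by omega) b1 b2
  · exact dia _ a1 _ _ (by omega) (by omega) (by omega) (by omega) b1 b2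
  · exact dia _ a0 _ _ le_rfl (by omega) (by omega) (by omega) b0 b2
  · exact dia _ a0 _ _ le_rfl (by omega) (by omega) le_rfl b0 b1
  · exact dia _ a0 _ _ le_rfl (by omega) (by omega) le_rfl b0 b1

/-- Stretches near an old hub along chains. -/
theorem c_Q (hG : HypG d δ) (hC : 100 * δ ≤ C) (hF : Fam H F Δ Tm) (hT : 100 * (Δ : ℝ) ≤ Tm)
    (hW : Wm H F δ Δ x0 W FW) {y g h : G}
    (hc : Rc (FN H F W FW) (EP H W (FN H F W FW) y) g h) :
    g ∈ KN H F W FW → ∀ x, At H W (FN H F W FW) g h x → ∀ (N : ℕ) (γ : ℕ → G),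
      IsGeo d N γ → γ 0 = x → γ N = y → ∀ f ∈ F, f ∉ FP H F W FW → ∀ i1 i2, i2 ≤ N →
      (∀ t, i1 ≤ t → t ≤ i2 → Nh d (7 * C) (H.Z f) (γ t)) →
      i2 < i1 + 2 * (Δ + 100 * C) := by
  induction hc with
  | @fin g h h1 =>
    intro hg x hx N γ hγ e0 e1 f hf hf' i1 i2 hi2 hi
    rcases h1 with h1 | ⟨f', h1, h2, h3, h4⟩
    · exact c_hexQ hG hC hF hW hg hx (h2 := h) (Or.inl h1) hγ e0 e1 hf hf' hi2 hi
    · exact c_hexQ hG hC hF hW hg hx (Or.inr ⟨h1, h4⟩) hγ e0 e1 hf hf' hi2 hi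
  | @step g h f' j h1 h2 h3 h4 hc ih =>
    intro hg x hx N γ hγ e0 e1 f hf hf' i1 i2 hi2 hi
    obtain ⟨a, b, hab, hbN, ha, hb⟩ := c_split hG hC hF hT hW hx h1 h2 h3 h4 hc hγ e0 e1
    have hC1 := hF.hC1
    by_cases hb2 : i2 ≤ b
    · exact c_hexQ hG hC hF hW hg hx (y := γ b) (Or.inr ⟨h1, hb⟩)
        (hb_sub hG hγ (Nat.zero_le b) hbN) (by simpa using e0) (by simp) hf hf'
        (i1 := i1) (i2 := i2) (by omega) (by simpa using hi)
    by_cases ha1 : a ≤ i1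
    · by_cases h12 : i1 ≤ i2
      swap
      · omega
      have h7 := ih (c_step_mem hg h1) (γ a) (Or.inr ⟨by rw [c_pow]; exact h1, ha⟩) (N - a)
        (fun s => γ (a + s)) (hb_sub hG hγ (by omega) le_rfl) (by simp)
        (by rw [Nat.add_sub_cancel' (by omega)]; exact e1) f hf hf' (i1 - a) (i2 - a) (by omega)
        (fun t ht1 ht2 => hi (a + t) (by omega) (by omega))
      omega
    exfalso
    obtain ⟨za, hza, hda⟩ := hi a (by omega) (by omega)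
    obtain ⟨zb, hzb, hdb⟩ := hi b (by omega) (by omega)
    obtain ⟨wa, hwa, hea⟩ := ha
    obtain ⟨wb, hwb, heb⟩ := hb
    have h5 : d (γ a) (γ b) + a = b := hγ a b (by omega) hbN
    have h6 := hl_ov hG hF hf (c_memF hF h1) (⟨za, hza, by omega⟩ : Nh d (10 * C) (H.Z f) (γ a))
      (⟨zb, hzb, by omega⟩ : Nh d (10 * C) (H.Z f) (γ b))
      (⟨wa, hwa, by omega⟩ : Nh d (10 * C) (H.Z f') (γ a))
      (⟨wb, hwb, by omega⟩ : Nh d (10 * C) (H.Z f') (γ b)) (by omega)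
    have h7 : f' ∈ FP H F W FW := ⟨g, hg, Or.inr h1⟩
    rcases h6 with h6 | h6
    · exact hf' (h6 ▸ h7)
    · have := c_fp_inv hF hW h7
      rw [h6, inv_inv] at this
      exact hf' this

theorem c_KW (hG : HypG d δ) (hF : Fam H F Δ Tm) (hW : Wm H F δ Δ x0 W FW)
    {E : G → G → Prop}
    (hE : ∀ g h k, k ∈ Subgroup.closure FW → E (g * k) h → E g h) {g' h : G}
    (hc : Rc (FN H F W FW) E g' h) :
    ∀ g k, k ∈ Subgroup.closure FW → g' = g * k → Rc (FN H F W FW) E g h := by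
  induction hc with
  | fin h1 =>
    rintro g k hk rfl
    exact Rc.fin (hE _ _ k hk h1)
  | @step g' h f j h1 h2 h3 h4 _ ih =>
    rintro g k hk rfl
    refine Rc.step ?_ h2 h3 h4 (ih (f ^ j * g) k hk (by group))
    have h5 := c_fn_conj hG hF hW hk h1
    have h6 : k * ((g * k)⁻¹ * f * (g * k)) * k⁻¹ = g⁻¹ * f * g := by group
    rwa [h6] at h5

/-- weakening of the condition on the first hub -/
theorem c_wk (hF : Fam H F Δ Tm) {E : G → G → Prop}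
    (hE : ∀ g h, E g h → E g 1) {g h : G}
    (hc : Rc (FN H F W FW) E g h) : Rc (FN H F W FW) E g 1 := by
  cases hc with
  | fin h1 => exact Rc.fin (hE _ _ h1)
  | @step _ _ f j h1 h2 h3 h4 h5 =>
    have h6 := c_ne_one hF (c_memF hF h1)
    exact Rc.step h1 h6 (by rwa [inv_one]) h4 h5

theorem c_gen (hF : Fam H F Δ Tm) {E : G → G → Prop}
    (hE1 : ∀ g h, E g h → E g 1)
    (hE2 : ∀ g f, g⁻¹ * f * g ∈ FN H F W FW → E (f * g) 1 → E g 1 ∨ E (f * g) f) {g f : G}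
    (hf : f ∈ FN H F W FW) (hc : Rc (FN H F W FW) E (g * f) 1) :
    Rc (FN H F W FW) E g 1 := by
  obtain ⟨f0, hf0⟩ : ∃ f0, f0 = g * f * g⁻¹ := ⟨_, rfl⟩
  have e1 : g * f = f0 * g := by rw [hf0]; group
  have e2 : g⁻¹ * f0 * g = f := by rw [hf0]; group
  rw [e1] at hc
  have hf1 : g⁻¹ * f0 * g ∈ FN H F W FW := by rw [e2]; exact hf
  have hne := c_ne_one hF (c_memF hF hf1)
  have st : Rc (FN H F W FW) E (f0 * g) f0 → Rc (FN H F W FW) E g 1 := by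
    intro h
    refine Rc.step (j := 1) hf1 hne (by rwa [inv_one]) one_ne_zero ?_
    rwa [zpow_one]
  cases hc with
  | fin h1 =>
    rcases hE2 g f0 hf1 h1 with h | h
    · exact Rc.fin h
    · exact st (Rc.fin h)
  | @step _ _ f' j h1 h2 h3 h4 h5 =>
    by_cases h6 : f' = f0 ∨ f' = f0⁻¹
    · obtain ⟨ε, hε, hf'⟩ : ∃ ε : ℤ, (ε = 1 ∨ ε = -1) ∧ f0 = f' ^ ε := by
        rcases h6 with rfl | rfl
        · exact ⟨1, Or.inl rfl, (zpow_one _).symm⟩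
        · exact ⟨-1, Or.inr rfl, by simp⟩
      have h7 : f' ^ j * (f0 * g) = f' ^ (j + ε) * g := by
        rw [zpow_add, ← hf']; group
      rw [h7] at h5
      have h8 : g⁻¹ * f' * g ∈ FN H F W FW := by
        have h9 : (f0 * g)⁻¹ * f' * (f0 * g) = g⁻¹ * f' * g := by
          rw [hf']; exact c_pow f' g ε
        rwa [h9] at h1
      by_cases h10 : j + ε = 0
      · rw [h10, zpow_zero, one_mul] at h5
        exact c_wk hF hE1 h5
      · exact Rc.step h8 h2 h3 h10 h5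
    · push Not at h6
      exact st (Rc.step h1 h6.1 h6.2 h4 h5)

/-- Existence of chains. -/
theorem c_ex (hG : HypG d δ) (hF : Fam H F Δ Tm) (hW : Wm H F δ Δ x0 W FW)
    {E : G → G → Prop}
    (hE : ∀ g h k, k ∈ Subgroup.closure FW → E (g * k) h → E g h)
    (hE1 : ∀ g h, E g h → E g 1)
    (hE2 : ∀ g f, g⁻¹ * f * g ∈ FN H F W FW → E (f * g) 1 → E g 1 ∨ E (f * g) f) {k : G}
    (hk : k ∈ KN H F W FW) : ∀ g, Rc (FN H F W FW) E (g * k) 1 ↔ Rc (FN H F W FW) E g 1 := by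
  refine Subgroup.closure_induction (p := fun k _ => ∀ g, Rc (FN H F W FW) E (g * k) 1 ↔
    Rc (FN H F W FW) E g 1) ?_ ?_ ?_ ?_ hk
  · have h1 : ∀ f ∈ FW ∪ FN H F W FW, ∀ g, Rc (FN H F W FW) E (g * f) 1 →
        Rc (FN H F W FW) E g 1 := by
      rintro f (hf | hf) g hc
      · exact c_KW hG hF hW hE hc g f (Subgroup.subset_closure hf) rfl
      · exact c_gen hF hE1 hE2 hf hc
    intro f hf g
    refine ⟨h1 f hf g, fun hc => ?_⟩
    have hf' : f⁻¹ ∈ FW ∪ FN H F W FW := by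
      rcases hf with hf | hf
      · exact Or.inl (hW.inv _ hf)
      · exact Or.inr (c_fn_inv hF hW hf)
    exact h1 f⁻¹ hf' (g * f) (by rwa [mul_inv_cancel_right])
  · intro g
    rw [mul_one]
  · intro a b _ _ ha hb g
    rw [← mul_assoc, hb, ha]
  · intro a _ ha g
    rw [← ha (g * a⁻¹), inv_mul_cancel_right]

/-- Chains ending at a point of the new set. -/
theorem c_exP (hG : HypG d δ) (hF : Fam H F Δ Tm) (hW : Wm H F δ Δ x0 W FW) {y g g' : G}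
    (hg : g ∈ KN H F W FW) (hg' : g' ∈ KN H F W FW)
    (hc : Rc (FN H F W FW) (EP H W (FN H F W FW) y) g' 1) :
    Rc (FN H F W FW) (EP H W (FN H F W FW) y) g 1 := by
  have h1 := c_ex hG hF hW (E := EP H W (FN H F W FW) y) (k := g⁻¹ * g')
    ?_ ?_ ?_ (mul_mem (inv_mem hg) hg') g
  · rw [mul_inv_cancel_left] at h1
    exact h1.1 hc
  · rintro g h k hk (h1 | ⟨f, h1, h2, h3, h4⟩)
    · left
      have h5 := hW.act k hk _ h1
      have h6 : k * ((g * k)⁻¹ * y) = g⁻¹ * y := by group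
      rwa [h6] at h5
    · right
      refine ⟨f, ?_, h2, h3, h4⟩
      have h5 := c_fn_conj hG hF hW hk h1
      have h6 : k * ((g * k)⁻¹ * f * (g * k)) * k⁻¹ = g⁻¹ * f * g := by group
      rwa [h6] at h5
  · rintro g h (h1 | ⟨f, h1, h2, h3, h4⟩)
    · exact Or.inl h1
    · have h6 := c_ne_one hF (c_memF hF h1)
      exact Or.inr ⟨f, h1, h6, by rwa [inv_one], h4⟩
  · rintro g f hf (h1 | ⟨f', h1, h2, h3, h4⟩)
    · exact Or.inr (Or.inl h1)
    · by_cases h5 : f' = f ∨ f' = f⁻¹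
      · left
        right
        refine ⟨f', ?_, h2, h3, h4⟩
        obtain ⟨ε, hf'⟩ : ∃ ε : ℤ, f = f' ^ ε := by
          rcases h5 with rfl | rfl
          · exact ⟨1, (zpow_one _).symm⟩
          · exact ⟨-1, by simp⟩
        have h9 : (f * g)⁻¹ * f' * (f * g) = g⁻¹ * f' * g := by
          rw [hf']; exact c_pow f' g ε
        rwa [h9] at h1
      · push Not at h5
        exact Or.inr (Or.inr ⟨f', h1, h5.1, h5.2, h4⟩)

/-- The two kinds of pairs of points of the new set. -/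
theorem c_pair (hG : HypG d δ) (hF : Fam H F Δ Tm) (hW : Wm H F δ Δ x0 W FW) {x y : G}
    (hx : x ∈ UN H F W FW) (hy : y ∈ UN H F W FW) :
    (∃ g h, g ∈ KN H F W FW ∧ At H W (FN H F W FW) g h x ∧
      Rc (FN H F W FW) (EP H W (FN H F W FW) y) g h) ∨
    ∃ g h1 h2, g ∈ KN H F W FW ∧ At H W (FN H F W FW) g h1 x ∧
      At H W (FN H F W FW) g h2 y := by
  obtain ⟨g', hg', hy⟩ := hy
  obtain ⟨g, hg, hx⟩ := hx
  have h1 : Rc (FN H F W FW) (EP H W (FN H F W FW) y) g' 1 := by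
    refine Rc.fin ?_
    rcases hy with hy | ⟨f, hf, hy⟩
    · exact Or.inl hy
    · right
      have h2 : g'⁻¹ * (g' * f * g'⁻¹) * g' = f := by group
      have h3 : g'⁻¹ * (g' * f * g'⁻¹) * g' ∈ FN H F W FW := by rw [h2]; exact hf
      have h4 := c_ne_one hF (c_memF hF h3)
      have h5 := (H.Zconj f (hF.sub hf.1) g' _).2 hy
      rw [mul_inv_cancel_left] at h5
      exact ⟨_, h3, h4, by rwa [inv_one], y, h5, by rw [hb_self hG]; exact Nat.zero_le _⟩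
  have h2 := c_exP hG hF hW hg hg' h1
  rcases hx with hx | ⟨f, hf, hx⟩
  · exact Or.inl ⟨g, 1, hg, Or.inl hx, h2⟩
  obtain ⟨h, hh⟩ : ∃ h, h = g * f * g⁻¹ := ⟨_, rfl⟩
  have e2 : g⁻¹ * h * g = f := by rw [hh]; group
  have hx1 : g⁻¹ * h * g ∈ FN H F W FW := by rw [e2]; exact hf
  have hx2 : x ∈ H.Z h := by
    have h5 := (H.Zconj f (hF.sub hf.1) g _).2 hx
    rwa [mul_inv_cancel_left, ← hh] at h5
  have hx3 : Nh d (5 * C) (H.Z h) x := ⟨x, hx2, by rw [hb_self hG]; exact Nat.zero_le _⟩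
  cases h2 with
  | fin h3 =>
    rcases h3 with h3 | ⟨f', h3, h4, h5, h6⟩
    · exact Or.inl ⟨g, h, hg, Or.inr ⟨hx1, hx3⟩, Rc.fin (Or.inl h3)⟩
    · exact Or.inr ⟨g, h, f', hg, Or.inr ⟨hx1, hx3⟩, Or.inr ⟨h3, h6⟩⟩
  | @step _ _ f' j h3 h4 h5 h6 h7 =>
    by_cases h8 : f' = h ∨ f' = h⁻¹
    · refine Or.inl ⟨f' ^ j * g, f', c_step_mem hg h3, Or.inr ⟨by rwa [c_pow], ?_⟩, h7⟩
      rcases h8 with rfl | rfl
      · exact hx3
      · rwa [H.Zinv h (hF.sub (c_memF hF hx1))]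
    · push Not at h8
      exact Or.inl ⟨g, h, hg, Or.inr ⟨hx1, hx3⟩, Rc.step h3 h8.1 h8.2 h6 h7⟩

theorem c_qcU (hG : HypG d δ) (hC : 100 * δ ≤ C) (hF : Fam H F Δ Tm)
    (hT : 100 * (Δ : ℝ) ≤ Tm) (hW : Wm H F δ Δ x0 W FW) {x y : G}
    (hx : x ∈ UN H F W FW) (hy : y ∈ UN H F W FW) {N : ℕ} {γ : ℕ → G}
    (hγ : IsGeo d N γ) (e0 : γ 0 = x) (e1 : γ N = y) {t : ℕ} (ht : t ≤ N) :
    Nh d (10 * C) (UN H F W FW) (γ t) := by
  rcases c_pair hG hF hW hx hy with ⟨g, h, hg, h1, h2⟩ | ⟨g, h, h', hg, h1, h2⟩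
  · exact c_P hG hC hF hT hW h2 hg x h1 N γ hγ e0 e1 t ht
  · exact c_hexU hG hC hF hW hg h1 h2 hγ e0 e1 ht

theorem c_smlU (hG : HypG d δ) (hC : 100 * δ ≤ C) (hF : Fam H F Δ Tm)
    (hT : 100 * (Δ : ℝ) ≤ Tm) (hW : Wm H F δ Δ x0 W FW) {x y f : G}
    (hx : x ∈ UN H F W FW) (hy : y ∈ UN H F W FW) (hf : f ∈ F) (hf' : f ∉ FP H F W FW) :
    |H.Φ f x y| ≤ 3 * Δ - 22 * C := by
  by_contra hcon
  push Not at hcon
  have hfX := hF.sub hf
  have hC1 : (1000 : ℝ) * C ≤ Δ := by exact_mod_cast hF.hC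
  have hC0 : (1 : ℝ) ≤ C := by exact_mod_cast hF.hC1
  obtain ⟨γ, e0, e1, hγ⟩ := exists_geo hG.path x y
  rw [← e0, ← e1] at hcon
  obtain ⟨a, b, -, hab, hbN, ha, hb, ha', hb', hn, -⟩ := hl_ee hG H hC hfX hγ
    (Nat.zero_le (d x y)) le_rfl (by linarith)
  have h7 := H.coc f hfX (γ 0) (γ a) (γ (d x y))
  have h8 := H.coc f hfX (γ a) (γ b) (γ (d x y))
  have h9 := H.lip f hfX (γ a) (γ b)
  have h10 : (d (γ a) (γ b) : ℝ) + a = b := by
    have := hγ a b hab.le hbN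
    exact_mod_cast this
  have h11 : |H.Φ f (γ 0) (γ (d x y))| ≤ 12 * C + |H.Φ f (γ a) (γ b)| := by
    rw [← h7, ← h8]
    refine (abs_add_le _ _).trans ?_
    have := abs_add_le (H.Φ f (γ a) (γ b)) (H.Φ f (γ b) (γ (d x y)))
    linarith
  have h12 : b < a + 2 * (Δ + 100 * C) := by
    rcases c_pair hG hF hW hx hy with ⟨g, h, hg, h1, h2⟩ | ⟨g, h, h', hg, h1, h2⟩
    · exact c_Q hG hC hF hT hW h2 hg x h1 _ γ hγ e0 e1 f hf hf' a b hbN hn
    · exact c_hexQ hG hC hF hW hg h1 h2 hγ e0 e1 hf hf' hbN hn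
  have h13 : (b : ℝ) < a + 2 * (Δ + 100 * C) := by exact_mod_cast h12
  linarith

theorem c_bigU (hG : HypG d δ) (hF : Fam H F Δ Tm)
    (hT : 100 * (Δ : ℝ) ≤ Tm) (hW : Wm H F δ Δ x0 W FW) {k : G} (hk : k ∈ KN H F W FW)
    (hk1 : k ≠ 1) : ∃ f ∈ F, H.T f - 20 * Δ ≤ |H.Φ f x0 (k * x0)| := by
  have h1 : Rc (FN H F W FW) (EK FW k) (1 * k) 1 := by
    refine Rc.fin ?_
    change (1 * k)⁻¹ * k ∈ Subgroup.closure FW
    rw [one_mul, inv_mul_cancel]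
    exact one_mem _
  rw [c_ex hG hF hW (E := EK FW k) (k := k) ?_ ?_ ?_ hk 1] at h1
  · cases h1 with
    | fin h2 =>
      change (1 : G)⁻¹ * k ∈ Subgroup.closure FW at h2
      rw [inv_one, one_mul] at h2
      exact hW.big k h2 hk1
    | @step _ _ f j h3 h4 h5 h6 h7 =>
      have h8 : Rc (FN H F W FW) (EP H W (FN H F W FW) (k * x0)) (f ^ j * 1) f := by
        refine Rc.mono (fun g h hgh => Or.inl ?_) h7
        have := hW.act _ hgh _ hW.mem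
        rwa [← mul_assoc]
      have h9 := c_big hG hF hT hW (x := x0) (g := 1) (h := 1)
        (Or.inl (by rw [inv_one, one_mul]; exact hW.mem)) h3 h4 h5 h6 h8
      have hΔ : (0 : ℝ) ≤ Δ := Nat.cast_nonneg _
      exact ⟨f, c_memF hF h3, by linarith⟩
  · intro g h k' hk' h2
    change (g * k')⁻¹ * k ∈ Subgroup.closure FW at h2
    change g⁻¹ * k ∈ Subgroup.closure FW
    have h3 := mul_mem hk' h2
    have h4 : k' * ((g * k')⁻¹ * k) = g⁻¹ * k := by group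
    rwa [h4] at h3
  · exact fun g h h2 => h2
  · exact fun g f _ h2 => Or.inr h2

/-- One growth step. -/
theorem c_grow (hG : HypG d δ) (hC : 100 * δ ≤ C) (hF : Fam H F Δ Tm)
    (hT : 100 * (Δ : ℝ) ≤ Tm) (hW : Wm H F δ Δ x0 W FW) :
    Wm H F δ Δ x0 (WP H F W FW) (FP H F W FW) := by
  have hU : ∀ u ∈ UN H F W FW, ∀ k ∈ KN H F W FW, k * u ∈ UN H F W FW := by
    rintro u ⟨k', hk', hu⟩ k hk
    refine ⟨k * k', mul_mem hk hk', ?_⟩
    have h1 : (k * k')⁻¹ * (k * u) = k'⁻¹ * u := by group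
    rw [h1]
    exact hu
  have hFPK : FP H F W FW ⊆ KN H F W FW := by
    rintro f ⟨k, hk, hf⟩
    have h1 : k⁻¹ * f * k ∈ KN H F W FW := Subgroup.subset_closure hf
    have h2 : f = k * (k⁻¹ * f * k) * k⁻¹ := by group
    rw [h2]
    exact mul_mem (mul_mem hk h1) (inv_mem hk)
  have hcl : Subgroup.closure (FP H F W FW) ≤ KN H F W FW :=
    (Subgroup.closure_le _).2 hFPK
  have hFWF : ∀ f, f ∈ FW ∪ FN H F W FW → f ∈ F := by
    rintro f (hf | hf)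
    · exact hW.sub hf
    · exact hf.1
  refine ⟨?_, ?_, fun f hf => c_fp_inv hF hW hf, ?_, ?_, ?_, ?_, ?_, ?_⟩
  · exact ⟨x0, ⟨1, one_mem _, Or.inl (by rw [inv_one, one_mul]; exact hW.mem)⟩,
      by rw [hb_self hG]; exact Nat.zero_le _⟩
  · rintro f ⟨k, hk, hf⟩
    have h1 := hF.conj _ (hFWF _ hf) k
    have h2 : k * (k⁻¹ * f * k) * k⁻¹ = f := by group
    rwa [h2] at h1
  · rintro f ⟨k, hk, hf⟩ z hz
    have hfF : f ∈ F := by
      have h1 := hF.conj _ (hFWF _ hf) k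
      have h2 : k * (k⁻¹ * f * k) * k⁻¹ = f := by group
      rwa [h2] at h1
    have h3 := (H.Zconj f (hF.sub hfF) k⁻¹ z).2 hz
    rw [inv_inv] at h3
    refine ⟨z, ⟨k, hk, ?_⟩, by rw [hb_self hG]; exact Nat.zero_le _⟩
    rcases hf with hf | hf
    · exact Or.inl (hW.Zsub _ hf h3)
    · exact Or.inr ⟨_, hf, h3⟩
  · rintro k hk x ⟨u, hu, hd⟩
    exact ⟨k * u, hU u hu k (hcl hk), by rw [hG.inv]; exact hd⟩
  · rintro k hk f ⟨k', hk', hf⟩
    refine ⟨k * k', mul_mem (hcl hk) hk', ?_⟩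
    have h1 : (k * k')⁻¹ * (k * f * k⁻¹) * (k * k') = k'⁻¹ * f * k' := by group
    rw [h1]
    exact hf
  · rintro x ⟨x', hx', hxd⟩ y ⟨y', hy', hyd⟩ p hp
    obtain ⟨γ, e0, ep, e1, hγ⟩ := hb_through hG hp
    obtain ⟨γ1, a0, a1, hγ1⟩ := exists_geo hG.path x x'
    obtain ⟨γ2, b0, b1, hγ2⟩ := exists_geo hG.path x' y'
    obtain ⟨γ3, c0, c1, hγ3⟩ := exists_geo hG.path y' y
    have hC1 := hF.hC1
    have key : ∀ q, d p q ≤ 8 * δ → q ∈ WP H F W FW → Nh d (8 * δ) (WP H F W FW) p :=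
      fun q h1 h2 => ⟨q, h2, h1⟩
    rcases hb_quad hG hγ hγ1 hγ2 hγ3 (by rw [e0, a0]) (by rw [a1, b0]) (by rw [b1, c0])
      (by rw [e1, c1]) (t := d x p) (by omega) with ⟨s, hs, h1⟩ | ⟨s, hs, h1⟩ | ⟨s, hs, h1⟩
    · rw [ep] at h1
      refine key _ h1 ⟨x', hx', ?_⟩
      have h2 := hγ1 s _ hs le_rfl
      rw [a1] at h2
      omega
    · rw [ep] at h1
      obtain ⟨u, hu, hud⟩ := c_qcU hG hC hF hT hW hx' hy' hγ2 b0 b1 hs
      refine ⟨p, ⟨u, hu, ?_⟩, by rw [hb_self hG]; exact Nat.zero_le _⟩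
      have h2 := hG.path.tri p (γ2 s) u
      omega
    · rw [ep] at h1
      refine key _ h1 ⟨y', hy', ?_⟩
      have h2 := hγ3 0 s (Nat.zero_le _) hs
      rw [c0] at h2
      have h3 := hG.path.symm (γ3 s) y'
      have h4 := hG.path.symm y' y
      omega
  · rintro f hf hf' x ⟨x', hx', hxd⟩ y ⟨y', hy', hyd⟩
    have h1 := c_smlU hG hC hF hT hW hx' hy' hf hf'
    have h2 := hl_lip2 hG H (hF.sub hf) x y x' y'
    have h3 : (d x x' : ℝ) ≤ 11 * C := by exact_mod_cast hxd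
    have h4 : (d y y' : ℝ) ≤ 11 * C := by exact_mod_cast hyd
    have h5 := abs_add_le (H.Φ f x y - H.Φ f x' y') (H.Φ f x' y')
    rw [sub_add_cancel] at h5
    linarith
  · intro k hk hk1
    exact c_bigU hG hF hT hW (hcl hk) hk1

end

/-- The sequence of windmills. -/
def sq (H : Hubs d X C) (F : Set G) (x0 : G) : ℕ → Set G × Set G
  | 0 => ({x0}, ∅)
  | n + 1 => (WP H F (sq H F x0 n).1 (sq H F x0 n).2, FP H F (sq H F x0 n).1 (sq H F x0 n).2)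

theorem sq_wm (hG : HypG d δ) (hC : 100 * δ ≤ C) {H : Hubs d X C} (hF : Fam H F Δ Tm)
    (hT : 100 * (Δ : ℝ) ≤ Tm) (x0 : G) (n : ℕ) :
    Wm H F δ Δ x0 (sq H F x0 n).1 (sq H F x0 n).2 := by
  induction n with
  | zero =>
    change Wm H F δ Δ x0 {x0} ∅
    have h0 : ∀ k ∈ Subgroup.closure (∅ : Set G), k = 1 := by
      intro k hk
      rw [Subgroup.closure_empty] at hk
      exact hk
    refine ⟨rfl, Set.empty_subset _, by simp, by simp, ?_, by simp, ?_, ?_, ?_⟩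
    · rintro k hk x rfl
      rw [h0 k hk, one_mul]
      rfl
    · rintro x hx y hy p hp
      rw [Set.mem_singleton_iff] at hx hy
      rw [hx, hy] at hp
      refine ⟨x0, rfl, ?_⟩
      have h1 := hb_self hG x0
      omega
    · rintro f hf - x hx y hy
      rw [Set.mem_singleton_iff] at hx hy
      rw [hx, hy, hl_refl H (hF.sub hf), abs_zero]
      positivity
    · intro k hk hk1
      exact absurd (h0 k hk) hk1
  | succ n ih => exact c_grow hG hC hF hT ih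

theorem sq_sub1 (hG : HypG d δ) {H : Hubs d X C} (hF : Fam H F Δ Tm) (x0 : G) (n : ℕ) {x y : G}
    (hx : x ∈ (sq H F x0 n).1) (hxy : d x y ≤ 1) : y ∈ (sq H F x0 (n + 1)).1 := by
  change y ∈ WP H F (sq H F x0 n).1 (sq H F x0 n).2
  refine ⟨x, ⟨1, one_mem _, Or.inl (by rwa [inv_one, one_mul])⟩, ?_⟩
  have := hF.hC1
  have := hG.path.symm x y
  omega

theorem sq_sub2 {H : Hubs d X C} (x0 : G) (n : ℕ) :
    (sq H F x0 n).2 ⊆ (sq H F x0 (n + 1)).2 := by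
  intro f hf
  refine ⟨1, one_mem _, Or.inl ?_⟩
  rwa [inv_one, one_mul, mul_one]

theorem sq_mono {H : Hubs d X C} (x0 : G) {m n : ℕ} (hmn : m ≤ n) :
    (sq H F x0 m).2 ⊆ (sq H F x0 n).2 := by
  induction hmn with
  | refl => exact subset_rfl
  | step _ ih => exact ih.trans (sq_sub2 x0 _)

theorem sq_ball (hG : HypG d δ) {H : Hubs d X C} (hF : Fam H F Δ Tm) (x0 : G) (n : ℕ) :
    ∀ y, d x0 y ≤ n → y ∈ (sq H F x0 n).1 := by
  induction n with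
  | zero =>
    intro y hy
    have h1 := (hG.path.zero_iff x0 y).1 (by omega)
    rw [← h1]
    rfl
  | succ n ih =>
    intro y hy
    by_cases h1 : d x0 y ≤ n
    · exact sq_sub1 hG hF x0 n (ih y h1) (by rw [hb_self hG]; exact Nat.zero_le _)
    · obtain ⟨z, hz, hzn⟩ := hG.path.geod x0 y n (by omega)
      refine sq_sub1 hG hF x0 n (ih z (by omega)) ?_
      unfold MH.Btw at hz
      omega

theorem sq_F (hG : HypG d δ) {H : Hubs d X C} (hF : Fam H F Δ Tm) (x0 : G) {f : G}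
    (hf : f ∈ F) : ∃ n, f ∈ (sq H F x0 n).2 := by
  have hz := H.pr_mem f (hF.sub hf) x0
  have h1 := sq_ball hG hF x0 (d x0 (H.pr f x0)) _ le_rfl
  refine ⟨d x0 (H.pr f x0) + 1, 1, one_mem _, ?_⟩
  rw [inv_one, one_mul, mul_one]
  by_cases h2 : f ∈ (sq H F x0 (d x0 (H.pr f x0))).2
  · exact Or.inl h2
  · exact Or.inr ⟨hf, h2, _, hz, _, h1, by rw [hb_self hG]; exact Nat.zero_le _⟩

theorem sq_cl (hG : HypG d δ) {H : Hubs d X C} (hF : Fam H F Δ Tm) (x0 : G) {k : G}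
    (hk : k ∈ Subgroup.closure F) : ∃ n, k ∈ Subgroup.closure (sq H F x0 n).2 := by
  refine Subgroup.closure_induction (p := fun k _ => ∃ n, k ∈ Subgroup.closure (sq H F x0 n).2)
    ?_ ?_ ?_ ?_ hk
  · intro f hf
    obtain ⟨n, hn⟩ := sq_F hG hF x0 hf
    exact ⟨n, Subgroup.subset_closure hn⟩
  · exact ⟨0, one_mem _⟩
  · rintro a b _ _ ⟨m, hm⟩ ⟨n, hn⟩
    refine ⟨max m n, mul_mem ?_ ?_⟩
    · exact Subgroup.closure_mono (sq_mono x0 (le_max_left m n)) hm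
    · exact Subgroup.closure_mono (sq_mono x0 (le_max_right m n)) hn
  · rintro a _ ⟨m, hm⟩
    exact ⟨m, inv_mem hm⟩

/-- Part C. -/
theorem stC : StC := by
  intro G _ d δ C Δ X F H Tm hG hC hF hT k hk hk1 x
  obtain ⟨n, hn⟩ := sq_cl hG hF x hk
  exact (sq_wm hG hC hF hT x n).big k hn hk1

end Pool.Agent.Helper74.TB
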