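import Pool.Agent.Helper74.TB.StJK

/-! MP_7d16da_al: Part CHB, the chain bound. -/

set_option autoImplicit false

namespace Pool.Agent.Helper74.TB

open Pool.Agent.Helper74.MH

/-- Chain bound: a relator outside a chain of long hubs sees only one bridge. -/
theorem stCHB : StCHB := by
  intro G _ d δ C Δ X F H Tm B hG hF m h z z' g pm pp hh hg hne hlong hpm hpp hb0 hbj hbm
  have hC0 : (0 : ℝ) ≤ C := Nat.cast_nonneg C
  have hΔ0 : (0 : ℝ) ≤ Δ := Nat.cast_nonneg Δ
  have hgX := hF.sub hg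
  -- the alternative
  have alt : ∀ j ≤ m, (∀ w ∈ H.Z (h j), |H.Φ g z w| ≤ Δ + 10 * C) ∨
      (∀ w ∈ H.Z (h j), |H.Φ g z' w| ≤ Δ + 10 * C) := by
    intro j hj
    have hn1 : h j ≠ g := fun e => (hne j hj).1 e.symm
    have hn2 : h j ≠ g⁻¹ := fun e => (hne j hj).2 (by rw [e, inv_inv])
    rcases hl_beh hG hF hg (hh j hj) hn1 hn2 z with h1 | h1
    · exact Or.inl h1
    · rcases hl_beh hG hF hg (hh j hj) hn1 hn2 z' with h2 | h2
      · exact Or.inr h2
      · exfalso
        have hw := H.pr_mem g hgX z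
        have e1 := h1 _ hw
        have e2 := h2 _ hw
        have hjX := hF.sub (hh j hj)
        have e3 := H.coc (h j) hjX z (H.pr g z) z'
        have e4 := hl_symm H hjX z' (H.pr g z)
        have e5 := hlong j hj
        have e6 := abs_add_le (H.Φ (h j) z (H.pr g z)) (H.Φ (h j) (H.pr g z) z')
        rw [e3, e4, abs_neg] at e6
        linarith
  by_cases hA0 : ∀ w ∈ H.Z (h 0), |H.Φ g z w| ≤ Δ + 10 * C
  · by_cases hAm : ∀ w ∈ H.Z (h m), |H.Φ g z w| ≤ Δ + 10 * C
    · have e1 := hAm _ (hpp m le_rfl)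
      have e3 := H.coc g hgX z (pp m) z'
      have e6 := abs_add_le (H.Φ g z (pp m)) (H.Φ g (pp m) z')
      rw [e3] at e6
      linarith
    · -- find the last index
      obtain ⟨j, hj, hAj, hAj'⟩ : ∃ j < m, (∀ w ∈ H.Z (h j), |H.Φ g z w| ≤ Δ + 10 * C) ∧
          ¬ (∀ w ∈ H.Z (h (j + 1)), |H.Φ g z w| ≤ Δ + 10 * C) := by
        by_contra hcon
        push Not at hcon
        apply hAm
        have key : ∀ j ≤ m, ∀ w ∈ H.Z (h j), |H.Φ g z w| ≤ Δ + 10 * C := by
          intro j
          induction j with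
          | zero => intro _; exact hA0
          | succ j ih =>
            intro hj w hw
            exact hcon j (by omega) (ih (by omega)) w hw
        exact key m le_rfl
      have hB : ∀ w ∈ H.Z (h (j + 1)), |H.Φ g z' w| ≤ Δ + 10 * C :=
        (alt (j + 1) (by omega)).resolve_left hAj'
      have e1 := hAj _ (hpp j hj.le)
      have e2 := hbj j hj
      have e3 := hB _ (hpm (j + 1) (by omega))
      have e4 := hl_symm H hgX z' (pm (j + 1))
      have e5 := H.coc g hgX z (pp j) (pm (j + 1))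
      have e6 := H.coc g hgX z (pm (j + 1)) z'
      have e7 := abs_add_le (H.Φ g z (pp j)) (H.Φ g (pp j) (pm (j + 1)))
      have e8 := abs_add_le (H.Φ g z (pm (j + 1))) (H.Φ g (pm (j + 1)) z')
      rw [e5] at e7
      rw [e6, e4, abs_neg] at e8
      linarith
  · have hB : ∀ w ∈ H.Z (h 0), |H.Φ g z' w| ≤ Δ + 10 * C :=
      (alt 0 (Nat.zero_le m)).resolve_left hA0
    have e3 := hB _ (hpm 0 (Nat.zero_le m))
    have e4 := hl_symm H hgX z' (pm 0)
    have e6 := H.coc g hgX z (pm 0) z'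
    have e8 := abs_add_le (H.Φ g z (pm 0)) (H.Φ g (pm 0) z')
    rw [e6, e4, abs_neg] at e8
    linarith

end Pool.Agent.Helper74.TB
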