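import Pool.Agent.Helper74.TB.StDE

/-! MP_7d16da_al: Part D3, chords. -/

set_option autoImplicit false

namespace Pool.Agent.Helper74.TB

open Pool.Agent.Helper74.MH

theorem stCh : StCh := by
  intro G _ d δ C Δ R X F H b c Tm hG hF hc hb x y hxy
  have hC1 : (1 : ℝ) ≤ C := by exact_mod_cast hF.hC1
  have hΔ : (1000 : ℝ) * C ≤ Δ := by exact_mod_cast hc.hΔ
  have hR : (1000 : ℝ) * Δ ≤ R := by exact_mod_cast hc.hR
  have hT := hc.hT
  have hbig : ∀ f ∈ F, 3 * (R : ℝ) ≤ b f := by
    intro f hf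
    have h1 := hb.ge f hf
    have h2 := hF.big f hf
    have h3 : (0 : ℝ) ≤ R := Nat.cast_nonneg R
    linarith
  rcases hxy with hxy | ⟨f, hf, hx, hy⟩
  · refine ⟨1, (Subgroup.closure F).one_mem, ?_, ?_⟩
    · rw [one_mul]; exact Or.inl hxy
    · rw [one_mul]
      intro f hf
      have h1 := (le_abs_self _).trans (H.lip f (hF.sub hf) x y)
      have h2 : (d x y : ℝ) ≤ R := by exact_mod_cast hxy
      have h3 := hbig f hf
      have h4 : (0 : ℝ) ≤ R := Nat.cast_nonneg R
      linarith
  · have hfX := hF.sub hf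
    have hTf : 0 < H.T f := by
      have h2 := hF.big f hf
      linarith
    set m : ℤ := ⌊(b f - H.Φ f x y) / H.T f⌋ with hm
    have hm1 : (m : ℝ) * H.T f ≤ b f - H.Φ f x y := by
      have := Int.floor_le ((b f - H.Φ f x y) / H.T f)
      rwa [le_div_iff₀ hTf] at this
    have hm2 : b f - H.Φ f x y < ((m : ℝ) + 1) * H.T f := by
      have := Int.lt_floor_add_one ((b f - H.Φ f x y) / H.T f)
      rwa [div_lt_iff₀ hTf] at this
    have hΦ : H.Φ f x (f ^ m * y) = H.Φ f x y + m * H.T f := by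
      have h1 := H.coc f hfX x y (f ^ m * y)
      have h2 := hl_zpow H hfX y m
      linarith
    have hk : f ^ m ∈ Subgroup.closure F :=
      (Subgroup.closure F).zpow_mem (Subgroup.subset_closure hf) m
    have hy' : Nh d (20 * C) (H.Z f) (f ^ m * y) := by
      obtain ⟨z, hz, hyz⟩ := hy
      refine ⟨f ^ m * z, (hl_Zpow H hfX z m).2 hz, ?_⟩
      rw [hG.inv]
      exact hyz
    refine ⟨f ^ m, hk, Or.inr ⟨f, hf, hx, hy'⟩, ?_⟩
    intro f' hf'
    by_cases h1 : f' = f
    · rw [h1, hΦ]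
      linarith
    by_cases h2 : f' = f⁻¹
    · rw [h2]
      have h3 := (abs_le.1 (H.neg f hfX x (f ^ m * y))).2
      have h4 := hb.add f hf
      rw [hΦ] at h3
      linarith
    · have h3 := hl_sep hG hF hf' hf (fun h => h1 h.symm) (fun h => h2 (by rw [h, inv_inv]))
        hx hy'
      have h4 := (le_abs_self _).trans h3
      have h5 := hbig f' hf'
      push_cast at h4
      linarith

end Pool.Agent.Helper74.TB
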