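import Pool.Agent.Helper74.TB.StDE

/-! MP_7d16da_al: Part E3, counting long hubs. -/

set_option autoImplicit false

namespace Pool.Agent.Helper74.TB

open Pool.Agent.Helper74.MH

/-- The signed length along a chain. -/
theorem count_sum {G : Type*} [Group G] {d : G → G → ℕ} {X : Set G} {C : ℕ} (H : Hubs d X C)
    {f : G} (hf : f ∈ X) (q : ℕ → G) (B : ℝ) (n : ℕ)
    (h : ∀ i < n, |H.Φ f (q i) (q (i + 1))| ≤ B) : |H.Φ f (q 0) (q n)| ≤ B * n := by
  induction n with
  | zero => rw [hl_refl H hf]; simp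
  | succ n ih =>
    have h1 := ih fun i hi => h i (by omega)
    have h2 := h n (by omega)
    have h3 := H.coc f hf (q 0) (q n) (q (n + 1))
    rw [abs_le] at h1 h2 ⊢
    push_cast
    constructor <;> linarith [h1.1, h1.2, h2.1, h2.2]

theorem stCount : StCount := by
  classical
  intro G _ d δ C Δ R X F H c Tm hG hF hc n x y hDE S hSF hSΦ hSinv
  obtain ⟨q, hq0, hqn, hq⟩ := hDE
  have hC1 : (1 : ℝ) ≤ C := by exact_mod_cast hF.hC1
  have hΔ : (1000 : ℝ) * C ≤ Δ := by exact_mod_cast hc.hΔ
  have hR : (1000 : ℝ) * Δ ≤ R := by exact_mod_cast hc.hR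
  -- every long hub has a long step
  have hex : ∀ f : G, ∃ i : ℕ, f ∈ S → i < n ∧ (R : ℝ) < |H.Φ f (q i) (q (i + 1))| := by
    intro f
    by_cases hf : f ∈ S
    · by_contra hcon
      push Not at hcon
      have h1 := count_sum H (hF.sub (hSF f hf)) q R n fun i hi => by
        obtain ⟨-, h2⟩ := hcon i
        exact h2 hi
      rw [hq0, hqn] at h1
      have h2 := hSΦ f hf
      linarith
    · exact ⟨0, fun h => absurd h hf⟩
  choose st hst using hex
  -- the hub of a long step
  have hhub : ∀ i < n, ∃ g : G, ∀ f ∈ S, (R : ℝ) < |H.Φ f (q i) (q (i + 1))| →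
      g = f ∨ g = f⁻¹ := by
    intro i hi
    rcases hq i hi with h1 | ⟨g, hg, hx, hy⟩
    · refine ⟨1, fun f hf h2 => ?_⟩
      exfalso
      have h3 := H.lip f (hF.sub (hSF f hf)) (q i) (q (i + 1))
      have h4 : (d (q i) (q (i + 1)) : ℝ) ≤ R := by exact_mod_cast h1
      linarith
    · refine ⟨g, fun f hf h2 => ?_⟩
      by_contra hcon
      push Not at hcon
      have h3 := hl_sep hG hF (hSF f hf) hg hcon.1 hcon.2 hx hy
      push_cast at h3
      linarith
  have hinj : Set.InjOn st (S : Set G) := by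
    intro f hf f' hf' he
    have hf1 : f ∈ S := hf
    have hf2 : f' ∈ S := hf'
    obtain ⟨g, hg⟩ := hhub (st f) (hst f hf1).1
    have h1 := hg f hf1 (hst f hf1).2
    have h2 := hg f' hf2 (by rw [he]; exact (hst f' hf2).2)
    rcases h1 with h1 | h1 <;> rcases h2 with h2 | h2
    · rw [← h1, ← h2]
    · exact absurd (h1.symm.trans h2) (hSinv f' hf2 f hf1)
    · exact absurd (h2.symm.trans h1) (hSinv f hf1 f' hf2)
    · exact inv_injective (h1.symm.trans h2)
  have hmaps : Set.MapsTo st (S : Set G) (Finset.range n : Set ℕ) := by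
    intro f hf
    have hf1 : f ∈ S := hf
    simpa using (hst f hf1).1
  have := Finset.card_le_card_of_injOn st hmaps hinj
  rwa [Finset.card_range] at this

end Pool.Agent.Helper74.TB
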