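import Pool.Agent.Helper74.TB.StDE

/-! MP_7d16da_al: Part D2, the digon lemma. See /team-store/MP_7d16da-plan.md. -/

set_option autoImplicit false

namespace Pool.Agent.Helper74.TB

open Pool.Agent.Helper74.MH

variable {G : Type*} [Group G] {d : G → G → ℕ} {δ C Δ R : ℕ} {X F : Set G} {c Tm : ℝ}

/-- real consequences of the constants -/
theorem dg_cst (hc : Cst δ C Δ R c Tm) : (100 : ℝ) ≤ C ∧ 1000 * (C : ℝ) ≤ Δ ∧
    1000 * (Δ : ℝ) ≤ R ∧ 10000 * (Δ : ℝ) ≤ Tm := by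
  have h1 : (100 : ℝ) ≤ C := by
    have := hc.hC
    have h2 := hc.hδ
    exact_mod_cast (by omega : 100 ≤ C)
  have h2 : 1000 * (C : ℝ) ≤ Δ := by exact_mod_cast hc.hΔ
  have h3 : 1000 * (Δ : ℝ) ≤ R := by exact_mod_cast hc.hR
  have h4 := hc.hT
  exact ⟨h1, h2, h3, by linarith⟩

omit [Group G] in
/-- near the axis, weaker radius -/
theorem dg_mono {r r' : ℕ} (h : r ≤ r') {S : Set G} {x : G} (hx : Nh d r S x) :
    Nh d r' S x := by
  obtain ⟨z, hz, h1⟩ := hx
  exact ⟨z, hz, h1.trans h⟩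

/-- The link between the two start points. -/
def DgLink (H : Hubs d X C) (F : Set G) (g : ℝ) (x y : G) : Prop :=
  x = y ∨ ∃ f ∈ F, Nh d (5 * C) (H.Z f) x ∧ Nh d (5 * C) (H.Z f) y ∧ |H.Φ f x y| ≤ g

theorem DgLink.symm {H : Hubs d X C} (hFX : F ⊆ X) {g : ℝ} {x y : G}
    (h : DgLink H F g x y) : DgLink H F g y x := by
  rcases h with h | ⟨f, hf, h1, h2, h3⟩
  · exact Or.inl h.symm
  · refine Or.inr ⟨f, hf, h2, h1, ?_⟩
    rw [hl_symm H (hFX hf) x y, abs_neg]
    exact h3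

theorem dg_adj_symm {H : Hubs d X C} (hG : HypG d δ) {x y : G} (h : Adj H F R x y) :
    Adj H F R y x := by
  rcases h with h | ⟨f, hf, h1, h2⟩
  · left; rw [hG.path.symm]; exact h
  · exact Or.inr ⟨f, hf, h2, h1⟩

/-- one side of the closeness -/
theorem dg_side (hG : HypG d δ) {H : Hubs d X C} (hF : Fam H F Δ Tm) (hc : Cst δ C Δ R c Tm)
    {g : ℝ} (hg : 0 ≤ g) {N1 N2 : ℕ} {η η' : ℕ → G} (hη : IsGeo d N1 η) (hη' : IsGeo d N2 η')
    (hl : DgLink H F g (η 0) (η' 0)) (he : d (η N1) (η' N2) ≤ Δ + 23 * C) {t : ℕ}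
    (ht : t ≤ N1) : ∃ t' ≤ N2, Adj H F R (η t) (η' t') ∧
      (d (η t) (η' t') : ℝ) ≤ g + 3 * Δ := by
  obtain ⟨k1, k2, k3, k4⟩ := dg_cst hc
  have hδC := hc.hC
  have hδR := hc.hR
  have hδ1 := hc.hΔ
  obtain ⟨ξ, hξ0, hξ1, hξ⟩ := exists_geo hG.path (η 0) (η' 0)
  obtain ⟨ζ, hζ0, hζ1, hζ⟩ := exists_geo hG.path (η' N2) (η N1)
  rcases hb_quad hG hη hξ hη' hζ hξ0.symm hξ1 hζ0.symm hζ1.symm ht with
    ⟨s, hs, hd⟩ | ⟨s, hs, hd⟩ | ⟨s, hs, hd⟩
  · -- near the first side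
    refine ⟨0, Nat.zero_le _, ?_⟩
    rcases hl with hl | ⟨f, hf, h1, h2, h3⟩
    · have h0 : d (η 0) (η' 0) = 0 := by rw [hl]; exact hb_self hG _
      have hs0 : s = 0 := by omega
      rw [hs0, hξ0, hl] at hd
      refine ⟨Or.inl (by omega), ?_⟩
      have : (d (η t) (η' 0) : ℝ) ≤ 3 * Δ := by
        exact_mod_cast (by omega : d (η t) (η' 0) ≤ 3 * Δ)
      linarith
    · have hb := hb_btw hG hξ (Nat.zero_le s) hs le_rfl
      rw [hξ0, hξ1] at hb
      obtain ⟨w, hw, hdw⟩ := hl_qc hG H hδC (hF.sub hf) h1 h2 hb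
      have t1 := hG.path.tri (η t) (ξ s) w
      refine ⟨Or.inr ⟨f, hf, ⟨w, hw, by omega⟩, dg_mono (by omega) h2⟩, ?_⟩
      have n1 := hl_near hG H (hF.sub hf) h1 h2
      have t2 := hG.path.tri (η t) (ξ s) (η' 0)
      have t3 : d (η t) (η' 0) ≤ d (η 0) (η' 0) + 8 * δ := by omega
      have t4 : (d (η t) (η' 0) : ℝ) ≤ d (η 0) (η' 0) + C := by
        exact_mod_cast (by omega : d (η t) (η' 0) ≤ d (η 0) (η' 0) + C)
      push_cast at n1
      linarith
  · refine ⟨s, hs, Or.inl (by omega), ?_⟩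
    have : (d (η t) (η' s) : ℝ) ≤ 3 * Δ := by
      exact_mod_cast (by omega : d (η t) (η' s) ≤ 3 * Δ)
    linarith
  · have h1 := hζ 0 s (Nat.zero_le _) hs
    rw [hζ0] at h1
    have h2 := hG.path.tri (η t) (ζ s) (η' N2)
    have h3 := hG.path.symm (η' N2) (ζ s)
    have h4 := hG.path.symm (η' N2) (η N1)
    refine ⟨N2, le_rfl, Or.inl (by omega), ?_⟩
    have : (d (η t) (η' N2) : ℝ) ≤ 3 * Δ := by
      exact_mod_cast (by omega : d (η t) (η' N2) ≤ 3 * Δ)
    linarith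

/-- both sides of the closeness -/
theorem dg_cl (hG : HypG d δ) {H : Hubs d X C} (hF : Fam H F Δ Tm) (hc : Cst δ C Δ R c Tm)
    {g : ℝ} (hg : 0 ≤ g) {N N' : ℕ} {γ γ' : ℕ → G} (hγ : IsGeo d N γ) (hγ' : IsGeo d N' γ')
    {i i' j j' : ℕ} (hi : i ≤ i') (hi' : i' ≤ N) (hj : j ≤ j') (hj' : j' ≤ N') {u : G}
    (hl : DgLink H F g (γ i) (u * γ' j)) (he : d (γ i') (u * γ' j') ≤ Δ + 23 * C) {r0 : ℝ}
    (hr : g + 3 * Δ ≤ r0) : Cl H F R r0 γ γ' i i' j j' u := by
  have hs1 := hb_sub hG hγ hi hi'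
  have hs2 := hb_sub hG (hb_smul hG hγ' u) hj hj'
  have e1 : i + (i' - i) = i' := by omega
  have e2 : j + (j' - j) = j' := by omega
  constructor
  · intro t h1 h2
    obtain ⟨t', ht', hA, hd⟩ := dg_side hG hF hc hg hs1 hs2 (by simpa using hl)
      (by simpa only [e1, e2] using he) (t := t - i) (by omega)
    have e3 : i + (t - i) = t := by omega
    simp only [e3] at hA hd
    exact ⟨j + t', by omega, by omega, hA, hd.trans hr⟩
  · intro t h1 h2
    obtain ⟨t', ht', hA, hd⟩ := dg_side hG hF hc hg hs2 hs1 (by simpa using hl.symm hF.sub)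
      (by simpa only [e1, e2, hG.path.symm (u * γ' j') (γ i')] using he) (t := t - j) (by omega)
    have e3 : j + (t - j) = t := by omega
    simp only [e3] at hA hd
    refine ⟨i + t', by omega, by omega, dg_adj_symm hG hA, ?_⟩
    rw [hG.path.symm]
    exact hd.trans hr


/-- one of `f`, `f⁻¹` has a large signed length on a pair joined by a relator -/
theorem dg_green (hG : HypG d δ) {H : Hubs d X C} (hF : Fam H F Δ Tm)
    (hgr : ∀ k ∈ Subgroup.closure F, k ≠ 1 → ∀ x, ∃ f ∈ F, H.T f - 20 * Δ ≤ |H.Φ f x (k * x)|)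
    {k e e' : G} (hk : k ∈ Subgroup.closure F) (hk1 : k ≠ 1) (he : e = k * e') :
    ∃ f ∈ F, H.T f - 20 * Δ - C ≤ H.Φ f e e' := by
  have _ := hG
  have hC0 : (0 : ℝ) ≤ C := Nat.cast_nonneg C
  obtain ⟨f, hf, h1⟩ := hgr k hk hk1 e'
  rw [← he, hl_symm H (hF.sub hf) e e', abs_neg] at h1
  rcases abs_cases (H.Φ f e e') with ⟨h2, -⟩ | ⟨h2, -⟩
  · exact ⟨f, hf, by linarith⟩
  · refine ⟨f⁻¹, hF.inv f hf, ?_⟩
    have h3 := H.neg f (hF.sub hf) e e'
    rw [abs_le] at h3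
    rw [H.Tinv f (hF.sub hf)]
    linarith [h3.1]

theorem stDig (hC : StC) : StDig := by
  intro G _ d δ C Δ R X F H b b' c lam Tm hG hF hc hb hb' hbb hl0 hlT N N' γ γ' hγ hγ' h00
    hNN hti hti'
  obtain ⟨k1, k2, k3, k4⟩ := dg_cst hc
  have hc0 := hc.hc
  have hcT := hc.hcT
  have hδC := hc.hC
  have hgr := hC G d δ C Δ X F H Tm hG hδC hF (by linarith)
  obtain ⟨k0, hk0, hk0'⟩ := hNN
  set g : ℝ := lam + 2 * c + 22 * Δ with hg
  have hg0 : 0 ≤ g := by rw [hg]; linarith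
  suffices key : ∀ n : ℕ, ∀ (i j : ℕ) (u : G), N - i = n → i ≤ N → j ≤ N' →
      u ∈ Subgroup.closure F → ((i = 0 ∧ j = 0 ∧ u = 1) ∨ ∃ f ∈ F,
        Nh d (5 * C) (H.Z f) (γ i) ∧ Nh d (5 * C) (H.Z f) (u * γ' j) ∧
        |H.Φ f (γ i) (γ N)| ≤ 6 * C ∧ |H.Φ f (u * γ' j) (u * γ' N')| ≤ 6 * C ∧
        |H.Φ f (γ i) (u * γ' j)| ≤ g) →
      DC H F R b b' (lam + c + 24 * Δ) (lam + 2 * c + 25 * Δ) γ γ' N N' i j u from
    key N 0 0 1 (by omega) (Nat.zero_le _) (Nat.zero_le _) (Subgroup.one_mem _)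
      (Or.inl ⟨rfl, rfl, rfl⟩)
  intro n
  induction n using Nat.strong_induction_on with
  | _ n ih =>
    intro i j u hn hi hj hu hlink
    have hlk : DgLink H F g (γ i) (u * γ' j) := by
      rcases hlink with ⟨rfl, rfl, rfl⟩ | ⟨f, hf, h1, h2, -, -, h3⟩
      · left; rw [one_mul]; exact h00
      · exact Or.inr ⟨f, hf, h1, h2, h3⟩
    have hke : u * γ' N' = (u * k0⁻¹) * γ N := by rw [hk0']; group
    have hkK : u * k0⁻¹ ∈ Subgroup.closure F :=
      (Subgroup.closure F).mul_mem hu ((Subgroup.closure F).inv_mem hk0)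
    by_cases hk1 : u * k0⁻¹ = 1
    · -- the end
      rw [hk1, one_mul] at hke
      refine DC.fin i j u hi hj hu hke.symm ?_
      refine dg_cl hG hF hc hg0 hγ hγ' hi le_rfl hj le_rfl hlk ?_ (by rw [hg]; linarith)
      rw [hke, hb_self hG]
      exact Nat.zero_le _
    · obtain ⟨f, hf, hfl⟩ := dg_green hG hF hgr hkK hk1 hke
      have hfX := hF.sub hf
      have hTf := hF.big f hf
      -- (1) `f` is not the hub of the link
      have hne : ∀ f0 ∈ F, |H.Φ f0 (γ i) (γ N)| ≤ 6 * C →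
          |H.Φ f0 (u * γ' j) (u * γ' N')| ≤ 6 * C → |H.Φ f0 (γ i) (u * γ' j)| ≤ g →
          f0 ≠ f ∧ f0 ≠ f⁻¹ := by
        intro f0 hf0 h1 h2 h3
        have h0X := hF.sub hf0
        have c1 := H.coc f0 h0X (u * γ' N') (u * γ' j) (γ N)
        have c2 := H.coc f0 h0X (u * γ' j) (γ i) (γ N)
        have s1 := hl_symm H h0X (u * γ' j) (u * γ' N')
        have s2 := hl_symm H h0X (γ i) (u * γ' j)
        rw [abs_le] at h1 h2 h3
        have hup : |H.Φ f0 (u * γ' N') (γ N)| ≤ g + 12 * C := by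
          rw [abs_le]
          constructor <;> linarith [h1.1, h1.2, h2.1, h2.2, h3.1, h3.2]
        rw [abs_le] at hup
        constructor
        · rintro rfl
          linarith [hup.2]
        · intro h4
          have h5 := H.neg f hfX (u * γ' N') (γ N)
          rw [← h4, abs_le] at h5
          linarith [h5.2, hup.1]
      -- (2)
      have hD : |H.Φ f (u * γ' j) (γ i)| ≤ Δ + 10 * C := by
        rcases hlink with ⟨rfl, rfl, rfl⟩ | ⟨f0, hf0, h1, h2, h3, h4, h5⟩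
        · rw [one_mul, h00, hl_refl H hfX, abs_zero]
          linarith
        · obtain ⟨n1, n2⟩ := hne f0 hf0 h3 h4 h5
          have h6 := hl_sep hG hF hf hf0 n1 n2 h2 h1
          push_cast at h6
          linarith
      -- (3)
      have hbf := hb.ge f hf
      have hbadd := hb.add f hf
      have hbadd' := hb'.add f hf
      have hbf' := hb'.ge f hf
      have hfi := hF.inv f hf
      have hfiX := hF.sub hfi
      have hTi := H.Tinv f hfX
      have hbfi := hb.ge _ hfi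
      have hbfi' := hb'.ge _ hfi
      rw [hTi] at hbfi hbfi'
      have hlf := hbb f hf
      have hlfi := hbb _ hfi
      rw [abs_le] at hlf hlfi
      have hA : H.Φ f (γ i) (γ N) ≤ b f + c + 6 * C := by
        have h1 := hl_sub hG H hδC hfX hγ hi le_rfl
        have h2 := hti f hf
        have h3 : max (H.Φ f (γ 0) (γ N)) 0 ≤ b f + c := max_le h2 (by linarith)
        linarith
      have hB : -H.Φ f (u * γ' j) (u * γ' N') ≤ b' f⁻¹ + c + 8 * C := by
        have h1 := hl_sub hG H hδC hfiX (hb_smul hG hγ' u) hj le_rfl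
        have hcj : u⁻¹ * f⁻¹ * u ∈ F := by
          have := hF.conj f⁻¹ hfi u⁻¹
          rwa [inv_inv] at this
        have h2 := hti' _ hcj
        have h3 := hb'.conj f⁻¹ hfi u⁻¹
        rw [inv_inv] at h3
        rw [h3] at h2
        have h4 := H.equi _ (hF.sub hcj) u (γ' 0) (γ' N')
        have e1 : u * (u⁻¹ * f⁻¹ * u) * u⁻¹ = f⁻¹ := by group
        rw [e1, abs_le] at h4
        have h5 : max (H.Φ f⁻¹ (u * γ' 0) (u * γ' N')) 0 ≤ b' f⁻¹ + c + C :=
          max_le (by linarith [h4.2]) (by linarith)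
        have h6 := H.neg f hfX (u * γ' j) (u * γ' N')
        rw [abs_le] at h6
        linarith [h6.1]
      have hcA := H.coc f hfX (u * γ' N') (u * γ' j) (γ N)
      have hcB := H.coc f hfX (u * γ' j) (γ i) (γ N)
      have hsB := hl_symm H hfX (u * γ' j) (u * γ' N')
      rw [abs_le] at hD
      have hA2 : b f - lam - c - 21 * Δ - 19 * C ≤ H.Φ f (γ i) (γ N) := by
        linarith [hD.2, hlf.2]
      have hB2 : b' f⁻¹ - lam - c - 21 * Δ - 17 * C ≤ -H.Φ f (u * γ' j) (u * γ' N') := by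
        linarith [hD.2, hlfi.1]
      have hup : H.Φ f (u * γ' N') (γ N) ≤ H.T f + lam + 2 * c + Δ + 24 * C := by
        linarith [hD.2, hlf.2]
      -- (4)
      obtain ⟨i1, i2, a1, a2, a3, a4, a5, a6, a7, a8, -, -, -, -⟩ := hl_ee hG H hδC hfX hγ hi
        le_rfl (by
          have : H.Φ f (γ i) (γ N) ≤ |H.Φ f (γ i) (γ N)| := le_abs_self _
          linarith)
      obtain ⟨j1, j2, b1, b2, b3, b4, b5, b6, b7, b8, -, -, -, -⟩ := hl_ee hG H hδC hfX
        (hb_smul hG hγ' u) hj le_rfl (by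
          have : -H.Φ f (u * γ' j) (u * γ' N') ≤ |H.Φ f (u * γ' j) (u * γ' N')| :=
            neg_le_abs _
          linarith)
      have hcc1 := H.coc f hfX (γ i) (γ i1) (γ N)
      have hcc2 := H.coc f hfX (γ i1) (γ i2) (γ N)
      have hcd1 := H.coc f hfX (u * γ' j) (u * γ' j1) (u * γ' N')
      have hcd2 := H.coc f hfX (u * γ' j1) (u * γ' j2) (u * γ' N')
      have a6' := abs_le.1 a6
      have a7' := abs_le.1 a7
      have b6' := abs_le.1 b6
      have b7' := abs_le.1 b7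
      have hmem : ∀ x, Nh d (5 * C) (H.Z f) x → Nh d (5 * C) (H.Z f) (f * x) := by
        rintro x ⟨z, hz, h1⟩
        refine ⟨f * z, ?_, ?_⟩
        · have := (hl_Zpow H hfX z 1).2 hz
          rwa [zpow_one] at this
        · rw [hG.inv]; exact h1
      refine DC.hub i j u i1 i2 j1 j2 f hf hu a1 a2 a3 b1 b2 b3 ?_ a8 b8 ?_ ?_ ?_
      · -- closeness
        refine dg_cl hG hF hc hg0 hγ hγ' a1 (by omega) b1 (by omega) hlk ?_
          (by rw [hg]; linarith)
        have h1 := hl_onpr H hfX (u * γ' j) (γ i)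
        have h2 : |H.Φ f (u * γ' j) (γ i)| ≤ Δ + 10 * C := abs_le.2 hD
        have h3 : (d (H.pr f (u * γ' j)) (H.pr f (γ i)) : ℝ) ≤ Δ + 13 * C := by linarith
        have h4 : d (H.pr f (u * γ' j)) (H.pr f (γ i)) ≤ Δ + 13 * C := by exact_mod_cast h3
        have h5 := hG.path.tri (γ i1) (H.pr f (γ i)) (u * γ' j1)
        have h6 := hG.path.tri (H.pr f (γ i)) (H.pr f (u * γ' j)) (u * γ' j1)
        have h7 := hG.path.symm (H.pr f (γ i)) (H.pr f (u * γ' j))
        have h8 := hG.path.symm (H.pr f (u * γ' j)) (u * γ' j1)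
        omega
      · linarith [a6'.2, a7'.2]
      · linarith [b6'.1, b7'.1]
      · -- the new state
        have hfu : f * u * γ' j2 = f * (u * γ' j2) := mul_assoc _ _ _
        have hfu' : f * u * γ' N' = f * (u * γ' N') := mul_assoc _ _ _
        refine ih (N - i2) (by omega) i2 j2 (f * u) rfl a3 b3
          ((Subgroup.closure F).mul_mem (Subgroup.subset_closure hf) hu)
          (Or.inr ⟨f, hf, ⟨_, H.pr_mem f hfX _, a5⟩, ?_, a7, ?_, ?_⟩)
        · rw [hfu]
          exact hmem _ ⟨_, H.pr_mem f hfX _, b5⟩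
        · have h1 := hl_inv H hfX (u * γ' j2) (u * γ' N') 1
          rw [zpow_one] at h1
          rw [hfu, hfu', h1]
          exact b7
        · rw [hfu]
          have s1 := H.shift f hfX (u * γ' j2)
          have s2 := H.coc f hfX (γ i2) (u * γ' j2) (f * (u * γ' j2))
          have s3 := H.coc f hfX (γ i2) (γ N) (u * γ' j2)
          have s4 := H.coc f hfX (γ N) (u * γ' N') (u * γ' j2)
          have s5 := hl_symm H hfX (u * γ' j2) (u * γ' N')
          have s6 := hl_symm H hfX (u * γ' N') (γ N)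
          rw [abs_le, hg]
          constructor <;> linarith [a7'.1, a7'.2, b7'.1, b7'.2]

end Pool.Agent.Helper74.TB
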