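import Pool.Agent.Helper74.TB.F0

/-! MP_7d16da_al: Part F2, classification of the elements of the quotient. -/

set_option autoImplicit false

namespace Pool.Agent.Helper74.TB

open Pool.Agent.Helper74.MH

/-- if all pairs `x, g x` on the axis are tight then so are the pairs `x, g ^ m x` -/
theorem tight_pow_F {G : Type} [Group G] {d : G → G → ℕ} {δ C Δ n q A L Ax L1 : ℕ} {F : Set G}
    {H : Hubs d (Lx d (100 * C)) C} {Tm : ℝ} (hF0 : StF0) (hS : Stage d δ n q A L)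
    (hA : Alg H n q L Ax) (hR : Rels H F n L1 Δ Tm) (hC : 100 * δ ≤ C) (hodd : Odd n)
    (hn : 3 ≤ n) {g : G} (hg : g ∈ Lx d (100 * C)) (hgf : ∀ f ∈ F, ¬ Commute g f)
    (ht : ∀ x ∈ H.Z g, Tight H F (fun f => H.T f / 2) (10 * C) x (g * x)) {x : G}
    (hx : x ∈ H.Z g) (m : ℕ) : Tight H F (fun f => H.T f / 2) (3 * Δ) x (g ^ m * x) := by
  have hG : HypG d δ := hS.toHypG
  have hF : Fam H F Δ Tm := hR.toFam
  have hC1 : 1 ≤ C := hF.hC1
  have hCr : (1 : ℝ) ≤ C := by exact_mod_cast hC1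
  have hΔr : 1000 * (C : ℝ) ≤ Δ := by exact_mod_cast hF.hC
  have hTg := hl_Tpos H hg
  intro f hf
  have hfX := hF.sub hf
  have hTf := hl_Tpos H hfX
  by_contra hcon
  push Not at hcon
  set y := g ^ m * x with hy
  have hyZ : y ∈ H.Z g := by
    have := (hl_Zpow H hg x (m : ℤ)).2 hx
    rwa [zpow_natCast] at this
  have hb0 := hF0 G d δ C Δ n q A L Ax L1 F H Tm hS hA hR hC hodd hn g hg f hf (hgf f hf) x hx
    y hyZ
  have hΦg : H.Φ g x y = m * H.T g := by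
    have := hl_zpow H hg x (m : ℤ)
    rwa [zpow_natCast] at this
  have hm : 1 ≤ m := by
    rcases Nat.eq_zero_or_pos m with h | h
    · exfalso
      rw [hy, h, pow_zero, one_mul, hl_refl H hfX] at hcon
      linarith
    · exact h
  have hmr : (1 : ℝ) ≤ m := by exact_mod_cast hm
  obtain ⟨γ, hγ0, hγ1, hγ⟩ := exists_geo hG.path x y
  set N := d x y with hN
  have h0Z : γ 0 ∈ H.Z g := by rw [hγ0]; exact hx
  have hNZ : γ N ∈ H.Z g := by rw [hγ1]; exact hyZ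
  have hpos : 0 ≤ H.Φ g (γ 0) (γ N) := by
    rw [hγ0, hγ1, hΦg]
    positivity
  set s : ℕ := ⌊H.T g⌋₊ with hs
  have hs1 : (s : ℝ) ≤ H.T g := Nat.floor_le hTg
  have hs2 : H.T g < s + 1 := Nat.lt_floor_add_one _
  have hsN : s ≤ N := by
    have h1 := (le_abs_self _).trans (H.lip g hg x y)
    rw [hΦg] at h1
    have h2 : (s : ℝ) ≤ N := by
      rw [hN]
      nlinarith
    exact_mod_cast h2
  have hP := le_abs_self (H.Φ f x y)
  obtain ⟨i1, i2, -, h12, h2N, -, -, h3, h4, h5, -⟩ := hl_ee hG H hC hfX hγ (Nat.zero_le N) le_rfl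
    (by rw [hγ0, hγ1]; linarith)
  have c1 := H.coc f hfX (γ 0) (γ i1) (γ N)
  have c2 := H.coc f hfX (γ i1) (γ i2) (γ N)
  rw [hγ0, hγ1] at c1
  rw [hγ0] at h3
  rw [hγ1] at h4 c2
  have a3 := abs_le.1 h3
  have a4 := abs_le.1 h4
  have ab := abs_le.1 hb0
  have hQ : H.T f / 2 + 3 * Δ - 12 * C < H.Φ f (γ i1) (γ i2) := by linarith [a3.2, a4.2]
  have hQ' : |H.Φ f (γ i1) (γ i2)| ≤ H.T g + Δ + 512 * C := by
    rw [abs_of_nonneg (by linarith)]
    linarith [a3.1, a4.1, ab.2]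
  have hlen : d (γ i1) (γ i2) + i1 = i2 := hγ i1 i2 h12.le h2N
  have hlenr : (d (γ i1) (γ i2) : ℝ) + i1 = i2 := by exact_mod_cast hlen
  have hnear := hl_near hG H hfX (h5 i1 le_rfl h12.le) (h5 i2 h12.le le_rfl)
  push_cast at hnear
  have hlow : ∃ t0, t0 + s ≤ N ∧ H.T f / 2 + 2 * Δ - 554 * C ≤ H.Φ f (γ t0) (γ (t0 + s)) := by
    rcases le_or_gt (i1 + s) N with h | h
    · refine ⟨i1, h, ?_⟩
      rcases le_or_gt (i1 + s) i2 with h' | h'
      · have e1 := H.coc f hfX (γ i1) (γ (i1 + s)) (γ i2)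
        have e2 := (abs_le.1 (H.lip f hfX (γ (i1 + s)) (γ i2))).2
        have e3 : d (γ (i1 + s)) (γ i2) + (i1 + s) = i2 := hγ _ _ h' h2N
        have e4 : (d (γ (i1 + s)) (γ i2) : ℝ) + (i1 + s) = i2 := by exact_mod_cast e3
        linarith
      · have e1 := H.coc f hfX (γ i1) (γ i2) (γ (i1 + s))
        have e2 := hl_mono hG H hC hfX (hb_btw hG hγ h12.le h'.le h) (by linarith)
        linarith
    · refine ⟨N - s, by omega, ?_⟩
      have e0 : N - s + s = N := by omega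
      rw [e0, hγ1]
      have e1 := H.coc f hfX (γ (N - s)) (γ i1) y
      have e2 := hl_mono' hG H hC hfX (hb_btw hG hγ (i := N - s) (by omega) h12.le h2N)
        (by linarith)
      linarith [a4.1]
  obtain ⟨t0, ht0, hlow⟩ := hlow
  obtain ⟨x', hx', hdx'⟩ := ax_near hG H hg hγ h0Z hNZ (t := t0) (by omega)
  have k1 := ax_shift hG H hC1 hg hγ h0Z hNZ hpos hs1 hs2 (t := t0) ht0
  have k2 := hG.path.tri (γ (t0 + s)) (g * γ t0) (g * x')
  rw [hG.inv, hG.path.symm (γ (t0 + s)) (g * γ t0)] at k2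
  have k3 : d (γ (t0 + s)) (g * x') ≤ 8 * C := by omega
  have k4 := hl_lip2 hG H hfX (γ t0) (γ (t0 + s)) x' (g * x')
  have k5 := ht x' hx' f hf
  have k6 : (d (γ t0) x' : ℝ) ≤ C := by exact_mod_cast hdx'
  have k7 : (d (γ (t0 + s)) (g * x') : ℝ) ≤ 8 * C := by exact_mod_cast k3
  have k8 := (abs_le.1 k4).2
  linarith

theorem stF (hF0 : StF0) (hTL : StTL) : StF := by
  obtain ⟨M1, hM1⟩ := hTL
  refine ⟨M1, ?_⟩
  intro G G' _ _ d d' δ C Δ R n q A L Ax L1 F H Tm π hS hA hR hK hQ a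
  classical
  have hG : HypG d δ := hS.toHypG
  have hF : Fam H F Δ Tm := hR.toFam
  have hcst := hK.cst
  have hC := hcst.hC
  have hRΔ := hcst.hR
  have hc := hcst.hc
  have hT := hcst.hT
  have hcT := hcst.hcT
  have hC1 : 1 ≤ C := hF.hC1
  have hCr : (1 : ℝ) ≤ C := by exact_mod_cast hC1
  have hL := hK.hL
  have hL1 := hK.hL1
  have hΔ := hK.hΔ
  have hL1r : 1000 * (C : ℝ) ≤ L1 := by exact_mod_cast hL.trans hL1
  have hΔr : 300 * (L1 : ℝ) ≤ Δ := by exact_mod_cast hΔ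
  have hex : ∃ l : ℕ, ∃ g x, π g = a ∧ d x (g * x) = l := by
    obtain ⟨g, hg⟩ := hQ.surj a
    exact ⟨_, g, 1, hg, rfl⟩
  set l := Nat.find hex with hl
  obtain ⟨g, x0, hga, hx0⟩ := Nat.find_spec hex
  rw [← hl] at hx0
  have hmin : ∀ h z, π h = a → l ≤ d z (h * z) := fun h z hh =>
    Nat.find_min' hex ⟨h, z, hh, rfl⟩
  by_cases hle : l ≤ L1
  · by_cases htor : g ^ n = 1
    · exact Or.inl ⟨g, htor, hga⟩
    · obtain ⟨f, hf, hcomm⟩ := hR.short g htor ⟨x0, by omega⟩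
      exact Or.inr (Or.inl ⟨f, hf, g, hcomm, hga⟩)
  push Not at hle
  by_cases hcm : ∃ f ∈ F, Commute g f
  · obtain ⟨f, hf, hcomm⟩ := hcm
    exact Or.inr (Or.inl ⟨f, hf, g, hcomm, hga⟩)
  push Not at hcm
  right; right
  have hg : g ∈ Lx d (100 * C) := by
    intro z
    have := hmin g z hga
    omega
  have hTl : H.T g ≤ l := by
    have := hl_disp H hg x0
    rwa [hx0] at this
  have hlT : (l : ℝ) ≤ H.T g + C := by
    have h1 := hl_disp' H hg (H.pr_mem g hg 1)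
    have h2 : (l : ℝ) ≤ d (H.pr g 1) (g * H.pr g 1) := by exact_mod_cast hmin g _ hga
    linarith
  have hlr : (L1 : ℝ) + 1 ≤ l := by exact_mod_cast hle
  have ht : ∀ x ∈ H.Z g, Tight H F (fun f => H.T f / 2) (10 * C) x (g * x) := by
    intro x hx
    refine hl_min hG hF (by linarith) ?_
    intro k hk
    have h1 := hl_disp' H hg hx
    have h2 : π (k * g) = a := by
      rw [map_mul, (hQ.ker k).2 hk, one_mul, hga]
    have h3 := hmin (k * g) x h2
    rw [mul_assoc] at h3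
    have h4 : (l : ℝ) ≤ d x (k * (g * x)) := by exact_mod_cast h3
    have h5 : (d x (g * x) : ℝ) ≤ d x (k * (g * x)) + 10 * C := by linarith
    exact_mod_cast h5
  intro a0 m
  have h1 := hM1 G G' d d' δ C Δ R n q A L Ax L1 F H (3 * Δ) Tm π hS hA hR hK hQ (by positivity)
    (by linarith) g hg hcm L1 (by omega) (by linarith)
    (fun x hx m => tight_pow_F hF0 hS hA hR hC hK.odd hK.hn hg hcm ht hx m) a0 m
  rw [hga] at h1
  have h2 : 10 * R * M1 * d' a0 (a ^ m * a0) ≤ q * L1 * d' a0 (a ^ m * a0) :=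
    Nat.mul_le_mul_right _ hK.hq
  have h3 : L1 * m ≤ L1 * (q * d' a0 (a ^ m * a0)) := by
    calc L1 * m ≤ _ := h1.trans h2
      _ = _ := by ring
  exact Nat.le_of_mul_le_mul_left h3 (by omega)

end Pool.Agent.Helper74.TB
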