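import Pool.Agent.Helper74.TB.StX

/-! MP_7d16da_al: Part F0, overlap of an axis with a hub. -/

set_option autoImplicit false

namespace Pool.Agent.Helper74.TB

open Pool.Agent.Helper74.MH

section
variable {G : Type*} [Group G] {d : G → G → ℕ} {δ C Δ : ℕ} {X F : Set G} {Tm : ℝ}

/-- points of a geodesic with ends on the axis are near the axis -/
theorem ax_near (hG : HypG d δ) (H : Hubs d X C) {g : G} (hg : g ∈ X) {N : ℕ} {γ : ℕ → G}
    (hγ : IsGeo d N γ) (h0 : γ 0 ∈ H.Z g) (hN : γ N ∈ H.Z g) {t : ℕ} (ht : t ≤ N) :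
    ∃ w ∈ H.Z g, d (γ t) w ≤ C :=
  H.qc g hg _ h0 _ hN _ (hb_btw hG hγ (Nat.zero_le t) ht le_rfl)

/-- a geodesic with ends on the axis of `g` in the positive direction: `Φ_g` is the length up to
`C` -/
theorem ax_len (_hG : HypG d δ) (H : Hubs d X C) {g : G} (hg : g ∈ X) {N : ℕ} {γ : ℕ → G}
    (hγ : IsGeo d N γ) (h0 : γ 0 ∈ H.Z g) (hN : γ N ∈ H.Z g) (hpos : 0 ≤ H.Φ g (γ 0) (γ N))
    {s t : ℕ} (hst : s ≤ t) (ht : t ≤ N) : (t : ℝ) - s - C ≤ H.Φ g (γ s) (γ t) := by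
  have h1 := H.on g hg _ h0 _ hN
  rw [abs_of_nonneg hpos] at h1
  have h2 : d (γ 0) (γ N) = N := by
    have := hγ 0 N (Nat.zero_le _) le_rfl
    omega
  have h3 := H.lip g hg (γ 0) (γ s)
  have h4 := H.lip g hg (γ t) (γ N)
  have h5 : d (γ 0) (γ s) = s := by
    have := hγ 0 s (Nat.zero_le _) (by omega)
    omega
  have h6 : d (γ t) (γ N) + t = N := hγ t N ht le_rfl
  have h6' : (d (γ t) (γ N) : ℝ) + t = N := by exact_mod_cast h6
  rw [h2] at h1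
  rw [h5] at h3
  have h7 := H.coc g hg (γ 0) (γ s) (γ N)
  have h8 := H.coc g hg (γ s) (γ t) (γ N)
  have h9 := (abs_le.1 h3).2
  have h10 := (abs_le.1 h4).2
  linarith

/-- `g` moves the points of such a geodesic along the geodesic -/
theorem ax_shift (hG : HypG d δ) (H : Hubs d X C) (hC : 1 ≤ C) {g : G} (hg : g ∈ X) {N : ℕ}
    {γ : ℕ → G} (hγ : IsGeo d N γ) (h0 : γ 0 ∈ H.Z g) (hN : γ N ∈ H.Z g)
    (hpos : 0 ≤ H.Φ g (γ 0) (γ N)) {t s : ℕ} (hs : (s : ℝ) ≤ H.T g) (hs' : H.T g < s + 1)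
    (hts : t + s ≤ N) : d (g * γ t) (γ (t + s)) ≤ 7 * C := by
  have hC1 : (1 : ℝ) ≤ C := by exact_mod_cast hC
  obtain ⟨w, hw, hdw⟩ := ax_near hG H hg hγ h0 hN (t := t) (by omega)
  obtain ⟨w', hw', hdw'⟩ := ax_near hG H hg hγ h0 hN (t := t + s) hts
  have h1 := ax_len hG H hg hγ h0 hN hpos (s := t) (t := t + s) (by omega) hts
  have h2 := H.lip g hg (γ t) (γ (t + s))
  have h3 : d (γ t) (γ (t + s)) = s := by
    have := hγ t (t + s) (by omega) hts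
    omega
  rw [h3] at h2
  have h4 := H.shift g hg (γ t)
  have h5 := H.coc g hg (g * γ t) (γ t) (γ (t + s))
  have h6 := hl_symm H hg (γ t) (g * γ t)
  have hn1 : Nh d C (H.Z g) (g * γ t) := by
    refine ⟨g * w, ?_, ?_⟩
    · have := (hl_Zpow H hg w 1).2 hw
      rwa [zpow_one] at this
    · rw [hG.inv]; exact hdw
  have hn2 : Nh d C (H.Z g) (γ (t + s)) := ⟨w', hw', hdw'⟩
  have h7 := hl_near hG H hg hn1 hn2
  have h8 : |H.Φ g (g * γ t) (γ (t + s))| ≤ 1 + C := by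
    push_cast at h1
    rw [abs_le]
    constructor <;> linarith [(abs_le.1 h2).2]
  have h9 : (d (g * γ t) (γ (t + s)) : ℝ) ≤ 7 * C := by linarith
  exact_mod_cast h9

/-- powers of elements of `X` are not trivial -/
theorem pow_ne_one_of_X (H : Hubs d X C) (hC : 1 ≤ C) {f : G} (hf : f ∈ X) {n : ℕ} (hn : 1 ≤ n) :
    f ^ n ≠ 1 := by
  intro h
  have h1 := hl_zpow H hf 1 (n : ℤ)
  rw [zpow_natCast, h, one_mul, hl_refl H hf] at h1
  have h2 := H.Tbig f hf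
  have hC1 : (1 : ℝ) ≤ C := by exact_mod_cast hC
  have hn1 : (1 : ℝ) ≤ n := by exact_mod_cast hn
  push_cast at h1
  nlinarith

end

theorem stF0_pos {G : Type} [Group G] {d : G → G → ℕ} {δ C Δ n q A L Ax L1 : ℕ} {F : Set G}
    {H : Hubs d (Lx d (100 * C)) C} {Tm : ℝ} (hS : Stage d δ n q A L) (hA : Alg H n q L Ax)
    (hR : Rels H F n L1 Δ Tm) (hC : 100 * δ ≤ C) (hn : 3 ≤ n) {g : G}
    (hg : g ∈ Lx d (100 * C)) {f : G} (hf : f ∈ F) (hgf : ¬ Commute g f) {x y : G}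
    (hx : x ∈ H.Z g) (hy : y ∈ H.Z g) (hpos : 0 ≤ H.Φ g x y) :
    |H.Φ f x y| ≤ H.T g + Δ + 500 * C := by
  have hG : HypG d δ := hS.toHypG
  have hF : Fam H F Δ Tm := hR.toFam
  have hC1 : 1 ≤ C := hF.hC1
  have hCr : (1 : ℝ) ≤ C := by exact_mod_cast hC1
  have hfX := hF.sub hf
  have hTg := hl_Tpos H hg
  by_contra hcon
  push Not at hcon
  obtain ⟨γ, hγ0, hγ1, hγ⟩ := exists_geo hG.path x y
  set N := d x y with hN
  have hΔ0 : (0 : ℝ) ≤ Δ := Nat.cast_nonneg _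
  obtain ⟨i1, i2, -, h12, h2N, -, -, h3, h4, h5, -⟩ := hl_ee hG H hC hfX hγ (Nat.zero_le N) le_rfl
    (by rw [hγ0, hγ1]; linarith)
  set s : ℕ := ⌊H.T g⌋₊ with hs
  have hs1 : (s : ℝ) ≤ H.T g := Nat.floor_le hTg
  have hs2 : H.T g < s + 1 := Nat.lt_floor_add_one _
  have c1 := H.coc f hfX (γ 0) (γ i1) (γ N)
  have c2 := H.coc f hfX (γ i1) (γ i2) (γ N)
  rw [hγ0, hγ1] at c1
  rw [hγ0] at h3
  rw [hγ1] at h4 c2
  -- the long piece
  have hbig : H.T g + Δ + 488 * C < |H.Φ f (γ i1) (γ i2)| := by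
    have e1 : H.Φ f x y = H.Φ f x (γ i1) + H.Φ f (γ i1) (γ i2) + H.Φ f (γ i2) y := by linarith
    have e2 : |H.Φ f x y| ≤ |H.Φ f x (γ i1)| + |H.Φ f (γ i1) (γ i2)| + |H.Φ f (γ i2) y| := by
      rw [e1]; exact abs_add_three _ _ _
    linarith
  have hlen : d (γ i1) (γ i2) + i1 = i2 := hγ i1 i2 h12.le h2N
  have hlip := H.lip f hfX (γ i1) (γ i2)
  have hlenr : (d (γ i1) (γ i2) : ℝ) + i1 = i2 := by exact_mod_cast hlen
  have hsi : i1 + s ≤ i2 := by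
    have : (i1 : ℝ) + s ≤ i2 := by linarith
    exact_mod_cast this
  have h0Z : γ 0 ∈ H.Z g := by rw [hγ0]; exact hx
  have hNZ : γ N ∈ H.Z g := by rw [hγ1]; exact hy
  have hpos' : 0 ≤ H.Φ g (γ 0) (γ N) := by rw [hγ0, hγ1]; exact hpos
  have k1 := ax_shift hG H hC1 hg hγ h0Z hNZ hpos' hs1 hs2 (t := i1) (by omega)
  have k2 := ax_shift hG H hC1 hg hγ h0Z hNZ hpos' hs1 hs2 (t := i2 - s) (by omega)
  have e3 : i2 - s + s = i2 := by omega
  rw [e3] at k2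
  -- conjugate hub
  have hconj : g * f * g⁻¹ = f ∨ g * f * g⁻¹ = f⁻¹ := by
    by_contra hne
    push Not at hne
    have n1 : Nh d (7 * C) (H.Z (g * f * g⁻¹)) (g * γ i1) := by
      obtain ⟨z, hz, hdz⟩ := h5 i1 le_rfl h12.le
      exact ⟨g * z, (H.Zconj f hfX g z).2 hz, by rw [hG.inv]; exact hdz⟩
    have n2 : Nh d (7 * C) (H.Z (g * f * g⁻¹)) (g * γ (i2 - s)) := by
      obtain ⟨z, hz, hdz⟩ := h5 (i2 - s) (by omega) (by omega)
      exact ⟨g * z, (H.Zconj f hfX g z).2 hz, by rw [hG.inv]; exact hdz⟩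
    have m1 := hl_sep hG hF hf (hF.conj f hf g) hne.1 hne.2 n1 n2
    have m2 := hl_lip2 hG H hfX (g * γ i1) (g * γ (i2 - s)) (γ (i1 + s)) (γ i2)
    have k1' : (d (g * γ i1) (γ (i1 + s)) : ℝ) ≤ 7 * C := by exact_mod_cast k1
    have k2' : (d (g * γ (i2 - s)) (γ i2) : ℝ) ≤ 7 * C := by exact_mod_cast k2
    have m3 := H.coc f hfX (γ i1) (γ (i1 + s)) (γ i2)
    have m4 := H.lip f hfX (γ i1) (γ (i1 + s))
    have m5 : d (γ i1) (γ (i1 + s)) = s := by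
      have := hγ i1 (i1 + s) (by omega) (by omega)
      omega
    rw [m5] at m4
    have m6 : |H.Φ f (γ i1) (γ i2)| ≤ |H.Φ f (γ i1) (γ (i1 + s))| + |H.Φ f (γ (i1 + s)) (γ i2)| := by
      rw [← m3]; exact abs_add_le _ _
    have m7 := abs_sub_abs_le_abs_sub (H.Φ f (γ (i1 + s)) (γ i2))
      (H.Φ f (g * γ i1) (g * γ (i2 - s)))
    rw [abs_sub_comm] at m2
    push_cast at m1
    linarith
  apply hgf
  rcases hconj with h | h
  · show g * f = f * g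
    rw [mul_inv_eq_iff_eq_mul] at h
    exact h
  · refine hA.ninv f g 1 (-1) (pow_ne_one_of_X H hC1 hfX (by omega)) one_ne_zero ?_
    rw [zpow_one, zpow_neg_one]
    exact h

theorem stF0 : StF0 := by
  intro G _ d δ C Δ n q A L Ax L1 F H Tm hS hA hR hC _ hn g hg f hf hgf x hx y hy
  rcases le_total 0 (H.Φ g x y) with h | h
  · exact stF0_pos hS hA hR hC hn hg hf hgf hx hy h
  · have h1 := stF0_pos hS hA hR hC hn hg hf hgf hy hx (by rw [hl_symm H hg]; linarith)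
    rw [hl_symm H (hR.toFam.sub hf), abs_neg] at h1
    exact h1

end Pool.Agent.Helper74.TB
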