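import Pool.Agent.Helper74.TB.G6

/-! MP_7d16da_al, Part G, section G7: the theorem `stG`. -/

set_option autoImplicit false

namespace Pool.Agent.Helper74.TB

open Pool.Agent.Helper74.MH

theorem t_grow {t : ℕ → ℕ} {W : ℕ} (ht2 : ∀ j < 2000, t j < t (j + 1))
    (hW : ∀ i, 1 ≤ i → i ≤ 998 → W ≤ t (2 * i + 2) - t (2 * i)) :
    ∀ k i, 1 ≤ i → i + k ≤ 999 → t (2 * i) + k * W ≤ t (2 * (i + k)) := by
  intro k
  induction k with
  | zero => intro i _ _; simp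
  | succ k ih =>
    intro i h1 h2
    have a1 := ih i h1 (by omega)
    have a2 := hW (i + k) (by omega) (by omega)
    have a3 := ht2 (2 * (i + k)) (by omega)
    have a4 := ht2 (2 * (i + k) + 1) (by omega)
    have e1 : 2 * (i + k) + 1 + 1 = 2 * (i + k) + 2 := by ring
    have e2 : 2 * (i + (k + 1)) = 2 * (i + k) + 2 := by ring
    rw [e1] at a4
    rw [e2, add_mul, one_mul]
    omega

section main

variable {G G' : Type} [Group G] [Group G'] {d : G → G → ℕ} {d' : G' → G' → ℕ}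
  {C Δ R A n q L Ax L1 M1 : ℕ} {F : Set G} {Tm : ℝ} {H : Hubs d (Lx d (100 * C)) C}
  {π : G →* G'}

theorem t_sep {t : ℕ → ℕ} {W : ℕ} (ht2 : ∀ j < 2000, t j < t (j + 1))
    (hW : ∀ i, 1 ≤ i → i ≤ 998 → W ≤ t (2 * i + 2) - t (2 * i)) :
    t 0 + 199 * W ≤ t 400 ∧ t 400 + 300 * W ≤ t 1000 ∧ t 1000 + 300 * W ≤ t 1600 ∧
      t 1600 + 199 * W ≤ t 2000 := by
  have g1 := t_grow ht2 hW 199 1 le_rfl (by norm_num)
  have g2 := t_grow ht2 hW 300 200 (by norm_num) (by norm_num)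
  have g3 := t_grow ht2 hW 300 500 (by norm_num) (by norm_num)
  have g4 := t_grow ht2 hW 199 800 (by norm_num) (by norm_num)
  have b1 := ht2 0 (by norm_num)
  have b2 := ht2 1 (by norm_num)
  have b3 := ht2 1998 (by norm_num)
  have b4 := ht2 1999 (by norm_num)
  norm_num at g1 g2 g3 g4 b1 b2 b3 b4
  refine ⟨by omega, by omega, by omega, by omega⟩

omit [Group G] in
theorem comm_main (h2 : Cst2 2000 C Δ R n q L Ax L1 M1 Tm)
    {N W : ℕ} {γ : ℕ → G} {t : ℕ → ℕ} (hγ : IsGeo d N γ)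
    (ht1 : ∀ j ≤ 2000, t j ≤ N) (ht2 : ∀ j < 2000, t j < t (j + 1)) (hRW : R < W)
    (hW : ∀ i, 1 ≤ i → i ≤ 998 → W ≤ t (2 * i + 2) - t (2 * i)) :
    L ≤ W + 72 * 2000 ∧ Ax + 100 * (W + 72 * 2000) ≤ d (γ (t 0)) (γ (t 2000)) := by
  obtain ⟨s1, s2, s3, s4⟩ := t_sep ht2 hW
  have c1 := h2.cst.hC
  have c2 := h2.cst.hΔ
  have c3 := h2.cst.hR
  have c4 := h2.hL1
  have c5 := h2.hAx
  have c6 := h2.hΔ
  have e := hγ (t 0) (t 2000) (by omega) (ht1 _ le_rfl)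
  have q1 : 998 * W ≤ d (γ (t 0)) (γ (t 2000)) := by omega
  have q2 : 144000 ≤ W := by omega
  have q3 : Ax ≤ W := by omega
  constructor
  · omega
  · clear c1 c2 c3 c4 c5 c6 s1 s2 s3 s4 e
    linarith

theorem tors_main (hCC : StC) (hS : Stage d 2000 n q A L) (hA : Alg H n q L Ax)
    (hR : Rels H F n L1 Δ Tm) (h2 : Cst2 2000 C Δ R n q L Ax L1 M1 Tm) (hQ : Quo H F R π d')
    (hninv : ∀ f ∈ F, ∀ g, g * f * g⁻¹ ≠ f⁻¹)
    {N W : ℕ} {γ : ℕ → G} {t : ℕ → ℕ} (hγ : IsGeo d N γ)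
    (hΦ : ∀ f ∈ F, |H.Φ f (γ 0) (γ N)| ≤ H.T f / 2 + Tm / 10 + C)
    (ht1 : ∀ j ≤ 2000, t j ≤ N) (ht2 : ∀ j < 2000, t j < t (j + 1))
    (ht3 : ∀ j < 2000, 2 ≤ d' (π (γ (t j))) (π (γ (t (j + 1))))) (hRW : R < W)
    (hW : ∀ i, 1 ≤ i → i ≤ 998 → W ≤ t (2 * i + 2) - t (2 * i)) {g : G}
    (hga : d (γ (t 0)) (g * γ (t 0)) ≤ W + 72 * 2000)
    (hgb : d (γ (t 2000)) (g * γ (t 2000)) ≤ W + 72 * 2000) (hgn : π g ^ n = 1) : π g = 1 := by
  have hG := hS.toHypG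
  have hF := hR.toFam
  have hδC : 100 * 2000 ≤ C := h2.cst.hC
  have c1 := h2.cst.hC
  have c2 := h2.cst.hΔ
  have c3 := h2.cst.hR
  have c4 := h2.hL1
  have c5 := h2.hAx
  have c6 := h2.hΔ
  have c7 := h2.hL
  obtain ⟨s1, s2, s3, s4⟩ := t_sep ht2 hW
  have q2 : 144000 ≤ W := by omega
  have q3 : Ax ≤ W := by omega
  obtain ⟨k1, k2⟩ := comm_main h2 hγ ht1 ht2 hRW hW
  by_cases hn1 : g ^ n = 1
  · rw [hA.extt g _ _ _ hn1 k1 k2 hga hgb, map_one]
  exfalso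
  -- the power moving every point a lot
  obtain ⟨h, hh⟩ : ∃ h, h = g ^ (100 * C * q + 1) := ⟨_, rfl⟩
  have hcgh : Commute g h := by rw [hh]; exact (Commute.refl g).pow_right _
  have hhX : h ∈ Lx d (100 * C) := by
    intro x
    rcases hS.tor g with h' | h'
    · exact absurd h' hn1
    · have := h' x (100 * C * q + 1)
      rw [← hh] at this
      by_contra hcon
      push Not at hcon
      have h3 : q * d x (h * x) ≤ q * (100 * C) := Nat.mul_le_mul_left q hcon.le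
      have h4 : 100 * C * q = q * (100 * C) := by ring
      omega
  have hnear : ∀ s, t 400 ≤ s → s ≤ t 1600 → Nh d (10 * C) (H.Z h) (γ s) := by
    intro s hs1 hs2
    have hsN := ht1 2000 le_rfl
    have e1 := hγ (t 0) s (by omega) (by omega)
    have e2 := hγ s (t 2000) (by omega) hsN
    have e3 := hγ (t 0) (t 2000) (by omega) hsN
    have q1 : 199 * W ≤ d (γ (t 0)) (γ s) := by clear k2 k1 hga hgb; omega
    have q4 : 199 * W ≤ d (γ s) (γ (t 2000)) := by clear k2 k1 hga hgb; omega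
    have q5 : d (γ (t 0)) (γ s) + d (γ s) (γ (t 2000)) = d (γ (t 0)) (γ (t 2000)) := by
      clear k2 k1 hga hgb; omega
    rw [hh]
    refine hA.win g _ _ (γ s) _ hn1 k1 k2 hga hgb q5 ?_ ?_
    · clear c1 c2 c3 c4 c5 c6 s1 s2 s3 s4 e1 e2 e3
      linarith
    · clear c1 c2 c3 c4 c5 c6 s1 s2 s3 s4 e1 e2 e3
      linarith
  have hC1 := hF.hC1
  have hC1' : (1 : ℝ) ≤ C := by exact_mod_cast hC1
  by_cases hex : ∃ f ∈ F, Commute g f
  · obtain ⟨f, hf, hgf⟩ := hex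
    have hcf : Commute h f := by rw [hh]; exact hgf.pow_left _
    have hnf : ∀ s, t 400 ≤ s → s ≤ t 1600 → Nh d (20 * C) (H.Z f) (γ s) := by
      intro s hs1 hs2
      obtain ⟨z, hz, hd⟩ := hnear s hs1 hs2
      exact nh_trans hG (hl_comm hG H hC1 hhX (hF.sub hf) hcf hz) hd (by omega)
    have a1 := ht2 400 (by norm_num)
    have a2 := t_grow ht2 hW 599 201 (by norm_num) (by norm_num)
    have a3 := ht2 401 (by norm_num)
    norm_num at a1 a2 a3
    have hadj : Adj H F R (γ (t 400)) (γ (t 401)) := Or.inr ⟨f, hf, hnf _ le_rfl (by omega),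
      hnf _ a1.le (by omega)⟩
    have a4 := q_adj hQ hadj
    have a5 := ht3 400 (by norm_num)
    norm_num at a5
    omega
  push Not at hex
  have hgX : g ∈ Lx d (100 * C) := by
    intro x
    by_contra hcon
    push Not at hcon
    obtain ⟨f, hf, hgf⟩ := hR.short g hn1 ⟨x, by omega⟩
    exact hex f hf hgf
  have hnearg : ∀ s, t 400 ≤ s → s ≤ t 1600 → Nh d (12 * C) (H.Z g) (γ s) := by
    intro s hs1 hs2
    obtain ⟨z, hz, hd⟩ := hnear s hs1 hs2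
    exact nh_trans hG (hl_comm hG H hC1 hhX hgX hcgh.symm hz) hd (by omega)
  have hr1 : 1000 * (C : ℝ) ≤ Δ := by exact_mod_cast c2
  have hr2 : 1000 * (Δ : ℝ) ≤ R := by exact_mod_cast c3
  have hr3 := h2.cst.hT
  have hr4 : (R : ℝ) ≤ W := by exact_mod_cast hRW.le
  have hr5 : (100 * 2000 : ℝ) ≤ C := by exact_mod_cast hδC
  have hker : g ^ n ∈ Subgroup.closure F := (hQ.ker _).1 (by rw [map_pow, hgn])
  have hx := H.pr_mem g hgX 1
  obtain ⟨x, hxe⟩ : ∃ x, x = H.pr g 1 := ⟨_, rfl⟩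
  rw [← hxe] at hx
  obtain ⟨f, hf, hfx⟩ := hCC G d 2000 C Δ _ F H Tm hG hδC hF (by linarith) _ hker hn1 x
  have hy : g ^ n * x ∈ H.Z g := by
    have := (hl_Zpow H hgX x (n : ℤ)).2 hx
    rwa [zpow_natCast] at this
  have hTf := hF.big f hf
  have n1 : g * f * g⁻¹ ≠ f := by
    intro h'
    apply hex f hf
    change g * f = f * g
    rw [mul_inv_eq_iff_eq_mul] at h'
    exact h'
  obtain ⟨u', hu', v', hv', hd', hΦ'⟩ := f0_ee hG hδC hF hf hgX n1 (hninv f hf g) hx hy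
    (by linarith)
  have hTg : H.T g ≤ W + 72 * 2000 := by
    have h3 := hl_disp H hgX (γ (t 0))
    have h4 : (d (γ (t 0)) (g * γ (t 0)) : ℝ) ≤ W + 72 * 2000 := by exact_mod_cast hga
    linarith
  have w1 : (300 : ℝ) * W ≤ ((t 1000 - t 400 : ℕ) : ℝ) := by
    exact_mod_cast (by omega : 300 * W ≤ t 1000 - t 400)
  have w2 : (300 : ℝ) * W ≤ ((t 1600 - t 1000 : ℕ) : ℝ) := by
    exact_mod_cast (by omega : 300 * W ≤ t 1600 - t 1000)
  obtain ⟨f', hf', hTf', hfin⟩ := transl hG hδC hF hf hgX hu' hv' hd' hγ (ia := t 400)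
    (i0 := t 1000) (ib := t 1600) (by linarith) (by linarith) (by omega) (by omega)
    (ht1 1600 (by norm_num)) (hnearg _ le_rfl (by omega)) (hnearg _ (by omega) (by omega))
    (hnearg _ (by omega) le_rfl)
  have hΦf := hΦ f' hf'
  rw [hTf'] at hΦf
  linarith

end main

/-- Part G. -/
theorem stG : StF0 → StC → StV → StDig → StCh → StE → StLen → StCount → StG := by
  intro _ hCC hV _ _ hE hLen hCount C L hC hL
  obtain ⟨M1', hM⟩ := hLen
  obtain ⟨N0, hN0⟩ : ∃ N0, N0 = M1' * (10 ^ 6 * L + 1) := ⟨_, rfl⟩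
  refine ⟨100 * (N0 + 1) ^ 2 + M1', ?_⟩
  intro G G' _ _ d d' Δ R n q A Ax L1 M1 F H Tm π hS hA hR h2 hQ hT0
  have hG := hS.toHypG
  have hF := hR.toFam
  have hcst := h2.cst
  have hninv := rel_ninv hA hF (by have := h2.hn; omega : 1 ≤ n)
  have hR0 : (0 : ℝ) ≤ R := Nat.cast_nonneg R
  have hC1 : (1 : ℝ) ≤ C := by exact_mod_cast hF.hC1
  have hr1 : 1000 * (C : ℝ) ≤ Δ := by exact_mod_cast hcst.hΔ
  have hr2 : 1000 * (Δ : ℝ) ≤ R := by exact_mod_cast hcst.hR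
  have hr3 := hcst.hT
  have hsplit : (100 * ((N0 : ℝ) + 1) ^ 2) * R + M1' * R ≤ Tm := by
    push_cast at hT0
    linarith
  have hpos1 : 0 ≤ (100 * ((N0 : ℝ) + 1) ^ 2) * R := by positivity
  have hpos2 : 0 ≤ (M1' : ℝ) * R := by positivity
  have hcount : CountB H F R π d' (10 ^ 6 * L) N0 := by
    rw [hN0]
    exact countB_of hCount hM hG hF hQ (cst_mono hcst (by positivity) (by linarith))
      (by linarith) (by linarith) _
  have key := fun (p p' : G') (hpp : 10 ^ 6 * L ≤ d' p p') =>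
    window_system hCC hV hE hG hF hQ hL hcst hcount (by linarith) hninv hpp
  constructor
  · intro g h p p' hpp g1 g2 h1 h2'
    obtain ⟨N, W, γ, t, hγ, hΦ, ht1, ht2, ht3, hRW, hW, hlift⟩ := key p p' hpp
    obtain ⟨k1, k2⟩ := comm_main h2 hγ ht1 ht2 hRW hW
    obtain ⟨g', hg', ga, gb⟩ := hlift g g1 g2
    obtain ⟨h', hh', ha, hb⟩ := hlift h h1 h2'
    have := hA.ext g' h' _ _ _ k1 k2 ga gb ha hb
    rw [← hg', ← hh']
    exact this.map π
  · intro g p p' hgn hpp g1 g2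
    obtain ⟨N, W, γ, t, hγ, hΦ, ht1, ht2, ht3, hRW, hW, hlift⟩ := key p p' hpp
    obtain ⟨g', hg', ga, gb⟩ := hlift g g1 g2
    rw [← hg']
    exact tors_main hCC hS hA hR h2 hQ hninv hγ hΦ ht1 ht2 ht3 hRW hW ga gb (by rw [hg', hgn])

end Pool.Agent.Helper74.TB
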