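import Pool.Agent.Helper74.TB.J1c

/-! MP_7d16da_al, Part J1: products and commutators of torsion elements with distant centres. -/

set_option autoImplicit false

namespace Pool.Agent.Helper74.TB

open Pool.Agent.Helper74.MH

namespace J1

variable {G : Type*} [Group G] {d : G → G → ℕ} {δ C Δ A n : ℕ} {X F : Set G} {Tm : ℝ}

/-- partial products of a word -/
def wd (a : ℕ → G) : ℕ → G
  | 0 => 1
  | j + 1 => wd a j * a j

theorem wd_per {a : ℕ → G} {per : ℕ} {U : G} (hU : wd a per = U)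
    (ha : ∀ j, a (j + per) = a j) (j : ℕ) : wd a (j + per) = U * wd a j := by
  induction j with
  | zero => rw [Nat.zero_add, hU]; exact (mul_one U).symm
  | succ j ih =>
    have e : j + 1 + per = (j + per) + 1 := by ring
    rw [e]
    change wd a (j + per) * a (j + per) = U * (wd a j * a j)
    rw [ih, ha, mul_assoc]

theorem seg_conj {H : Hubs d X C} (hF : Fam H F Δ Tm) {x y : G} {B : ℝ}
    (hB : ∀ g ∈ F, |H.Φ g x y| ≤ H.T g / 2 + B) {g : G} (hg : g ∈ F) (h : G) :
    |H.Φ g (h * x) (h * y)| ≤ H.T g / 2 + B + C := by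
  have hg' : h⁻¹ * g * (h⁻¹)⁻¹ ∈ F := hF.conj g hg h⁻¹
  have h1 := hB _ hg'
  have h2 := H.equi _ (hF.sub hg') h x y
  have e : h * (h⁻¹ * g * (h⁻¹)⁻¹) * h⁻¹ = g := by group
  rw [e] at h2
  rw [H.Tconj g (hF.sub hg)] at h1
  rw [abs_le] at h1 h2 ⊢
  constructor <;> linarith [h1.1, h1.2, h2.1, h2.2]

theorem seg_symm {H : Hubs d X C} (hF : Fam H F Δ Tm) {x y : G} {B : ℝ}
    (hT : Tight H F (fun f => H.T f / 2) B x y) {g : G} (hg : g ∈ F) :
    |H.Φ g x y| ≤ H.T g / 2 + (B + C) := by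
  have hgX := hF.sub hg
  have h1 := hT g hg
  have h2 := hT g⁻¹ (hF.inv g hg)
  have h3 := H.neg g hgX x y
  simp only [H.Tinv g hgX] at h1 h2
  have hC0 : (0 : ℝ) ≤ C := Nat.cast_nonneg C
  rw [abs_le] at h3 ⊢
  constructor <;> linarith [h3.1, h3.2]

/-- the chain of an alternating word -/
theorem mkCH (hG : HypG d δ) (hC : 100 * δ ≤ C) {H : Hubs d X C} (hF : Fam H F Δ Tm) {L : ℕ}
    (hL : 1000 * C ≤ L)
    (hac : ∀ g p p', g ^ n = 1 → A ≤ d p p' → d p (g * p) ≤ L → d p' (g * p') ≤ L → g = 1)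
    {x y : G} (hD : A + C ≤ d x y) (hT : Tight H F (fun f => H.T f / 2) (10 * C) x y)
    {a c : ℕ → G} (hc : ∀ j, (c j = x ∧ c (j + 1) = y) ∨ (c j = y ∧ c (j + 1) = x))
    (hac' : ∀ j, ∀ m : ℤ, d (c j) (a j ^ m * c j) ≤ C) (han : ∀ j, a j ^ n = 1)
    (ha1 : ∀ j, a j ≠ 1) {per : ℕ} {U : G} (hU : wd a per = U) (hap : ∀ j, a (j + per) = a j)
    (hcp : ∀ j, c (j + per) = c j) (hp2 : 2 ≤ per) (hp4 : per ≤ 4) :
    CH H F A (d x y) n per U (fun j => wd a j * c j)
      (fun j => wd a (j + 1) * a (j + 1) * (wd a (j + 1))⁻¹) := by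
  have hcc : ∀ j, d (c j) (c (j + 1)) = d x y := by
    intro j
    rcases hc j with ⟨h1, h2⟩ | ⟨h1, h2⟩
    · rw [h1, h2]
    · rw [h1, h2]; exact hG.path.symm y x
  have hc2 : ∀ j, c (j + 2) = c j := by
    intro j
    have hxy : x ≠ y := by
      intro h
      have h1 := hb_self hG y
      rw [h] at hD
      have := hF.hC1
      omega
    rcases hc j with ⟨h1, h2⟩ | ⟨h1, h2⟩ <;> rcases hc (j + 1) with ⟨h3, h4⟩ | ⟨h3, h4⟩
    · exact absurd (h3.symm.trans h2) hxy
    · exact h4.trans h1.symm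
    · exact h4.trans h1.symm
    · exact absurd (h2.symm.trans h3) hxy
  have hstep : ∀ j, d (wd a j * c j) (wd a (j + 1) * c (j + 1)) = d (c j) (a j * c (j + 1)) := by
    intro j
    change d (wd a j * c j) (wd a j * a j * c (j + 1)) = _
    rw [mul_assoc, hG.inv]
  have hone : ∀ j, d (c j) (a j * c j) ≤ C := by
    intro j
    have := hac' j 1
    rwa [zpow_one] at this
  have hlo : ∀ j, d x y ≤ d (wd a j * c j) (wd a (j + 1) * c (j + 1)) + C := by
    intro j
    rw [hstep]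
    have h1 := hG.path.tri (a j * c j) (c j) (a j * c (j + 1))
    have h2 := hG.inv (a j) (c j) (c (j + 1))
    have h3 := hG.path.symm (a j * c j) (c j)
    have h4 := hone j
    have h5 := hcc j
    omega
  have hhi : ∀ j, d (wd a j * c j) (wd a (j + 1) * c (j + 1)) ≤ d x y + C := by
    intro j
    rw [hstep]
    have h1 := hG.path.tri (c j) (a j * c j) (a j * c (j + 1))
    have h2 := hG.inv (a j) (c j) (c (j + 1))
    have h4 := hone j
    have h5 := hcc j
    omega
  have hv0 : ∀ j, d (wd a (j + 1) * a (j + 1) * (wd a (j + 1))⁻¹ * (wd a (j + 1) * c (j + 1)))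
      (wd a (j + 1) * c (j + 1)) ≤ C := by
    intro j
    have e : wd a (j + 1) * a (j + 1) * (wd a (j + 1))⁻¹ * (wd a (j + 1) * c (j + 1)) =
      wd a (j + 1) * (a (j + 1) * c (j + 1)) := by group
    rw [e, hG.inv, hG.path.symm]
    exact hone (j + 1)
  have hv1 : ∀ j, d (wd a (j + 1) * a (j + 1) * (wd a (j + 1))⁻¹ * (wd a j * c j))
      (wd a (j + 2) * c (j + 2)) ≤ C := by
    intro j
    have e : wd a (j + 1) * a (j + 1) * (wd a (j + 1))⁻¹ * (wd a j * c j) =
      wd a (j + 1) * (a (j + 1) * ((a j)⁻¹ * c j)) := by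
      change wd a j * a j * a (j + 1) * (wd a j * a j)⁻¹ * (wd a j * c j) =
        wd a j * a j * (a (j + 1) * ((a j)⁻¹ * c j))
      group
    have e2 : wd a (j + 2) * c (j + 2) = wd a (j + 1) * (a (j + 1) * c j) := by
      change wd a (j + 1) * a (j + 1) * c (j + 2) = _
      rw [hc2, mul_assoc]
    rw [e, e2, hG.inv, hG.inv, hG.path.symm]
    have := hac' j (-1)
    rwa [zpow_neg_one] at this
  have hvn : ∀ j, (wd a (j + 1) * a (j + 1) * (wd a (j + 1))⁻¹) ^ n = 1 := by
    intro j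
    rw [conj_pow, han, mul_one, mul_inv_cancel]
  have hvne : ∀ j, wd a (j + 1) * a (j + 1) * (wd a (j + 1))⁻¹ ≠ 1 := by
    intro j h
    rw [mul_inv_eq_one] at h
    exact ha1 (j + 1) (mul_eq_left.1 h)
  refine
    { lo := hlo
      hi := hhi
      gp := ?_
      v0 := hv0
      v1 := hv1
      vn := hvn
      vne := hvne
      per2 := hp2
      per4 := hp4
      hper := ?_
      seg := ?_ }
  · intro j
    change d (wd a j * c j) (wd a (j + 1) * c (j + 1)) +
      d (wd a (j + 1) * c (j + 1)) (wd a (j + 2) * c (j + 2)) ≤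
      d (wd a j * c j) (wd a (j + 2) * c (j + 2)) + (2 * A + 2 * C)
    have h1 := hv0 j
    have h2 := hv1 j
    have h3 := hlo j
    set g := wd a (j + 1) * a (j + 1) * (wd a (j + 1))⁻¹ with hg
    set e := wd a (j + 1) * c (j + 1) with he
    set e' := wd a j * c j with he'
    set e2 := wd a (j + 2) * c (j + 2) with he2
    have h4 := hG.path.symm e e'
    have h5 := gp_small hG hC hL hac (hvn j) (hvne j) (e := e) (e' := e')
      (by rw [hG.path.symm]; exact h1) (by omega)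
    have h6 := hG.path.tri e (g * e') e2
    have h7 := hG.path.tri e' e2 (g * e')
    have h8 := hG.path.symm e2 (g * e')
    change d e' e + d e (g * e') ≤ d e' (g * e') + 2 * A at h5
    change d (g * e') e2 ≤ C at h2
    omega
  · intro j
    change wd a (j + per) * c (j + per) = U * (wd a j * c j)
    rw [wd_per hU hap, hcp, mul_assoc]
  · intro g hg j
    change |H.Φ g (wd a j * c j) (wd a j * a j * c (j + 1))| ≤ H.T g / 2 + 13 * C
    have hB : ∀ g ∈ F, |H.Φ g (c j) (c (j + 1))| ≤ H.T g / 2 + (10 * C + C) := by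
      intro g hg
      have h1 := seg_symm hF hT hg
      rcases hc j with ⟨h2, h3⟩ | ⟨h2, h3⟩
      · rw [h2, h3]; exact h1
      · rw [h2, h3, hl_symm H (hF.sub hg) x y, abs_neg]; exact h1
    have h1 := seg_conj hF hB hg (wd a j * a j)
    have h2 := hl_lip2 hG H (hF.sub hg) (wd a j * c j) (wd a j * a j * c (j + 1))
      (wd a j * a j * c j) (wd a j * a j * c (j + 1))
    rw [hb_self hG, mul_assoc (wd a j) (a j) (c j), hG.inv] at h2
    rw [mul_assoc (wd a j) (a j) (c j)] at h1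
    have h3 : (d (c j) (a j * c j) : ℝ) ≤ C := by exact_mod_cast hone j
    have h4 := abs_sub_abs_le_abs_sub (H.Φ g (wd a j * c j) (wd a j * a j * c (j + 1)))
      (H.Φ g (wd a j * (a j * c j)) (wd a j * a j * c (j + 1)))
    push_cast at h2
    linarith

/-- existence of the chain for the product and the commutator -/
theorem exists_CH (hG : HypG d δ) (hC : 100 * δ ≤ C) {H : Hubs d X C} (hF : Fam H F Δ Tm) {L : ℕ}
    (hL : 1000 * C ≤ L)
    (hac : ∀ g p p', g ^ n = 1 → A ≤ d p p' → d p (g * p) ≤ L → d p' (g * p') ≤ L → g = 1)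
    {P Q x y : G} (hP : P ^ n = 1) (hP1 : P ≠ 1) (hQ : Q ^ n = 1) (hQ1 : Q ≠ 1)
    (hPx : ∀ j : ℤ, d x (P ^ j * x) ≤ C) (hQy : ∀ j : ℤ, d y (Q ^ j * y) ≤ C)
    (hD : A + C ≤ d x y) (hT : Tight H F (fun f => H.T f / 2) (10 * C) x y) {U : G}
    (hU : U = P * Q ∨ U = P * Q * P⁻¹ * Q⁻¹) :
    ∃ (per : ℕ) (p v : ℕ → G), p 0 = x ∧ CH H F A (d x y) n per U p v := by
  have hPi : ∀ j : ℤ, d x (P⁻¹ ^ j * x) ≤ C := by
    intro j
    rw [inv_zpow']
    exact hPx (-j)
  have hQi : ∀ j : ℤ, d y (Q⁻¹ ^ j * y) ≤ C := by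
    intro j
    rw [inv_zpow']
    exact hQy (-j)
  set c : ℕ → G := fun j => if Even j then x else y with hc
  have hcx : ∀ j, Even j → c j = x := fun j hj => if_pos hj
  have hcy : ∀ j, ¬ Even j → c j = y := fun j hj => if_neg hj
  have hcc : ∀ j, (c j = x ∧ c (j + 1) = y) ∨ (c j = y ∧ c (j + 1) = x) := by
    intro j
    by_cases hj : Even j
    · left
      exact ⟨hcx j hj, hcy _ (by rw [Nat.even_add_one]; exact not_not.2 hj)⟩
    · right
      exact ⟨hcy j hj, hcx _ (by rw [Nat.even_add_one]; exact hj)⟩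
  rcases hU with rfl | rfl
  · set a : ℕ → G := fun j => if Even j then P else Q with ha
    have hax : ∀ j, Even j → a j = P := fun j hj => if_pos hj
    have hay : ∀ j, ¬ Even j → a j = Q := fun j hj => if_neg hj
    refine ⟨2, fun j => wd a j * c j, _, ?_, mkCH hG hC hF hL hac hD hT hcc ?_ ?_ ?_ ?_ ?_ ?_
      le_rfl (by omega)⟩
    · change (1 : G) * c 0 = x
      rw [one_mul, hcx 0 (by decide)]
    · intro j m
      by_cases hj : Even j
      · rw [hcx j hj, hax j hj]; exact hPx m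
      · rw [hcy j hj, hay j hj]; exact hQy m
    · intro j
      by_cases hj : Even j
      · rw [hax j hj]; exact hP
      · rw [hay j hj]; exact hQ
    · intro j
      by_cases hj : Even j
      · rw [hax j hj]; exact hP1
      · rw [hay j hj]; exact hQ1
    · change 1 * a 0 * a 1 = P * Q
      rw [one_mul, hax 0 (by decide), hay 1 (by decide)]
    · intro j
      have e : Even (j + 2) ↔ Even j := by
        rw [Nat.even_add]
        exact ⟨fun h => h.2 (by decide), fun h => ⟨fun _ => by decide, fun _ => h⟩⟩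
      by_cases hj : Even j
      · rw [hax _ (e.2 hj), hax j hj]
      · rw [hay _ (fun h => hj (e.1 h)), hay j hj]
    · intro j
      have e : Even (j + 2) ↔ Even j := by
        rw [Nat.even_add]
        exact ⟨fun h => h.2 (by decide), fun h => ⟨fun _ => by decide, fun _ => h⟩⟩
      by_cases hj : Even j
      · rw [hcx _ (e.2 hj), hcx j hj]
      · rw [hcy _ (fun h => hj (e.1 h)), hcy j hj]
  · set a : ℕ → G := fun j => if j % 4 = 0 then P else if j % 4 = 1 then Q else
      if j % 4 = 2 then P⁻¹ else Q⁻¹ with ha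
    have hmod : ∀ j, (Even j ∧ (a j = P ∨ a j = P⁻¹)) ∨ (¬ Even j ∧ (a j = Q ∨ a j = Q⁻¹)) := by
      intro j
      have h4 : j % 4 < 4 := Nat.mod_lt _ (by omega)
      rw [Nat.even_iff]
      have h5 : j % 4 = 0 ∨ j % 4 = 1 ∨ j % 4 = 2 ∨ j % 4 = 3 := by omega
      rcases h5 with h | h | h | h
      · left; refine ⟨by omega, Or.inl ?_⟩; simp only [ha, h]; simp
      · right; refine ⟨by omega, Or.inl ?_⟩; simp only [ha, h]; simp
      · left; refine ⟨by omega, Or.inr ?_⟩; simp only [ha, h]; simp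
      · right; refine ⟨by omega, Or.inr ?_⟩; simp only [ha, h]; simp
    refine ⟨4, fun j => wd a j * c j, _, ?_, mkCH hG hC hF hL hac hD hT hcc ?_ ?_ ?_ ?_ ?_ ?_
      (by omega) le_rfl⟩
    · change (1 : G) * c 0 = x
      rw [one_mul, hcx 0 (by decide)]
    · intro j m
      rcases hmod j with ⟨hj, h | h⟩ | ⟨hj, h | h⟩
      · rw [hcx j hj, h]; exact hPx m
      · rw [hcx j hj, h]; exact hPi m
      · rw [hcy j hj, h]; exact hQy m
      · rw [hcy j hj, h]; exact hQi m
    · intro j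
      rcases hmod j with ⟨hj, h | h⟩ | ⟨hj, h | h⟩
      · rw [h]; exact hP
      · rw [h, inv_pow, hP, inv_one]
      · rw [h]; exact hQ
      · rw [h, inv_pow, hQ, inv_one]
    · intro j
      rcases hmod j with ⟨hj, h | h⟩ | ⟨hj, h | h⟩
      · rw [h]; exact hP1
      · rw [h]; exact inv_ne_one.2 hP1
      · rw [h]; exact hQ1
      · rw [h]; exact inv_ne_one.2 hQ1
    · change 1 * a 0 * a 1 * a 2 * a 3 = P * Q * P⁻¹ * Q⁻¹
      have h0 : a 0 = P := by simp [ha]
      have h1 : a 1 = Q := by simp [ha]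
      have h2 : a 2 = P⁻¹ := by simp [ha]
      have h3 : a 3 = Q⁻¹ := by simp [ha]
      rw [h0, h1, h2, h3, one_mul]
    · intro j
      simp only [ha, Nat.add_mod_right]
    · intro j
      have e : Even (j + 4) ↔ Even j := by
        rw [Nat.even_add]
        exact ⟨fun h => h.2 (by decide), fun h => ⟨fun _ => by decide, fun _ => h⟩⟩
      by_cases hj : Even j
      · rw [hcx _ (e.2 hj), hcx j hj]
      · rw [hcy _ (fun h => hj (e.1 h)), hcy j hj]

end J1

open J1 in
/-- Part J1. -/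
theorem stJ1 : StF0 → StTL → StF → StJ1 := by
  intro hF0 hTL _
  obtain ⟨M1, hM1⟩ := hTL
  refine ⟨M1, ?_⟩
  intro G G' _ _ d d' δ C Δ R n q A L Ax L1 F H Tm π hS hA hAx hR hc hQuo P Q x y hP hP1 hQ hQ1
    hPx hQy hmin hD U hU
  have hG : HypG d δ := hS.toHypG
  have hF : Fam H F Δ Tm := hR.toFam
  have hδ := hG.one
  have hC := hc.cst.hC
  have hΔC := hc.cst.hΔ
  have hRΔ := hc.cst.hR
  have hRT := hc.cst.hT
  have hC1 : 1 ≤ C := hF.hC1
  have hL := hc.hL
  have hAΔ : 300 * A ≤ Δ := by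
    have h1 := hc.hAx
    have h2 := hc.hΔ
    omega
  have hDA : 100 * A + 100 * C ≤ d x y := by omega
  have hRT' : 10 * (R : ℝ) ≤ Tm := hRT
  have hRΔ' : 1000 * (Δ : ℝ) ≤ R := by exact_mod_cast hRΔ
  have hΔC' : 1000 * (C : ℝ) ≤ Δ := by exact_mod_cast hΔC
  have hC0 : (1 : ℝ) ≤ C := by exact_mod_cast hC1
  have hTight := hl_min hG hF (by linarith) (x := x) (y := y)
    (fun k hk => (hmin k hk).trans (Nat.le_add_right _ _))
  obtain ⟨per, p, v, hp0, hch⟩ := exists_CH hG hC hF hL hS.acylt hP hP1 hQ hQ1 hPx hQy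
    (by omega) hTight hU
  have hrot : ∀ g ∈ F, ∀ w : G, w ^ n = 1 → w ≠ 1 → w * g * w⁻¹ ≠ g ∧ w * g * w⁻¹ ≠ g⁻¹ :=
    fun g hg w hw hw1 => rot_ne hC1 (by have := hc.hn; omega) hA hF hg hw hw1
  have hUX : U ∈ Lx d (100 * C) := ch_Lx hG hC hch (by omega)
  refine ⟨ch_ne hG hC hch (by omega) (by have := hc.hn; omega), ?_⟩
  by_cases hcom : ∃ f ∈ F, Commute U f
  · left
    obtain ⟨f, hf, hcf⟩ := hcom
    obtain ⟨h1, h2⟩ := comm_short hG hC hF hch hrot hAΔ (by omega) hUX hf hcf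
    refine ⟨⟨f, hf, hcf, ?_⟩, h2.le⟩
    obtain ⟨z, hz, hdz⟩ := h1
    rw [hp0] at hdz
    exact ⟨z, hz, by omega⟩
  · right
    push Not at hcom
    intro hpi
    have htight : ∀ z ∈ H.Z U, ∀ m : ℕ, Tight H F (fun f => H.T f / 2) (10 * Δ) z (U ^ m * z) := by
      intro z hz m f hf
      have hz' : U ^ m * z ∈ H.Z U := by
        have := (hl_Zpow H hUX z (m : ℤ)).2 hz
        rwa [zpow_natCast] at this
      have hTf := hl_Tpos H (hF.sub hf)
      by_cases hD2 : 2 * Δ ≤ d x y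
      · have h1 := tight_long hG hC hF hch hrot hAΔ hD2 hUX hf hz hz'
        change H.Φ f z (U ^ m * z) ≤ H.T f / 2 + 10 * Δ
        linarith
      · have h1 := hF0 G d δ C Δ n q A L Ax L1 F H Tm hS hA hR hC hc.odd hc.hn U hUX f hf
          (hcom f hf) z hz _ hz'
        have h2 := hl_disp H hUX (p 0)
        have h3 := ch_disp hG hch 0
        have h4 : (d (p 0) (U * p 0) : ℝ) ≤ 4 * (d x y + C) := by exact_mod_cast h3
        have h5 : (d x y : ℝ) ≤ 2 * Δ := by
          have : d x y ≤ 2 * Δ := by omega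
          exact_mod_cast this
        have h6 := le_abs_self (H.Φ f z (U ^ m * z))
        change H.Φ f z (U ^ m * z) ≤ H.T f / 2 + 10 * Δ
        linarith
    have hTU := H.Tbig U hUX
    have h1 := hM1 G G' d d' δ C Δ R n q A L Ax L1 F H (10 * Δ) Tm π hS hA hR hc hQuo
      (by linarith) (by linarith) U hUX hcom 1 (by omega) (by push_cast; linarith) htight 1 n
    rw [hpi, one_mul, one_mul, (hQuo.path.zero_iff 1 1).2 rfl, mul_zero] at h1
    have := hc.hn
    omega

end Pool.Agent.Helper74.TB
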