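import Pool.Agent.Helper74.TB.J2b
import Pool.Agent.Helper74.TB.H
import Pool.Agent.Helper74.TB.P

/-! MP_7d16da_al, Part J2: products and commutators of rotations about distinct hubs. -/

set_option autoImplicit false

namespace Pool.Agent.Helper74.TB

open Pool.Agent.Helper74.MH

namespace J2

section geom

variable {G : Type} [Group G] {d : G → G → ℕ} {δ C Δ : ℕ} {X F : Set G} {Tm : ℝ}
  {H : Hubs d X C}

/-- two hubs with a nearest pair of points -/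
structure TwoH (H : Hubs d X C) (F : Set G) (f f' x y : G) : Prop where
  hf : f ∈ F
  hf' : f' ∈ F
  ne : f' ≠ f ∧ f' ≠ f⁻¹
  hx : x ∈ H.Z f
  hy : y ∈ H.Z f'
  min : ∀ x' ∈ H.Z f, ∀ y' ∈ H.Z f', d x y ≤ d x' y'
  tight : ∀ g ∈ F, |H.Φ g x y| ≤ H.T g / 2 + 11 * C

theorem TwoH.symm (hG : HypG d δ) (hF : Fam H F Δ Tm) {f f' x y : G} (W : TwoH H F f f' x y) :
    TwoH H F f' f y x := by
  refine ⟨W.hf', W.hf, ⟨fun h => W.ne.1 h.symm, fun h => W.ne.2 ?_⟩, W.hy, W.hx, ?_, ?_⟩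
  · rw [h, inv_inv]
  · intro y' hy' x' hx'
    rw [hG.path.symm y x, hG.path.symm y' x']
    exact W.min x' hx' y' hy'
  · intro g hg
    rw [PH.abs_symm H (hF.sub hg)]
    exact W.tight g hg

/-- a rotation about a hub -/
structure Rot (H : Hubs d X C) (f R : G) (α : ℝ) : Prop where
  com : Commute R f
  lo : ∀ z, α - C ≤ |H.Φ f z (R * z)|
  hi : ∀ z, |H.Φ f z (R * z)| ≤ α + C
  half : 2 * α ≤ H.T f
  ne : R ≠ 1

theorem Rot.inv (hF : Fam H F Δ Tm) {f R : G} {α : ℝ} (hf : f ∈ F) (W : Rot H f R α) :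
    Rot H f R⁻¹ α := by
  refine ⟨W.com.inv_left, ?_, ?_, W.half, inv_ne_one.2 W.ne⟩
  · intro z
    have h := W.lo (R⁻¹ * z)
    rw [mul_inv_cancel_left, PH.abs_symm H (hF.sub hf)] at h
    exact h
  · intro z
    have h := W.hi (R⁻¹ * z)
    rw [mul_inv_cancel_left, PH.abs_symm H (hF.sub hf)] at h
    exact h

theorem Rot.conj {f R : G} {α : ℝ} (W : Rot H f R α) : R * f * R⁻¹ = f := by
  rw [W.com.eq, mul_inv_cancel_right]

theorem two_x (hG : HypG d δ) (hF : Fam H F Δ Tm) {f f' x y : G} (W : TwoH H F f f' x y) :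
    |H.Φ f x y| ≤ 2 * C := by
  have h1 := PH.near_pt hG H (hF.sub W.hf) (x := y) W.hx (fun z hz => by
    rw [hG.path.symm y x, hG.path.symm y z]
    exact W.min z hz y W.hy)
  rwa [PH.abs_symm H (hF.sub W.hf)] at h1

theorem two_y (hG : HypG d δ) (hF : Fam H F Δ Tm) {f f' x y : G} (W : TwoH H F f f' x y) :
    |H.Φ f' x y| ≤ 2 * C :=
  PH.near_pt hG H (hF.sub W.hf') W.hy (fun z hz => W.min x W.hx z hz)

/-- projection of the second hub to the first -/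
theorem two_gate (hG : HypG d δ) (hF : Fam H F Δ Tm) {f f' x y : G} (W : TwoH H F f f' x y)
    {b : G} (hb : b ∈ H.Z f') : |H.Φ f x b| ≤ Δ + 2 * C := by
  have h1 := two_x hG hF W
  have h2 := hF.sep f W.hf f' W.hf' W.ne.1 W.ne.2 y W.hy b hb
  have h3 := PH.abs_tri H (hF.sub W.hf) x y b
  linarith

/-- one step about a long rotation -/
theorem sc_rot (hG : HypG d δ) (hF : Fam H F Δ Tm) {f f' x y R : G} {α : ℝ}
    (W : TwoH H F f f' x y) (V : Rot H f R α) (hα : 20 * (Δ : ℝ) ≤ α) :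
    SC H F Δ f x R f' y := by
  have hΔ : 1000 * (C : ℝ) ≤ Δ := by exact_mod_cast hF.hC
  have hC1 : (1 : ℝ) ≤ C := by exact_mod_cast hF.hC1
  have hfX := hF.sub W.hf
  have hf'X := hF.sub W.hf'
  have hgF : R * f' * R⁻¹ ∈ F := hF.conj _ W.hf' R
  have main : ∀ b ∈ H.Z (R * f' * R⁻¹), |H.Φ f (R * x) b| ≤ Δ + 3 * C := by
    intro b hb
    have hb' : R⁻¹ * b ∈ H.Z f' := by
      rw [← H.Zconj _ hf'X R, mul_inv_cancel_left]; exact hb
    have h1 := two_gate hG hF W hb'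
    have h2 := H.equi f hfX R x (R⁻¹ * b)
    rw [V.conj, mul_inv_cancel_left] at h2
    have h3 := abs_sub_abs_le_abs_sub (H.Φ f (R * x) b) (H.Φ f x (R⁻¹ * b))
    linarith
  refine ⟨⟨fun h => W.ne.1 ?_, fun h => W.ne.2 ?_⟩, ?_, ?_, ?_, ?_⟩
  · have h1 : R * f' * R⁻¹ = R * f * R⁻¹ := h.trans V.conj.symm
    exact mul_left_cancel (mul_right_cancel h1)
  · have h1 : R * f' * R⁻¹ = R * f⁻¹ * R⁻¹ := by
      rw [h, V.com.inv_right.eq, mul_inv_cancel_right]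
    exact mul_left_cancel (mul_right_cancel h1)
  · intro a ha
    have ha' : R⁻¹ * a ∈ H.Z f := PH.Z_comm H hfX V.com.inv_left ha
    have h1 := two_y hG hF W
    have h2 := hF.sep f' W.hf' f W.hf (fun h => W.ne.1 h.symm)
      (fun h => W.ne.2 (by rw [h, inv_inv])) _ ha' x W.hx
    have h3 := PH.abs_tri H hf'X (R⁻¹ * a) x y
    have h4 := H.equi f' hf'X R (R⁻¹ * a) y
    rw [mul_inv_cancel_left] at h4
    have h5 := abs_sub_abs_le_abs_sub (H.Φ (R * f' * R⁻¹) a (R * y)) (H.Φ f' (R⁻¹ * a) y)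
    linarith
  · intro b hb
    have h1 := main b hb
    have h2 := V.lo x
    have h3 : |H.Φ f x (R * x)| ≤ |H.Φ f x b| + |H.Φ f (R * x) b| := by
      have h4 := PH.abs_tri H hfX x b (R * x)
      rwa [PH.abs_symm H hfX (R * x) b] at h4
    linarith
  · intro b hb
    have h1 := main b hb
    have h2 := V.hi x
    have h3 := PH.abs_tri H hfX x (R * x) b
    have h4 := V.half
    linarith
  · intro g hg
    have hgX := hF.sub hg
    have h3 := PH.abs_tri H hgX x (R * x) (R * y)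
    have h4 := V.half
    by_cases hgf : g = f ∨ g = f⁻¹
    · obtain ⟨h5, h6⟩ := PH.abs_pm H hfX hgf x (R * x)
      obtain ⟨h7, -⟩ := PH.abs_pm H hfX hgf (R * x) (R * y)
      have h8 := V.hi x
      have h9 := PH.abs_equi H hfX R x y
      have e : R⁻¹ * f * R = f := by rw [mul_assoc, ← V.com.eq, inv_mul_cancel_left]
      rw [e] at h9
      have h10 := two_x hG hF W
      rw [h6]
      linarith
    · push Not at hgf
      have h5 := hF.sep g hg f W.hf (fun h => hgf.1 h.symm)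
        (fun h => hgf.2 (by rw [h, inv_inv])) x W.hx (R * x) (PH.Z_comm H hfX V.com W.hx)
      have h6 := PH.abs_equi H hgX R x y
      have h7 : R⁻¹ * g * R ∈ F := by
        have := hF.conj g hg R⁻¹
        rwa [inv_inv] at this
      have h8 := W.tight _ h7
      have h9 : H.T (R⁻¹ * g * R) = H.T g := by
        have := H.Tconj g hgX R⁻¹
        rwa [inv_inv] at this
      rw [h9] at h8
      linarith

/-- same range lemma with explicit lengths -/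
theorem same_range' (hG : HypG d δ) (hF : Fam H F Δ Tm) (hC : 100 * δ ≤ C)
    {f : G} (hf : f ∈ F) {g x1 x2 : G} (hg : d x1 (g * x1) ≤ 21 * Δ)
    (h1 : 30 * (Δ : ℝ) ≤ |H.Φ f x1 x2|) (h2 : 30 * (Δ : ℝ) ≤ |H.Φ f (g * x1) (g * x2)|) :
    g * f * g⁻¹ = f ∨ g * f * g⁻¹ = f⁻¹ := by
  have hC1 : (1 : ℝ) ≤ C := by exact_mod_cast hF.hC1
  have hΔ : 1000 * (C : ℝ) ≤ Δ := by exact_mod_cast hF.hC
  have hfX := hF.sub hf
  have hf'F := hF.conj f hf g
  have hf'X := hF.sub hf'F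
  obtain ⟨γ, hγ0, hγ1, hγ⟩ := exists_geo hG.path (g * x1) (g * x2)
  have h3 : 30 * (Δ : ℝ) - C ≤ |H.Φ (g * f * g⁻¹) (g * x1) (g * x2)| := by
    have h4 := H.equi f hfX g x1 x2
    have h5 := abs_sub_abs_le_abs_sub (H.Φ f x1 x2) (H.Φ (g * f * g⁻¹) (g * x1) (g * x2))
    rw [abs_sub_comm] at h5
    linarith
  have h2' : 10 * (C : ℝ) ≤ |H.Φ f (γ 0) (γ (d (g * x1) (g * x2)))| := by
    rw [hγ0, hγ1]; linarith
  have h3' : 10 * (C : ℝ) ≤ |H.Φ (g * f * g⁻¹) (γ 0) (γ (d (g * x1) (g * x2)))| := by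
    rw [hγ0, hγ1]; linarith
  obtain ⟨i1, i2, a1, a2, a3, a4, a5, a6, a7, a8, a9, a10, a11, a12⟩ :=
    hl_ee hG H hC hfX hγ (Nat.zero_le _) le_rfl h2'
  obtain ⟨j1, j2, b1, b2, b3, b4, b5, b6, b7, b8, b9, b10, b11, b12⟩ :=
    hl_ee hG H hC hf'X hγ (Nat.zero_le _) le_rfl h3'
  rw [hγ0] at a6 a9 a10 b6 b9 b10
  rw [hγ1] at a7 b7
  have c1 : 30 * (Δ : ℝ) - 12 * C ≤ (i2 : ℝ) - i1 := by
    have e1 := PH.abs_tri H hfX (g * x1) (γ i1) (g * x2)
    have e2 := PH.abs_tri H hfX (γ i1) (γ i2) (g * x2)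
    have e3 := H.lip f hfX (γ i1) (γ i2)
    have e4 := hγ i1 i2 a2.le a3
    have e5 : (d (γ i1) (γ i2) : ℝ) + i1 = i2 := by exact_mod_cast e4
    linarith
  have c2 : 30 * (Δ : ℝ) - 13 * C ≤ (j2 : ℝ) - j1 := by
    have e1 := PH.abs_tri H hf'X (g * x1) (γ j1) (g * x2)
    have e2 := PH.abs_tri H hf'X (γ j1) (γ j2) (g * x2)
    have e3 := H.lip _ hf'X (γ j1) (γ j2)
    have e4 := hγ j1 j2 b2.le b3
    have e5 : (d (γ j1) (γ j2) : ℝ) + j1 = j2 := by exact_mod_cast e4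
    linarith
  have c3 : d (g * x1) (H.pr (g * f * g⁻¹) (g * x1)) ≤ d x1 (H.pr f x1) := by
    have e1 := H.pr_min _ hf'X (g * x1) _ (PH.Z_conj H hfX g (H.pr_mem f hfX x1))
    rwa [hG.inv] at e1
  have c4 : d x1 (H.pr f x1) ≤ d (g * x1) (H.pr (g * f * g⁻¹) (g * x1)) := by
    have e0 : g⁻¹ * H.pr (g * f * g⁻¹) (g * x1) ∈ H.Z f := by
      have e1 := (H.Zconj f hfX g (g⁻¹ * H.pr (g * f * g⁻¹) (g * x1))).1
      rw [mul_inv_cancel_left] at e1
      exact e1 (H.pr_mem _ hf'X _)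
    have e1 := H.pr_min f hfX x1 _ e0
    have e2 := hG.inv g x1 (g⁻¹ * H.pr (g * f * g⁻¹) (g * x1))
    rw [mul_inv_cancel_left] at e2
    omega
  have c5 : d (g * x1) (H.pr f (g * x1)) ≤ d x1 (H.pr f x1) + 21 * Δ := by
    have e1 := H.pr_min f hfX (g * x1) _ (H.pr_mem f hfX x1)
    have e2 := hG.path.tri (g * x1) x1 (H.pr f x1)
    have e3 := hG.path.symm (g * x1) x1
    omega
  have c6 : d x1 (H.pr f x1) ≤ d (g * x1) (H.pr f (g * x1)) + 21 * Δ := by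
    have e1 := H.pr_min f hfX x1 _ (H.pr_mem f hfX (g * x1))
    have e2 := hG.path.tri x1 (g * x1) (H.pr f (g * x1))
    omega
  have c7 : i1 ≤ j1 + (21 * Δ + 5 * C) := by omega
  have c8 : j1 ≤ i1 + (21 * Δ + 5 * C) := by omega
  have c7' : (i1 : ℝ) ≤ j1 + (21 * Δ + 5 * C) := by exact_mod_cast c7
  have c8' : (j1 : ℝ) ≤ i1 + (21 * Δ + 5 * C) := by exact_mod_cast c8
  obtain ⟨a, b, c9, c10, c11, c12, c13⟩ : ∃ a b : ℕ, i1 ≤ a ∧ j1 ≤ a ∧ b ≤ i2 ∧ b ≤ j2 ∧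
      a + (Δ + 100 * C) ≤ b := by
    have e1 : (i1 : ℝ) + (Δ + 100 * C) ≤ i2 := by linarith
    have e2 : (i1 : ℝ) + (Δ + 100 * C) ≤ j2 := by linarith
    have e3 : (j1 : ℝ) + (Δ + 100 * C) ≤ i2 := by linarith
    have e4 : (j1 : ℝ) + (Δ + 100 * C) ≤ j2 := by linarith
    have e1' : i1 + (Δ + 100 * C) ≤ i2 := by exact_mod_cast e1
    have e2' : i1 + (Δ + 100 * C) ≤ j2 := by exact_mod_cast e2
    have e3' : j1 + (Δ + 100 * C) ≤ i2 := by exact_mod_cast e3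
    have e4' : j1 + (Δ + 100 * C) ≤ j2 := by exact_mod_cast e4
    exact ⟨max i1 j1, min i2 j2, le_max_left _ _, le_max_right _ _, min_le_left _ _,
      min_le_right _ _, by omega⟩
  have c14 : d (γ a) (γ b) + a = b := hγ a b (by omega) (by omega)
  have nh : ∀ {S : Set G} {x : G}, Nh d (7 * C) S x → Nh d (10 * C) S x := by
    rintro S x ⟨z, hz, hd⟩
    exact ⟨z, hz, hd.trans (by omega)⟩
  have n1 := nh (a8 a (by omega) (by omega))
  have n2 := nh (a8 b (by omega) (by omega))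
  have n3 := nh (b8 a (by omega) (by omega))
  have n4 := nh (b8 b (by omega) (by omega))
  exact hl_ov hG hF hf hf'F n1 n2 n3 n4 (by omega)

/-- the short rotation: projection of `Q Y` to `Y` -/
theorem gateQ (hG : HypG d δ) (hF : Fam H F Δ Tm) {f f' x y Q : G} {α : ℝ}
    (W : TwoH H F f f' x y) (V : Rot H f' Q α)
    (hQ : Q * f * Q⁻¹ ≠ f ∧ Q * f * Q⁻¹ ≠ f⁻¹) {w : G} (hw : w ∈ H.Z (Q * f * Q⁻¹)) :
    |H.Φ f x w| ≤ 2 * Δ + 3 * C ∧ |H.Φ f x (Q * x)| ≤ Δ + 3 * C := by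
  have hC1 : (1 : ℝ) ≤ C := by exact_mod_cast hF.hC1
  have hfX := hF.sub W.hf
  have hf'X := hF.sub W.hf'
  have h1 := two_x hG hF W
  have h2 := hF.sep f W.hf f' W.hf' W.ne.1 W.ne.2 y W.hy (Q * y) (PH.Z_comm H hf'X V.com W.hy)
  have h3 : |H.Φ f (Q * y) (Q * x)| ≤ C := by
    by_contra hcon
    push Not at hcon
    have t1 := H.thr f hfX (Q * y) (Q * x) hcon.le
    have t2 := W.min _ (H.pr_mem f hfX (Q * y)) (Q * y) (PH.Z_comm H hf'X V.com W.hy)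
    have t3 := hG.inv Q y x
    have t4 := hG.path.symm y x
    have t5 := hG.path.symm (Q * y) (H.pr f (Q * y))
    have t6 : (d x y : ℝ) ≤ d (Q * y) (H.pr f (Q * y)) := by
      rw [t5]; exact_mod_cast t2
    rw [t3, t4] at t1
    have t7 : (0 : ℝ) ≤ d (H.pr f (Q * x)) (Q * x) := Nat.cast_nonneg _
    linarith
  have h4 := hF.sep f W.hf _ (hF.conj f W.hf Q) hQ.1 hQ.2 (Q * x) (PH.Z_conj H hfX Q W.hx) w hw
  have t1 := PH.abs_tri H hfX x y (Q * y)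
  have t2 := PH.abs_tri H hfX x (Q * y) (Q * x)
  have t3 := PH.abs_tri H hfX x (Q * x) w
  constructor <;> linarith

/-- the short rotation: all other relators -/
theorem segQ (hG : HypG d δ) (hF : Fam H F Δ Tm) (hC : 100 * δ ≤ C) {f f' x y Q : G} {α : ℝ}
    (W : TwoH H F f f' x y) (V : Rot H f' Q α) (hα : α ≤ 20 * Δ)
    (hQ : ∀ g ∈ F, (Q * g * Q⁻¹ = g ∨ Q * g * Q⁻¹ = g⁻¹) → g = f' ∨ g = f'⁻¹) {g : G}
    (hg : g ∈ F) : |H.Φ g x (Q * x)| ≤ H.T g / 2 + 32 * Δ := by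
  have hΔ : 1000 * (C : ℝ) ≤ Δ := by exact_mod_cast hF.hC
  have hC1 : (1 : ℝ) ≤ C := by exact_mod_cast hF.hC1
  have hf'X := hF.sub W.hf'
  have hgX := hF.sub hg
  have hTg := hl_Tpos H hgX
  have t1 := PH.abs_tri H hgX x y (Q * y)
  have t2 := PH.abs_tri H hgX x (Q * y) (Q * x)
  by_cases hgf : g = f' ∨ g = f'⁻¹
  · obtain ⟨h5, h6⟩ := PH.abs_pm H hf'X hgf x y
    obtain ⟨h7, -⟩ := PH.abs_pm H hf'X hgf y (Q * y)
    obtain ⟨h8, -⟩ := PH.abs_pm H hf'X hgf (Q * y) (Q * x)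
    have h9 := V.hi y
    have h10 := two_y hG hF W
    have h11 := PH.abs_equi H hf'X Q y x
    have e : Q⁻¹ * f' * Q = f' := by rw [mul_assoc, ← V.com.eq, inv_mul_cancel_left]
    rw [e, PH.abs_symm H hf'X x y] at h11
    linarith
  · have hgf' := hgf
    push Not at hgf'
    have h1 := hF.sep g hg f' W.hf' (fun h => hgf'.1 h.symm)
      (fun h => hgf'.2 (by rw [h, inv_inv])) y W.hy (Q * y) (PH.Z_comm H hf'X V.com W.hy)
    have hyQ : d y (Q * y) ≤ 21 * Δ := by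
      have h2 := H.on f' hf'X y W.hy _ (PH.Z_comm H hf'X V.com W.hy)
      have h3 := V.hi y
      have h4 : (d y (Q * y) : ℝ) ≤ 21 * Δ := by linarith
      exact_mod_cast h4
    have h2 := W.tight g hg
    have h3 : |H.Φ g (Q * y) (Q * x)| ≤ H.T g / 2 + 12 * C := by
      have h6 := PH.abs_equi H hgX Q y x
      have h7 : Q⁻¹ * g * Q ∈ F := by
        have := hF.conj g hg Q⁻¹
        rwa [inv_inv] at this
      have h8 := W.tight _ h7
      have h9 : H.T (Q⁻¹ * g * Q) = H.T g := by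
        have := H.Tconj g hgX Q⁻¹
        rwa [inv_inv] at this
      rw [h9] at h8
      rw [PH.abs_symm H (hF.sub h7)] at h6
      linarith
    by_cases h4 : |H.Φ g y x| ≤ 30 * Δ
    · rw [PH.abs_symm H hgX] at h4
      linarith
    by_cases h5 : |H.Φ g (Q * y) (Q * x)| ≤ 30 * Δ
    · linarith
    exfalso
    push Not at h4 h5
    exact hgf (hQ g hg (same_range' hG hF hC hg hyQ h4.le h5.le))

/-- one step about a long rotation and a short rotation -/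
theorem sc_pq (hG : HypG d δ) (hF : Fam H F Δ Tm) (hC : 100 * δ ≤ C) {f f' x y P Q : G}
    {α α' : ℝ} (W : TwoH H F f f' x y) (V : Rot H f P α) (V' : Rot H f' Q α')
    (hα : 100 * (Δ : ℝ) ≤ α) (hα' : α' ≤ 20 * Δ)
    (hQf : Q * f * Q⁻¹ ≠ f ∧ Q * f * Q⁻¹ ≠ f⁻¹)
    (hQf' : Q⁻¹ * f * Q⁻¹⁻¹ ≠ f ∧ Q⁻¹ * f * Q⁻¹⁻¹ ≠ f⁻¹)
    (hQ : ∀ g ∈ F, (Q * g * Q⁻¹ = g ∨ Q * g * Q⁻¹ = g⁻¹) → g = f' ∨ g = f'⁻¹) :
    SC H F Δ f x (P * Q) f x := by
  have hΔ : 1000 * (C : ℝ) ≤ Δ := by exact_mod_cast hF.hC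
  have hC1 : (1 : ℝ) ≤ C := by exact_mod_cast hF.hC1
  have hfX := hF.sub W.hf
  have hPf : P⁻¹ * f * P = f := by rw [mul_assoc, ← V.com.eq, inv_mul_cancel_left]
  have hPf' : P⁻¹ * f⁻¹ * P = f⁻¹ := by
    rw [mul_assoc, ← V.com.inv_right.eq, inv_mul_cancel_left]
  have main : ∀ b ∈ H.Z (P * Q * f * (P * Q)⁻¹), |H.Φ f (P * x) b| ≤ 2 * Δ + 4 * C := by
    intro b hb
    have hb' : P⁻¹ * b ∈ H.Z (Q * f * Q⁻¹) := by
      rw [← H.Zconj _ (hF.sub (hF.conj f W.hf Q)) P, mul_inv_cancel_left]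
      have e : P * (Q * f * Q⁻¹) * P⁻¹ = P * Q * f * (P * Q)⁻¹ := by group
      rw [e]; exact hb
    have h1 := (gateQ hG hF W V' hQf hb').1
    have h2 := H.equi f hfX P x (P⁻¹ * b)
    rw [V.conj, mul_inv_cancel_left] at h2
    have h3 := abs_sub_abs_le_abs_sub (H.Φ f (P * x) b) (H.Φ f x (P⁻¹ * b))
    linarith
  refine ⟨⟨fun h => hQf.1 ?_, fun h => hQf.2 ?_⟩, ?_, ?_, ?_, ?_⟩
  · have e : Q * f * Q⁻¹ = P⁻¹ * (P * Q * f * (P * Q)⁻¹) * P := by group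
    rw [e, h, hPf]
  · have e : Q * f * Q⁻¹ = P⁻¹ * (P * Q * f * (P * Q)⁻¹) * P := by group
    rw [e, h, hPf']
  · intro a ha
    have ha' : (P * Q)⁻¹ * a ∈ H.Z (Q⁻¹ * f * Q⁻¹⁻¹) := by
      have e : (P * Q)⁻¹ * a = Q⁻¹ * (P⁻¹ * a) := by group
      rw [e]
      exact PH.Z_conj H hfX Q⁻¹ (PH.Z_comm H hfX V.com.inv_left ha)
    have h1 := (gateQ hG hF W (V'.inv hF W.hf') hQf' ha').1
    have h2 := H.equi f hfX (P * Q) ((P * Q)⁻¹ * a) x
    rw [mul_inv_cancel_left] at h2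
    have h3 := abs_sub_abs_le_abs_sub (H.Φ (P * Q * f * (P * Q)⁻¹) a (P * Q * x))
      (H.Φ f ((P * Q)⁻¹ * a) x)
    rw [PH.abs_symm H hfX] at h1
    linarith
  · intro b hb
    have h1 := main b hb
    have h2 := V.lo x
    have h3 : |H.Φ f x (P * x)| ≤ |H.Φ f x b| + |H.Φ f (P * x) b| := by
      have h4 := PH.abs_tri H hfX x b (P * x)
      rwa [PH.abs_symm H hfX (P * x) b] at h4
    linarith
  · intro b hb
    have h1 := main b hb
    have h2 := V.hi x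
    have h3 := PH.abs_tri H hfX x (P * x) b
    have h4 := V.half
    linarith
  · intro g hg
    have hgX := hF.sub hg
    have h3 := PH.abs_tri H hgX x (P * x) (P * Q * x)
    have h4 := V.half
    by_cases hgf : g = f ∨ g = f⁻¹
    · obtain ⟨h5, h6⟩ := PH.abs_pm H hfX hgf x (P * x)
      obtain ⟨h7, -⟩ := PH.abs_pm H hfX hgf (P * x) (P * Q * x)
      have h8 := V.hi x
      have h9 := PH.abs_equi H hfX P x (Q * x)
      rw [hPf, ← mul_assoc] at h9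
      have h10 := (gateQ hG hF W V' hQf (PH.Z_conj H hfX Q W.hx)).2
      rw [h6]
      linarith
    · push Not at hgf
      have h5 := hF.sep g hg f W.hf (fun h => hgf.1 h.symm)
        (fun h => hgf.2 (by rw [h, inv_inv])) x W.hx (P * x) (PH.Z_comm H hfX V.com W.hx)
      have h6 := PH.abs_equi H hgX P x (Q * x)
      have h7 : P⁻¹ * g * P ∈ F := by
        have := hF.conj g hg P⁻¹
        rwa [inv_inv] at this
      have h8 := segQ hG hF hC W V' hα' hQ h7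
      have h9 : H.T (P⁻¹ * g * P) = H.T g := by
        have := H.Tconj g hgX P⁻¹
        rwa [inv_inv] at this
      rw [h9] at h8
      rw [← mul_assoc] at h6
      linarith

end geom

section final

variable {G G' : Type} [Group G] [Group G'] {d : G → G → ℕ} {d' : G' → G' → ℕ}
  {δ C Δ R n q A L Ax L1 M1 : ℕ} {F : Set G} {H : Hubs d (Lx d (100 * C)) C} {Tm : ℝ}
  {π : G →* G'}

theorem ne_one_of_sq {M : Type*} [Group M] {U V : M} {n : ℕ} (e : ℕ) (h : V = U ^ e)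
    (hV : V ^ n ≠ 1) : U ^ n ≠ 1 := by
  intro hU
  apply hV
  rw [h, ← pow_mul, mul_comm, pow_mul, hU, one_pow]

/-- the first rotation is long -/
theorem main1 (hCHB : StCHB) (hTL : TLM M1) (hS : Stage d δ n q A L) (hA : Alg H n q L Ax)
    (hR : Rels H F n L1 Δ Tm) (hc : Cst2 δ C Δ R n q L Ax L1 M1 Tm) (hQ : Quo H F R π d')
    {f f' x y P Q : G} {α α' : ℝ} (W : TwoH H F f f' x y) (V : Rot H f P α)
    (V' : Rot H f' Q α') (hα : 100 * (Δ : ℝ) ≤ α) {U : G}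
    (hU : U = P * Q ∨ U = P * Q * P⁻¹ * Q⁻¹) : U ^ n ≠ 1 ∧ π U ^ n ≠ 1 := by
  have hG : HypG d δ := hS.toHypG
  have hF : Fam H F Δ Tm := hR.toFam
  have hC := hc.cst.hC
  have hn := hc.hn
  have hT : 1000 * (Δ : ℝ) ≤ Tm := by
    have h1 := hc.cst.hcT
    have : (0 : ℝ) ≤ Δ := Nat.cast_nonneg _
    linarith
  have hΔ : (0 : ℝ) ≤ Δ := Nat.cast_nonneg _
  have Vi := V.inv hF W.hf
  have Vi' := V'.inv hF W.hf'
  -- the product and its powers
  have fin : ∀ (e : ℕ) (U4 : G), U4 = U ^ e → (U4 ^ n ≠ 1 ∧ π U4 ^ n ≠ 1) →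
      U ^ n ≠ 1 ∧ π U ^ n ≠ 1 := by
    intro e U4 h1 h2
    refine ⟨ne_one_of_sq e h1 h2.1, ne_one_of_sq (V := π U4) e ?_ h2.2⟩
    rw [h1, map_pow]
  by_cases hα' : 20 * (Δ : ℝ) ≤ α'
  · -- both long
    have s1 := sc_rot hG hF W V (by linarith)
    have s2 := sc_rot hG hF (W.symm hG hF) V' hα'
    have s3 := sc_rot hG hF W Vi (by linarith)
    have s4 := sc_rot hG hF (W.symm hG hF) Vi' hα'
    rcases hU with hU | hU
    · refine fin 2 _ ?_ (sc_fin hCHB hTL hS hA hR hc hQ W.hf W.hf' W.hf W.hf' W.hx W.hy W.hx W.hy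
        s1 s2 s1 s2 rfl)
      rw [hU]; simp only [pow_two, mul_assoc]
    · refine fin 1 _ ?_ (sc_fin hCHB hTL hS hA hR hc hQ W.hf W.hf' W.hf W.hf' W.hx W.hy W.hx W.hy
        s1 s2 s3 s4 rfl)
      rw [hU, pow_one]
  · push Not at hα'
    have comm : ∀ {g : G}, g ∈ F → (Q * g * Q⁻¹ = g ∨ Q * g * Q⁻¹ = g⁻¹) →
        g = f' ∨ g = f'⁻¹ := by
      intro g hg h
      have h1 := PH.comm_of_pm hA hF hT hn hg h
      exact PH.common_cent hA hF hT hn W.hf' hg V'.com h1 V'.ne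
    have comm' : ∀ {g : G}, g ∈ F → (Q⁻¹ * g * Q⁻¹⁻¹ = g ∨ Q⁻¹ * g * Q⁻¹⁻¹ = g⁻¹) →
        g = f' ∨ g = f'⁻¹ := by
      intro g hg h
      have h1 := PH.comm_of_pm hA hF hT hn hg h
      exact PH.common_cent hA hF hT hn W.hf' hg V'.com.inv_left h1 (inv_ne_one.2 V'.ne)
    have nf : ¬ (f = f' ∨ f = f'⁻¹) := by
      rintro (h | h)
      · exact W.ne.1 h.symm
      · exact W.ne.2 (by rw [h, inv_inv])
    have q1 : Q * f * Q⁻¹ ≠ f ∧ Q * f * Q⁻¹ ≠ f⁻¹ :=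
      ⟨fun h => nf (comm W.hf (Or.inl h)), fun h => nf (comm W.hf (Or.inr h))⟩
    have q2 : Q⁻¹ * f * Q⁻¹⁻¹ ≠ f ∧ Q⁻¹ * f * Q⁻¹⁻¹ ≠ f⁻¹ :=
      ⟨fun h => nf (comm' W.hf (Or.inl h)), fun h => nf (comm' W.hf (Or.inr h))⟩
    have s1 := sc_pq hG hF hC W V V' hα hα'.le q1 q2 (fun g hg h => comm hg h)
    have s2 := sc_pq hG hF hC W Vi Vi' hα hα'.le q2 (by rw [inv_inv]; exact q1)
      (fun g hg h => comm' hg h)
    rcases hU with hU | hU
    · refine fin 4 _ ?_ (sc_fin hCHB hTL hS hA hR hc hQ W.hf W.hf W.hf W.hf W.hx W.hx W.hx W.hx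
        s1 s1 s1 s1 rfl)
      rw [hU]
      have e : (P * Q) ^ 4 = P * Q * (P * Q) * (P * Q) * (P * Q) := by
        rw [pow_succ, pow_succ, pow_succ, pow_one]
      rw [e]
    · refine fin 2 _ ?_ (sc_fin hCHB hTL hS hA hR hc hQ W.hf W.hf W.hf W.hf W.hx W.hx W.hx W.hx
        s1 s2 s1 s2 rfl)
      rw [hU]; simp only [pow_two, mul_assoc]

/-- powers of the root are rotations -/
theorem rot_of_pow (hF : Fam H F Δ Tm) (hT : 1000 * (Δ : ℝ) ≤ Tm) (hn : 3 ≤ n) {f r : G}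
    (hf : f ∈ F) (hr : Commute r f) (hfr : f = r ^ n) {k : ℤ} (hk : k ≠ 0) (hk2 : 2 * |k| ≤ n) :
    Rot H f (r ^ k) (|(k : ℝ)| * H.T f / n) := by
  have hfX := hF.sub hf
  have hn0 : (0 : ℝ) < n := by
    have : (3 : ℝ) ≤ n := by exact_mod_cast hn
    linarith
  have hT0 := hl_Tpos H hfX
  have key : ∀ z, |H.Φ f z (r ^ k * z) - k * H.T f / n| ≤ C := by
    intro z
    have h1 := p_lin H hfX (hr.zpow_left k) z n
    have e : (r ^ k) ^ n = f ^ k := by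
      rw [hfr, ← zpow_natCast, ← zpow_mul, ← zpow_natCast, ← zpow_mul, mul_comm]
    rw [e, hl_zpow H hfX] at h1
    have h2 : (k : ℝ) * H.T f - n * H.Φ f z (r ^ k * z) =
        -(n * (H.Φ f z (r ^ k * z) - k * H.T f / n)) := by
      field_simp
      ring
    rw [h2, abs_neg, abs_mul, abs_of_pos hn0] at h1
    exact le_of_mul_le_mul_left h1 hn0
  have hab : |(k : ℝ) * H.T f / n| = |(k : ℝ)| * H.T f / n := by
    rw [abs_div, abs_mul, abs_of_nonneg hT0, abs_of_pos hn0]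
  refine ⟨hr.zpow_left k, ?_, ?_, ?_, ?_⟩
  · intro z
    have h1 := key z
    rw [abs_sub_comm] at h1
    have h2 := abs_sub_abs_le_abs_sub ((k : ℝ) * H.T f / n) (H.Φ f z (r ^ k * z))
    rw [hab] at h2
    linarith
  · intro z
    have h1 := key z
    have h2 := abs_sub_abs_le_abs_sub (H.Φ f z (r ^ k * z)) ((k : ℝ) * H.T f / n)
    rw [hab] at h2
    linarith
  · have h1 : 2 * |(k : ℝ)| ≤ n := by exact_mod_cast hk2
    have e : 2 * (|(k : ℝ)| * H.T f / n) = (2 * |(k : ℝ)| * H.T f) / n := by ring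
    rw [e, div_le_iff₀ hn0]
    nlinarith
  · intro h1
    have h2 : f ^ k = 1 := by
      rw [hfr, ← zpow_natCast, ← zpow_mul, mul_comm, zpow_mul, h1, one_zpow]
    exact hk (PH.pow_ne H hF hT hf h2)

end final

end J2

open J2 in
/-- Part J2. -/
theorem stJ2 : StCHB → StF0 → StTL → StJ2 := by
  intro hCHB _ hTL
  obtain ⟨M1, hM1⟩ := hTL
  refine ⟨M1, ?_⟩
  intro G G' _ _ d d' δ C Δ R n q A L Ax L1 F H Tm π hS hA hR hc hQ f hf r t hr hfr hne1 hne2 x hx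
    y hy hmin k1 k2 hk1 hk2 hn1 hn2 hlong U hU
  have hG : HypG d δ := hS.toHypG
  have hF : Fam H F Δ Tm := hR.toFam
  have hn := hc.hn
  have hT : 1000 * (Δ : ℝ) ≤ Tm := by
    have h1 := hc.cst.hcT
    have : (0 : ℝ) ≤ Δ := Nat.cast_nonneg _
    linarith
  have hf' : t * f * t⁻¹ ∈ F := hF.conj f hf t
  have W : TwoH H F f (t * f * t⁻¹) x y := by
    refine ⟨hf, hf', ⟨hne1, hne2⟩, hx, hy, ?_, ?_⟩
    · intro x' hx' y' hy'
      have := hmin x' hx' y' hy' 1 (Subgroup.one_mem _)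
      rwa [one_mul] at this
    · intro g hg
      exact PH.min_tight hG hF hT (fun k hk => hmin x hx y hy k hk) hg
  have hrf : Commute r f := (hr r).2 (Subgroup.mem_zpowers r)
  have V := rot_of_pow (H := H) hF hT hn hf hrf hfr hk1 hn1
  have hrf' : Commute (t * r * t⁻¹) (t * f * t⁻¹) := by
    change t * r * t⁻¹ * (t * f * t⁻¹) = t * f * t⁻¹ * (t * r * t⁻¹)
    have e1 : t * r * t⁻¹ * (t * f * t⁻¹) = t * (r * f) * t⁻¹ := by group
    have e2 : t * f * t⁻¹ * (t * r * t⁻¹) = t * (f * r) * t⁻¹ := by group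
    rw [e1, e2, hrf.eq]
  have hfr' : t * f * t⁻¹ = (t * r * t⁻¹) ^ n := by rw [conj_pow, hfr]
  have V' := rot_of_pow (H := H) hF hT hn hf' hrf' hfr' hk2 hn2
  have e2 : (t * r * t⁻¹) ^ k2 = t * r ^ k2 * t⁻¹ := conj_zpow
  rw [e2, H.Tconj f (hF.sub hf)] at V'
  have hn0 : (0 : ℝ) < n := by
    have : (3 : ℝ) ≤ n := by exact_mod_cast hn
    linarith
  set P := r ^ k1 with hP
  set Q := t * r ^ k2 * t⁻¹ with hQd
  rcases hlong with hl | hl
  · refine main1 hCHB hM1 hS hA hR hc hQ W V V' ?_ hU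
    rw [le_div_iff₀ hn0]; exact hl
  · have hl' : 100 * (Δ : ℝ) ≤ |(k2 : ℝ)| * H.T f / n := by rw [le_div_iff₀ hn0]; exact hl
    rcases hU with hU | hU
    · obtain ⟨h1, h2⟩ := main1 hCHB hM1 hS hA hR hc hQ (W.symm hG hF) V' V hl' (U := Q * P)
        (Or.inl rfl)
      have e : U = P * (Q * P) * P⁻¹ := by rw [hU]; group
      constructor
      · rw [e, conj_pow]
        intro h
        apply h1
        rw [mul_inv_eq_one] at h
        exact mul_eq_left.1 h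
      · rw [e, map_mul, map_mul π P, map_inv, conj_pow]
        intro h
        apply h2
        rw [mul_inv_eq_one] at h
        exact mul_eq_left.1 h
    · obtain ⟨h1, h2⟩ := main1 hCHB hM1 hS hA hR hc hQ (W.symm hG hF) V' V hl'
        (U := Q * P * Q⁻¹ * P⁻¹) (Or.inr rfl)
      have e : U = (Q * P * Q⁻¹ * P⁻¹)⁻¹ := by rw [hU]; group
      constructor
      · rw [e, inv_pow]
        exact inv_ne_one.2 h1
      · rw [e, map_inv, inv_pow]
        exact inv_ne_one.2 h2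

end Pool.Agent.Helper74.TB
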