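import Pool.Agent.Helper74.TB.KG
import Pool.Agent.Helper74.TB.KA
import Pool.Agent.Helper74.TB.KB
import Pool.Agent.Helper74.TB.KC
import Pool.Agent.Helper74.TB.KD
import Pool.Agent.Helper74.TB.KE
import Pool.Agent.Helper74.TB.KF
import Pool.Agent.Helper74.TB.KW

/-! MP_7d16da_al, Part K. -/

set_option autoImplicit false

namespace Pool.Agent.Helper74.TB

/-- Part K. -/
theorem stK : StC → StV → StDig → StCh → StE → StLen → StCount → StTR → StCHB → StK := by
  intro _ _ hDig _ hE hLen hCo hTR hCHB
  have hB : StKB := stKB hCHB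
  exact stK_of_w (stKGw_of_al stKA (stKC hE hLen hCo hB)
    (stKal_of hB stKW (stKD hTR hDig) stKE stKF))

end Pool.Agent.Helper74.TB
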