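import Pool.Agent.Helper74.TB.H

/-!
MP_7d16da_al, Part H2: the step theorem.
See /team-store/MP_7d16da-plan.md.
-/

set_option autoImplicit false

namespace Pool.Agent.Helper74.TB

open Pool.Agent.Helper74.MH

namespace PStep

/-- torsion elements do not satisfy the second alternative of `Stage.tor` -/
theorem not_free {G : Type} [Group G] {d : G → G → ℕ} {δ q : ℕ} (hG : HypG d δ) {a : G} {m : ℕ}
    (hm : 0 < m) (ha : a ^ m = 1) : ¬ ∀ (x : G) (k : ℕ), k ≤ q * d x (a ^ k * x) := by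
  intro h
  have h1 := h 1 m
  rw [ha, one_mul, (hG.path.zero_iff 1 1).2 rfl] at h1
  omega

/-- elements commuting with nontrivial torsion elements are torsion -/
theorem comm_tor {G : Type} [Group G] {d : G → G → ℕ} {δ n q A L : ℕ}
    (hS : Stage d δ n q A L) (hn : 3 ≤ n) {g x : G} (hg : g ^ n = 1) (hg1 : g ≠ 1)
    (hx : Commute x g) : x ^ n = 1 := by
  obtain ⟨c, hc⟩ := hS.cyc g hg hg1
  obtain ⟨i, hi⟩ := Subgroup.mem_zpowers_iff.1 (hc x hx)
  obtain ⟨j, hj⟩ := Subgroup.mem_zpowers_iff.1 (hc g (Commute.refl g))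
  have hj0 : j ≠ 0 := by
    intro h0
    rw [h0, zpow_zero] at hj
    exact hg1 hj.symm
  have h1 : x ^ (n * j.natAbs) = 1 := by
    have h2 : x ^ ((n : ℤ) * j) = 1 := by
      have e : x ^ ((n : ℤ) * j) = (g ^ n) ^ i := by
        rw [← hi, ← hj, ← zpow_natCast, ← zpow_mul, ← zpow_mul, ← zpow_mul]
        congr 1
        ring
      rw [e, hg, one_zpow]
    have h3 : x ^ (((n * j.natAbs : ℕ)) : ℤ) = 1 := by
      push_cast
      rcases abs_choice j with e | e
      · rw [e]; exact h2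
      · rw [e, mul_neg, zpow_neg, h2, inv_one]
    rwa [zpow_natCast] at h3
  have hpos : 0 < n * j.natAbs := Nat.mul_pos (by omega) (Int.natAbs_pos.2 hj0)
  rcases hS.tor x with h4 | h4
  · exact h4
  · exact absurd h4 (not_free hS.toHypG hpos h1)

end PStep

open PStep

/-- Part H2: the step theorem. -/
theorem stStep : StE → StF → StG → StH → StStep := by
  intro hE ⟨M1, hF⟩ hG hH
  refine ⟨M1, ?_⟩
  intro C L hC hL
  obtain ⟨T0, hG⟩ := hG C L hC hL
  refine ⟨T0, ?_⟩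
  intro G G' _ _ d d' Δ R n q Ax L1 F H Tm π hS hA hR hc2 hQ hT0
  have hE1 := (hE G G' d d' 2000 C Δ R _ F H (100 * Δ) Tm π hS.toHypG hR.toFam hc2.cst hQ).1
  have hF1 := hF G G' d d' 2000 C Δ R n q _ L Ax L1 F H Tm π hS hA hR hc2 hQ
  obtain ⟨hG1, hG2⟩ := hG G G' d d' Δ R n q _ Ax L1 M1 F H Tm π hS hA hR hc2 hQ hT0
  have hH1 := hH G G' d d' 2000 C Δ R n q _ L Ax L1 M1 F H Tm π hS hA hR hc2 hQ
  have hn := hc2.hn
  have hπF : ∀ f ∈ F, π f = 1 := fun f hf => (hQ.ker f).2 (Subgroup.subset_closure hf)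
  have hT : 1000 * (Δ : ℝ) ≤ Tm := by
    have h1 : 1000 * (Δ : ℝ) ≤ R := by exact_mod_cast hc2.cst.hR
    have h2 := hc2.cst.hT
    have h3 : (0 : ℝ) ≤ R := Nat.cast_nonneg R
    linarith
  -- classification of torsion
  have hcl : ∀ a : G', a ^ n = 1 → (∃ g, g ^ n = 1 ∧ π g = a) ∨
      (∃ f ∈ F, ∃ y, Commute y f ∧ π y = a) := by
    intro a ha
    rcases hF1 a with h | h | h
    · exact Or.inl h
    · exact Or.inr h
    · exact absurd h (not_free hE1 (by omega) ha)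
  have hcm : ∀ f ∈ F, ∀ t : G, (f = t * f * t⁻¹ ∨ f = t * f⁻¹ * t⁻¹) → Commute t f := by
    intro f hf t h
    have hfn := PH.pow_n_ne hR.toFam hT hn hf
    rcases h with h | h
    · exact mul_inv_eq_iff_eq_mul.1 h.symm
    · refine hA.ninv f t (-1) 1 hfn (by norm_num) ?_
      rw [zpow_one, zpow_neg_one]
      exact h.symm
  refine { toHypG := hE1, tor := ?_, acyl := hG1, acylt := hG2, cyc := ?_, mal := ?_ }
  · intro a
    rcases hF1 a with ⟨g, hg, rfl⟩ | ⟨f, hf, y, hy, rfl⟩ | h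
    · left
      rw [← map_pow, hg, map_one]
    · left
      obtain ⟨m, hm⟩ := hR.cent f hf y hy
      rw [← map_pow, hm, map_zpow, hπF f hf, one_zpow]
    · exact Or.inr h
  · intro a ha ha1
    rcases hcl a ha with ⟨g, hg, rfl⟩ | ⟨f, hf, y, hy, rfl⟩
    · have hg1 : g ≠ 1 := fun e => ha1 (by rw [e, map_one])
      obtain ⟨c, hc⟩ := hS.cyc g hg hg1
      refine ⟨π c, ?_⟩
      intro x hx
      obtain ⟨t, rfl, e⟩ := hH1.t11 g g hg hg x (eq_mul_inv_of_mul_eq hx.eq.symm)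
      obtain ⟨k, hk⟩ := Subgroup.mem_zpowers_iff.1 (hc t (mul_inv_eq_iff_eq_mul.1 e.symm))
      exact Subgroup.mem_zpowers_iff.2 ⟨k, by rw [← hk, map_zpow]⟩
    · have hfn := PH.pow_n_ne hR.toFam hT hn hf
      obtain ⟨r, hr⟩ := hA.cent f hfn
      refine ⟨π r, ?_⟩
      intro x hx
      obtain ⟨t, rfl, e⟩ := hH1.t22 f hf f hf y y hy hy ha1 x
        (eq_mul_inv_of_mul_eq hx.eq.symm)
      obtain ⟨k, hk⟩ := Subgroup.mem_zpowers_iff.1 ((hr t).1 (hcm f hf t e))
      exact Subgroup.mem_zpowers_iff.2 ⟨k, by rw [← hk, map_zpow]⟩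
  · intro a x t ha ha1 hx1 hx htx
    rcases hcl a ha with ⟨g, hg, rfl⟩ | ⟨f, hf, y, hy, rfl⟩
    · have hg1 : g ≠ 1 := fun e => ha1 (by rw [e, map_one])
      obtain ⟨x1, hx1e, e1⟩ := hH1.t11 g g hg hg x (eq_mul_inv_of_mul_eq hx.eq.symm)
      obtain ⟨z, hze, e2⟩ := hH1.t11 g g hg hg _ (eq_mul_inv_of_mul_eq htx.eq.symm)
      have c1 : Commute x1 g := mul_inv_eq_iff_eq_mul.1 e1.symm
      have c2 : Commute z g := mul_inv_eq_iff_eq_mul.1 e2.symm
      have n1 := comm_tor hS hn hg hg1 c1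
      have n2 := comm_tor hS hn hg hg1 c2
      obtain ⟨t0, ht0, e3⟩ := hH1.t11 z x1 n2 n1 t (by rw [hze, hx1e])
      have hx10 : x1 ≠ 1 := by
        intro e
        apply hx1
        rw [← hx1e, e, map_one]
      rw [e3] at c2
      have c3 := hS.mal g x1 t0 hg hg1 hx10 c1 c2
      rw [← ht0]
      exact c3.map π
    · have hfn := PH.pow_n_ne hR.toFam hT hn hf
      obtain ⟨r, hr⟩ := hA.cent f hfn
      obtain ⟨x1, hx1e, e1⟩ := hH1.t22 f hf f hf y y hy hy ha1 x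
        (eq_mul_inv_of_mul_eq hx.eq.symm)
      obtain ⟨z, hze, e2⟩ := hH1.t22 f hf f hf y y hy hy ha1 _
        (eq_mul_inv_of_mul_eq htx.eq.symm)
      have c1 := hcm f hf x1 e1
      have c2 := hcm f hf z e2
      have hz1 : π z ≠ 1 := by
        intro e
        apply hx1
        rw [hze] at e
        have := mul_inv_eq_one.1 e
        exact mul_eq_left.1 this
      obtain ⟨t0, ht0, e3⟩ := hH1.t22 f hf f hf z x1 c2 c1 hz1 t (by rw [hze, hx1e])
      have c3 := hcm f hf t0 e3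
      obtain ⟨i, hi⟩ := Subgroup.mem_zpowers_iff.1 ((hr t0).1 c3)
      obtain ⟨j, hj⟩ := Subgroup.mem_zpowers_iff.1 ((hr y).1 hy)
      have c4 : Commute t0 y := by
        rw [← hi, ← hj]
        exact Commute.zpow_zpow_self r i j
      rw [← ht0]
      exact c4.map π

end Pool.Agent.Helper74.TB
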