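import Pool.Agent.Helper74.TB.F0

/-! MP_7d16da_al: Part F1, translation length of elements with tight axis. -/

set_option autoImplicit false

namespace Pool.Agent.Helper74.TB

open Pool.Agent.Helper74.MH

section
variable {G : Type*} [Group G] {d : G → G → ℕ} {δ C Δ : ℕ} {X F : Set G} {Tm : ℝ}

theorem exists_nearest_TL (γ : ℕ → G) (N : ℕ) (a : G) :
    ∃ i ≤ N, ∀ t ≤ N, d a (γ i) ≤ d a (γ t) := by
  obtain ⟨i, hi, h⟩ := Finset.exists_min_image (Finset.range (N + 1)) (fun t => d a (γ t))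
    ⟨0, by simp⟩
  refine ⟨i, by simpa [Nat.lt_succ_iff] using hi, fun t ht => h t ?_⟩
  simpa [Nat.lt_succ_iff] using ht

/-- a point which is nearly between two points near a hub is near the hub -/
theorem near_hub_TL (hG : HypG d δ) (H : Hubs d X C) (hC : 100 * δ ≤ C) {f : G} (hf : f ∈ X)
    {a b p : G} (ha : Nh d (20 * C) (H.Z f) a) (hb : Nh d (20 * C) (H.Z f) b)
    (hp : d a p + d p b ≤ d a b + 20 * δ) : Nh d (23 * C) (H.Z f) p := by
  obtain ⟨η, hη0, hη1, hη⟩ := exists_geo hG.path a b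
  have h1 := hb_pt hG hη (z := p) (e := 20 * δ) (by rw [hη0, hη1]; exact hp)
  set s := min (d (η 0) p) (d a b) with hs
  have hsN : s ≤ d a b := min_le_right _ _
  have h2 := hb_btw hG hη (Nat.zero_le s) hsN le_rfl
  rw [hη0, hη1] at h2
  obtain ⟨z, hz, hdz⟩ := hl_qc hG H hC hf ha hb h2
  refine ⟨z, hz, ?_⟩
  have h3 := hG.path.tri p (η s) z
  rw [hG.path.symm p (η s)] at h3
  omega

end

theorem step_TL {G : Type} [Group G] {d : G → G → ℕ} {δ C Δ n q A L Ax L1 R : ℕ} {F : Set G}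
    {H : Hubs d (Lx d (100 * C)) C} {Tm : ℝ} (hF0 : StF0) (hS : Stage d δ n q A L)
    (hA : Alg H n q L Ax) (hR : Rels H F n L1 Δ Tm) (hC : 100 * δ ≤ C) (hodd : Odd n)
    (hn : 3 ≤ n) (hRΔ : Δ ≤ R) {g : G} (hg : g ∈ Lx d (100 * C))
    (hgf : ∀ f ∈ F, ¬ Commute g f) {N : ℕ} {γ : ℕ → G} (hγ : IsGeo d N γ) (h0 : γ 0 ∈ H.Z g)
    (hN : γ N ∈ H.Z g) {a b : G} {i j : ℕ} (hi : i ≤ N) (hj : j ≤ N)
    (ha : ∀ t ≤ N, d a (γ i) ≤ d a (γ t)) (hb : ∀ t ≤ N, d b (γ j) ≤ d b (γ t))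
    (hab : Adj H F R a b) : (d (γ i) (γ j) : ℝ) ≤ R + H.T g + 2 * Δ := by
  have hG : HypG d δ := hS.toHypG
  have hF : Fam H F Δ Tm := hR.toFam
  have hC1 : 1 ≤ C := hF.hC1
  have hΔ := hF.hC
  have hCr : (1 : ℝ) ≤ C := by exact_mod_cast hC1
  have hΔr : 1000 * (C : ℝ) ≤ Δ := by exact_mod_cast hΔ
  have hRr : (0 : ℝ) ≤ R := Nat.cast_nonneg _
  have hδr : 100 * (δ : ℝ) ≤ C := by exact_mod_cast hC
  have hTg := hl_Tpos H hg
  rcases hb_proj hG hγ hi hj ha hb with h | h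
  · have h' : (d (γ i) (γ j) : ℝ) ≤ 20 * δ := by exact_mod_cast h
    linarith
  · rcases hab with h1 | ⟨f, hf, h1, h2⟩
    · have h' : d (γ i) (γ j) ≤ R + 20 * δ := by omega
      have h'' : (d (γ i) (γ j) : ℝ) ≤ R + 20 * δ := by exact_mod_cast h'
      linarith
    · have hfX := hF.sub hf
      have hs := hG.path.symm (γ j) b
      have t1 := hG.path.tri (γ i) (γ j) b
      have t2 := hG.path.tri a (γ i) (γ j)
      have n1 : Nh d (23 * C) (H.Z f) (γ i) := near_hub_TL hG H hC hfX h1 h2 (by omega)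
      have n2 : Nh d (23 * C) (H.Z f) (γ j) := near_hub_TL hG H hC hfX h1 h2 (by omega)
      have h3 := hl_near hG H hfX n1 n2
      obtain ⟨w, hw, hdw⟩ := ax_near hG H hg hγ h0 hN hi
      obtain ⟨w', hw', hdw'⟩ := ax_near hG H hg hγ h0 hN hj
      have h4 := hF0 G d δ C Δ n q A L Ax L1 F H Tm hS hA hR hC hodd hn g hg f hf (hgf f hf) w hw
        w' hw'
      have h5 := hl_lip2 hG H hfX (γ i) (γ j) w w'
      have h6 := abs_sub_abs_le_abs_sub (H.Φ f (γ i) (γ j)) (H.Φ f w w')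
      have h7 : (d (γ i) w : ℝ) ≤ C := by exact_mod_cast hdw
      have h8 : (d (γ j) w' : ℝ) ≤ C := by exact_mod_cast hdw'
      push_cast at h3
      linarith

/-- lower bound for the electric length along an axis -/
theorem de_lower_TL {G : Type} [Group G] {d : G → G → ℕ} {δ C Δ n q A L Ax L1 R : ℕ} {F : Set G}
    {H : Hubs d (Lx d (100 * C)) C} {Tm : ℝ} (hF0 : StF0) (hS : Stage d δ n q A L)
    (hA : Alg H n q L Ax) (hR : Rels H F n L1 Δ Tm) (hC : 100 * δ ≤ C) (hodd : Odd n)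
    (hn : 3 ≤ n) (hRΔ : Δ ≤ R) {g : G} (hg : g ∈ Lx d (100 * C))
    (hgf : ∀ f ∈ F, ¬ Commute g f) {x y : G} (hx : x ∈ H.Z g) (hy : y ∈ H.Z g) {N : ℕ}
    (h : DE H F R N x y) : (d x y : ℝ) ≤ N * (R + H.T g + 2 * Δ) := by
  have hG : HypG d δ := hS.toHypG
  obtain ⟨γ, hγ0, hγ1, hγ⟩ := exists_geo hG.path x y
  obtain ⟨p, hp0, hpN, hp⟩ := h
  choose tt htt hmin using exists_nearest_TL (d := d) γ (d x y)
  have h0Z : γ 0 ∈ H.Z g := by rw [hγ0]; exact hx
  have hNZ : γ (d x y) ∈ H.Z g := by rw [hγ1]; exact hy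
  have e0 : γ (tt (p 0)) = x := by
    have h1 := hmin (p 0) 0 (Nat.zero_le _)
    rw [hγ0, hp0, hb_self hG] at h1
    have h2 := (hG.path.zero_iff _ _).1 (Nat.le_zero.1 h1)
    rw [hp0]
    exact h2.symm
  have eN : γ (tt (p N)) = y := by
    have h1 := hmin (p N) (d x y) le_rfl
    rw [hγ1, hpN, hb_self hG] at h1
    have h2 := (hG.path.zero_iff _ _).1 (Nat.le_zero.1 h1)
    rw [hpN]
    exact h2.symm
  have key : ∀ j ≤ N, (d (γ (tt (p 0))) (γ (tt (p j))) : ℝ) ≤ j * (R + H.T g + 2 * Δ) := by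
    intro j
    induction j with
    | zero =>
      intro _
      rw [hb_self hG]
      simp
    | succ j ih =>
      intro hj
      have h1 := ih (by omega)
      have h2 := step_TL hF0 hS hA hR hC hodd hn hRΔ hg hgf hγ h0Z hNZ (htt (p j))
        (htt (p (j + 1))) (hmin (p j)) (hmin (p (j + 1))) (hp j (by omega))
      have h3 : (d (γ (tt (p 0))) (γ (tt (p (j + 1)))) : ℝ) ≤
          d (γ (tt (p 0))) (γ (tt (p j))) + d (γ (tt (p j))) (γ (tt (p (j + 1)))) := by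
        exact_mod_cast hG.path.tri _ _ _
      push_cast
      linarith
  have h1 := key N le_rfl
  rw [e0, eN] at h1
  exact h1

/-- the weights `T / 2` -/
theorem tl_wt_half {G : Type*} [Group G] {d : G → G → ℕ} {C Δ : ℕ} {X F : Set G} {Tm : ℝ}
    {H : Hubs d X C} (hF : Fam H F Δ Tm) : Wt H F (fun f => H.T f / 2) where
  conj := fun f hf g => by
    show H.T _ / 2 = H.T f / 2
    rw [H.Tconj f (hF.sub hf)]
  add := fun f hf => by
    show H.T f / 2 + H.T f⁻¹ / 2 = H.T f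
    rw [H.Tinv f (hF.sub hf)]
    ring
  ge := fun f hf => by
    have := hl_Tpos H (hF.sub hf)
    show H.T f ≤ 3 * (H.T f / 2)
    linarith

theorem pow_dist_TL {G' : Type*} [Group G'] {d' : G' → G' → ℕ} (hp : IsPathMetric d')
    (hi : ∀ g x y, d' (g * x) (g * y) = d' x y) (a h : G') (k : ℕ) :
    d' a (h ^ k * a) ≤ k * d' a (h * a) := by
  induction k with
  | zero =>
    rw [pow_zero, one_mul, zero_mul]
    exact le_of_eq ((hp.zero_iff a a).2 rfl)
  | succ k ih =>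
    have h1 := hp.tri a (h * a) (h ^ (k + 1) * a)
    have h2 : d' (h * a) (h ^ (k + 1) * a) = d' a (h ^ k * a) := by
      rw [pow_succ', mul_assoc, hi]
    rw [h2] at h1
    linarith

/-- from all multiples to one -/
theorem div_TL {x y z : ℕ} (h : ∀ k : ℕ, k * x ≤ z + k * y) : x ≤ y := by
  by_contra hcon
  have h1 := h (z + 1)
  have h2 : y + 1 ≤ x := by omega
  have h3 : (z + 1) * (y + 1) ≤ (z + 1) * x := Nat.mul_le_mul_left _ h2
  have h4 : (z + 1) * (y + 1) = (z + 1) * y + (z + 1) := by ring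
  omega

/-- the final inequality -/
theorem ineq_TL {T W R Δ l m : ℝ} (hW : 0 ≤ W) (hΔ : 1000 * Δ ≤ R) (hΔ0 : 0 ≤ Δ) (hm : 0 ≤ m)
    (hT : 0 < T) (hl0 : 0 ≤ l) (hl : l ≤ R) (hlT : l ≤ 2 * T) (h : m * T ≤ W * (R + T + 2 * Δ)) :
    l * m ≤ 5 * R * W := by
  have hR0 : 0 ≤ R := le_trans hl0 hl
  have hRW : 0 ≤ R * W := mul_nonneg hR0 hW
  rcases le_total T R with h1 | h1
  · have h2 : W * (R + T + 2 * Δ) ≤ W * (R * (201 / 100)) := by
      apply mul_le_mul_of_nonneg_left _ hW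
      linarith
    have h3 : l * m ≤ 2 * T * m := mul_le_mul_of_nonneg_right hlT hm
    nlinarith
  · have h2 : W * (R + T + 2 * Δ) ≤ W * (T * (201 / 100)) := by
      apply mul_le_mul_of_nonneg_left _ hW
      linarith
    have h3 : m * T ≤ W * (201 / 100) * T := by nlinarith
    have h4 : m ≤ W * (201 / 100) := le_of_mul_le_mul_right h3 hT
    have h5 : l * m ≤ R * m := mul_le_mul_of_nonneg_right hl hm
    have h6 : R * m ≤ R * (W * (201 / 100)) := mul_le_mul_of_nonneg_left h4 hR0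
    nlinarith

theorem stTL (hF0 : StF0) (hLen : StLen) : StTL := by
  obtain ⟨M1, hM1⟩ := hLen
  refine ⟨M1, ?_⟩
  intro G G' _ _ d d' δ C Δ R n q A L Ax L1 F H c Tm π hS hA hR hK hQ hc hcT g hg hgf l hlR hlT
    htight a m
  have hG : HypG d δ := hS.toHypG
  have hF : Fam H F Δ Tm := hR.toFam
  have hcst := hK.cst
  have hC := hcst.hC
  have hRΔ := hcst.hR
  have hCst : Cst δ C Δ R c Tm :=
    ⟨hcst.hδ, hC, hcst.hΔ, hRΔ, hc, by linarith, hcst.hT⟩
  have hC1 : 1 ≤ C := hF.hC1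
  have hCr : (1 : ℝ) ≤ C := by exact_mod_cast hC1
  have hTg : 0 < H.T g := by
    have := H.Tbig g hg
    linarith
  have hTm0 : 0 ≤ Tm := by
    have h1 := hcst.hT
    have h2 : (0 : ℝ) ≤ R := Nat.cast_nonneg _
    linarith
  set x := H.pr g 1 with hxdef
  have hx : x ∈ H.Z g := H.pr_mem g hg 1
  set E := d' a (π x) with hE
  set D := d' a (π g ^ m * a) with hD
  have main : ∀ k : ℕ, k * (l * m) ≤ 5 * R * M1 * (2 * E + 1) + k * (5 * R * M1 * D) := by
    intro k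
    set y := g ^ (k * m) * x with hy
    have hyZ : y ∈ H.Z g := by
      have := (hl_Zpow H hg x ((k * m : ℕ) : ℤ)).2 hx
      rwa [zpow_natCast] at this
    have hD1 : d' (π x) (π y) ≤ 2 * E + k * D := by
      have h1 : π y = (π g ^ m) ^ k * π x := by
        rw [hy, map_mul, map_pow, ← pow_mul, mul_comm k m]
      have h2 := pow_dist_TL hQ.path hQ.inv a (π g ^ m) k
      have h3 := hQ.path.tri (π x) a (π y)
      have h4 := hQ.path.tri a ((π g ^ m) ^ k * a) (π y)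
      have h5 : d' ((π g ^ m) ^ k * a) (π y) = E := by rw [h1, hQ.inv]
      have h6 : d' (π x) a = E := hQ.path.symm _ _
      rw [h5] at h4
      rw [h6] at h3
      linarith
    have hDE := hM1 G G' d d' δ C Δ R (Lx d (100 * C)) F H c Tm π hG hF hCst hcT hQ hK.hM
      (fun f => H.T f / 2) (tl_wt_half hF) (fun f hf => by
        show |H.T f / 2 - H.T f / 2| ≤ Tm / 10
        rw [sub_self, abs_zero]; linarith) x y (htight x hx (k * m)) _ hD1
    have h1 := de_lower_TL hF0 hS hA hR hC hK.odd hK.hn (by omega) hg hgf hx hyZ hDE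
    have h2 := hl_zpow H hg x ((k * m : ℕ) : ℤ)
    rw [zpow_natCast] at h2
    have h3 := H.lip g hg x y
    have h4 : ((k * m : ℕ) : ℝ) * H.T g ≤ d x y := by
      have h5 := le_abs_self (H.Φ g x y)
      have h6 : (((k * m : ℕ) : ℤ) : ℝ) = ((k * m : ℕ) : ℝ) := by push_cast; ring
      rw [h6] at h2
      linarith
    have h5 := ineq_TL (T := H.T g) (W := ((M1 * (2 * E + k * D + 1) : ℕ) : ℝ)) (R := R) (Δ := Δ)
      (l := l) (m := ((k * m : ℕ) : ℝ)) (Nat.cast_nonneg _) (by exact_mod_cast hRΔ)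
      (Nat.cast_nonneg _) (Nat.cast_nonneg _) hTg (Nat.cast_nonneg _) (by exact_mod_cast hlR) hlT
      (by linarith)
    have h6 : l * (k * m) ≤ 5 * R * (M1 * (2 * E + k * D + 1)) := by exact_mod_cast h5
    calc k * (l * m) = l * (k * m) := by ring
      _ ≤ 5 * R * (M1 * (2 * E + k * D + 1)) := h6
      _ = _ := by ring
  have h1 := div_TL main
  calc l * m ≤ 5 * R * M1 * D := h1
    _ ≤ 10 * R * M1 * D := by
      apply Nat.mul_le_mul_right
      apply Nat.mul_le_mul_right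
      apply Nat.mul_le_mul_right
      norm_num

end Pool.Agent.Helper74.TB
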