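import Pool.Agent.Helper74.TB.StJK

/-! MP_7d16da_al, Part TR: transfer of a tight geodesic to a tight geodesic with close ends. -/

set_option autoImplicit false

namespace Pool.Agent.Helper74.TB

open Pool.Agent.Helper74.MH

namespace TR

section
variable {G G' : Type*} [Group G] [Group G'] {d : G → G → ℕ} {d' : G' → G' → ℕ}
  {δ C Δ R : ℕ} {X F : Set G} {H : Hubs d X C} {Tm : ℝ} {π : G →* G'}

omit [Group G] in
theorem nh_mono {r r' : ℕ} (hr : r ≤ r') {S : Set G} {x : G} (h : Nh d r S x) : Nh d r' S x := by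
  obtain ⟨z, hz, hd⟩ := h
  exact ⟨z, hz, hd.trans hr⟩

theorem nh_move (hG : HypG d δ) {r s : ℕ} {S : Set G} {x y : G} (h : Nh d r S y)
    (hxy : d x y ≤ s) : Nh d (r + s) S x := by
  obtain ⟨z, hz, hd⟩ := h
  refine ⟨z, hz, ?_⟩
  have := hG.path.tri x y z
  omega

theorem q_le_of_adj (hQ : Quo H F R π d') {x y : G} (h : Adj H F R x y) :
    d' (π x) (π y) ≤ 1 := (hQ.adj _ _).2 ⟨x, y, rfl, rfl, h⟩

theorem q_ker (hQ : Quo H F R π d') {k : G} (hk : k ∈ Subgroup.closure F) (y : G) :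
    π (k * y) = π y := by
  rw [map_mul, (hQ.ker k).2 hk, one_mul]

theorem q_le_of_adjK (hQ : Quo H F R π d') {x y : G} (h : AdjK H F R x y) :
    d' (π x) (π y) ≤ 1 := by
  obtain ⟨k, hk, h⟩ := h
  rw [← q_ker hQ hk y]
  exact q_le_of_adj hQ h

/-- translates of tight pairs -/
theorem tight_smul (hF : Fam H F Δ Tm) {b : G → ℝ} (hW : Wt H F b) {c : ℝ} {x y : G}
    (h : Tight H F b c x y) (g : G) : Tight H F b (c + C) (g * x) (g * y) := by
  intro f hf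
  have hf' : g⁻¹ * f * g⁻¹⁻¹ ∈ F := hF.conj f hf g⁻¹
  have h1 := h _ hf'
  rw [hW.conj f hf g⁻¹] at h1
  have h2 := H.equi f (hF.sub hf) g⁻¹ (g * x) (g * y)
  rw [inv_mul_cancel_left, inv_mul_cancel_left] at h2
  have h3 := (abs_le.1 h2).1
  linarith

/-- the quadrilateral with a link -/
theorem side (hG : HypG d δ) (hC : 100 * δ ≤ C) (hFX : F ⊆ X) (hR : 8 * δ ≤ R)
    {n M m : ℕ} {α σ β : ℕ → G} (hα : IsGeo d n α) (hσ : IsGeo d M σ) (hβ : IsGeo d m β)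
    (h0 : α 0 = σ 0) (h1 : σ M = β 0)
    (hl : α n = β m ∨ ∃ f ∈ F, Nh d (7 * C) (H.Z f) (α n) ∧ Nh d (7 * C) (H.Z f) (β m))
    {t : ℕ} (ht : t ≤ n) :
    (∃ s ≤ M, d (α t) (σ s) ≤ 8 * δ) ∨ ∃ s ≤ m, Adj H F R (α t) (β s) := by
  obtain ⟨ζ, hζ0, hζ1, hζ⟩ := exists_geo hG.path (β m) (α n)
  rcases hb_quad hG hα hσ hβ hζ h0 h1 hζ0.symm hζ1.symm ht with
    ⟨s, hs, hd⟩ | ⟨s, hs, hd⟩ | ⟨s, hs, hd⟩
  · left; exact ⟨s, hs, hd⟩
  · right; exact ⟨s, hs, Or.inl (hd.trans hR)⟩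
  · right
    refine ⟨m, le_rfl, ?_⟩
    rcases hl with hl | ⟨f, hf, ha, hb⟩
    · left
      have h3 : d (β m) (α n) = 0 := by rw [hl]; exact hb_self hG _
      have h4 : s = 0 := by omega
      rw [h4, hζ0] at hd
      exact hd.trans hR
    · right
      have hbt := hb_btw hG hζ (Nat.zero_le s) hs le_rfl
      rw [hζ0, hζ1] at hbt
      have h2 := hl_qc hG H hC (hFX hf) hb ha hbt
      exact ⟨f, hf, nh_mono (by omega) (nh_move hG h2 hd), nh_mono (by omega) hb⟩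

/-- the image of a tight geodesic with close image ends -/
theorem img {G G' : Type} [Group G] [Group G'] {d : G → G → ℕ} {d' : G' → G' → ℕ}
    {δ C Δ R : ℕ} {X F : Set G} {H : Hubs d X C} {Tm : ℝ} {π : G →* G'}
    (hE : StE) (hG : HypG d δ) (hF : Fam H F Δ Tm) {c : ℝ} (hc : Cst δ C Δ R c Tm)
    (hQ : Quo H F R π d') {b : G → ℝ} (hW : Wt H F b)
    (hb : ∀ f ∈ F, |b f - H.T f / 2| ≤ Tm / 10) {N : ℕ} {γ : ℕ → G} (hγ : IsGeo d N γ)
    (ht : Tight H F b c (γ 0) (γ N)) {E : ℕ} (hd : d' (π (γ 0)) (π (γ N)) ≤ E) {t : ℕ}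
    (htN : t ≤ N) : d' (π (γ t)) (π (γ 0)) ≤ E + 150 ∧ d' (π (γ t)) (π (γ N)) ≤ E + 150 := by
  obtain ⟨η, h0, h1, hη⟩ := exists_geo hQ.path (π (γ 0)) (π (γ N))
  obtain ⟨s, hs, hds⟩ := ((hE G G' d d' δ C Δ R X F H c Tm π hG hF hc hQ).2 b hW hb N γ hγ ht
    _ η hη h0 h1).1 t htN
  have e1 := hη 0 s (Nat.zero_le _) hs
  have e2 := hη s _ hs le_rfl
  rw [h0] at e1
  rw [h1] at e2
  have s1 := hQ.path.symm (η s) (π (γ t))
  have s2 := hQ.path.symm (η s) (π (γ 0))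
  have t1 := hQ.path.tri (π (γ t)) (η s) (π (γ 0))
  have t2 := hQ.path.tri (π (γ t)) (η s) (π (γ N))
  constructor <;> omega

end

end TR

open TR in
theorem stTR : StV → StE → StTR := by
  intro hV hE G G' _ _ d d' δ C Δ R X F H b c Tm π hG hF hc0 hcst hQ hW hb E hEx N1 N2 γ1 γ2
    hγ1 hγ2 ht1 ht2 hd0 hd1
  have hCR : (C : ℝ) ≤ Δ := by
    have := hcst.hΔ
    have h2 : C ≤ Δ := by omega
    exact_mod_cast h2
  have hΔ0 : (0 : ℝ) ≤ Δ := Nat.cast_nonneg _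
  have hCcast : (0 : ℝ) ≤ C := Nat.cast_nonneg _
  have cst : ∀ c' : ℝ, 0 ≤ c' → c' ≤ c + 10 * Δ → Cst δ C Δ R c' Tm := fun c' h1 h2 =>
    ⟨hcst.hδ, hcst.hC, hcst.hΔ, hcst.hR, h1, by have := hcst.hcT; linarith, hcst.hT⟩
  have hR8 : 8 * δ ≤ R := by
    have h1 := hcst.hC
    have h2 := hcst.hΔ
    have h3 := hcst.hR
    omega
  have hFX := hF.sub
  -- Step 1
  obtain ⟨k, hk, htk⟩ := hEx (γ1 N1) (γ2 N2) hd1
  obtain ⟨γ', g0, g1, hγ'⟩ := exists_geo hG.path (γ1 N1) (k * γ2 N2)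
  set N' := d (γ1 N1) (k * γ2 N2) with hN'
  obtain ⟨i, hi, j, hj, k1, hk1, v1, v2, v3, -⟩ := hV G d δ C Δ R X F H b c Tm hG hF
    (cst c hc0 (by linarith)) hW N1 N' γ1 γ' hγ1 hγ' g0.symm ht1 (by rw [g0, g1]; exact htk)
  obtain ⟨σ, s0, s1, hσ⟩ := exists_geo hG.path (γ1 0) (k1 * γ' N')
  set M := d (γ1 0) (k1 * γ' N') with hM
  have im1 : ∀ t ≤ N', d' (π (γ' t)) (π (γ1 N1)) ≤ E + 150 := by
    intro t ht
    have := (img hE hG hF (cst c hc0 (by linarith)) hQ hW hb hγ' (by rw [g0, g1]; exact htk)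
      (E := E) (by rw [g0, g1, q_ker hQ hk]; exact hd1) ht).1
    rw [g0] at this
    exact this
  have cl1 : ∀ t ≤ N1, E + 3000 ≤ d' (π (γ1 t)) (π (γ1 N1)) →
      ∃ s ≤ M, d (γ1 t) (σ s) ≤ 8 * δ := by
    intro t ht hfar
    have hti : t < i := by
      by_contra hcon
      obtain ⟨t', ht', ha⟩ := v3 t (not_lt.1 hcon) ht
      have a1 := q_le_of_adjK hQ ha
      have a2 := im1 t' (ht'.trans hj)
      have a3 := hQ.path.tri (π (γ1 t)) (π (γ' t')) (π (γ1 N1))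
      omega
    have hα : IsGeo d i γ1 := fun p q hpq hq => hγ1 p q hpq (by omega)
    have hβ : IsGeo d (N' - j) (fun s => k1 * γ' (N' - s)) := by
      have h1 := hb_rev hG (hb_smul hG hγ' k1)
      intro p q hpq hq
      exact h1 p q hpq (by omega)
    have hl : γ1 i = (fun s => k1 * γ' (N' - s)) (N' - j) ∨ ∃ f ∈ F, Nh d (7 * C) (H.Z f) (γ1 i) ∧
        Nh d (7 * C) (H.Z f) ((fun s => k1 * γ' (N' - s)) (N' - j)) := by
      have e : (fun s => k1 * γ' (N' - s)) (N' - j) = k1 * γ' j := by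
        show k1 * γ' (N' - (N' - j)) = k1 * γ' j
        rw [Nat.sub_sub_self hj]
      rw [e]
      exact v2
    rcases side (R := R) (H := H) hG hcst.hC hFX hR8 hα hσ hβ s0.symm (by rw [s1, Nat.sub_zero])
      hl hti.le with h | ⟨s, hs, ha⟩
    · exact h
    · exfalso
      have a1 := q_le_of_adj hQ ha
      have a2 := im1 (N' - s) (Nat.sub_le _ _)
      have a4 : π (k1 * γ' (N' - s)) = π (γ' (N' - s)) := q_ker hQ hk1 _
      rw [a4] at a1
      have a3 := hQ.path.tri (π (γ1 t)) (π (γ' (N' - s))) (π (γ1 N1))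
      omega
  -- Step 2
  have hd0' : d' (π (γ2 0)) (π (γ1 0)) ≤ E := by rw [hQ.path.symm]; exact hd0
  obtain ⟨k', hk', htk'⟩ := hEx (γ2 0) (γ1 0) hd0'
  have hκ2 : k'⁻¹ ∈ Subgroup.closure F := inv_mem hk'
  have htk2 := tight_smul hF hW htk' k'⁻¹
  rw [inv_mul_cancel_left] at htk2
  obtain ⟨γ'', q0, q1, hγ''⟩ := exists_geo hG.path (k'⁻¹ * γ2 0) (γ1 0)
  set N'' := d (k'⁻¹ * γ2 0) (γ1 0) with hN''
  obtain ⟨i2, hi2, j2, hj2, k4, hk4, w1, w2, -, w4⟩ := hV G d δ C Δ R X F H b (c + 3 * Δ) Tm hG hF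
    (cst (c + 3 * Δ) (by linarith) (by linarith)) hW N'' M γ'' σ hγ'' hσ (by rw [q1, s0])
    (by rw [q0, q1]; exact fun f hf => (htk2 f hf).trans (by linarith))
    (by rw [s0, s1]; exact v1)
  have im2 : ∀ t ≤ N'', d' (π (γ'' t)) (π (γ1 0)) ≤ E + 150 := by
    intro t ht
    have := (img hE hG hF (cst (c + C) (by linarith) (by linarith)) hQ hW hb hγ''
      (by rw [q0, q1]; exact htk2) (E := E) (by rw [q0, q1, q_ker hQ hκ2]; exact hd0') ht).2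
    rw [q1] at this
    exact this
  obtain ⟨γ3, r0, r1, hγ3⟩ := exists_geo hG.path (γ'' 0) (k4 * σ M)
  set N3 := d (γ'' 0) (k4 * σ M) with hN3
  have cl2 : ∀ s ≤ M, E + 2000 ≤ d' (π (σ s)) (π (γ1 0)) →
      ∃ u ≤ N3, d (k4 * σ s) (γ3 u) ≤ 8 * δ := by
    intro s hs hfar
    have hsj : j2 < s := by
      by_contra hcon
      obtain ⟨t, -, ht, ha⟩ := w4 s (not_lt.1 hcon)
      have a1 := q_le_of_adjK hQ ha
      have a2 := im2 t ht
      have a3 := hQ.path.tri (π (σ s)) (π (γ'' t)) (π (γ1 0))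
      have a4 := hQ.path.symm (π (σ s)) (π (γ'' t))
      omega
    have hα : IsGeo d (M - j2) (fun t => k4 * σ (M - t)) := by
      have h1 := hb_rev hG (hb_smul hG hσ k4)
      intro p q hpq hq
      exact h1 p q hpq (by omega)
    have hβ : IsGeo d i2 γ'' := fun p q hpq hq => hγ'' p q hpq (by omega)
    have hl : (fun t => k4 * σ (M - t)) (M - j2) = γ'' i2 ∨ ∃ f ∈ F,
        Nh d (7 * C) (H.Z f) ((fun t => k4 * σ (M - t)) (M - j2)) ∧
        Nh d (7 * C) (H.Z f) (γ'' i2) := by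
      have e : (fun t => k4 * σ (M - t)) (M - j2) = k4 * σ j2 := by
        show k4 * σ (M - (M - j2)) = k4 * σ j2
        rw [Nat.sub_sub_self hj2]
      rw [e]
      rcases w2 with w2 | ⟨f, hf, hf1, hf2⟩
      · left; exact w2.symm
      · right; exact ⟨f, hf, hf2, hf1⟩
    have hN : (fun t => γ3 (N3 - t)) N3 = γ'' 0 := by
      show γ3 (N3 - N3) = γ'' 0
      rw [Nat.sub_self, r0]
    have h00 : (fun t => k4 * σ (M - t)) 0 = (fun t => γ3 (N3 - t)) 0 := by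
      show k4 * σ (M - 0) = γ3 (N3 - 0)
      rw [Nat.sub_zero, Nat.sub_zero, r1]
    rcases side (R := R) (H := H) hG hcst.hC hFX hR8 hα (hb_rev hG hγ3) hβ h00 hN hl
      (t := M - s) (by omega) with ⟨u, hu, hdu⟩ | ⟨u, hu, ha⟩
    · refine ⟨N3 - u, Nat.sub_le _ _, ?_⟩
      have hdu' : d (k4 * σ (M - (M - s))) (γ3 (N3 - u)) ≤ 8 * δ := hdu
      rw [Nat.sub_sub_self hs] at hdu'
      exact hdu'
    · exfalso
      have ha' : Adj H F R (k4 * σ (M - (M - s))) (γ'' u) := ha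
      rw [Nat.sub_sub_self hs] at ha'
      have a1 := q_le_of_adj hQ ha'
      rw [q_ker hQ hk4] at a1
      have a2 := im2 u (by omega)
      have a3 := hQ.path.tri (π (σ s)) (π (γ'' u)) (π (γ1 0))
      omega
  -- conclusion
  refine ⟨k4, hk4, k'⁻¹, hκ2, k4 * (k1 * k), mul_mem hk4 (mul_mem hk1 hk), N3, γ3, hγ3, ?_, ?_,
    ?_, ?_⟩
  · rw [r0, q0]
  · rw [r1, s1, g1, mul_assoc, mul_assoc]
  · rw [r0, r1]
    exact fun f hf => (w1 f hf).trans (by linarith)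
  · intro t ht hf0 hf1
    obtain ⟨s, hs, hds⟩ := cl1 t ht hf1
    have a1 : d' (π (γ1 t)) (π (σ s)) ≤ 1 := q_le_of_adj hQ (H := H) (Or.inl (hds.trans hR8))
    have a2 := hQ.path.tri (π (γ1 t)) (π (σ s)) (π (γ1 0))
    obtain ⟨u, hu, hdu⟩ := cl2 s hs (by omega)
    refine ⟨u, hu, ?_⟩
    have a3 := hG.path.tri (k4 * γ1 t) (k4 * σ s) (γ3 u)
    have a4 := hG.inv k4 (γ1 t) (σ s)
    have := hcst.hC
    omega

end Pool.Agent.Helper74.TB
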