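import Pool.Agent.Helper74.TB.StDE

/-!
MP_7d16da_al: Part D1, the V-lemma.
-/

set_option autoImplicit false

namespace Pool.Agent.Helper74.TB

open Pool.Agent.Helper74.MH

section

variable {G : Type*} [Group G] {d : G → G → ℕ} {δ C Δ R : ℕ} {X F : Set G} {Tm c : ℝ}

omit [Group G] in
theorem nh_mono {r r' : ℕ} (h : r ≤ r') {S : Set G} {x : G} (hx : Nh d r S x) : Nh d r' S x := by
  obtain ⟨z, hz, hd⟩ := hx
  exact ⟨z, hz, hd.trans h⟩

theorem nh_near (hG : HypG d δ) {r s : ℕ} {S : Set G} {x y : G} (hx : Nh d r S x)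
    (hxy : d y x ≤ s) : Nh d (r + s) S y := by
  obtain ⟨z, hz, hd⟩ := hx
  refine ⟨z, hz, ?_⟩
  have := hG.path.tri y x z
  omega

/-- translates by powers of `f` of points near the axis -/
theorem nh_zpow (hG : HypG d δ) (H : Hubs d X C) {f : G} (hf : f ∈ X) {r : ℕ} {x : G} (m : ℤ)
    (hx : Nh d r (H.Z f) x) : Nh d r (H.Z f) (f ^ m * x) := by
  obtain ⟨z, hz, hd⟩ := hx
  refine ⟨f ^ m * z, (hl_Zpow H hf z m).2 hz, ?_⟩
  rw [hG.inv]
  exact hd

/-- the quadrilateral with two hub sides -/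
theorem v_quad (hG : HypG d δ) (H : Hubs d X C) (hC : 100 * δ ≤ C) (hFX : F ⊆ X) {f : G}
    (hf : f ∈ X) {n m : ℕ} {α β : ℕ → G} (hα : IsGeo d n α) (hβ : IsGeo d m β)
    (h0a : Nh d (7 * C) (H.Z f) (α 0)) (h0b : Nh d (7 * C) (H.Z f) (β 0))
    (h1 : α n = β m ∨ ∃ f0 ∈ F, Nh d (7 * C) (H.Z f0) (α n) ∧ Nh d (7 * C) (H.Z f0) (β m))
    {t : ℕ} (ht : t ≤ n) :
    (∃ s ≤ m, d (α t) (β s) ≤ 8 * δ) ∨ Nh d (10 * C) (H.Z f) (α t) ∨
      ∃ f0 ∈ F, Nh d (7 * C) (H.Z f0) (β m) ∧ Nh d (10 * C) (H.Z f0) (α t) := by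
  obtain ⟨η, hη0, hη1, hη⟩ := exists_geo hG.path (α 0) (β 0)
  obtain ⟨ζ, hζ0, hζ1, hζ⟩ := exists_geo hG.path (β m) (α n)
  rcases hb_quad hG hα hη hβ hζ hη0.symm hη1 hζ0.symm hζ1.symm ht with
    ⟨s, hs, hd⟩ | ⟨s, hs, hd⟩ | ⟨s, hs, hd⟩
  · right; left
    have hbt := hb_btw hG hη (Nat.zero_le s) hs le_rfl
    rw [hη0, hη1] at hbt
    have h2 := hl_qc hG H hC hf h0a h0b hbt
    exact nh_mono (by omega) (nh_near hG h2 hd)
  · left; exact ⟨s, hs, hd⟩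
  · rcases h1 with h1 | ⟨f0, hf0, ha, hb⟩
    · left
      refine ⟨m, le_rfl, ?_⟩
      have h3 : d (β m) (α n) = 0 := by rw [h1]; exact hb_self hG _
      have h4 : s = 0 := by omega
      rw [h4, hζ0] at hd
      exact hd
    · right; right
      refine ⟨f0, hf0, hb, ?_⟩
      have hbt := hb_btw hG hζ (Nat.zero_le s) hs le_rfl
      rw [hζ0, hζ1] at hbt
      have h2 := hl_qc hG H hC (hFX hf0) hb ha hbt
      exact nh_mono (by omega) (nh_near hG h2 hd)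

theorem adj_hub {H : Hubs d X C} {f : G} (hf : f ∈ F) {r s : ℕ} (hr : r ≤ 20 * C)
    (hs : s ≤ 20 * C) {x y : G} (hx : Nh d r (H.Z f) x) (hy : Nh d s (H.Z f) y) :
    Adj H F R x y :=
  Or.inr ⟨f, hf, nh_mono hr hx, nh_mono hs hy⟩

/-- the states of the V-lemma -/
structure VS (H : Hubs d X C) (F : Set G) (R : ℕ) (b : G → ℝ) (N N' : ℕ) (γ γ' : ℕ → G)
    (i j : ℕ) (k : G) : Prop where
  hi : i ≤ N
  hj : j ≤ N'
  hk : k ∈ Subgroup.closure F
  link : γ i = k * γ' j ∨ ∃ f ∈ F, Nh d (7 * C) (H.Z f) (γ i) ∧ Nh d (7 * C) (H.Z f) (k * γ' j) ∧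
    |H.Φ f (γ 0) (γ i)| ≤ 6 * C ∧ |H.Φ f (k * γ' j) (k * γ' N')| ≤ 6 * C ∧
    -b f⁻¹ ≤ H.Φ f (γ i) (k * γ' j) ∧ H.Φ f (γ i) (k * γ' j) ≤ b f
  cov : ∀ t, i ≤ t → t ≤ N → ∃ t' ≤ j, AdjK H F R (γ t) (γ' t')
  cov' : ∀ t' ≤ j, ∃ t, i ≤ t ∧ t ≤ N ∧ AdjK H F R (γ t) (γ' t')

theorem v_step (hG : HypG d δ) (H : Hubs d X C) (hF : Fam H F Δ Tm) (hc : Cst δ C Δ R c Tm)
    {b : G → ℝ} (hb : Wt H F b) {N N' : ℕ} {γ γ' : ℕ → G} (hγ : IsGeo d N γ)
    (hγ' : IsGeo d N' γ') (hT : Tight H F b c (γ 0) (γ N)) (hT' : Tight H F b c (γ' 0) (γ' N'))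
    {i j : ℕ} {k : G} (hs : VS H F R b N N' γ γ' i j k)
    (hnot : ¬ Tight H F b (c + 3 * Δ) (γ 0) (k * γ' N')) :
    ∃ i' j' k', VS H F R b N N' γ γ' i' j' k' ∧ i' + (N' - j') < i + (N' - j) := by
  have hCδ := hc.hC
  have hδ1 := hc.hδ
  have hC0 : (0 : ℝ) ≤ C := Nat.cast_nonneg C
  have hΔC : 1000 * (C : ℝ) ≤ Δ := by exact_mod_cast hc.hΔ
  have hRΔ : 1000 * (Δ : ℝ) ≤ R := by exact_mod_cast hc.hR
  have hc0 := hc.hc
  have hcT := hc.hcT
  have hTR := hc.hT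
  have hRn : 8 * δ ≤ R := by have := hc.hΔ; have := hc.hR; omega
  unfold Tight at hnot
  push Not at hnot
  obtain ⟨f, hf, hΦ⟩ := hnot
  have hfX := hF.sub hf
  have hfinv := hF.inv f hf
  have hbf := hb.ge f hf
  have hbf' := hb.ge f⁻¹ hfinv
  rw [H.Tinv f hfX] at hbf'
  have hbig := hF.big f hf
  have hadd := hb.add f hf
  have hTm0 : 0 ≤ Tm := by linarith [(Nat.cast_nonneg R : (0 : ℝ) ≤ R)]
  have hbpos : 0 ≤ b f := by linarith
  set kg : ℕ → G := fun t => k * γ' t with hkg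
  have hkgeo : IsGeo d N' kg := hb_smul hG hγ' k
  have hkgj : kg j = k * γ' j := rfl
  have hkgN : kg N' = k * γ' N' := rfl
  -- the middle part
  have hmid : |H.Φ f (γ i) (kg j)| ≤ Δ + 14 * C := by
    rcases hs.link with h1 | ⟨f0, hf0, h1, h2, h3, h4, h5, h6⟩
    · have : H.Φ f (γ i) (kg j) = 0 := by
        rw [hkgj, ← h1]; exact hl_refl H hfX _
      rw [this, abs_zero]; positivity
    · have hf0X := hF.sub hf0
      have ecoc : H.Φ f0 (γ 0) (kg N') = H.Φ f0 (γ 0) (γ i) + H.Φ f0 (γ i) (kg j) +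
          H.Φ f0 (kg j) (kg N') := by
        rw [H.coc f0 hf0X, H.coc f0 hf0X]
      rw [abs_le] at h3 h4
      have hne1 : f0 ≠ f := by
        rintro rfl
        have hΦ' : b f0 + (c + 3 * Δ) < H.Φ f0 (γ 0) (kg N') := hΦ
        have h6' : H.Φ f0 (γ i) (kg j) ≤ b f0 := h6
        have h4' : H.Φ f0 (kg j) (kg N') ≤ 6 * C := h4.2
        linarith [h3.2]
      have hne2 : f0 ≠ f⁻¹ := by
        intro he
        have he' : f = f0⁻¹ := by rw [he, inv_inv]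
        have hΦ' : b f0⁻¹ + (c + 3 * Δ) < H.Φ f0⁻¹ (γ 0) (kg N') := by rw [← he']; exact hΦ
        have h7 := H.neg f0 hf0X (γ 0) (kg N')
        rw [abs_le] at h7
        have h5' : -b f0⁻¹ ≤ H.Φ f0 (γ i) (kg j) := h5
        have h4' : -(6 * (C : ℝ)) ≤ H.Φ f0 (kg j) (kg N') := h4.1
        linarith [h3.1, h7.2]
      have h8 := hl_sep hG hF hf hf0 hne1 hne2 h1 h2
      push_cast at h8
      linarith
  rw [abs_le] at hmid
  have ecoc : H.Φ f (γ 0) (kg N') = H.Φ f (γ 0) (γ i) + H.Φ f (γ i) (kg j) +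
      H.Φ f (kg j) (kg N') := by
    rw [H.coc f hfX, H.coc f hfX]
  have hΦ' : b f + (c + 3 * Δ) < H.Φ f (γ 0) (kg N') := hΦ
  -- upper bounds for the outer parts
  have hup1 : H.Φ f (γ 0) (γ i) ≤ b f + c + 6 * C := by
    have h1 := hl_sub hG H hCδ hfX hγ (Nat.zero_le i) hs.hi
    have h2 := hT f hf
    have h3 : max (H.Φ f (γ 0) (γ N)) 0 ≤ b f + c := max_le h2 (by linarith)
    linarith
  have hup2 : H.Φ f (kg j) (kg N') ≤ b f + c + 7 * C := by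
    have hf' : k⁻¹ * f * k ∈ F := by
      have := hF.conj f hf k⁻¹
      rwa [inv_inv] at this
    have hbe : b (k⁻¹ * f * k) = b f := by
      have := hb.conj f hf k⁻¹
      rwa [inv_inv] at this
    have h1 := hl_sub hG H hCδ (hF.sub hf') hγ' hs.hj (le_refl N')
    have h2 := hT' _ hf'
    rw [hbe] at h2
    have h3 : max (H.Φ (k⁻¹ * f * k) (γ' 0) (γ' N')) 0 ≤ b f + c := max_le h2 (by linarith)
    have h4 := H.equi _ (hF.sub hf') k (γ' j) (γ' N')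
    have h5 : k * (k⁻¹ * f * k) * k⁻¹ = f := by group
    rw [h5, abs_le] at h4
    have h6 : H.Φ f (k * γ' j) (k * γ' N') = H.Φ f (kg j) (kg N') := rfl
    rw [h6] at h4
    linarith [h4.2]
  have hlo1 : 10 * (C : ℝ) ≤ H.Φ f (γ 0) (γ i) := by linarith [hmid.1, hmid.2]
  have hlo2 : 10 * (C : ℝ) ≤ H.Φ f (kg j) (kg N') := by linarith [hmid.1, hmid.2]
  obtain ⟨i1, i2, -, hi12, hi2, hd1, hd2, hp1, hp2, hn1, -⟩ :=
    hl_ee hG H hCδ hfX hγ (Nat.zero_le i) hs.hi (by rw [abs_of_nonneg (by linarith)]; exact hlo1)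
  obtain ⟨j2, j1, hj2, hj21, hj1, hd3, hd4, hp3, hp4, hn2, -⟩ :=
    hl_ee hG H hCδ hfX hkgeo hs.hj (le_refl N')
      (by rw [abs_of_nonneg (by linarith)]; exact hlo2)
  have hi1N : i1 ≤ N := by have := hs.hi; omega
  have nI1 : Nh d (7 * C) (H.Z f) (γ i1) := hn1 i1 le_rfl hi12.le
  have nI2 : Nh d (7 * C) (H.Z f) (γ i2) := hn1 i2 hi12.le le_rfl
  have nJ1 : Nh d (7 * C) (H.Z f) (kg j1) := hn2 j1 hj21.le le_rfl
  have nJ2 : Nh d (7 * C) (H.Z f) (kg j2) := hn2 j2 le_rfl hj21.le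
  have hfK : f⁻¹ * k ∈ Subgroup.closure F :=
    (Subgroup.closure F).mul_mem
      ((Subgroup.closure F).inv_mem (Subgroup.subset_closure hf)) hs.hk
  have easoc : ∀ t, f⁻¹ * k * γ' t = f⁻¹ * kg t := fun t => by rw [hkg, mul_assoc]
  -- the pieces of the quadrilateral
  have hα : IsGeo d (i - i2) (fun t => γ (i2 + t)) := hb_sub hG hγ hi2 hs.hi
  have hβ0 : IsGeo d (j2 - j) (fun t => kg (j + t)) := hb_sub hG hkgeo hj2 (by omega)
  have hβ : IsGeo d (j2 - j) (fun t => kg (j + (j2 - j - t))) := hb_rev hG hβ0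
  have eα0 : γ (i2 + 0) = γ i2 := rfl
  have eα1 : γ (i2 + (i - i2)) = γ i := by congr 1; omega
  have eβ0 : kg (j + (j2 - j - 0)) = kg j2 := by congr 1; omega
  have eβ1 : kg (j + (j2 - j - (j2 - j))) = kg j := by congr 1; omega
  have hlink : γ i = kg j ∨ ∃ f0 ∈ F, Nh d (7 * C) (H.Z f0) (γ i) ∧
      Nh d (7 * C) (H.Z f0) (kg j) := by
    rcases hs.link with h1 | ⟨f0, hf0, h1, h2, -⟩
    · exact Or.inl h1
    · exact Or.inr ⟨f0, hf0, h1, h2⟩
  have hlink' : kg j = γ i ∨ ∃ f0 ∈ F, Nh d (7 * C) (H.Z f0) (kg j) ∧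
      Nh d (7 * C) (H.Z f0) (γ i) := by
    rcases hlink with h1 | ⟨f0, hf0, h1, h2⟩
    · exact Or.inl h1.symm
    · exact Or.inr ⟨f0, hf0, h2, h1⟩
  refine ⟨i1, j1, f⁻¹ * k, ?_, ?_⟩
  · refine ⟨hi1N, hj1, hfK, Or.inr ⟨f, hf, nI1, ?_, hp1, ?_, ?_, ?_⟩, ?_, ?_⟩
    · rw [easoc]
      have := nh_zpow hG H hfX (-1) nJ1
      rwa [zpow_neg_one] at this
    · rw [easoc, easoc]
      have := hl_inv H hfX (kg j1) (kg N') (-1)
      rw [zpow_neg_one] at this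
      rw [this]
      exact hp4
    · rw [easoc]
      have h1 := H.coc f hfX (γ i1) (kg j1) (f⁻¹ * kg j1)
      have h2 := hl_zpow H hfX (kg j1) (-1)
      rw [zpow_neg_one] at h2
      push_cast at h2
      have h3 := H.coc f hfX (γ 0) (γ i1) (kg j1)
      have h4 := H.coc f hfX (γ 0) (kg j1) (kg N')
      rw [abs_le] at hp1 hp4
      linarith [hp1.1, hp1.2, hp4.1, hp4.2]
    · rw [easoc]
      have h1 := H.coc f hfX (γ i1) (kg j1) (f⁻¹ * kg j1)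
      have h2 := hl_zpow H hfX (kg j1) (-1)
      rw [zpow_neg_one] at h2
      push_cast at h2
      have h3 := H.coc f hfX (γ 0) (γ i1) (kg j1)
      have h4 := H.coc f hfX (γ 0) (kg j1) (kg N')
      rw [abs_le] at hp1 hp4
      linarith [hp1.1, hp1.2, hp4.1, hp4.2, hmid.2]
    · intro t ht1 ht2
      rcases le_total i t with hit | hti
      · obtain ⟨t', ht', hA⟩ := hs.cov t hit ht2
        exact ⟨t', by omega, hA⟩
      rcases le_total t i2 with ht3 | ht3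
      · exact ⟨j1, le_rfl, k, hs.hk, adj_hub hf (by omega) (by omega) (hn1 t ht1 ht3) nJ1⟩
      · have hq := v_quad hG H hCδ hF.sub hfX hα hβ (by simpa only [eα0] using nI2)
          (by simpa only [eβ0] using nJ2) (by simpa only [eα1, eβ1] using hlink)
          (t := t - i2) (by omega)
        have e5 : i2 + (t - i2) = t := by omega
        simp only [e5, eβ1] at hq
        rcases hq with ⟨s, hs1, hs2⟩ | h5 | ⟨f0, hf0, h5, h6⟩
        · exact ⟨j + (j2 - j - s), by omega, k, hs.hk, Or.inl (hs2.trans hRn)⟩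
        · exact ⟨j1, le_rfl, k, hs.hk, adj_hub hf (by omega) (by omega) h5 nJ1⟩
        · exact ⟨j, by omega, k, hs.hk, adj_hub hf0 (by omega) (by omega) h6 h5⟩
    · intro t' ht'
      rcases le_total t' j with htj | hjt
      · obtain ⟨t, ht1, ht2, hA⟩ := hs.cov' t' htj
        exact ⟨t, by omega, ht2, hA⟩
      rcases le_total j2 t' with ht3 | ht3
      · exact ⟨i1, le_rfl, hi1N, k, hs.hk,
          adj_hub hf (by omega) (by omega) nI1 (hn2 t' ht3 ht')⟩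
      · have hq := v_quad hG H hCδ hF.sub hfX hβ hα (by simpa only [eβ0] using nJ2)
          (by simpa only [eα0] using nI2) (by simpa only [eα1, eβ1] using hlink')
          (t := j2 - t') (by omega)
        have e5 : j + (j2 - j - (j2 - t')) = t' := by omega
        simp only [e5, eα1] at hq
        have hiN := hs.hi
        rcases hq with ⟨s, hs1, hs2⟩ | h5 | ⟨f0, hf0, h5, h6⟩
        · refine ⟨i2 + s, by omega, by omega, k, hs.hk, Or.inl ?_⟩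
          rw [hG.path.symm]
          exact hs2.trans hRn
        · exact ⟨i1, le_rfl, hi1N, k, hs.hk, adj_hub hf (by omega) (by omega) nI1 h5⟩
        · exact ⟨i, by omega, hiN, k, hs.hk, adj_hub hf0 (by omega) (by omega) h5 h6⟩
  · have := hs.hj
    omega

end

/-- Part D1. -/
theorem stV : StV := by
  intro G _ d δ C Δ R X F H b c Tm hG hF hc hb N N' γ γ' hγ hγ' he hT hT'
  have key : ∀ n : ℕ, ∀ i j : ℕ, ∀ k : G, VS H F R b N N' γ γ' i j k → i + (N' - j) = n →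
      ∃ i ≤ N, ∃ j ≤ N', ∃ k ∈ Subgroup.closure F,
        Tight H F b (c + 3 * Δ) (γ 0) (k * γ' N') ∧
        (γ i = k * γ' j ∨ ∃ f ∈ F, Nh d (7 * C) (H.Z f) (γ i) ∧
          Nh d (7 * C) (H.Z f) (k * γ' j)) ∧
        (∀ t, i ≤ t → t ≤ N → ∃ t' ≤ j, AdjK H F R (γ t) (γ' t')) ∧
        (∀ t' ≤ j, ∃ t, i ≤ t ∧ t ≤ N ∧ AdjK H F R (γ t) (γ' t')) := by
    intro n
    induction n using Nat.strong_induction_on with
    | _ n ih =>
      intro i j k hs hn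
      by_cases hnot : Tight H F b (c + 3 * Δ) (γ 0) (k * γ' N')
      · refine ⟨i, hs.hi, j, hs.hj, k, hs.hk, hnot, ?_, hs.cov, hs.cov'⟩
        rcases hs.link with h1 | ⟨f0, hf0, h1, h2, -⟩
        · exact Or.inl h1
        · exact Or.inr ⟨f0, hf0, h1, h2⟩
      · obtain ⟨i', j', k', hs', hlt⟩ := v_step hG H hF hc hb hγ hγ' hT hT' hs hnot
        exact ih _ (hn ▸ hlt) i' j' k' hs' rfl
  refine key _ N 0 1 ⟨le_rfl, Nat.zero_le _, (Subgroup.closure F).one_mem, Or.inl ?_, ?_, ?_⟩ rfl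
  · rw [one_mul]; exact he
  · intro t ht1 ht2
    have : t = N := le_antisymm ht2 ht1
    subst this
    refine ⟨0, le_rfl, 1, (Subgroup.closure F).one_mem, Or.inl ?_⟩
    rw [one_mul, he, hb_self hG]
    exact Nat.zero_le _
  · intro t' ht'
    have : t' = 0 := Nat.le_zero.1 ht'
    subst this
    refine ⟨N, le_rfl, le_rfl, 1, (Subgroup.closure F).one_mem, Or.inl ?_⟩
    rw [one_mul, he, hb_self hG]
    exact Nat.zero_le _

end Pool.Agent.Helper74.TB
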