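import Pool.Agent.Helper74.TB.X3

/-!
MP_7d16da_al, Part X: extended acylindricity, the window statement, `stX : StX`.
-/

set_option autoImplicit false

namespace Pool.Agent.Helper74.TB

open Pool.Agent.Helper74.MH

variable {G : Type*} [Group G] {d : G → G → ℕ} {δ C n q A L : ℕ}

/-- an element moving all middle points little commutes with an element moving the ends a
moderate amount -/
theorem x_ext1 (S : Stage d δ n q A L) (hC : 100 * δ ≤ C) (hL : 1000 * C ≤ L) (hq : 1 ≤ q)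
    {N ρ : ℕ} {γ : ℕ → G} (hγ : IsGeo d N γ) {g k : G} (hρ : L ≤ ρ)
    (hN : A + 10 ^ 5 * q * L * C + 100 * ρ ≤ N) (h0 : d (γ 0) (g * γ 0) ≤ ρ)
    (h1 : d (γ N) (g * γ N) ≤ ρ)
    (hk : ∀ t, 8 * ρ ≤ t → t + 8 * ρ ≤ N → d (γ t) (k * γ t) ≤ 72 * δ) : Commute g k := by
  have hG := S.toHypG
  have hδ := hG.one
  obtain ⟨s, hs, hg⟩ := xw_shift hG hγ h0 h1 (by omega) (by omega)
  have hk1 : ∀ t, 9 * ρ ≤ t → t + 9 * ρ ≤ N → d (γ t) (g * k * g⁻¹ * γ t) ≤ 108 * δ := by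
    intro t ht1 ht2
    have := xw_conj hG hs hg hk ht1 ht2
    omega
  have hNN : γ N = γ N := rfl
  have e18 := hγ (9 * ρ) (N - 9 * ρ) (by omega) (by omega)
  have hc : Commute (g * k * g⁻¹) k := by
    refine S.acyl _ _ (γ (9 * ρ)) (γ (N - 9 * ρ)) (by omega) ?_ ?_ ?_ ?_
    · have := hk1 (9 * ρ) (by omega) (by omega); omega
    · have := hk1 (N - 9 * ρ) (by omega) (by omega); omega
    · have := hk (9 * ρ) (by omega) (by omega); omega
    · have := hk (N - 9 * ρ) (by omega) (by omega); omega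
  have hpow : ∀ m : ℕ, (g * k * g⁻¹ * k⁻¹) ^ m = g * k ^ m * g⁻¹ * (k ^ m)⁻¹ := by
    intro m
    rw [hc.inv_right.mul_pow, inv_pow, conj_pow]
  -- the numbers
  have num : 16 * (72 * δ * (72 * δ * q + 1)) ≤ 10 ^ 5 * q * L * C := by
    have a1 : 72 * δ * q + 1 ≤ 73 * δ * q := by nlinarith [Nat.mul_le_mul hδ hq]
    have a2 : 10 * δ ≤ L := by omega
    calc 16 * (72 * δ * (72 * δ * q + 1)) ≤ 16 * (72 * δ * (73 * δ * q)) := by gcongr
      _ = 84096 * q * δ * δ := by ring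
      _ ≤ 10 ^ 5 * q * L * C := by
        have a3 : δ ≤ L := by omega
        have a4 : δ ≤ C := by omega
        gcongr
        norm_num
  generalize hr : 72 * δ * (72 * δ * q + 1) = r at num
  have hγ' : IsGeo d (N - 9 * ρ - 9 * ρ) (fun t => γ (9 * ρ + t)) :=
    hb_sub hG hγ (by omega) (by omega)
  have key : ∀ m : ℕ, m ≤ 72 * δ * q + 1 → ∀ t, 8 * (2 * ρ + r) ≤ t →
      t + 8 * (2 * ρ + r) ≤ N - 9 * ρ - 9 * ρ →
      d (γ (9 * ρ + t)) ((g * k * g⁻¹ * k⁻¹) ^ m * γ (9 * ρ + t)) ≤ 72 * δ := by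
    intro m hm t ht1 ht2
    rw [hpow]
    have dk : ∀ x, d x (k * x) ≤ 72 * δ → d x (k ^ m * x) ≤ 2 * ρ + r := by
      intro x hx
      have b1 := x_pow_le hG k x m
      have b2 : m * d x (k * x) ≤ (72 * δ * q + 1) * (72 * δ) := Nat.mul_le_mul hm hx
      have b3 : (72 * δ * q + 1) * (72 * δ) = r := by rw [← hr]; ring
      omega
    have dg : ∀ t, 5 * ρ ≤ t → t + 5 * ρ ≤ N → d (γ t) (g * γ t) ≤ 2 * ρ + r := by
      intro t ht1 ht2
      have := (xw_disp hG hγ hs hg ht1 ht2).1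
      omega
    have e1 : 9 * ρ + (N - 9 * ρ - 9 * ρ) = N - 9 * ρ := by omega
    refine xw_comm hG hγ' (g := g) (h := k ^ m) (ρ := 2 * ρ + r) ?_ ?_ ?_ ?_ (by omega)
      (by omega) ht1 ht2
    · change d (γ (9 * ρ + 0)) (g * γ (9 * ρ + 0)) ≤ _
      exact dg _ (by omega) (by omega)
    · change d (γ (9 * ρ + (N - 9 * ρ - 9 * ρ))) (g * γ (9 * ρ + (N - 9 * ρ - 9 * ρ))) ≤ _
      exact dg _ (by omega) (by omega)
    · change d (γ (9 * ρ + 0)) (k ^ m * γ (9 * ρ + 0)) ≤ _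
      exact dk _ (hk _ (by omega) (by omega))
    · change d (γ (9 * ρ + (N - 9 * ρ - 9 * ρ))) (k ^ m * γ (9 * ρ + (N - 9 * ρ - 9 * ρ))) ≤ _
      exact dk _ (hk _ (by omega) (by omega))
  have ht : (g * k * g⁻¹ * k⁻¹) ^ n = 1 := by
    by_contra hne
    have b1 := x_tor S hne (γ (9 * ρ + 8 * (2 * ρ + r))) (72 * δ * q + 1)
    have b2 := key (72 * δ * q + 1) le_rfl (8 * (2 * ρ + r)) le_rfl (by omega)
    have b3 := Nat.mul_le_mul_left q b2
    have b4 : q * (72 * δ) = 72 * δ * q := by ring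
    omega
  have h1' : g * k * g⁻¹ * k⁻¹ = 1 := by
    have b1 := key 1 (by omega) (8 * (2 * ρ + r)) le_rfl (by omega)
    have b2 := key 1 (by omega) (N - 9 * ρ - 9 * ρ - 8 * (2 * ρ + r)) (by omega) (by omega)
    rw [pow_one] at b1 b2
    have b3 := hγ (9 * ρ + 8 * (2 * ρ + r)) (9 * ρ + (N - 9 * ρ - 9 * ρ - 8 * (2 * ρ + r)))
      (by omega) (by omega)
    exact S.acylt _ _ _ ht (by omega) (b1.trans (by omega)) (b2.trans (by omega))
  rw [mul_inv_eq_one, mul_inv_eq_iff_eq_mul] at h1'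
  exact h1'

/-- `ext` of `Alg` -/
theorem x_ext (S : Stage d δ n q A L) (hn : n ≠ 0) (hC : 100 * δ ≤ C) (hL : 1000 * C ≤ L)
    (hq : 1 ≤ q) (H : Hubs d (Lx d (100 * C)) C) {g h a b : G} {ρ : ℕ} (hρ : L ≤ ρ)
    (hN : A + 10 ^ 5 * q * L * C + 100 * ρ ≤ d a b) (h0 : d a (g * a) ≤ ρ)
    (h1 : d b (g * b) ≤ ρ) (k0 : d a (h * a) ≤ ρ) (k1 : d b (h * b) ≤ ρ) : Commute g h := by
  have hG := S.toHypG
  have hδ := hG.one
  obtain ⟨γ, hγ0, hγ1, hγ⟩ := exists_geo hG.path a b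
  have hk : ∀ t, 8 * ρ ≤ t → t + 8 * ρ ≤ d a b →
      d (γ t) (g * h * g⁻¹ * h⁻¹ * γ t) ≤ 72 * δ := by
    intro t ht1 ht2
    exact xw_comm hG hγ (by rw [hγ0]; exact h0) (by rw [hγ1]; exact h1)
      (by rw [hγ0]; exact k0) (by rw [hγ1]; exact k1) (by omega) (by omega) ht1 ht2
  have c1 : Commute g (g * h * g⁻¹ * h⁻¹) :=
    x_ext1 S hC hL hq hγ hρ hN (by rw [hγ0]; exact h0) (by rw [hγ1]; exact h1) hk
  have c2 : Commute h (g * h * g⁻¹ * h⁻¹) :=
    x_ext1 S hC hL hq hγ hρ hN (by rw [hγ0]; exact k0) (by rw [hγ1]; exact k1) hk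
  by_cases hκ : (g * h * g⁻¹ * h⁻¹) ^ n = 1
  · have b1 := hk (8 * ρ) le_rfl (by omega)
    have b2 := hk (d a b - 8 * ρ) (by omega) (by omega)
    have b3 := hγ (8 * ρ) (d a b - 8 * ρ) (by omega) (by omega)
    have h1' := S.acylt _ _ _ hκ (by omega) (b1.trans (by omega)) (b2.trans (by omega))
    rw [mul_inv_eq_one, mul_inv_eq_iff_eq_mul] at h1'
    exact h1'
  · obtain ⟨r, hr⟩ := x_cent S hn hq (by omega) hL H hκ
    have d1 := (hr g).1 c1
    have d2 := (hr h).1 c2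
    rw [Subgroup.mem_zpowers_iff] at d1 d2
    obtain ⟨i, rfl⟩ := d1
    obtain ⟨j, rfl⟩ := d2
    exact (Commute.refl r).zpow_zpow i j

/-- `extt` of `Alg` -/
theorem x_extt (S : Stage d δ n q A L) (hn : n ≠ 0) (hC : 100 * δ ≤ C) (hL : 1000 * C ≤ L)
    {g a b : G} {ρ : ℕ} (hg : g ^ n = 1) (hρ : L ≤ ρ)
    (hN : A + 100 * ρ ≤ d a b) (h0 : d a (g * a) ≤ ρ) (h1 : d b (g * b) ≤ ρ) : g = 1 := by
  have hG := S.toHypG
  have hδ := hG.one
  obtain ⟨γ, hγ0, hγ1, hγ⟩ := exists_geo hG.path a b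
  obtain ⟨s, hs, hsh⟩ := xw_shift hG hγ (g := g) (ρ := ρ) (by rw [hγ0]; exact h0)
    (by rw [hγ1]; exact h1) (by omega) (by omega)
  by_cases hsL : |s| + 18 * δ ≤ L
  · have b1 := (xw_disp hG hγ hs hsh (t := 5 * ρ) le_rfl (by omega)).1
    have b2 := (xw_disp hG hγ hs hsh (t := d a b - 5 * ρ) (by omega) (by omega)).1
    have b3 := hγ (5 * ρ) (d a b - 5 * ρ) (by omega) (by omega)
    refine S.acylt g (γ (5 * ρ)) (γ (d a b - 5 * ρ)) hg (by omega) ?_ ?_
    · have : (d (γ (5 * ρ)) (g * γ (5 * ρ)) : ℤ) ≤ L := by omega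
      exact_mod_cast this
    · have : (d (γ (d a b - 5 * ρ)) (g * γ (d a b - 5 * ρ)) : ℤ) ≤ L := by omega
      exact_mod_cast this
  · exfalso
    have b1 := xw_chain hG hγ hs hsh (t := 6 * ρ) (σ := 0) le_rfl (by omega)
      (by push Not at hsL; omega) n
    rw [hg, one_mul, hb_self hG] at b1
    have b2 : 0 < (6 * δ + 0) * n := Nat.mul_pos (by omega) (Nat.pos_of_ne_zero hn)
    omega

/-- points far from the ends of a segment with moderately moved ends are near the axis -/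
theorem x_near (hG : HypG d δ) (hC : 100 * δ ≤ C) {X : Set G} (H : Hubs d X C) {f a b p : G}
    (hf : f ∈ X) {r : ℕ} (h0 : d a (f * a) ≤ r) (h1 : d b (f * b) ≤ r)
    (hp : d a p + d p b = d a b) (ha : r + 10 * C ≤ d a p) (hb : r + 10 * C ≤ d p b) :
    Nh d (2 * C) (H.Z f) p := by
  have hδ := hG.one
  obtain ⟨γ, hγ0, hγp, hγ1, hγ⟩ := hb_through hG hp
  obtain ⟨γ1, a10, a11, h1g⟩ := exists_geo hG.path a (H.pr f a)
  obtain ⟨γ2, a20, a21, h2g⟩ := exists_geo hG.path (H.pr f a) (H.pr f b)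
  obtain ⟨γ3, a30, a31, h3g⟩ := exists_geo hG.path (H.pr f b) b
  have hd : ∀ x, d x (f * x) ≤ r → d x (H.pr f x) ≤ r := by
    intro x hx
    have c1 := hl_dispZ hG H hf x
    have c2 := H.Tbig f hf
    have c3 : (0 : ℝ) ≤ C := Nat.cast_nonneg C
    have c4 : (d x (f * x) : ℝ) ≤ r := by exact_mod_cast hx
    have c5 : (0 : ℝ) ≤ d x (H.pr f x) := Nat.cast_nonneg _
    have c6 : (d x (H.pr f x) : ℝ) ≤ r := by linarith
    exact_mod_cast c6
  have hda := hd a h0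
  have hdb := hd b h1
  rcases hb_quad hG hγ h1g h2g h3g (hγ0.trans a10.symm) (a11.trans a20.symm)
    (a21.trans a30.symm) (hγ1.trans a31.symm) (t := d a p) (by omega) with
    ⟨s, hs, hds⟩ | ⟨s, hs, hds⟩ | ⟨s, hs, hds⟩
  · exfalso
    rw [hγp] at hds
    have e1 := h1g 0 s (Nat.zero_le _) hs
    rw [a10] at e1
    have e2 := hG.path.tri a (γ1 s) p
    have e3 := hG.path.symm (γ1 s) p
    omega
  · rw [hγp] at hds
    have hbt := hb_btw hG h2g (Nat.zero_le s) hs le_rfl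
    rw [a20, a21] at hbt
    obtain ⟨w, hw, hdw⟩ := H.qc f hf _ (H.pr_mem f hf a) _ (H.pr_mem f hf b) _ hbt
    refine ⟨w, hw, ?_⟩
    have e2 := hG.path.tri p (γ2 s) w
    omega
  · exfalso
    rw [hγp] at hds
    have e1 := h3g s _ hs le_rfl
    rw [a31] at e1
    have e2 := hG.path.tri p (γ3 s) b
    have e3 := hG.path.symm (H.pr f b) b
    omega

/-- `win` of `Alg` -/
theorem x_win (S : Stage d δ n q A L) (hC : 100 * δ ≤ C) (hL : 1000 * C ≤ L)
    (hq : 1 ≤ q) (H : Hubs d (Lx d (100 * C)) C) {g a b p : G} {ρ Ax : ℕ} (hg : g ^ n ≠ 1)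
    (hρ : L ≤ ρ) (hA : A + 10 ^ 5 * q * L * C ≤ Ax)
    (h0 : d a (g * a) ≤ ρ) (h1 : d b (g * b) ≤ ρ)
    (hp : d a p + d p b = d a b) (ha : Ax + 120 * ρ ≤ 4 * d a p)
    (hb : Ax + 120 * ρ ≤ 4 * d p b) :
    Nh d (10 * C) (H.Z (g ^ (100 * C * q + 1))) p := by
  have hG := S.toHypG
  have hδ := hG.one
  obtain ⟨γ, hγ0, hγp, hγ1, hγ⟩ := hb_through hG hp
  obtain ⟨s, hs, hsh⟩ := xw_shift hG hγ (g := g) (ρ := ρ) (by rw [hγ0]; exact h0)
    (by rw [hγ1]; exact h1) (by omega) (by omega)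
  have hf := x_mem0 (C := C) S hg
  by_cases hsL : |s| + 18 * δ ≤ L
  · have b1 := (xw_disp hG hγ hs hsh (t := 5 * ρ) le_rfl (by omega)).1
    have b2 := (xw_disp hG hγ hs hsh (t := d a b - 5 * ρ) (by omega) (by omega)).1
    have b1' : d (γ (5 * ρ)) (g * γ (5 * ρ)) ≤ L := by
      have : (d (γ (5 * ρ)) (g * γ (5 * ρ)) : ℤ) ≤ L := by omega
      exact_mod_cast this
    have b2' : d (γ (d a b - 5 * ρ)) (g * γ (d a b - 5 * ρ)) ≤ L := by
      have : (d (γ (d a b - 5 * ρ)) (g * γ (d a b - 5 * ρ)) : ℤ) ≤ L := by omega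
      exact_mod_cast this
    have c1 := (x_pow_le hG g (γ (5 * ρ)) (100 * C * q + 1)).trans (Nat.mul_le_mul_left _ b1')
    have c2 := (x_pow_le hG g (γ (d a b - 5 * ρ)) (100 * C * q + 1)).trans
      (Nat.mul_le_mul_left _ b2')
    have e1 := hγ (5 * ρ) (d a p) (by omega) (by omega)
    have e2 := hγ (d a p) (d a b - 5 * ρ) (by omega) (by omega)
    rw [hγp] at e1 e2
    have e3 := hb_btw hG hγ (i := 5 * ρ) (j := d a p) (k := d a b - 5 * ρ) (by omega) (by omega)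
      (by omega)
    rw [hγp] at e3
    have num : 4 * ((100 * C * q + 1) * L + 10 * C) ≤ Ax := by
      have a1 : 100 * C * q + 1 ≤ 101 * C * q := by
        have : 1 ≤ C * q := Nat.mul_pos (by omega) hq
        nlinarith
      have a2 : 10 * C ≤ L * C * q := by
        have h5 : 10 ≤ L := by omega
        calc 10 * C ≤ L * C := by gcongr
          _ = L * C * 1 := by ring
          _ ≤ L * C * q := by gcongr
      calc 4 * ((100 * C * q + 1) * L + 10 * C) ≤ 4 * ((101 * C * q) * L + L * C * q) := by gcongr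
        _ = 408 * (q * L * C) := by ring
        _ ≤ 10 ^ 5 * (q * L * C) := by gcongr; norm_num
        _ = 10 ^ 5 * q * L * C := by ring
        _ ≤ Ax := by omega
    obtain ⟨w, hw, hdw⟩ := x_near hG hC H hf c1 c2 e3 (by omega) (by omega)
    exact ⟨w, hw, by omega⟩
  · have hgX : g ∈ Lx d (100 * C) := by
      intro y
      by_contra hc
      push Not at hc
      have b1 := xw_chain hG hγ hs hsh (t := 6 * ρ) (σ := 100 * C) le_rfl (by omega)
        (by push_cast; push Not at hsL; omega) (2 * d (γ (6 * ρ)) y + 1)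
      generalize hm : 2 * d (γ (6 * ρ)) y + 1 = m at b1
      have b2 := x_pow_le hG g y m
      have b3 : m * d y (g * y) ≤ m * (100 * C - 1) := Nat.mul_le_mul_left _ (by omega)
      have t1 := hG.path.tri (γ (6 * ρ)) y (g ^ m * γ (6 * ρ))
      have t2 := hG.path.tri y (g ^ m * y) (g ^ m * γ (6 * ρ))
      have t3 := hG.inv (g ^ m) y (γ (6 * ρ))
      have t4 := hG.path.symm y (γ (6 * ρ))
      have e1 : (6 * δ + 100 * C) * m = m * (100 * C - 1) + (6 * δ + 1) * m := by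
        have : 100 * C = (100 * C - 1) + 1 := by omega
        conv_lhs => rw [this]
        ring
      have e2 : m ≤ (6 * δ + 1) * m := Nat.le_mul_of_pos_left _ (by omega)
      omega
    obtain ⟨w, hw, hdw⟩ := x_near hG hC H hgX h0 h1 hp (by omega) (by omega)
    obtain ⟨v, hv, hdv⟩ := x_comm hG H hgX hf ((Commute.refl g).pow_right _) hw
    refine ⟨v, hv, ?_⟩
    have := hG.path.tri p w v
    omega

theorem stX : StX := by
  intro G _ d δ C n q A L Ax H S hn hC hL hq hA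
  have hn0 : n ≠ 0 := by rintro rfl; exact absurd hn (by decide)
  have hδ := S.one
  have hC1 : 1 ≤ C := by omega
  exact
    { ext := fun g h a b ρ hρ hN h0 h1 k0 k1 =>
        x_ext S hn0 hC hL hq H hρ (by omega) h0 h1 k0 k1
      extt := fun g a b ρ hg hρ hN h0 h1 =>
        x_extt S hn0 hC hL hg hρ (by omega) h0 h1
      cent := fun g hg => x_cent S hn0 hq hC1 hL H hg
      ninv := fun g t a b hg ha hab => x_ninv S hn hq hC1 hL H hg ha hab
      ctr := fun g hg => x_ctr S.toHypG hC hn0 hg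
      win := fun g a b p ρ hg hρ hN h0 h1 hp ha hb =>
        x_win S hC hL hq H hg hρ hA h0 h1 hp ha hb }

end Pool.Agent.Helper74.TB
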