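import Pool.Agent.Helper74.TB.StJK

/-! MP_7d16da_al: statements of Part L (tower, limit group, constants). -/

set_option autoImplicit false

namespace Pool.Agent.Helper74.TB

open Pool.Agent.Helper74.MH

/-- All parameters. -/
structure Par where
  C : ℕ
  L : ℕ
  Δ : ℕ
  R : ℕ
  n : ℕ
  q : ℕ
  Ax : ℕ
  L1 : ℕ
  L2 : ℕ
  km : ℕ
  h : ℕ
  M0 : ℕ
  lam : ℕ
  Θ : ℕ
  N1 : ℕ
  N2 : ℕ
  e : ℕ
  Tm : ℝ

/-- The inequalities between the parameters. -/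
structure Par.Ok (P : Par) (M1 T0 : ℕ) : Prop where
  hC : 100 * 2000 ≤ P.C
  hL : 1000 * P.C ≤ P.L
  cst2 : Cst2 2000 P.C P.Δ P.R P.n P.q P.L P.Ax P.L1 M1 P.Tm
  cst3 : Cst3 P.C P.Δ P.R P.n P.q P.L1 P.L2 P.km P.h P.M0 P.lam P.Θ M1 P.Tm
  hT0 : (T0 : ℝ) * P.R ≤ P.Tm
  hn : P.n = 3 ^ P.e
  he : 1 ≤ P.e
  hq : 1 ≤ P.q
  hAx : 10 ^ 6 * P.L + 10 ^ 5 * P.q * P.L * P.C ≤ P.Ax
  hL1 : 10 ^ 4 * P.Ax ≤ P.L1
  hR : P.R ≤ 10 ^ 6 * P.L1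
  hqT : (P.q : ℝ) * P.Tm ≤ P.n
  hqn : 100 * P.C * P.q ≤ P.n
  hN1 : P.N1 % 3 = 1
  hN2 : P.N2 % 3 = 1
  hcop : Nat.Coprime P.N1 P.N2
  hNb : 100 * P.Δ * P.q + 1 ≤ P.N1
  hNn : 100 * P.Δ * P.q * (P.N1 + P.N2) < P.n
  hL2 : (200 * P.C * P.q + 10) * P.L1 ≤ P.L2
  hkm : 10 * P.Δ * P.q + P.q * P.L1 ≤ P.km
  hh : P.h % 3 ≠ 0

/-- Part L0: good parameters exist. -/
def StPar : Prop :=
  ∀ C M1 T0 : ℕ, 100 * 2000 ≤ C → ∃ P : Par, P.C = C ∧ P.L = 1000 * C ∧ P.Ok M1 T0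

/-- Part L1: the free group is a stage. -/
def StZero : Prop :=
  ∃ d : FreeGroup (Fin 2) → FreeGroup (Fin 2) → ℕ,
    (∀ n q A L : ℕ, 1 ≤ n → 1 ≤ q → 1 ≤ L → 10 * L ≤ A → Stage d 2000 n q A L) ∧
    (∀ x : Fin 2, d 1 (FreeGroup.of x) = 1) ∧ ∀ n : ℕ, 1 ≤ n → ∀ g : FreeGroup (Fin 2),
      g ^ n = 1 → g = 1

/-- Part L2: the quotient with its metric exists. -/
def StQuo : Prop :=
  ∀ (G : Type) [Group G] (d : G → G → ℕ) (δ C Δ R : ℕ) (X F : Set G) (H : Hubs d X C)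
    (Tm : ℝ), HypG d δ → Fam H F Δ Tm → 1 ≤ R →
    ∃ (G' : Type) (_ : Group G') (π : G →* G') (d' : G' → G' → ℕ), Quo H F R π d'

/-- The conclusion of J1 for one step. -/
def J1P {G G' : Type*} [Group G] [Group G'] {d : G → G → ℕ} {C : ℕ}
    (H : Hubs d (Lx d (100 * C)) C) (F : Set G) (π : G →* G') (n Ax Δ : ℕ) : Prop :=
  ∀ P Q x y : G, P ^ n = 1 → P ≠ 1 → Q ^ n = 1 → Q ≠ 1 → (∀ j : ℤ, d x (P ^ j * x) ≤ C) →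
      (∀ j : ℤ, d y (Q ^ j * y) ≤ C) → (∀ k ∈ Subgroup.closure F, d x y ≤ d x (k * y)) →
      100 * Ax ≤ d x y → ∀ U, U = P * Q ∨ U = P * Q * P⁻¹ * Q⁻¹ →
      U ^ n ≠ 1 ∧ (((∃ f ∈ F, Commute U f ∧ Nh d (4 * Ax) (H.Z f) x) ∧ d x y ≤ 2 * Δ) ∨
        π U ^ n ≠ 1)

/-- The conclusion of J2 for one step. -/
def J2P {G G' : Type*} [Group G] [Group G'] {d : G → G → ℕ} {C : ℕ}
    (H : Hubs d (Lx d (100 * C)) C) (F : Set G) (π : G →* G') (n Δ : ℕ) : Prop :=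
  ∀ f ∈ F, ∀ r t : G, (∀ y, Commute y f ↔ y ∈ Subgroup.zpowers r) → f = r ^ n →
      t * f * t⁻¹ ≠ f → t * f * t⁻¹ ≠ f⁻¹ → ∀ x ∈ H.Z f, ∀ y ∈ H.Z (t * f * t⁻¹),
      (∀ x' ∈ H.Z f, ∀ y' ∈ H.Z (t * f * t⁻¹), ∀ k ∈ Subgroup.closure F,
        d x y ≤ d x' (k * y')) →
      ∀ k1 k2 : ℤ, k1 ≠ 0 → k2 ≠ 0 → 2 * |k1| ≤ n → 2 * |k2| ≤ n →
      (100 * (Δ : ℝ) * n ≤ |(k1 : ℝ)| * H.T f ∨ 100 * (Δ : ℝ) * n ≤ |(k2 : ℝ)| * H.T f) →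
      ∀ U, U = r ^ k1 * (t * r ^ k2 * t⁻¹) ∨
        U = r ^ k1 * (t * r ^ k2 * t⁻¹) * (r ^ k1)⁻¹ * (t * r ^ k2 * t⁻¹)⁻¹ →
      U ^ n ≠ 1 ∧ π U ^ n ≠ 1

/-- A tower of groups over `B`. -/
structure Tow (B : Type) [Group B] (C : ℕ) where
  G : ℕ → Type
  grp : ∀ i, Group (G i)
  d : ∀ i, G i → G i → ℕ
  H : ∀ i, Hubs (d i) (Lx (d i) (100 * C)) C
  F : ∀ i, Set (G i)
  π : ∀ i, G i →* G (i + 1)
  p : ∀ i, B →* G i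

attribute [instance] Tow.grp

/-- The properties of the tower. -/
structure Tow.Good {B : Type} [Group B] (P : Par) (T : Tow B P.C)
    (deg : B →* Multiplicative (ZMod P.n)) : Prop where
  surj : ∀ i, Function.Surjective (T.p i)
  comp : ∀ i b, T.π i (T.p i b) = T.p (i + 1) b
  stage : ∀ i, Stage (T.d i) 2000 P.n P.q (10 ^ 6 * P.L) P.L
  alg : ∀ i, Alg (T.H i) P.n P.q P.L P.Ax
  rels : ∀ i, Rels (T.H i) (T.F i) P.n P.L1 P.Δ P.Tm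
  fp : ∀ i, Fp (T.d i) P.n P.L1 ⊆ T.F i
  fw : ∀ i, ∀ f ∈ T.F i, f ∉ Fp (T.d i) P.n P.L1 →
    ∀ y, Commute y f ↔ y ∈ Subgroup.zpowers f
  quo : ∀ i, Quo (T.H i) (T.F i) P.R (T.π i) (T.d (i + 1))
  green : ∀ i, ∀ k ∈ Subgroup.closure (T.F i), k ≠ 1 → ∀ x, ∃ f ∈ T.F i,
    (T.H i).T f - 20 * P.Δ ≤ |(T.H i).Φ f x (k * x)|
  tors : ∀ i, Tors (T.F i) (T.π i) P.n
  cls : ∀ i, ∀ a : T.G (i + 1), (∃ g, g ^ P.n = 1 ∧ T.π i g = a) ∨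
    (∃ f ∈ T.F i, ∃ y, Commute y f ∧ T.π i y = a) ∨
    ∀ (x : T.G (i + 1)) (m : ℕ), m ≤ P.q * T.d (i + 1) x (a ^ m * x)
  j1 : ∀ i, J1P (T.H i) (T.F i) (T.π i) P.n P.Ax P.Δ
  j2 : ∀ i, J2P (T.H i) (T.F i) (T.π i) P.n P.Δ
  zero : ∀ g : T.G 0, g ^ P.n = 1 → g = 1
  inj0 : Function.Injective (T.p 0)
  degF : ∀ i, ∀ f ∈ T.F i, ∃ b, T.p i b = f ∧ deg b = 1
  word : ∀ i, ∀ (S r : T.G i) (a : ℤ), Pair (T.H i) P.n P.L1 P.L2 P.km S r a →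
    (∃ b, T.p i b = S ∧ deg b = 1) → (∃ b, T.p i b = r ^ a ∧ deg b = 1) →
    T.π (i + 1) (T.π i (ww S r a P.h (fun k => (P.M0 : ℤ) * P.lam ^ k))) = 1

/-- The limit group. -/
structure Lim {B : Type} [Group B] {C : ℕ} (T : Tow B C) {D : Type} [Group D] (ω : B →* D) :
    Prop where
  surj : Function.Surjective ω
  ker : ∀ b, ω b = 1 ↔ ∃ i, T.p i b = 1

/-- Part L3: torsion conjugacy descends, centralizers in the limit. -/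
def StLimA : Prop :=
  ∀ (B : Type) [Group B] (P : Par) (M1 T0 : ℕ) (T : Tow B P.C)
    (deg : B →* Multiplicative (ZMod P.n)) (D : Type) [Group D] (ω : B →* D),
    P.Ok M1 T0 → T.Good P deg → Lim T ω →
    (∀ (i : ℕ) (g h : T.G i), g ^ P.n = 1 → h ^ P.n = 1 → ∀ (bg bh z : B), T.p i bg = g →
      T.p i bh = h → ω bg = ω z * ω bh * (ω z)⁻¹ →
      ∃ (t : T.G i) (bt : B), T.p i bt = t ∧ ω bt = ω z ∧ g = t * h * t⁻¹) ∧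
    (∀ z : D, z ^ P.n = 1) ∧
    (∀ S : D, S ≠ 1 → ∃ c : D, ∀ x, Commute x S → x ∈ Subgroup.zpowers c) ∧
    (∀ S g x : D, S ≠ 1 → x ≠ 1 → Commute x S → Commute (g * x * g⁻¹) S → Commute g S)

/-- Part L4 (CL): commutators become powers of killed elements. -/
def StCL : Prop :=
  ∀ (B : Type) [Group B] (P : Par) (M1 T0 : ℕ) (T : Tow B P.C)
    (deg : B →* Multiplicative (ZMod P.n)) (D : Type) [Group D] (ω : B →* D),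
    P.Ok M1 T0 → T.Good P deg → Lim T ω →
    ∀ S g : D, S ≠ 1 → ¬ Commute g S →
      ∃ (i : ℕ) (S' r : T.G i) (a : ℤ) (s v : B), Pair (T.H i) P.n P.L1 P.L2 P.km S' r a ∧
        T.p i s = S' ∧ ω s = S ∧ T.p i v = r ^ a ∧
        ω v = cm (S ^ P.N1) (g * S ^ P.N2 * g⁻¹)

/-- Part L5 (LS). -/
def StLS : Prop :=
  ∀ (B : Type) [Group B] (P : Par) (M1 T0 : ℕ) (T : Tow B P.C)
    (deg : B →* Multiplicative (ZMod P.n)) (D : Type) [Group D] (ω : B →* D),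
    P.Ok M1 T0 → T.Good P deg → Lim T ω →
    ∀ S g t : D, S ≠ 1 → ¬ Commute g S →
      ¬ Commute (t * (S ^ P.N1 * (g * S ^ P.N2 * g⁻¹)) * t⁻¹) S

/-- Part L6: the tower exists. -/
def StTow : Prop :=
  ∃ M1 : ℕ, ∀ C : ℕ, 100 * 2000 ≤ C →
    (∀ (G : Type) [Group G] (d : G → G → ℕ), HypG d 2000 →
      Nonempty (Hubs d (Lx d (100 * C)) C)) →
    ∃ T0 : ℕ, ∀ P : Par, P.C = C → P.L = 1000 * C → P.Ok M1 T0 →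
    ∃ (T : Tow (FreeGroup (Fin 2)) P.C)
      (deg : FreeGroup (Fin 2) →* Multiplicative (ZMod P.n)), T.Good P deg ∧
      Function.Surjective deg ∧
      ∃ b, deg b = 1 ∧ T.p 0 b ≠ 1 ∧ T.d 0 1 (T.p 0 b) ≤ 1

end Pool.Agent.Helper74.TB
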