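import Pool.Agent.Helper74.TB.A2

/-!
MP_7d16da_al, Part A: coarse axes exist (with `C = 1000 δ`).
-/

set_option autoImplicit false

namespace Pool.Agent.Helper74.TB

open Pool.Agent.Helper74.MH

namespace PA

variable {G : Type} [Group G] {d : G → G → ℕ} {δ : ℕ} {f o : G}

/-- The width function. -/
noncomputable def EE (d : G → G → ℕ) (f o x : G) : ℝ := bu d f⁻¹ o x + bu d f o x

/-- The cocycle. -/
noncomputable def PH (d : G → G → ℕ) (f o x y : G) : ℝ :=
  ((bu d f⁻¹ o y - bu d f o y) - (bu d f⁻¹ o x - bu d f o x)) / 2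

theorem PH_add (f o x y z : G) : PH d f o x y + PH d f o y z = PH d f o x z := by
  unfold PH; ring

theorem PH_symm (f o x y : G) : PH d f o y x = -PH d f o x y := by
  unfold PH; ring

theorem Hy.F1 (h : Hy d δ f o) (x y : G) :
    (d x y : ℝ) ≤ (EE d f o x + EE d f o y) / 2 + |PH d f o x y| + 4 * δ := by
  have h1 := le_abs_self (PH d f o x y)
  have h2 := neg_abs_le (PH d f o x y)
  have e : EE d f o x = bu d f⁻¹ o x + bu d f o x := rfl
  have e' : EE d f o y = bu d f⁻¹ o y + bu d f o y := rfl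
  have e'' : PH d f o x y = ((bu d f⁻¹ o y - bu d f o y) - (bu d f⁻¹ o x - bu d f o x)) / 2 := rfl
  rcases h.U x y with h3 | h3 <;> linarith

theorem Hy.F2 (h : Hy d δ f o) {x y : G} (hxy : 44 * (δ : ℝ) < |PH d f o x y|) :
    (EE d f o x + EE d f o y) / 2 + |PH d f o x y| ≤ d x y + 88 * δ := by
  have e : EE d f o x = bu d f⁻¹ o x + bu d f o x := rfl
  have e' : EE d f o y = bu d f⁻¹ o y + bu d f o y := rfl
  have e'' : PH d f o x y = ((bu d f⁻¹ o y - bu d f o y) - (bu d f⁻¹ o x - bu d f o x)) / 2 := rfl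
  have s : (d y x : ℝ) = d x y := by rw [h.hG.path.symm]
  rcases le_total 0 (PH d f o x y) with h0 | h0
  · rw [abs_of_nonneg h0] at hxy ⊢
    rcases h.Lo x y with h3 | h3 <;> linarith
  · rw [abs_of_nonpos h0] at hxy ⊢
    rcases h.Lo y x with h3 | h3 <;> linarith

theorem Hy.E_ge (h : Hy d δ f o) (x : G) : -2 ≤ EE d f o x := h.E0 x

theorem Hy.E_le (h : Hy d δ f o) {z : G} (hz : z ∈ ZZ d δ f) : EE d f o z ≤ 116 * δ := h.EZ hz

theorem Hy.E_lip (h : Hy d δ f o) (x y : G) : EE d f o x ≤ EE d f o y + 2 * d x y := by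
  have h1 := h.bu_lip x y
  have h2 := h.inv.bu_lip x y
  have e : EE d f o x = bu d f⁻¹ o x + bu d f o x := rfl
  have e' : EE d f o y = bu d f⁻¹ o y + bu d f o y := rfl
  linarith

theorem Hy.PH_lip (h : Hy d δ f o) (x y : G) : |PH d f o x y| ≤ d x y := by
  have h1 := h.bu_lip x y
  have h2 := h.inv.bu_lip x y
  have h3 := h.bu_lip y x
  have h4 := h.inv.bu_lip y x
  have s : (d y x : ℝ) = d x y := by rw [h.hG.path.symm]
  rw [s] at h3 h4
  have e'' : PH d f o x y = ((bu d f⁻¹ o y - bu d f o y) - (bu d f⁻¹ o x - bu d f o x)) / 2 := rfl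
  rw [abs_le]
  constructor <;> linarith

theorem Hy.PH_shift (h : Hy d δ f o) (x : G) : PH d f o x (f * x) = TT d f := by
  have h1 := h.bu_shift x
  have h2 := h.inv.bu_shift (f * x)
  rw [inv_mul_cancel_left, TT_inv h.hG] at h2
  unfold PH
  linarith

theorem Hy.PH_zpow (h : Hy d δ f o) (x : G) (m : ℤ) : PH d f o x (f ^ m * x) = m * TT d f := by
  induction m using Int.induction_on with
  | zero => simp [PH]
  | succ n ih =>
    have e : f ^ ((n : ℤ) + 1) * x = f * (f ^ (n : ℤ) * x) := by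
      rw [← mul_assoc, ← zpow_one_add, add_comm]
    rw [e, ← PH_add f o x (f ^ (n : ℤ) * x), ih, h.PH_shift]
    push_cast
    ring
  | pred n ih =>
    have e : f ^ (-(n : ℤ)) * x = f * (f ^ (-(n : ℤ) - 1) * x) := by
      rw [← mul_assoc, ← zpow_one_add]
      congr 2
      ring
    rw [e, ← PH_add f o x (f ^ (-(n : ℤ) - 1) * x), h.PH_shift] at ih
    push_cast at ih ⊢
    linarith

/-- every value is taken on the axis up to one -/
theorem Hy.dens (h : Hy d δ f o) (x : G) (t : ℝ) : ∃ w ∈ ZZ d δ f, |PH d f o x w - t| ≤ 1 := by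
  have hT : 0 < TT d f := by linarith [h.T1]
  set m : ℤ := ⌊(t - PH d f o x o) / TT d f⌋ with hm
  have h1 : (m : ℝ) * TT d f ≤ t - PH d f o x o := by
    have := Int.floor_le ((t - PH d f o x o) / TT d f)
    rwa [le_div_iff₀ hT] at this
  have h2 : t - PH d f o x o < (m + 1) * TT d f := by
    have := Int.lt_floor_add_one ((t - PH d f o x o) / TT d f)
    rwa [div_lt_iff₀ hT] at this
  set o' : G := f ^ m * o with ho'
  have hmem : o' ∈ ZZ d δ f := ZZ_zpow h.hG h.mem m
  have h3 : PH d f o x o' = PH d f o x o + m * TT d f := by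
    rw [← PH_add f o x o, ho', h.PH_zpow]
  have h4 : PH d f o x (f * o') = PH d f o x o + (m + 1) * TT d f := by
    rw [← PH_add f o x o', h3, h.PH_shift]
    ring
  obtain ⟨γ, hγ0, hγ1, hγ⟩ := exists_geo h.hG.path o' (f * o')
  have hex : ∃ i : ℕ, t ≤ PH d f o x (γ i) ∧ i ≤ d o' (f * o') :=
    ⟨_, by rw [hγ1, h4]; linarith, le_rfl⟩
  classical
  obtain ⟨hi1, hi2⟩ := Nat.find_spec hex
  have hmin := fun j (hj : j < Nat.find hex) => Nat.find_min hex hj
  revert hi1 hi2 hmin
  generalize Nat.find hex = i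
  intro hi1 hi2 hmin
  have hbt : γ i ∈ ZZ d δ f := by
    refine ZZ_btw h.hG hmem ?_
    have := hb_btw h.hG hγ (Nat.zero_le i) hi2 le_rfl
    rwa [hγ0, hγ1] at this
  refine ⟨γ i, hbt, ?_⟩
  rcases Nat.eq_zero_or_pos i with rfl | hi
  · rw [hγ0, h3] at hi1 ⊢
    rw [abs_le]
    constructor <;> linarith
  · have h5 := hmin (i - 1) (by omega)
    have h6 : PH d f o x (γ (i - 1)) < t := by
      by_contra hcon
      exact h5 ⟨not_lt.1 hcon, by omega⟩
    have h7 := h.PH_lip (γ (i - 1)) (γ i)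
    have h8 := hγ (i - 1) i (by omega) hi2
    have h9 : d (γ (i - 1)) (γ i) = 1 := by omega
    rw [h9, Nat.cast_one, abs_le] at h7
    have h10 := PH_add (d := d) f o x (γ (i - 1)) (γ i)
    rw [abs_le]
    constructor <;> linarith

theorem Hy.near (h : Hy d δ f o) {x π : G} (hmin : ∀ w ∈ ZZ d δ f, d x π ≤ d x w) :
    (d x π : ℝ) ≤ EE d f o x / 2 + 63 * δ := by
  obtain ⟨w, hw, hxw⟩ := h.dens x 0
  have h1 := h.F1 x w
  have h2 := h.E_le hw
  have h3 : (d x π : ℝ) ≤ d x w := by exact_mod_cast hmin w hw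
  rw [sub_zero] at hxw
  have := h.pos
  linarith

theorem Hy.far (h : Hy d δ f o) {x w : G} (hw : w ∈ ZZ d δ f) :
    EE d f o x / 2 ≤ d x w + 58 * δ := by
  have h1 := h.E_lip x w
  have h2 := h.E_le hw
  linarith

theorem Hy.on (h : Hy d δ f o) {x y : G} (hx : x ∈ ZZ d δ f) (hy : y ∈ ZZ d δ f) :
    (d x y : ℝ) ≤ |PH d f o x y| + 120 * δ := by
  have h1 := h.F1 x y
  have h2 := h.E_le hx
  have h3 := h.E_le hy
  linarith

theorem Hy.prphi (h : Hy d δ f o) {x π : G} (hπ : π ∈ ZZ d δ f)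
    (hmin : ∀ w ∈ ZZ d δ f, d x π ≤ d x w) : |PH d f o x π| ≤ 152 * δ := by
  have _ := hπ
  have hpos := h.pos
  by_contra hcon
  push Not at hcon
  have h1 := h.F2 (x := x) (y := π) (by linarith)
  have h2 := h.near hmin
  have h3 := h.E_ge π
  linarith

theorem Hy.gate (h : Hy d δ f o) {x π w : G} (hπ : π ∈ ZZ d δ f)
    (hmin : ∀ w ∈ ZZ d δ f, d x π ≤ d x w) (hw : w ∈ ZZ d δ f) :
    (d x π : ℝ) + d π w ≤ d x w + 437 * δ := by
  have hpos := h.pos
  have h1 := h.on hπ hw
  have h2 := h.prphi hπ hmin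
  have h3 := h.near hmin
  have h4 : |PH d f o π w| ≤ |PH d f o x w| + |PH d f o x π| := by
    have e : PH d f o π w = PH d f o x w - PH d f o x π := by
      rw [← PH_add f o x π w]; ring
    rw [e]
    exact abs_sub _ _
  by_cases h5 : 44 * (δ : ℝ) < |PH d f o x w|
  · have h6 := h.F2 h5
    have h7 := h.E_ge w
    linarith
  · have h6 := h.far (x := x) hw
    linarith

theorem Hy.thr (h : Hy d δ f o) {x y π π' : G} (hmin : ∀ w ∈ ZZ d δ f, d x π ≤ d x w)
    (hmin' : ∀ w ∈ ZZ d δ f, d y π' ≤ d y w) (hxy : 1000 * (δ : ℝ) ≤ |PH d f o x y|) :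
    (d x π : ℝ) + |PH d f o x y| + d y π' ≤ d x y + 214 * δ := by
  have hpos := h.pos
  have h1 := h.near hmin
  have h2 := h.near hmin'
  have h3 := h.F2 (x := x) (y := y) (by linarith)
  linarith

theorem Hy.qc (h : Hy d δ f o) {x p y : G} (hx : x ∈ ZZ d δ f) (hy : y ∈ ZZ d δ f)
    (hp : d x p + d p y = d x y) : EE d f o p ≤ 178 * δ := by
  have h1 := h.E_le hx
  have h2 := h.E_le hy
  have h3 := h.PH_lip x y
  have h4 := (abs_le.1 h3).1
  have h5 := (abs_le.1 h3).2
  have e0 : EE d f o p = bu d f⁻¹ o p + bu d f o p := rfl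
  have e : EE d f o x = bu d f⁻¹ o x + bu d f o x := rfl
  have e' : EE d f o y = bu d f⁻¹ o y + bu d f o y := rfl
  have e'' : PH d f o x y = ((bu d f⁻¹ o y - bu d f o y) - (bu d f⁻¹ o x - bu d f o x)) / 2 := rfl
  have n1 : (0 : ℝ) ≤ d x p := Nat.cast_nonneg _
  have n2 : (0 : ℝ) ≤ d p y := Nat.cast_nonneg _
  have hp' : (d x p : ℝ) + d p y = d x y := by exact_mod_cast hp
  rcases h.conv hp with h6 | h6 <;> rcases h.inv.conv hp with h7 | h7 <;> linarith

/-- change of the base point -/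
theorem Hy.PH_base {o' : G} (h : Hy d δ f o) (h' : Hy d δ f o') (x y : G) :
    |PH d f o' x y - PH d f o x y| ≤ 60 * δ := by
  have h1 := h.base h' x y
  have h2 := h'.base h x y
  have h3 := h.inv.base h'.inv x y
  have h4 := h'.inv.base h.inv x y
  unfold PH
  rw [abs_le]
  constructor <;> linarith

theorem exists_near (f x : G) : ∃ π ∈ ZZ d δ f, ∀ w ∈ ZZ d δ f, d x π ≤ d x w := by
  obtain ⟨z, hz⟩ := ZZ_nonempty (d := d) (δ := δ) f
  have hne : ((fun w => d x w) '' ZZ d δ f).Nonempty := ⟨_, z, hz, rfl⟩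
  obtain ⟨π, hπ, hπ'⟩ := Nat.sInf_mem hne
  refine ⟨π, hπ, fun w hw => ?_⟩
  have : sInf ((fun w => d x w) '' ZZ d δ f) ≤ d x w := Nat.sInf_le ⟨w, hw, rfl⟩
  rw [← hπ'] at this
  exact this

/-- base points -/
noncomputable def oo (d : G → G → ℕ) (δ : ℕ) (f : G) : G := (ZZ_nonempty (d := d) (δ := δ) f).choose

theorem oo_mem (f : G) : oo d δ f ∈ ZZ d δ f := (ZZ_nonempty (d := d) (δ := δ) f).choose_spec

theorem Hy.conj (h : Hy d δ f o) (g : G) : Hy d δ (g * f * g⁻¹) (g * o) where
  hG := h.hG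
  big := fun x => by
    have h1 := h.big (g⁻¹ * x)
    have h2 := disp_conj h.hG f g (g⁻¹ * x)
    rw [mul_inv_cancel_left] at h2
    rwa [h2]
  mem := (ZZ_conj h.hG f g o).2 h.mem

end PA

open PA in
/-- Part A. -/
theorem stA : StA := by
  intro δ hδ
  refine ⟨1000 * δ, by omega, ?_⟩
  intro G _ d hG
  have hy : ∀ f ∈ Lx d (100 * (1000 * δ)), Hy d δ f (oo d δ f) := fun f hf =>
    ⟨hG, fun x => by have := hf x; omega, oo_mem f⟩
  have hXc : ∀ f ∈ Lx d (100 * (1000 * δ)), ∀ g, g * f * g⁻¹ ∈ Lx d (100 * (1000 * δ)) := by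
    intro f hf g x
    have h1 := hf (g⁻¹ * x)
    have h2 := disp_conj hG f g (g⁻¹ * x)
    rw [mul_inv_cancel_left] at h2
    rwa [h2]
  have hXi : ∀ f ∈ Lx d (100 * (1000 * δ)), f⁻¹ ∈ Lx d (100 * (1000 * δ)) := by
    intro f hf x
    rw [disp_inv hG]
    exact hf x
  exact ⟨{
    Z := ZZ d δ
    T := TT d
    Φ := fun f => PH d f (oo d δ f)
    pr := fun f x => (exists_near (d := d) (δ := δ) f x).choose
    Xconj := hXc
    Xinv := hXi
    Zconj := fun f _ g x => ZZ_conj hG f g x
    Zinv := fun f _ => ZZ_inv hG f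
    Tconj := fun f _ g => TT_conj hG f g
    Tinv := fun f _ => TT_inv hG f
    Tbig := fun f hf => by
      have h1 := (hy f hf).T_ge (hf _)
      have h2 := (hy f hf).pos
      push_cast at h1 ⊢
      linarith
    coc := fun f _ x y z => PH_add f _ x y z
    lip := fun f hf x y => (hy f hf).PH_lip x y
    shift := fun f hf x => (hy f hf).PH_shift x
    equi := fun f hf g x y => by
      have h1 := hy f hf
      have h2 := hy _ (hXc f hf g)
      have h3 : Hy d δ f (g⁻¹ * oo d δ (g * f * g⁻¹)) := by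
        refine ⟨hG, h1.big, ?_⟩
        rw [← ZZ_conj hG f g, mul_inv_cancel_left]
        exact oo_mem _
      have h4 := h1.PH_base h3 x y
      have e : PH d (g * f * g⁻¹) (oo d δ (g * f * g⁻¹)) (g * x) (g * y) =
          PH d f (g⁻¹ * oo d δ (g * f * g⁻¹)) x y := by
        unfold PH
        have e1 : (g * f * g⁻¹)⁻¹ = g * f⁻¹ * g⁻¹ := by group
        generalize oo d δ (g * f * g⁻¹) = o'
        rw [e1, Hy.bu_conj hG, Hy.bu_conj hG, Hy.bu_conj hG, Hy.bu_conj hG]
      rw [e]
      refine h4.trans ?_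
      have := h1.pos
      push_cast
      linarith
    neg := fun f hf x y => by
      have h1 := hy f hf
      have h3 : Hy d δ f (oo d δ f⁻¹) := by
        refine ⟨hG, h1.big, ?_⟩
        rw [← ZZ_inv hG f]
        exact oo_mem _
      have h4 := h1.PH_base h3 x y
      have e : PH d f⁻¹ (oo d δ f⁻¹) x y = -PH d f (oo d δ f⁻¹) x y := by
        unfold PH
        rw [inv_inv]
        ring
      rw [e]
      have h5 : -PH d f (oo d δ f⁻¹) x y + PH d f (oo d δ f) x y =
          -(PH d f (oo d δ f⁻¹) x y - PH d f (oo d δ f) x y) := by ring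
      rw [h5, abs_neg]
      refine h4.trans ?_
      have := h1.pos
      push_cast
      linarith
    pr_mem := fun f _ x => (exists_near (d := d) (δ := δ) f x).choose_spec.1
    pr_min := fun f _ x w hw => (exists_near (d := d) (δ := δ) f x).choose_spec.2 w hw
    pr_gate := fun f hf x w hw => by
      have h1 := (hy f hf).gate (exists_near (d := d) (δ := δ) f x).choose_spec.1
        (exists_near (d := d) (δ := δ) f x).choose_spec.2 hw
      have h2 := (hy f hf).pos
      have h3 : (d x (exists_near (d := d) (δ := δ) f x).choose : ℝ) +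
          d (exists_near (d := d) (δ := δ) f x).choose w ≤ d x w + (1000 * δ : ℕ) := by
        push_cast
        linarith
      exact_mod_cast h3
    pr_phi := fun f hf x => by
      have h1 := (hy f hf).prphi (exists_near (d := d) (δ := δ) f x).choose_spec.1
        (exists_near (d := d) (δ := δ) f x).choose_spec.2
      have h2 := (hy f hf).pos
      refine h1.trans ?_
      push_cast
      linarith
    on := fun f hf x hx y hy' => by
      have h1 := (hy f hf).on hx hy'
      have h2 := (hy f hf).pos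
      refine h1.trans ?_
      push_cast
      linarith
    thr := fun f hf x y hxy => by
      have h2 := (hy f hf).pos
      have h1 := (hy f hf).thr (exists_near (d := d) (δ := δ) f x).choose_spec.2
        (exists_near (d := d) (δ := δ) f y).choose_spec.2 (by push_cast at hxy; exact hxy)
      rw [hG.path.symm (exists_near (d := d) (δ := δ) f y).choose y]
      push_cast
      linarith
    qc := fun f hf x hx y hy' p hp => by
      refine ⟨_, (exists_near (d := d) (δ := δ) f p).choose_spec.1, ?_⟩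
      have h1 := (hy f hf).qc hx hy' hp
      have h3 := (hy f hf).near (exists_near (d := d) (δ := δ) f p).choose_spec.2
      have h2 := (hy f hf).pos
      have h4 : (d p (exists_near (d := d) (δ := δ) f p).choose : ℝ) ≤ (1000 * δ : ℕ) := by
        push_cast
        linarith
      exact_mod_cast h4
    dense := fun f hf x _ t => by
      obtain ⟨w, hw, hxw⟩ := (hy f hf).dens x t
      refine ⟨w, hw, hxw.trans ?_⟩
      have h2 := (hy f hf).pos
      push_cast
      linarith }⟩

end Pool.Agent.Helper74.TB
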