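import Pool.Agent.Helper74.TB.StAC

/-!
MP_7d16da_al, Part A, first file: stable translation length and chains.
-/

set_option autoImplicit false

namespace Pool.Agent.Helper74.TB

open Pool.Agent.Helper74.MH

namespace PA

variable {G : Type} [Group G] {d : G → G → ℕ} {δ : ℕ}

/-- Points which are almost minimally displaced. -/
def ZZ (d : G → G → ℕ) (δ : ℕ) (f : G) : Set G := {x | ∀ y, d x (f * x) ≤ d y (f * y) + 20 * δ}

/-- Stable translation length. -/
noncomputable def TT (d : G → G → ℕ) (f : G) : ℝ :=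
  sInf {r | ∃ m : ℕ, 1 ≤ m ∧ r = (d 1 (f ^ m) : ℝ) / m}

theorem arch {a b B : ℝ} (h : ∀ k : ℕ, (k : ℝ) * a ≤ B + k * b) : a ≤ b := by
  by_contra hcon
  push Not at hcon
  obtain ⟨k, hk⟩ := exists_nat_gt (B / (a - b))
  rw [div_lt_iff₀ (by linarith)] at hk
  have := h k
  nlinarith

theorem TT_le (f : G) {m : ℕ} (hm : 1 ≤ m) : TT d f ≤ (d 1 (f ^ m) : ℝ) / m := by
  refine csInf_le ⟨0, ?_⟩ ⟨m, hm, rfl⟩
  rintro r ⟨m, _, rfl⟩
  positivity

theorem le_TT (f : G) {a : ℝ} (h : ∀ m : ℕ, 1 ≤ m → a ≤ (d 1 (f ^ m) : ℝ) / m) : a ≤ TT d f := by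
  refine le_csInf ⟨_, 1, le_rfl, rfl⟩ ?_
  rintro r ⟨m, hm, rfl⟩
  exact h m hm

theorem TT_nonneg (f : G) : 0 ≤ TT d f := le_TT f fun m _ => by positivity

/-- displacement of powers -/
theorem disp_add (hG : HypG d δ) (f y : G) (m k : ℕ) :
    d y (f ^ (m + k) * y) ≤ d y (f ^ m * y) + d y (f ^ k * y) := by
  have h1 := hG.path.tri y (f ^ m * y) (f ^ (m + k) * y)
  have h2 : d (f ^ m * y) (f ^ (m + k) * y) = d y (f ^ k * y) := by
    rw [pow_add, mul_assoc, hG.inv]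
  omega

theorem disp_mul (hG : HypG d δ) (f y : G) (m k : ℕ) :
    d y (f ^ (m * k) * y) ≤ k * d y (f ^ m * y) := by
  induction k with
  | zero => simp [hb_self hG]
  | succ k ih =>
    have h1 := disp_add hG f y (m * k) m
    have h2 : m * (k + 1) = m * k + m := by ring
    rw [h2]
    calc _ ≤ _ := h1
      _ ≤ k * d y (f ^ m * y) + d y (f ^ m * y) := Nat.add_le_add_right ih _
      _ = (k + 1) * d y (f ^ m * y) := by ring

theorem disp_change (hG : HypG d δ) (f x y : G) :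
    d x (f * x) ≤ 2 * d x y + d y (f * y) := by
  have h1 := hG.path.tri x y (f * x)
  have h2 := hG.path.tri y (f * y) (f * x)
  have h3 := hG.inv f y x
  have h4 := hG.path.symm x y
  omega

/-- every point is moved by `f ^ m` at least `m T` -/
theorem TT_disp (hG : HypG d δ) (f y : G) (m : ℕ) : (m : ℝ) * TT d f ≤ d y (f ^ m * y) := by
  refine arch (B := 2 * d 1 y) fun k => ?_
  rcases Nat.eq_zero_or_pos k with rfl | hk
  · simp
  rcases Nat.eq_zero_or_pos m with rfl | hm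
  · simp only [Nat.cast_zero, zero_mul, mul_zero]; positivity
  have hmk : 1 ≤ m * k := Nat.mul_pos hm hk
  have h1 := TT_le (d := d) f hmk
  rw [le_div_iff₀ (by exact_mod_cast hmk)] at h1
  have h2 := disp_change hG (f ^ (m * k)) 1 y
  rw [mul_one] at h2
  have h3 := disp_mul hG f y m k
  have h4 : (d 1 (f ^ (m * k)) : ℝ) ≤ 2 * d 1 y + k * d y (f ^ m * y) := by
    exact_mod_cast h2.trans (Nat.add_le_add_left h3 _)
  push_cast at h1
  linarith

/-- an almost additive point is moved at most `m T + K` -/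
theorem TT_ge (hG : HypG d δ) (f x : G) (K : ℕ)
    (h : ∀ m m' : ℕ, d x (f ^ m * x) + d x (f ^ m' * x) ≤ d x (f ^ (m + m') * x) + K) (m : ℕ) :
    (d x (f ^ m * x) : ℝ) ≤ m * TT d f + K := by
  rcases Nat.eq_zero_or_pos m with rfl | hm
  · simp [hb_self hG]
  have hsup : ∀ j : ℕ, j * d x (f ^ m * x) ≤ d x (f ^ (m * j) * x) + j * K := by
    intro j
    induction j with
    | zero => simp
    | succ j ih =>
      have h1 := h (m * j) m
      have h2 : m * (j + 1) = m * j + m := by ring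
      rw [h2]
      have h3 : (j + 1) * d x (f ^ m * x) = j * d x (f ^ m * x) + d x (f ^ m * x) := by ring
      have h4 : (j + 1) * K = j * K + K := by ring
      omega
  have hm' : (0 : ℝ) < m := by exact_mod_cast hm
  have key : ((d x (f ^ m * x) : ℝ) - K) / m ≤ TT d f := by
    refine le_TT f fun n hn => ?_
    have hn' : (0 : ℝ) < n := by exact_mod_cast hn
    rw [div_le_div_iff₀ hm' hn']
    refine arch (B := 2 * d x 1) fun k => ?_
    have h1 := hsup (n * k)
    have h2 := disp_change hG (f ^ (m * (n * k))) x 1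
    rw [mul_one] at h2
    have h3 := disp_mul hG f 1 n (m * k)
    rw [mul_one, mul_one] at h3
    have h4 : n * (m * k) = m * (n * k) := by ring
    rw [h4] at h3
    have h5 : (((n * k) * d x (f ^ m * x) : ℕ) : ℝ) ≤
        ((2 * d x 1 + (m * k) * d 1 (f ^ n) + (n * k) * K : ℕ) : ℝ) := by
      exact_mod_cast (h1.trans (Nat.add_le_add_right (h2.trans (Nat.add_le_add_left h3 _)) _))
    push_cast at h5
    linarith
  rw [div_le_iff₀ hm'] at key
  linarith

theorem TT_inv (hG : HypG d δ) (f : G) : TT d f⁻¹ = TT d f := by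
  unfold TT
  congr 1
  ext r
  have h : ∀ m : ℕ, d 1 (f⁻¹ ^ m) = d 1 (f ^ m) := by
    intro m
    have h1 := hG.inv (f ^ m) 1 (f⁻¹ ^ m)
    rw [inv_pow, mul_inv_cancel, mul_one] at h1
    rw [inv_pow, ← h1, hG.path.symm]
  constructor
  · rintro ⟨m, hm, rfl⟩; exact ⟨m, hm, by rw [h]⟩
  · rintro ⟨m, hm, rfl⟩; exact ⟨m, hm, by rw [h]⟩

theorem TT_conj_le (hG : HypG d δ) (f g : G) : TT d f ≤ TT d (g * f * g⁻¹) := by
  refine le_TT _ fun m hm => ?_
  have hm' : (0 : ℝ) < m := by exact_mod_cast hm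
  rw [le_div_iff₀ hm', conj_pow]
  have h1 := TT_disp hG f g⁻¹ m
  have h2 := hG.inv g g⁻¹ (f ^ m * g⁻¹)
  rw [mul_inv_cancel, ← mul_assoc] at h2
  rw [h2]
  linarith

theorem TT_conj (hG : HypG d δ) (f g : G) : TT d (g * f * g⁻¹) = TT d f := by
  refine le_antisymm ?_ (TT_conj_le hG f g)
  have h := TT_conj_le hG (g * f * g⁻¹) g⁻¹
  have h2 : g⁻¹ * (g * f * g⁻¹) * g⁻¹⁻¹ = f := by group
  rwa [h2] at h

/-! ### The set `Z f` -/

theorem ZZ_nonempty (f : G) : ∃ x, x ∈ ZZ d δ f := by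
  obtain ⟨x, hx⟩ := exists_minimal_nat_disp (fun y => d y (f * y))
  exact ⟨x, fun y => (hx y).trans (Nat.le_add_right _ _)⟩
where
  exists_minimal_nat_disp (u : G → ℕ) : ∃ x, ∀ y, u x ≤ u y := by
    have hne : (Set.range u).Nonempty := ⟨u 1, 1, rfl⟩
    obtain ⟨x, hx⟩ := Nat.sInf_mem hne
    exact ⟨x, fun y => by rw [hx]; exact Nat.sInf_le ⟨y, rfl⟩⟩

theorem disp_inv (hG : HypG d δ) (f x : G) : d x (f⁻¹ * x) = d x (f * x) := by
  have h1 := hG.inv f x (f⁻¹ * x)
  rw [mul_inv_cancel_left] at h1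
  rw [← h1, hG.path.symm]

theorem ZZ_inv (hG : HypG d δ) (f : G) : ZZ d δ f⁻¹ = ZZ d δ f := by
  ext x
  simp only [ZZ, Set.mem_ofPred_eq, disp_inv hG]

theorem disp_conj (hG : HypG d δ) (f g x : G) :
    d (g * x) (g * f * g⁻¹ * (g * x)) = d x (f * x) := by
  have : g * f * g⁻¹ * (g * x) = g * (f * x) := by group
  rw [this, hG.inv]

theorem ZZ_conj (hG : HypG d δ) (f g x : G) : g * x ∈ ZZ d δ (g * f * g⁻¹) ↔ x ∈ ZZ d δ f := by
  simp only [ZZ, Set.mem_ofPred_eq, disp_conj hG]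
  constructor
  · intro h y
    have := h (g * y)
    rwa [disp_conj hG] at this
  · intro h y
    have := h (g⁻¹ * y)
    rw [← disp_conj hG f g (g⁻¹ * y), mul_inv_cancel_left] at this
    exact this

theorem ZZ_zpow (hG : HypG d δ) {f x : G} (hx : x ∈ ZZ d δ f) (m : ℤ) : f ^ m * x ∈ ZZ d δ f := by
  have h : f ^ m * f * (f ^ m)⁻¹ = f := by group
  have h2 := (ZZ_conj hG f (f ^ m) x).2 hx
  rwa [h] at h2

/-- points between `x` and `f x` -/
theorem ZZ_btw (hG : HypG d δ) {f x p : G} (hx : x ∈ ZZ d δ f)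
    (hp : d x p + d p (f * x) = d x (f * x)) : p ∈ ZZ d δ f := by
  intro y
  have h1 := hx y
  have h2 := hG.path.tri p (f * x) (f * p)
  have h3 := hG.inv f x p
  omega

/-- (P1) -/
theorem prod_small (hG : HypG d δ) {f x : G} (hx : x ∈ ZZ d δ f)
    (hX : 100 * δ ≤ d x (f * x)) :
    d x (f * x) + d (f * x) (f * (f * x)) ≤ d x (f * (f * x)) + 24 * δ := by
  have h1 := hG.one
  obtain ⟨p, hp, hps⟩ := hG.path.geod x (f * x) (d x (f * x) / 2) (Nat.div_le_self _ _)
  have hp' : d x p + d p (f * x) = d x (f * x) := hp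
  have e1 := hG.inv f x p
  have e2 := hG.inv f p (f * x)
  have e3 := hG.inv f x (f * x)
  have h2 := hx p
  have s1 := hG.path.symm x (f * x)
  have s2 := hG.path.symm p (f * x)
  have s3 := hG.path.symm x p
  have s4 := hG.path.symm (f * (f * x)) (f * x)
  have s5 := hG.path.symm (f * (f * x)) (f * p)
  have s6 := hG.path.symm (f * p) (f * x)
  -- `gp(fx; p, fp) ≥ min (gp(fx; p, x), gp(fx; x, fp)) - 2δ`
  have f1 := hb_four hG p x (f * p) (f * x)
  -- `gp(fx; x, fp) ≥ min (gp(fx; x, ffx), gp(fx; ffx, fp)) - 2δ`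
  have f2 := hb_four hG x (f * (f * x)) (f * p) (f * x)
  omega

/-- (P2) -/
theorem chain (hG : HypG d δ) {f x : G} (hx : x ∈ ZZ d δ f) (hX : 100 * δ ≤ d x (f * x))
    {i j k : ℕ} (hij : i ≤ j) (hjk : j ≤ k) :
    d (f ^ i * x) (f ^ j * x) + d (f ^ j * x) (f ^ k * x) ≤
      d (f ^ i * x) (f ^ k * x) + 28 * δ := by
  have h1 := hG.one
  have hstep : ∀ i : ℕ, d (f ^ i * x) (f ^ (i + 1) * x) = d x (f * x) := by
    intro i
    rw [pow_succ, mul_assoc, hG.inv]
  have h := hb_chain hG (m := k) (a := 24 * δ) (x := fun i => f ^ i * x) ?_ ?_ hij hjk le_rfl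
  · have h' : d (f ^ i * x) (f ^ j * x) + d (f ^ j * x) (f ^ k * x) ≤
        d (f ^ i * x) (f ^ k * x) + 24 * δ + 4 * δ := h
    omega
  · intro i _
    have h2 := prod_small hG hx hX
    change d (f ^ i * x) (f ^ (i + 1) * x) + d (f ^ (i + 1) * x) (f ^ (i + 2) * x) ≤
      d (f ^ i * x) (f ^ (i + 2) * x) + 24 * δ
    have e1 : d (f ^ i * x) (f ^ (i + 2) * x) = d x (f * (f * x)) := by
      rw [pow_add, mul_assoc, hG.inv, pow_two, mul_assoc]
    rw [e1, hstep, hstep]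
    have e2 := hG.inv f x (f * x)
    omega
  · intro i _
    change 24 * δ + 10 * δ ≤ d (f ^ i * x) (f ^ (i + 1) * x)
    rw [hstep]
    omega

theorem disp_sup (hG : HypG d δ) {f x : G} (hx : x ∈ ZZ d δ f) (hX : 100 * δ ≤ d x (f * x))
    (m m' : ℕ) :
    d x (f ^ m * x) + d x (f ^ m' * x) ≤ d x (f ^ (m + m') * x) + 28 * δ := by
  have h := chain hG hx hX (Nat.zero_le m) (Nat.le_add_right m m')
  rw [pow_zero, one_mul] at h
  have e : d (f ^ m * x) (f ^ (m + m') * x) = d x (f ^ m' * x) := by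
    rw [pow_add, mul_assoc, hG.inv]
  omega

theorem disp_le (hG : HypG d δ) {f x : G} (hx : x ∈ ZZ d δ f) (hX : 100 * δ ≤ d x (f * x))
    (m : ℕ) : (d x (f ^ m * x) : ℝ) ≤ m * TT d f + 28 * δ := by
  have h := TT_ge hG f x (28 * δ) (disp_sup hG hx hX) m
  push_cast at h
  exact h

end PA

end Pool.Agent.Helper74.TB
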