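import Pool.Agent.Helper74.TB.A1

/-!
MP_7d16da_al, Part A, second file: Busemann functions of the ends of an axis.
-/

set_option autoImplicit false

namespace Pool.Agent.Helper74.TB

open Pool.Agent.Helper74.MH

namespace PA

/-- Upper limit of a bounded sequence. -/
noncomputable def Lm (c : ℕ → ℝ) : ℝ := sInf {a | ∃ N : ℕ, ∀ M, N ≤ M → c M ≤ a}

theorem Lm_le {c : ℕ → ℝ} {K a : ℝ} (hK : ∀ M, K ≤ c M) (N : ℕ) (h : ∀ M, N ≤ M → c M ≤ a) :
    Lm c ≤ a := by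
  refine csInf_le ⟨K, ?_⟩ ⟨N, h⟩
  rintro r ⟨N', hN'⟩
  exact (hK N').trans (hN' N' le_rfl)

theorem le_Lm {c : ℕ → ℝ} {K a : ℝ} (hK : ∀ M, c M ≤ K)
    (h : ∀ (r : ℝ) (N : ℕ), (∀ M, N ≤ M → c M ≤ r) → a ≤ r) : a ≤ Lm c := by
  refine le_csInf ⟨K, 0, fun M _ => hK M⟩ ?_
  rintro r ⟨N, hN⟩
  exact h r N hN

theorem Lm_ev {c : ℕ → ℝ} {K : ℝ} (hK : ∀ M, c M ≤ K) {ε : ℝ} (hε : 0 < ε) :
    ∃ N : ℕ, ∀ M, N ≤ M → c M ≤ Lm c + ε := by
  have hne : {a | ∃ N : ℕ, ∀ M, N ≤ M → c M ≤ a}.Nonempty := ⟨K, 0, fun M _ => hK M⟩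
  obtain ⟨r, ⟨N, hN⟩, hr⟩ := exists_lt_of_csInf_lt hne
    (show sInf {a | ∃ N : ℕ, ∀ M, N ≤ M → c M ≤ a} < Lm c + ε from lt_add_of_pos_right _ hε)
  exact ⟨N, fun M hM => (hN M hM).trans hr.le⟩

variable {G : Type} [Group G] {d : G → G → ℕ} {δ : ℕ} {f o : G}

/-- The Busemann function of the attracting end. -/
noncomputable def bu (d : G → G → ℕ) (f o x : G) : ℝ :=
  Lm fun M => (d x (f ^ M * o) : ℝ) - M * TT d f

/-- hypotheses for the axis of `f` with base point `o` -/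
structure Hy (d : G → G → ℕ) (δ : ℕ) (f o : G) : Prop where
  hG : HypG d δ
  big : ∀ x, 100 * δ ≤ d x (f * x)
  mem : o ∈ ZZ d δ f

theorem Hy.inv (h : Hy d δ f o) : Hy d δ f⁻¹ o where
  hG := h.hG
  big := fun x => by rw [disp_inv h.hG]; exact h.big x
  mem := by rw [ZZ_inv h.hG]; exact h.mem

theorem Hy.pos (h : Hy d δ f o) : (1 : ℝ) ≤ δ := by exact_mod_cast h.hG.one

theorem Hy.T_ge (h : Hy d δ f o) {B : ℕ} (hB : B ≤ d o (f * o)) : (B : ℝ) - 28 * δ ≤ TT d f := by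
  have h1 := disp_le h.hG h.mem (h.big o) 1
  rw [pow_one, Nat.cast_one, one_mul] at h1
  have h2 : (B : ℝ) ≤ d o (f * o) := by exact_mod_cast hB
  linarith

theorem Hy.T1 (h : Hy d δ f o) : 72 ≤ TT d f := by
  have h1 := h.T_ge (h.big o)
  have h2 := h.pos
  push_cast at h1
  linarith

theorem Hy.disp (h : Hy d δ f o) (M : ℕ) : (d o (f ^ M * o) : ℝ) ≤ M * TT d f + 28 * δ :=
  disp_le h.hG h.mem (h.big o) M

theorem Hy.lo (h : Hy d δ f o) (x : G) (M : ℕ) :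
    -(d x o : ℝ) ≤ (d x (f ^ M * o) : ℝ) - M * TT d f := by
  have h1 := TT_disp h.hG f o M
  have h2 : (d o (f ^ M * o) : ℝ) ≤ d x o + d x (f ^ M * o) := by
    have h3 := h.hG.path.tri o x (f ^ M * o)
    have h4 := h.hG.path.symm o x
    rw [h4] at h3
    exact_mod_cast h3
  linarith

theorem Hy.up (h : Hy d δ f o) (x : G) (M : ℕ) :
    (d x (f ^ M * o) : ℝ) - M * TT d f ≤ d x o + 28 * δ := by
  have h1 := h.disp M
  have h2 : (d x (f ^ M * o) : ℝ) ≤ d x o + d o (f ^ M * o) := by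
    exact_mod_cast h.hG.path.tri x o (f ^ M * o)
  linarith

theorem Hy.bu_le (h : Hy d δ f o) (x : G) (M : ℕ) :
    bu d f o x ≤ (d x (f ^ M * o) : ℝ) - M * TT d f + 28 * δ := by
  refine Lm_le (h.lo x) M fun M' hM' => ?_
  obtain ⟨j, rfl⟩ := Nat.exists_eq_add_of_le hM'
  have h1 := h.disp j
  have h2 : (d x (f ^ (M + j) * o) : ℝ) ≤ d x (f ^ M * o) + d o (f ^ j * o) := by
    have h3 := h.hG.path.tri x (f ^ M * o) (f ^ (M + j) * o)
    have h4 : d (f ^ M * o) (f ^ (M + j) * o) = d o (f ^ j * o) := by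
      rw [pow_add, mul_assoc, h.hG.inv]
    rw [h4] at h3
    exact_mod_cast h3
  push_cast
  linarith

theorem Hy.bu_ev (h : Hy d δ f o) (x : G) :
    ∃ N : ℕ, ∀ M, N ≤ M → (d x (f ^ M * o) : ℝ) - M * TT d f ≤ bu d f o x + 1 :=
  Lm_ev (h.up x) one_pos

theorem Hy.bu_lip (h : Hy d δ f o) (x y : G) : bu d f o x ≤ bu d f o y + d x y := by
  rw [← sub_le_iff_le_add]
  refine le_Lm (h.up y) fun r N hN => ?_
  rw [sub_le_iff_le_add]
  refine Lm_le (h.lo x) N fun M hM => ?_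
  have h1 := hN M hM
  have h2 : (d x (f ^ M * o) : ℝ) ≤ d x y + d y (f ^ M * o) := by
    exact_mod_cast h.hG.path.tri x y (f ^ M * o)
  linarith

theorem Hy.bu_shift (h : Hy d δ f o) (x : G) : bu d f o (f * x) = bu d f o x - TT d f := by
  have e : ∀ M : ℕ, d (f * x) (f ^ (M + 1) * o) = d x (f ^ M * o) := by
    intro M
    rw [pow_succ', mul_assoc, h.hG.inv]
  refine le_antisymm ?_ ?_
  · rw [le_sub_iff_add_le]
    refine le_Lm (h.up x) fun r N hN => ?_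
    rw [← le_sub_iff_add_le]
    refine Lm_le (h.lo _) (N + 1) fun M hM => ?_
    obtain ⟨M', rfl⟩ := Nat.exists_eq_add_of_le' (show 1 ≤ M by omega)
    have h1 := hN M' (by omega)
    rw [e]
    push_cast
    linarith
  · rw [sub_le_iff_le_add]
    have h2 : bu d f o x - TT d f ≤ bu d f o (f * x) := by
      refine le_Lm (h.up _) fun r N hN => ?_
      rw [sub_le_iff_le_add]
      refine Lm_le (h.lo _) N fun M hM => ?_
      have h1 := hN (M + 1) (by omega)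
      rw [e] at h1
      push_cast at h1
      linarith
    linarith

theorem Hy.bu_conj (hG : HypG d δ) (g x : G) :
    bu d (g * f * g⁻¹) o (g * x) = bu d f (g⁻¹ * o) x := by
  unfold bu
  congr 1
  funext M
  rw [TT_conj hG, conj_pow]
  have : g * f ^ M * g⁻¹ * o = g * (f ^ M * (g⁻¹ * o)) := by group
  rw [this, hG.inv]

/-- change of the base point -/
theorem Hy.base {o' : G} (h : Hy d δ f o) (h' : Hy d δ f o') (x y : G) :
    bu d f o x + bu d f o' y ≤ bu d f o' x + bu d f o y + 60 * δ := by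
  obtain ⟨N1, hN1⟩ := h'.bu_ev x
  obtain ⟨N2, hN2⟩ := h.bu_ev y
  set M : ℕ := N1 + N2 + (d x o + d y o' + d x y + d o o' + 2 * δ + 1) with hM
  have a1 := hN1 M (by omega)
  have a2 := hN2 M (by omega)
  have a3 := h.bu_le x M
  have a4 := h'.bu_le y M
  have hpos := h.pos
  have b1 := h.lo x M
  have b2 := h'.lo y M
  have hT := h.T1
  have hMT : ((d x o + d y o' + d x y + d o o' + 2 * δ + 1 : ℕ) : ℝ) ≤ M * TT d f := by
    have h1 : ((d x o + d y o' + d x y + d o o' + 2 * δ + 1 : ℕ) : ℝ) ≤ M := by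
      rw [Nat.cast_le]; omega
    have h2 : (M : ℝ) * 1 ≤ M * TT d f := mul_le_mul_of_nonneg_left (by linarith)
      (Nat.cast_nonneg _)
    linarith
  push_cast at hMT
  have h4 := hb_four h.hG x y (f ^ M * o) (f ^ M * o')
  have e : d (f ^ M * o) (f ^ M * o') = d o o' := h.hG.inv _ _ _
  rw [e] at h4
  have n1 : (0 : ℝ) ≤ d x o := Nat.cast_nonneg _
  have n2 : (0 : ℝ) ≤ d y o' := Nat.cast_nonneg _
  have n3 : (0 : ℝ) ≤ d x y := Nat.cast_nonneg _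
  have n4 : (0 : ℝ) ≤ d o o' := Nat.cast_nonneg _
  rcases h4 with h4 | h4
  · have h5 : (d x (f ^ M * o) : ℝ) + d y (f ^ M * o') ≤ d x y + d o o' + 2 * δ := by
      exact_mod_cast h4
    linarith
  · have h5 : (d x (f ^ M * o) : ℝ) + d y (f ^ M * o') ≤
        d x (f ^ M * o') + d y (f ^ M * o) + 2 * δ := by exact_mod_cast h4
    linarith

theorem Hy.ends (h : Hy d δ f o) (M : ℕ) :
    d (f⁻¹ ^ M * o) (f ^ M * o) = d o (f ^ (2 * M) * o) := by
  rw [← h.hG.inv (f ^ M) (f⁻¹ ^ M * o) (f ^ M * o), ← mul_assoc, ← mul_assoc, inv_pow,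
    mul_inv_cancel, one_mul, two_mul, pow_add]

/-- common large index for two points and both ends -/
theorem Hy.large (h : Hy d δ f o) (x y : G) :
    ∃ N : ℕ, ∀ M, N ≤ M →
      (d x (f ^ M * o) : ℝ) - M * TT d f ≤ bu d f o x + 1 ∧
      (d y (f ^ M * o) : ℝ) - M * TT d f ≤ bu d f o y + 1 ∧
      (d x (f⁻¹ ^ M * o) : ℝ) - M * TT d f ≤ bu d f⁻¹ o x + 1 ∧
      (d y (f⁻¹ ^ M * o) : ℝ) - M * TT d f ≤ bu d f⁻¹ o y + 1 := by
  obtain ⟨N1, hN1⟩ := h.bu_ev x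
  obtain ⟨N2, hN2⟩ := h.bu_ev y
  obtain ⟨N3, hN3⟩ := h.inv.bu_ev x
  obtain ⟨N4, hN4⟩ := h.inv.bu_ev y
  rw [TT_inv h.hG] at hN3 hN4
  exact ⟨N1 + N2 + N3 + N4, fun M hM => ⟨hN1 M (by omega), hN2 M (by omega), hN3 M (by omega),
    hN4 M (by omega)⟩⟩

/-- (U) -/
theorem Hy.U (h : Hy d δ f o) (x y : G) :
    (d x y : ℝ) ≤ bu d f⁻¹ o x + bu d f o y + 4 * δ ∨
      (d x y : ℝ) ≤ bu d f⁻¹ o y + bu d f o x + 4 * δ := by
  obtain ⟨N, hN⟩ := h.large x y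
  obtain ⟨a1, a2, a3, a4⟩ := hN N le_rfl
  have hpos := h.pos
  have b1 := TT_disp h.hG f o (2 * N)
  rw [← h.ends N] at b1
  push_cast at b1
  have s := h.hG.path.symm (f⁻¹ ^ N * o) y
  rcases hb_four h.hG x (f⁻¹ ^ N * o) y (f ^ N * o) with h4 | h4
  · left
    have h5 : (d x y : ℝ) + d (f⁻¹ ^ N * o) (f ^ N * o) ≤
        d x (f⁻¹ ^ N * o) + d y (f ^ N * o) + 2 * δ := by exact_mod_cast h4
    linarith
  · right
    rw [s] at h4
    have h5 : (d x y : ℝ) + d (f⁻¹ ^ N * o) (f ^ N * o) ≤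
        d x (f ^ N * o) + d y (f⁻¹ ^ N * o) + 2 * δ := by exact_mod_cast h4
    linarith

/-- (Lo) -/
theorem Hy.Lo (h : Hy d δ f o) (x y : G) :
    bu d f o x + bu d f⁻¹ o y ≤ d x y + 88 * δ ∨
      bu d f o x + bu d f⁻¹ o y ≤ bu d f⁻¹ o x + bu d f o y + 88 * δ := by
  obtain ⟨N, hN⟩ := h.large x y
  obtain ⟨a1, a2, a3, a4⟩ := hN N le_rfl
  have hpos := h.pos
  have b1 := h.disp (2 * N)
  rw [← h.ends N] at b1
  push_cast at b1
  have c1 := h.bu_le x N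
  have c2 := h.inv.bu_le y N
  rw [TT_inv h.hG] at c2
  have s := h.hG.path.symm (f ^ N * o) (f⁻¹ ^ N * o)
  rcases hb_four h.hG x y (f ^ N * o) (f⁻¹ ^ N * o) with h4 | h4
  · left
    rw [s] at h4
    have h5 : (d x (f ^ N * o) : ℝ) + d y (f⁻¹ ^ N * o) ≤
        d x y + d (f⁻¹ ^ N * o) (f ^ N * o) + 2 * δ := by exact_mod_cast h4
    linarith
  · right
    have h5 : (d x (f ^ N * o) : ℝ) + d y (f⁻¹ ^ N * o) ≤
        d x (f⁻¹ ^ N * o) + d y (f ^ N * o) + 2 * δ := by exact_mod_cast h4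
    linarith

theorem Hy.E0 (h : Hy d δ f o) (x : G) : -2 ≤ bu d f⁻¹ o x + bu d f o x := by
  obtain ⟨N, hN⟩ := h.large x x
  obtain ⟨a1, _, a3, _⟩ := hN N le_rfl
  have b1 := TT_disp h.hG f o (2 * N)
  rw [← h.ends N] at b1
  push_cast at b1
  have h1 : (d (f⁻¹ ^ N * o) (f ^ N * o) : ℝ) ≤ d x (f⁻¹ ^ N * o) + d x (f ^ N * o) := by
    have h2 := h.hG.path.tri (f⁻¹ ^ N * o) x (f ^ N * o)
    rw [h.hG.path.symm (f⁻¹ ^ N * o) x] at h2
    exact_mod_cast h2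
  linarith

/-- points of the axis -/
theorem Hy.EZ (h : Hy d δ f o) {z : G} (hz : z ∈ ZZ d δ f) :
    bu d f⁻¹ o z + bu d f o z ≤ 116 * δ := by
  have hG := h.hG
  have hpos := h.pos
  have hz' : Hy d δ f z := ⟨hG, h.big, hz⟩
  -- a large index
  obtain ⟨M, hM⟩ : ∃ M : ℕ, d z o + 17 * δ ≤ M := ⟨_, le_rfl⟩
  have hT := h.T1
  have b0 := TT_disp hG f z M
  have hMu : (M : ℝ) < d z (f ^ M * z) ∨ M = 0 := by
    rcases Nat.eq_zero_or_pos M with h0 | h0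
    · exact Or.inr h0
    · left
      have h1 : (M : ℝ) * 1 < M * TT d f :=
        mul_lt_mul_of_pos_left (by linarith) (by exact_mod_cast h0)
      linarith
  have h1' := hG.one
  have hMu' : M < d z (f ^ M * z) := by
    rcases hMu with hMu | hMu
    · exact_mod_cast hMu
    · omega
  -- distances
  have e1 : d (f⁻¹ ^ M * z) (f⁻¹ ^ M * o) = d z o := hG.inv _ _ _
  have e2 : d (f ^ M * o) (f ^ M * z) = d z o := by rw [hG.inv]; exact hG.path.symm _ _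
  have e3 : d (f⁻¹ ^ M * z) z = d z (f ^ M * z) := by
    have h2 := hG.inv (f ^ M) (f⁻¹ ^ M * z) z
    rw [← mul_assoc, inv_pow, mul_inv_cancel, one_mul] at h2
    rw [inv_pow]
    exact h2.symm
  have e4 : d (f⁻¹ ^ M * z) (f ^ M * z) = d z (f ^ (2 * M) * z) := hz'.ends M
  have e5 := disp_sup hG hz (h.big z) M M
  rw [← two_mul M, ← e4] at e5
  have e6 := disp_change hG (f ^ M) z o
  have s1 := hG.path.symm z (f⁻¹ ^ M * z)
  have s2 := hG.path.symm z (f⁻¹ ^ M * o)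
  have s3 := hG.path.symm z (f ^ M * o)
  have s4 := hG.path.symm z (f ^ M * z)
  have t1 := hG.path.tri z (f⁻¹ ^ M * o) (f⁻¹ ^ M * z)
  have t2 := hG.path.tri z (f ^ M * o) (f ^ M * z)
  have s5 := hG.path.symm (f⁻¹ ^ M * o) (f⁻¹ ^ M * z)
  have f1 := hb_four hG (f⁻¹ ^ M * z) (f⁻¹ ^ M * o) (f ^ M * z) z
  have f2 := hb_four hG (f⁻¹ ^ M * o) (f ^ M * o) (f ^ M * z) z
  have key : d z (f⁻¹ ^ M * o) + d z (f ^ M * o) ≤
      d (f⁻¹ ^ M * o) (f ^ M * o) + 32 * δ := by omega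
  have key' : (d z (f⁻¹ ^ M * o) : ℝ) + d z (f ^ M * o) ≤
      d (f⁻¹ ^ M * o) (f ^ M * o) + 32 * δ := by exact_mod_cast key
  have c1 := h.bu_le z M
  have c2 := h.inv.bu_le z M
  rw [TT_inv hG] at c2
  have c3 := h.disp (2 * M)
  rw [← h.ends M] at c3
  push_cast at c3
  linarith

/-- convexity of the Busemann function -/
theorem Hy.conv (h : Hy d δ f o) {x p y : G} (hp : d x p + d p y = d x y) :
    bu d f o p + d x p ≤ bu d f o x + 31 * δ ∨ bu d f o p + d p y ≤ bu d f o y + 31 * δ := by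
  obtain ⟨N, hN⟩ := h.large x y
  obtain ⟨a1, a2, _, _⟩ := hN N le_rfl
  have hpos := h.pos
  have c1 := h.bu_le p N
  have s1 := h.hG.path.symm (f ^ N * o) p
  have s2 := h.hG.path.symm (f ^ N * o) x
  have s3 := h.hG.path.symm (f ^ N * o) y
  rcases hb_btw_le h.hG hp (f ^ N * o) with h4 | h4
  · left
    rw [s1, s2] at h4
    have h5 : (d p (f ^ N * o) : ℝ) + d x p ≤ d x (f ^ N * o) + 2 * δ := by exact_mod_cast h4
    linarith
  · right
    rw [s1, s3] at h4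
    have h5 : (d p (f ^ N * o) : ℝ) + d p y ≤ d y (f ^ N * o) + 2 * δ := by exact_mod_cast h4
    linarith

end PA

end Pool.Agent.Helper74.TB
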