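import Pool.Agent.Helper74.TB.CL0

/-! MP_7d16da_al: Part CL, commutators become powers of killed elements. -/

set_option autoImplicit false

namespace Pool.Agent.Helper74.TB

open Pool.Agent.Helper74.MH

/-- Displacement of a commutator of two elements with close centres. -/
theorem cl_disp {G : Type*} [Group G] {d : G → G → ℕ} {δ C : ℕ} (hG : HypG d δ) {s t x : G}
    (N1 N2 : ℕ) (hs : ∀ k : ℤ, d x (s ^ k * x) ≤ C) :
    d (t * x) (cu false (s ^ N1) (t * s ^ N2 * t⁻¹) * (t * x)) ≤ 4 * d x (t * x) + 4 * C := by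
  have hmul : ∀ (y g h : G), d y (g * h * y) ≤ d y (g * y) + d y (h * y) := by
    intro y g h
    have h1 := hG.path.tri y (g * y) (g * h * y)
    have h2 := hG.inv g y (h * y)
    rw [← mul_assoc] at h2
    omega
  have hP : d (t * x) (s ^ N1 * (t * x)) ≤ 2 * d x (t * x) + C := by
    have h1 := hG.path.tri (t * x) x (s ^ N1 * (t * x))
    have h2 := hG.path.tri x (s ^ N1 * x) (s ^ N1 * (t * x))
    have h3 := hG.inv (s ^ N1) x (t * x)
    have h4 := hG.path.symm (t * x) x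
    have h5 := hs N1
    rw [zpow_natCast] at h5
    omega
  have hQ : d (t * x) (t * s ^ N2 * t⁻¹ * (t * x)) ≤ C := by
    have e : t * s ^ N2 * t⁻¹ * (t * x) = t * (s ^ N2 * x) := by group
    have h5 := hs N2
    rw [zpow_natCast] at h5
    rw [e, hG.inv]
    exact h5
  have hP' := x_inv_disp hG (s ^ N1) (t * x)
  have hQ' := x_inv_disp hG (t * s ^ N2 * t⁻¹) (t * x)
  have e : cu false (s ^ N1) (t * s ^ N2 * t⁻¹) =
      s ^ N1 * (t * s ^ N2 * t⁻¹) * (s ^ N1)⁻¹ * (t * s ^ N2 * t⁻¹)⁻¹ := by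
    simp [cu]
  rw [e]
  have m1 := hmul (t * x) (s ^ N1 * (t * s ^ N2 * t⁻¹) * (s ^ N1)⁻¹) (t * s ^ N2 * t⁻¹)⁻¹
  have m2 := hmul (t * x) (s ^ N1 * (t * s ^ N2 * t⁻¹)) (s ^ N1)⁻¹
  have m3 := hmul (t * x) (s ^ N1) (t * s ^ N2 * t⁻¹)
  omega

section

variable {B : Type} [Group B] {P : Par} {M1 T0 : ℕ} {T : Tow B P.C}
  {deg : B →* Multiplicative (ZMod P.n)} {D : Type} [Group D] {ω : B →* D}

/-- The bound on the exponent. -/
theorem cl_exp (hT : T.Good P deg) {i : ℕ} {V r y : T.G i} {a : ℤ} {E : ℕ}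
    (hr : r ^ P.n ≠ 1) (hV : V = r ^ a) (hy : T.d i y (V * y) ≤ E) : |a| ≤ (P.q * E : ℕ) := by
  have h1 := x_tor (hT.stage i) hr y a.natAbs
  have h2 : T.d i y (r ^ a.natAbs * y) = T.d i y (V * y) := by
    rcases Int.natAbs_eq a with h | h
    · have e : V = r ^ a.natAbs := by rw [hV, ← zpow_natCast, ← h]
      rw [e]
    · have e : V = (r ^ a.natAbs)⁻¹ := by rw [hV, ← zpow_natCast, ← zpow_neg, ← h]
      rw [e, x_inv_disp (hT.stage i).toHypG]
  rw [h2] at h1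
  have h3 : a.natAbs ≤ P.q * E := h1.trans (Nat.mul_le_mul_left _ hy)
  rw [← Int.natCast_natAbs]
  exact_mod_cast h3

/-- A short non-torsion commutator: the relator is a power relator of the same stage. -/
theorem cl_b (hP : P.Ok M1 T0) (hT : T.Good P deg) {i : ℕ} {s V x y : T.G i}
    (hs : s ^ P.n = 1) (hs1 : s ≠ 1) (hx : ∀ k : ℤ, T.d i x (s ^ k * x) ≤ P.C)
    (hV : V ^ P.n ≠ 1) (hy : T.d i y (V * y) ≤ P.L1) (hxy : T.d i x y ≤ P.L1) :
    ∃ (r : T.G i) (a : ℤ), V = r ^ a ∧ Pair (T.H i) P.n P.L1 P.L2 P.km s r a := by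
  obtain ⟨n1, n2, n3, n4, n5, n6, n7⟩ := c0_num hP
  obtain ⟨r, hr⟩ := (hT.alg i).cent V hV
  obtain ⟨a, ha⟩ := Subgroup.mem_zpowers_iff.1 ((hr V).1 (Commute.refl V))
  have hfp : r ^ P.n ∈ Fp (T.d i) P.n P.L1 := ⟨V, r, hV, ⟨y, hy⟩, hr, rfl⟩
  obtain ⟨hX, -, hcen, hinf, -⟩ := p_one (T.H i) (hT.stage i) hP.cst2.odd hP.hq (hT.alg i)
    hP.hqn hV ⟨y, hy⟩ hr rfl
  have hrn : r ^ P.n ≠ 1 := by
    intro h
    have := hinf (P.n : ℤ) (by rw [zpow_natCast]; exact h)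
    omega
  refine ⟨r, a, ha.symm, ⟨hs, hs1, ?_, ?_, hfp, hcen, x, hx, ?_⟩⟩
  · rintro rfl
    apply hV
    rw [← ha, zpow_zero, one_pow]
  · have h1 := cl_exp hT hrn ha.symm hy
    have h2 := hP.hkm
    have h3 : P.q * P.L1 ≤ P.km := by omega
    exact h1.trans (by exact_mod_cast h3)
  · have hWm := x_mem0 (C := P.C) (hT.stage i) hV
    have h1 := hl_dispZ (hT.stage i).toHypG (T.H i) hWm y
    have h2 := x_pow_le (hT.stage i).toHypG V y (100 * P.C * P.q + 1)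
    have h3 := hl_Tpos (T.H i) hWm
    have hcomm : Commute (V ^ (100 * P.C * P.q + 1)) (r ^ P.n) := by
      rw [← ha]
      exact (((Commute.refl r).zpow_left a).pow_left _).pow_right _
    obtain ⟨z, hz, hz2⟩ := hl_comm (hT.stage i).toHypG (T.H i) n2 hWm hX hcomm
      ((T.H i).pr_mem _ hWm y)
    refine ⟨z, hz, ?_⟩
    have h4 : 2 * T.d i y ((T.H i).pr (V ^ (100 * P.C * P.q + 1)) y) ≤
        T.d i y (V ^ (100 * P.C * P.q + 1) * y) + P.C := by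
      have : (2 * T.d i y ((T.H i).pr (V ^ (100 * P.C * P.q + 1)) y) : ℝ) ≤
        T.d i y (V ^ (100 * P.C * P.q + 1) * y) + P.C := by linarith
      exact_mod_cast this
    have h5 : (100 * P.C * P.q + 1) * T.d i y (V * y) ≤ (100 * P.C * P.q + 1) * P.L1 :=
      Nat.mul_le_mul_left _ hy
    have h6 := (hT.stage i).path.tri x y z
    have h7 := (hT.stage i).path.tri y ((T.H i).pr (V ^ (100 * P.C * P.q + 1)) y) z
    have h8 := hP.hL2
    have h9 : P.C ≤ P.L1 := n6.trans hP.cst2.hL1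
    have h10 : (200 * P.C * P.q + 10) * P.L1 =
        2 * ((100 * P.C * P.q + 1) * P.L1) + 8 * P.L1 := by ring
    omega

/-- A commutator in the centralizer of a relator. -/
theorem cl_a (hP : P.Ok M1 T0) (hT : T.Good P deg) {i : ℕ} {s V x y f : T.G i}
    (hs : s ^ P.n = 1) (hs1 : s ≠ 1) (hx : ∀ k : ℤ, T.d i x (s ^ k * x) ≤ P.C)
    (hV : V ^ P.n ≠ 1) (hy : T.d i y (V * y) ≤ 8 * P.Δ + 4 * P.C) (hf : f ∈ T.F i)
    (hVf : Commute V f) (hn : Nh (T.d i) (4 * P.Ax) ((T.H i).Z f) x) :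
    ∃ (r : T.G i) (a : ℤ), V = r ^ a ∧ Pair (T.H i) P.n P.L1 P.L2 P.km s r a := by
  obtain ⟨n1, n2, n3, n4, n5, n6, n7⟩ := c0_num hP
  have hΔ := hP.cst2.cst.hΔ
  have hR := hP.cst2.cst.hR
  have hTm := hP.cst2.cst.hT
  have hfp : f ∈ Fp (T.d i) P.n P.L1 := by
    by_contra hfp
    obtain ⟨m, hm⟩ := Subgroup.mem_zpowers_iff.1 ((hT.fw i f hf hfp V).1 hVf)
    have hm0 : m ≠ 0 := by
      rintro rfl
      apply hV
      rw [← hm, zpow_zero, one_pow]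
    have hfX := (hT.rels i).sub hf
    have h1 := hl_zpow (T.H i) hfX y m
    have h2 := (T.H i).lip f hfX y (f ^ m * y)
    rw [h1, hm, abs_mul, abs_of_nonneg (hl_Tpos (T.H i) hfX)] at h2
    have h3 := (hT.rels i).big f hf
    have h4 : (1 : ℝ) ≤ |(m : ℝ)| := by
      have := Int.one_le_abs hm0
      rw [← Int.cast_abs]
      exact_mod_cast this
    have h5 : (T.H i).T f ≤ |(m : ℝ)| * (T.H i).T f := by
      have := mul_le_mul_of_nonneg_right h4 (hl_Tpos (T.H i) hfX)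
      linarith
    have h6 : (T.d i y (V * y) : ℝ) ≤ 8 * P.Δ + 4 * P.C := by exact_mod_cast hy
    have h7 : (1000 * P.C : ℝ) ≤ P.Δ := by exact_mod_cast hΔ
    have h8 : (1000 * P.Δ : ℝ) ≤ P.R := by exact_mod_cast hR
    have h9 : (1 : ℝ) ≤ P.C := by exact_mod_cast n2
    linarith
  obtain ⟨r, hfr, hcen, -, hinf, -⟩ := c0_fp hP hT hfp
  obtain ⟨a, ha⟩ := Subgroup.mem_zpowers_iff.1 ((hcen V).1 hVf)
  have hrn : r ^ P.n ≠ 1 := by
    intro h
    have := hinf (P.n : ℤ) (by rw [zpow_natCast]; exact h)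
    omega
  refine ⟨r, a, ha.symm, ⟨hs, hs1, ?_, ?_, hfr ▸ hfp, hfr ▸ hcen, x, hx, ?_⟩⟩
  · rintro rfl
    apply hV
    rw [← ha, zpow_zero, one_pow]
  · have h1 := cl_exp hT hrn ha.symm hy
    have h2 := hP.hkm
    have h3 : P.q * (8 * P.Δ + 4 * P.C) ≤ P.km := by
      have h4 : 8 * P.Δ + 4 * P.C ≤ 10 * P.Δ := by omega
      have h5 : P.q * (8 * P.Δ + 4 * P.C) ≤ P.q * (10 * P.Δ) := Nat.mul_le_mul_left _ h4
      have h6 : P.q * (10 * P.Δ) = 10 * P.Δ * P.q := by ring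
      omega
    exact h1.trans (by exact_mod_cast h3)
  · obtain ⟨z, hz, hz2⟩ := hn
    refine ⟨z, hfr ▸ hz, hz2.trans ?_⟩
    have h1 := hP.hL1
    have h2 := hP.hL2
    have h3 : 1 * P.L1 ≤ (200 * P.C * P.q + 10) * P.L1 := Nat.mul_le_mul_right _ (by omega)
    omega

end

theorem stCL : StLimA → StCL := by
  intro _ B _ P M1 T0 T deg D _ ω hP hT hL S g hS hg
  obtain ⟨n1, n2, n3, n4, n5, n6, n7⟩ := c0_num hP
  obtain ⟨i, bs, bt, x, hV, hcase⟩ := stCore B P M1 T0 T deg D ω hP hT hL S g hS hg false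
  have hw : ω bs = S ∧ ω bt = g := by
    rcases hcase with h | h
    · exact ⟨h.hs, h.ht⟩
    · exact ⟨h.1.hs, h.1.ht⟩
  have hVw : ω (cu false (bs ^ P.N1) (bt * bs ^ P.N2 * bt⁻¹)) =
      cm (S ^ P.N1) (g * S ^ P.N2 * g⁻¹) := by
    rw [c0_map, map_mul, map_mul, map_pow, map_pow, map_inv, hw.1, hw.2]
    simp [cu, cm]
  have hVp : T.p i (cu false (bs ^ P.N1) (bt * bs ^ P.N2 * bt⁻¹)) =
      cu false ((T.p i bs) ^ P.N1) (T.p i bt * (T.p i bs) ^ P.N2 * (T.p i bt)⁻¹) := by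
    rw [c0_map, map_mul, map_mul, map_pow, map_pow, map_inv]
  have hs1 : T.p i bs ≠ 1 := c0_ne hL hS hw.1
  rcases hcase with h | ⟨h, f, hf, hc, hn⟩
  · have hd := cl_disp (hT.stage i).toHypG (t := T.p i bt) P.N1 P.N2 h.cen
    rw [← hVp] at hd
    have hlen := h.len
    have a1 := hP.hAx
    have a2 := hP.hL1
    have a3 : 10 ^ 6 * P.L ≤ P.Ax := le_trans (Nat.le_add_right _ _) a1
    obtain ⟨r, a, e1, e2⟩ := cl_b hP hT (y := T.p i bt * x) h.tor hs1 h.cen hV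
      (by omega) (by omega)
    exact ⟨i, _, r, a, bs, _, e2, rfl, hw.1, e1, hVw⟩
  · have hd := cl_disp (hT.stage i).toHypG (t := T.p i bt) P.N1 P.N2 h.cen
    rw [← hVp] at hd
    have hlen := h.len
    obtain ⟨r, a, e1, e2⟩ := cl_a hP hT (y := T.p i bt * x) h.tor hs1 h.cen hV
      (by omega) hf hc hn
    exact ⟨i, _, r, a, bs, _, e2, rfl, hw.1, e1, hVw⟩

end Pool.Agent.Helper74.TB
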