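import Pool.Agent.Helper74.TB.CL0

/-! MP_7d16da_al: Part LS. -/

set_option autoImplicit false

namespace Pool.Agent.Helper74.TB

open Pool.Agent.Helper74.MH

/-- The product of a power of `s` and of a conjugate of a power of `s` moves the centre of `s`
little. -/
theorem ls_move {G : Type*} [Group G] {d : G → G → ℕ} {δ : ℕ} (hG : HypG d δ) {s t x : G}
    (a b : ℕ) {C E : ℕ} (hs : ∀ k : ℤ, d x (s ^ k * x) ≤ C) (ht : d x (t * x) ≤ E) :
    d x (s ^ a * (t * s ^ b * t⁻¹) * x) ≤ 2 * E + 2 * C := by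
  have h1 : d x (s ^ a * x) ≤ C := by
    have h := hs a
    rw [zpow_natCast] at h
    exact h
  have h2 : d x (s ^ b * x) ≤ C := by
    have h := hs b
    rw [zpow_natCast] at h
    exact h
  have h3 : d (s ^ a * x) (s ^ a * (t * x)) = d x (t * x) := hG.inv _ _ _
  have h4 : d (s ^ a * (t * x)) (s ^ a * (t * (s ^ b * x))) = d x (s ^ b * x) := by
    rw [hG.inv, hG.inv]
  have h5 : d (s ^ a * (t * (s ^ b * x))) (s ^ a * (t * s ^ b * t⁻¹) * x) =
      d x (t⁻¹ * x) := by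
    have e : s ^ a * (t * s ^ b * t⁻¹) * x = s ^ a * (t * (s ^ b * (t⁻¹ * x))) := by
      simp only [mul_assoc]
    rw [e, hG.inv, hG.inv, hG.inv]
  have h6 : d x (t⁻¹ * x) = d (t * x) x := by
    rw [← hG.inv t x (t⁻¹ * x), mul_inv_cancel_left]
  have h7 := hG.path.symm (t * x) x
  have t1 := hG.path.tri x (s ^ a * x) (s ^ a * (t * s ^ b * t⁻¹) * x)
  have t2 := hG.path.tri (s ^ a * x) (s ^ a * (t * x)) (s ^ a * (t * s ^ b * t⁻¹) * x)
  have t3 := hG.path.tri (s ^ a * (t * x)) (s ^ a * (t * (s ^ b * x)))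
    (s ^ a * (t * s ^ b * t⁻¹) * x)
  omega

theorem stLS_of_core (hcore : StCore) : StLimA → StLS := by
  intro hA B _ P M1 T0 T deg D _ ω hP hT hL S g t hS hg hcom
  obtain ⟨n1, n2, n3, n4, n5, n6, n7⟩ := c0_num hP
  obtain ⟨-, hexp, -, hmal⟩ := hA B P M1 T0 T deg D ω hP hT hL
  have hQ : S ^ P.N1 * (g * S ^ P.N2 * g⁻¹) ≠ 1 := by
    intro h
    apply hg
    have e1 : g * S ^ P.N2 * g⁻¹ = (S ^ P.N1)⁻¹ := (inv_eq_of_mul_eq_one_right h).symm
    refine hmal S g (S ^ P.N2) hS (c0_pow_ne (c0_cop hP.hn hP.hN2) (hexp S) hS)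
      ((Commute.refl S).pow_left _) ?_
    rw [e1]
    exact ((Commute.refl S).pow_left _).inv_left
  obtain ⟨i, bs, bt, x, hU, hcase⟩ := hcore B P M1 T0 T deg D ω hP hT hL S g hS hg true
  have hd : ω bs = S ∧ ω bt = g ∧ (T.p i bs) ^ P.n = 1 := by
    rcases hcase with h | ⟨h, -⟩
    · exact ⟨h.hs, h.ht, h.tor⟩
    · exact ⟨h.hs, h.ht, h.tor⟩
  obtain ⟨hs, hw, htor⟩ := hd
  have hωU : ω (cu true (bs ^ P.N1) (bt * bs ^ P.N2 * bt⁻¹)) =
      S ^ P.N1 * (g * S ^ P.N2 * g⁻¹) := by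
    rw [c0_map, map_mul, map_mul, map_pow, map_pow, map_inv, hs, hw]
    simp [cu]
  have hf : ∃ f ∈ T.F i, Commute (T.p i (cu true (bs ^ P.N1) (bt * bs ^ P.N2 * bt⁻¹))) f := by
    rcases hcase with h | ⟨-, f, hf, hc, -⟩
    · refine (hT.rels i).short _ hU ⟨x, ?_⟩
      have h1 := ls_move (hT.stage i).toHypG P.N1 P.N2 h.cen h.len
      have h2 : T.p i (cu true (bs ^ P.N1) (bt * bs ^ P.N2 * bt⁻¹)) =
          (T.p i bs) ^ P.N1 * (T.p i bt * (T.p i bs) ^ P.N2 * (T.p i bt)⁻¹) := by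
        rw [c0_map, map_mul, map_mul, map_pow, map_pow, map_inv]
        simp [cu]
      rw [h2]
      have h3 := hP.hL1
      have h4 : 10 ^ 6 * P.L ≤ P.Ax := le_trans (Nat.le_add_right _ _) hP.hAx
      omega
    · exact ⟨f, hf, hc⟩
  clear hcase
  generalize cu true (bs ^ P.N1) (bt * bs ^ P.N2 * bt⁻¹) = bU at hU hωU hf
  obtain ⟨f, hf, hc⟩ := hf
  obtain ⟨m, hm⟩ := (hT.rels i).cent f hf _ hc
  have hπf : T.π i f = 1 := ((hT.quo i).ker f).2 (Subgroup.subset_closure hf)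
  have hUn : (T.p (i + 1) bU) ^ P.n = 1 := by
    rw [← hT.comp, ← map_pow, hm, map_zpow, hπf, one_zpow]
  obtain ⟨b, rfl⟩ := hL.surj t
  have hz : Commute (ω (b * bU * b⁻¹)) (ω bs) := by
    rw [map_mul, map_mul, map_inv, hωU, hs]
    exact hcom
  obtain ⟨bz, hz1, hz2⟩ := lim_comm hT hL htor hz
  have hzn := stage_centor (hT.stage i) n1 htor (c0_ne hL hS hs) hz2
  have hq : (T.p i (b⁻¹ * bz * b)) ^ P.n = 1 := by
    have h := c0_conj_pow (T.p i b)⁻¹ (T.p i bz) P.n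
    rw [inv_inv] at h
    rw [map_mul, map_mul, map_inv, h, hzn, mul_one, inv_mul_cancel]
  obtain ⟨b1, e1, e2⟩ := lim_tc hT hL (i + 1) (b⁻¹ * bz * b) bU 1
    (c0_torup hT (Nat.le_succ i) hq) hUn (by
      rw [map_mul, map_mul, map_inv, hz1, map_mul, map_mul, map_inv, map_one]
      group)
  refine (hT.tors i).t12 _ hq f hf _ hc ?_ (T.p (i + 1) b1) ?_
  · intro h
    apply hQ
    rw [← hωU]
    rw [hT.comp] at h
    exact lim_one hL h
  · rw [hT.comp, hT.comp]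
    exact e2

theorem stLS : StLimA → StLS := stLS_of_core stCore

end Pool.Agent.Helper74.TB
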