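import Mathlib

/-!
MP_7d16da_al (S02038), Part M: what the Burnside type machine delivers, and what the
endgame has to prove from it.
-/

set_option autoImplicit false

namespace Pool.Agent.Helper74.TB

/-- The commutator `a b a⁻¹ b⁻¹`. -/
def cm {D : Type*} [Group D] (a b : D) : D := a * b * a⁻¹ * b⁻¹

/-- The value of the word `∏_{k<h} S · [S^N1, g S^N2 g⁻¹]^(m k)`. -/
def wval {D : Type*} [Group D] (N1 N2 h : ℕ) (m : ℕ → ℤ) (S g : D) : D :=
  ((List.range h).map (fun k => S * cm (S ^ N1) (g * S ^ N2 * g⁻¹) ^ m k)).prod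

/-- The output of the machine: a group of exponent `n` with a degree map onto `Z/n` with
non-trivial kernel, in which centralizers are cyclic and malnormal, and in which the words
`wval S g` are killed for all non-commuting pairs with `deg S = 0`. -/
structure EndGroup (D : Type) [Group D] (n N1 N2 h : ℕ) (m : ℕ → ℤ)
    (deg : D →* Multiplicative (ZMod n)) : Prop where
  exp : ∀ x : D, x ^ n = 1
  surj : Function.Surjective deg
  ker : ∃ a : D, a ≠ 1 ∧ deg a = 1
  cyc : ∀ S : D, S ≠ 1 → ∃ c : D, ∀ x, Commute x S → x ∈ Subgroup.zpowers c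
  mal : ∀ S g x : D, S ≠ 1 → x ≠ 1 → Commute x S → Commute (g * x * g⁻¹) S → Commute g S
  ls : ∀ S g t : D, S ≠ 1 → ¬ Commute g S →
    ¬ Commute (t * (S ^ N1 * (g * S ^ N2 * g⁻¹)) * t⁻¹) S
  law : ∀ S g : D, deg S = 1 → S ≠ 1 → ¬ Commute g S → wval N1 N2 h m S g = 1

/-- The frozen statement S02038 (negation of the problem). -/
def NotMain : Prop :=
    ¬ (∀ L : Set (FreeGroup ℕ),
      (∃ (G : Type) (_ : Group G),
          (∀ w ∈ L, ∀ φ : FreeGroup ℕ →* G, φ w = 1) ∧ ∃ a b : G, a * b ≠ b * a) →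
      (∀ (G : Type) [Group G] [Finite G],
          (∀ w ∈ L, ∀ φ : FreeGroup ℕ →* G, φ w = 1) → ∀ a b : G, a * b = b * a) →
      ∀ (G : Type) [Group G],
        (∀ w ∈ L, ∀ φ : FreeGroup ℕ →* G, φ w = 1) →
        ∀ H : Subgroup G,
          (∃ n : ℕ, ∃ f : ℕ → Subgroup G, f 0 = H ∧ f n = ⊤ ∧
              ∀ i < n, f i ≤ f (i + 1) ∧ ((f i).subgroupOf (f (i + 1))).Normal) →
          H.Normal)

/-- Part M. -/
def StM : Prop :=
  ∀ (e N1 N2 h : ℕ) (m : ℕ → ℤ), 1 ≤ e → N1 % 3 = 1 → N2 % 3 = 1 → h % 3 ≠ 0 →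
    ∀ (D : Type) [Group D] (deg : D →* Multiplicative (ZMod (3 ^ e))),
      EndGroup D (3 ^ e) N1 N2 h m deg → NotMain

end Pool.Agent.Helper74.TB
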