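import Mathlib
import Pool.Agent.Helper74.TB.MDefs

/-!
MP_7d16da_al (S02038), Part M, file 1: the law, finite groups, the gadget in the group `D`.
-/

set_option autoImplicit false

namespace Pool.Agent.Helper74.TB

/-! ### The words -/

section Words

variable {G G' : Type*} [Group G] [Group G']

/-- the gadget -/
def gad (N1 N2 : ℕ) (a b s : G) : G := a * s ^ N1 * a⁻¹ * (b * s ^ N2 * b⁻¹)

/-- the element `f` -/
def ff (N1 N2 : ℕ) (X Y : G) : G :=
  gad N1 N2 (gad N1 N2 (X ^ 3) (Y ^ 3) (cm X Y)) (X * cm X Y * X⁻¹) (cm X Y)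

/-- the law -/
def wlaw (N1 N2 h : ℕ) (m : ℕ → ℤ) (X Y : G) : G :=
  wval N1 N2 h m (cm X Y) (ff N1 N2 X Y)

theorem cm_map (φ : G →* G') (a b : G) : φ (cm a b) = cm (φ a) (φ b) := by
  simp [cm]

theorem gad_map (φ : G →* G') (N1 N2 : ℕ) (a b s : G) :
    φ (gad N1 N2 a b s) = gad N1 N2 (φ a) (φ b) (φ s) := by
  simp [gad]

theorem ff_map (φ : G →* G') (N1 N2 : ℕ) (X Y : G) :
    φ (ff N1 N2 X Y) = ff N1 N2 (φ X) (φ Y) := by
  simp [ff, gad_map, cm_map]

theorem wval_map (φ : G →* G') (N1 N2 h : ℕ) (m : ℕ → ℤ) (S g : G) :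
    φ (wval N1 N2 h m S g) = wval N1 N2 h m (φ S) (φ g) := by
  unfold wval
  rw [map_list_prod, List.map_map]
  congr 1
  refine List.map_congr_left fun k _ => ?_
  simp [cm_map]

theorem wlaw_map (φ : G →* G') (N1 N2 h : ℕ) (m : ℕ → ℤ) (X Y : G) :
    φ (wlaw N1 N2 h m X Y) = wlaw N1 N2 h m (φ X) (φ Y) := by
  simp [wlaw, wval_map, cm_map, ff_map]

/-- if the inner commutator vanishes the word is a power of `S` -/
theorem wval_of_cm (N1 N2 h : ℕ) (m : ℕ → ℤ) (S g : G)
    (hv : cm (S ^ N1) (g * S ^ N2 * g⁻¹) = 1) : wval N1 N2 h m S g = S ^ h := by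
  unfold wval
  rw [hv]
  simp

theorem wval_one (N1 N2 h : ℕ) (m : ℕ → ℤ) (g : G) : wval N1 N2 h m (1 : G) g = 1 := by
  rw [wval_of_cm _ _ _ _ _ _ (by simp [cm]), one_pow]

theorem eq_one_of_pow {e N : ℕ} (hN : N % 3 ≠ 0) {x : G} (hx : x ^ (3 ^ e) = 1)
    (h : x ^ N = 1) : x = 1 := by
  have h1 : orderOf x ∣ 3 ^ e := orderOf_dvd_of_pow_eq_one hx
  have h2 : orderOf x ∣ N := orderOf_dvd_of_pow_eq_one h
  have h3 : Nat.Coprime (3 ^ e) N := by
    refine Nat.Coprime.pow_left _ ((Nat.Prime.coprime_iff_not_dvd Nat.prime_three).mpr ?_)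
    intro h4
    exact hN (Nat.mod_eq_zero_of_dvd h4)
  have h5 : orderOf x ∣ 1 := by
    rw [← h3]
    exact Nat.dvd_gcd h1 h2
  exact orderOf_eq_one_iff.mp (Nat.dvd_one.mp h5)

end Words

/-! ### Finite groups -/

theorem finite_comm {P : Type} [Group P] [Finite P] (e N1 N2 h : ℕ) (m : ℕ → ℤ)
    (hh : h % 3 ≠ 0) (h1 : ∀ x : P, x ^ (3 * 3 ^ e) = 1)
    (h2 : ∀ X Y : P, wlaw N1 N2 h m X Y = 1) (a b : P) : a * b = b * a := by
  have hp : IsPGroup 3 P := by
    intro x
    exact ⟨e + 1, by rw [pow_succ, mul_comm]; exact h1 x⟩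
  have : Fact (Nat.Prime 3) := ⟨Nat.prime_three⟩
  have hnil : Group.IsNilpotent P := hp.isNilpotent
  have hsol : Group.IsSolvable P := inferInstance
  -- the law modulo the second derived subgroup
  have key : ∀ X Y : P, cm X Y ∈ derivedSeries P 2 := by
    intro X Y
    have hs : cm X Y ∈ derivedSeries P 1 := by
      rw [derivedSeries_succ, derivedSeries_zero]
      exact Subgroup.commutator_mem_commutator trivial trivial
    have hn1 : (derivedSeries P 1).Normal := inferInstance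
    have hv : cm ((cm X Y) ^ N1) (ff N1 N2 X Y * (cm X Y) ^ N2 * (ff N1 N2 X Y)⁻¹) ∈
        derivedSeries P 2 := by
      rw [derivedSeries_succ]
      exact Subgroup.commutator_mem_commutator (pow_mem hs _)
        (hn1.conj_mem _ (pow_mem hs _) _)
    let π : P →* P ⧸ derivedSeries P 2 := QuotientGroup.mk' (derivedSeries P 2)
    have hv' : cm ((π (cm X Y)) ^ N1)
        (π (ff N1 N2 X Y) * (π (cm X Y)) ^ N2 * (π (ff N1 N2 X Y))⁻¹) = 1 := by
      have h3 := (QuotientGroup.eq_one_iff _).mpr hv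
      have h4 : π (cm ((cm X Y) ^ N1) (ff N1 N2 X Y * (cm X Y) ^ N2 * (ff N1 N2 X Y)⁻¹)) = 1 := h3
      rw [cm_map, map_pow, map_mul, map_mul, map_pow, map_inv] at h4
      exact h4
    have h5 : π (wlaw N1 N2 h m X Y) = 1 := by rw [h2, map_one]
    unfold wlaw at h5
    rw [wval_map, wval_of_cm _ _ _ _ _ _ hv'] at h5
    have h6 : (π (cm X Y)) ^ (3 ^ (e + 1)) = 1 := by
      rw [← map_pow, pow_succ, mul_comm, h1, map_one]
    have h7 := eq_one_of_pow hh h6 h5
    exact (QuotientGroup.eq_one_iff _).mp h7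
  have h12 : derivedSeries P 1 ≤ derivedSeries P 2 := by
    conv_lhs => rw [derivedSeries_succ, derivedSeries_zero]
    rw [Subgroup.commutator_le]
    intro X _ Y _
    exact key X Y
  have hall : ∀ k, derivedSeries P 1 ≤ derivedSeries P (k + 1) := by
    intro k
    induction k with
    | zero => exact le_rfl
    | succ k ih =>
      refine h12.trans ?_
      rw [derivedSeries_succ P 1, derivedSeries_succ P (k + 1)]
      exact Subgroup.commutator_mono ih ih
  obtain ⟨k, hk⟩ := hsol.solvable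
  have h8 : derivedSeries P 1 ≤ ⊥ := by
    rw [← hk]
    refine (hall k).trans ?_
    exact derivedSeries_antitone P (Nat.le_succ k)
  have h9 : cm a b ∈ derivedSeries P 1 := by
    rw [derivedSeries_succ, derivedSeries_zero]
    exact Subgroup.commutator_mem_commutator trivial trivial
  have h10 : cm a b = 1 := Subgroup.mem_bot.mp (h8 h9)
  unfold cm at h10
  have h11 : a * b * a⁻¹ = b := mul_inv_eq_one.mp h10
  exact mul_inv_eq_iff_eq_mul.mp h11

/-! ### The gadget in `D` -/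

section Gadget

variable {D : Type} [Group D] {e N1 N2 h : ℕ} {m : ℕ → ℤ}
  {deg : D →* Multiplicative (ZMod (3 ^ e))}

/-- the gadget is an OR -/
theorem gad_not (hD : EndGroup D (3 ^ e) N1 N2 h m deg) (hN1 : N1 % 3 = 1) (hN2 : N2 % 3 = 1)
    {S a b : D} (hS : S ≠ 1) (hab : ¬ Commute a S ∨ ¬ Commute b S) :
    ¬ Commute (gad N1 N2 a b S) S := by
  have hpow : ∀ N : ℕ, N % 3 ≠ 0 → S ^ N ≠ 1 := fun N hN h1 =>
    hS (eq_one_of_pow hN (hD.exp S) h1)
  have hcp : ∀ N : ℕ, Commute (S ^ N) S := fun N => (Commute.refl S).pow_left N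
  intro hc
  by_cases ha : Commute a S
  · have hb : ¬ Commute b S := hab.resolve_left (fun h => h ha)
    have e1 : a * S ^ N1 * a⁻¹ = S ^ N1 := by
      rw [(ha.pow_right N1).eq, mul_inv_cancel_right]
    unfold gad at hc
    rw [e1] at hc
    have h2 : Commute (b * S ^ N2 * b⁻¹) S := by
      have := (hcp N1).inv_left.mul_left hc
      rwa [inv_mul_cancel_left] at this
    exact hb (hD.mal S b (S ^ N2) hS (hpow N2 (by omega)) (hcp N2) h2)
  · by_cases hb : Commute b S
    · have e1 : b * S ^ N2 * b⁻¹ = S ^ N2 := by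
        rw [(hb.pow_right N2).eq, mul_inv_cancel_right]
      unfold gad at hc
      rw [e1] at hc
      have h2 : Commute (a * S ^ N1 * a⁻¹) S := by
        have := hc.mul_left (hcp N2).inv_left
        rwa [mul_inv_cancel_right] at this
      exact ha (hD.mal S a (S ^ N1) hS (hpow N1 (by omega)) (hcp N1) h2)
    · by_cases hg : Commute (a⁻¹ * b) S
      · have e1 : gad N1 N2 a b S = a * S ^ (N1 + N2) * a⁻¹ := by
          have e2 : b * S ^ N2 * b⁻¹ = a * S ^ N2 * a⁻¹ := by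
            have e3 := (hg.pow_right N2).eq
            have e4 : b * S ^ N2 = a * (S ^ N2 * (a⁻¹ * b)) := by
              rw [← e3]; group
            rw [e4]; group
          unfold gad
          rw [e2, pow_add]
          group
        rw [e1] at hc
        exact ha (hD.mal S a (S ^ (N1 + N2)) hS (hpow _ (by omega)) (hcp _) hc)
      · have e1 : gad N1 N2 a b S =
            a * (S ^ N1 * ((a⁻¹ * b) * S ^ N2 * (a⁻¹ * b)⁻¹)) * a⁻¹ := by
          unfold gad
          group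
        rw [e1] at hc
        exact hD.ls S (a⁻¹ * b) a hS hg hc

/-- value of the law in a coordinate -/
theorem wval_coord (hD : EndGroup D (3 ^ e) N1 N2 h m deg) (hN1 : N1 % 3 = 1)
    (hN2 : N2 % 3 = 1) (S a b c : D) (hdS : deg S = 1)
    (habc : S ≠ 1 → ¬ Commute a S ∨ ¬ Commute b S ∨ ¬ Commute c S) :
    wval N1 N2 h m S (gad N1 N2 (gad N1 N2 a b S) c S) = 1 := by
  by_cases hS : S = 1
  · rw [hS, wval_one]
  · refine hD.law S _ hdS hS ?_
    refine gad_not hD hN1 hN2 hS ?_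
    rcases habc hS with ha | hb | hc
    · exact Or.inl (gad_not hD hN1 hN2 hS (Or.inl ha))
    · exact Or.inl (gad_not hD hN1 hN2 hS (Or.inr hb))
    · exact Or.inr hc

/-- case III -/
theorem case3 (hD : EndGroup D (3 ^ e) N1 N2 h m deg) (X Y : D) (hS : cm X Y ≠ 1) :
    ¬ Commute (X * cm X Y * X⁻¹) (cm X Y) := by
  intro hc
  have hX : Commute X (cm X Y) := hD.mal _ X _ hS hS (Commute.refl _) hc
  have hX1 : X⁻¹ ≠ 1 := by
    intro h1
    apply hS
    rw [inv_eq_one.mp h1]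
    simp [cm]
  have e1 : Y * X⁻¹ * Y⁻¹ = X⁻¹ * cm X Y := by
    unfold cm
    group
  have hY : Commute Y (cm X Y) := by
    refine hD.mal _ Y X⁻¹ hS hX1 hX.inv_left ?_
    rw [e1]
    exact hX.inv_left.mul_left (Commute.refl _)
  obtain ⟨c, hcc⟩ := hD.cyc _ hS
  obtain ⟨i, hi⟩ := Subgroup.mem_zpowers_iff.mp (hcc X hX)
  obtain ⟨j, hj⟩ := Subgroup.mem_zpowers_iff.mp (hcc Y hY)
  apply hS
  have : Commute X Y := by
    rw [← hi, ← hj]
    exact Commute.zpow_zpow_self c i j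
  unfold cm
  rw [this.eq]
  group

/-- cases I and II -/
theorem case12 (hD : EndGroup D (3 ^ e) N1 N2 h m deg) (he : 1 ≤ e) (S a : D) (hS : S ≠ 1)
    (hdS : deg S = 1) (k : ℤ) (hk : ¬ (3 : ℤ) ∣ k)
    (hda : deg a = Multiplicative.ofAdd (k : ZMod (3 ^ e))) : ¬ Commute a S := by
  intro hc
  obtain ⟨c, hcc⟩ := hD.cyc _ hS
  obtain ⟨i, hi⟩ := Subgroup.mem_zpowers_iff.mp (hcc a hc)
  obtain ⟨l, hl⟩ := Subgroup.mem_zpowers_iff.mp (hcc S (Commute.refl S))
  have h3 : Prime (3 : ℤ) := Int.prime_three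
  have hdvd : ∀ z : ℤ, (z : ZMod (3 ^ e)) = 0 ↔ ((3 : ℤ) ^ e) ∣ z := by
    intro z
    rw [ZMod.intCast_zmod_eq_zero_iff_dvd]
    push_cast
    rfl
  have hcop : ∀ z : ℤ, ¬ (3 : ℤ) ∣ z → IsCoprime z ((3 : ℤ) ^ e) := by
    intro z hz
    exact ((Prime.coprime_iff_not_dvd h3).mpr hz).symm.pow_right
  -- degree of `c`
  set δ : ZMod (3 ^ e) := Multiplicative.toAdd (deg c) with hδ
  have e1 : (i : ZMod (3 ^ e)) * δ = k := by
    have := congrArg (fun z => Multiplicative.toAdd (deg z)) hi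
    simp only [map_zpow, toAdd_zpow, hda, toAdd_ofAdd] at this
    rw [← this, zsmul_eq_mul]
  have hi3 : ¬ (3 : ℤ) ∣ i := by
    rintro ⟨i', rfl⟩
    obtain ⟨δ', hδ'⟩ := ZMod.intCast_surjective δ
    rw [← hδ', ← Int.cast_mul, ← sub_eq_zero, ← Int.cast_sub, hdvd] at e1
    have h4 : (3 : ℤ) ∣ 3 ^ e := dvd_pow_self 3 (by omega)
    have h5 := h4.trans e1
    apply hk
    have h6 : (3 : ℤ) ∣ 3 * i' * δ' := ⟨i' * δ', by ring⟩
    have := dvd_sub h6 h5
    rwa [sub_sub_cancel] at this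
  obtain ⟨p, q, hpq⟩ := hcop i hi3
  have e2 : a ^ (p * l) = S := by
    rw [← hl, ← hi, ← zpow_mul]
    have h7 : i * (p * l) = l - 3 ^ e * (q * l) := by
      have : i * (p * l) = (p * i) * l := by ring
      rw [this]
      have h8 : p * i = 1 - q * 3 ^ e := by linarith
      rw [h8]
      ring
    rw [h7, zpow_sub, zpow_mul]
    have h9 : c ^ ((3 : ℤ) ^ e) = 1 := by
      have := hD.exp c
      rw [← zpow_natCast] at this
      push_cast at this
      exact this
    rw [h9, one_zpow, inv_one, mul_one]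
  have e3 : ((k * (p * l) : ℤ) : ZMod (3 ^ e)) = 0 := by
    have := congrArg (fun z => Multiplicative.toAdd (deg z)) e2
    simp only [map_zpow, toAdd_zpow, hda, toAdd_ofAdd, hdS, toAdd_one] at this
    rw [zsmul_eq_mul, ← Int.cast_mul] at this
    rw [mul_comm]
    exact this
  rw [hdvd] at e3
  have e4 : ((3 : ℤ) ^ e) ∣ p * l := (hcop k hk).symm.dvd_of_dvd_mul_left e3
  obtain ⟨r, hr⟩ := e4
  apply hS
  rw [← e2, hr, zpow_mul]
  have h9 : a ^ ((3 : ℤ) ^ e) = 1 := by
    have := hD.exp a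
    rw [← zpow_natCast] at this
    push_cast at this
    exact this
  rw [h9, one_zpow]

end Gadget

end Pool.Agent.Helper74.TB
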