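import Mathlib
import Pool.Agent.Helper74.TB.M1

/-!
MP_7d16da_al (S02038), Part M, file 2: the wreath product and the conclusion.
-/

set_option autoImplicit false

namespace Pool.Agent.Helper74.TB

/-- the wreath product with the cyclic group of order three -/
@[ext]
structure Wr (D : Type) where
  l : ZMod 3 → D
  r : ZMod 3

namespace Wr

variable {D D' : Type} [Group D] [Group D']

instance : Mul (Wr D) := ⟨fun x y => ⟨fun j => x.l j * y.l (j - x.r), x.r + y.r⟩⟩

instance : One (Wr D) := ⟨⟨fun _ => 1, 0⟩⟩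

instance : Inv (Wr D) := ⟨fun x => ⟨fun j => (x.l (j + x.r))⁻¹, -x.r⟩⟩

theorem mul_l (x y : Wr D) (j : ZMod 3) : (x * y).l j = x.l j * y.l (j - x.r) := rfl

theorem mul_r (x y : Wr D) : (x * y).r = x.r + y.r := rfl

theorem one_l (j : ZMod 3) : (1 : Wr D).l j = 1 := rfl

theorem one_r : (1 : Wr D).r = 0 := rfl

theorem inv_l (x : Wr D) (j : ZMod 3) : (x⁻¹).l j = (x.l (j + x.r))⁻¹ := rfl

theorem inv_r (x : Wr D) : (x⁻¹).r = -x.r := rfl

instance : Group (Wr D) :=
  Group.ofLeftAxioms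
    (by
      intro x y z
      ext j
      · simp only [mul_l, mul_r]
        rw [mul_assoc, sub_sub]
      · simp only [mul_r]
        rw [add_assoc])
    (by
      intro x
      ext j
      · simp only [mul_l, one_l, one_r, sub_zero, one_mul]
      · simp only [mul_r, one_r, zero_add])
    (by
      intro x
      ext j
      · simp only [mul_l, inv_l, inv_r, one_l, sub_neg_eq_add, inv_mul_cancel]
      · simp only [mul_r, inv_r, one_r, neg_add_cancel])

/-- functoriality -/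
def map (f : D →* D') : Wr D →* Wr D' where
  toFun x := ⟨fun j => f (x.l j), x.r⟩
  map_one' := by
    ext j
    · exact map_one f
    · rfl
  map_mul' x y := by
    ext j
    · exact map_mul f _ _
    · rfl

theorem map_l (f : D →* D') (x : Wr D) (j : ZMod 3) : (map f x).l j = f (x.l j) := rfl

theorem map_r (f : D →* D') (x : Wr D) : (map f x).r = x.r := rfl

/-- the base group -/
def ib : (ZMod 3 → D) →* Wr D where
  toFun d := ⟨d, 0⟩
  map_one' := rfl
  map_mul' d d' := by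
    ext j
    · show d j * d' j = d j * d' (j - 0)
      rw [sub_zero]
    · exact (add_zero 0).symm

theorem ib_l (d : ZMod 3 → D) (j : ZMod 3) : (ib d).l j = d j := rfl

theorem ib_r (d : ZMod 3 → D) : (ib d).r = 0 := rfl

theorem eq_ib {x : Wr D} (h : x.r = 0) : x = ib x.l := by
  ext j
  · rfl
  · exact h

/-- the projection -/
def rr : Wr D →* Multiplicative (ZMod 3) where
  toFun x := Multiplicative.ofAdd x.r
  map_one' := rfl
  map_mul' _ _ := rfl

theorem rr_eq_one {x : Wr D} : rr x = 1 ↔ x.r = 0 := Iff.rfl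

end Wr

open Wr

/-- the generator of the top -/
def gg (n : ℕ) : Wr (Multiplicative (ZMod n)) :=
  ⟨fun j => if j = 0 then Multiplicative.ofAdd 1 else 1, 1⟩

theorem gg_cube (n : ℕ) : gg n ^ 3 = ib (fun _ => Multiplicative.ofAdd (1 : ZMod n)) := by
  have h : ∀ j : ZMod 3, (gg n).l j = if j = 0 then Multiplicative.ofAdd 1 else 1 := fun _ => rfl
  have hr : (gg n).r = 1 := rfl
  ext j
  · rw [pow_succ, pow_succ, pow_one, mul_l, mul_l, mul_r, hr, h, h, h, ib_l]
    have hj : ∀ j : ZMod 3, j = 0 ∨ j = 1 ∨ j = 2 := by decide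
    rcases hj j with rfl | rfl | rfl
    · rw [if_pos (by decide), if_neg (by decide), if_neg (by decide), mul_one, mul_one]
    · rw [if_neg (by decide), if_pos (by decide), if_neg (by decide), mul_one, one_mul]
    · rw [if_neg (by decide), if_neg (by decide), if_pos (by decide), one_mul, one_mul]
  · rw [pow_succ, pow_succ, pow_one, mul_r, mul_r, hr, ib_r]
    decide

theorem gg_cube_zpow (n : ℕ) (q : ℤ) :
    gg n ^ (3 * q) = ib (fun _ => Multiplicative.ofAdd (q : ZMod n)) := by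
  rw [zpow_mul]
  have : gg n ^ (3 : ℤ) = gg n ^ 3 := by
    rw [← zpow_natCast]; rfl
  rw [this, gg_cube, ← map_zpow]
  congr 1
  funext j
  show (Multiplicative.ofAdd (1 : ZMod n)) ^ q = _
  rw [← ofAdd_zsmul, zsmul_one]

section Main

variable {D : Type} [Group D] {n : ℕ} (deg : D →* Multiplicative (ZMod n))

/-- the group of the counterexample -/
def GG : Subgroup (Wr D) := (Subgroup.zpowers (gg n)).comap (Wr.map deg)

variable {deg}

theorem GG_exp {x : Wr D} (hx : x ∈ GG deg) : ∃ k : ℤ, gg n ^ k = Wr.map deg x :=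
  Subgroup.mem_zpowers_iff.mp hx

theorem r_of {x : Wr D} {k : ℤ} (hk : gg n ^ k = Wr.map deg x) : x.r = (k : ZMod 3) := by
  have h1 := congrArg rr hk
  rw [map_zpow] at h1
  have h2 : rr (gg n) = Multiplicative.ofAdd (1 : ZMod 3) := rfl
  rw [h2, ← ofAdd_zsmul, zsmul_one] at h1
  exact (Multiplicative.ofAdd.injective h1).symm

theorem deg_of {x : Wr D} {q : ℤ} (hk : gg n ^ (3 * q) = Wr.map deg x) (j : ZMod 3) :
    deg (x.l j) = Multiplicative.ofAdd (q : ZMod n) := by
  rw [gg_cube_zpow] at hk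
  have := congrArg (fun z => z.l j) hk
  exact this.symm

theorem cube_base {x : Wr D} (hx : x ∈ GG deg) : ∃ k : ℤ, x.r = (k : ZMod 3) ∧ (x ^ 3).r = 0 ∧
    ∀ j, deg ((x ^ 3).l j) = Multiplicative.ofAdd (k : ZMod n) := by
  obtain ⟨k, hk⟩ := GG_exp hx
  have h3 : gg n ^ (3 * k) = Wr.map deg (x ^ 3) := by
    rw [map_pow, ← hk, ← zpow_natCast, ← zpow_mul, mul_comm]
    rfl
  refine ⟨k, r_of hk, ?_, fun j => deg_of h3 j⟩
  rw [r_of h3]
  push_cast
  have : ((3 : ZMod 3)) = 0 := by decide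
  rw [this, zero_mul]

theorem comm_base {x y : Wr D} (hx : x ∈ GG deg) (hy : y ∈ GG deg) :
    (cm x y).r = 0 ∧ ∀ j, deg ((cm x y).l j) = 1 := by
  obtain ⟨k, hk⟩ := GG_exp hx
  obtain ⟨k', hk'⟩ := GG_exp hy
  have h3 : Wr.map deg (cm x y) = 1 := by
    rw [cm_map, ← hk, ← hk']
    unfold cm
    rw [(Commute.zpow_zpow_self (gg n) k k').eq]
    group
  constructor
  · have := congrArg Wr.r h3
    exact this
  · intro j
    have := congrArg (fun z => z.l j) h3
    exact this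

end Main

theorem law_holds {e N1 N2 h : ℕ} {m : ℕ → ℤ} (he : 1 ≤ e) (hN1 : N1 % 3 = 1) (hN2 : N2 % 3 = 1)
    {D : Type} [Group D] {deg : D →* Multiplicative (ZMod (3 ^ e))}
    (hD : EndGroup D (3 ^ e) N1 N2 h m deg) {X Y : Wr D} (hX : X ∈ GG deg) (hY : Y ∈ GG deg) :
    wlaw N1 N2 h m X Y = 1 := by
  obtain ⟨k, hk, hk0, hkd⟩ := cube_base hX
  obtain ⟨k', hk', hk0', hkd'⟩ := cube_base hY
  obtain ⟨hs0, hsd⟩ := comm_base hX hY
  have hc0 : (X * cm X Y * X⁻¹).r = 0 := by
    rw [mul_r, mul_r, inv_r, hs0, add_zero, add_neg_cancel]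
  unfold wlaw ff
  have key : wval N1 N2 h m (cm X Y)
      (gad N1 N2 (gad N1 N2 (X ^ 3) (Y ^ 3) (cm X Y)) (X * cm X Y * X⁻¹) (cm X Y)) =
      ib (wval N1 N2 h m (cm X Y).l
    (gad N1 N2 (gad N1 N2 (X ^ 3).l (Y ^ 3).l (cm X Y).l) (X * cm X Y * X⁻¹).l (cm X Y).l)) := by
    rw [wval_map, gad_map, gad_map, ← eq_ib hk0, ← eq_ib hk0', ← eq_ib hc0, ← eq_ib hs0]
  rw [key, ← map_one (ib (D := D))]
  congr 1
  funext j
  have hev := wval_map (Pi.evalMonoidHom (fun _ : ZMod 3 => D) j) N1 N2 h m (cm X Y).l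
    (gad N1 N2 (gad N1 N2 (X ^ 3).l (Y ^ 3).l (cm X Y).l) (X * cm X Y * X⁻¹).l (cm X Y).l)
  rw [gad_map, gad_map] at hev
  refine hev.trans ?_
  refine wval_coord hD hN1 hN2 _ _ _ _ (hsd j) ?_
  intro hS
  replace hS : (cm X Y).l j ≠ 1 := hS
  show ¬ Commute ((X ^ 3).l j) ((cm X Y).l j) ∨ ¬ Commute ((Y ^ 3).l j) ((cm X Y).l j) ∨
    ¬ Commute ((X * cm X Y * X⁻¹).l j) ((cm X Y).l j)
  have hdvd : ∀ z : ℤ, ((z : ZMod 3) = 0 ↔ (3 : ℤ) ∣ z) := by
    intro z
    rw [ZMod.intCast_zmod_eq_zero_iff_dvd]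
    rfl
  by_cases h3 : (3 : ℤ) ∣ k
  · by_cases h3' : (3 : ℤ) ∣ k'
    · right; right
      have hX0 : X.r = 0 := by rw [hk, hdvd]; exact h3
      have hY0 : Y.r = 0 := by rw [hk', hdvd]; exact h3'
      have e1 : cm X Y = ib (cm X.l Y.l) := by
        rw [cm_map, ← eq_ib hX0, ← eq_ib hY0]
      have e2 : X * cm X Y * X⁻¹ = ib (X.l * cm X.l Y.l * X.l⁻¹) := by
        rw [map_mul, map_mul, map_inv, ← eq_ib hX0, ← e1]
      have e3 : (cm X Y).l j = cm (X.l j) (Y.l j) := by rw [e1]; rfl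
      have e4 : (X * cm X Y * X⁻¹).l j = X.l j * cm (X.l j) (Y.l j) * (X.l j)⁻¹ := by
        rw [e2]; rfl
      rw [e3] at hS ⊢
      rw [e4]
      exact case3 hD _ _ hS
    · right; left
      exact case12 hD he _ _ hS (hsd j) k' h3' (hkd' j)
  · left
    exact case12 hD he _ _ hS (hsd j) k h3 (hkd j)

theorem stM : StM := by
  intro e N1 N2 h m he hN1 hN2 hh D _ deg hD hall
  obtain ⟨a, ha1, had⟩ := hD.ker
  obtain ⟨φ, hφ⟩ := hD.surj (Multiplicative.ofAdd 1)
  -- the laws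
  let L : Set (FreeGroup ℕ) := {FreeGroup.of 0 ^ (3 * 3 ^ e),
    wlaw N1 N2 h m (FreeGroup.of 0) (FreeGroup.of 1)}
  have hL : ∀ (G : Type) [Group G], (∀ w ∈ L, ∀ ψ : FreeGroup ℕ →* G, ψ w = 1) ↔
      (∀ x : G, x ^ (3 * 3 ^ e) = 1) ∧ ∀ X Y : G, wlaw N1 N2 h m X Y = 1 := by
    intro G _
    constructor
    · intro hw
      refine ⟨fun x => ?_, fun X Y => ?_⟩
      · have := hw _ (Set.mem_insert _ _) (FreeGroup.lift fun _ => x)
        rw [map_pow, FreeGroup.lift_apply_of] at this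
        exact this
      · have := hw _ (Set.mem_insert_of_mem _ rfl) (FreeGroup.lift fun i => if i = 0 then X else Y)
        rw [wlaw_map, FreeGroup.lift_apply_of, FreeGroup.lift_apply_of] at this
        simpa using this
    · rintro ⟨h1, h2⟩ w hw ψ
      rcases hw with rfl | hw
      · rw [map_pow, h1]
      · rw [Set.mem_singleton_iff] at hw
        rw [hw, wlaw_map, h2]
  -- the group
  have hGlaw : (∀ x : GG deg, x ^ (3 * 3 ^ e) = 1) ∧
      ∀ X Y : GG deg, wlaw N1 N2 h m X Y = 1 := by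
    constructor
    · intro x
      apply Subtype.ext
      show ((x : Wr D)) ^ (3 * 3 ^ e) = 1
      obtain ⟨k, -, h0, -⟩ := cube_base x.2
      rw [pow_mul, eq_ib h0, ← map_pow, ← map_one (ib (D := D))]
      congr 1
      funext j
      exact hD.exp _
    · intro X Y
      apply Subtype.ext
      have := wlaw_map (GG deg).subtype N1 N2 h m X Y
      have h2 : (GG deg).subtype (wlaw N1 N2 h m X Y) = 1 := by
        rw [this]
        exact law_holds he hN1 hN2 hD X.2 Y.2
      exact h2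
  -- subgroups
  let A3 : Subgroup (Wr D) := (Wr.map deg).ker
  have hA3 : ∀ x : Wr D, x ∈ A3 ↔ x.r = 0 ∧ ∀ j, deg (x.l j) = 1 := by
    intro x
    constructor
    · intro hx
      have h1 : Wr.map deg x = 1 := hx
      exact ⟨congrArg Wr.r h1, fun j => congrArg (fun z => z.l j) h1⟩
    · rintro ⟨h1, h2⟩
      show Wr.map deg x = 1
      ext j
      · exact h2 j
      · exact h1
  let HH : Subgroup (Wr D) :=
    { carrier := {x | (x.r = 0 ∧ ∀ j, deg (x.l j) = 1) ∧ x.l 1 = 1 ∧ x.l 2 = 1}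
      mul_mem' := by
        rintro x y ⟨⟨h1, h2⟩, h3, h4⟩ ⟨⟨h1', h2'⟩, h3', h4'⟩
        refine ⟨⟨?_, fun j => ?_⟩, ?_, ?_⟩
        · rw [mul_r, h1, h1', add_zero]
        · rw [mul_l, map_mul, h2, h2', one_mul]
        · rw [mul_l, h1, sub_zero, h3, h3', one_mul]
        · rw [mul_l, h1, sub_zero, h4, h4', one_mul]
      one_mem' := ⟨⟨rfl, fun _ => map_one deg⟩, rfl, rfl⟩
      inv_mem' := by
        rintro x ⟨⟨h1, h2⟩, h3, h4⟩
        refine ⟨⟨?_, fun j => ?_⟩, ?_, ?_⟩
        · rw [inv_r, h1, neg_zero]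
        · rw [inv_l, map_inv, h2, inv_one]
        · rw [inv_l, h1, add_zero, h3, inv_one]
        · rw [inv_l, h1, add_zero, h4, inv_one] }
  have hHH : ∀ x : Wr D, x ∈ HH ↔ (x.r = 0 ∧ ∀ j, deg (x.l j) = 1) ∧ x.l 1 = 1 ∧ x.l 2 = 1 :=
    fun x => Iff.rfl
  have hHA : HH ≤ A3 := fun x hx => (hA3 x).mpr hx.1
  have hnorm : (A3.subgroupOf (GG deg)).Normal := inferInstance
  -- two elements
  let xx : Wr D := ⟨fun j => if j = 0 then a else 1, 0⟩
  let gm : Wr D := ⟨fun j => if j = 0 then φ else 1, 1⟩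
  have hxxl : ∀ j, xx.l j = if j = 0 then a else 1 := fun _ => rfl
  have hgml : ∀ j, gm.l j = if j = 0 then φ else 1 := fun _ => rfl
  have hxx : xx ∈ HH := by
    refine ⟨⟨rfl, fun j => ?_⟩, ?_, ?_⟩
    · rw [hxxl]
      split_ifs
      · exact had
      · exact map_one deg
    · rw [hxxl, if_neg (by decide)]
    · rw [hxxl, if_neg (by decide)]
  have hxxG : xx ∈ GG deg := by
    have h1 : Wr.map deg xx = 1 := hHA hxx
    show Wr.map deg xx ∈ Subgroup.zpowers (gg (3 ^ e))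
    rw [h1]
    exact Subgroup.one_mem _
  have hgmG : gm ∈ GG deg := by
    have h1 : Wr.map deg gm = gg (3 ^ e) := by
      ext j
      · rw [map_l, hgml]
        show deg (if j = 0 then φ else 1) = if j = 0 then Multiplicative.ofAdd 1 else 1
        split_ifs
        · exact hφ
        · exact map_one deg
      · rfl
    show Wr.map deg gm ∈ Subgroup.zpowers (gg (3 ^ e))
    rw [h1]
    exact Subgroup.mem_zpowers _
  have hconj : (gm * xx * gm⁻¹).l 1 = a := by
    have hr : (gm * xx).r = 1 := by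
      rw [mul_r]
      show (1 : ZMod 3) + 0 = 1
      exact add_zero 1
    rw [mul_l, hr, inv_l, mul_l]
    show gm.l 1 * xx.l (1 - 1) * (gm.l (1 - 1 + 1))⁻¹ = a
    rw [hgml, hgml, hxxl, if_neg (by decide), if_pos (by decide), if_neg (by decide), one_mul,
      inv_one, mul_one]
  have hnot : ¬ (HH.subgroupOf (GG deg)).Normal := by
    intro hN
    have h1 : (⟨xx, hxxG⟩ : GG deg) ∈ HH.subgroupOf (GG deg) :=
      Subgroup.mem_subgroupOf.mpr hxx
    have h2 := hN.conj_mem _ h1 ⟨gm, hgmG⟩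
    have h3 : gm * xx * gm⁻¹ ∈ HH := h2
    rw [hHH, hconj] at h3
    exact ha1 h3.2.1
  apply hnot
  refine hall L ⟨GG deg, inferInstance, (hL _).mpr hGlaw, ?_⟩ ?_ (GG deg) ((hL _).mpr hGlaw) _ ?_
  · by_contra hcon
    push Not at hcon
    apply hnot
    refine ⟨fun x hx g => ?_⟩
    rw [hcon g x, mul_inv_cancel_right]
    exact hx
  · intro P _ _ hP x y
    obtain ⟨h1, h2⟩ := (hL P).mp hP
    exact finite_comm e N1 N2 h m hh h1 h2 x y
  · refine ⟨2, fun i => if i = 0 then HH.subgroupOf (GG deg) else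
      if i = 1 then A3.subgroupOf (GG deg) else ⊤, ?_, ?_, ?_⟩
    · simp
    · simp
    · intro i hi
      interval_cases i
      · simp only [if_true, zero_add, one_ne_zero, if_false]
        refine ⟨fun x hx => hHA hx, ⟨fun x hx g => ?_⟩⟩
        have hx' : ((x : GG deg) : Wr D) ∈ HH := hx
        have hg : ((g : GG deg) : Wr D) ∈ A3 := g.2
        show ((g : GG deg) : Wr D) * ((x : GG deg) : Wr D) * ((g : GG deg) : Wr D)⁻¹ ∈ HH
        generalize ((g : GG deg) : Wr D) = g' at hg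
        generalize ((x : GG deg) : Wr D) = x' at hx'
        obtain ⟨hg0, hgd⟩ := (hA3 g').mp hg
        obtain ⟨⟨hx0, hxd⟩, hx1, hx2⟩ := hx'
        have hr : (g' * x').r = 0 := by rw [mul_r, hg0, hx0, add_zero]
        have hcj : ∀ j, (g' * x' * g'⁻¹).l j = g'.l j * x'.l j * (g'.l j)⁻¹ := by
          intro j
          rw [mul_l, hr, inv_l, mul_l, hg0, sub_zero, add_zero]
        refine ⟨⟨?_, fun j => ?_⟩, ?_, ?_⟩
        · rw [mul_r, hr, inv_r, hg0, neg_zero, add_zero]
        · rw [hcj, map_mul, map_mul, map_inv, hgd, hxd, one_mul, inv_one, one_mul]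
        · rw [hcj, hx1, mul_one, mul_inv_cancel]
        · rw [hcj, hx2, mul_one, mul_inv_cancel]
      · refine ⟨le_top, ?_⟩
        show ((A3.subgroupOf (GG deg)).subgroupOf ⊤).Normal
        exact Subgroup.normal_subgroupOf

end Pool.Agent.Helper74.TB
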