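import Pool.Agent.Helper74.TB.StL

/-! MP_7d16da_al, Part L0: good parameters exist. -/

set_option autoImplicit false

namespace Pool.Agent.Helper74.TB

theorem stPar : StPar := by
  intro C M1 T0 hC
  obtain ⟨q, hq⟩ : ∃ q, q = 3 * 10 ^ 6 * M1 + 1 := ⟨_, rfl⟩
  obtain ⟨L, hL⟩ : ∃ L, L = 1000 * C := ⟨_, rfl⟩
  obtain ⟨Ax, hAx⟩ : ∃ Ax, Ax = 10 ^ 6 * L + 10 ^ 5 * q * L * C := ⟨_, rfl⟩
  obtain ⟨L1, hL1⟩ : ∃ L1, L1 = 10 ^ 4 * Ax := ⟨_, rfl⟩
  obtain ⟨D, hD⟩ : ∃ D, D = 300 * L1 := ⟨_, rfl⟩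
  obtain ⟨R, hR⟩ : ∃ R, R = 1000 * D := ⟨_, rfl⟩
  obtain ⟨L2, hL2⟩ : ∃ L2, L2 = (200 * C * q + 10) * L1 := ⟨_, rfl⟩
  obtain ⟨km, hkm⟩ : ∃ km, km = 10 * D * q + q * L1 + 1 := ⟨_, rfl⟩
  obtain ⟨T, hT⟩ : ∃ T, T = 10 * R + M1 * R + T0 * R + 10 ^ 4 * (D + L2) := ⟨_, rfl⟩
  obtain ⟨N1, hN1⟩ : ∃ N1, N1 = 300 * D * q + 4 := ⟨_, rfl⟩
  obtain ⟨N2, hN2⟩ : ∃ N2, N2 = N1 + 3 := ⟨_, rfl⟩
  obtain ⟨h, hh⟩ : ∃ h, h = 3 * (10 ^ 4 * M1 * (T + 1000 + 100 * C) + 1) + 1 := ⟨_, rfl⟩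
  obtain ⟨Th, hTh⟩ : ∃ Th, Th = 10 ^ 4 * (D + L2 + R * h) := ⟨_, rfl⟩
  obtain ⟨M0, hM0⟩ : ∃ M0, M0 = 10 * q * Th := ⟨_, rfl⟩
  obtain ⟨lam, hlam⟩ : ∃ lam, lam = km + 2 := ⟨_, rfl⟩
  obtain ⟨e, he⟩ : ∃ e, e = q * T + 100 * C * q + 100 * D * q * (N1 + N2) +
    8 * km * M0 * lam ^ h + 1 := ⟨_, rfl⟩
  have he3 : e < 3 ^ e := Nat.lt_pow_self (by norm_num)
  have hq1 : 1 ≤ q := by omega
  have hLpos : 1 ≤ L := by omega
  have hAxL : L ≤ Ax := by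
    have : 0 ≤ 10 ^ 5 * q * L * C := Nat.zero_le _
    omega
  have hAxL1 : Ax ≤ L1 := by omega
  have hLL1 : L ≤ L1 := hAxL.trans hAxL1
  have hL1pos : 1 ≤ L1 := by omega
  have hpos1 : 0 ≤ q * T := Nat.zero_le _
  have hpos2 : 0 ≤ 100 * C * q := Nat.zero_le _
  have hpos3 : 0 ≤ 100 * D * q * (N1 + N2) := Nat.zero_le _
  have hpos4 : 0 ≤ 8 * km * M0 * lam ^ h := Nat.zero_le _
  have e1 : q * T ≤ 3 ^ e := by omega
  have e2 : 100 * C * q ≤ 3 ^ e := by omega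
  have e3 : 100 * D * q * (N1 + N2) < 3 ^ e := by omega
  have e4 : 8 * km * M0 * lam ^ h ≤ 3 ^ e := by omega
  have e5 : 1 ≤ e := by omega
  have t1 : 10 * R ≤ T := by
    have : 0 ≤ M1 * R := Nat.zero_le _
    have : 0 ≤ T0 * R := Nat.zero_le _
    omega
  have t2 : M1 * R ≤ T := by
    have : 0 ≤ T0 * R := Nat.zero_le _
    omega
  have t3 : T0 * R ≤ T := by
    have : 0 ≤ M1 * R := Nat.zero_le _
    omega
  have t4 : 10 ^ 4 * (D + L2) ≤ T := by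
    have : 0 ≤ T0 * R := Nat.zero_le _
    have : 0 ≤ M1 * R := Nat.zero_le _
    omega
  refine ⟨{ C := C, L := L, Δ := D, R := R, n := 3 ^ e, q := q, Ax := Ax, L1 := L1, L2 := L2,
            km := km, h := h, M0 := M0, lam := lam, Θ := Th, N1 := N1, N2 := N2, e := e,
            Tm := (T : ℝ) }, rfl, hL, ?_⟩
  refine
    { hC := hC
      hL := hL.ge
      cst2 := ?_
      cst3 := ?_
      hT0 := ?_
      hn := rfl
      he := e5
      hq := hq1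
      hAx := hAx.ge
      hL1 := hL1.ge
      hR := ?_
      hqT := ?_
      hqn := e2
      hN1 := ?_
      hN2 := ?_
      hcop := ?_
      hNb := ?_
      hNn := e3
      hL2 := hL2.ge
      hkm := ?_
      hh := ?_ }
  · show Cst2 2000 C D R (3 ^ e) q L Ax L1 M1 (T : ℝ)
    refine
      { cst := ?_
        odd := ?_
        hn := ?_
        hq := ?_
        hL := hL.ge
        hL1 := hLL1
        hAx := hAxL1
        hΔ := hD.ge
        hM := ?_ }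
    · refine
        { hδ := by norm_num
          hC := hC
          hΔ := by omega
          hR := hR.ge
          hc := by positivity
          hcT := ?_
          hT := ?_ }
      · have : 100 * (100 * D) ≤ T := by omega
        exact_mod_cast this
      · exact_mod_cast t1
    · exact Odd.pow (by decide)
    · calc 3 = 3 ^ 1 := by norm_num
        _ ≤ 3 ^ e := Nat.pow_le_pow_right (by norm_num) e5
    · show 10 * R * M1 ≤ q * L1
      calc 10 * R * M1 = (3 * 10 ^ 6 * M1) * L1 := by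
            rw [hR, hD]; ring
        _ ≤ q * L1 := Nat.mul_le_mul_right _ (by omega)
    · show (M1 : ℝ) * (R : ℝ) ≤ (T : ℝ)
      exact_mod_cast t2
  · show Cst3 C D R (3 ^ e) q L1 L2 km h M0 lam Th M1 (T : ℝ)
    refine
      { hL2 := ?_
        hΘ := hTh.ge
        hM0 := hM0.ge
        hlam := hlam.ge
        hk := by show 1 ≤ km; rw [hkm]; exact Nat.le_add_left _ _
        hh := ?_
        hn := e4
        hT := ?_ }
    · show 100 * L2 ≤ q * C * L1 * 10 ^ 5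
      have h1 : 1 ≤ C * q := Nat.one_le_iff_ne_zero.2 (Nat.mul_ne_zero (by omega) (by omega))
      calc 100 * L2 = (20000 * (C * q) + 1000) * L1 := by rw [hL2]; ring
        _ ≤ (10 ^ 5 * (C * q)) * L1 := Nat.mul_le_mul_right _ (by omega)
        _ = q * C * L1 * 10 ^ 5 := by ring
    · show 10 ^ 4 * (M1 : ℝ) * ((T : ℝ) + 1000 + 100 * (C : ℝ)) ≤ (h : ℝ)
      have : 10 ^ 4 * M1 * (T + 1000 + 100 * C) ≤ h := by omega
      exact_mod_cast this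
    · show 10 ^ 4 * ((D : ℝ) + (L2 : ℝ)) ≤ (T : ℝ)
      exact_mod_cast t4
  · show (T0 : ℝ) * (R : ℝ) ≤ (T : ℝ)
    exact_mod_cast t3
  · show R ≤ 10 ^ 6 * L1
    omega
  · show (q : ℝ) * (T : ℝ) ≤ ((3 ^ e : ℕ) : ℝ)
    exact_mod_cast e1
  · show N1 % 3 = 1
    have : N1 = 3 * (100 * (D * q) + 1) + 1 := by rw [hN1]; ring
    omega
  · show N2 % 3 = 1
    have : N1 = 3 * (100 * (D * q) + 1) + 1 := by rw [hN1]; ring
    omega
  · show Nat.Coprime N1 N2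
    have h3 : N1 = 3 * (100 * (D * q) + 1) + 1 := by rw [hN1]; ring
    have h4 : Nat.Coprime N1 3 := by
      rw [h3]
      simp [Nat.coprime_mul_left_add_left]
    rw [hN2]
    simpa using h4
  · show 100 * D * q + 1 ≤ N1
    have h3 : N1 = 3 * (100 * D * q) + 4 := by rw [hN1]; ring
    omega
  · show 10 * D * q + q * L1 ≤ km
    omega
  · show h % 3 ≠ 0
    omega

end Pool.Agent.Helper74.TB
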