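import Pool.Agent.Helper74.TB.StL
import Pool.Agent.Helper74.MH.Nd

/-! MP_7d16da_al: the quotient group with its word metric (Part L2). -/

set_option autoImplicit false

namespace Pool.Agent.Helper74.TB

open Pool.Agent.Helper74.MH

variable {G : Type*} [Group G] {d : G → G → ℕ} {δ C Δ R : ℕ} {X F : Set G} {Tm : ℝ}

theorem quo_normal {H : Hubs d X C} (hF : Fam H F Δ Tm) : (Subgroup.closure F).Normal := by
  refine ⟨fun n hn g => ?_⟩
  induction hn using Subgroup.closure_induction with
  | mem x hx => exact Subgroup.subset_closure (hF.conj x hx g)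
  | one => rw [mul_one, mul_inv_cancel]; exact one_mem _
  | mul x y _ _ hx hy =>
    have e : g * (x * y) * g⁻¹ = (g * x * g⁻¹) * (g * y * g⁻¹) := by group
    rw [e]
    exact mul_mem hx hy
  | inv x _ hx =>
    have e : g * x⁻¹ * g⁻¹ = (g * x * g⁻¹)⁻¹ := by group
    rw [e]
    exact inv_mem hx

theorem adj_refl (hG : HypG d δ) (H : Hubs d X C) (x : G) : Adj H F R x x := by
  left
  rw [(hG.path.zero_iff x x).2 rfl]
  exact Nat.zero_le _

theorem quo_adj_symm (hG : HypG d δ) (H : Hubs d X C) {x y : G} (h : Adj H F R x y) :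
    Adj H F R y x := by
  rcases h with h | ⟨f, hf, h1, h2⟩
  · left
    rw [hG.path.symm]
    exact h
  · right
    exact ⟨f, hf, h2, h1⟩

theorem quo_adj_smul (hG : HypG d δ) {H : Hubs d X C} (hF : Fam H F Δ Tm) {x y : G}
    (h : Adj H F R x y) (g : G) : Adj H F R (g * x) (g * y) := by
  rcases h with h | ⟨f, hf, ⟨z, hz, h1⟩, ⟨w, hw, h2⟩⟩
  · left
    rw [hG.inv]
    exact h
  · right
    refine ⟨g * f * g⁻¹, hF.conj f hf g, ⟨g * z, ?_, ?_⟩, ⟨g * w, ?_, ?_⟩⟩
    · exact (H.Zconj f (hF.sub hf) g z).2 hz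
    · rw [hG.inv]; exact h1
    · exact (H.Zconj f (hF.sub hf) g w).2 hw
    · rw [hG.inv]; exact h2

theorem stQuo : StQuo := by
  intro G _ d δ C Δ R X F H Tm hG hF hR
  have hn : (Subgroup.closure F).Normal := quo_normal hF
  let π : G →* G ⧸ Subgroup.closure F := QuotientGroup.mk' (Subgroup.closure F)
  have hsur : Function.Surjective π := QuotientGroup.mk'_surjective _
  let ι := {s : G ⧸ Subgroup.closure F // ∃ x y, π x = 1 ∧ π y = s ∧ Adj H F R x y}
  let g : ι → G ⧸ Subgroup.closure F := fun i => i.1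
  have hmem : ∀ x y : G, Adj H F R x y → ∃ i : ι, π y = π x * g i := by
    intro x y h
    refine ⟨⟨π (x⁻¹ * y), 1, x⁻¹ * y, map_one π, rfl, ?_⟩, ?_⟩
    · have := quo_adj_smul hG hF h x⁻¹
      rwa [inv_mul_cancel] at this
    · show π y = π x * π (x⁻¹ * y)
      rw [← map_mul, mul_inv_cancel_left]
  have hcl : Subgroup.closure (Set.range g) = ⊤ := by
    rw [eq_top_iff]
    rintro a -
    obtain ⟨u, rfl⟩ := hsur a
    have key : ∀ n : ℕ, ∀ u : G, d 1 u = n → π u ∈ Subgroup.closure (Set.range g) := by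
      intro n
      induction n with
      | zero =>
        intro u hu
        rw [← (hG.path.zero_iff 1 u).1 hu, map_one]
        exact one_mem _
      | succ n ih =>
        intro u hu
        obtain ⟨z, hz1, hz2⟩ := hG.path.geod 1 u n (by omega)
        have h1 := ih z hz2
        have h2 : d z u ≤ R := by
          unfold MH.Btw at hz1
          omega
        obtain ⟨i, hi⟩ := hmem z u (Or.inl h2)
        rw [hi]
        exact mul_mem h1 (Subgroup.subset_closure ⟨i, rfl⟩)
    exact key _ u rfl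
  refine ⟨G ⧸ Subgroup.closure F, inferInstance, π, wd g, hsur, ?_, wd_isPathMetric hcl, ?_, ?_⟩
  · intro x
    exact QuotientGroup.eq_one_iff x
  · intro c x y
    unfold wd
    rw [mul_inv_rev, mul_assoc, inv_mul_cancel_left]
  · intro a b
    rw [wd_le_one_iff hcl]
    constructor
    · rintro (rfl | ⟨i, rfl⟩ | ⟨i, rfl⟩)
      · obtain ⟨x, rfl⟩ := hsur a
        exact ⟨x, x, rfl, rfl, adj_refl hG H x⟩
      · obtain ⟨u, rfl⟩ := hsur a
        obtain ⟨s, x, y, h1, h2, h3⟩ := i
        refine ⟨u * x, u * y, ?_, ?_, quo_adj_smul hG hF h3 u⟩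
        · rw [map_mul, h1, mul_one]
        · exact (map_mul π u y).trans (congrArg (π u * ·) h2)
      · obtain ⟨u, rfl⟩ := hsur b
        obtain ⟨s, x, y, h1, h2, h3⟩ := i
        refine ⟨u * y, u * x, ?_, ?_, quo_adj_symm hG H (quo_adj_smul hG hF h3 u)⟩
        · exact (map_mul π u y).trans (congrArg (π u * ·) h2)
        · rw [map_mul, h1, mul_one]
    · rintro ⟨x, y, rfl, rfl, h⟩
      obtain ⟨i, hi⟩ := hmem x y h
      exact Or.inr (Or.inl ⟨i, hi⟩)

end Pool.Agent.Helper74.TB
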