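import Pool.Agent.Helper74.TB.Final
import Pool.Agent.Helper74.TB.Tow
import Pool.Agent.Helper74.TB.J1
import Pool.Agent.Helper74.TB.J2
import Pool.Agent.Helper74.TB.G7
import Pool.Agent.Helper74.TB.Step
import Pool.Agent.Helper74.TB.H
import Pool.Agent.Helper74.TB.F
import Pool.Agent.Helper74.TB.TL
import Pool.Agent.Helper74.TB.F0
import Pool.Agent.Helper74.TB.P
import Pool.Agent.Helper74.TB.X
import Pool.Agent.Helper74.TB.A
import Pool.Agent.Helper74.TB.C
import Pool.Agent.Helper74.TB.V
import Pool.Agent.Helper74.TB.Dig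
import Pool.Agent.Helper74.TB.Ch
import Pool.Agent.Helper74.TB.Count
import Pool.Agent.Helper74.TB.E
import Pool.Agent.Helper74.TB.Len
import Pool.Agent.Helper74.TB.Zero
import Pool.Agent.Helper74.TB.Quo
import Pool.Agent.Helper74.TB.LimA
import Pool.Agent.Helper74.TB.Par
import Pool.Agent.Helper74.TB.M
import Pool.Agent.Helper74.TB.TR
import Pool.Agent.Helper74.TB.CHB
import Pool.Agent.Helper74.TB.K
import Pool.Agent.Helper74.TB.KA
import Pool.Agent.Helper74.TB.KB
import Pool.Agent.Helper74.TB.KC
import Pool.Agent.Helper74.TB.KD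
import Pool.Agent.Helper74.TB.KE
import Pool.Agent.Helper74.TB.KF
import Pool.Agent.Helper74.TB.KW
import Pool.Agent.Helper74.TB.CL
import Pool.Agent.Helper74.TB.LS

/-! MP_7d16da_al (S02038): assembly of all parts. -/

set_option autoImplicit false

namespace Pool.Agent.Helper74.TB

theorem notMain_of (hCL : StLimA → StCL) (hLS : StLimA → StLS) : NotMain := by
  have hV := stV
  have hC := stC
  have hDig := stDig hC
  have hCh := stCh
  have hE := stE hC hV hDig hCh
  have hLen := stLen hC hV hDig hCh hE stCount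
  have hK := stK hC hV hDig hCh hE hLen stCount (stTR hV hE) stCHB
  have hF0 := stF0
  have hTL := stTL hF0 hLen
  have hF := stF hF0 hTL
  have hG := stG hF0 hC hV hDig hCh hE hLen stCount
  have hH := stH hC
  have hStep := stStep hE hF hG hH
  have hJ1 := stJ1 hF0 hTL hF
  have hJ2 := stJ2 stCHB hF0 hTL
  have hTow := stTow stZero stX stP stQuo hStep hF hH hC hJ1 hJ2 hK
  exact tbFinal stPar stA hTow stLimA (hCL stLimA) (hLS stLimA)

/-- The negation of the problem holds. -/
theorem notMain : NotMain := notMain_of stCL stLS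

end Pool.Agent.Helper74.TB
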