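import Pool.Agent.Helper74.TB.X1

/-!
MP_7d16da_al, Part X: powers, lengths, commuting elements, quasi-centres.
-/

set_option autoImplicit false

namespace Pool.Agent.Helper74.TB

open Pool.Agent.Helper74.MH

variable {G : Type*} [Group G] {d : G → G → ℕ} {δ C n q A L : ℕ}

/-- non-torsion elements have infinite order -/
theorem x_inf (S : Stage d δ n q A L) {g : G} (hg : g ^ n ≠ 1) {m : ℕ} (hm : m ≠ 0) :
    g ^ m ≠ 1 := by
  intro h
  rcases S.tor g with h1 | h1
  · exact hg h1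
  · have h2 := h1 1 m
    rw [h, one_mul, hb_self S.toHypG, Nat.mul_zero] at h2
    omega

theorem x_zinf (S : Stage d δ n q A L) {g : G} (hg : g ^ n ≠ 1) {k : ℤ} (hk : k ≠ 0) :
    g ^ k ≠ 1 := by
  intro h
  rcases Int.natAbs_eq k with h1 | h1
  · rw [h1, zpow_natCast] at h
    exact x_inf S hg (Int.natAbs_ne_zero.2 hk) h
  · rw [h1, zpow_neg, zpow_natCast, inv_eq_one] at h
    exact x_inf S hg (Int.natAbs_ne_zero.2 hk) h

theorem x_zn (S : Stage d δ n q A L) (hn : n ≠ 0) {g : G} (hg : g ^ n ≠ 1) {k : ℤ}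
    (hk : k ≠ 0) : (g ^ k) ^ n ≠ 1 := by
  rw [← zpow_natCast, ← zpow_mul]
  exact x_zinf S hg (mul_ne_zero hk (by exact_mod_cast hn))

theorem x_tor (S : Stage d δ n q A L) {g : G} (hg : g ^ n ≠ 1) (x : G) (m : ℕ) :
    m ≤ q * d x (g ^ m * x) := by
  rcases S.tor g with h1 | h1
  · exact absurd h1 hg
  · exact h1 x m

/-- high powers are in `Lx` -/
theorem x_mem (S : Stage d δ n q A L) {g : G} (hg : g ^ n ≠ 1) {k : ℤ}
    (hk : (100 * C * q + 1 : ℤ) ≤ |k|) : g ^ k ∈ Lx d (100 * C) := by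
  have key : ∀ x, 100 * C ≤ d x (g ^ k.natAbs * x) := by
    intro x
    by_contra hc
    push Not at hc
    have h1 := x_tor S hg x k.natAbs
    have h2 : q * d x (g ^ k.natAbs * x) ≤ q * (100 * C) := Nat.mul_le_mul_left _ (by omega)
    have h3 : q * (100 * C) = 100 * C * q := by ring
    have h4 : 100 * C * q + 1 ≤ k.natAbs := by
      have : (k.natAbs : ℤ) = |k| := Int.natCast_natAbs k
      have h5 : ((100 * C * q + 1 : ℕ) : ℤ) ≤ (k.natAbs : ℤ) := by push_cast; linarith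
      exact_mod_cast h5
    omega
  intro x
  rcases Int.natAbs_eq k with h1 | h1
  · rw [h1, zpow_natCast]; exact key x
  · rw [h1, zpow_neg, zpow_natCast]
    have h2 := S.inv (g ^ k.natAbs) x ((g ^ k.natAbs)⁻¹ * x)
    rw [mul_inv_cancel_left] at h2
    rw [← h2, S.path.symm]
    exact key x

theorem x_mem0 (S : Stage d δ n q A L) {g : G} (hg : g ^ n ≠ 1) :
    g ^ (100 * C * q + 1) ∈ Lx d (100 * C) := by
  have h := x_mem (C := C) S hg (k := ((100 * C * q + 1 : ℕ) : ℤ)) (by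
    rw [abs_of_nonneg (by positivity)]; push_cast; exact le_rfl)
  rwa [zpow_natCast] at h

variable {X : Set G}

/-- the length is the stable translation length -/
theorem x_len (hG : HypG d δ) (H : Hubs d X C) {f : G} (hf : f ∈ X) (x : G) (m : ℤ) :
    |(m : ℝ)| * H.T f ≤ d x (f ^ m * x) ∧
      (d x (f ^ m * x) : ℝ) ≤ |(m : ℝ)| * H.T f + C + 2 * d x (H.pr f x) := by
  have h1 := hl_zpow H hf x m
  have h2 := H.lip f hf x (f ^ m * x)
  have h3 := hl_zpow H hf (H.pr f x) m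
  have h4 := H.on f hf _ (H.pr_mem f hf x) _ ((hl_Zpow H hf (H.pr f x) m).2 (H.pr_mem f hf x))
  rw [h1, abs_mul, abs_of_nonneg (hl_Tpos H hf)] at h2
  rw [h3, abs_mul, abs_of_nonneg (hl_Tpos H hf)] at h4
  refine ⟨h2, ?_⟩
  have t1 := hG.path.tri x (H.pr f x) (f ^ m * x)
  have t2 := hG.path.tri (H.pr f x) (f ^ m * H.pr f x) (f ^ m * x)
  have t3 := hG.inv (f ^ m) (H.pr f x) x
  have t4 := hG.path.symm (H.pr f x) x
  have t5 : d x (f ^ m * x) ≤ d (H.pr f x) (f ^ m * H.pr f x) + 2 * d x (H.pr f x) := by omega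
  have t6 : (d x (f ^ m * x) : ℝ) ≤ d (H.pr f x) (f ^ m * H.pr f x) + 2 * d x (H.pr f x) := by
    exact_mod_cast t5
  linarith

/-- `f` commutes with `y`: the axis is preserved -/
theorem x_Zc (H : Hubs d X C) {f y : G} (hf : f ∈ X) (hy : Commute y f) {x : G} :
    y * x ∈ H.Z f ↔ x ∈ H.Z f := by
  have h := H.Zconj f hf y x
  have e : y * f * y⁻¹ = f := by rw [mul_inv_eq_iff_eq_mul]; exact hy
  rw [e] at h
  exact h

theorem x_eq (H : Hubs d X C) {f y : G} (hf : f ∈ X) (hy : Commute y f) (x x' : G) :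
    |H.Φ f (y * x) (y * x') - H.Φ f x x'| ≤ C := by
  have h := H.equi f hf y x x'
  have e : y * f * y⁻¹ = f := by rw [mul_inv_eq_iff_eq_mul]; exact hy
  rw [e] at h
  exact h

theorem x_mul (H : Hubs d X C) {f y : G} (hf : f ∈ X) (hy : Commute y f) (z x : G) :
    |H.Φ f x (y * z * x) - H.Φ f x (y * x) - H.Φ f x (z * x)| ≤ C := by
  have h1 := H.coc f hf x (y * x) (y * (z * x))
  have h2 := x_eq H hf hy x (z * x)
  rw [mul_assoc]
  have e : H.Φ f x (y * (z * x)) - H.Φ f x (y * x) - H.Φ f x (z * x) =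
    H.Φ f (y * x) (y * (z * x)) - H.Φ f x (z * x) := by linarith
  rw [e]
  exact h2

theorem x_invphi (H : Hubs d X C) {f y : G} (hf : f ∈ X) (hy : Commute y f) (x : G) :
    |H.Φ f x (y⁻¹ * x) + H.Φ f x (y * x)| ≤ C := by
  have h := x_mul H hf hy y⁻¹ x
  rw [mul_inv_cancel, one_mul, hl_refl H hf] at h
  rw [← abs_neg]
  convert h using 2
  ring

/-- commutators in the centralizer of `f` do not move along the axis -/
theorem x_commphi (H : Hubs d X C) {f y z : G} (hf : f ∈ X) (hy : Commute y f)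
    (hz : Commute z f) (x : G) : |H.Φ f x (y * z * y⁻¹ * z⁻¹ * x)| ≤ 5 * C := by
  have h1 := x_mul H hf ((hy.mul_left hz).mul_left hy.inv_left) z⁻¹ x
  have h2 := x_mul H hf (hy.mul_left hz) y⁻¹ x
  have h3 := x_mul H hf hy z x
  have h4 := x_invphi H hf hy x
  have h5 := x_invphi H hf hz x
  rw [abs_le] at h1 h2 h3 h4 h5 ⊢
  constructor <;> linarith [h1.1, h1.2, h2.1, h2.2, h3.1, h3.2, h4.1, h4.2, h5.1, h5.2]

theorem x_commdisp (H : Hubs d X C) {f y z : G} (hf : f ∈ X) (hy : Commute y f)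
    (hz : Commute z f) {x : G} (hx : x ∈ H.Z f) : d x (y * z * y⁻¹ * z⁻¹ * x) ≤ 6 * C := by
  have h1 := x_commphi H hf hy hz x
  have hc : Commute (y * z * y⁻¹ * z⁻¹) f :=
    ((hy.mul_left hz).mul_left hy.inv_left).mul_left hz.inv_left
  have h2 := H.on f hf x hx _ ((x_Zc H hf hc).2 hx)
  have h3 : (d x (y * z * y⁻¹ * z⁻¹ * x) : ℝ) ≤ 6 * C := by linarith
  exact_mod_cast h3

/-- quasi-homomorphism along powers -/
theorem x_powphi (H : Hubs d X C) {f y : G} (hf : f ∈ X) (hy : Commute y f) (x : G)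
    (m m' : ℕ) :
    |H.Φ f x (y ^ (m + m') * x) - H.Φ f x (y ^ m * x) - H.Φ f x (y ^ m' * x)| ≤ C := by
  rw [pow_add]
  exact x_mul H hf (hy.pow_left m) (y ^ m') x

theorem x_powphi' (H : Hubs d X C) {f y : G} (hf : f ∈ X) (hy : Commute y f) (x : G)
    (m : ℕ) : |H.Φ f x (y ^ m * x) - m * H.Φ f x (y * x)| ≤ m * C := by
  induction m with
  | zero => rw [pow_zero, one_mul, hl_refl H hf]; simp
  | succ m ih =>
    have h := x_powphi H hf hy x m 1
    rw [pow_one] at h
    push_cast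
    rw [abs_le] at h ih ⊢
    constructor <;> linarith [h.1, h.2, ih.1, ih.2]

/-- homogenization -/
theorem x_homog (a : ℕ → ℝ) (c : ℝ) (h : ∀ m m', |a (m + m') - a m - a m'| ≤ c)
    (B : ℝ) (hB : ∀ m : ℕ, |a m| ≤ B * m) :
    ∃ β : ℝ, ∀ m : ℕ, |a m - m * β| ≤ c := by
  have hsub : Subadditive (fun m => a m + c) := by
    intro m m'
    have := (abs_le.1 (h m m')).2
    change a (m + m') + c ≤ a m + c + (a m' + c)
    linarith
  have hc : 0 ≤ c := (abs_nonneg _).trans (h 0 0)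
  have hBdd : BddBelow (Set.range fun m => (a m + c) / (m : ℝ)) := by
    refine ⟨-|B|, ?_⟩
    rintro _ ⟨m, rfl⟩
    change -|B| ≤ (a m + c) / (m : ℝ)
    rcases Nat.eq_zero_or_pos m with rfl | hm
    · simp
    · have hm' : (0 : ℝ) < m := by exact_mod_cast hm
      rw [le_div_iff₀ hm']
      have h1 := (abs_le.1 (hB m)).1
      have h2 := le_abs_self B
      nlinarith
  have ht := hsub.tendsto_lim hBdd
  refine ⟨hsub.lim, ?_⟩
  -- multiples
  have hmul : ∀ m k : ℕ, |a (k * m) - k * a m| ≤ k * c := by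
    intro m k
    induction k with
    | zero =>
      have h0 := h 0 0
      simp only [Nat.cast_zero, zero_mul, sub_zero]
      have h1 := hB 0
      simpa using h1
    | succ k ih =>
      have h1 := h (k * m) m
      have e : (k + 1) * m = k * m + m := by ring
      rw [e]
      push_cast
      rw [abs_le] at h1 ih ⊢
      constructor <;> linarith [h1.1, h1.2, ih.1, ih.2]
  intro m
  rcases Nat.eq_zero_or_pos m with rfl | hm
  · have h1 := hB 0
    have h2 : a 0 = 0 := by simpa using h1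
    simp [h2, hc]
  have hm' : (0 : ℝ) < m := by exact_mod_cast hm
  have ht2 : Filter.Tendsto (fun k : ℕ => (a (k * m) + c) / ((k * m : ℕ) : ℝ)) Filter.atTop
      (nhds hsub.lim) :=
    ht.comp (Filter.tendsto_id.atTop_mul_const' hm)
  have ht3 : Filter.Tendsto (fun k : ℕ => ((a (k * m) + c) / ((k * m : ℕ) : ℝ)) * m)
      Filter.atTop (nhds (hsub.lim * m)) := ht2.mul_const _
  have hb : ∀ k : ℕ, 1 ≤ k → |((a (k * m) + c) / ((k * m : ℕ) : ℝ)) * m - a m| ≤ c + c / k := by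
    intro k hk
    have hk' : (0 : ℝ) < k := by exact_mod_cast hk
    have e : ((a (k * m) + c) / ((k * m : ℕ) : ℝ)) * m - a m = (a (k * m) - k * a m) / k + c / k := by
      push_cast
      field_simp
      ring
    rw [e]
    refine (abs_add_le _ _).trans ?_
    rw [abs_div, abs_div, abs_of_pos hk', abs_of_nonneg hc]
    have := hmul m k
    have h5 : |a (k * m) - k * a m| / k ≤ c := by
      rw [div_le_iff₀ hk']; linarith
    linarith
  have ht4 : Filter.Tendsto (fun k : ℕ => c + c / (k : ℝ)) Filter.atTop (nhds (c + 0)) :=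
    tendsto_const_nhds.add (tendsto_const_div_atTop_nhds_zero_nat c)
  have ht5 : Filter.Tendsto (fun k : ℕ => |((a (k * m) + c) / ((k * m : ℕ) : ℝ)) * m - a m|)
      Filter.atTop (nhds |hsub.lim * m - a m|) := (ht3.sub_const _).abs
  have h6 := le_of_tendsto_of_tendsto ht5 ht4 (Filter.eventually_atTop.2 ⟨1, fun k hk => hb k hk⟩)
  rw [add_zero] at h6
  rw [abs_sub_comm, mul_comm]
  exact h6

/-- linear comparison -/
theorem x_lin {a b E : ℝ} (h : ∀ m : ℕ, (m : ℝ) * a ≤ m * b + E) : a ≤ b := by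
  by_contra hc
  push Not at hc
  obtain ⟨m, hm⟩ := exists_nat_gt (E / (a - b))
  rw [div_lt_iff₀ (by linarith)] at hm
  have := h m
  linarith

/-- Commuting elements have parallel axes. -/
theorem x_comm (hG : HypG d δ) (H : Hubs d X C) {f g : G} (hf : f ∈ X)
    (hg : g ∈ X) (hfg : Commute f g) {x : G} (hx : x ∈ H.Z f) : Nh d (2 * C) (H.Z g) x := by
  have hgf : Commute g f := hfg.symm
  have h1 : |H.Φ f x (g * x)| ≤ H.T g + C := by
    refine x_lin (E := C + 2 * d x (H.pr g x)) fun m => ?_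
    have a1 := x_powphi' H hf hgf x m
    have a2 := (x_len hG H hg x m).2
    have a3 := H.lip f hf x (g ^ m * x)
    rw [zpow_natCast] at a2
    have a4 : |((m : ℤ) : ℝ)| = m := by
      push_cast
      exact abs_of_nonneg (Nat.cast_nonneg m)
    rw [a4] at a2
    have a5 : (m : ℝ) * |H.Φ f x (g * x)| = |m * H.Φ f x (g * x)| := by
      rw [abs_mul, abs_of_nonneg (Nat.cast_nonneg m : (0 : ℝ) ≤ m)]
    have a6 : |m * H.Φ f x (g * x)| ≤ |H.Φ f x (g ^ m * x)| + m * C := by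
      have := abs_sub_abs_le_abs_sub (m * H.Φ f x (g * x)) (H.Φ f x (g ^ m * x))
      rw [abs_sub_comm] at this
      linarith
    rw [a5]
    linarith
  have h2 := H.on f hf x hx _ ((x_Zc H hf hgf).2 hx)
  have h3 := hl_dispZ hG H hg x
  refine ⟨H.pr g x, H.pr_mem g hg x, ?_⟩
  have h4 : 2 * (d x (H.pr g x) : ℝ) ≤ 3 * C := by linarith
  have h5 : 2 * d x (H.pr g x) ≤ 3 * C := by exact_mod_cast h4
  omega

/-- quasi-centre of a finite cyclic group -/
theorem x_ctr (hG : HypG d δ) (hC : 100 * δ ≤ C) (hn : n ≠ 0) {g : G} (hg : g ^ n = 1) :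
    ∃ x, ∀ j : ℤ, d x (g ^ j * x) ≤ C := by
  classical
  have hδ := hG.one
  let R : G → ℕ := fun c => (Finset.range n).sup fun j => d c (g ^ j)
  have hR1 : ∀ c, ∀ j : ℤ, d c (g ^ j) ≤ R c := by
    intro c j
    have h1 : g ^ j = g ^ (j % n).toNat := by
      have h2 : ((j % n).toNat : ℤ) = j % n := Int.toNat_of_nonneg (Int.emod_nonneg _
        (by exact_mod_cast hn))
      rw [← zpow_natCast g (j % n).toNat, h2]
      conv_lhs => rw [← Int.emod_add_mul_ediv j n]
      rw [zpow_add, zpow_mul, zpow_natCast, hg, one_zpow, mul_one]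
    rw [h1]
    refine Finset.le_sup (f := fun j => d c (g ^ j)) (Finset.mem_range.2 ?_)
    have h3 := Int.emod_lt_of_pos j (show (0 : ℤ) < n by exact_mod_cast Nat.pos_of_ne_zero hn)
    have h4 := Int.emod_nonneg j (show (n : ℤ) ≠ 0 by exact_mod_cast hn)
    omega
  have hR2 : ∀ c r, (∀ j : ℤ, d c (g ^ j) ≤ r) → R c ≤ r := by
    intro c r h
    refine Finset.sup_le fun j _ => ?_
    have := h j
    rwa [zpow_natCast] at this
  obtain ⟨c, hc⟩ : ∃ c, ∀ c', R c ≤ R c' := by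
    obtain ⟨c, _, hc⟩ := WellFounded.has_min (InvImage.wf R Nat.lt_wfRel.wf) Set.univ
      ⟨(1 : G), Set.mem_univ _⟩
    exact ⟨c, fun c' => Nat.not_lt.1 (hc c' (Set.mem_univ _))⟩
  refine ⟨c, fun i => ?_⟩
  obtain ⟨p, hp1, hp2⟩ := hG.path.geod c (g ^ i * c) (d c (g ^ i * c) / 2) (Nat.div_le_self _ _)
  unfold MH.Btw at hp1
  have h1 : R p ≤ R c + 2 * δ - d c (g ^ i * c) / 2 := by
    refine hR2 p _ fun j => ?_
    have h2 := hb_btw_le hG hp1 (g ^ j)
    have h3 := hR1 c j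
    have h4 := hR1 c (j - i)
    have h5 := hG.inv (g ^ i) c (g ^ (j - i))
    rw [← zpow_add] at h5
    have e : i + (j - i) = j := by ring
    rw [e] at h5
    have h6 := hG.path.symm (g ^ j) p
    have h7 := hG.path.symm (g ^ j) c
    have h8 := hG.path.symm (g ^ j) (g ^ i * c)
    omega
  have h2 := hc p
  have h3 := hR1 c i
  have h4 := hR1 c 0
  have h5 := hG.inv (g ^ i) 1 c
  rw [mul_one] at h5
  rw [zpow_zero] at h4
  have h6 := hG.path.tri c (g ^ i) (g ^ i * c)
  have h7 := hG.path.symm (1 : G) c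
  omega

end Pool.Agent.Helper74.TB
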