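import Pool.Agent.Helper74.TB.StCL0
import Pool.Agent.Helper74.TB.LimA
import Pool.Agent.Helper74.TB.P
import Pool.Agent.Helper74.TB.X2

/-! MP_7d16da_al: the common core of Parts CL and LS. -/

set_option autoImplicit false

namespace Pool.Agent.Helper74.TB

open Pool.Agent.Helper74.MH

/-! ### Numbers and words -/

theorem c0_bal (a : ℤ) {n : ℕ} (hn : 1 ≤ n) : ∃ k m : ℤ, a = k + n * m ∧ 2 * |k| ≤ n := by
  have hn0 : (0 : ℤ) < n := by exact_mod_cast hn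
  have h1 := Int.emod_add_mul_ediv a n
  have h2 := Int.emod_nonneg a hn0.ne'
  have h3 := Int.emod_lt_of_pos a hn0
  by_cases h : 2 * (a % n) ≤ n
  · refine ⟨a % n, a / n, h1.symm, ?_⟩
    rw [abs_of_nonneg h2]
    exact h
  · refine ⟨a % n - n, a / n + 1, ?_, ?_⟩
    · rw [mul_add, mul_one]
      linarith
    · rw [abs_of_neg (by linarith)]
      push Not at h
      linarith

theorem c0_cop {N n e : ℕ} (hn : n = 3 ^ e) (hN : N % 3 = 1) : Nat.Coprime N n := by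
  rw [hn]
  refine Nat.Coprime.pow_right e ?_
  rw [Nat.coprime_comm, Nat.Prime.coprime_iff_not_dvd Nat.prime_three]
  omega

theorem c0_pow_ne {G : Type*} [Group G] {N n : ℕ} (hc : Nat.Coprime N n) {s : G}
    (hs : s ^ n = 1) (hs1 : s ≠ 1) : s ^ N ≠ 1 := by
  intro h
  have h1 := pow_gcd_eq_one.2 ⟨h, hs⟩
  rw [Nat.coprime_iff_gcd_eq_one.1 hc, pow_one] at h1
  exact hs1 h1

theorem c0_map {G K : Type*} [Group G] [Group K] (φ : G →* K) (c : Bool) (P Q : G) :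
    φ (cu c P Q) = cu c (φ P) (φ Q) := by
  unfold cu
  cases c
  · simp only [Bool.false_eq_true, if_false, map_mul, map_inv]
  · simp only [if_true, map_mul]

theorem c0_or {G : Type*} [Group G] (c : Bool) (P Q : G) :
    cu c P Q = P * Q ∨ cu c P Q = P * Q * P⁻¹ * Q⁻¹ := by
  cases c
  · right
    simp [cu]
  · left
    simp [cu]

theorem c0_conj_pow {G : Type*} [Group G] (t s : G) (n : ℕ) :
    (t * s * t⁻¹) ^ n = t * s ^ n * t⁻¹ := conj_pow

/-- The smallest value of a function on a non-empty set. -/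
theorem c0_min {α : Type*} (p : α → Prop) (f : α → ℕ) (h : ∃ a, p a) :
    ∃ a, p a ∧ ∀ b, p b → f a ≤ f b := by
  classical
  have h1 : ∃ m, ∃ a, p a ∧ f a = m := by
    obtain ⟨a, ha⟩ := h
    exact ⟨f a, a, ha, rfl⟩
  obtain ⟨a, ha, hfa⟩ := Nat.find_spec h1
  refine ⟨a, ha, fun b hb => ?_⟩
  rw [hfa]
  exact Nat.find_min' h1 ⟨b, hb, rfl⟩

section

variable {B : Type} [Group B] {P : Par} {M1 T0 : ℕ} {T : Tow B P.C}
  {deg : B →* Multiplicative (ZMod P.n)} {D : Type} [Group D] {ω : B →* D}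

theorem c0_num (hP : P.Ok M1 T0) : 1 ≤ P.n ∧ 1 ≤ P.C ∧ P.C ≤ P.R ∧ 2 ≤ P.R ∧ 2 ≤ P.Ax ∧
    P.C ≤ P.L ∧ 1 ≤ P.L := by
  have c0 := hP.cst2.hn
  have c1 := hP.cst2.cst.hR
  have c2 := hP.cst2.cst.hΔ
  have c3 := hP.hC
  have c4 := hP.hL
  have c5 := hP.hAx
  have c6 : 10 ^ 6 * P.L ≤ P.Ax := le_trans (Nat.le_add_right _ _) c5
  refine ⟨?_, ?_, ?_, ?_, ?_, ?_, ?_⟩ <;> omega

/-- Values of powers at later stages. -/
theorem c0_torup (hT : T.Good P deg) {i j : ℕ} (hij : i ≤ j) {b : B}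
    (h : (T.p i b) ^ P.n = 1) : (T.p j b) ^ P.n = 1 := by
  rw [← map_pow] at h ⊢
  exact lim_up hT hij h

theorem c0_ex (hP : P.Ok M1 T0) (hT : T.Good P deg) (hL : Lim T ω) (S g : D) :
    ∃ (j : ℕ) (bs bt : B) (x : T.G j), CDat P T ω S g (100 * P.Ax - 1) j bs bt x := by
  obtain ⟨n1, n2, n3, n4, n5, n6, n7⟩ := c0_num hP
  obtain ⟨bs, rfl⟩ := hL.surj S
  obtain ⟨bt, rfl⟩ := hL.surj g
  obtain ⟨i, hi⟩ := lim_exp hP hT bs
  have key : ∀ N : ℕ, ∀ (i : ℕ) (x : T.G i), CDat P T ω (ω bs) (ω bt) N i bs bt x →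
      ∃ (j : ℕ) (bs' bt' : B) (x : T.G j),
        CDat P T ω (ω bs) (ω bt) (100 * P.Ax - 1) j bs' bt' x := by
    intro N
    induction N with
    | zero =>
      intro i x h
      exact ⟨i, bs, bt, x, h.hs, h.ht, h.tor, h.cen, h.len.trans (Nat.zero_le _)⟩
    | succ N ih =>
      intro i x h
      by_cases hs : N + 1 ≤ 100 * P.Ax - 1
      · exact ⟨i, bs, bt, x, h.hs, h.ht, h.tor, h.cen, h.len.trans hs⟩
      · refine ih (i + 1) (T.π i x) ⟨rfl, rfl, c0_torup hT (Nat.le_succ i) h.tor, ?_, ?_⟩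
        · intro k
          have h1 := quo_lip (hT.stage i).toHypG (hT.quo i) 1 x ((T.p i bs) ^ k * x) (by
            have := h.cen k
            omega)
          rw [map_mul, map_zpow, hT.comp] at h1
          exact h1.trans n2
        · have h1 := quo_lip (hT.stage i).toHypG (hT.quo i) N x (T.p i bt * x) (by
            have h2 := h.len
            have : 2 * N ≤ P.R * N := Nat.mul_le_mul_right _ n4
            omega)
          rw [map_mul, hT.comp] at h1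
          exact h1
  obtain ⟨x, hx⟩ := (hT.alg i).ctr _ hi
  exact key (T.d i x (T.p i bt * x)) i x ⟨rfl, rfl, hi, hx, le_rfl⟩

theorem c0_ne (hL : Lim T ω) {S : D} (hS : S ≠ 1) {i : ℕ} {b : B} (hb : ω b = S) :
    T.p i b ≠ 1 := fun h => hS (by rw [← hb]; exact lim_one hL h)

/-- Two points moved little by a torsion element are close. -/
theorem c0_close (hP : P.Ok M1 T0) (hT : T.Good P deg) {i : ℕ} {s p q t : T.G i} {E : ℕ}
    (hs : s ^ P.n = 1) (hs1 : s ≠ 1) (hp : T.d i p (s * p) ≤ P.C) (hq : T.d i q (s * q) ≤ P.C)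
    (ht : T.d i q (t * q) ≤ E) : T.d i p (t * p) ≤ E + 2 * 10 ^ 6 * P.L := by
  obtain ⟨n1, n2, n3, n4, n5, n6, n7⟩ := c0_num hP
  have h1 : T.d i p q < 10 ^ 6 * P.L := by
    by_contra hcon
    push Not at hcon
    exact hs1 ((hT.stage i).acylt s p q hs hcon (hp.trans n6) (hq.trans n6))
  have h2 := (hT.stage i).path.tri p q (t * p)
  have h3 := (hT.stage i).path.tri q (t * q) (t * p)
  have h4 := (hT.stage i).inv t q p
  have h5 := (hT.stage i).path.symm q p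
  omega

/-- The case of a torsion representative at a stage which is not small. -/
theorem c0_later (hP : P.Ok M1 T0) (hT : T.Good P deg) (hL : Lim T ω) {S g : D} (hS : S ≠ 1)
    (c : Bool) {j : ℕ} {bs bt : B} {x : T.G (j + 1)}
    (hd : CDat P T ω S g (100 * P.Ax - 1) (j + 1) bs bt x)
    (hn : ∀ (bs bt : B) (x : T.G j), ¬ CDat P T ω S g (100 * P.Ax - 1) j bs bt x)
    {b : B} (hb : ω b = S) (hbt : (T.p j b) ^ P.n = 1) :
    ∃ (i : ℕ) (bs bt : B) (x : T.G i),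
      T.p i (cu c (bs ^ P.N1) (bt * bs ^ P.N2 * bt⁻¹)) ^ P.n ≠ 1 ∧
      (CDat P T ω S g (100 * P.Ax + 2 * 10 ^ 6 * P.L) i bs bt x ∨
        (CDat P T ω S g (2 * P.Δ) i bs bt x ∧
          ∃ f ∈ T.F i, Commute (T.p i (cu c (bs ^ P.N1) (bt * bs ^ P.N2 * bt⁻¹))) f ∧
            Nh (T.d i) (4 * P.Ax) ((T.H i).Z f) x)) := by
  obtain ⟨n1, n2, n3, n4, n5, n6, n7⟩ := c0_num hP
  -- a torsion representative at stage `j` over the one at stage `j + 1`
  obtain ⟨bu, hu1, hu2⟩ := lim_tc hT hL (j + 1) bs b 1 hd.tor (c0_torup hT (Nat.le_succ j) hbt)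
    (by rw [hd.hs, hb, map_one, inv_one, mul_one, one_mul])
  rw [map_one] at hu1
  have hs1w : ω (bu * b * bu⁻¹) = S := by
    rw [map_mul, map_mul, map_inv, hu1, hb, inv_one, mul_one, one_mul]
  have hs1p : T.p (j + 1) (bu * b * bu⁻¹) = T.p (j + 1) bs := by
    rw [map_mul, map_mul, map_inv, hu2]
  have hs1t : (T.p j (bu * b * bu⁻¹)) ^ P.n = 1 := by
    rw [map_mul, map_mul, map_inv, c0_conj_pow, hbt, mul_one, mul_inv_cancel]
  generalize bu * b * bu⁻¹ = b1 at hs1w hs1p hs1t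
  obtain ⟨x1, hx1⟩ := (hT.alg j).ctr _ hs1t
  -- the lift of the representative of `g`
  obtain ⟨b2, hb2, hmin⟩ := c0_min (fun b' : B => T.p (j + 1) b' = T.p (j + 1) bt)
    (fun b' => T.d j x1 (T.p j b' * x1)) ⟨bt, rfl⟩
  have hw2 : ω b2 = g := by rw [← hd.ht]; exact lim_eq hL hb2
  have hfar : 100 * P.Ax ≤ T.d j x1 (T.p j b2 * x1) := by
    by_contra hcon
    push Not at hcon
    exact hn b1 b2 x1 ⟨hs1w, hw2, hs1t, hx1, by omega⟩
  have hK : ∀ k ∈ Subgroup.closure (T.F j),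
      T.d j x1 (T.p j b2 * x1) ≤ T.d j x1 (k * (T.p j b2 * x1)) := by
    intro k hk
    obtain ⟨bk, rfl⟩ := hT.surj j k
    have h1 := hmin (bk * b2) (by
      rw [map_mul, hb2, ← hT.comp, ((hT.quo j).ker _).2 hk, one_mul])
    simp only [map_mul, mul_assoc] at h1
    exact h1
  have hne : T.p j b1 ≠ 1 := c0_ne hL hS hs1w
  have hne' : T.p (j + 1) bs ≠ 1 := c0_ne hL hS hd.hs
  have hU : ∀ i, T.p i (cu c (b1 ^ P.N1) (b2 * b1 ^ P.N2 * b2⁻¹)) =
      cu c ((T.p i b1) ^ P.N1) (T.p i b2 * (T.p i b1) ^ P.N2 * (T.p i b2)⁻¹) := by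
    intro i
    rw [c0_map, map_mul, map_mul, map_pow, map_pow, map_inv]
  have hJ := hT.j1 j ((T.p j b1) ^ P.N1) (T.p j b2 * (T.p j b1) ^ P.N2 * (T.p j b2)⁻¹) x1
    (T.p j b2 * x1) (by rw [← pow_mul, mul_comm, pow_mul, hs1t, one_pow])
    (c0_pow_ne (c0_cop hP.hn hP.hN1) hs1t hne)
    (by rw [c0_conj_pow, ← pow_mul, mul_comm P.N2, pow_mul, hs1t, one_pow, mul_one,
          mul_inv_cancel])
    (by
      intro h
      refine c0_pow_ne (c0_cop hP.hn hP.hN2) hs1t hne ?_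
      rw [mul_inv_eq_one] at h
      exact mul_left_cancel (h.trans (mul_one _).symm))
    (by
      intro k
      have h1 := hx1 (P.N1 * k)
      rw [zpow_mul, zpow_natCast] at h1
      exact h1)
    (by
      intro k
      have h1 := hx1 (P.N2 * k)
      rw [zpow_mul, zpow_natCast] at h1
      rw [conj_zpow]
      have h2 : T.p j b2 * (T.p j b1 ^ P.N2) ^ k * (T.p j b2)⁻¹ * (T.p j b2 * x1) =
          T.p j b2 * ((T.p j b1 ^ P.N2) ^ k * x1) := by group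
      rw [h2, (hT.stage j).inv]
      exact h1)
    hK hfar _ (c0_or c _ _)
  rw [← hU] at hJ
  obtain ⟨hJ1, ⟨hf, hlen⟩ | hJ2⟩ := hJ
  · refine ⟨j, b1, b2, x1, hJ1, Or.inr ⟨⟨hs1w, hw2, hs1t, hx1, hlen⟩, hf⟩⟩
  · refine ⟨j + 1, b1, b2, T.π j x1, ?_, Or.inl ⟨hs1w, hw2, c0_torup hT (Nat.le_succ j) hs1t,
      ?_, ?_⟩⟩
    · rw [hT.comp] at hJ2
      exact hJ2
    · intro k
      have h1 := quo_lip (hT.stage j).toHypG (hT.quo j) 1 x1 ((T.p j b1) ^ k * x1) (by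
        have := hx1 k
        omega)
      rw [map_mul, map_zpow, hT.comp] at h1
      exact h1.trans n2
    · rw [hb2]
      have h0 : T.d (j + 1) (T.π j x1) (T.p (j + 1) bs * T.π j x1) ≤ P.C := by
        have h1 := quo_lip (hT.stage j).toHypG (hT.quo j) 1 x1 ((T.p j b1) * x1) (by
          have := hx1 1
          rw [zpow_one] at this
          omega)
        rw [map_mul, hT.comp, hs1p] at h1
        exact h1.trans n2
      have h3 := hd.cen 1
      rw [zpow_one] at h3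
      have h4 := c0_close hP hT hd.tor hne' h0 h3 hd.len
      omega

/-- Data of a power relator of the tower. -/
theorem c0_fp (hP : P.Ok M1 T0) (hT : T.Good P deg) {i : ℕ} {f : T.G i}
    (hf : f ∈ Fp (T.d i) P.n P.L1) : ∃ r, f = r ^ P.n ∧
      (∀ y, Commute y f ↔ y ∈ Subgroup.zpowers r) ∧ (P.n : ℝ) ≤ P.q * (T.H i).T f ∧
      (∀ m : ℤ, r ^ m = 1 → m = 0) ∧ f ∈ Lx (T.d i) (100 * P.C) := by
  obtain ⟨g, r, h1, h2, h3, h4⟩ := hf
  obtain ⟨a1, a2, a3, a4, -⟩ := p_one (T.H i) (hT.stage i) hP.cst2.odd hP.hq (hT.alg i) hP.hqn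
    h1 h2 h3 h4
  exact ⟨r, h4, a3, a2, a4, a1⟩

/-- Points of the hub of `f` are moved at most one by the images of the centralizer. -/
theorem c0_hub (hT : T.Good P deg) {j : ℕ} {f y0 z : T.G j}
    (hf : f ∈ T.F j) (hy : Commute y0 f) (hz : z ∈ (T.H j).Z f) (k : ℤ) :
    T.d (j + 1) (T.π j z) ((T.π j y0) ^ k * T.π j z) ≤ 1 := by
  have hX := (hT.rels j).sub hf
  refine ((hT.quo j).adj _ _).2 ⟨z, y0 ^ k * z, rfl, ?_, Or.inr ⟨f, hf, ?_, ?_⟩⟩
  · rw [map_mul, map_zpow]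
  · exact ⟨z, hz, by rw [hb_self (hT.stage j).toHypG]; exact Nat.zero_le _⟩
  · exact ⟨y0 ^ k * z, (x_Zc (T.H j) hX (hy.zpow_left k)).2 hz, by
      rw [hb_self (hT.stage j).toHypG]
      exact Nat.zero_le _⟩

theorem c0_arith {n N1 N2 K : ℕ} {b k1 k2 m1 m2 : ℤ} (hc : Nat.Coprime N1 N2)
    (h1 : b * N1 = k1 + n * m1) (h2 : b * N2 = k2 + n * m2) (hk0 : k1 ≠ 0)
    (hk1 : |k1| < K) (hk2 : |k2| < K) (hKn : K * (N1 + N2) < n) (hKN : K + 1 ≤ N1) : False := by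
  have e1 : k1 * N2 - k2 * N1 = n * (m2 * N1 - m1 * N2) := by
    have : b * N1 * N2 = b * N2 * N1 := by ring
    rw [h1, h2] at this
    linarith
  have b1 : |k1 * N2 - k2 * N1| < n := by
    have c1 : |k1 * N2 - k2 * N1| ≤ |k1| * N2 + |k2| * N1 := by
      refine (abs_sub _ _).trans ?_
      rw [abs_mul, abs_mul, Nat.abs_cast, Nat.abs_cast]
    have c2 : |k1| * (N2 : ℤ) ≤ K * N2 := mul_le_mul_of_nonneg_right hk1.le (by positivity)
    have c3 : |k2| * (N1 : ℤ) ≤ K * N1 := mul_le_mul_of_nonneg_right hk2.le (by positivity)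
    have c4 : (K : ℤ) * (N1 + N2) < n := by exact_mod_cast hKn
    linarith
  have e2 : k1 * N2 - k2 * N1 = 0 := by
    rw [e1] at b1 ⊢
    rw [abs_mul, Nat.abs_cast] at b1
    by_cases h0 : m2 * (N1 : ℤ) - m1 * N2 = 0
    · rw [h0, mul_zero]
    · exfalso
      have : 1 ≤ |m2 * (N1 : ℤ) - m1 * N2| := Int.one_le_abs h0
      nlinarith [Nat.cast_nonneg (α := ℤ) n]
  have e3 : (N1 : ℤ) ∣ k1 * N2 := ⟨k2, by linarith⟩
  have e4 : (N1 : ℤ) ∣ k1 := (IsCoprime.dvd_of_dvd_mul_right (Nat.isCoprime_iff_coprime.2 hc) e3)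
  have e5 := Int.le_of_dvd (abs_pos.2 hk0) ((dvd_abs _ _).2 e4)
  have e6 : (K : ℤ) + 1 ≤ N1 := by exact_mod_cast hKN
  linarith

/-- The case without a torsion representative at stage `j`. -/
theorem c0_fresh (hP : P.Ok M1 T0) (hT : T.Good P deg) (hL : Lim T ω) {S g : D} (hS : S ≠ 1)
    (hg : ¬ Commute g S) (c : Bool) {j : ℕ} {bs bt : B} {x : T.G (j + 1)}
    (hd : CDat P T ω S g (100 * P.Ax - 1) (j + 1) bs bt x)
    (hno : ∀ b : B, ω b = S → (T.p j b) ^ P.n ≠ 1) :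
    ∃ (i : ℕ) (bs bt : B) (x : T.G i),
      T.p i (cu c (bs ^ P.N1) (bt * bs ^ P.N2 * bt⁻¹)) ^ P.n ≠ 1 ∧
      (CDat P T ω S g (100 * P.Ax + 2 * 10 ^ 6 * P.L) i bs bt x ∨
        (CDat P T ω S g (2 * P.Δ) i bs bt x ∧
          ∃ f ∈ T.F i, Commute (T.p i (cu c (bs ^ P.N1) (bt * bs ^ P.N2 * bt⁻¹))) f ∧
            Nh (T.d i) (4 * P.Ax) ((T.H i).Z f) x)) := by
  obtain ⟨n1, n2, n3, n4, n5, n6, n7⟩ := c0_num hP
  have hne' : T.p (j + 1) bs ≠ 1 := c0_ne hL hS hd.hs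
  rcases hT.cls j (T.p (j + 1) bs) with ⟨g0, hg0, hπ⟩ | ⟨f, hf, y0, hy, hπ⟩ | h
  · exfalso
    obtain ⟨b, rfl⟩ := hT.surj j g0
    refine hno b ?_ hg0
    rw [hT.comp] at hπ
    rw [← hd.hs]
    exact lim_eq hL hπ
  swap
  · exfalso
    have h1 := h 1 P.n
    rw [hd.tor, one_mul, hb_self (hT.stage (j + 1)).toHypG, Nat.mul_zero] at h1
    omega
  have hπf : T.π j f = 1 := ((hT.quo j).ker f).2 (Subgroup.subset_closure hf)
  have hfp : f ∈ Fp (T.d j) P.n P.L1 := by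
    by_contra hfp
    obtain ⟨m, hm⟩ := Subgroup.mem_zpowers_iff.1 ((hT.fw j f hf hfp y0).1 hy)
    apply hne'
    rw [← hπ, ← hm, map_zpow, hπf, one_zpow]
  obtain ⟨r, hfr, hcen, hTf, hinf, hX⟩ := c0_fp hP hT hfp
  obtain ⟨b, hb⟩ := Subgroup.mem_zpowers_iff.1 ((hcen y0).1 hy)
  have hπr : (T.π j r) ^ P.n = 1 := by rw [← map_pow, ← hfr, hπf]
  have hnb : ¬ (P.n : ℤ) ∣ b := by
    rintro ⟨m, rfl⟩
    apply hne'
    rw [← hπ, ← hb, map_zpow, zpow_mul, zpow_natCast, hπr, one_zpow]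
  -- the lift
  obtain ⟨⟨b2, x0, z0⟩, ⟨h1, h2, h3⟩, hmin⟩ := c0_min
    (fun a : B × T.G j × T.G j => T.p (j + 1) a.1 = T.p (j + 1) bt ∧ a.2.1 ∈ (T.H j).Z f ∧
      a.2.2 ∈ (T.H j).Z (T.p j a.1 * f * (T.p j a.1)⁻¹))
    (fun a => T.d j a.2.1 a.2.2)
    ⟨(bt, (T.H j).pr f 1, T.p j bt * (T.H j).pr f 1), rfl, (T.H j).pr_mem f hX 1,
      ((T.H j).Zconj f hX _ _).2 ((T.H j).pr_mem f hX 1)⟩
  simp only at h1 h2 h3 hmin
  have hw2 : ω b2 = g := by rw [← hd.ht]; exact lim_eq hL h1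
  have hK : ∀ x' ∈ (T.H j).Z f, ∀ y' ∈ (T.H j).Z (T.p j b2 * f * (T.p j b2)⁻¹),
      ∀ k ∈ Subgroup.closure (T.F j), T.d j x0 z0 ≤ T.d j x' (k * y') := by
    intro x' hx' y' hy' k hk
    obtain ⟨bk, rfl⟩ := hT.surj j k
    refine hmin (bk * b2, x', T.p j bk * y') ⟨?_, hx', ?_⟩
    · rw [map_mul, h1, ← hT.comp, ((hT.quo j).ker _).2 hk, one_mul]
    · have e := ((T.H j).Zconj _ ((T.H j).Xconj f hX (T.p j b2)) (T.p j bk) y').2 hy'
      have e2 : T.p j bk * (T.p j b2 * f * (T.p j b2)⁻¹) * (T.p j bk)⁻¹ =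
          T.p j (bk * b2) * f * (T.p j (bk * b2))⁻¹ := by
        rw [map_mul]
        group
      rw [e2] at e
      exact e
  have hnc : ¬ Commute (T.p j b2) f := by
    intro h
    apply hg
    obtain ⟨m, hm⟩ := Subgroup.mem_zpowers_iff.1 ((hcen _).1 h)
    have e1 : Commute (T.p j b2) y0 := by
      rw [← hm, ← hb]
      exact (Commute.refl r).zpow_zpow m b
    have e2 : T.p (j + 1) (b2 * bs) = T.p (j + 1) (bs * b2) := by
      rw [map_mul, map_mul, ← hπ, ← hT.comp j b2, ← map_mul, ← map_mul, e1.eq]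
    have e3 := lim_eq hL e2
    rw [map_mul, map_mul, hw2, hd.hs] at e3
    exact e3
  have hd1 : T.p j b2 * f * (T.p j b2)⁻¹ ≠ f := by
    intro h
    apply hnc
    rw [mul_inv_eq_iff_eq_mul] at h
    exact h
  have hfn : f ^ P.n ≠ 1 := by
    intro h
    rw [hfr, ← pow_mul] at h
    have := hinf ((P.n * P.n : ℕ) : ℤ) (by rw [zpow_natCast]; exact h)
    have h5 : P.n * P.n = 0 := by exact_mod_cast this
    have h6 : 0 < P.n * P.n := Nat.mul_pos n1 n1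
    omega
  have hd2 : T.p j b2 * f * (T.p j b2)⁻¹ ≠ f⁻¹ := by
    intro h
    apply hnc
    refine (hT.alg j).ninv f (T.p j b2) 1 (-1) hfn one_ne_zero ?_
    rw [zpow_one, zpow_neg_one]
    exact h
  -- the exponents
  obtain ⟨k1, m1, hk1, hk1n⟩ := c0_bal (b * P.N1) n1
  obtain ⟨k2, m2, hk2, hk2n⟩ := c0_bal (b * P.N2) n1
  have hk10 : k1 ≠ 0 := by
    rintro rfl
    apply hnb
    have hc := Nat.isCoprime_iff_coprime.2 (c0_cop hP.hn hP.hN1).symm
    exact hc.dvd_of_dvd_mul_right ⟨m1, by rw [hk1, zero_add]⟩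
  have hk20 : k2 ≠ 0 := by
    rintro rfl
    apply hnb
    have hc := Nat.isCoprime_iff_coprime.2 (c0_cop hP.hn hP.hN2).symm
    exact hc.dvd_of_dvd_mul_right ⟨m2, by rw [hk2, zero_add]⟩
  have hlt : ∀ k : ℤ, |(k : ℝ)| * (T.H j).T f < 100 * (P.Δ : ℝ) * P.n →
      |k| < ((100 * P.Δ * P.q : ℕ) : ℤ) := by
    intro k hk
    by_contra hcon
    push Not at hcon
    have e1 : ((100 * P.Δ * P.q : ℕ) : ℝ) ≤ |(k : ℝ)| := by
      rw [← Int.cast_abs]
      exact_mod_cast hcon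
    have e2 : 0 ≤ (T.H j).T f := hl_Tpos (T.H j) hX
    have e3 : ((100 * P.Δ * P.q : ℕ) : ℝ) * (T.H j).T f ≤ |(k : ℝ)| * (T.H j).T f :=
      mul_le_mul_of_nonneg_right e1 e2
    have e4 : 100 * (P.Δ : ℝ) * P.n ≤ ((100 * P.Δ * P.q : ℕ) : ℝ) * (T.H j).T f := by
      push_cast
      have e5 : (0 : ℝ) ≤ 100 * P.Δ := by positivity
      have e6 := mul_le_mul_of_nonneg_left hTf e5
      linarith
    linarith
  have hcond : 100 * (P.Δ : ℝ) * P.n ≤ |(k1 : ℝ)| * (T.H j).T f ∨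
      100 * (P.Δ : ℝ) * P.n ≤ |(k2 : ℝ)| * (T.H j).T f := by
    by_contra hcon
    push Not at hcon
    exact c0_arith hP.hcop hk1 hk2 hk10 (hlt k1 hcon.1) (hlt k2 hcon.2) hP.hNn hP.hNb
  have hJ := (hT.j2 j f hf r (T.p j b2) hcen hfr hd1 hd2 x0 h2 z0 h3 hK k1 k2 hk10 hk20 hk1n
    hk2n hcond _ (c0_or c _ _)).2
  have hpow : ∀ (N : ℕ) (k m : ℤ), b * N = k + P.n * m →
      (T.π j r) ^ k = (T.p (j + 1) bs) ^ N := by
    intro N k m h
    rw [← hπ, ← hb, map_zpow, ← zpow_natCast ((T.π j r) ^ b), ← zpow_mul, h, zpow_add, zpow_mul,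
      zpow_natCast, hπr, one_zpow, mul_one]
  rw [c0_map, map_mul, map_mul, map_zpow, map_zpow, map_inv, hpow P.N1 k1 m1 hk1,
    hpow P.N2 k2 m2 hk2, hT.comp] at hJ
  refine ⟨j + 1, bs, b2, T.π j x0, ?_, Or.inl ⟨hd.hs, hw2, hd.tor, ?_, ?_⟩⟩
  · rw [c0_map, map_mul, map_mul, map_pow, map_pow, map_inv]
    exact hJ
  · intro k
    have e := c0_hub hT hf hy h2 k
    rw [hπ] at e
    exact e.trans n2
  · rw [h1]
    have e0 := c0_hub hT hf hy h2 1
    rw [hπ, zpow_one] at e0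
    have e3 := hd.cen 1
    rw [zpow_one] at e3
    have e4 := c0_close hP hT hd.tor hne' (e0.trans n2) e3 hd.len
    omega

end

theorem stCore : StCore := by
  intro B _ P M1 T0 T deg D _ ω hP hT hL S g hS hg c
  obtain ⟨n1, n2, n3, n4, n5, n6, n7⟩ := c0_num hP
  have hex := c0_ex hP hT hL S g
  classical
  obtain ⟨bs, bt, x, hd⟩ := Nat.find_spec hex
  have hmin : ∀ m, m < Nat.find hex → ∀ (bs bt : B) (x : T.G m),
      ¬ CDat P T ω S g (100 * P.Ax - 1) m bs bt x :=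
    fun m hm bs bt x h => Nat.find_min hex hm ⟨bs, bt, x, h⟩
  generalize Nat.find hex = i at hmin bs bt x hd
  cases i with
  | zero =>
    exfalso
    exact c0_ne hL hS hd.hs (hT.zero _ hd.tor)
  | succ j =>
    by_cases h : ∃ b : B, ω b = S ∧ (T.p j b) ^ P.n = 1
    · obtain ⟨b, h1, h2⟩ := h
      exact c0_later hP hT hL hS c hd (hmin j (Nat.lt_succ_self j)) h1 h2
    · push Not at h
      exact c0_fresh hP hT hL hS hg c hd h

end Pool.Agent.Helper74.TB
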