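import Pool.Agent.Helper74.MH.GGe
import Pool.Agent.Helper74.TB.MDefs

/-!
MP_7d16da_al (S02038): definitions for the Burnside type machine.
Everything is about a group `G` acting on itself by left multiplication, with a left invariant
integer valued path metric `d`.
-/

set_option autoImplicit false

namespace Pool.Agent.Helper74.TB

open Pool.Agent.Helper74.MH

/-- Left invariant integer path metric on a group with the four point condition. -/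
structure HypG {G : Type*} [Group G] (d : G → G → ℕ) (δ : ℕ) : Prop where
  path : IsPathMetric d
  inv : ∀ g x y, d (g * x) (g * y) = d x y
  four : ∀ x y z w, d x z + d y w ≤ max (d x y + d z w) (d x w + d y z) + 2 * δ
  one : 1 ≤ δ

/-- Elements moving every point at least `B`. -/
def Lx {G : Type*} [Group G] (d : G → G → ℕ) (B : ℕ) : Set G := {f | ∀ x, B ≤ d x (f * x)}

/-- Coarse axes with signed length cocycles for all elements of `X`. -/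
structure Hubs {G : Type*} [Group G] (d : G → G → ℕ) (X : Set G) (C : ℕ) where
  /-- coarse axis -/
  Z : G → Set G
  /-- stable translation length -/
  T : G → ℝ
  /-- signed length along the axis -/
  Φ : G → G → G → ℝ
  /-- projection to the axis -/
  pr : G → G → G
  Xconj : ∀ f ∈ X, ∀ g, g * f * g⁻¹ ∈ X
  Xinv : ∀ f ∈ X, f⁻¹ ∈ X
  Zconj : ∀ f ∈ X, ∀ g x, g * x ∈ Z (g * f * g⁻¹) ↔ x ∈ Z f
  Zinv : ∀ f ∈ X, Z f⁻¹ = Z f
  Tconj : ∀ f ∈ X, ∀ g, T (g * f * g⁻¹) = T f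
  Tinv : ∀ f ∈ X, T f⁻¹ = T f
  Tbig : ∀ f ∈ X, 90 * (C : ℝ) ≤ T f
  coc : ∀ f ∈ X, ∀ x y z, Φ f x y + Φ f y z = Φ f x z
  lip : ∀ f ∈ X, ∀ x y, |Φ f x y| ≤ d x y
  shift : ∀ f ∈ X, ∀ x, Φ f x (f * x) = T f
  equi : ∀ f ∈ X, ∀ g x y, |Φ (g * f * g⁻¹) (g * x) (g * y) - Φ f x y| ≤ C
  neg : ∀ f ∈ X, ∀ x y, |Φ f⁻¹ x y + Φ f x y| ≤ C
  pr_mem : ∀ f ∈ X, ∀ x, pr f x ∈ Z f
  pr_min : ∀ f ∈ X, ∀ x, ∀ w ∈ Z f, d x (pr f x) ≤ d x w
  pr_gate : ∀ f ∈ X, ∀ x, ∀ w ∈ Z f, d x (pr f x) + d (pr f x) w ≤ d x w + C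
  pr_phi : ∀ f ∈ X, ∀ x, |Φ f x (pr f x)| ≤ C
  on : ∀ f ∈ X, ∀ x ∈ Z f, ∀ y ∈ Z f, (d x y : ℝ) ≤ |Φ f x y| + C
  thr : ∀ f ∈ X, ∀ x y, (C : ℝ) ≤ |Φ f x y| →
    (d x (pr f x) : ℝ) + |Φ f x y| + d (pr f y) y ≤ d x y + C
  qc : ∀ f ∈ X, ∀ x ∈ Z f, ∀ y ∈ Z f, ∀ p, d x p + d p y = d x y → ∃ w ∈ Z f, d p w ≤ C
  dense : ∀ f ∈ X, ∀ x ∈ Z f, ∀ t : ℝ, ∃ y ∈ Z f, |Φ f x y - t| ≤ C

/-- `x` is within `r` of the set `S`. -/
def Nh {G : Type*} (d : G → G → ℕ) (r : ℕ) (S : Set G) (x : G) : Prop := ∃ z ∈ S, d x z ≤ r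

/-- A small cancellation family of relators. -/
structure Fam {G : Type*} [Group G] {d : G → G → ℕ} {X : Set G} {C : ℕ} (H : Hubs d X C)
    (F : Set G) (Δ : ℕ) (Tm : ℝ) : Prop where
  sub : F ⊆ X
  conj : ∀ f ∈ F, ∀ g, g * f * g⁻¹ ∈ F
  inv : ∀ f ∈ F, f⁻¹ ∈ F
  sep : ∀ f ∈ F, ∀ f' ∈ F, f' ≠ f → f' ≠ f⁻¹ → ∀ x ∈ H.Z f', ∀ y ∈ H.Z f', |H.Φ f x y| ≤ Δ
  big : ∀ f ∈ F, Tm ≤ H.T f
  hC : 1000 * C ≤ Δ
  hC1 : 1 ≤ C

/-- Weights for tightness: `Φ_f ≤ b f + c`. -/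
structure Wt {G : Type*} [Group G] {d : G → G → ℕ} {X : Set G} {C : ℕ} (H : Hubs d X C)
    (F : Set G) (b : G → ℝ) : Prop where
  conj : ∀ f ∈ F, ∀ g, b (g * f * g⁻¹) = b f
  add : ∀ f ∈ F, b f + b f⁻¹ = H.T f
  ge : ∀ f ∈ F, H.T f ≤ 3 * b f

/-- Tight pairs. -/
def Tight {G : Type*} [Group G] {d : G → G → ℕ} {X : Set G} {C : ℕ} (H : Hubs d X C)
    (F : Set G) (b : G → ℝ) (c : ℝ) (x y : G) : Prop := ∀ f ∈ F, H.Φ f x y ≤ b f + c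

/-- Adjacency: `R`-close or close to a common hub. -/
def Adj {G : Type*} [Group G] {d : G → G → ℕ} {X : Set G} {C : ℕ} (H : Hubs d X C)
    (F : Set G) (R : ℕ) (x y : G) : Prop :=
  d x y ≤ R ∨ ∃ f ∈ F, Nh d (20 * C) (H.Z f) x ∧ Nh d (20 * C) (H.Z f) y

/-- Adjacency modulo the relators. -/
def AdjK {G : Type*} [Group G] {d : G → G → ℕ} {X : Set G} {C : ℕ} (H : Hubs d X C)
    (F : Set G) (R : ℕ) (x y : G) : Prop :=
  ∃ k ∈ Subgroup.closure F, Adj H F R x (k * y)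

/-- Electric distance in `G` at most `n`. -/
def DE {G : Type*} [Group G] {d : G → G → ℕ} {X : Set G} {C : ℕ} (H : Hubs d X C)
    (F : Set G) (R : ℕ) (n : ℕ) (x y : G) : Prop :=
  ∃ q : ℕ → G, q 0 = x ∧ q n = y ∧ ∀ i < n, Adj H F R (q i) (q (i + 1))

/-- The quotient group with its metric. -/
structure Quo {G G' : Type*} [Group G] [Group G'] {d : G → G → ℕ} {X : Set G} {C : ℕ}
    (H : Hubs d X C) (F : Set G) (R : ℕ) (π : G →* G') (d' : G' → G' → ℕ) : Prop where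
  surj : Function.Surjective π
  ker : ∀ g, π g = 1 ↔ g ∈ Subgroup.closure F
  path : IsPathMetric d'
  inv : ∀ g x y, d' (g * x) (g * y) = d' x y
  adj : ∀ a b, d' a b ≤ 1 ↔ ∃ x y, π x = a ∧ π y = b ∧ Adj H F R x y

end Pool.Agent.Helper74.TB
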