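import Pool.Agent.Helper74.MH.GGc
import Pool.Agent.Helper74.TB.Defs

/-! MP_7d16da_al, Part E0: guessing geodesics with explicit constants. -/

set_option autoImplicit false

namespace Pool.Agent.Helper74.TB

open Pool.Agent.Helper74.MH

namespace E0

theorem geo_prefix {α : Type*} {D : α → α → ℕ} {n : ℕ} {c : ℕ → α} (hc : IsGeo D n c)
    {m : ℕ} (hm : m ≤ n) : IsGeo D m c :=
  fun i j hij hj => hc i j hij (by omega)

theorem geo_shift {α : Type*} {D : α → α → ℕ} {n : ℕ} {c : ℕ → α} (hc : IsGeo D n c)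
    {m l : ℕ} (hm : m + l ≤ n) : IsGeo D l (fun i => c (m + i)) := by
  intro i j hij hj
  have := hc (m + i) (m + j) (by omega) (by omega)
  show D (c (m + i)) (c (m + j)) + i = j
  omega

theorem geo_step {α : Type*} {D : α → α → ℕ} {n : ℕ} {c : ℕ → α} (hc : IsGeo D n c) :
    ∀ i < n, D (c i) (c (i + 1)) ≤ 1 := by
  intro i hi
  have := hc i (i + 1) (by omega) (by omega)
  omega

theorem sqrt_bound (s h : ℕ) (hs : s ≤ h * (2 * Nat.sqrt s + 3 + 1) + 2 * h) :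
    s ≤ (2 * h + 6) ^ 2 := by
  set r := Nat.sqrt s with hr
  have h1 : r * r ≤ s := Nat.sqrt_le s
  have h2 : s < (r + 1) * (r + 1) := Nat.lt_succ_sqrt s
  have h3 : r < 2 * h + 6 := by
    by_contra hc
    push Not at hc
    nlinarith
  nlinarith

theorem six_le (s : ℕ) : 6 * s ≤ 2 ^ (2 * Nat.sqrt s + 3) := by
  have h2 : s < (Nat.sqrt s + 1) * (Nat.sqrt s + 1) := Nat.lt_succ_sqrt s
  have h3 : Nat.sqrt s + 1 ≤ 2 ^ Nat.sqrt s := Nat.lt_two_pow_self
  have h4 : 2 ^ (2 * Nat.sqrt s + 3) = 8 * (2 ^ Nat.sqrt s * 2 ^ Nat.sqrt s) := by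
    rw [pow_add, two_mul, pow_add]; ring
  rw [h4]
  have h5 := Nat.mul_le_mul h3 h3
  omega

/-- Every point of a guessed geodesic is `(2h+6)²`-close to the geodesic. -/
theorem gg_near {α : Type*} {D : α → α → ℕ} (hD : IsPathMetric D) {Lc : α → α → Set α} {h : ℕ}
    (h1 : ∀ x y, D x y ≤ 1 → ∀ p ∈ Lc x y, D x p ≤ h)
    (h2 : ∀ x y z, ∀ p ∈ Lc x y, ∃ q ∈ Lc x z ∪ Lc z y, D p q ≤ h) :
    ∀ (n : ℕ) (c : ℕ → α), IsGeo D n c → ∀ p ∈ Lc (c 0) (c n),
      ∃ i ≤ n, D (c i) p ≤ (2 * h + 6) ^ 2 := by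
  intro N c0 hc0 p0 hp0
  by_contra hcon
  push Not at hcon
  set S : Set ℕ := {s | ∃ n, n ≤ N ∧ ∃ c : ℕ → α, IsGeo D n c ∧ ∃ p ∈ Lc (c 0) (c n),
    ∀ i ≤ n, s ≤ D (c i) p} with hS
  have hbdd : BddAbove S := by
    refine ⟨h * (N + 1), ?_⟩
    rintro s ⟨n, hn, c, hc, p, hp, hs⟩
    obtain ⟨i, hi, hi'⟩ := gg_log hD h1 h2 n n c Nat.lt_two_pow_self.le (geo_step hc) p hp
    have h3 := hs i hi
    have h4 : h * (n + 1) ≤ h * (N + 1) := Nat.mul_le_mul_left _ (by omega)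
    omega
  have hmem0 : (2 * h + 6) ^ 2 + 1 ∈ S :=
    ⟨N, le_rfl, c0, hc0, p0, hp0, fun i hi => hcon i hi⟩
  have hsup : sSup S ∈ S := Nat.sSup_mem ⟨_, hmem0⟩ hbdd
  have hle : (2 * h + 6) ^ 2 + 1 ≤ sSup S := le_csSup hbdd hmem0
  have hmax : ∀ (n : ℕ), n ≤ N → ∀ c : ℕ → α, IsGeo D n c → ∀ p ∈ Lc (c 0) (c n),
      ∃ i ≤ n, D (c i) p ≤ sSup S := by
    intro n hn c hc p hp
    by_contra hcc
    push Not at hcc
    have h3 : sSup S + 1 ∈ S := ⟨n, hn, c, hc, p, hp, fun i hi => hcc i hi⟩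
    have h4 := le_csSup hbdd h3
    omega
  generalize sSup S = s at hsup hle hmax
  obtain ⟨n, hn, c, hc, p, hp, hs⟩ := hsup
  obtain ⟨i0, hi0, hi0'⟩ := hmax n hn c hc p hp
  have hsq := fun h' => sqrt_bound s h h'
  have h3h : 3 * h ≤ (2 * h + 6) ^ 2 := by nlinarith
  -- the left point
  have hleft : ∀ p' ∈ Lc (c 0) (c (i0 - 3 * s)), D p p' ≤ 2 * h → False := by
    intro p' hp' hpp
    by_cases hi1 : i0 - 3 * s = 0
    · rw [hi1] at hp'
      have h3 := h1 (c 0) (c 0) (by rw [(hD.zero_iff _ _).2 rfl]; omega) p' hp'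
      have h4 := hs 0 (Nat.zero_le _)
      have h5 := hD.tri (c 0) p' p
      have h6 := hD.symm p' p
      omega
    · obtain ⟨j, hj, hj'⟩ := hmax (i0 - 3 * s) (by omega) c (geo_prefix hc (by omega)) p' hp'
      have h3 := hc j i0 (by omega) hi0
      have h4 := hD.tri (c j) p' p
      have h5 := hD.tri (c j) p (c i0)
      have h6 := hD.symm p' p
      have h7 := hD.symm p (c i0)
      omega
  -- the right point
  have hright : ∀ p' ∈ Lc (c (min (i0 + 3 * s) n)) (c n), D p p' ≤ 2 * h → False := by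
    intro p' hp' hpp
    by_cases hi2 : n ≤ i0 + 3 * s
    · rw [min_eq_right hi2] at hp'
      have h3 := h1 (c n) (c n) (by rw [(hD.zero_iff _ _).2 rfl]; omega) p' hp'
      have h4 := hs n le_rfl
      have h5 := hD.tri (c n) p' p
      have h6 := hD.symm p' p
      omega
    · push Not at hi2
      rw [min_eq_left hi2.le] at hp'
      have hg : IsGeo D (n - (i0 + 3 * s)) (fun i => c (i0 + 3 * s + i)) :=
        geo_shift hc (by omega)
      obtain ⟨j, hj, hj'⟩ := hmax (n - (i0 + 3 * s)) (by omega) _ hg p' (by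
        show p' ∈ Lc (c (i0 + 3 * s + 0)) (c (i0 + 3 * s + (n - (i0 + 3 * s))))
        rw [show i0 + 3 * s + (n - (i0 + 3 * s)) = n by omega, add_zero]
        exact hp')
      have h3 := hc i0 (i0 + 3 * s + j) (by omega) (by omega)
      have h4 := hD.tri (c (i0 + 3 * s + j)) p' p
      have h5 := hD.tri (c (i0 + 3 * s + j)) p (c i0)
      have h6 := hD.symm p' p
      have h7 := hD.symm p (c i0)
      have h8 := hD.symm (c (i0 + 3 * s + j)) (c i0)
      omega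
  -- the middle
  have hmid : ∀ p' ∈ Lc (c (i0 - 3 * s)) (c (min (i0 + 3 * s) n)), D p p' ≤ 2 * h → False := by
    intro p' hp' hpp
    have hm1 : min (i0 + 3 * s) n ≤ n := min_le_right _ _
    have hm2 : min (i0 + 3 * s) n ≤ i0 + 3 * s := min_le_left _ _
    have hm3 : i0 ≤ min (i0 + 3 * s) n := le_min (by omega) hi0
    generalize min (i0 + 3 * s) n = i2 at hp' hm1 hm2 hm3
    have hg : IsGeo D (i2 - (i0 - 3 * s)) (fun i => c ((i0 - 3 * s) + i)) :=
      geo_shift hc (by omega)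
    have hsix := six_le s
    obtain ⟨j, hj, hj'⟩ := gg_log hD h1 h2 (2 * Nat.sqrt s + 3) (i2 - (i0 - 3 * s))
      (fun i => c ((i0 - 3 * s) + i)) (by omega) (geo_step hg) p' (by
        show p' ∈ Lc (c (i0 - 3 * s + 0)) (c (i0 - 3 * s + (i2 - (i0 - 3 * s))))
        rw [show i0 - 3 * s + (i2 - (i0 - 3 * s)) = i2 by omega, add_zero]
        exact hp')
    have h3 := hs (i0 - 3 * s + j) (by omega)
    have h4 := hD.tri (c (i0 - 3 * s + j)) p' p
    have h6 := hD.symm p' p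
    have hj'' : D (c (i0 - 3 * s + j)) p' ≤ h * (2 * Nat.sqrt s + 3 + 1) := hj'
    have h7 := hsq (by omega)
    omega
  obtain ⟨q1, hq1, hq1'⟩ := h2 (c 0) (c n) (c (i0 - 3 * s)) p hp
  rcases hq1 with hq1 | hq1
  · exact hleft q1 hq1 (by omega)
  · obtain ⟨q2, hq2, hq2'⟩ := h2 (c (i0 - 3 * s)) (c n) (c (min (i0 + 3 * s) n)) q1 hq1
    have h3 := hD.tri p q1 q2
    rcases hq2 with hq2 | hq2
    · exact hmid q2 hq2 (by omega)
    · exact hright q2 hq2 (by omega)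

theorem geo_btw {α : Type*} {D : α → α → ℕ} {n : ℕ} {c : ℕ → α} (hc : IsGeo D n c)
    {i : ℕ} (hi : i ≤ n) : D (c 0) (c i) + D (c i) (c n) = D (c 0) (c n) := by
  have h1 := hc 0 i (Nat.zero_le _) hi
  have h2 := hc i n hi le_rfl
  have h3 := hc 0 n (Nat.zero_le _) le_rfl
  omega

/-- slim triangles with constant `δ` -/
def Slim {α : Type*} (D : α → α → ℕ) (δ : ℕ) : Prop :=
  ∀ (n n' n'' : ℕ) (c c' c'' : ℕ → α), IsGeo D n c → IsGeo D n' c' → IsGeo D n'' c'' →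
      c 0 = c' 0 → c' n' = c'' 0 → c n = c'' n'' →
      ∀ i ≤ n, (∃ j ≤ n', D (c i) (c' j) ≤ δ) ∨ (∃ j ≤ n'', D (c i) (c'' j) ≤ δ)

/-- A point of `[x,z]` close to `[x,w]` and to `[w,z]`. -/
theorem exists_center {α : Type*} {D : α → α → ℕ} (hD : IsPathMetric D) (δ : ℕ)
    (hslim : Slim D δ)
    (n n' n'' : ℕ) (c c' c'' : ℕ → α) (hc : IsGeo D n c) (hc' : IsGeo D n' c')
    (hc'' : IsGeo D n'' c'') (e0 : c 0 = c' 0) (e1 : c' n' = c'' 0) (e2 : c n = c'' n'') :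
    ∃ i ≤ n, (∃ j ≤ n', D (c i) (c' j) ≤ δ + 1) ∧ (∃ j ≤ n'', D (c i) (c'' j) ≤ δ + 1) := by
  classical
  have hQn : ∃ i, i ≤ n ∧ ∃ j ≤ n'', D (c i) (c'' j) ≤ δ :=
    ⟨n, le_rfl, n'', le_rfl, by rw [e2, (hD.zero_iff _ _).2 rfl]; omega⟩
  obtain ⟨hi, j, hj, hj'⟩ := Nat.find_spec hQn
  have hmin := fun m => Nat.find_min hQn (m := m)
  generalize Nat.find hQn = i at hi hj' hmin
  refine ⟨i, hi, ?_, j, hj, by omega⟩
  rcases Nat.eq_zero_or_pos i with h0 | h0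
  · subst h0
    exact ⟨0, Nat.zero_le _, by rw [e0, (hD.zero_iff _ _).2 rfl]; omega⟩
  · have h1 := hmin (i - 1) (by omega)
    rcases hslim n n' n'' c c' c'' hc hc' hc'' e0 e1 e2 (i - 1) (by omega) with h2 | h2
    · obtain ⟨k, hk, hk'⟩ := h2
      refine ⟨k, hk, ?_⟩
      have h3 := hc (i - 1) i (by omega) hi
      have h4 := hD.tri (c i) (c (i - 1)) (c' k)
      have h5 := hD.symm (c i) (c (i - 1))
      omega
    · exact absurd ⟨by omega, h2⟩ h1

/-- the four point condition -/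
theorem four_of_slim {α : Type*} {D : α → α → ℕ} (hD : IsPathMetric D) (δ : ℕ)
    (hslim : Slim D δ) (x y z w : α) :
    D x z + D y w ≤ max (D x y + D z w) (D x w + D y z) + 2 * (3 * (δ + 1)) := by
  obtain ⟨c, hc0, hcn, hc⟩ := exists_geo hD x z
  obtain ⟨c', hc'0, hc'n, hc'⟩ := exists_geo hD x w
  obtain ⟨c'', hc''0, hc''n, hc''⟩ := exists_geo hD w z
  obtain ⟨a, ha0, han, ha⟩ := exists_geo hD x y
  obtain ⟨b, hb0, hbn, hb⟩ := exists_geo hD y z
  obtain ⟨i, hi, ⟨j, hj, hj'⟩, ⟨k, hk, hk'⟩⟩ := exists_center hD δ hslim _ _ _ c c' c'' hc hc' hc''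
    (by rw [hc0, hc'0]) (by rw [hc'n, hc''0]) (by rw [hcn, hc''n])
  have e1 := geo_btw hc hi
  have e2 := geo_btw hc' hj
  have e3 := geo_btw hc'' hk
  rw [hc0, hcn] at e1
  rw [hc'0, hc'n] at e2
  rw [hc''0, hc''n] at e3
  have key : 2 * D w (c i) + D x z ≤ D w x + D w z + 4 * (δ + 1) := by
    have t1 := hD.tri x (c' j) (c i)
    have t2 := hD.tri w (c' j) (c i)
    have t3 := hD.tri w (c'' k) (c i)
    have t4 := hD.tri (c i) (c'' k) z
    have s1 := hD.symm (c' j) (c i)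
    have s2 := hD.symm w (c' j)
    have s3 := hD.symm (c'' k) (c i)
    have s4 := hD.symm w x
    omega
  have y1 := hD.symm w x
  have y2 := hD.symm w y
  have y3 := hD.symm w z
  rcases hslim _ _ _ c a b hc ha hb (by rw [hc0, ha0]) (by rw [han, hb0])
    (by rw [hcn, hbn]) i hi with ⟨l, hl, hl'⟩ | ⟨l, hl, hl'⟩
  · have e4 := geo_btw ha hl
    rw [ha0, han] at e4
    have t1 := hD.tri w (a l) x
    have t2 := hD.tri w (a l) y
    have t3 := hD.tri w (c i) (a l)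
    have s1 := hD.symm (a l) x
    have fin : D w x + D w y ≤ 2 * D w (c i) + 2 * δ + D x y := by omega
    have h5 := le_max_left (D x y + D z w) (D x w + D y z)
    omega
  · have e4 := geo_btw hb hl
    rw [hb0, hbn] at e4
    have t1 := hD.tri w (b l) y
    have t2 := hD.tri w (b l) z
    have t3 := hD.tri w (c i) (b l)
    have s1 := hD.symm (b l) y
    have fin : D w y + D w z ≤ 2 * D w (c i) + 2 * δ + D y z := by omega
    have h5 := le_max_right (D x y + D z w) (D x w + D y z)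
    omega

/-- Guessing geodesics: slim triangles. -/
theorem slim_of_guess {α : Type*} {D : α → α → ℕ} (hD : IsPathMetric D)
    (Lc : α → α → Set α) (h : ℕ) (h0 : ∀ x y, x ∈ Lc x y)
    (h1 : ∀ x y, D x y ≤ 1 → ∀ p ∈ Lc x y, D x p ≤ h)
    (h2 : ∀ x y z, ∀ p ∈ Lc x y, ∃ q ∈ Lc x z ∪ Lc z y, D p q ≤ h)
    (h3 : ∀ x y, Chain D (Lc x y) h x y) : Slim D (4 * (2 * h + 6) ^ 2 + 2 * h) := by
  have hR := gg_near hD h1 h2
  intro n n' n'' c c' c'' hc hc' hc'' e1 e2 e3 i hi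
  obtain ⟨p, hp, hip⟩ := gg_back hD hc (h0 (c 0) (c n)) (hR n c hc) (h3 (c 0) (c n)) i hi
  obtain ⟨q, hq, hpq⟩ := h2 (c 0) (c n) (c' n') p hp
  have h4 := hD.tri (c i) p q
  rcases hq with hq | hq
  · left
    rw [e1] at hq
    obtain ⟨j, hj, hjq⟩ := hR n' c' hc' q hq
    refine ⟨j, hj, ?_⟩
    have h5 := hD.tri (c i) q (c' j)
    have h6 := hD.symm q (c' j)
    omega
  · right
    rw [e2, e3] at hq
    obtain ⟨j, hj, hjq⟩ := hR n'' c'' hc'' q hq
    refine ⟨j, hj, ?_⟩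
    have h5 := hD.tri (c i) q (c'' j)
    have h6 := hD.symm q (c'' j)
    omega

end E0

end Pool.Agent.Helper74.TB
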