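import Pool.Agent.Helper74.TB.LimA
import Pool.Agent.Helper74.TB.M

/-! MP_7d16da_al: the conclusion (Part L7). -/

set_option autoImplicit false

namespace Pool.Agent.Helper74.TB

open Pool.Agent.Helper74.MH

section

variable {B : Type} [Group B] {P : Par} {M1 T0 : ℕ} {T : Tow B P.C}
  {deg : B →* Multiplicative (ZMod P.n)}

/-- Elements of the closure of the relators have lifts of degree one. -/
theorem fin_lift (hT : T.Good P deg) (i : ℕ) (k : T.G i) (hk : k ∈ Subgroup.closure (T.F i)) :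
    ∃ b, T.p i b = k ∧ deg b = 1 := by
  induction hk using Subgroup.closure_induction with
  | mem f hf => exact hT.degF i f hf
  | one => exact ⟨1, map_one _, map_one _⟩
  | mul x y _ _ hx hy =>
    obtain ⟨b1, h1, h2⟩ := hx
    obtain ⟨b2, h3, h4⟩ := hy
    exact ⟨b1 * b2, by rw [map_mul, h1, h3], by rw [map_mul, h2, h4, one_mul]⟩
  | inv x _ hx =>
    obtain ⟨b1, h1, h2⟩ := hx
    exact ⟨b1⁻¹, by rw [map_inv, h1], by rw [map_inv, h2, inv_one]⟩

/-- The degree is trivial on everything that is killed in the tower. -/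
theorem fin_deg (hT : T.Good P deg) (i : ℕ) : ∀ b : B, T.p i b = 1 → deg b = 1 := by
  induction i with
  | zero =>
    intro b hb
    have h1 : b = 1 := hT.inj0 (by rw [hb, map_one])
    rw [h1, map_one]
  | succ i ih =>
    intro b hb
    rw [← hT.comp] at hb
    obtain ⟨b1, h1, h2⟩ := fin_lift hT i _ (((hT.quo i).ker _).1 hb)
    have h3 : T.p i (b * b1⁻¹) = 1 := by rw [map_mul, map_inv, h1, mul_inv_cancel]
    have h4 := ih _ h3
    rw [map_mul, map_inv, h2, inv_one, mul_one] at h4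
    exact h4

/-- A short element survives in the tower. -/
theorem fin_ne (hP : P.Ok M1 T0) (hT : T.Good P deg) {b : B} (h0 : T.p 0 b ≠ 1)
    (h1 : T.d 0 1 (T.p 0 b) ≤ 1) (i : ℕ) : T.p i b ≠ 1 ∧ T.d i 1 (T.p i b) ≤ 1 := by
  induction i with
  | zero => exact ⟨h0, h1⟩
  | succ i ih =>
    have hc := hP.cst2.cst
    have hΔ : 1 ≤ P.Δ := by
      have a1 := hc.hδ
      have a2 := hc.hC
      have a3 := hc.hΔ
      omega
    have hR : 1 ≤ P.R := by
      have a1 := hc.hR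
      omega
    refine ⟨?_, ?_⟩
    · intro h
      rw [← hT.comp] at h
      have hk := ((hT.quo i).ker _).1 h
      obtain ⟨f, hf, hΦ⟩ := hT.green i _ hk ih.1 1
      rw [mul_one] at hΦ
      have hb := (hT.rels i).big f hf
      have hl := (T.H i).lip f ((hT.rels i).sub hf) 1 (T.p i b)
      have h2 : ((T.d i 1 (T.p i b) : ℕ) : ℝ) ≤ 1 := by exact_mod_cast ih.2
      have h3 : (1 : ℝ) ≤ P.Δ := by exact_mod_cast hΔ
      have h4 := hc.hcT
      linarith
    · refine ((hT.quo i).adj _ _).2 ⟨1, T.p i b, map_one _, hT.comp i b, Or.inl ?_⟩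
      exact le_trans ih.2 hR

/-- The kernel of the map to the limit group. -/
def finN (hT : T.Good P deg) : Subgroup B where
  carrier := {b | ∃ i, T.p i b = 1}
  one_mem' := ⟨0, map_one _⟩
  mul_mem' := by
    rintro x y ⟨i, hi⟩ ⟨j, hj⟩
    refine ⟨max i j, ?_⟩
    rw [map_mul, lim_up hT (le_max_left i j) hi, lim_up hT (le_max_right i j) hj, one_mul]
  inv_mem' := by
    rintro x ⟨i, hi⟩
    exact ⟨i, by rw [map_inv, hi, inv_one]⟩

theorem finN_normal (hT : T.Good P deg) : (finN hT).Normal := by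
  constructor
  rintro x ⟨i, hi⟩ g
  exact ⟨i, by rw [map_mul, map_mul, hi, mul_one, map_inv, mul_inv_cancel]⟩

/-- The word in the base group which maps to the word relator. -/
def finW {B : Type*} [Group B] (s v : B) (h : ℕ) (e : ℕ → ℤ) : B :=
  ((List.range h).map (fun k => s * v ^ e k)).prod

theorem finW_map {B B' : Type*} [Group B] [Group B'] (φ : B →* B') (s v : B) (h : ℕ)
    (e : ℕ → ℤ) : φ (finW s v h e) = finW (φ s) (φ v) h e := by
  unfold finW
  rw [map_list_prod, List.map_map]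
  congr 1
  refine List.map_congr_left ?_
  intro k _
  simp only [Function.comp_apply, map_mul, map_zpow]

theorem finW_ww {G : Type*} [Group G] (S r : G) (a : ℤ) (h : ℕ) (e : ℕ → ℤ) :
    finW S (r ^ a) h e = ww S r a h e := by
  unfold finW ww
  congr 1
  refine List.map_congr_left ?_
  intro k _
  rw [zpow_mul]

theorem fin_end (h3 : StLimA) (h4 : StCL) (h5 : StLS) (hP : P.Ok M1 T0)
    (hT : T.Good P deg) (hs : Function.Surjective deg)
    (hb : ∃ b, deg b = 1 ∧ T.p 0 b ≠ 1 ∧ T.d 0 1 (T.p 0 b) ≤ 1) (D : Type) [Group D]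
    (ω : B →* D) (hω : Lim T ω) (degD : D →* Multiplicative (ZMod P.n))
    (hdeg : ∀ b, degD (ω b) = deg b) :
    EndGroup D P.n P.N1 P.N2 P.h (fun k => (P.M0 : ℤ) * P.lam ^ k) degD := by
  obtain ⟨_, a2, a3, a4⟩ := h3 B P M1 T0 T deg D ω hP hT hω
  refine ⟨a2, ?_, ?_, a3, a4, h5 B P M1 T0 T deg D ω hP hT hω, ?_⟩
  · intro y
    obtain ⟨b, hb⟩ := hs y
    exact ⟨ω b, by rw [hdeg, hb]⟩
  · obtain ⟨b, hb1, hb2, hb3⟩ := hb
    refine ⟨ω b, ?_, by rw [hdeg, hb1]⟩
    intro h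
    obtain ⟨i, hi⟩ := (hω.ker b).1 h
    exact (fin_ne hP hT hb2 hb3 i).1 hi
  · intro S g hS1 hS2 hS3
    obtain ⟨i, S', r, a, s, v, hpr, e1, e2, e3, e4⟩ :=
      h4 B P M1 T0 T deg D ω hP hT hω S g hS2 hS3
    have ds : deg s = 1 := by rw [← hdeg, e2, hS1]
    have dv : deg v = 1 := by
      rw [← hdeg, e4]
      unfold cm
      rw [map_mul, map_mul, map_mul, map_inv, map_inv, mul_comm (degD (S ^ P.N1)),
        mul_inv_cancel_right, mul_inv_cancel]
    have hw := hT.word i S' r a hpr ⟨s, e1, ds⟩ ⟨v, e3, dv⟩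
    have hw2 : T.p (i + 2) (finW s v P.h (fun k => (P.M0 : ℤ) * P.lam ^ k)) = 1 := by
      have b1 : T.p (i + 2) (finW s v P.h (fun k => (P.M0 : ℤ) * P.lam ^ k)) =
          T.π (i + 1) (T.π i (T.p i (finW s v P.h (fun k => (P.M0 : ℤ) * P.lam ^ k)))) := by
        rw [hT.comp, hT.comp]
      rw [b1, finW_map, e1, e3, finW_ww]
      exact hw
    have hw3 := lim_one hω hw2
    rw [finW_map, e2, e4] at hw3
    exact hw3

end

theorem fin_trans {n e N1 N2 h : ℕ} {m : ℕ → ℤ} (hn : n = 3 ^ e) (he : 1 ≤ e)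
    (hN1 : N1 % 3 = 1) (hN2 : N2 % 3 = 1) (hh : h % 3 ≠ 0) (D : Type) [Group D]
    (deg : D →* Multiplicative (ZMod n)) (hE : EndGroup D n N1 N2 h m deg) : NotMain := by
  subst hn
  exact stM e N1 N2 h m he hN1 hN2 hh D deg hE

/-- Part L7: the conclusion. -/
theorem tbFinal : StPar → StA → StTow → StLimA → StCL → StLS → NotMain := by
  intro h0 h1 h2 h3 h4 h5
  obtain ⟨M1, h2⟩ := h2
  obtain ⟨C, hC, hH⟩ := h1 2000 (by norm_num)
  obtain ⟨T0, h2⟩ := h2 C hC hH
  obtain ⟨P, hPC, hPL, hP⟩ := h0 C M1 T0 hC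
  obtain ⟨T, deg, hT, hs, hb⟩ := h2 P hPC hPL hP
  have := finN_normal hT
  have hω : Lim T (QuotientGroup.mk' (finN hT)) := by
    refine ⟨QuotientGroup.mk'_surjective _, ?_⟩
    intro b
    rw [QuotientGroup.mk'_apply, QuotientGroup.eq_one_iff]
    rfl
  have hk : ∀ x ∈ finN hT, deg x = 1 := by
    rintro x ⟨i, hi⟩
    exact fin_deg hT i x hi
  have hE := fin_end h3 h4 h5 hP hT hs hb (FreeGroup (Fin 2) ⧸ finN hT)
    (QuotientGroup.mk' (finN hT)) hω (QuotientGroup.lift (finN hT) deg hk)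
    (fun b => QuotientGroup.lift_mk' _ _ _)
  exact fin_trans hP.hn hP.he hP.hN1 hP.hN2 hP.hh _ _ hE

end Pool.Agent.Helper74.TB
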