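import Pool.Agent.Helper74.TB.StX

/-! MP_7d16da_al: the overlap of a relator hub with the axis of an element that does not commute
with it (F0), and points between points of an axis. -/

set_option autoImplicit false

namespace Pool.Agent.Helper74.TB

open Pool.Agent.Helper74.MH

variable {G : Type*} [Group G] {d : G → G → ℕ} {δ C Δ : ℕ} {X F : Set G} {Tm : ℝ}

/-- points of an axis which are between in the sense of `Φ` are coarsely between -/
theorem axis_btw (H : Hubs d X C) {g : G} (hg : g ∈ X) {z w z' : G} (hz : z ∈ H.Z g)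
    (hw : w ∈ H.Z g) (hz' : z' ∈ H.Z g) (h1 : 0 ≤ H.Φ g z w) (h2 : 0 ≤ H.Φ g w z') :
    d z w + d w z' ≤ d z z' + 2 * C := by
  have a1 := H.on g hg z hz w hw
  have a2 := H.on g hg w hw z' hz'
  have a3 := H.lip g hg z z'
  have a4 := H.coc g hg z w z'
  rw [abs_of_nonneg h1] at a1
  rw [abs_of_nonneg h2] at a2
  rw [abs_of_nonneg (by linarith)] at a3
  have : ((d z w + d w z' : ℕ) : ℝ) ≤ ((d z z' + 2 * C : ℕ) : ℝ) := by
    push_cast
    linarith
  exact_mod_cast this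

/-- the same for a geodesic whose ends are near the axis -/
theorem axis_near (hG : HypG d δ) (H : Hubs d X C) {g : G} (hg : g ∈ X) {z w z' : G}
    (hz : z ∈ H.Z g) (hw : w ∈ H.Z g) (hz' : z' ∈ H.Z g) (h1 : 0 ≤ H.Φ g z w)
    (h2 : 0 ≤ H.Φ g w z') {N r : ℕ} {η : ℕ → G} (hη : IsGeo d N η) (h3 : d (η 0) z ≤ r)
    (h4 : d (η N) z' ≤ r) : ∃ s ≤ N, d (η s) w ≤ 4 * r + 2 * C + 2 * δ := by
  have a1 := axis_btw H hg hz hw hz' h1 h2
  have a2 := hη 0 N (Nat.zero_le _) le_rfl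
  have a3 := hG.path.tri (η 0) z w
  have a4 := hG.path.tri w z' (η N)
  have a5 := hG.path.symm z' (η N)
  have a6 := hG.path.tri z (η 0) z'
  have a7 := hG.path.tri (η 0) (η N) z'
  have a8 := hG.path.symm z (η 0)
  have h5 := hb_pt hG hη (z := w) (e := 4 * r + 2 * C) (by omega)
  exact ⟨_, min_le_right _ _, h5⟩

theorem nh_smul (hG : HypG d δ) (H : Hubs d X C) {f : G} (hf : f ∈ X) (g : G) {r : ℕ} {x : G}
    (hx : Nh d r (H.Z f) x) : Nh d r (H.Z (g * f * g⁻¹)) (g * x) := by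
  obtain ⟨z, hz, hd⟩ := hx
  exact ⟨g * z, (H.Zconj f hf g z).2 hz, by rw [hG.inv]; exact hd⟩

theorem nh_trans (hG : HypG d δ) {S : Set G} {r s t : ℕ} {x y : G} (hx : Nh d r S x)
    (hxy : d y x ≤ s) (h : r + s ≤ t) : Nh d t S y := by
  obtain ⟨z, hz, hd⟩ := hx
  exact ⟨z, hz, by have := hG.path.tri y x z; omega⟩

/-- (F0), oriented form -/
theorem f0_core (hG : HypG d δ) {H : Hubs d X C} (hδC : 100 * δ ≤ C) (hF : Fam H F Δ Tm)
    {f g : G} (hf : f ∈ F) (hg : g ∈ X) (h1 : g * f * g⁻¹ ≠ f) (h2 : g * f * g⁻¹ ≠ f⁻¹)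
    {N : ℕ} {η : ℕ → G} (hη : IsGeo d N η) (hnear : ∀ t ≤ N, Nh d (7 * C) (H.Z f) (η t))
    {u' v' : G} (hu' : u' ∈ H.Z g) (hv' : v' ∈ H.Z g) (hu : d (η 0) u' ≤ C)
    (hv : d (η N) v' ≤ C) (hor : 0 ≤ H.Φ g u' v') :
    (N : ℝ) ≤ H.T g + Δ + 150 * C := by
  by_contra hcon
  push Not at hcon
  have hC1 : (1 : ℝ) ≤ C := by exact_mod_cast hF.hC1
  have hfX := hF.sub hf
  have hΔ0 : (0 : ℝ) ≤ Δ := Nat.cast_nonneg Δ
  have hfg : g * f * g⁻¹ ∈ F := hF.conj f hf g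
  have hN := hη 0 N (Nat.zero_le _) le_rfl
  have hN' : d (η 0) (η N) = N := by omega
  -- `Φ g u' v'` is long
  have b1 := H.on g hg u' hu' v' hv'
  rw [abs_of_nonneg hor] at b1
  have b2 := hG.path.tri (η 0) u' (η N)
  have b3 := hG.path.tri u' v' (η N)
  have b4 := hG.path.symm v' (η N)
  have b5 : (N : ℝ) ≤ d u' v' + 2 * C := by
    have : N ≤ d u' v' + 2 * C := by omega
    exact_mod_cast this
  have hT0 := hl_Tpos H hg
  have gu' : g * u' ∈ H.Z g := by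
    have := (hl_Zpow H hg u' 1).2 hu'
    rwa [zpow_one] at this
  have gv' : g⁻¹ * v' ∈ H.Z g := by
    have := (hl_Zpow H hg v' (-1)).2 hv'
    rwa [zpow_neg_one] at this
  have s1 := H.shift g hg u'
  have s2 := H.shift g hg (g⁻¹ * v')
  rw [mul_inv_cancel_left] at s2
  have c1 := H.coc g hg u' (g * u') v'
  have c2 := H.coc g hg u' (g⁻¹ * v') v'
  -- `g u` is near `Z f`
  obtain ⟨r1, hr1, hd1⟩ := axis_near hG H hg hu' gu' hv' (by rw [s1]; exact hT0) (by linarith)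
    hη hu hv
  obtain ⟨r2, hr2, hd2⟩ := axis_near hG H hg hu' gv' hv' (by linarith) (by rw [s2]; exact hT0)
    hη hu hv
  have hgu1 : Nh d (15 * C) (H.Z f) (g * η 0) := by
    refine nh_trans hG (hnear r1 hr1) (s := 8 * C) ?_ (by omega)
    have t1 := hG.path.tri (g * η 0) (g * u') (η r1)
    have t2 := hG.inv g (η 0) u'
    have t3 := hG.path.symm (g * u') (η r1)
    omega
  have hgu2 : Nh d (15 * C) (H.Z (g * f * g⁻¹)) (g * η 0) :=
    nh_trans hG (nh_smul hG H hfX g (hnear 0 (Nat.zero_le _))) (s := 0)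
      (le_of_eq (hb_self hG _)) (by omega)
  have hv1 : Nh d (15 * C) (H.Z f) (η N) :=
    nh_trans hG (hnear N le_rfl) (s := 0) (le_of_eq (hb_self hG _)) (by omega)
  have hv2 : Nh d (15 * C) (H.Z (g * f * g⁻¹)) (η N) := by
    have h3 : Nh d (15 * C) (H.Z f) (g⁻¹ * η N) := by
      refine nh_trans hG (hnear r2 hr2) (s := 8 * C) ?_ (by omega)
      have t1 := hG.path.tri (g⁻¹ * η N) (g⁻¹ * v') (η r2)
      have t2 := hG.inv g⁻¹ (η N) v'
      have t3 := hG.path.symm (g⁻¹ * v') (η r2)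
      omega
    have h4 := nh_smul hG H hfX g h3
    rwa [mul_inv_cancel_left] at h4
  have n1 := hl_near hG H hfX hgu1 hv1
  have n2 := hl_sep hG hF hf hfg h1 h2 hgu2 hv2
  -- the distance
  have d1 := hl_disp' H hg hu'
  have d2 := hG.path.tri (η 0) (g * η 0) (η N)
  have d3 := hG.path.tri (η 0) u' (g * η 0)
  have d4 := hG.path.tri u' (g * u') (g * η 0)
  have d5 := hG.inv g u' (η 0)
  have d6 := hG.path.symm u' (η 0)
  have d7 : (N : ℝ) ≤ d u' (g * u') + 2 * C + d (g * η 0) (η N) := by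
    have : N ≤ d u' (g * u') + 2 * C + d (g * η 0) (η N) := by omega
    exact_mod_cast this
  push_cast at n1 n2
  linarith

/-- (F0): a relator hub `f` has a short overlap with the axis of `g` if they do not commute. It also
gives the entry and exit points. -/
theorem f0_ee (hG : HypG d δ) {H : Hubs d X C} (hδC : 100 * δ ≤ C) (hF : Fam H F Δ Tm)
    {f g : G} (hf : f ∈ F) (hg : g ∈ X) (h1 : g * f * g⁻¹ ≠ f) (h2 : g * f * g⁻¹ ≠ f⁻¹)
    {x y : G} (hx : x ∈ H.Z g) (hy : y ∈ H.Z g) (hΦ : 10 * (C : ℝ) ≤ |H.Φ f x y|) :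
    ∃ u' ∈ H.Z g, ∃ v' ∈ H.Z g, (d u' v' : ℝ) ≤ H.T g + Δ + 152 * C ∧
      |H.Φ f x y| ≤ |H.Φ f u' v'| + 14 * C := by
  have hC1 : (1 : ℝ) ≤ C := by exact_mod_cast hF.hC1
  have hfX := hF.sub hf
  obtain ⟨η, hη0, hη1, hη⟩ := exists_geo hG.path x y
  obtain ⟨i1, i2, h0, h12, h3, -, -, h4, h5, h6, -⟩ := hl_ee hG H hδC hfX hη
    (Nat.zero_le (d x y)) le_rfl (by rw [hη0, hη1]; exact hΦ)
  rw [hη0] at h4
  rw [hη1] at h5
  have hi1 : i1 ≤ d x y := h12.le.trans h3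
  have q1 := hb_btw hG hη (Nat.zero_le i1) hi1 le_rfl
  have q2 := hb_btw hG hη (Nat.zero_le i2) h3 le_rfl
  rw [hη0, hη1] at q1 q2
  obtain ⟨u', hu', hu⟩ := H.qc g hg x hx y hy _ q1
  obtain ⟨v', hv', hv⟩ := H.qc g hg x hx y hy _ q2
  have hζ := hb_sub hG hη h12.le h3
  have hlen : ((i2 - i1 : ℕ) : ℝ) ≤ H.T g + Δ + 150 * C := by
    rcases le_total 0 (H.Φ g u' v') with hor | hor
    · refine f0_core hG hδC hF hf hg h1 h2 hζ (u' := u') (v' := v') ?_ hu' hv' ?_ ?_ hor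
      · intro t ht
        exact h6 _ (by omega) (by omega)
      · simpa using hu
      · have e : i1 + (i2 - i1) = i2 := by omega
        simp only [e]
        exact hv
    · refine f0_core hG hδC hF hf hg h1 h2 (hb_rev hG hζ) (u' := v') (v' := u') ?_ hv' hu' ?_ ?_
        (by rw [hl_symm H hg]; linarith)
      · intro t ht
        exact h6 _ (by omega) (by omega)
      · have e : i1 + (i2 - i1 - 0) = i2 := by omega
        simp only [e]
        exact hv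
      · have e : i1 + (i2 - i1 - (i2 - i1)) = i1 := by omega
        simp only [e]
        exact hu
  refine ⟨u', hu', v', hv', ?_, ?_⟩
  · have a1 := hη i1 i2 h12.le h3
    have a2 := hG.path.tri u' (η i1) v'
    have a3 := hG.path.tri (η i1) (η i2) v'
    have a4 := hG.path.symm u' (η i1)
    have a5 : (d u' v' : ℝ) ≤ ((i2 - i1 : ℕ) : ℝ) + 2 * C := by
      have : d u' v' ≤ (i2 - i1) + 2 * C := by omega
      exact_mod_cast this
    linarith
  · have a1 := H.coc f hfX x (η i1) y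
    have a2 := H.coc f hfX (η i1) (η i2) y
    have a3 := hl_lip2 hG H hfX (η i1) (η i2) u' v'
    have a4 : (d (η i1) u' : ℝ) ≤ C := by exact_mod_cast hu
    have a5 : (d (η i2) v' : ℝ) ≤ C := by exact_mod_cast hv
    have a6 := abs_add_three (H.Φ f x (η i1)) (H.Φ f (η i1) (η i2)) (H.Φ f (η i2) y)
    rw [add_assoc, a2, a1] at a6
    have a7 := abs_sub_abs_le_abs_sub (H.Φ f (η i1) (η i2)) (H.Φ f u' v')
    linarith

theorem f0 (hG : HypG d δ) {H : Hubs d X C} (hδC : 100 * δ ≤ C) (hF : Fam H F Δ Tm)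
    {f g : G} (hf : f ∈ F) (hg : g ∈ X) (h1 : g * f * g⁻¹ ≠ f) (h2 : g * f * g⁻¹ ≠ f⁻¹)
    {x y : G} (hx : x ∈ H.Z g) (hy : y ∈ H.Z g) :
    |H.Φ f x y| ≤ H.T g + Δ + 200 * C := by
  have hC1 : (1 : ℝ) ≤ C := by exact_mod_cast hF.hC1
  have hT0 := hl_Tpos H hg
  have hΔ0 : (0 : ℝ) ≤ Δ := Nat.cast_nonneg Δ
  rcases le_or_gt (10 * (C : ℝ)) |H.Φ f x y| with h | h
  · obtain ⟨u', hu', v', hv', h3, h4⟩ := f0_ee hG hδC hF hf hg h1 h2 hx hy h
    have h5 := H.lip f (hF.sub hf) u' v'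
    linarith
  · linarith

/-- pieces of a geodesic, absolute values -/
theorem hl_sub_abs (hG : HypG d δ) (H : Hubs d X C) (hC : 100 * δ ≤ C) {f : G} (hf : f ∈ X)
    {N : ℕ} {γ : ℕ → G} (hγ : IsGeo d N γ) {i j : ℕ} (hi : i ≤ N) (hj : j ≤ N) :
    |H.Φ f (γ i) (γ j)| ≤ |H.Φ f (γ 0) (γ N)| + 8 * C := by
  have hC0 : (0 : ℝ) ≤ C := Nat.cast_nonneg C
  have key : ∀ i j, i ≤ j → j ≤ N → |H.Φ f (γ i) (γ j)| ≤ |H.Φ f (γ 0) (γ N)| + 8 * C := by
    intro i j hij hj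
    have h1 := hl_sub hG H hC hf hγ hij hj
    have h2 := hl_sub hG H hC (H.Xinv f hf) hγ hij hj
    have h3 := H.neg f hf (γ i) (γ j)
    have h4 := H.neg f hf (γ 0) (γ N)
    have h5 : max (H.Φ f (γ 0) (γ N)) 0 ≤ |H.Φ f (γ 0) (γ N)| :=
      max_le (le_abs_self _) (abs_nonneg _)
    have h6 : max (H.Φ f⁻¹ (γ 0) (γ N)) 0 ≤ |H.Φ f (γ 0) (γ N)| + C := by
      refine max_le ?_ (by positivity)
      have := neg_abs_le (H.Φ f (γ 0) (γ N))
      rw [abs_le] at h4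
      linarith [h4.2]
    rw [abs_le] at h3
    rw [abs_le]
    constructor <;> linarith [h3.1, h3.2]
  rcases le_total i j with h | h
  · exact key i j h hj
  · rw [hl_symm H hf, abs_neg]
    exact key j i h hi

end Pool.Agent.Helper74.TB
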