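import Pool.Agent.Helper74.TB.StX

/-! MP_7d16da_al, Part G, section G1: rerouting a pair at a long hub, weights without ties. -/

set_option autoImplicit false

namespace Pool.Agent.Helper74.TB

open Pool.Agent.Helper74.MH

variable {G : Type*} [Group G] {d : G → G → ℕ} {δ C Δ : ℕ} {X F : Set G} {Tm : ℝ}

/-- A set of representatives of the pairs `f, f⁻¹`, invariant under conjugation. -/
structure Half (F Fp : Set G) : Prop where
  conj : ∀ f ∈ F, ∀ g, g * f * g⁻¹ ∈ Fp ↔ f ∈ Fp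
  inv : ∀ f ∈ F, f⁻¹ ∈ Fp ↔ f ∉ Fp

theorem exists_half (F : Set G) (hF : ∀ f ∈ F, ∀ g, g * f * g⁻¹ ≠ f⁻¹) :
    ∃ Fp : Set G, Half F Fp := by
  classical
  obtain ⟨r, hr⟩ : ∃ r : ConjClasses G → ConjClasses G → Prop, IsWellOrder _ r :=
    ⟨WellOrderingRel, inferInstance⟩
  have hne : ∀ f ∈ F, ConjClasses.mk f ≠ ConjClasses.mk f⁻¹ := by
    intro f hf h
    rw [ConjClasses.mk_eq_mk_iff_isConj, isConj_iff] at h
    obtain ⟨g, hg⟩ := h
    exact hF f hf g hg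
  have hconj : ∀ f g : G, ConjClasses.mk (g * f * g⁻¹) = ConjClasses.mk f := by
    intro f g
    rw [ConjClasses.mk_eq_mk_iff_isConj, isConj_comm, isConj_iff]
    exact ⟨g, rfl⟩
  refine ⟨{f | r (ConjClasses.mk f) (ConjClasses.mk f⁻¹)}, ?_, ?_⟩
  · intro f _ g
    have e : (g * f * g⁻¹)⁻¹ = g * f⁻¹ * g⁻¹ := by group
    change r (ConjClasses.mk (g * f * g⁻¹)) (ConjClasses.mk (g * f * g⁻¹)⁻¹) ↔
      r (ConjClasses.mk f) (ConjClasses.mk f⁻¹)
    rw [e, hconj, hconj]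
  · intro f hf
    change r (ConjClasses.mk f⁻¹) (ConjClasses.mk f⁻¹⁻¹) ↔ ¬ r (ConjClasses.mk f) (ConjClasses.mk f⁻¹)
    rw [inv_inv]
    constructor
    · intro h h'
      exact asymm_of r h h'
    · intro h
      rcases trichotomous_of r (ConjClasses.mk f) (ConjClasses.mk f⁻¹) with h' | h' | h'
      · exact absurd h' h
      · exact absurd h' (hne f hf)
      · exact h'

open Classical in
/-- The weights `T / 2 ± θ`. -/
noncomputable def bth (H : Hubs d X C) (Fp : Set G) (θ : ℝ) (f : G) : ℝ :=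
  if f ∈ Fp then H.T f / 2 + θ else H.T f / 2 - θ

theorem bth_abs (H : Hubs d X C) (Fp : Set G) {θ : ℝ} (hθ : 0 ≤ θ) (f : G) :
    |bth H Fp θ f - H.T f / 2| ≤ θ := by
  unfold bth
  split_ifs
  · rw [add_sub_cancel_left, abs_of_nonneg hθ]
  · rw [sub_sub_cancel_left, abs_neg, abs_of_nonneg hθ]

theorem bth_wt {H : Hubs d X C} (hF : Fam H F Δ Tm) {Fp : Set G} (hFp : Half F Fp) {θ : ℝ}
    (hθ : 0 ≤ θ) (hθT : 10 * θ ≤ Tm) : Wt H F (bth H Fp θ) := by
  refine ⟨?_, ?_, ?_⟩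
  · intro f hf g
    unfold bth
    rw [H.Tconj f (hF.sub hf) g]
    by_cases h : f ∈ Fp
    · rw [if_pos h, if_pos ((hFp.conj f hf g).2 h)]
    · rw [if_neg h, if_neg (fun h' => h ((hFp.conj f hf g).1 h'))]
  · intro f hf
    unfold bth
    rw [H.Tinv f (hF.sub hf)]
    by_cases h : f ∈ Fp
    · rw [if_pos h, if_neg (fun h' => (hFp.inv f hf).1 h' h)]
      ring
    · rw [if_neg h, if_pos ((hFp.inv f hf).2 h)]
      ring
  · intro f hf
    have h1 := hF.big f hf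
    have h2 := bth_abs H Fp hθ f
    rw [abs_le] at h2
    linarith [h2.1]

theorem g_wt_half {H : Hubs d X C} (hF : Fam H F Δ Tm) (hT : 0 ≤ Tm) :
    Wt H F (fun f => H.T f / 2) := by
  refine ⟨?_, ?_, ?_⟩
  · intro f hf g
    simp only [H.Tconj f (hF.sub hf) g]
  · intro f hf
    simp only [H.Tinv f (hF.sub hf)]
    ring
  · intro f hf
    have h1 := hF.big f hf
    linarith

/-- (G1) rerouting.  `y' = f0 y`. -/
theorem reroute (hG : HypG d δ) {H : Hubs d X C} (hF : Fam H F Δ Tm) {f0 f : G}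
    (hf0 : f0 ∈ F) (hf : f ∈ F) (h1 : f ≠ f0) (h2 : f ≠ f0⁻¹) (x y : G)
    (hB : 3 * (Δ : ℝ) ≤ |H.Φ f0 x y|) (hB' : 3 * (Δ : ℝ) ≤ |H.Φ f0 x y + H.T f0|) :
    |H.Φ f x (f0 * y)| ≤ 5 * Δ ∨
    ((∀ z ∈ H.Z f, |H.Φ f0 x z| ≤ Δ + 10 * C) ∧
      |H.Φ f x (f0 * y) - H.Φ f x y| ≤ 5 * Δ) ∨
    ((∀ z ∈ H.Z (f0⁻¹ * f * f0), |H.Φ f0 y z| ≤ Δ + 10 * C) ∧
      |H.Φ f x (f0 * y) - H.Φ (f0⁻¹ * f * f0) x y| ≤ 5 * Δ) := by
  have hf0X := hF.sub hf0
  have hfX := hF.sub hf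
  have hC1 : (1 : ℝ) ≤ C := by exact_mod_cast hF.hC1
  have hCΔ : 1000 * (C : ℝ) ≤ Δ := by exact_mod_cast hF.hC
  have h1' : f0 ≠ f := fun h => h1 h.symm
  have h2' : f0 ≠ f⁻¹ := fun h => h2 (by rw [h, inv_inv])
  -- the conjugate hub
  obtain ⟨f', hf'⟩ : ∃ f', f' = f0⁻¹ * f * f0 := ⟨_, rfl⟩
  have hf'' : f' = f0⁻¹ * f * f0⁻¹⁻¹ := by rw [inv_inv]; exact hf'
  have hf'F : f' ∈ F := by rw [hf'']; exact hF.conj f hf _
  have hf'X := hF.sub hf'F
  have h3 : f' ≠ f0 := by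
    intro h
    apply h1
    have : f = f0 * f' * f0⁻¹ := by rw [hf']; group
    rw [this, h]; group
  have h4 : f' ≠ f0⁻¹ := by
    intro h
    apply h2
    have : f = f0 * f' * f0⁻¹ := by rw [hf']; group
    rw [this, h]; group
  have h3' : f0 ≠ f' := fun h => h3 h.symm
  have h4' : f0 ≠ f'⁻¹ := fun h => h4 (by rw [h, inv_inv])
  rw [← hf']
  -- the projections
  obtain ⟨u, hu⟩ : ∃ u, u = H.pr f0 x := ⟨_, rfl⟩
  obtain ⟨w, hw⟩ : ∃ w, w = H.pr f0 y := ⟨_, rfl⟩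
  have huZ : u ∈ H.Z f0 := by rw [hu]; exact H.pr_mem f0 hf0X x
  have hwZ : w ∈ H.Z f0 := by rw [hw]; exact H.pr_mem f0 hf0X y
  have hwZ' : f0 * w ∈ H.Z f0 := by
    have := (hl_Zpow H hf0X w 1).2 hwZ
    rwa [zpow_one] at this
  have s1 : |H.Φ f u w| ≤ Δ := hF.sep f hf f0 hf0 h1' h2' u huZ w hwZ
  have s2 : |H.Φ f u (f0 * w)| ≤ Δ := hF.sep f hf f0 hf0 h1' h2' u huZ _ hwZ'
  have s3 : |H.Φ f' u w| ≤ Δ := hF.sep f' hf'F f0 hf0 h3' h4' u huZ w hwZ
  have c1 : H.Φ f x y = H.Φ f x u + H.Φ f u w + H.Φ f w y := by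
    rw [H.coc f hfX, H.coc f hfX]
  have c2 : H.Φ f x (f0 * y) = H.Φ f x u + H.Φ f u (f0 * w) + H.Φ f (f0 * w) (f0 * y) := by
    rw [H.coc f hfX, H.coc f hfX]
  have c3 : H.Φ f' x y = H.Φ f' x u + H.Φ f' u w + H.Φ f' w y := by
    rw [H.coc f' hf'X, H.coc f' hf'X]
  -- equivariance
  have e1 : |H.Φ f' w y - H.Φ f (f0 * w) (f0 * y)| ≤ C := by
    have := H.equi f hfX f0⁻¹ (f0 * w) (f0 * y)
    rwa [inv_mul_cancel_left, inv_mul_cancel_left, ← hf''] at this
  -- exact shift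
  have sh : H.Φ f0 x (f0 * y) = H.Φ f0 x y + H.T f0 := by
    have t1 := H.coc f0 hf0X x y (f0 * y)
    have t2 := H.shift f0 hf0X y
    linarith
  have shz : ∀ z, H.Φ f0 (f0 * y) (f0 * z) = H.Φ f0 y z := by
    intro z
    have := hl_inv H hf0X y z 1
    rwa [zpow_one] at this
  -- case distinction
  by_cases hx : |H.Φ f x u| ≤ Δ + 10 * C
  · by_cases hy : |H.Φ f (f0 * w) (f0 * y)| ≤ Δ + 10 * C
    · left
      rw [c2, abs_le]
      rw [abs_le] at hx hy s2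
      constructor <;> linarith [hx.1, hx.2, hy.1, hy.2, s2.1, s2.2]
    · right; right
      -- `Z f` is near `f0 y`
      have near : ∀ z ∈ H.Z f, |H.Φ f0 (f0 * y) z| ≤ Δ + 10 * C := by
        rcases hl_beh hG hF hf0 hf h1 h2 (f0 * y) with hb | hb
        · exact hb
        · exfalso
          apply hy
          have := hb (f0 * w) hwZ'
          rwa [hl_symm H hfX, abs_neg] at this
      have near' : ∀ z ∈ H.Z f', |H.Φ f0 y z| ≤ Δ + 10 * C := by
        intro z hz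
        have hz' : f0 * z ∈ H.Z f := by
          have := H.Zconj f hfX f0⁻¹ (f0 * z)
          rw [inv_mul_cancel_left, ← hf''] at this
          exact this.1 hz
        have := near _ hz'
        rwa [shz] at this
      refine ⟨near', ?_⟩
      -- `Φ f' x u` is small
      have hxu : |H.Φ f' x u| ≤ Δ + 10 * C := by
        rcases hl_beh hG hF hf0 hf'F h3 h4 x with hb | hb
        · exfalso
          have b1 := hb u
          have b2 := hb _ (H.pr_mem f' hf'X x)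
          have b3 := near' _ (H.pr_mem f' hf'X x)
          have b4 := H.coc f0 hf0X x (H.pr f' x) y
          have b5 := hl_symm H hf0X y (H.pr f' x)
          have b6 := abs_add_le (H.Φ f0 x (H.pr f' x)) (H.Φ f0 (H.pr f' x) y)
          rw [b4, b5, abs_neg] at b6
          linarith
        · exact hb u huZ
      rw [c2, c3, abs_le]
      rw [abs_le] at hx hxu s2 s3 e1
      constructor <;> linarith [hx.1, hx.2, hxu.1, hxu.2, s2.1, s2.2, s3.1, s3.2, e1.1, e1.2]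
  · right; left
    -- `Z f` is near `x`
    have near : ∀ z ∈ H.Z f, |H.Φ f0 x z| ≤ Δ + 10 * C := by
      rcases hl_beh hG hF hf0 hf h1 h2 x with hb | hb
      · exact hb
      · exact absurd (hb u huZ) hx
    refine ⟨near, ?_⟩
    have hwy : |H.Φ f w y| ≤ Δ + 10 * C := by
      rcases hl_beh hG hF hf0 hf h1 h2 y with hb | hb
      · exfalso
        have b2 := hb _ (H.pr_mem f hfX x)
        have b3 := near _ (H.pr_mem f hfX x)
        have b4 := H.coc f0 hf0X x (H.pr f x) y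
        have b5 := hl_symm H hf0X y (H.pr f x)
        have b6 := abs_add_le (H.Φ f0 x (H.pr f x)) (H.Φ f0 (H.pr f x) y)
        rw [b4, b5, abs_neg] at b6
        linarith
      · have := hb w hwZ
        rwa [hl_symm H hfX, abs_neg] at this
    have hwy' : |H.Φ f (f0 * w) (f0 * y)| ≤ Δ + 10 * C := by
      rcases hl_beh hG hF hf0 hf h1 h2 (f0 * y) with hb | hb
      · exfalso
        have b2 := hb _ (H.pr_mem f hfX x)
        have b3 := near _ (H.pr_mem f hfX x)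
        have b4 := H.coc f0 hf0X x (H.pr f x) (f0 * y)
        have b5 := hl_symm H hf0X (f0 * y) (H.pr f x)
        have b6 := abs_add_le (H.Φ f0 x (H.pr f x)) (H.Φ f0 (H.pr f x) (f0 * y))
        rw [b4, b5, abs_neg, sh] at b6
        linarith
      · have := hb (f0 * w) hwZ'
        rwa [hl_symm H hfX, abs_neg] at this
    rw [c1, c2, abs_le]
    rw [abs_le] at hwy hwy' s1 s2
    constructor <;> linarith [hwy.1, hwy.2, hwy'.1, hwy'.2, s1.1, s1.2, s2.1, s2.2]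

end Pool.Agent.Helper74.TB
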