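import Pool.Agent.Helper74.TB.G1

/-! MP_7d16da_al, Part G, section G1b: removing all violating hubs. -/

set_option autoImplicit false

namespace Pool.Agent.Helper74.TB

open Pool.Agent.Helper74.MH

variable {G : Type*} [Group G] {d : G → G → ℕ} {δ C Δ : ℕ} {X F : Set G} {Tm : ℝ}

/-- rerouting, with an injection between the long hubs -/
theorem reroute2 (hG : HypG d δ) {H : Hubs d X C} (hF : Fam H F Δ Tm) {Fp : Set G}
    (hFp : Half F Fp) {f0 : G} (hf0 : f0 ∈ F) (x y : G)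
    (hB : 3 * (Δ : ℝ) ≤ |H.Φ f0 x y|) (hB' : 3 * (Δ : ℝ) ≤ |H.Φ f0 x y + H.T f0|) :
    ∃ φ : G → G, (∀ f ∈ F, f ≠ f0 → f ≠ f0⁻¹ → φ f ∈ F ∧ φ f ≠ f0 ∧ (φ f ∈ Fp ↔ f ∈ Fp) ∧
      H.T (φ f) = H.T f ∧ (|H.Φ f x (f0 * y)| ≤ 5 * Δ ∨
        |H.Φ f x (f0 * y) - H.Φ (φ f) x y| ≤ 5 * Δ)) ∧
      ∀ f₁ ∈ F, f₁ ≠ f0 → f₁ ≠ f0⁻¹ → 5 * (Δ : ℝ) < |H.Φ f₁ x (f0 * y)| →
        ∀ f₂ ∈ F, f₂ ≠ f0 → f₂ ≠ f0⁻¹ → 5 * (Δ : ℝ) < |H.Φ f₂ x (f0 * y)| →
        φ f₁ = φ f₂ → f₁ = f₂ := by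
  classical
  have hf0X := hF.sub hf0
  have hC1 : (1 : ℝ) ≤ C := by exact_mod_cast hF.hC1
  have hCΔ : 1000 * (C : ℝ) ≤ Δ := by exact_mod_cast hF.hC
  have hconj : ∀ f : G, f0⁻¹ * f * f0 = f0⁻¹ * f * f0⁻¹⁻¹ := fun f => by rw [inv_inv]
  -- a hub near `x` and near `y` does not exist
  have hno : ∀ f ∈ F, (∀ z ∈ H.Z f, |H.Φ f0 x z| ≤ Δ + 10 * C) →
      (∀ z ∈ H.Z f, |H.Φ f0 y z| ≤ Δ + 10 * C) → False := by
    intro f hf h1 h2
    have b2 := h1 _ (H.pr_mem f (hF.sub hf) x)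
    have b3 := h2 _ (H.pr_mem f (hF.sub hf) x)
    have b4 := H.coc f0 hf0X x (H.pr f x) y
    have b5 := hl_symm H hf0X y (H.pr f x)
    have b6 := abs_add_le (H.Φ f0 x (H.pr f x)) (H.Φ f0 (H.pr f x) y)
    rw [b4, b5, abs_neg] at b6
    linarith
  have sh : H.Φ f0 x (f0 * y) = H.Φ f0 x y + H.T f0 := by
    have t1 := H.coc f0 hf0X x y (f0 * y)
    have t2 := H.shift f0 hf0X y
    linarith
  have hno' : ∀ f ∈ F, (∀ z ∈ H.Z f, |H.Φ f0 x z| ≤ Δ + 10 * C) →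
      (∀ z ∈ H.Z (f0⁻¹ * f * f0), |H.Φ f0 y z| ≤ Δ + 10 * C) → False := by
    intro f hf h1 h2
    have hfX := hF.sub hf
    obtain ⟨z, hz⟩ : ∃ z, z = H.pr f x := ⟨_, rfl⟩
    have hzZ : z ∈ H.Z f := by rw [hz]; exact H.pr_mem f hfX x
    have hz' : f0⁻¹ * z ∈ H.Z (f0⁻¹ * f * f0) := by
      rw [hconj]
      exact (H.Zconj f hfX f0⁻¹ z).2 hzZ
    have b2 := h1 _ hzZ
    have b3 := h2 _ hz'
    have b4 := hl_inv H hf0X y (f0⁻¹ * z) 1
    rw [zpow_one, mul_inv_cancel_left] at b4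
    rw [← b4] at b3
    have b5 := H.coc f0 hf0X x z (f0 * y)
    have b7 := hl_symm H hf0X (f0 * y) z
    have b6 := abs_add_le (H.Φ f0 x z) (H.Φ f0 z (f0 * y))
    rw [b5, b7, abs_neg, sh] at b6
    linarith
  have hinj : ∀ f₁ f₂ : G, f0⁻¹ * f₁ * f0 = f0⁻¹ * f₂ * f0 → f₁ = f₂ := by
    intro f₁ f₂ h
    have := congrArg (fun g => f0 * g * f0⁻¹) h
    simpa [mul_assoc] using this
  refine ⟨fun f => if ∀ z ∈ H.Z f, |H.Φ f0 x z| ≤ Δ + 10 * C then f else f0⁻¹ * f * f0, ?_, ?_⟩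
  · intro f hf h1 h2
    have hf'F : f0⁻¹ * f * f0 ∈ F := by rw [hconj]; exact hF.conj f hf _
    have hne : f0⁻¹ * f * f0 ≠ f0 := by
      intro h
      apply h1
      apply hinj
      rw [h]; group
    have hT : H.T (f0⁻¹ * f * f0) = H.T f := by rw [hconj]; exact H.Tconj f (hF.sub hf) _
    have hp : f0⁻¹ * f * f0 ∈ Fp ↔ f ∈ Fp := by rw [hconj]; exact hFp.conj f hf _
    dsimp only
    rcases reroute hG hF hf0 hf h1 h2 x y hB hB' with hr | hr | hr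
    · split_ifs with hn
      · exact ⟨hf, h1, Iff.rfl, rfl, Or.inl hr⟩
      · exact ⟨hf'F, hne, hp, hT, Or.inl hr⟩
    · rw [if_pos hr.1]
      exact ⟨hf, h1, Iff.rfl, rfl, Or.inr hr.2⟩
    · rw [if_neg (fun hn => hno' f hf hn hr.1)]
      exact ⟨hf'F, hne, hp, hT, Or.inr hr.2⟩
  · intro f₁ hf₁ h1 h1' hl1 f₂ hf₂ h2 h2' hl2 h
    dsimp only at h
    by_cases hn1 : ∀ z ∈ H.Z f₁, |H.Φ f0 x z| ≤ Δ + 10 * C
    · by_cases hn2 : ∀ z ∈ H.Z f₂, |H.Φ f0 x z| ≤ Δ + 10 * C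
      · rwa [if_pos hn1, if_pos hn2] at h
      · exfalso
        rw [if_pos hn1, if_neg hn2] at h
        rcases reroute hG hF hf0 hf₂ h2 h2' x y hB hB' with hr | hr | hr
        · exact absurd hr (not_le.2 hl2)
        · exact hn2 hr.1
        · rw [← h] at hr
          exact hno f₁ hf₁ hn1 hr.1
    · by_cases hn2 : ∀ z ∈ H.Z f₂, |H.Φ f0 x z| ≤ Δ + 10 * C
      · exfalso
        rw [if_neg hn1, if_pos hn2] at h
        rcases reroute hG hF hf0 hf₁ h1 h1' x y hB hB' with hr | hr | hr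
        · exact absurd hr (not_le.2 hl1)
        · exact hn1 hr.1
        · rw [h] at hr
          exact hno f₂ hf₂ hn2 hr.1
      · rw [if_neg hn1, if_neg hn2] at h
        exact hinj _ _ h

/-- the invariant -/
def GInv (H : Hubs d X C) (F Fp : Set G) (Δ : ℕ) (θ mg : ℝ) (x : G) (s : ℕ) (y : G) : Prop :=
  ∀ f ∈ F, f ∈ Fp → -(H.T f / 2) - 11 * C - 5 * Δ * s ≤ H.Φ f x y ∧
    H.Φ f x y ≤ H.T f / 2 + θ - mg + 5 * Δ * s ∧
    (H.Φ f x y ≤ -(H.T f / 2 - θ) - mg + 5 * Δ * s ∨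
      -(H.T f / 2 - θ) + mg - 5 * Δ * s ≤ H.Φ f x y)

/-- the violating hubs -/
def GVio (H : Hubs d X C) (F Fp : Set G) (Δ : ℕ) (θ : ℝ) (x : G) (s : ℕ) (y : G) : Set G :=
  {f | f ∈ F ∧ f ∈ Fp ∧ H.Φ f x y < -(H.T f / 2 - θ) - 5 * Δ * s}

theorem proc (hG : HypG d δ) {H : Hubs d X C} (hF : Fam H F Δ Tm) {Fp : Set G}
    (hFp : Half F Fp) {θ mg : ℝ} (hθ : 0 ≤ θ) (hmg : 0 ≤ mg) {N0 : ℕ}
    (hT : 4 * θ + 4 * mg + 20 * Δ * (N0 + 1) ≤ Tm) (x : G) :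
    ∀ (v s : ℕ) (y : G), (GVio H F Fp Δ θ x s y).Finite → (GVio H F Fp Δ θ x s y).ncard ≤ v →
      v + s ≤ N0 → GInv H F Fp Δ θ mg x s y →
      ∃ k ∈ Subgroup.closure F, ∃ s' ≤ N0, GInv H F Fp Δ θ mg x s' (k * y) ∧
        ∀ f ∈ F, f ∈ Fp → -(H.T f / 2 - θ) - 5 * Δ * s' ≤ H.Φ f x (k * y) := by
  have hC1 : (1 : ℝ) ≤ C := by exact_mod_cast hF.hC1
  have hCΔ : 1000 * (C : ℝ) ≤ Δ := by exact_mod_cast hF.hC
  intro v
  induction v with
  | zero =>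
    intro s y hfin hcard hs hinv
    refine ⟨1, Subgroup.one_mem _, s, by omega, by rw [one_mul]; exact hinv, ?_⟩
    intro f hf hfp
    rw [one_mul]
    by_contra hcon
    push Not at hcon
    have h1 : (GVio H F Fp Δ θ x s y) = ∅ := (Set.ncard_eq_zero hfin).1 (by omega)
    have h2 : f ∈ GVio H F Fp Δ θ x s y := ⟨hf, hfp, hcon⟩
    rw [h1] at h2
    exact h2
  | succ v ih =>
    intro s y hfin hcard hs hinv
    by_cases hne : ∃ f0, f0 ∈ GVio H F Fp Δ θ x s y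
    swap
    · refine ⟨1, Subgroup.one_mem _, s, by omega, by rw [one_mul]; exact hinv, ?_⟩
      intro f hf hfp
      rw [one_mul]
      by_contra hcon
      push Not at hcon
      exact hne ⟨f, hf, hfp, hcon⟩
    obtain ⟨f0, hv0⟩ := hne
    obtain ⟨hf0, hf0p, hf0v⟩ := hv0
    have hf0X := hF.sub hf0
    have hTf0 := hF.big f0 hf0
    obtain ⟨i1, i2, i3⟩ := hinv f0 hf0 hf0p
    have hsN : (s : ℝ) + 1 ≤ N0 := by exact_mod_cast (by omega : s + 1 ≤ N0)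
    have hs0 : (0 : ℝ) ≤ s := Nat.cast_nonneg s
    have hΔs : 5 * (Δ : ℝ) * s ≤ 5 * Δ * N0 := by
      have : 0 ≤ (Δ : ℝ) := Nat.cast_nonneg Δ
      nlinarith
    have hΔs0 : 0 ≤ 5 * (Δ : ℝ) * s := by positivity
    have hΔ0 : 0 ≤ (Δ : ℝ) := Nat.cast_nonneg Δ
    have hΔN : 0 ≤ (Δ : ℝ) * N0 := by positivity
    have hT' : 4 * θ + 4 * mg + 20 * (Δ * N0) + 20 * Δ ≤ Tm := by nlinarith
    have hB : 3 * (Δ : ℝ) ≤ |H.Φ f0 x y| := by
      rw [abs_of_neg (by linarith)]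
      linarith
    have hB' : 3 * (Δ : ℝ) ≤ |H.Φ f0 x y + H.T f0| := by
      rw [abs_of_nonneg (by linarith)]
      linarith
    have sh : H.Φ f0 x (f0 * y) = H.Φ f0 x y + H.T f0 := by
      have t1 := H.coc f0 hf0X x y (f0 * y)
      have t2 := H.shift f0 hf0X y
      linarith
    obtain ⟨φ, hφ, hφi⟩ := reroute2 hG hF hFp hf0 x y hB hB'
    have hninv : ∀ f ∈ Fp, f ≠ f0⁻¹ := by
      intro f hfp h
      rw [h] at hfp
      exact (hFp.inv f0 hf0).1 hfp hf0p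
    -- the new pair satisfies the invariant
    have hinv' : GInv H F Fp Δ θ mg x (s + 1) (f0 * y) := by
      intro f hf hfp
      push_cast
      have e5 : 5 * (Δ : ℝ) * (s + 1) = 5 * Δ * s + 5 * Δ := by ring
      rw [e5]
      have hTf := hF.big f hf
      by_cases hff : f = f0
      · rw [hff, sh]
        refine ⟨by linarith, ?_, Or.inr (by linarith)⟩
        rcases i3 with h | h
        · linarith
        · linarith
      · obtain ⟨a1, a2, a3, a4, a5⟩ := hφ f hf hff (hninv f hfp)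
        rcases a5 with a5 | a5
        · rw [abs_le] at a5
          exact ⟨by linarith [a5.1], by linarith [a5.2], Or.inr (by linarith [a5.1])⟩
        · rw [abs_le] at a5
          obtain ⟨j1, j2, j3⟩ := hinv _ a1 (a3.2 hfp)
          rw [a4] at j1 j2 j3
          refine ⟨by linarith [a5.1], by linarith [a5.2], ?_⟩
          rcases j3 with h | h
          · left; linarith [a5.2]
          · right; linarith [a5.1]
    -- violating hubs
    have hmaps : ∀ f ∈ GVio H F Fp Δ θ x (s + 1) (f0 * y), f ≠ f0 ∧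
        5 * (Δ : ℝ) < |H.Φ f x (f0 * y)| ∧ φ f ∈ GVio H F Fp Δ θ x s y \ {f0} := by
      rintro f ⟨hf, hfp, hfv⟩
      push_cast at hfv
      have e5 : 5 * (Δ : ℝ) * (s + 1) = 5 * Δ * s + 5 * Δ := by ring
      rw [e5] at hfv
      have hTf := hF.big f hf
      have hff : f ≠ f0 := by
        intro h
        rw [h, sh] at hfv
        linarith
      have hlong : 5 * (Δ : ℝ) < |H.Φ f x (f0 * y)| := by
        rw [abs_of_neg (by linarith)]
        linarith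
      obtain ⟨a1, a2, a3, a4, a5⟩ := hφ f hf hff (hninv f hfp)
      refine ⟨hff, hlong, ⟨a1, a3.2 hfp, ?_⟩, a2⟩
      rcases a5 with a5 | a5
      · exact absurd a5 (not_le.2 hlong)
      · rw [abs_le] at a5
        rw [a4]
        linarith [a5.1]
    have hfin' : (GVio H F Fp Δ θ x s y \ {f0}).Finite := hfin.subset Set.sdiff_subset
    have hinjOn : Set.InjOn φ (GVio H F Fp Δ θ x (s + 1) (f0 * y)) := by
      intro f₁ h₁ f₂ h₂ h
      obtain ⟨b1, b2, -⟩ := hmaps f₁ h₁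
      obtain ⟨c1, c2, -⟩ := hmaps f₂ h₂
      exact hφi f₁ h₁.1 b1 (hninv f₁ h₁.2.1) b2 f₂ h₂.1 c1 (hninv f₂ h₂.2.1) c2 h
    have hmapsTo : Set.MapsTo φ (GVio H F Fp Δ θ x (s + 1) (f0 * y))
        (GVio H F Fp Δ θ x s y \ {f0}) := fun f hf => (hmaps f hf).2.2
    have hfin'' : (GVio H F Fp Δ θ x (s + 1) (f0 * y)).Finite :=
      Set.Finite.of_injOn hmapsTo hinjOn hfin'
    have hcard' : (GVio H F Fp Δ θ x (s + 1) (f0 * y)).ncard ≤ v := by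
      have h1 := Set.ncard_le_ncard_of_injOn φ hmapsTo hinjOn hfin'
      have h2 := Set.ncard_sdiff_singleton_add_one (s := GVio H F Fp Δ θ x s y) (a := f0)
        ⟨hf0, hf0p, hf0v⟩ hfin
      omega
    obtain ⟨k, hk, s', hs', h1, h2⟩ := ih (s + 1) (f0 * y) hfin'' hcard' (by omega) hinv'
    refine ⟨k * f0, Subgroup.mul_mem _ hk (Subgroup.subset_closure hf0), s', hs', ?_, ?_⟩
    · rw [mul_assoc k f0 y]; exact h1
    · rw [mul_assoc k f0 y]; exact h2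

end Pool.Agent.Helper74.TB
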