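import Pool.Agent.Helper74.TB.G1b

/-! MP_7d16da_al, Part G, section G2: tight lifts without ties and with margin. -/

set_option autoImplicit false

namespace Pool.Agent.Helper74.TB

open Pool.Agent.Helper74.MH

variable {G G' : Type*} [Group G] [Group G'] {d : G → G → ℕ} {d' : G' → G' → ℕ}
  {δ C Δ R : ℕ} {X F : Set G} {Tm : ℝ} {H : Hubs d X C} {π : G →* G'}

/-! ### The quotient map -/

theorem q_pi (hQ : Quo H F R π d') {k : G} (hk : k ∈ Subgroup.closure F) (x : G) :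
    π (k * x) = π x := by
  rw [map_mul, (hQ.ker k).2 hk, one_mul]

theorem q_lift (hQ : Quo H F R π d') {x y : G} (h : π x = π y) :
    ∃ k ∈ Subgroup.closure F, y = k * x := by
  refine ⟨y * x⁻¹, (hQ.ker _).1 ?_, by group⟩
  rw [map_mul, map_inv, h, mul_inv_cancel]

theorem q_adj (hQ : Quo H F R π d') {x y : G} (h : Adj H F R x y) : d' (π x) (π y) ≤ 1 :=
  (hQ.adj _ _).2 ⟨x, y, rfl, rfl, h⟩

theorem q_adjK (hQ : Quo H F R π d') {x y : G} (h : AdjK H F R x y) : d' (π x) (π y) ≤ 1 := by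
  obtain ⟨k, hk, h⟩ := h
  have := q_adj hQ h
  rwa [q_pi hQ hk] at this

theorem q_near (hQ : Quo H F R π d') {x y : G} (h : d x y ≤ R) : d' (π x) (π y) ≤ 1 :=
  q_adj hQ (Or.inl h)

theorem q_R (hG : HypG d δ) (hQ : Quo H F R π d') :
    ∀ (k : ℕ) (x y : G), d x y ≤ k * R → d' (π x) (π y) ≤ k := by
  intro k
  induction k with
  | zero =>
    intro x y h
    have h1 : x = y := (hG.path.zero_iff x y).1 (by omega)
    rw [h1, (hQ.path.zero_iff _ _).2 rfl]
  | succ k ih =>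
    intro x y h
    by_cases h1 : d x y ≤ k * R
    · exact (ih x y h1).trans (Nat.le_succ k)
    · push Not at h1
      obtain ⟨z, hz1, hz2⟩ := hG.path.geod x y (k * R) h1.le
      have h2 := ih x z hz2.le
      have h3 : d z y ≤ R := by
        unfold MH.Btw at hz1
        have e : (k + 1) * R = k * R + R := by ring
        omega
      have h4 := q_near hQ h3
      have h5 := hQ.path.tri (π x) (π z) (π y)
      omega

theorem q_normal (hF : Fam H F Δ Tm) : (Subgroup.closure F).Normal := by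
  refine ⟨fun n hn g => ?_⟩
  induction hn using Subgroup.closure_induction with
  | mem f hf => exact Subgroup.subset_closure (hF.conj f hf g)
  | one => rw [mul_one, mul_inv_cancel]; exact Subgroup.one_mem _
  | mul a b _ _ ha hb =>
    have e : g * (a * b) * g⁻¹ = (g * a * g⁻¹) * (g * b * g⁻¹) := by group
    rw [e]
    exact Subgroup.mul_mem _ ha hb
  | inv a _ ha =>
    have e : g * a⁻¹ * g⁻¹ = (g * a * g⁻¹)⁻¹ := by group
    rw [e]
    exact Subgroup.inv_mem _ ha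

theorem exists_min_lift (hG : HypG d δ) (hF : Fam H F Δ Tm) (hQ : Quo H F R π d')
    (hT : 100 * (C : ℝ) ≤ Tm) (x : G) (b' : G') :
    ∃ y, π y = b' ∧ Tight H F (fun f => H.T f / 2) (10 * C) x y := by
  classical
  have hne : ∃ n, ∃ y, π y = b' ∧ d x y = n := by
    obtain ⟨y, hy⟩ := hQ.surj b'
    exact ⟨_, y, hy, rfl⟩
  obtain ⟨y, hy, hxy⟩ := Nat.find_spec hne
  refine ⟨y, hy, hl_min hG hF hT fun k hk => ?_⟩
  have h1 : Nat.find hne ≤ d x (k * y) :=
    Nat.find_min' hne ⟨k * y, by rw [q_pi hQ hk, hy], rfl⟩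
  omega

/-! ### Translation and reversal of tight pairs -/

theorem tight_smul {b : G → ℝ} (hF : Fam H F Δ Tm) (hb : Wt H F b) {c : ℝ} {x y : G}
    (h : Tight H F b c x y) (g : G) : Tight H F b (c + C) (g * x) (g * y) := by
  intro f hf
  have hf' : g⁻¹ * f * g⁻¹⁻¹ ∈ F := hF.conj f hf _
  have h1 := h _ hf'
  have h2 := H.equi f (hF.sub hf) g⁻¹ (g * x) (g * y)
  rw [inv_mul_cancel_left, inv_mul_cancel_left, abs_le] at h2
  rw [hb.conj f hf] at h1
  linarith [h2.1]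

theorem g_tight_mono {b : G → ℝ} {c c' : ℝ} (hc : c ≤ c') {x y : G}
    (h : Tight H F b c x y) : Tight H F b c' x y := fun f hf => (h f hf).trans (by linarith)

theorem tight_lower {b : G → ℝ} (hF : Fam H F Δ Tm) {c : ℝ} {x y : G}
    (h : Tight H F b c x y) {f : G} (hf : f ∈ F) : -(b f⁻¹ + c + C) ≤ H.Φ f x y := by
  have h1 := h _ (hF.inv f hf)
  have h2 := H.neg f (hF.sub hf) x y
  rw [abs_le] at h2
  linarith [h2.1]

/-! ### Counting -/

/-- the bound for the number of long hubs of minimal pairs -/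
def CountB (H : Hubs d X C) (F : Set G) (R : ℕ) (π : G →* G') (d' : G' → G' → ℕ)
    (D N0 : ℕ) : Prop :=
  ∀ x y, Tight H F (fun f => H.T f / 2) (10 * C) x y → d' (π x) (π y) ≤ D →
    ∀ S : Finset G, (∀ f ∈ S, f ∈ F) → (∀ f ∈ S, (R : ℝ) * N0 < |H.Φ f x y|) →
      (∀ f ∈ S, ∀ f' ∈ S, f' ≠ f⁻¹) → S.card ≤ N0

omit [Group G] in
theorem finite_of_card {A : Set G} {N : ℕ} (h : ∀ S : Finset G, (∀ f ∈ S, f ∈ A) → S.card ≤ N) :
    A.Finite ∧ A.ncard ≤ N := by
  have hfin : A.Finite := by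
    by_contra hinf
    obtain ⟨t, ht, hc⟩ := Set.Infinite.exists_subset_card_eq hinf (N + 1)
    have := h t (fun f hf => ht hf)
    omega
  refine ⟨hfin, ?_⟩
  rw [Set.ncard_eq_toFinset_card A hfin]
  exact h _ fun f hf => (Set.Finite.mem_toFinset hfin).1 hf

/-- the common part: from a minimal pair to a tight pair for the weights `bth θ` -/
theorem lift_core (hG : HypG d δ) (hF : Fam H F Δ Tm) {Fp : Set G} (hFp : Half F Fp)
    {D N0 : ℕ} (hcount : CountB H F R π d' D N0) {θ mg : ℝ} (hθ : mg + 11 * C ≤ θ)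
    (hmg : 0 ≤ mg) (hT : 4 * θ + 4 * mg + 20 * Δ * (N0 + 1) + 4 * R * N0 ≤ Tm) {x y : G}
    (hxy : Tight H F (fun f => H.T f / 2) (10 * C) x y) (hD : d' (π x) (π y) ≤ D)
    (hgap : ∀ f ∈ F, f ∈ Fp → H.Φ f x y ≤ -(H.T f / 2 - θ) - mg ∨
      -(H.T f / 2 - θ) + mg ≤ H.Φ f x y) :
    ∃ k ∈ Subgroup.closure F, ∃ s' ≤ N0, GInv H F Fp Δ θ mg x s' (k * y) ∧
        ∀ f ∈ F, f ∈ Fp → -(H.T f / 2 - θ) - 5 * Δ * s' ≤ H.Φ f x (k * y) := by
  have hC1 : (1 : ℝ) ≤ C := by exact_mod_cast hF.hC1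
  have hCΔ : 1000 * (C : ℝ) ≤ Δ := by exact_mod_cast hF.hC
  have hθ0 : 0 ≤ θ := by linarith
  have hRN : 0 ≤ (R : ℝ) * N0 := by positivity
  have hΔN : 0 ≤ (Δ : ℝ) * (N0 + 1) := by positivity
  have hlow : ∀ f ∈ F, -(H.T f / 2) - 11 * C ≤ H.Φ f x y := by
    intro f hf
    have h1 := hxy _ (hF.inv f hf)
    have h2 := H.neg f (hF.sub hf) x y
    simp only [H.Tinv f (hF.sub hf)] at h1
    rw [abs_le] at h2
    linarith [h2.1]
  have hvio : (GVio H F Fp Δ θ x 0 y).Finite ∧ (GVio H F Fp Δ θ x 0 y).ncard ≤ N0 := by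
    apply finite_of_card
    intro S hS
    refine hcount x y hxy hD S (fun f hf => (hS f hf).1) ?_ ?_
    · intro f hf
      obtain ⟨h1, h2, h3⟩ := hS f hf
      have hTf := hF.big f h1
      push_cast at h3
      rw [abs_of_neg (by nlinarith)]
      nlinarith
    · intro f hf f' hf' h
      obtain ⟨h1, h2, h3⟩ := hS f hf
      obtain ⟨h1', h2', h3'⟩ := hS f' hf'
      rw [h] at h2'
      exact (hFp.inv f h1).1 h2' h2
  refine proc hG hF hFp hθ0 hmg (by nlinarith) x N0 0 y hvio.1 hvio.2 (by omega) ?_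
  intro f hf hfp
  push_cast
  refine ⟨by linarith [hlow f hf], ?_, ?_⟩
  · have := hxy f hf
    simp only at this
    linarith
  · rcases hgap f hf hfp with h | h
    · left; linarith
    · right; linarith

/-- tight lifts (no margin) -/
theorem tight_lift (hG : HypG d δ) (hF : Fam H F Δ Tm) (hQ : Quo H F R π d') {Fp : Set G}
    (hFp : Half F Fp) {D N0 : ℕ} (hcount : CountB H F R π d' D N0) {θ : ℝ}
    (hθ : 11 * (C : ℝ) ≤ θ) (hT : 4 * θ + 20 * Δ * (N0 + 1) + 4 * R * N0 ≤ Tm)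
    (x : G) (b' : G') (hD : d' (π x) b' ≤ D) :
    ∃ y, π y = b' ∧ Tight H F (bth H Fp θ) (5 * Δ * N0 + C) x y := by
  have hC1 : (1 : ℝ) ≤ C := by exact_mod_cast hF.hC1
  have hCΔ : 1000 * (C : ℝ) ≤ Δ := by exact_mod_cast hF.hC
  have hRN : 0 ≤ (R : ℝ) * N0 := by positivity
  have hΔN : 0 ≤ (Δ : ℝ) * N0 := by positivity
  obtain ⟨y, hy, hxy⟩ := exists_min_lift hG hF hQ (by nlinarith) x b'
  obtain ⟨k, hk, s', hs', hinv, hv⟩ := lift_core hG hF hFp hcount (θ := θ) (mg := 0)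
    (by linarith) le_rfl (by linarith) hxy (by rw [hy]; exact hD) (by
      intro f _ _
      rcases le_total (H.Φ f x y) (-(H.T f / 2 - θ)) with h | h
      · left; linarith
      · right; linarith)
  have hs'' : (s' : ℝ) ≤ N0 := by exact_mod_cast hs'
  have hΔs : 5 * (Δ : ℝ) * s' ≤ 5 * Δ * N0 := by
    have : 0 ≤ (Δ : ℝ) := Nat.cast_nonneg Δ
    nlinarith
  refine ⟨k * y, by rw [q_pi hQ hk, hy], fun f hf => ?_⟩
  unfold bth
  by_cases hfp : f ∈ Fp
  · rw [if_pos hfp]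
    obtain ⟨i1, i2, i3⟩ := hinv f hf hfp
    linarith
  · rw [if_neg hfp]
    have hf' := hF.inv f hf
    have hfp' : f⁻¹ ∈ Fp := (hFp.inv f hf).2 hfp
    have h1 := hv _ hf' hfp'
    have h2 := H.neg f (hF.sub hf) x (k * y)
    rw [abs_le] at h2
    rw [H.Tinv f (hF.sub hf)] at h1
    linarith [h2.2]

/-- (G2) a tight lift with margin, for a suitable `θ` -/
theorem margin_lift (hG : HypG d δ) (hF : Fam H F Δ Tm) (hQ : Quo H F R π d') {Fp : Set G}
    (hFp : Half F Fp) {D N0 : ℕ} (hcount : CountB H F R π d' D N0) {mg : ℝ}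
    (hmg : 10 * (Δ : ℝ) * (N0 + 1) < mg)
    (hT : 4 * ((2 * N0 + 1) * mg + 11 * C) + 4 * mg + 20 * Δ * (N0 + 1) + 4 * R * N0 ≤ Tm)
    (x : G) (b' : G') (hD : d' (π x) b' ≤ D) :
    ∃ θ : ℝ, mg + 11 * C ≤ θ ∧ θ ≤ (2 * N0 + 1) * mg + 11 * C ∧ ∃ y, π y = b' ∧
      ∀ f ∈ F, H.Φ f x y ≤ bth H Fp θ f - (mg - 5 * Δ * N0 - C) := by
  classical
  have hC1 : (1 : ℝ) ≤ C := by exact_mod_cast hF.hC1
  have hCΔ : 1000 * (C : ℝ) ≤ Δ := by exact_mod_cast hF.hC
  have hRN : 0 ≤ (R : ℝ) * N0 := by positivity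
  have hΔN : 0 ≤ (Δ : ℝ) * N0 := by positivity
  have hmg0 : 0 < mg := by nlinarith
  have hmgN : 0 ≤ mg * N0 := by positivity
  obtain ⟨y, hy, hxy⟩ := exists_min_lift hG hF hQ (by nlinarith) x b'
  -- the choice of `θ`
  have hpig : ∃ j : ℕ, j ≤ N0 ∧ ∀ f ∈ F, f ∈ Fp →
      mg ≤ |H.Φ f x y + H.T f / 2 - ((2 * j + 1) * mg + 11 * C)| := by
    by_contra hcon
    push Not at hcon
    choose! ff h1 h2 h3 using hcon
    have hlong : ∀ j ≤ N0, H.Φ (ff j) x y < -((R : ℝ) * N0) := by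
      intro j hj
      have h4 := (abs_lt.1 (h3 j hj)).2
      have h5 := hF.big _ (h1 j hj)
      have h6 : (j : ℝ) ≤ N0 := by exact_mod_cast hj
      nlinarith
    have hinj : Set.InjOn ff (Finset.range (N0 + 1) : Set ℕ) := by
      intro i hi j hj hij
      have hi' : i ≤ N0 := by
        have := Finset.mem_range.1 (Finset.mem_coe.1 hi); omega
      have hj' : j ≤ N0 := by
        have := Finset.mem_range.1 (Finset.mem_coe.1 hj); omega
      have a1 := abs_lt.1 (h3 i hi')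
      have a2 := abs_lt.1 (h3 j hj')
      rw [hij] at a1
      by_contra hne
      rcases Nat.lt_or_gt_of_ne hne with h | h
      · have h7 : (i : ℝ) + 1 ≤ j := by exact_mod_cast h
        nlinarith [a1.1, a1.2, a2.1, a2.2]
      · have h7 : (j : ℝ) + 1 ≤ i := by exact_mod_cast h
        nlinarith [a1.1, a1.2, a2.1, a2.2]
    have hcard : ((Finset.range (N0 + 1)).image ff).card = N0 + 1 := by
      rw [Finset.card_image_of_injOn hinj, Finset.card_range]
    have hle := hcount x y hxy (by rw [hy]; exact hD) ((Finset.range (N0 + 1)).image ff) (by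
        intro f hf
        obtain ⟨j, hj, rfl⟩ := Finset.mem_image.1 hf
        exact h1 j (by have := Finset.mem_range.1 hj; omega)) (by
        intro f hf
        obtain ⟨j, hj, rfl⟩ := Finset.mem_image.1 hf
        have := hlong j (by have := Finset.mem_range.1 hj; omega)
        rw [abs_of_neg (by linarith)]
        linarith) (by
        intro f hf f' hf' h
        obtain ⟨j, hj, rfl⟩ := Finset.mem_image.1 hf
        obtain ⟨j', hj', rfl⟩ := Finset.mem_image.1 hf'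
        have e1 := h2 j (by have := Finset.mem_range.1 hj; omega)
        have e2 := h2 j' (by have := Finset.mem_range.1 hj'; omega)
        have e3 := h1 j (by have := Finset.mem_range.1 hj; omega)
        rw [h] at e2
        exact (hFp.inv _ e3).1 e2 e1)
    omega
  obtain ⟨j, hj, hgap⟩ := hpig
  obtain ⟨θ, hθ⟩ : ∃ θ : ℝ, θ = (2 * j + 1) * mg + 11 * C := ⟨_, rfl⟩
  rw [← hθ] at hgap
  have hj' : (j : ℝ) ≤ N0 := by exact_mod_cast hj
  have hj0 : (0 : ℝ) ≤ j := Nat.cast_nonneg j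
  have hθ1 : mg + 11 * C ≤ θ := by rw [hθ]; nlinarith
  have hθ2 : θ ≤ (2 * N0 + 1) * mg + 11 * C := by rw [hθ]; nlinarith
  obtain ⟨k, hk, s', hs', hinv, hv⟩ := lift_core hG hF hFp hcount (θ := θ) (mg := mg)
    hθ1 hmg0.le (by linarith) hxy (by rw [hy]; exact hD) (by
      intro f hf hfp
      rcases le_abs.1 (hgap f hf hfp) with h | h
      · right; linarith
      · left; linarith)
  have hs'' : (s' : ℝ) ≤ N0 := by exact_mod_cast hs'
  have hΔs : 5 * (Δ : ℝ) * s' ≤ 5 * Δ * N0 := by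
    have : 0 ≤ (Δ : ℝ) := Nat.cast_nonneg Δ
    nlinarith
  refine ⟨θ, hθ1, hθ2, k * y, by rw [q_pi hQ hk, hy], fun f hf => ?_⟩
  unfold bth
  by_cases hfp : f ∈ Fp
  · rw [if_pos hfp]
    obtain ⟨i1, i2, i3⟩ := hinv f hf hfp
    linarith
  · rw [if_neg hfp]
    have hf' := hF.inv f hf
    have hfp' : f⁻¹ ∈ Fp := (hFp.inv f hf).2 hfp
    have h1 := hv _ hf' hfp'
    obtain ⟨i1, i2, i3⟩ := hinv _ hf' hfp'
    have h2 := H.neg f (hF.sub hf) x (k * y)
    rw [abs_le] at h2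
    rw [H.Tinv f (hF.sub hf)] at h1 i3
    rcases i3 with h | h
    · nlinarith
    · linarith [h2.2]

end Pool.Agent.Helper74.TB
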