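import Pool.Agent.Helper74.TB.G2

/-! MP_7d16da_al, Part G, section G3: coherent lifts. -/

set_option autoImplicit false

namespace Pool.Agent.Helper74.TB

open Pool.Agent.Helper74.MH

section vclose

variable {G G' : Type*} [Group G] [Group G'] {d : G → G → ℕ} {d' : G' → G' → ℕ}
  {δ C Δ R : ℕ} {X F : Set G} {Tm : ℝ} {H : Hubs d X C} {π : G →* G'}

/-- points of the first geodesic far from the second one -/
theorem vclose1 (hG : HypG d δ) (hF : Fam H F Δ Tm) (hQ : Quo H F R π d') (hδC : 100 * δ ≤ C)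
    (hCR : C ≤ R) {N N' i j M : ℕ} {γ γ' η : ℕ → G} {k : G} {q : G'} {E : ℕ}
    (hγ : IsGeo d N γ) (hγ' : IsGeo d N' γ') (hη : IsGeo d M η) (hk : k ∈ Subgroup.closure F)
    (hi : i ≤ N) (hj : j ≤ N')
    (hlink : γ i = k * γ' j ∨ ∃ f ∈ F, Nh d (7 * C) (H.Z f) (γ i) ∧
      Nh d (7 * C) (H.Z f) (k * γ' j))
    (hcov : ∀ t, i ≤ t → t ≤ N → ∃ t' ≤ j, AdjK H F R (γ t) (γ' t'))
    (hE : ∀ t' ≤ N', d' (π (γ' t')) q ≤ E) (hη0 : η 0 = γ 0) (hη1 : η M = k * γ' N')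
    {t : ℕ} (ht : t ≤ N) (hfar : E + 2 ≤ d' (π (γ t)) q) : ∃ s ≤ M, d (γ t) (η s) ≤ 8 * δ := by
  have hclose : ∀ t' ≤ N', d' (π (γ t)) (π (γ' t')) ≤ 1 → False := by
    intro t' ht' h
    have h1 := hE t' ht'
    have h2 := hQ.path.tri (π (γ t)) (π (γ' t')) q
    omega
  have hti : t < i := by
    by_contra hti
    obtain ⟨t', ht', h⟩ := hcov t (not_lt.1 hti) ht
    exact hclose t' (ht'.trans hj) (q_adjK hQ h)
  obtain ⟨κ, hκ0, hκ1, hκ⟩ := exists_geo hG.path (k * γ' j) (γ i)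
  have g1 : IsGeo d i γ := fun a b hab hb => hγ a b hab (hb.trans hi)
  have g2 : IsGeo d (N' - j) (fun s => k * γ' (N' - s)) := by
    have h1 := hb_sub hG (hb_rev hG (hb_smul hG hγ' k)) (i := 0) (j := N' - j) (Nat.zero_le _)
      (Nat.sub_le _ _)
    intro a b hab hb
    have := h1 a b hab (by omega)
    simpa using this
  have hq := hb_quad hG g1 hη g2 hκ hη0.symm (by simp only [Nat.sub_zero]; exact hη1)
    (by
      have e : N' - (N' - j) = j := by omega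
      simp only [e]
      exact hκ0.symm) hκ1.symm (t := t) hti.le
  rcases hq with h | ⟨s, hs, h⟩ | ⟨s, hs, h⟩
  · exact h
  · exfalso
    have h1 := q_near hQ (x := γ t) (y := k * γ' (N' - s)) (by omega)
    rw [q_pi hQ hk] at h1
    exact hclose (N' - s) (Nat.sub_le _ _) h1
  · exfalso
    rcases hlink with hl | ⟨f, hf, hl1, hl2⟩
    · have h0 : d (k * γ' j) (γ i) = 0 := (hG.path.zero_iff _ _).2 hl.symm
      have hs0 : s = 0 := by omega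
      rw [hs0, hκ0] at h
      have h1 := q_near hQ (x := γ t) (y := k * γ' j) (by omega)
      rw [q_pi hQ hk] at h1
      exact hclose j hj h1
    · have hbt := hb_btw hG hκ (Nat.zero_le s) hs le_rfl
      rw [hκ0, hκ1] at hbt
      obtain ⟨z, hz, hzd⟩ := hl_qc hG H hδC (hF.sub hf) hl2 hl1 hbt
      have hz1 : Nh d (20 * C) (H.Z f) (γ t) := by
        refine ⟨z, hz, ?_⟩
        have := hG.path.tri (γ t) (κ s) z
        omega
      have hz2 : Nh d (20 * C) (H.Z f) (k * γ' j) := by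
        obtain ⟨w, hw, hwd⟩ := hl2
        exact ⟨w, hw, by omega⟩
      have h1 := q_adj hQ (Or.inr ⟨f, hf, hz1, hz2⟩ : Adj H F R (γ t) (k * γ' j))
      rw [q_pi hQ hk] at h1
      exact hclose j hj h1

/-- points of the second geodesic far from the first one -/
theorem vclose2 (hG : HypG d δ) (hF : Fam H F Δ Tm) (hQ : Quo H F R π d') (hδC : 100 * δ ≤ C)
    (hCR : C ≤ R) {N N' i j M : ℕ} {γ γ' η : ℕ → G} {k : G} {q : G'} {E : ℕ}
    (hγ : IsGeo d N γ) (hγ' : IsGeo d N' γ') (hη : IsGeo d M η) (hk : k ∈ Subgroup.closure F)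
    (hi : i ≤ N)
    (hlink : γ i = k * γ' j ∨ ∃ f ∈ F, Nh d (7 * C) (H.Z f) (γ i) ∧
      Nh d (7 * C) (H.Z f) (k * γ' j))
    (hcov : ∀ t' ≤ j, ∃ t, i ≤ t ∧ t ≤ N ∧ AdjK H F R (γ t) (γ' t'))
    (hE : ∀ t ≤ N, d' (π (γ t)) q ≤ E) (hη0 : η 0 = γ 0) (hη1 : η M = k * γ' N')
    {t' : ℕ} (ht' : t' ≤ N') (hfar : E + 2 ≤ d' (π (γ' t')) q) :
    ∃ s ≤ M, d (k * γ' t') (η s) ≤ 8 * δ := by
  have hclose : ∀ t ≤ N, d' (π (k * γ' t')) (π (γ t)) ≤ 1 → False := by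
    intro t ht h
    rw [q_pi hQ hk] at h
    have h1 := hE t ht
    have h2 := hQ.path.tri (π (γ' t')) (π (γ t)) q
    omega
  have hjt : j < t' := by
    by_contra hjt
    obtain ⟨t, ht1, ht2, h⟩ := hcov t' (not_lt.1 hjt)
    have h1 := q_adjK hQ h
    rw [hQ.path.symm] at h1
    apply hclose t ht2
    rw [q_pi hQ hk]
    exact h1
  obtain ⟨κ, hκ0, hκ1, hκ⟩ := exists_geo hG.path (k * γ' j) (γ i)
  have g1 : IsGeo d (N' - j) (fun s => k * γ' (j + s)) :=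
    hb_sub hG (hb_smul hG hγ' k) (by omega) le_rfl
  have g2 : IsGeo d i (fun s => γ (i - s)) :=
    hb_rev hG (fun a b hab hb => hγ a b hab (hb.trans hi))
  have hq := hb_quad hG g1 hκ g2 hη (by simp only [Nat.add_zero]; exact hκ0.symm)
    (by simp only [Nat.sub_zero]; exact hκ1) (by simp only [Nat.sub_self]; exact hη0.symm)
    (by
      have e : j + (N' - j) = N' := by omega
      simp only [e]
      exact hη1.symm) (t := t' - j) (by omega)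
  have e : j + (t' - j) = t' := by omega
  simp only [e] at hq
  rcases hq with ⟨s, hs, h⟩ | ⟨s, hs, h⟩ | h
  · exfalso
    rcases hlink with hl | ⟨f, hf, hl1, hl2⟩
    · have h0 : d (k * γ' j) (γ i) = 0 := (hG.path.zero_iff _ _).2 hl.symm
      have hs0 : s = 0 := by omega
      rw [hs0, hκ0, ← hl] at h
      exact hclose i hi (q_near hQ (by omega))
    · have hbt := hb_btw hG hκ (Nat.zero_le s) hs le_rfl
      rw [hκ0, hκ1] at hbt
      obtain ⟨z, hz, hzd⟩ := hl_qc hG H hδC (hF.sub hf) hl2 hl1 hbt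
      have hz1 : Nh d (20 * C) (H.Z f) (k * γ' t') := by
        refine ⟨z, hz, ?_⟩
        have := hG.path.tri (k * γ' t') (κ s) z
        omega
      have hz2 : Nh d (20 * C) (H.Z f) (γ i) := by
        obtain ⟨w, hw, hwd⟩ := hl1
        exact ⟨w, hw, by omega⟩
      exact hclose i hi
        (q_adj hQ (Or.inr ⟨f, hf, hz1, hz2⟩ : Adj H F R (k * γ' t') (γ i)))
  · exfalso
    exact hclose (i - s) (by omega) (q_near hQ (by omega))
  · exact h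

end vclose

section coh

variable {G G' : Type} [Group G] [Group G'] {d : G → G → ℕ} {d' : G' → G' → ℕ}
  {δ C Δ R : ℕ} {X F : Set G} {Tm : ℝ} {H : Hubs d X C} {π : G →* G'}

theorem cst_mono {c c' : ℝ} (h : Cst δ C Δ R c' Tm) (h0 : 0 ≤ c) (hc : c ≤ c') :
    Cst δ C Δ R c Tm :=
  ⟨h.hδ, h.hC, h.hΔ, h.hR, h0, by linarith [h.hcT], h.hT⟩

/-- points of a short tight geodesic project near the ends -/
theorem near_end (hE : StE) (hG : HypG d δ) (hF : Fam H F Δ Tm) {c : ℝ}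
    (hcst : Cst δ C Δ R c Tm) (hQ : Quo H F R π d') {b : G → ℝ} (hb : Wt H F b)
    (hbT : ∀ f ∈ F, |b f - H.T f / 2| ≤ Tm / 10) {N L' : ℕ} {γ : ℕ → G} (hγ : IsGeo d N γ)
    (ht : Tight H F b c (γ 0) (γ N)) (hL : d' (π (γ 0)) (π (γ N)) ≤ L') :
    (∀ t ≤ N, d' (π (γ t)) (π (γ 0)) ≤ L' + 150) ∧
      ∀ t ≤ N, d' (π (γ t)) (π (γ N)) ≤ L' + 150 := by
  obtain ⟨_, hE2⟩ := hE G G' d d' δ C Δ R X F H c Tm π hG hF hcst hQ
  obtain ⟨κ, hκ0, hκ1, hκ⟩ := exists_geo hQ.path (π (γ 0)) (π (γ N))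
  obtain ⟨h1, _⟩ := hE2 b hb hbT N γ hγ ht _ κ hκ hκ0 hκ1
  constructor
  · intro t htN
    obtain ⟨s, hs, hd⟩ := h1 t htN
    have h2 := hκ 0 s (Nat.zero_le _) hs
    rw [hκ0] at h2
    have h3 := hQ.path.tri (π (γ 0)) (κ s) (π (γ t))
    have h4 := hQ.path.symm (π (γ 0)) (π (γ t))
    omega
  · intro t htN
    obtain ⟨s, hs, hd⟩ := h1 t htN
    have h2 := hκ s _ hs le_rfl
    rw [hκ1] at h2
    have h3 := hQ.path.tri (π (γ t)) (κ s) (π (γ N))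
    have h4 := hQ.path.symm (π (γ t)) (κ s)
    omega

/-- (G3) coherent lifts -/
theorem coh (hCC : StC) (hV : StV) (hE : StE) (hG : HypG d δ) (hF : Fam H F Δ Tm) {c1 : ℝ}
    (hcst : Cst δ C Δ R (c1 + 3 * Δ) Tm) (hc1 : (C : ℝ) ≤ c1) (hQ : Quo H F R π d') {b : G → ℝ}
    (hb : Wt H F b) (hbT : ∀ f ∈ F, |b f - H.T f / 2| ≤ Tm / 10) {L' : ℕ}
    (hTL : ∀ (x : G) (b' : G'), d' (π x) b' ≤ L' → ∃ y, π y = b' ∧ Tight H F b c1 x y)
    {N : ℕ} {γ : ℕ → G} (hγ : IsGeo d N γ) {m1 : ℝ} (hm1 : c1 + 26 * Δ + 3 * C < m1)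
    (hmar : ∀ f ∈ F, H.Φ f (γ 0) (γ N) ≤ b f - m1) (g : G)
    (hg0 : d' (π (γ 0)) (π (g * γ 0)) ≤ L') (hg1 : d' (π (γ N)) (π (g * γ N)) ≤ L') :
    ∃ k ∈ Subgroup.closure F, ∀ t ≤ N, L' + 160 ≤ d' (π (γ t)) (π (γ 0)) →
      L' + 160 ≤ d' (π (γ t)) (π (γ N)) → ∃ t' ≤ N, d (γ t) (k * g * γ t') ≤ 24 * δ := by
  have hC1 : (1 : ℝ) ≤ C := by exact_mod_cast hF.hC1
  have hCΔ : 1000 * (C : ℝ) ≤ Δ := by exact_mod_cast hF.hC
  have hδC := hcst.hC
  have hCR : C ≤ R := by have := hcst.hΔ; have := hcst.hR; omega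
  have hcst1 : Cst δ C Δ R c1 Tm := cst_mono hcst (by linarith) (by linarith)
  have hγt : Tight H F b c1 (γ 0) (γ N) := fun f hf => (hmar f hf).trans (by linarith)
  -- A
  obtain ⟨y, hy, hty⟩ := hTL (γ N) (π (g * γ N)) hg1
  obtain ⟨γ', hγ'0, hγ'1, hγ'⟩ := exists_geo hG.path (γ N) y
  obtain ⟨i, hi, j, hj, k, hk, htk, hlink, hcov1, hcov2⟩ := hV G d δ C Δ R X F H b c1 Tm hG hF
    hcst1 hb N _ γ γ' hγ hγ' hγ'0.symm hγt (by rw [hγ'0, hγ'1]; exact hty)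
  rw [hγ'1] at htk
  obtain ⟨η, hη0, hη1, hη⟩ := exists_geo hG.path (γ 0) (k * y)
  have hnA := near_end hE hG hF hcst1 hQ hb hbT hγ' (L' := L') (by rw [hγ'0, hγ'1]; exact hty)
    (by rw [hγ'0, hγ'1, hy]; exact hg1)
  have claimA : ∀ t ≤ N, L' + 150 + 2 ≤ d' (π (γ t)) (π (γ N)) →
      ∃ s ≤ d (γ 0) (k * y), d (γ t) (η s) ≤ 8 * δ := by
    intro t ht hfar
    refine vclose1 hG hF hQ hδC hCR hγ hγ' hη hk hi hj hlink hcov1 (E := L' + 150)
      (q := π (γ N)) ?_ hη0 (by rw [hγ'1]; exact hη1) ht hfar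
    intro t' ht'
    have := hnA.1 t' ht'
    rwa [hγ'0] at this
  -- B
  obtain ⟨y1, hy1, hty1⟩ := hTL (g * γ 0) (π (γ 0)) (by rw [hQ.path.symm]; exact hg0)
  obtain ⟨κ, hκ, hyκ⟩ := q_lift hQ (x := y1) (y := γ 0) hy1
  -- `k2 = κ`
  have hty2 : Tight H F b (c1 + C) (κ * (g * γ 0)) (γ 0) := by
    have := tight_smul hF hb hty1 κ
    rwa [← hyκ] at this
  obtain ⟨ξ, hξ0, hξ1, hξ⟩ := exists_geo hG.path (κ * (g * γ 0)) (γ 0)
  obtain ⟨i2, hi2, j2, hj2, k3, hk3, htk3, hlink3, hcov31, hcov32⟩ := hV G d δ C Δ R X F H b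
    (c1 + 3 * Δ) Tm hG hF hcst hb _ _ ξ η hξ hη (by rw [hξ1, hη0])
    (by rw [hξ0, hξ1]; exact g_tight_mono (by linarith) hty2)
    (by rw [hη0, hη1]; exact htk)
  rw [hξ0, hη1] at htk3
  obtain ⟨ζ, hζ0, hζ1, hζ⟩ := exists_geo hG.path (κ * (g * γ 0)) (k3 * (k * y))
  have hnB := near_end hE hG hF hcst hQ hb hbT hξ (L' := L')
    (by rw [hξ0, hξ1]; exact g_tight_mono (by linarith) hty2)
    (by rw [hξ0, hξ1, q_pi hQ hκ, hQ.path.symm]; exact hg0)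
  have claimB : ∀ s ≤ d (γ 0) (k * y), L' + 150 + 2 ≤ d' (π (η s)) (π (γ 0)) →
      ∃ r ≤ d (κ * (g * γ 0)) (k3 * (k * y)), d (k3 * η s) (ζ r) ≤ 8 * δ := by
    intro s hs hfar
    refine vclose2 hG hF hQ hδC hCR hξ hη hζ hk3 hi2 hlink3 hcov32 (E := L' + 150)
      (q := π (γ 0)) ?_ (by rw [hζ0, hξ0]) (by rw [hζ1, hη1]) hs hfar
    intro t' ht'
    have := hnB.2 t' ht'
    rwa [hξ1] at this
  -- C
  have hend : k3 * (k * y) = κ * (g * γ N) := by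
    by_contra hne
    have hpi : π (κ * (g * γ N)) = π (k3 * (k * y)) := by
      rw [q_pi hQ hκ, q_pi hQ hk3, q_pi hQ hk, hy]
    obtain ⟨κ', hκ', hκe⟩ := q_lift hQ hpi
    have hκ1 : κ' ≠ 1 := by
      rintro rfl
      rw [one_mul] at hκe
      exact hne hκe
    have hT100 : 100 * (Δ : ℝ) ≤ Tm := by
      have h1 : 1000 * (Δ : ℝ) ≤ R := by exact_mod_cast hcst.hR
      have h2 := hcst.hT
      linarith [(Nat.cast_nonneg Δ : (0 : ℝ) ≤ Δ)]
    obtain ⟨f0, hf0, hf0T⟩ := hCC G d δ C Δ X F H Tm hG hδC hF hT100 κ' hκ' hκ1 (κ * (g * γ N))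
    rw [← hκe] at hf0T
    -- choose the sign
    have hsign : ∃ f ∈ F, H.T f - 20 * Δ - C ≤ -H.Φ f (κ * (g * γ N)) (k3 * (k * y)) := by
      rcases le_abs.1 hf0T with h | h
      · refine ⟨f0⁻¹, hF.inv f0 hf0, ?_⟩
        have h2 := H.neg f0 (hF.sub hf0) (κ * (g * γ N)) (k3 * (k * y))
        rw [abs_le] at h2
        rw [H.Tinv f0 (hF.sub hf0)]
        linarith [h2.2]
      · exact ⟨f0, hf0, by linarith⟩
    obtain ⟨f, hf, hfT⟩ := hsign
    have hfX := hF.sub hf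
    have e1 := H.coc f hfX (κ * (g * γ 0)) (k3 * (k * y)) (κ * (g * γ N))
    have e2 := hl_symm H hfX (κ * (g * γ N)) (k3 * (k * y))
    have e3 := tight_lower hF htk3 hf
    have e4 := hb.add f hf
    have hmar' := tight_smul (c := -m1) hF hb
      (fun f hf => (hmar f hf).trans (by linarith)) (κ * g) f hf
    rw [mul_assoc, mul_assoc] at hmar'
    linarith
  -- D
  refine ⟨k3⁻¹ * κ, Subgroup.mul_mem _ (Subgroup.inv_mem _ hk3) hκ, fun t ht hfar0 hfar1 => ?_⟩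
  obtain ⟨s, hs, hds⟩ := claimA t ht (by omega)
  have hπs : d' (π (γ t)) (π (η s)) ≤ 1 := q_near hQ (by omega)
  obtain ⟨r, hr, hdr⟩ := claimB s hs (by
    have := hQ.path.tri (π (γ t)) (π (η s)) (π (γ 0))
    omega)
  have hgeo : IsGeo d N (fun t => κ * g * γ t) := hb_smul hG hγ (κ * g)
  obtain ⟨t', ht', hdt'⟩ := hb_ft hG hζ hgeo (r := 0)
    (by rw [hζ0]; simp only [mul_assoc]; exact le_of_eq (hb_self hG _))
    (by rw [hζ1, hend]; simp only [mul_assoc]; exact le_of_eq (hb_self hG _)) hr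
  refine ⟨t', ht', ?_⟩
  have h1 : d (γ t) (k3⁻¹ * κ * g * γ t') = d (k3 * γ t) (κ * g * γ t') := by
    rw [← hG.inv k3 (γ t)]
    congr 1
    group
  rw [h1]
  have h2 := hG.inv k3 (γ t) (η s)
  have h3 := hG.path.tri (k3 * γ t) (k3 * η s) (κ * g * γ t')
  have h4 := hG.path.tri (k3 * η s) (ζ r) (κ * g * γ t')
  omega

end coh

end Pool.Agent.Helper74.TB
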