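import Pool.Agent.Helper74.TB.G3

/-! MP_7d16da_al, Part G, section G4: windows and the shift of a coherent lift. -/

set_option autoImplicit false

namespace Pool.Agent.Helper74.TB

open Pool.Agent.Helper74.MH

/-- the displacement of the points of a geodesic -/
theorem disp_geo {G : Type*} [Group G] {d : G → G → ℕ} {δ : ℕ} (hG : HypG d δ) {N L' : ℕ}
    {β : ℕ → G} (hβ : IsGeo d N β) (g : G) (h0 : d (β 0) (g * β 0) ≤ L')
    (h1 : d (β N) (g * β N) ≤ L') {s : ℕ} (hs : s ≤ N) : d (β s) (g * β s) ≤ 3 * L' + 16 * δ := by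
  have hβ' := hb_smul hG hβ g
  obtain ⟨s', hs', hd⟩ := hb_ft hG hβ hβ' (r := L') h0 h1 hs
  have a1 := hβ 0 s (Nat.zero_le _) hs
  have a2 := hβ 0 s' (Nat.zero_le _) hs'
  have a3 := hG.inv g (β 0) (β s')
  have a4 := hG.path.tri (g * β 0) (β 0) (g * β s')
  have a5 := hG.path.tri (β 0) (β s) (g * β s')
  have a6 := hG.path.symm (g * β 0) (β 0)
  have a7 := hG.path.tri (β 0) (g * β s') (β s)
  have a8 := hG.path.tri (β 0) (g * β 0) (g * β s')
  have a9 := hG.path.symm (g * β s') (β s)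
  have b1 : d (g * β s') (g * β s) ≤ 2 * L' + 8 * δ := by
    rw [hG.inv]
    rcases le_total s s' with h | h
    · have b2 := hβ s s' h hs'
      have b3 := hG.path.symm (β s) (β s')
      omega
    · have b2 := hβ s' s h hs
      omega
  have b4 := hG.path.tri (β s) (g * β s') (g * β s)
  omega

/-- the combinatorial shift lemma -/
theorem shift_comb {J e i : ℕ} {t t' : ℕ → ℕ} (hmono : ∀ j < J, t j < t (j + 1))
    (h1 : ∀ j < J, t' j < t (j + 1)) (h2 : ∀ j < J, t j < t' (j + 1))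
    (he : ∀ j l, j ≤ l → l ≤ J → ((t' l : ℤ) - t' j).natAbs ≤ (t l - t j) + e ∧
      t l - t j ≤ ((t' l : ℤ) - t' j).natAbs + e) (hi : 1 ≤ i) (hiJ : 2 * i + 3 ≤ J) :
    ((t' 0 : ℤ) - t 0).natAbs ≤ t (2 * i + 2) - t (2 * i) + e ∧
      ((t' J : ℤ) - t J).natAbs ≤ t (2 * i + 2) - t (2 * i) + e := by
  have hm : ∀ l, l ≤ J → ∀ j ≤ l, t j ≤ t l := by
    intro l
    induction l with
    | zero => intro _ j hj; rw [Nat.le_zero.1 hj]
    | succ l ih =>
      intro hl j hj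
      rcases Nat.lt_or_ge j (l + 1) with h | h
      · exact (ih (by omega) j (by omega)).trans (hmono l (by omega)).le
      · rw [le_antisymm hj h]
  have e1 : 2 * i + 1 + 1 = 2 * i + 2 := by ring
  have a1 := h1 (2 * i + 1) (by omega)
  have a2 := h2 (2 * i) (by omega)
  have a3 := hmono (2 * i) (by omega)
  have a4 := hmono (2 * i + 1) (by omega)
  rw [e1] at a1 a4
  constructor
  · obtain ⟨b1, b2⟩ := he 0 (2 * i + 1) (by omega) (by omega)
    have b3 := h1 0 (by omega)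
    have b4 := h2 (2 * i) (by omega)
    have b5 := hm (2 * i) (by omega) 1 (by omega)
    have b6 := hm (2 * i) (by omega) 0 (by omega)
    simp only [zero_add] at b3
    omega
  · obtain ⟨b1, b2⟩ := he (2 * i + 1) J (by omega) le_rfl
    obtain ⟨J', rfl⟩ : ∃ J', J = J' + 1 := ⟨J - 1, by omega⟩
    have b3 := h2 J' (by omega)
    have b5 := hm J' (by omega) (2 * i + 2) (by omega)
    have b6 := hm (J' + 1) le_rfl (2 * i + 2) (by omega)
    have b7 := hmono J' (by omega)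
    omega

section win

variable {G G' : Type} [Group G] [Group G'] {d : G → G → ℕ} {d' : G' → G' → ℕ}
  {δ C Δ R : ℕ} {X F : Set G} {Tm : ℝ} {H : Hubs d X C} {π : G →* G'}

/-- initial pieces of a tight geodesic are tight -/
theorem tight_init (hG : HypG d δ) (hδC : 100 * δ ≤ C) (hF : Fam H F Δ Tm) {b : G → ℝ}
    (hb : Wt H F b) (hTm : 0 ≤ Tm) {c : ℝ} (hc : 0 ≤ c) {N : ℕ} {γ : ℕ → G}
    (hγ : IsGeo d N γ) (hT : Tight H F b c (γ 0) (γ N)) {i j : ℕ} (hij : i ≤ j) (hj : j ≤ N) :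
    Tight H F b (c + 6 * C) (γ i) (γ j) := by
  intro f hf
  have h1 := hl_sub hG H hδC (hF.sub hf) hγ hij hj
  have h2 := hT f hf
  have h3 := hb.ge f hf
  have h4 := hF.big f hf
  have h5 : max (H.Φ f (γ 0) (γ N)) 0 ≤ b f + c := max_le h2 (by linarith)
  linarith

/-- windows along a tight geodesic -/
theorem windows (hE : StE) (hG : HypG d δ) (hF : Fam H F Δ Tm) {c : ℝ} (hc : 0 ≤ c)
    (hcst : Cst δ C Δ R (c + 6 * C) Tm) (hQ : Quo H F R π d') {b : G → ℝ}
    (hb : Wt H F b) (hbT : ∀ f ∈ F, |b f - H.T f / 2| ≤ Tm / 10) {N : ℕ} {γ : ℕ → G}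
    (hγ : IsGeo d N γ) (hT : Tight H F b c (γ 0) (γ N)) {L' w J : ℕ}
    (hw : 4 * L' + 10 ^ 5 ≤ w) (hD : w * (J + 2) ≤ d' (π (γ 0)) (π (γ N))) :
    ∃ t : ℕ → ℕ, (∀ j ≤ J, t j ≤ N) ∧ (∀ j < J, t j < t (j + 1)) ∧
      (∀ j ≤ J, L' + 160 ≤ d' (π (γ (t j))) (π (γ 0)) ∧
        L' + 160 ≤ d' (π (γ (t j))) (π (γ N))) ∧
      (∀ j < J, 2 ≤ d' (π (γ (t j))) (π (γ (t (j + 1))))) ∧
      ∀ g : G, d' (π (γ 0)) (π (g * γ 0)) ≤ L' → d' (π (γ N)) (π (g * γ N)) ≤ L' →
        ∀ t' : ℕ → ℕ, (∀ j ≤ J, t' j ≤ N ∧ d (γ (t j)) (g * γ (t' j)) ≤ 24 * δ) →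
          (∀ j < J, t' j < t (j + 1)) ∧ ∀ j < J, t j < t' (j + 1) := by
  have hC1 : (1 : ℝ) ≤ C := by exact_mod_cast hF.hC1
  have hδC := hcst.hC
  have hCR : C ≤ R := by have := hcst.hΔ; have := hcst.hR; omega
  have hTm : 0 ≤ Tm := by
    have h1 := hcst.hT
    have h2 : (0 : ℝ) ≤ R := Nat.cast_nonneg R
    linarith
  obtain ⟨hG', hE2⟩ := hE G G' d d' δ C Δ R X F H (c + 6 * C) Tm π hG hF hcst hQ
  obtain ⟨β, hβ0, hβ1, hβ⟩ := exists_geo hQ.path (π (γ 0)) (π (γ N))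
  obtain ⟨E1, E2⟩ := hE2 b hb hbT N γ hγ (g_tight_mono (by linarith) hT) _ β hβ hβ0 hβ1
  -- monotonicity
  have mono : ∀ t1 t2, t1 ≤ t2 → t2 ≤ N →
      d' (π (γ t1)) (π (γ 0)) ≤ d' (π (γ t2)) (π (γ 0)) + 150 := by
    intro t1 t2 h12 h2N
    have g1 : IsGeo d t2 γ := fun a b hab hb => hγ a b hab (hb.trans h2N)
    have T1 := tight_init hG hδC hF hb hTm hc hγ hT (Nat.zero_le t2) h2N
    obtain ⟨κ, hκ0, hκ1, hκ⟩ := exists_geo hQ.path (π (γ 0)) (π (γ t2))
    obtain ⟨h1, _⟩ := hE2 b hb hbT t2 γ g1 T1 _ κ hκ hκ0 hκ1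
    obtain ⟨s, hs, hd⟩ := h1 t1 h12
    have a1 := hκ 0 s (Nat.zero_le _) hs
    rw [hκ0] at a1
    have a2 := hQ.path.tri (π (γ 0)) (κ s) (π (γ t1))
    have a3 := hQ.path.symm (π (γ 0)) (π (γ t1))
    have a4 := hQ.path.symm (π (γ 0)) (π (γ t2))
    omega
  have hDJ : ∀ j ≤ J, w * (j + 1) ≤ d' (π (γ 0)) (π (γ N)) := by
    intro j hj
    have : w * (j + 1) ≤ w * (J + 2) := Nat.mul_le_mul_left w (by omega)
    omega
  have ht : ∀ j : ℕ, ∃ t : ℕ, j ≤ J → t ≤ N ∧ d' (β (w * (j + 1))) (π (γ t)) ≤ 450 := by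
    intro j
    by_cases hj : j ≤ J
    · obtain ⟨t, h1, h2⟩ := E2 _ (hDJ j hj)
      exact ⟨t, fun _ => ⟨h1, h2⟩⟩
    · exact ⟨0, fun h => absurd h hj⟩
  choose t ht using ht
  -- the position of `t j`
  have pos : ∀ j ≤ J, d' (π (γ (t j))) (π (γ 0)) ≤ w * (j + 1) + 450 ∧
      w * (j + 1) ≤ d' (π (γ (t j))) (π (γ 0)) + 450 := by
    intro j hj
    have a1 := hβ 0 _ (Nat.zero_le _) (hDJ j hj)
    rw [hβ0] at a1
    have a2 := (ht j hj).2
    have a3 := hQ.path.tri (π (γ 0)) (β (w * (j + 1))) (π (γ (t j)))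
    have a4 := hQ.path.tri (π (γ 0)) (π (γ (t j))) (β (w * (j + 1)))
    have a5 := hQ.path.symm (π (γ 0)) (π (γ (t j)))
    have a6 := hQ.path.symm (π (γ (t j))) (β (w * (j + 1)))
    omega
  have hstep : ∀ j, w * (j + 1 + 1) = w * (j + 1) + w := fun j => by ring
  have hw' : 10 ^ 5 ≤ w := by omega
  refine ⟨t, fun j hj => (ht j hj).1, ?_, ?_, ?_, ?_⟩
  · intro j hj
    by_contra hcon
    have a1 := mono (t (j + 1)) (t j) (not_lt.1 hcon) (ht j hj.le).1
    have a2 := pos j hj.le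
    have a3 := pos (j + 1) hj
    rw [hstep] at a3
    omega
  · intro j hj
    have a2 := pos j hj
    have a3 : w ≤ w * (j + 1) := Nat.le_mul_of_pos_right w (Nat.succ_pos j)
    have a4 : w * (j + 1) + w ≤ w * (J + 2) := by
      rw [← hstep]
      exact Nat.mul_le_mul_left w (by omega)
    have a5 := hQ.path.tri (π (γ 0)) (π (γ (t j))) (π (γ N))
    have a6 := hQ.path.symm (π (γ 0)) (π (γ (t j)))
    constructor <;> omega
  · intro j hj
    have a2 := pos j hj.le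
    have a3 := pos (j + 1) hj
    rw [hstep] at a3
    have a5 := hQ.path.tri (π (γ (t (j + 1)))) (π (γ (t j))) (π (γ 0))
    have a6 := hQ.path.symm (π (γ (t (j + 1)))) (π (γ (t j)))
    omega
  · intro g hg0 hg1 t' ht'
    rw [map_mul] at hg0 hg1
    have key : ∀ j ≤ J, d' (π (γ (t' j))) (π (γ 0)) ≤ d' (π (γ (t j))) (π (γ 0)) +
        (3 * L' + 16 * 2000 + 301) ∧ d' (π (γ (t j))) (π (γ 0)) ≤ d' (π (γ (t' j))) (π (γ 0)) +
        (3 * L' + 16 * 2000 + 301) := by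
      intro j hj
      obtain ⟨h1, h2⟩ := ht' j hj
      have h3 := q_near hQ (x := γ (t j)) (y := g * γ (t' j)) (by omega)
      rw [map_mul] at h3
      obtain ⟨s, hs, hd⟩ := E1 _ h1
      have h4 := disp_geo (L' := L') hG' hβ (π g) (by rw [hβ0]; exact hg0) (by rw [hβ1]; exact hg1) hs
      have h5 := hG'.inv (π g) (β s) (π (γ (t' j)))
      have h6 := hQ.path.tri (π (γ (t j))) (π g * π (γ (t' j))) (π (γ (t' j)))
      have h7 := hQ.path.tri (π g * π (γ (t' j))) (π g * β s) (π (γ (t' j)))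
      have h8 := hQ.path.tri (π g * β s) (β s) (π (γ (t' j)))
      have h9 := hQ.path.symm (π g * π (γ (t' j))) (π g * β s)
      have h10 := hQ.path.symm (π g * β s) (β s)
      have h11 : d' (π (γ (t j))) (π (γ (t' j))) ≤ 3 * L' + 16 * 2000 + 301 := by omega
      have h12 := hQ.path.tri (π (γ (t j))) (π (γ (t' j))) (π (γ 0))
      have h13 := hQ.path.tri (π (γ (t' j))) (π (γ (t j))) (π (γ 0))
      have h14 := hQ.path.symm (π (γ (t j))) (π (γ (t' j)))
      constructor <;> omega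
    constructor
    · intro j hj
      by_contra hcon
      have a1 := mono (t (j + 1)) (t' j) (not_lt.1 hcon) (ht' j hj.le).1
      have a2 := pos j hj.le
      have a3 := pos (j + 1) hj
      have a4 := key j hj.le
      rw [hstep] at a3
      omega
    · intro j hj
      by_contra hcon
      have a1 := mono (t' (j + 1)) (t j) (not_lt.1 hcon) (ht j hj.le).1
      have a2 := pos j hj.le
      have a3 := pos (j + 1) hj
      have a4 := key (j + 1) hj
      rw [hstep] at a3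
      omega

/-- (G4) the displacement of a coherent lift at the ends of the window -/
theorem window_disp (hG : HypG d δ) {N J : ℕ} {t : ℕ → ℕ} {κ : ℕ → G} (hκ : IsGeo d N κ)
    (htN : ∀ j ≤ J, t j ≤ N) (hmono : ∀ j < J, t j < t (j + 1)) {g : G}
    {t' : ℕ → ℕ} (ht' : ∀ j ≤ J, t' j ≤ N ∧ d (κ (t j)) (g * κ (t' j)) ≤ 24 * δ)
    (h1 : ∀ j < J, t' j < t (j + 1)) (h2 : ∀ j < J, t j < t' (j + 1)) {i : ℕ} (hi : 1 ≤ i)
    (hiJ : 2 * i + 3 ≤ J) :
    d (κ (t 0)) (g * κ (t 0)) ≤ t (2 * i + 2) - t (2 * i) + 72 * δ ∧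
      d (κ (t J)) (g * κ (t J)) ≤ t (2 * i + 2) - t (2 * i) + 72 * δ := by
  have hm : ∀ l, l ≤ J → ∀ j ≤ l, t j ≤ t l := by
    intro l
    induction l with
    | zero => intro _ j hj; rw [Nat.le_zero.1 hj]
    | succ l ih =>
      intro hl j hj
      rcases Nat.lt_or_ge j (l + 1) with h | h
      · exact (ih (by omega) j (by omega)).trans (hmono l (by omega)).le
      · rw [le_antisymm hj h]
  have habs : ∀ a b, a ≤ N → b ≤ N → d (κ a) (κ b) = ((b : ℤ) - a).natAbs := by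
    intro a b ha hb
    rcases le_total a b with h | h
    · have := hκ a b h hb
      omega
    · have := hκ b a h ha
      have := hG.path.symm (κ a) (κ b)
      omega
  have he : ∀ j l, j ≤ l → l ≤ J → ((t' l : ℤ) - t' j).natAbs ≤ (t l - t j) + 48 * δ ∧
      t l - t j ≤ ((t' l : ℤ) - t' j).natAbs + 48 * δ := by
    intro j l hjl hl
    have a1 := ht' j (hjl.trans hl)
    have a2 := ht' l hl
    have a3 := habs _ _ a1.1 a2.1
    have a4 := hκ (t j) (t l) (hm l hl j hjl) (htN l hl)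
    have a5 := hG.inv g (κ (t' j)) (κ (t' l))
    have a6 := hG.path.tri (g * κ (t' j)) (κ (t j)) (g * κ (t' l))
    have a7 := hG.path.tri (κ (t j)) (κ (t l)) (g * κ (t' l))
    have a8 := hG.path.symm (g * κ (t' j)) (κ (t j))
    have a9 := hG.path.tri (κ (t j)) (g * κ (t' j)) (κ (t l))
    have a10 := hG.path.tri (g * κ (t' j)) (g * κ (t' l)) (κ (t l))
    have a11 := hG.path.symm (g * κ (t' l)) (κ (t l))
    constructor <;> omega
  obtain ⟨s1, s2⟩ := shift_comb hmono h1 h2 he hi hiJ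
  constructor
  · have a1 := ht' 0 (Nat.zero_le _)
    have a2 := habs _ _ a1.1 (htN 0 (Nat.zero_le _))
    have a3 := hG.inv g (κ (t' 0)) (κ (t 0))
    have a4 := hG.path.tri (κ (t 0)) (g * κ (t' 0)) (g * κ (t 0))
    omega
  · have a1 := ht' J le_rfl
    have a2 := habs _ _ a1.1 (htN J le_rfl)
    have a3 := hG.inv g (κ (t' J)) (κ (t J))
    have a4 := hG.path.tri (κ (t J)) (g * κ (t' J)) (g * κ (t J))
    omega

end win

end Pool.Agent.Helper74.TB
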