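import Pool.Agent.Helper74.TB.G0
import Pool.Agent.Helper74.TB.G4
import Pool.Agent.Helper74.TB.HL2

/-! MP_7d16da_al, Part G, section G5: torsion, and acylindricity of the quotient. -/

set_option autoImplicit false

namespace Pool.Agent.Helper74.TB

open Pool.Agent.Helper74.MH

section core

variable {G : Type*} [Group G] {d : G → G → ℕ} {δ C Δ : ℕ} {X F : Set G} {Tm : ℝ}

/-- translating a long overlap with the axis of `g` into the window, oriented form -/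
theorem transl_core (hG : HypG d δ) {H : Hubs d X C} (hδC : 100 * δ ≤ C) (hF : Fam H F Δ Tm)
    {f g : G} (hf : f ∈ F) (hg : g ∈ X) {u' v' : G} (hu' : u' ∈ H.Z g) (hv' : v' ∈ H.Z g)
    {D1 E : ℝ} (hD1 : (d u' v' : ℝ) ≤ D1) (hE : H.T g + D1 ≤ E) {za z0 zb : G}
    (hza : za ∈ H.Z g) (hz0 : z0 ∈ H.Z g) (hzb : zb ∈ H.Z g) (h1 : E ≤ H.Φ g za z0)
    (h2 : E ≤ H.Φ g z0 zb) : ∃ j : ℤ, |H.Φ f u' v'| ≤
      |H.Φ (g ^ j * f * (g ^ j)⁻¹) za zb| + 15 * C := by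
  have hC1 : (1 : ℝ) ≤ C := by exact_mod_cast hF.hC1
  have hfX := hF.sub hf
  have hT := H.Tbig g hg
  have hTpos : 0 < H.T g := by linarith
  have hd0 : (0 : ℝ) ≤ d u' v' := Nat.cast_nonneg _
  -- the power
  obtain ⟨j, hj1, hj2⟩ : ∃ j : ℤ, 0 ≤ H.Φ g z0 u' + j * H.T g ∧
      H.Φ g z0 u' + j * H.T g ≤ H.T g := by
    refine ⟨-⌊H.Φ g z0 u' / H.T g⌋, ?_, ?_⟩
    · have := Int.floor_le (H.Φ g z0 u' / H.T g)
      rw [le_div_iff₀ hTpos] at this
      push_cast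
      linarith
    · have := (Int.lt_floor_add_one (H.Φ g z0 u' / H.T g)).le
      rw [div_le_iff₀ hTpos] at this
      push_cast
      linarith
  refine ⟨j, ?_⟩
  have hsh : H.Φ g z0 (g ^ j * u') = H.Φ g z0 u' + j * H.T g := by
    have e1 := H.coc g hg z0 u' (g ^ j * u')
    have e2 := hl_zpow H hg u' j
    linarith
  obtain ⟨a, ha⟩ : ∃ a, a = g ^ (-j) * za := ⟨_, rfl⟩
  obtain ⟨c, hc⟩ : ∃ c, c = g ^ (-j) * zb := ⟨_, rfl⟩
  have haZ : a ∈ H.Z g := by rw [ha]; exact (hl_Zpow H hg za (-j)).2 hza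
  have hcZ : c ∈ H.Z g := by rw [hc]; exact (hl_Zpow H hg zb (-j)).2 hzb
  have hga : g ^ j * a = za := by rw [ha, ← mul_assoc, ← zpow_add, add_neg_cancel, zpow_zero, one_mul]
  have hgc : g ^ j * c = zb := by rw [hc, ← mul_assoc, ← zpow_add, add_neg_cancel, zpow_zero, one_mul]
  have p1 := hl_inv H hg a u' j
  have p2 := hl_inv H hg u' c j
  rw [hga] at p1
  rw [hgc] at p2
  have p3 := H.coc g hg za z0 (g ^ j * u')
  have p4 := H.coc g hg (g ^ j * u') z0 zb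
  have p5 := hl_symm H hg z0 (g ^ j * u')
  have p6 := H.coc g hg a u' v'
  have p7 := H.coc g hg u' v' c
  have p8 := H.lip g hg u' v'
  rw [abs_le] at p8
  have q1 : 0 ≤ H.Φ g a u' := by linarith
  have q2 : 0 ≤ H.Φ g u' c := by linarith
  have q3 : 0 ≤ H.Φ g a v' := by linarith [p8.1]
  have q4 : 0 ≤ H.Φ g v' c := by linarith [p8.2]
  obtain ⟨η, hη0, hη1, hη⟩ := exists_geo hG.path a c
  obtain ⟨s1, hs1, hd1⟩ := axis_near hG H hg haZ hu' hcZ q1 q2 hη (r := 0)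
    (by rw [hη0]; exact le_of_eq (hb_self hG _)) (by rw [hη1]; exact le_of_eq (hb_self hG _))
  obtain ⟨s2, hs2, hd2⟩ := axis_near hG H hg haZ hv' hcZ q3 q4 hη (r := 0)
    (by rw [hη0]; exact le_of_eq (hb_self hG _)) (by rw [hη1]; exact le_of_eq (hb_self hG _))
  have r1 := hl_sub_abs hG H hδC hfX hη hs1 hs2
  have r2 := hl_lip2 hG H hfX u' v' (η s1) (η s2)
  have r3 := abs_sub_abs_le_abs_sub (H.Φ f u' v') (H.Φ f (η s1) (η s2))
  have r4 : (d u' (η s1) : ℝ) ≤ 3 * C := by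
    have := hG.path.symm u' (η s1)
    exact_mod_cast (by omega : d u' (η s1) ≤ 3 * C)
  have r5 : (d v' (η s2) : ℝ) ≤ 3 * C := by
    have := hG.path.symm v' (η s2)
    exact_mod_cast (by omega : d v' (η s2) ≤ 3 * C)
  have r6 := H.equi f hfX (g ^ j) a c
  rw [hga, hgc] at r6
  rw [hη0, hη1] at r1
  have r7 := abs_sub_abs_le_abs_sub (H.Φ f a c) (H.Φ (g ^ j * f * (g ^ j)⁻¹) za zb)
  rw [abs_sub_comm] at r7
  linarith

/-- the same for three points of a geodesic near the axis -/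
theorem transl (hG : HypG d δ) {H : Hubs d X C} (hδC : 100 * δ ≤ C) (hF : Fam H F Δ Tm)
    {f g : G} (hf : f ∈ F) (hg : g ∈ X) {u' v' : G} (hu' : u' ∈ H.Z g) (hv' : v' ∈ H.Z g)
    {D1 : ℝ} (hD1 : (d u' v' : ℝ) ≤ D1) {N : ℕ} {γ : ℕ → G} (hγ : IsGeo d N γ) {ia i0 ib : ℕ}
    (h1 : H.T g + D1 + 60 * C ≤ ((i0 - ia : ℕ) : ℝ)) (h2 : H.T g + D1 + 60 * C ≤ ((ib - i0 : ℕ) : ℝ))
    (h01 : ia ≤ i0) (h12 : i0 ≤ ib) (h3 : ib ≤ N) (ha : Nh d (12 * C) (H.Z g) (γ ia))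
    (h0 : Nh d (12 * C) (H.Z g) (γ i0)) (hb : Nh d (12 * C) (H.Z g) (γ ib)) :
    ∃ f' ∈ F, H.T f' = H.T f ∧ |H.Φ f u' v'| ≤ |H.Φ f' (γ 0) (γ N)| + 50 * C := by
  have hC1 : (1 : ℝ) ≤ C := by exact_mod_cast hF.hC1
  have hfX := hF.sub hf
  have hT := H.Tbig g hg
  have hd0 : (0 : ℝ) ≤ d u' v' := Nat.cast_nonneg _
  obtain ⟨za, hza, hda⟩ := ha
  obtain ⟨z0, hz0, hd0'⟩ := h0
  obtain ⟨zb, hzb, hdb⟩ := hb
  have g1 := hγ ia i0 h01 (h12.trans h3)
  have g2 := hγ i0 ib h12 h3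
  have on1 := H.on g hg za hza z0 hz0
  have on2 := H.on g hg z0 hz0 zb hzb
  have l1 : ((i0 - ia : ℕ) : ℝ) ≤ d za z0 + 24 * C := by
    have t1 := hG.path.tri (γ ia) za (γ i0)
    have t2 := hG.path.tri za z0 (γ i0)
    have t3 := hG.path.symm z0 (γ i0)
    exact_mod_cast (by omega : i0 - ia ≤ d za z0 + 24 * C)
  have l2 : ((ib - i0 : ℕ) : ℝ) ≤ d z0 zb + 24 * C := by
    have t1 := hG.path.tri (γ i0) z0 (γ ib)
    have t2 := hG.path.tri z0 zb (γ ib)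
    have t3 := hG.path.symm zb (γ ib)
    exact_mod_cast (by omega : ib - i0 ≤ d z0 zb + 24 * C)
  have m1 := hl_lip2 hG H hg (γ ia) (γ i0) za z0
  have m2 := hl_lip2 hG H hg (γ i0) (γ ib) z0 zb
  have ca : (d (γ ia) za : ℝ) ≤ 12 * C := by exact_mod_cast hda
  have c0 : (d (γ i0) z0 : ℝ) ≤ 12 * C := by exact_mod_cast hd0'
  have cb : (d (γ ib) zb : ℝ) ≤ 12 * C := by exact_mod_cast hdb
  have hbt := hb_btw hG hγ h01 h12 h3
  -- the final estimate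
  have fin : ∀ f' ∈ F, ∀ i j, i ≤ N → j ≤ N → ∀ z w, d (γ i) z ≤ 12 * C → d (γ j) w ≤ 12 * C →
      |H.Φ f' z w| ≤ |H.Φ f' (γ 0) (γ N)| + 32 * C := by
    intro f' hf' i j hi hj z w hz hw
    have e1 := hl_sub_abs hG H hδC (hF.sub hf') hγ hi hj
    have e2 := hl_lip2 hG H (hF.sub hf') z w (γ i) (γ j)
    have e3 := abs_sub_abs_le_abs_sub (H.Φ f' z w) (H.Φ f' (γ i) (γ j))
    have e4 : (d z (γ i) : ℝ) ≤ 12 * C := by
      rw [hG.path.symm]; exact_mod_cast hz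
    have e5 : (d w (γ j) : ℝ) ≤ 12 * C := by
      rw [hG.path.symm]; exact_mod_cast hw
    linarith
  have hconjF : ∀ j : ℤ, g ^ j * f * (g ^ j)⁻¹ ∈ F := fun j => hF.conj f hf _
  have hconjT : ∀ j : ℤ, H.T (g ^ j * f * (g ^ j)⁻¹) = H.T f := fun j => H.Tconj f hfX _
  rw [abs_le] at m1 m2
  rcases le_total 0 (H.Φ g za z0) with hs | hs
  · -- positive orientation
    rw [abs_of_nonneg hs] at on1
    have s1 : 3 * (C : ℝ) < H.Φ g (γ ia) (γ i0) := by linarith [m1.1]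
    have s2 := hl_mono hG H hδC hg hbt s1
    have s3 : 0 ≤ H.Φ g z0 zb := by
      by_contra hneg
      push Not at hneg
      rw [abs_of_neg hneg] at on2
      linarith [m2.2]
    rw [abs_of_nonneg s3] at on2
    obtain ⟨j, hj⟩ := transl_core hG hδC hF hf hg hu' hv' hD1 (E := H.T g + D1) le_rfl hza hz0 hzb
      (by linarith) (by linarith)
    refine ⟨_, hconjF j, hconjT j, ?_⟩
    have := fin _ (hconjF j) ia ib (by omega) h3 za zb hda hdb
    linarith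
  · -- negative orientation
    rw [abs_of_nonpos hs] at on1
    have s3 : H.Φ g z0 zb ≤ 0 := by
      by_contra hneg
      push Not at hneg
      rw [abs_of_pos hneg] at on2
      have s1 : 3 * (C : ℝ) < H.Φ g (γ i0) (γ ib) := by linarith [m2.1]
      have s2 := hl_mono' hG H hδC hg hbt s1
      linarith [m1.2]
    rw [abs_of_nonpos s3] at on2
    have y1 := hl_symm H hg z0 zb
    have y2 := hl_symm H hg za z0
    obtain ⟨j, hj⟩ := transl_core hG hδC hF hf hg hu' hv' hD1 (E := H.T g + D1) le_rfl hzb hz0 hza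
      (by linarith) (by linarith)
    refine ⟨_, hconjF j, hconjT j, ?_⟩
    have := fin _ (hconjF j) ib ia h3 (by omega) zb za hdb hda
    linarith

end core

end Pool.Agent.Helper74.TB
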