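import Pool.Agent.Helper74.TB.G5

/-! MP_7d16da_al, Part G, section G6: assembly of `StG`. -/

set_option autoImplicit false

namespace Pool.Agent.Helper74.TB

open Pool.Agent.Helper74.MH

theorem hub_pow_ne {G : Type*} [Group G] {d : G → G → ℕ} {C : ℕ} {X : Set G} (H : Hubs d X C)
    (hC : 1 ≤ C) {f : G} (hf : f ∈ X) {n : ℕ} (hn : 1 ≤ n) : f ^ n ≠ 1 := by
  intro h
  have h1 := hl_zpow H hf 1 (n : ℤ)
  rw [zpow_natCast, h, mul_one, hl_refl H hf] at h1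
  have h2 := H.Tbig f hf
  have h3 : (1 : ℝ) ≤ C := by exact_mod_cast hC
  have h4 : (1 : ℝ) ≤ n := by exact_mod_cast hn
  push_cast at h1
  nlinarith

theorem rel_ninv {G : Type*} [Group G] {d : G → G → ℕ} {C n q L Ax Δ : ℕ} {F : Set G} {Tm : ℝ}
    {H : Hubs d (Lx d (100 * C)) C} (hA : Alg H n q L Ax) (hF : Fam H F Δ Tm) (hn : 1 ≤ n) :
    ∀ f ∈ F, ∀ g, g * f * g⁻¹ ≠ f⁻¹ := by
  intro f hf g h
  have hfX := hF.sub hf
  have h1 := hA.ninv f g 1 (-1) (hub_pow_ne H hF.hC1 hfX hn) one_ne_zero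
    (by rw [zpow_one, zpow_neg_one]; exact h)
  have h2 : g * f * g⁻¹ = f := by rw [h1.eq, mul_inv_cancel_right]
  rw [h2] at h
  have h3 : f ^ 2 = 1 := by rw [pow_two]; nth_rewrite 1 [h]; exact inv_mul_cancel f
  exact hub_pow_ne H hF.hC1 hfX (by norm_num) h3

section main

variable {G G' : Type} [Group G] [Group G'] {d : G → G → ℕ} {d' : G' → G' → ℕ}
  {C Δ R : ℕ} {X F : Set G} {Tm : ℝ} {H : Hubs d X C} {π : G →* G'}

theorem countB_of (hCount : StCount) {M1' : ℕ}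
    (hM : ∀ (G G' : Type) [Group G] [Group G'] (d : G → G → ℕ) (d' : G' → G' → ℕ)
    (δ C Δ R : ℕ) (X F : Set G) (H : Hubs d X C) (c Tm : ℝ) (π : G →* G'), HypG d δ →
    Fam H F Δ Tm → Cst δ C Δ R c Tm → 200 * c ≤ Tm → Quo H F R π d' → (M1' : ℝ) * R ≤ Tm →
    ∀ b : G → ℝ, Wt H F b → (∀ f ∈ F, |b f - H.T f / 2| ≤ Tm / 10) →
      ∀ x y, Tight H F b c x y → ∀ m : ℕ, d' (π x) (π y) ≤ m → DE H F R (M1' * (m + 1)) x y)
    {δ : ℕ} (hG : HypG d δ) (hF : Fam H F Δ Tm) (hQ : Quo H F R π d')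
    (hcst : Cst δ C Δ R (10 * C) Tm) (h200 : 200 * (10 * (C : ℝ)) ≤ Tm)
    (hM1 : (M1' : ℝ) * R ≤ Tm) (D : ℕ) : CountB H F R π d' D (M1' * (D + 1)) := by
  intro x y hxy hD S hS hlong hinv
  have hTm : 0 ≤ Tm := by
    have h1 : (0 : ℝ) ≤ C := Nat.cast_nonneg C
    linarith
  have h1 := hM G G' d d' δ C Δ R X F H (10 * C) Tm π hG hF hcst h200 hQ hM1 _
    (g_wt_half hF hTm) (fun f _ => by
      simp only [sub_self, abs_zero]; linarith) x y hxy D hD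
  exact hCount G d δ C Δ R X F H (10 * C) Tm hG hF hcst _ x y h1 S hS
    (fun f hf => hlong f hf) hinv

/-- the window system -/
theorem window_system (hCC : StC) (hV : StV) (hE : StE) (hG : HypG d 2000)
    (hF : Fam H F Δ Tm) (hQ : Quo H F R π d') {L N0 : ℕ} (hL : 1000 * C ≤ L)
    (hcst : Cst 2000 C Δ R (100 * Δ) Tm) (hcount : CountB H F R π d' (10 ^ 6 * L) N0)
    (hT0 : 100 * ((N0 : ℝ) + 1) ^ 2 * R ≤ Tm)
    (hninv : ∀ f ∈ F, ∀ g, g * f * g⁻¹ ≠ f⁻¹) {p p' : G'} (hpp : 10 ^ 6 * L ≤ d' p p') :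
    ∃ (N W : ℕ) (γ : ℕ → G) (t : ℕ → ℕ), IsGeo d N γ ∧
      (∀ f ∈ F, |H.Φ f (γ 0) (γ N)| ≤ H.T f / 2 + Tm / 10 + C) ∧
      (∀ j ≤ 2000, t j ≤ N) ∧ (∀ j < 2000, t j < t (j + 1)) ∧
      (∀ j < 2000, 2 ≤ d' (π (γ (t j))) (π (γ (t (j + 1))))) ∧ R < W ∧
      (∀ i, 1 ≤ i → i ≤ 998 → W ≤ t (2 * i + 2) - t (2 * i)) ∧
      ∀ g : G', d' p (g * p) ≤ L → d' p' (g * p') ≤ L → ∃ g₁ : G, π g₁ = g ∧
        d (γ (t 0)) (g₁ * γ (t 0)) ≤ W + 72 * 2000 ∧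
        d (γ (t 2000)) (g₁ * γ (t 2000)) ≤ W + 72 * 2000 := by
  classical
  have hC1 : (1 : ℝ) ≤ C := by exact_mod_cast hF.hC1
  have hCΔ : 1000 * (C : ℝ) ≤ Δ := by exact_mod_cast hF.hC
  have hΔR : 1000 * (Δ : ℝ) ≤ R := by exact_mod_cast hcst.hR
  have hC2 : 100 * 2000 ≤ C := hcst.hC
  have hN00 : (0 : ℝ) ≤ N0 := Nat.cast_nonneg N0
  have hR0 : (0 : ℝ) ≤ R := Nat.cast_nonneg R
  -- products
  obtain ⟨P, hP⟩ : ∃ P : ℝ, P = ((N0 : ℝ) + 1) ^ 2 * R := ⟨_, rfl⟩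
  have hPT : 100 * P ≤ Tm := by rw [hP]; linarith
  have hP1 : ((N0 : ℝ) + 1) * R ≤ P := by
    rw [hP, sq, mul_assoc]
    exact le_mul_of_one_le_left (by positivity) (by linarith)
  have hP2 : (R : ℝ) ≤ P := le_trans (le_mul_of_one_le_left hR0 (by linarith)) hP1
  have hPΔ : 1000 * (((N0 : ℝ) + 1) ^ 2 * Δ) ≤ P := by
    rw [hP]
    have : 0 ≤ ((N0 : ℝ) + 1) ^ 2 := by positivity
    nlinarith
  have hPΔ1 : 1000 * (((N0 : ℝ) + 1) * Δ) ≤ P := by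
    have : ((N0 : ℝ) + 1) * (1000 * Δ) ≤ ((N0 : ℝ) + 1) * R :=
      mul_le_mul_of_nonneg_left hΔR (by positivity)
    nlinarith
  have hNΔ : (Δ : ℝ) ≤ ((N0 : ℝ) + 1) * Δ := by nlinarith [(Nat.cast_nonneg Δ : (0:ℝ) ≤ Δ)]
  have hNΔ2 : ((N0 : ℝ) + 1) * Δ ≤ ((N0 : ℝ) + 1) ^ 2 * Δ := by
    nlinarith [(Nat.cast_nonneg Δ : (0:ℝ) ≤ Δ), mul_nonneg hN00 (Nat.cast_nonneg Δ : (0:ℝ) ≤ Δ)]
  obtain ⟨Fp, hFp⟩ := exists_half F hninv
  -- the far point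
  have hcst0 : Cst 2000 C Δ R 0 Tm := cst_mono hcst le_rfl (by linarith [hcst.hc])
  obtain ⟨hG', _⟩ := hE G G' d d' 2000 C Δ R X F H 0 Tm π hG hF hcst0 hQ
  obtain ⟨β, hβ0, hβ1, hβ⟩ := exists_geo hQ.path p p'
  obtain ⟨p2, hp2⟩ : ∃ p2, p2 = β (10 ^ 6 * L) := ⟨_, rfl⟩
  have hpp2 : d' p p2 = 10 ^ 6 * L := by
    have := hβ 0 _ (Nat.zero_le _) hpp
    rw [hβ0, ← hp2] at this
    omega
  obtain ⟨x1, hx1⟩ := hQ.surj p
  -- the tight lift with margin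
  obtain ⟨mg, hmg⟩ : ∃ mg : ℝ, mg = 100 * (((N0 : ℝ) + 1) * Δ) := ⟨_, rfl⟩
  have hmgN : (2 * (N0 : ℝ) + 1) * mg ≤ 200 * (((N0 : ℝ) + 1) ^ 2 * Δ) := by
    rw [hmg]
    nlinarith [mul_nonneg (show (0 : ℝ) ≤ N0 + 1 by positivity)
      (Nat.cast_nonneg Δ : (0:ℝ) ≤ Δ)]
  obtain ⟨θ, hθ1, hθ2, x2, hx2, hmar⟩ := margin_lift hG hF hQ hFp hcount (mg := mg)
    (by rw [hmg]; nlinarith) (by rw [hmg] at hmgN ⊢; nlinarith) x1 p2
    (by rw [hx1, hpp2])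
  have hθT : θ ≤ Tm / 10 := by nlinarith
  have hθ0 : 0 ≤ θ := by
    have : 0 ≤ mg := by rw [hmg]; positivity
    linarith
  have hb : Wt H F (bth H Fp θ) := bth_wt hF hFp hθ0 (by linarith)
  have hbT : ∀ f ∈ F, |bth H Fp θ f - H.T f / 2| ≤ Tm / 10 := fun f _ =>
    (bth_abs H Fp hθ0 f).trans hθT
  obtain ⟨m1, hm1⟩ : ∃ m1 : ℝ, m1 = mg - 5 * Δ * N0 - C := ⟨_, rfl⟩
  rw [← hm1] at hmar
  have hm10 : 0 ≤ m1 := by rw [hm1, hmg]; nlinarith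
  obtain ⟨γ, hγ0, hγ1, hγ⟩ := exists_geo hG.path x1 x2
  obtain ⟨N, hN⟩ : ∃ N, N = d x1 x2 := ⟨_, rfl⟩
  rw [← hN] at hγ1 hγ
  have hTight : Tight H F (bth H Fp θ) 0 (γ 0) (γ N) := by
    intro f hf
    rw [hγ0, hγ1]
    exact (hmar f hf).trans (by linarith)
  have hcst6 : Cst 2000 C Δ R (0 + 6 * C) Tm := cst_mono hcst (by linarith) (by linarith)
  have hLbig : 2 * 10 ^ 8 ≤ L := by omega
  have hwin2 : 100 * L * (2000 + 2) ≤ d' (π (γ 0)) (π (γ N)) := by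
    rw [hγ0, hγ1, hx1, hx2, hpp2]
    calc 100 * L * (2000 + 2) = 200200 * L := by ring
      _ ≤ 10 ^ 6 * L := Nat.mul_le_mul_right L (by norm_num)
  obtain ⟨t, ht1, ht2, ht3, ht4, ht5⟩ := windows hE hG hF le_rfl hcst6 hQ hb hbT hγ hTight
    (L' := 10 * L) (w := 100 * L) (J := 2000) (by omega) (by exact hwin2)
  -- the shortest window
  obtain ⟨i0, hi0, hmin⟩ := Finset.exists_min_image (Finset.Icc 1 998)
    (fun i => t (2 * i + 2) - t (2 * i)) ⟨1, by simp⟩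
  rw [Finset.mem_Icc] at hi0
  refine ⟨N, t (2 * i0 + 2) - t (2 * i0), γ, t, hγ, ?_, ht1, ht2, ht4, ?_, ?_, ?_⟩
  · intro f hf
    have a1 := hTight f hf
    have a2 := tight_lower hF hTight hf
    have a3 := abs_le.1 (hbT f hf)
    have a4 := abs_le.1 (hbT _ (hF.inv f hf))
    rw [H.Tinv f (hF.sub hf)] at a4
    rw [abs_le]
    constructor <;> linarith [a3.1, a3.2, a4.1, a4.2]
  · by_contra hcon
    push Not at hcon
    have a1 := ht2 (2 * i0) (by omega)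
    have a2 := ht2 (2 * i0 + 1) (by omega)
    have e1 : 2 * i0 + 1 + 1 = 2 * i0 + 2 := by ring
    rw [e1] at a2
    have a3 := hγ (t (2 * i0)) (t (2 * i0 + 1)) a1.le (ht1 _ (by omega))
    have a4 := ht4 (2 * i0) (by omega)
    have a5 := q_near hQ (x := γ (t (2 * i0))) (y := γ (t (2 * i0 + 1))) (by omega)
    omega
  · intro i h1 h2
    exact hmin i (Finset.mem_Icc.2 ⟨h1, h2⟩)
  · intro g hg1 hg2
    obtain ⟨g0, hg0⟩ := hQ.surj g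
    have hgp2 : d' p2 (g * p2) ≤ 10 * L := by
      have := disp_geo (L' := L) hG' hβ g (by rw [hβ0]; exact hg1) (by rw [hβ1]; exact hg2) hpp
      rw [← hp2] at this
      omega
    have hdisp0 : d' (π (γ 0)) (π (g0 * γ 0)) ≤ 10 * L := by
      rw [map_mul, hg0, hγ0, hx1]; omega
    have hdisp1 : d' (π (γ N)) (π (g0 * γ N)) ≤ 10 * L := by
      rw [map_mul, hg0, hγ1, hx2]; exact hgp2
    have hcst3 : Cst 2000 C Δ R (5 * Δ * N0 + C + 3 * Δ) Tm := by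
      refine ⟨hcst.hδ, hcst.hC, hcst.hΔ, hcst.hR, by positivity, ?_, hcst.hT⟩
      nlinarith
    obtain ⟨k, hk, hcoh⟩ := coh hCC hV hE hG hF hcst3
      (by nlinarith [mul_nonneg (Nat.cast_nonneg Δ : (0:ℝ) ≤ Δ) hN00]) hQ hb hbT (L' := 10 * L)
      (fun x b' hxb => tight_lift hG hF hQ hFp hcount (θ := θ) (by
          have : 0 ≤ mg := by rw [hmg]; positivity
          linarith) (by nlinarith) x b' (hxb.trans (by omega)))
      hγ (m1 := m1) (by rw [hm1, hmg]; nlinarith) (by rw [hγ0, hγ1]; exact hmar) g0 hdisp0 hdisp1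
    have hπk : π (k * g0) = g := by rw [map_mul, (hQ.ker k).2 hk, one_mul, hg0]
    have htt : ∀ j : ℕ, ∃ t' : ℕ, j ≤ 2000 → t' ≤ N ∧
        d (γ (t j)) (k * g0 * γ t') ≤ 24 * 2000 := by
      intro j
      by_cases hj : j ≤ 2000
      · obtain ⟨a1, a2⟩ := ht3 j hj
        obtain ⟨t', h1, h2⟩ := hcoh (t j) (ht1 j hj) a1 a2
        exact ⟨t', fun _ => ⟨h1, h2⟩⟩
      · exact ⟨0, fun h => absurd h hj⟩
    choose t' ht' using htt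
    obtain ⟨b1, b2⟩ := ht5 (k * g0) (by rw [map_mul, hπk, hγ0, hx1]; omega)
      (by rw [map_mul, hπk, hγ1, hx2]; exact hgp2) t' ht'
    obtain ⟨c1, c2⟩ := window_disp hG hγ ht1 ht2 ht' b1 b2 hi0.1 (by omega)
    exact ⟨k * g0, hπk, c1, c2⟩

end main

end Pool.Agent.Helper74.TB
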