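import Pool.Agent.Helper74.TB.Defs

/-!
MP_7d16da_al: basic hyperbolic geometry (module HB).  See /team-store/MP_7d16da-plan.md.
-/

set_option autoImplicit false

namespace Pool.Agent.Helper74.TB

open Pool.Agent.Helper74.MH

variable {G : Type*} [Group G] {d : G → G → ℕ} {δ : ℕ}

/-- the four point condition as a disjunction -/
theorem hb_four (hG : HypG d δ) (x y z w : G) :
    d x z + d y w ≤ d x y + d z w + 2 * δ ∨ d x z + d y w ≤ d x w + d y z + 2 * δ := by
  have h := hG.four x y z w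
  rcases le_total (d x y + d z w) (d x w + d y z) with h1 | h1
  · right; rw [max_eq_right h1] at h; exact h
  · left; rw [max_eq_left h1] at h; exact h

theorem hb_self (hG : HypG d δ) (x : G) : d x x = 0 := (hG.path.zero_iff x x).2 rfl

/-- (HB4) translates and pieces of geodesics. -/
theorem hb_smul (hG : HypG d δ) {N : ℕ} {γ : ℕ → G} (hγ : IsGeo d N γ) (g : G) :
    IsGeo d N (fun t => g * γ t) := by
  intro i j hij hj
  change d (g * γ i) (g * γ j) + i = j
  rw [hG.inv]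
  exact hγ i j hij hj

theorem hb_sub (hG : HypG d δ) {N : ℕ} {γ : ℕ → G} (hγ : IsGeo d N γ) {i j : ℕ} (hij : i ≤ j)
    (hj : j ≤ N) : IsGeo d (j - i) (fun t => γ (i + t)) := by
  have _ := hG
  intro a b hab hb
  change d (γ (i + a)) (γ (i + b)) + a = b
  have := hγ (i + a) (i + b) (by omega) (by omega)
  omega

theorem hb_rev (hG : HypG d δ) {N : ℕ} {γ : ℕ → G} (hγ : IsGeo d N γ) :
    IsGeo d N (fun t => γ (N - t)) := by
  intro a b hab hb
  change d (γ (N - a)) (γ (N - b)) + a = b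
  have h1 := hγ (N - b) (N - a) (by omega) (by omega)
  have h2 := hG.path.symm (γ (N - a)) (γ (N - b))
  omega

theorem hb_btw (hG : HypG d δ) {N : ℕ} {γ : ℕ → G} (hγ : IsGeo d N γ) {i j k : ℕ} (hij : i ≤ j)
    (hjk : j ≤ k) (hk : k ≤ N) : d (γ i) (γ j) + d (γ j) (γ k) = d (γ i) (γ k) := by
  have _ := hG
  have h1 := hγ i j hij (by omega)
  have h2 := hγ j k hjk hk
  have h3 := hγ i k (by omega) hk
  omega

/-- (HB1) a point which is `e`-between the ends of a geodesic is close to the geodesic. -/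
theorem hb_pt (hG : HypG d δ) {N : ℕ} {γ : ℕ → G} (hγ : IsGeo d N γ) {z : G} {e : ℕ}
    (hz : d (γ 0) z + d z (γ N) ≤ N + e) :
    d (γ (min (d (γ 0) z) N)) z ≤ e + 2 * δ := by
  have h1 := hγ 0 N (Nat.zero_le _) le_rfl
  rcases le_total (d (γ 0) z) N with h | h
  · rw [min_eq_left h]
    have h2 := hγ 0 (d (γ 0) z) (Nat.zero_le _) h
    have h3 := hγ (d (γ 0) z) N h le_rfl
    have h4 := hb_four hG (γ 0) (γ (d (γ 0) z)) (γ N) z
    have h5 := hG.path.symm (γ N) z
    omega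
  · rw [min_eq_right h]
    have h5 := hG.path.symm (γ N) z
    omega

/-- (HB1') the same counted from the other end. -/
theorem hb_pt' (hG : HypG d δ) {N : ℕ} {γ : ℕ → G} (hγ : IsGeo d N γ) {z : G} {e : ℕ}
    (hz : d (γ 0) z + d z (γ N) ≤ N + e) :
    d (γ (N - min (d z (γ N)) N)) z ≤ e + 2 * δ := by
  have h := hb_pt hG (hb_rev hG hγ) (z := z) (e := e) (by
    simp only [Nat.sub_zero, Nat.sub_self]
    have h1 := hG.path.symm (γ N) z
    have h2 := hG.path.symm (γ 0) z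
    omega)
  simp only [Nat.sub_zero] at h
  rw [hG.path.symm z (γ N)]
  exact h

/-- (A1) distance to a point between two points. -/
theorem hb_btw_le (hG : HypG d δ) {x p y : G} (hp : d x p + d p y = d x y) (z : G) :
    d z p + d x p ≤ d z x + 2 * δ ∨ d z p + d p y ≤ d z y + 2 * δ := by
  have h := hb_four hG x p y z
  have h1 := hG.path.symm p z
  have h2 := hG.path.symm x z
  have h3 := hG.path.symm y z
  omega

/-- (HB2) thin triangles. -/
theorem hb_tri (hG : HypG d δ) {N N1 N2 : ℕ} {γ γ1 γ2 : ℕ → G} (hγ : IsGeo d N γ)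
    (h1 : IsGeo d N1 γ1) (h2 : IsGeo d N2 γ2) (e0 : γ 0 = γ1 0) (e1 : γ1 N1 = γ2 0)
    (e2 : γ N = γ2 N2) {t : ℕ} (ht : t ≤ N) :
    (∃ s ≤ N1, d (γ t) (γ1 s) ≤ 4 * δ) ∨ ∃ s ≤ N2, d (γ t) (γ2 s) ≤ 4 * δ := by
  have a1 := hγ 0 N (Nat.zero_le _) le_rfl
  have a2 := h1 0 N1 (Nat.zero_le _) le_rfl
  have a3 := h2 0 N2 (Nat.zero_le _) le_rfl
  have a4 := hγ 0 t (Nat.zero_le _) ht
  have a5 := hγ t N ht le_rfl
  rw [← e1] at a3
  rw [← e2] at a3
  rw [← e0] at a2
  have t1 := hG.path.tri (γ 0) (γ1 N1) (γ N)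
  have t2 := hG.path.tri (γ 0) (γ N) (γ1 N1)
  have t3 := hG.path.tri (γ1 N1) (γ 0) (γ N)
  have s1 := hG.path.symm (γ1 N1) (γ N)
  have s2 := hG.path.symm (γ1 N1) (γ 0)
  have s3 := hG.path.symm (γ t) (γ1 N1)
  have k1 := hb_four hG (γ 0) (γ t) (γ N) (γ1 N1)
  by_cases hc : 2 * t + N2 ≤ N + N1
  · left
    have htN : t ≤ N1 := by omega
    refine ⟨t, htN, ?_⟩
    have b1 := h1 0 t (Nat.zero_le _) htN
    have b2 := h1 t N1 htN le_rfl
    rw [← e0] at b1
    have k2 := hb_four hG (γ 0) (γ1 t) (γ1 N1) (γ t)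
    have s4 := hG.path.symm (γ1 N1) (γ t)
    have s5 := hG.path.symm (γ1 t) (γ t)
    omega
  · right
    have htN : N - t ≤ N2 := by omega
    refine ⟨N2 - (N - t), by omega, ?_⟩
    have b1 := h2 0 (N2 - (N - t)) (Nat.zero_le _) (by omega)
    have b2 := h2 (N2 - (N - t)) N2 (by omega) le_rfl
    rw [← e1] at b1
    rw [← e2] at b2
    have k2 := hb_four hG (γ1 N1) (γ2 (N2 - (N - t))) (γ N) (γ t)
    have s4 := hG.path.symm (γ N) (γ t)
    have s5 := hG.path.symm (γ2 (N2 - (N - t))) (γ t)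
    have s6 := hG.path.symm (γ1 N1) (γ t)
    omega

/-- (HB3) thin quadrilaterals. -/
theorem hb_quad (hG : HypG d δ) {N N1 N2 N3 : ℕ} {γ γ1 γ2 γ3 : ℕ → G} (hγ : IsGeo d N γ)
    (h1 : IsGeo d N1 γ1) (h2 : IsGeo d N2 γ2) (h3 : IsGeo d N3 γ3) (e0 : γ 0 = γ1 0)
    (e1 : γ1 N1 = γ2 0) (e2 : γ2 N2 = γ3 0) (e3 : γ N = γ3 N3) {t : ℕ} (ht : t ≤ N) :
    (∃ s ≤ N1, d (γ t) (γ1 s) ≤ 8 * δ) ∨ (∃ s ≤ N2, d (γ t) (γ2 s) ≤ 8 * δ) ∨
      ∃ s ≤ N3, d (γ t) (γ3 s) ≤ 8 * δ := by
  obtain ⟨η, hη0, hη1, hη⟩ := exists_geo hG.path (γ 0) (γ2 N2)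
  rcases hb_tri hG hγ hη h3 hη0.symm (hη1.trans e2) e3 ht with ⟨s, hs, hd⟩ | ⟨s, hs, hd⟩
  · rcases hb_tri hG hη h1 h2 (hη0.trans e0) e1 hη1 hs with ⟨s', hs', hd'⟩ | ⟨s', hs', hd'⟩
    · left
      refine ⟨s', hs', ?_⟩
      have := hG.path.tri (γ t) (η s) (γ1 s')
      omega
    · right; left
      refine ⟨s', hs', ?_⟩
      have := hG.path.tri (γ t) (η s) (γ2 s')
      omega
  · right; right
    exact ⟨s, hs, by omega⟩

/-- (HB5) a geodesic whose ends are close to a geodesic quadrilateral with short sides. -/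
theorem hb_ft (hG : HypG d δ) {N N' r : ℕ} {γ γ' : ℕ → G} (hγ : IsGeo d N γ)
    (h' : IsGeo d N' γ') (e0 : d (γ 0) (γ' 0) ≤ r) (e1 : d (γ N) (γ' N') ≤ r) {t : ℕ}
    (ht : t ≤ N) : ∃ s ≤ N', d (γ t) (γ' s) ≤ r + 8 * δ := by
  obtain ⟨η, hη0, hη1, hη⟩ := exists_geo hG.path (γ 0) (γ' 0)
  obtain ⟨ζ, hζ0, hζ1, hζ⟩ := exists_geo hG.path (γ' N') (γ N)
  rcases hb_quad hG hγ hη h' hζ hη0.symm hη1 hζ0.symm hζ1.symm ht with
    ⟨s, hs, hd⟩ | ⟨s, hs, hd⟩ | ⟨s, hs, hd⟩
  · refine ⟨0, Nat.zero_le _, ?_⟩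
    have h1 := hη s _ hs le_rfl
    rw [hη1] at h1
    have := hG.path.tri (γ t) (η s) (γ' 0)
    omega
  · exact ⟨s, hs, by omega⟩
  · refine ⟨N', le_rfl, ?_⟩
    have h1 := hζ 0 s (Nat.zero_le _) hs
    rw [hζ0] at h1
    have h2 := hG.path.tri (γ t) (ζ s) (γ' N')
    have h3 := hG.path.symm (γ' N') (ζ s)
    have h4 := hG.path.symm (γ' N') (γ N)
    omega

/-- the nearest point of a geodesic is a coarse gate -/
theorem hb_gate (hG : HypG d δ) {N : ℕ} {γ : ℕ → G} (hγ : IsGeo d N γ) {a : G} {i t : ℕ}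
    (hi : i ≤ N) (ht : t ≤ N) (ha : ∀ t ≤ N, d a (γ i) ≤ d a (γ t)) :
    d a (γ i) + d (γ i) (γ t) ≤ d a (γ t) + 5 * δ := by
  have h1 := hG.one
  by_cases hs : d (γ i) (γ t) ≤ 2 * δ
  · have := ha t ht
    omega
  rcases le_total i t with hit | hit
  · have b1 := hγ i t hit ht
    have b2 := hb_btw_le hG (hb_btw hG hγ (i := i) (j := i + (2 * δ + 1)) (k := t) (by omega)
      (by omega) ht) a
    have b3 := ha (i + (2 * δ + 1)) (by omega)
    have b4 := hγ i (i + (2 * δ + 1)) (by omega) (by omega)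
    have b5 := hγ (i + (2 * δ + 1)) t (by omega) ht
    omega
  · have b1 := hγ t i hit hi
    have b0 := hG.path.symm (γ i) (γ t)
    have b2 := hb_btw_le hG (hb_btw hG hγ (i := t) (j := i - (2 * δ + 1)) (k := i) (by omega)
      (by omega) hi) a
    have b3 := ha (i - (2 * δ + 1)) (by omega)
    have b4 := hγ (i - (2 * δ + 1)) i (by omega) hi
    have b5 := hγ t (i - (2 * δ + 1)) (by omega) (by omega)
    omega

/-- (HB6) nearest point projection to a geodesic: either the projections are close or the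
geodesic between the points passes near both of them. -/
theorem hb_proj (hG : HypG d δ) {N : ℕ} {γ : ℕ → G} (hγ : IsGeo d N γ) {a b : G} {i j : ℕ}
    (hi : i ≤ N) (hj : j ≤ N) (ha : ∀ t ≤ N, d a (γ i) ≤ d a (γ t))
    (hb : ∀ t ≤ N, d b (γ j) ≤ d b (γ t)) :
    d (γ i) (γ j) ≤ 20 * δ ∨ d a (γ i) + d (γ i) (γ j) + d (γ j) b ≤ d a b + 20 * δ := by
  have h1 := hb_gate hG hγ hi hj ha
  have h2 := hb_gate hG hγ hj hi hb
  have h3 := hb_four hG a b (γ j) (γ i)
  have h4 := hG.path.symm (γ j) (γ i)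
  have h5 := hG.path.symm (γ j) b
  omega

/-- (HB7) local-to-global: a chain with small Gromov products and long steps is a
quasi-geodesic. (`a` bounds the doubled products.) -/
theorem hb_chain (hG : HypG d δ) {m a : ℕ} {x : ℕ → G}
    (hp : ∀ i, i + 2 ≤ m → d (x i) (x (i + 1)) + d (x (i + 1)) (x (i + 2)) ≤
      d (x i) (x (i + 2)) + a)
    (hs : ∀ i, i + 1 ≤ m → a + 10 * δ ≤ d (x i) (x (i + 1))) {i j k : ℕ} (hij : i ≤ j)
    (hjk : j ≤ k) (hk : k ≤ m) :
    d (x i) (x j) + d (x j) (x k) ≤ d (x i) (x k) + a + 4 * δ := by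
  have h1 := hG.one
  -- forward products
  have fw : ∀ n i : ℕ, i + n + 2 ≤ m →
      d (x i) (x (i + n + 1)) + d (x (i + n + 1)) (x (i + n + 2)) ≤
        d (x i) (x (i + n + 2)) + a + 2 * δ := by
    intro n
    induction n with
    | zero =>
      intro i hi
      have := hp i hi
      simp only [Nat.add_zero]
      omega
    | succ n ih =>
      intro i hi
      have c1 := ih i (by omega)
      have c2 := hs (i + n + 1) (by omega)
      have c3 := hp (i + n + 1) (by omega)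
      have c4 := hb_four hG (x i) (x (i + n + 1)) (x (i + n + 1 + 1)) (x (i + n + 1 + 2))
      have c5 := hG.path.symm (x (i + n + 1 + 1)) (x (i + n + 1 + 2))
      have e1 : i + (n + 1) + 1 = i + n + 1 + 1 := by ring
      have e2 : i + (n + 1) + 2 = i + n + 1 + 2 := by ring
      have e3 : i + n + 2 = i + n + 1 + 1 := by ring
      rw [e1, e2]
      rw [e3] at c1
      omega
  -- backward products
  have bw : ∀ n i : ℕ, i + n + 2 ≤ m →
      d (x i) (x (i + 1)) + d (x (i + 1)) (x (i + n + 2)) ≤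
        d (x i) (x (i + n + 2)) + a + 2 * δ := by
    intro n
    induction n with
    | zero =>
      intro i hi
      have := hp i hi
      simp only [Nat.add_zero]
      omega
    | succ n ih =>
      intro i hi
      have c1 := ih (i + 1) (by omega)
      have c2 := hs (i + 1) (by omega)
      have c3 := hp i (by omega)
      have c4 := hb_four hG (x i) (x (i + n + 3)) (x (i + 2)) (x (i + 1))
      have c6 := hG.path.symm (x (i + n + 3)) (x (i + 1))
      have c7 := hG.path.symm (x (i + n + 3)) (x (i + 2))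
      have e1 : i + (n + 1) + 2 = i + n + 3 := by ring
      have e2 : i + 1 + n + 2 = i + n + 3 := by ring
      have e3 : i + 1 + 1 = i + 2 := by ring
      rw [e1]
      rw [e2, e3] at c1
      rw [e3] at c2
      have c5 := hG.path.symm (x (i + 2)) (x (i + 1))
      omega
  rcases hij.eq_or_lt with rfl | hij'
  · rw [hb_self hG]; omega
  rcases hjk.eq_or_lt with rfl | hjk'
  · rw [hb_self hG]; omega
  -- products at `x j`
  have f1 := fw (j - i - 1) i (by omega)
  have e1 : i + (j - i - 1) + 1 = j := by omega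
  have e2 : i + (j - i - 1) + 2 = j + 1 := by omega
  rw [e1, e2] at f1
  rcases (Nat.succ_le_of_lt hjk').eq_or_lt with h | h
  · rw [← h]; simp only [Nat.succ_eq_add_one]; omega
  have f2 := bw (k - j - 2) j (by omega)
  have e3 : j + (k - j - 2) + 2 = k := by omega
  rw [e3] at f2
  have f3 := hs j (by omega)
  have f4 := hb_four hG (x i) (x k) (x (j + 1)) (x j)
  have f5 := hG.path.symm (x k) (x j)
  have f6 := hG.path.symm (x k) (x (j + 1))
  have f7 := hG.path.symm (x (j + 1)) (x j)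
  omega

/-- (HB8) every point of a geodesic is close to every chain between its ends. -/
theorem hb_path (hG : HypG d δ) {N m : ℕ} {γ : ℕ → G} (hγ : IsGeo d N γ) {x : ℕ → G}
    (e0 : x 0 = γ 0) (e1 : x m = γ N) (hm : 1 ≤ m) {t : ℕ} (ht : t ≤ N) :
    ∃ i < m, ∃ p, d (x i) p + d p (x (i + 1)) = d (x i) (x (i + 1)) ∧
      d (γ t) p ≤ 4 * δ * m := by
  induction m generalizing N γ t with
  | zero => omega
  | succ m ih =>
    rcases Nat.eq_zero_or_pos m with rfl | hm'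
    · refine ⟨0, Nat.one_pos, γ t, ?_, ?_⟩
      · rw [e0, Nat.zero_add, e1]
        exact hb_btw hG hγ (Nat.zero_le _) ht le_rfl
      · rw [hb_self hG]; exact Nat.zero_le _
    · obtain ⟨η, hη0, hη1, hη⟩ := exists_geo hG.path (x 0) (x m)
      obtain ⟨ζ, hζ0, hζ1, hζ⟩ := exists_geo hG.path (x m) (x (m + 1))
      have hmul : 4 * δ * (m + 1) = 4 * δ * m + 4 * δ := by ring
      rcases hb_tri hG hγ hη hζ (e0.symm.trans hη0.symm) (hη1.trans hζ0.symm)
        (e1.symm.trans hζ1.symm) ht with ⟨s, hs, hd⟩ | ⟨s, hs, hd⟩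
      · obtain ⟨i, hi, p, hp, hdp⟩ := ih hη hη0.symm hη1.symm hm' hs
        refine ⟨i, by omega, p, hp, ?_⟩
        have := hG.path.tri (γ t) (η s) p
        omega
      · refine ⟨m, by omega, ζ s, ?_, by omega⟩
        have := hb_btw hG hζ (Nat.zero_le s) hs le_rfl
        rw [hζ0, hζ1] at this
        exact this

end Pool.Agent.Helper74.TB
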