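import Pool.Agent.Helper74.TB.HB

/-!
MP_7d16da_al: consequences of the `Hubs` interface (module HL).
See /team-store/MP_7d16da-plan.md, Part B.
-/

set_option autoImplicit false

namespace Pool.Agent.Helper74.TB

open Pool.Agent.Helper74.MH

variable {G : Type*} [Group G] {d : G → G → ℕ} {δ C Δ : ℕ} {X F : Set G} {Tm : ℝ}

theorem hl_refl (H : Hubs d X C) {f : G} (hf : f ∈ X) (x : G) : H.Φ f x x = 0 := by
  have := H.coc f hf x x x
  linarith

theorem hl_symm (H : Hubs d X C) {f : G} (hf : f ∈ X) (x y : G) : H.Φ f y x = -H.Φ f x y := by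
  have h1 := H.coc f hf x y x
  have h2 := hl_refl H hf x
  linarith

theorem hl_zpow (H : Hubs d X C) {f : G} (hf : f ∈ X) (x : G) (m : ℤ) :
    H.Φ f x (f ^ m * x) = m * H.T f := by
  induction m using Int.induction_on with
  | zero => rw [zpow_zero, one_mul, hl_refl H hf]; push_cast; ring
  | succ n ih =>
    have h1 := H.coc f hf x (f ^ (n : ℤ) * x) (f * (f ^ (n : ℤ) * x))
    have h2 := H.shift f hf (f ^ (n : ℤ) * x)
    have e : f ^ ((n : ℤ) + 1) * x = f * (f ^ (n : ℤ) * x) := by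
      rw [add_comm, zpow_one_add, mul_assoc]
    rw [e]
    push_cast at ih ⊢
    linarith
  | pred n ih =>
    have h1 := H.coc f hf x (f ^ (-(n : ℤ) - 1) * x) (f * (f ^ (-(n : ℤ) - 1) * x))
    have h2 := H.shift f hf (f ^ (-(n : ℤ) - 1) * x)
    have e : f * (f ^ (-(n : ℤ) - 1) * x) = f ^ (-(n : ℤ)) * x := by
      rw [← mul_assoc, ← zpow_one_add]
      congr 2
      ring
    rw [e] at h1 h2
    push_cast at ih ⊢
    linarith

/-- exact invariance of `Φ f` under `f`. -/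
theorem hl_inv (H : Hubs d X C) {f : G} (hf : f ∈ X) (x y : G) (m : ℤ) :
    H.Φ f (f ^ m * x) (f ^ m * y) = H.Φ f x y := by
  have h1 := H.coc f hf x (f ^ m * x) (f ^ m * y)
  have h2 := H.coc f hf x y (f ^ m * y)
  have h3 := hl_zpow H hf x m
  have h4 := hl_zpow H hf y m
  linarith

theorem hl_Zpow (H : Hubs d X C) {f : G} (hf : f ∈ X) (x : G) (m : ℤ) :
    f ^ m * x ∈ H.Z f ↔ x ∈ H.Z f := by
  have h := H.Zconj f hf (f ^ m) x
  have e : f ^ m * f * (f ^ m)⁻¹ = f := by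
    rw [mul_inv_eq_iff_eq_mul, ← zpow_add_one, ← zpow_one_add, add_comm]
  rw [e] at h
  exact h

theorem hl_lip2 (hG : HypG d δ) (H : Hubs d X C) {f : G} (hf : f ∈ X) (x y x' y' : G) :
    |H.Φ f x y - H.Φ f x' y'| ≤ d x x' + d y y' := by
  have h1 := H.coc f hf x x' y'
  have h2 := H.coc f hf x y y'
  have h3 := H.lip f hf x x'
  have h4 := H.lip f hf y y'
  have _ := hG
  rw [abs_le] at h3 h4 ⊢
  constructor <;> linarith [h3.1, h3.2, h4.1, h4.2]

/-- projections change `Φ` by at most `2 C` -/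
theorem hl_prphi (H : Hubs d X C) {f : G} (hf : f ∈ X) (x y : G) :
    |H.Φ f (H.pr f x) (H.pr f y) - H.Φ f x y| ≤ 2 * C := by
  have h1 := H.coc f hf x (H.pr f x) (H.pr f y)
  have h2 := H.coc f hf x y (H.pr f y)
  have h3 := H.pr_phi f hf x
  have h4 := H.pr_phi f hf y
  rw [abs_le] at h3 h4 ⊢
  constructor <;> linarith [h3.1, h3.2, h4.1, h4.2]

theorem hl_onpr (H : Hubs d X C) {f : G} (hf : f ∈ X) (x y : G) :
    (d (H.pr f x) (H.pr f y) : ℝ) ≤ |H.Φ f x y| + 3 * C := by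
  have h1 := H.on f hf _ (H.pr_mem f hf x) _ (H.pr_mem f hf y)
  have h2 := hl_prphi H hf x y
  have h3 := abs_sub_abs_le_abs_sub (H.Φ f (H.pr f x) (H.pr f y)) (H.Φ f x y)
  linarith

theorem hl_Tpos (H : Hubs d X C) {f : G} (hf : f ∈ X) : 0 ≤ H.T f := by
  have h1 := H.Tbig f hf
  have h2 : (0 : ℝ) ≤ C := Nat.cast_nonneg C
  linarith

/-- displacement of `f` and its length -/
theorem hl_disp (H : Hubs d X C) {f : G} (hf : f ∈ X) (x : G) : H.T f ≤ d x (f * x) := by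
  have h1 := H.lip f hf x (f * x)
  rw [H.shift f hf] at h1
  exact (le_abs_self _).trans h1

theorem hl_disp' (H : Hubs d X C) {f : G} (hf : f ∈ X) {x : G} (hx : x ∈ H.Z f) :
    (d x (f * x) : ℝ) ≤ H.T f + C := by
  have h0 : f * x ∈ H.Z f := by
    have := (hl_Zpow H hf x 1).2 hx
    rwa [zpow_one] at this
  have h1 := H.on f hf x hx _ h0
  rw [H.shift f hf, abs_of_nonneg (hl_Tpos H hf)] at h1
  exact h1

/-- a point moved little by `f` is near the axis -/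
theorem hl_dispZ (hG : HypG d δ) (H : Hubs d X C) {f : G} (hf : f ∈ X) (x : G) :
    2 * (d x (H.pr f x) : ℝ) + H.T f ≤ d x (f * x) + C := by
  have hC : (0 : ℝ) ≤ C := Nat.cast_nonneg C
  have hT := H.Tbig f hf
  have h1 := H.thr f hf x (f * x) (by
    rw [H.shift f hf, abs_of_nonneg (hl_Tpos H hf)]; linarith)
  rw [H.shift f hf, abs_of_nonneg (hl_Tpos H hf)] at h1
  have h2 : d x (H.pr f x) ≤ d (H.pr f (f * x)) (f * x) := by
    have h3 : f⁻¹ * H.pr f (f * x) ∈ H.Z f := by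
      have := (hl_Zpow H hf (H.pr f (f * x)) (-1)).2 (H.pr_mem f hf _)
      rwa [zpow_neg_one] at this
    have h4 := H.pr_min f hf x _ h3
    have h5 := hG.inv f x (f⁻¹ * H.pr f (f * x))
    rw [mul_inv_cancel_left] at h5
    rw [hG.path.symm (H.pr f (f * x)) (f * x)]
    omega
  have h3 : (d x (H.pr f x) : ℝ) ≤ d (H.pr f (f * x)) (f * x) := by exact_mod_cast h2
  linarith

/-- the common part of the two monotonicity lemmas -/
theorem hl_mono_aux (hG : HypG d δ) (H : Hubs d X C) {f : G} (hf : f ∈ X)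
    {x p y : G} (hp : d x p + d p y = d x y) (h1 : 3 * (C : ℝ) < |H.Φ f x p|)
    (h2 : 3 * (C : ℝ) < |H.Φ f p y|) :
    |H.Φ f x p| + |H.Φ f p y| ≤ |H.Φ f x y| + 5 * C := by
  have hC : (0 : ℝ) ≤ C := Nat.cast_nonneg C
  have t1 := H.thr f hf x p (by linarith)
  have t2 := H.thr f hf p y (by linarith)
  have t3 := hl_onpr H hf x y
  have t4 := hG.path.tri x (H.pr f x) y
  have t5 := hG.path.tri (H.pr f x) (H.pr f y) y
  have hp' : (d x p : ℝ) + d p y = d x y := by exact_mod_cast hp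
  have t4' : (d x y : ℝ) ≤ d x (H.pr f x) + d (H.pr f x) y := by exact_mod_cast t4
  have t5' : (d (H.pr f x) y : ℝ) ≤ d (H.pr f x) (H.pr f y) + d (H.pr f y) y := by
    exact_mod_cast t5
  have t6 : (0 : ℝ) ≤ d (H.pr f p) p := Nat.cast_nonneg _
  have t7 : (0 : ℝ) ≤ d p (H.pr f p) := Nat.cast_nonneg _
  linarith

/-- coarse monotonicity along geodesics -/
theorem hl_mono (hG : HypG d δ) (H : Hubs d X C) (hC : 100 * δ ≤ C) {f : G} (hf : f ∈ X)
    {x p y : G} (hp : d x p + d p y = d x y) (h1 : 3 * (C : ℝ) < H.Φ f x p) :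
    -(3 * (C : ℝ)) ≤ H.Φ f p y := by
  have hC0 : (0 : ℝ) ≤ C := Nat.cast_nonneg C
  have _ := hC
  by_contra hcon
  push Not at hcon
  have a1 : |H.Φ f x p| = H.Φ f x p := abs_of_nonneg (by linarith)
  have a2 : |H.Φ f p y| = -H.Φ f p y := abs_of_neg (by linarith)
  have h2 := hl_mono_aux hG H hf hp (by rw [a1]; exact h1) (by rw [a2]; linarith)
  have h3 := H.coc f hf x p y
  rw [a1, a2] at h2
  rcases abs_cases (H.Φ f x y) with ⟨h4, -⟩ | ⟨h4, -⟩ <;> linarith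

theorem hl_mono' (hG : HypG d δ) (H : Hubs d X C) (hC : 100 * δ ≤ C) {f : G} (hf : f ∈ X)
    {x p y : G} (hp : d x p + d p y = d x y) (h1 : 3 * (C : ℝ) < H.Φ f p y) :
    -(3 * (C : ℝ)) ≤ H.Φ f x p := by
  have hC0 : (0 : ℝ) ≤ C := Nat.cast_nonneg C
  have _ := hC
  by_contra hcon
  push Not at hcon
  have a1 : |H.Φ f p y| = H.Φ f p y := abs_of_nonneg (by linarith)
  have a2 : |H.Φ f x p| = -H.Φ f x p := abs_of_neg (by linarith)
  have h2 := hl_mono_aux hG H hf hp (by rw [a2]; linarith) (by rw [a1]; exact h1)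
  have h3 := H.coc f hf x p y
  rw [a1, a2] at h2
  rcases abs_cases (H.Φ f x y) with ⟨h4, -⟩ | ⟨h4, -⟩ <;> linarith

theorem hl_sub (hG : HypG d δ) (H : Hubs d X C) (hC : 100 * δ ≤ C) {f : G} (hf : f ∈ X)
    {N : ℕ} {γ : ℕ → G} (hγ : IsGeo d N γ) {i j : ℕ} (hij : i ≤ j) (hj : j ≤ N) :
    H.Φ f (γ i) (γ j) ≤ max (H.Φ f (γ 0) (γ N)) 0 + 6 * C := by
  have hC0 : (0 : ℝ) ≤ C := Nat.cast_nonneg C
  by_cases hP : H.Φ f (γ i) (γ j) ≤ 3 * C
  · have := le_max_right (H.Φ f (γ 0) (γ N)) 0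
    linarith
  · push Not at hP
    have h1 := hl_mono' hG H hC hf (hb_btw hG hγ (Nat.zero_le i) hij hj) hP
    have h2 := hl_mono hG H hC hf (hb_btw hG hγ hij hj le_rfl) hP
    have h3 := H.coc f hf (γ 0) (γ i) (γ N)
    have h4 := H.coc f hf (γ i) (γ j) (γ N)
    have := le_max_left (H.Φ f (γ 0) (γ N)) 0
    linarith

/-- entry and exit of a geodesic through an axis -/
theorem hl_ee (hG : HypG d δ) (H : Hubs d X C) (hC : 100 * δ ≤ C) {f : G} (hf : f ∈ X)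
    {N : ℕ} {γ : ℕ → G} (hγ : IsGeo d N γ) {i j : ℕ} (hij : i ≤ j) (hj : j ≤ N)
    (hΦ : 10 * (C : ℝ) ≤ |H.Φ f (γ i) (γ j)|) :
    ∃ i1 i2, i ≤ i1 ∧ i1 < i2 ∧ i2 ≤ j ∧ d (γ i1) (H.pr f (γ i)) ≤ 5 * C ∧
      d (γ i2) (H.pr f (γ j)) ≤ 5 * C ∧ |H.Φ f (γ i) (γ i1)| ≤ 6 * C ∧
      |H.Φ f (γ i2) (γ j)| ≤ 6 * C ∧ (∀ t, i1 ≤ t → t ≤ i2 → Nh d (7 * C) (H.Z f) (γ t)) ∧
      i1 - i ≤ d (γ i) (H.pr f (γ i)) ∧ d (γ i) (H.pr f (γ i)) ≤ i1 - i + 5 * C ∧
      j - i2 ≤ d (γ j) (H.pr f (γ j)) ∧ d (γ j) (H.pr f (γ j)) ≤ j - i2 + 5 * C := by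
  have hδ := hG.one
  have hC1 : 100 ≤ C := by omega
  have hC0 : (100 : ℝ) ≤ C := by exact_mod_cast hC1
  have hD := hγ i j hij hj
  have t1 := H.thr f hf (γ i) (γ j) (by linarith)
  have t2 := hl_onpr H hf (γ i) (γ j)
  set a := d (γ i) (H.pr f (γ i)) with ha
  set b := d (H.pr f (γ j)) (γ j) with hb
  set D := d (γ i) (γ j) with hDdef
  -- integer consequences
  have n1 : a + b + 9 * C ≤ D := by
    have : (a : ℝ) + b + 9 * C ≤ D := by linarith
    exact_mod_cast this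
  have n2 : a + d (H.pr f (γ i)) (H.pr f (γ j)) + b ≤ D + 4 * C := by
    have : (a : ℝ) + d (H.pr f (γ i)) (H.pr f (γ j)) + b ≤ D + 4 * C := by linarith
    exact_mod_cast this
  have hsub := hb_sub hG hγ hij hj
  have hDj : j - i = D := by omega
  rw [hDj] at hsub
  have e0 : γ (i + 0) = γ i := rfl
  have e1 : γ (i + D) = γ j := by congr 1; omega
  have p1 := hb_pt hG hsub (z := H.pr f (γ i)) (e := 4 * C) (by
    simp only [e0, e1]
    have h1 := hG.path.tri (H.pr f (γ i)) (H.pr f (γ j)) (γ j)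
    omega)
  have p2 := hb_pt' hG hsub (z := H.pr f (γ j)) (e := 4 * C) (by
    simp only [e0, e1]
    have h1 := hG.path.tri (γ i) (H.pr f (γ i)) (H.pr f (γ j))
    omega)
  simp only [e0, e1] at p1 p2
  rw [← ha, min_eq_left (by omega)] at p1
  rw [← hb, min_eq_left (by omega)] at p2
  have q1 : d (γ (i + a)) (H.pr f (γ i)) ≤ 5 * C := by omega
  have e2 : i + (D - b) = j - b := by omega
  rw [e2] at p2
  have q2 : d (γ (j - b)) (H.pr f (γ j)) ≤ 5 * C := by omega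
  have hbs : d (γ j) (H.pr f (γ j)) = b := by rw [hb, hG.path.symm]
  refine ⟨i + a, j - b, by omega, by omega, by omega, q1, q2, ?_, ?_, ?_, by omega, by omega,
    by omega, by omega⟩
  · have h1 := H.coc f hf (γ i) (H.pr f (γ i)) (γ (i + a))
    have h2 := H.pr_phi f hf (γ i)
    have h3 := H.lip f hf (H.pr f (γ i)) (γ (i + a))
    rw [hG.path.symm] at h3
    have h4 : (d (γ (i + a)) (H.pr f (γ i)) : ℝ) ≤ 5 * C := by exact_mod_cast q1
    rw [abs_le] at h2 h3 ⊢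
    constructor <;> linarith [h2.1, h2.2, h3.1, h3.2]
  · have h1 := H.coc f hf (γ (j - b)) (H.pr f (γ j)) (γ j)
    have h2 := H.pr_phi f hf (γ j)
    have h5 := hl_symm H hf (γ j) (H.pr f (γ j))
    have h3 := H.lip f hf (γ (j - b)) (H.pr f (γ j))
    have h4 : (d (γ (j - b)) (H.pr f (γ j)) : ℝ) ≤ 5 * C := by exact_mod_cast q2
    rw [abs_le] at h2 h3 ⊢
    constructor <;> linarith [h2.1, h2.2, h3.1, h3.2]
  · intro t ht1 ht2
    obtain ⟨ζ, hζ0, hζ1, hζ⟩ := exists_geo hG.path (H.pr f (γ i)) (H.pr f (γ j))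
    have hs2 := hb_sub hG hγ (i := i + a) (j := j - b) (by omega) (by omega)
    have e3 : γ (i + a + (j - b - (i + a))) = γ (j - b) := by congr 1; omega
    obtain ⟨s, hs, hds⟩ := hb_ft hG hs2 hζ (r := 5 * C) (by simpa [hζ0] using q1)
      (by simp only [e3, hζ1]; exact q2) (t := t - (i + a)) (by omega)
    have e4 : i + a + (t - (i + a)) = t := by omega
    simp only [e4] at hds
    have hbt := hb_btw hG hζ (Nat.zero_le s) hs le_rfl
    rw [hζ0, hζ1] at hbt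
    obtain ⟨w, hw, hdw⟩ := H.qc f hf _ (H.pr_mem f hf _) _ (H.pr_mem f hf _) (ζ s) hbt
    refine ⟨w, hw, ?_⟩
    have := hG.path.tri (γ t) (ζ s) w
    omega

/-- points near an axis: distance and signed length agree -/
theorem hl_near (hG : HypG d δ) (H : Hubs d X C) {f : G} (hf : f ∈ X) {r : ℕ} {x y : G}
    (hx : Nh d r (H.Z f) x) (hy : Nh d r (H.Z f) y) :
    (d x y : ℝ) ≤ |H.Φ f x y| + 4 * r + C := by
  obtain ⟨z, hz, hxz⟩ := hx
  obtain ⟨w, hw, hyw⟩ := hy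
  have h1 := H.on f hf z hz w hw
  have h2 := hl_lip2 hG H hf z w x y
  have h3 := abs_sub_abs_le_abs_sub (H.Φ f z w) (H.Φ f x y)
  have h4 := hG.path.tri x z y
  have h5 := hG.path.tri z w y
  have h6 := hG.path.symm z x
  have h7 := hG.path.symm w y
  have h8 : d x y ≤ d z w + 2 * r := by omega
  have h9 : (d x y : ℝ) ≤ d z w + 2 * r := by exact_mod_cast h8
  have h10 : (d z x : ℝ) ≤ r := by rw [h6]; exact_mod_cast hxz
  have h11 : (d w y : ℝ) ≤ r := by rw [h7]; exact_mod_cast hyw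
  linarith

/-- a geodesic through a point between two points -/
theorem hb_through (hG : HypG d δ) {x p y : G} (hp : d x p + d p y = d x y) :
    ∃ γ : ℕ → G, γ 0 = x ∧ γ (d x p) = p ∧ γ (d x y) = y ∧ IsGeo d (d x y) γ := by
  obtain ⟨c1, h10, h11, hc1⟩ := exists_geo hG.path x p
  obtain ⟨c2, h20, h21, hc2⟩ := exists_geo hG.path p y
  refine ⟨fun i => if i ≤ d x p then c1 i else c2 (i - d x p), by simp [h10], by simp [h11],
    ?_, ?_⟩
  · by_cases h : d x y ≤ d x p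
    · have h0 : d p y = 0 := by omega
      have h1 : p = y := (hG.path.zero_iff p y).1 h0
      have h2 : d x y = d x p := by omega
      simp only [h2, le_refl, if_true]
      rw [h11, h1]
    · simp only [if_neg h]
      have h2 : d x y - d x p = d p y := by omega
      rw [h2, h21]
  · intro i j hij hj
    change d (if i ≤ d x p then c1 i else c2 (i - d x p))
      (if j ≤ d x p then c1 j else c2 (j - d x p)) + i = j
    by_cases hj' : j ≤ d x p
    · rw [if_pos (by omega), if_pos hj']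
      exact hc1 i j hij hj'
    by_cases hi' : i ≤ d x p
    · rw [if_pos hi', if_neg hj']
      have a1 := hc1 0 i (Nat.zero_le _) hi'
      have a2 := hc1 i _ hi' le_rfl
      have a3 := hc2 0 (j - d x p) (Nat.zero_le _) (by omega)
      have a4 := hc2 (j - d x p) _ (by omega) le_rfl
      rw [h10] at a1
      rw [h11] at a2
      rw [h20] at a3
      rw [h21] at a4
      have b1 := hG.path.tri (c1 i) p (c2 (j - d x p))
      have b2 := hG.path.tri x (c1 i) y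
      have b3 := hG.path.tri (c1 i) (c2 (j - d x p)) y
      omega
    · rw [if_neg hi', if_neg hj']
      have := hc2 (i - d x p) (j - d x p) (by omega) (by omega)
      omega

/-- geodesics between points near an axis stay near the axis -/
theorem hl_qc (hG : HypG d δ) (H : Hubs d X C) (hC : 100 * δ ≤ C) {f : G} (hf : f ∈ X)
    {r : ℕ} {x y p : G} (hx : Nh d r (H.Z f) x) (hy : Nh d r (H.Z f) y)
    (hp : d x p + d p y = d x y) : Nh d (r + 2 * C) (H.Z f) p := by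
  obtain ⟨z, hz, hxz⟩ := hx
  obtain ⟨w, hw, hyw⟩ := hy
  obtain ⟨γ, hγ0, hγp, hγ1, hγ⟩ := hb_through hG hp
  obtain ⟨ζ, hζ0, hζ1, hζ⟩ := exists_geo hG.path z w
  obtain ⟨s, hs, hds⟩ := hb_ft hG hγ hζ (r := r) (by rw [hγ0, hζ0]; exact hxz)
    (by rw [hγ1, hζ1]; exact hyw) (t := d x p) (by omega)
  rw [hγp] at hds
  have hbt := hb_btw hG hζ (Nat.zero_le s) hs le_rfl
  rw [hζ0, hζ1] at hbt
  obtain ⟨v, hv, hdv⟩ := H.qc f hf z hz w hw (ζ s) hbt
  refine ⟨v, hv, ?_⟩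
  have := hG.path.tri p (ζ s) v
  omega

/-- points near another hub -/
theorem hl_sep (hG : HypG d δ) {H : Hubs d X C} (hF : Fam H F Δ Tm) {f f' : G} (hf : f ∈ F)
    (hf' : f' ∈ F) (h1 : f' ≠ f) (h2 : f' ≠ f⁻¹) {r : ℕ} {x y : G}
    (hx : Nh d r (H.Z f') x) (hy : Nh d r (H.Z f') y) : |H.Φ f x y| ≤ Δ + 2 * r := by
  obtain ⟨z, hz, hxz⟩ := hx
  obtain ⟨w, hw, hyw⟩ := hy
  have h3 := hF.sep f hf f' hf' h1 h2 z hz w hw
  have h4 := hl_lip2 hG H (hF.sub hf) x y z w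
  have h5 := abs_sub_abs_le_abs_sub (H.Φ f x y) (H.Φ f z w)
  have h6 : (d x z : ℝ) ≤ r := by exact_mod_cast hxz
  have h7 : (d y w : ℝ) ≤ r := by exact_mod_cast hyw
  linarith

/-- one half of the Behrstock inequality -/
theorem hl_beh_aux (H : Hubs d X C) (hF : Fam H F Δ Tm) {f f' : G} (hf : f ∈ F)
    (hf' : f' ∈ F) (h1 : f' ≠ f) (h2 : f' ≠ f⁻¹) (x : G) {z : G} (hz : z ∈ H.Z f')
    (hΦ : (Δ : ℝ) + 10 * C < |H.Φ f x z|) :
    (d x (H.pr f x) : ℝ) + 9 * C < d x (H.pr f' x) := by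
  have hC0 : (0 : ℝ) ≤ C := Nat.cast_nonneg C
  have h3 := hF.sep f hf f' hf' h1 h2 _ (H.pr_mem f' (hF.sub hf') x) z hz
  have h4 := H.coc f (hF.sub hf) x (H.pr f' x) z
  have h5 : 10 * (C : ℝ) < |H.Φ f x (H.pr f' x)| := by
    have h6 := abs_add_le (H.Φ f x (H.pr f' x)) (H.Φ f (H.pr f' x) z)
    rw [h4] at h6
    linarith
  have h6 := H.thr f (hF.sub hf) x (H.pr f' x) (by linarith)
  have h7 : (0 : ℝ) ≤ d (H.pr f (H.pr f' x)) (H.pr f' x) := Nat.cast_nonneg _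
  linarith

/-- Behrstock inequality -/
theorem hl_beh (hG : HypG d δ) {H : Hubs d X C} (hF : Fam H F Δ Tm) {f f' : G} (hf : f ∈ F)
    (hf' : f' ∈ F) (h1 : f' ≠ f) (h2 : f' ≠ f⁻¹) (x : G) :
    (∀ z ∈ H.Z f', |H.Φ f x z| ≤ Δ + 10 * C) ∨ ∀ z ∈ H.Z f, |H.Φ f' x z| ≤ Δ + 10 * C := by
  have _ := hG
  have hC0 : (0 : ℝ) ≤ C := Nat.cast_nonneg C
  by_contra hcon
  push Not at hcon
  obtain ⟨⟨z', hz', h3⟩, z, hz, h4⟩ := hcon
  have h5 := hl_beh_aux H hF hf hf' h1 h2 x hz' h3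
  have h6 := hl_beh_aux H hF hf' hf (fun h => h1 h.symm)
    (fun h => h2 (by rw [h, inv_inv])) x hz h4
  linarith

/-- Hub chains (one sided). -/
theorem hl_chain (hG : HypG d δ) {H : Hubs d X C} (hF : Fam H F Δ Tm) {m : ℕ} {h : ℕ → G}
    (hh : ∀ j ≤ m, h j ∈ F) (hne : ∀ j < m, h (j + 1) ≠ h j ∧ h (j + 1) ≠ (h j)⁻¹)
    (hgap : ∀ j, j + 2 ≤ m → ∀ a ∈ H.Z (h j), ∀ b ∈ H.Z (h (j + 2)),
      2 * (Δ : ℝ) + 30 * C ≤ |H.Φ (h (j + 1)) a b|)
    {x : G} (hx : 0 < m → ∃ b ∈ H.Z (h 1), (Δ : ℝ) + 10 * C < |H.Φ (h 0) x b|) :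
    ∀ j < m, ∀ b ∈ H.Z (h j), |H.Φ (h (j + 1)) x b| ≤ Δ + 10 * C := by
  have hC1 : (1 : ℝ) ≤ C := by exact_mod_cast hF.hC1
  intro j
  induction j with
  | zero =>
    intro hj
    obtain ⟨b, hb, hbx⟩ := hx hj
    rcases hl_beh hG hF (hh 0 (Nat.zero_le _)) (hh 1 hj) (hne 0 hj).1 (hne 0 hj).2 x with h1 | h1
    · exact absurd (h1 b hb) (not_le.2 hbx)
    · exact h1
  | succ j ih =>
    intro hj
    have h1 := ih (by omega) (H.pr (h j) x) (H.pr_mem _ (hF.sub (hh j (by omega))) x)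
    rcases hl_beh hG hF (hh (j + 1) (by omega)) (hh (j + 1 + 1) (by omega)) (hne (j + 1) hj).1
      (hne (j + 1) hj).2 x with h2 | h2
    · exfalso
      have h3 := h2 _ (H.pr_mem _ (hF.sub (hh (j + 1 + 1) (by omega))) x)
      have h4 := hgap j (by omega) _ (H.pr_mem _ (hF.sub (hh j (by omega))) x) _
        (H.pr_mem _ (hF.sub (hh (j + 1 + 1) (by omega))) x)
      have h5 := H.coc (h (j + 1)) (hF.sub (hh (j + 1) (by omega))) x (H.pr (h j) x)
        (H.pr (h (j + 1 + 1)) x)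
      have h6 := abs_le.1 h1
      have h7 := abs_le.1 h3
      have h8 : |H.Φ (h (j + 1)) (H.pr (h j) x) (H.pr (h (j + 1 + 1)) x)| ≤
          2 * (Δ : ℝ) + 20 * C := by
        rw [abs_le]
        constructor <;> linarith [h6.1, h6.2, h7.1, h7.2]
      linarith
    · exact h2

/-- A `K`-minimal pair is tight (for the symmetric weight). -/
theorem hl_min (hG : HypG d δ) {H : Hubs d X C} (hF : Fam H F Δ Tm) (hT : 100 * (C : ℝ) ≤ Tm)
    {x y : G} (hmin : ∀ k ∈ Subgroup.closure F, d x y ≤ d x (k * y) + 10 * C) :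
    Tight H F (fun f => H.T f / 2) (10 * C) x y := by
  have hC1 : (1 : ℝ) ≤ C := by exact_mod_cast hF.hC1
  intro f hf
  have hfX := hF.sub hf
  by_contra hcon
  push Not at hcon
  have hTf := hF.big f hf
  have h1 := hmin f⁻¹ ((Subgroup.closure F).inv_mem (Subgroup.subset_closure hf))
  have h2 := H.thr f hfX x y (by
    rw [abs_of_nonneg (by linarith)]; linarith)
  rw [abs_of_nonneg (by linarith)] at h2
  have h3 : f⁻¹ * H.pr f y ∈ H.Z f := by
    have := (hl_Zpow H hfX (H.pr f y) (-1)).2 (H.pr_mem f hfX _)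
    rwa [zpow_neg_one] at this
  have h4 := H.on f hfX _ (H.pr_mem f hfX x) _ h3
  have h5 := hl_zpow H hfX (H.pr f y) (-1)
  rw [zpow_neg_one] at h5
  have h6 := H.coc f hfX (H.pr f x) (H.pr f y) (f⁻¹ * H.pr f y)
  have h7 := hl_prphi H hfX x y
  have h8 := hG.path.tri x (H.pr f x) (f⁻¹ * y)
  have h9 := hG.path.tri (H.pr f x) (f⁻¹ * H.pr f y) (f⁻¹ * y)
  have h10 := hG.inv f⁻¹ (H.pr f y) y
  have h11 : (d x (f⁻¹ * y) : ℝ) ≤ d x (H.pr f x) + d (H.pr f x) (f⁻¹ * H.pr f y) +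
      d (H.pr f y) y := by
    have : d x (f⁻¹ * y) ≤ d x (H.pr f x) + d (H.pr f x) (f⁻¹ * H.pr f y) +
      d (H.pr f y) y := by omega
    exact_mod_cast this
  have h12 : (d x y : ℝ) ≤ d x (f⁻¹ * y) + 10 * C := by exact_mod_cast h1
  push_cast at h5
  rw [abs_le] at h7
  have h13 : |H.Φ f (H.pr f x) (f⁻¹ * H.pr f y)| ≤ |H.Φ f x y - H.T f| + 2 * C := by
    rw [h5] at h6
    rw [← h6]
    rcases abs_cases (H.Φ f x y - H.T f) with ⟨h14, h15⟩ | ⟨h14, h15⟩ <;> rw [h14, abs_le] <;>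
      constructor <;> linarith [h7.1, h7.2]
  rcases abs_cases (H.Φ f x y - H.T f) with ⟨h14, h15⟩ | ⟨h14, h15⟩ <;> rw [h14] at h13 <;>
    linarith

/-- Two distinct hubs cannot run along a common piece of length `Δ + 60 C`. -/
theorem hl_ov (hG : HypG d δ) {H : Hubs d X C} (hF : Fam H F Δ Tm) {f f' : G} (hf : f ∈ F)
    (hf' : f' ∈ F) {x y : G} (hx : Nh d (10 * C) (H.Z f) x) (hy : Nh d (10 * C) (H.Z f) y)
    (hx' : Nh d (10 * C) (H.Z f') x) (hy' : Nh d (10 * C) (H.Z f') y)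
    (hxy : Δ + 100 * C ≤ d x y) : f' = f ∨ f' = f⁻¹ := by
  by_contra hcon
  push Not at hcon
  have hC1 : (1 : ℝ) ≤ C := by exact_mod_cast hF.hC1
  have h1 := hl_near hG H (hF.sub hf) hx hy
  have h2 := hl_sep hG hF hf hf' hcon.1 hcon.2 hx' hy'
  have h3 : (Δ : ℝ) + 100 * C ≤ d x y := by exact_mod_cast hxy
  push_cast at h1 h2
  linarith

end Pool.Agent.Helper74.TB
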