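import Pool.Agent.Helper74.TB.StJK

/-! MP_7d16da_al, Part J1, first part: chains. -/

set_option autoImplicit false

namespace Pool.Agent.Helper74.TB

open Pool.Agent.Helper74.MH

namespace J1

variable {G : Type*} [Group G] {d : G → G → ℕ} {δ C Δ A n : ℕ} {X F : Set G} {Tm : ℝ}

/-- A broken line with small turning angles and rotations at its vertices. -/
structure CH (H : Hubs d X C) (F : Set G) (A D n per : ℕ) (U : G) (p v : ℕ → G) : Prop where
  lo : ∀ j, D ≤ d (p j) (p (j + 1)) + C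
  hi : ∀ j, d (p j) (p (j + 1)) ≤ D + C
  gp : ∀ j, d (p j) (p (j + 1)) + d (p (j + 1)) (p (j + 2)) ≤ d (p j) (p (j + 2)) +
    (2 * A + 2 * C)
  v0 : ∀ j, d (v j * p (j + 1)) (p (j + 1)) ≤ C
  v1 : ∀ j, d (v j * p j) (p (j + 2)) ≤ C
  vn : ∀ j, v j ^ n = 1
  vne : ∀ j, v j ≠ 1
  per2 : 2 ≤ per
  per4 : per ≤ 4
  hper : ∀ j, p (j + per) = U * p j
  seg : ∀ g ∈ F, ∀ j, |H.Φ g (p j) (p (j + 1))| ≤ H.T g / 2 + 13 * C

/-- The Gromov product at the centre of a rotation. -/
theorem gp_small (hG : HypG d δ) (hC : 100 * δ ≤ C) {L : ℕ} (hL : 1000 * C ≤ L)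
    (hac : ∀ g p p', g ^ n = 1 → A ≤ d p p' → d p (g * p) ≤ L → d p' (g * p') ≤ L → g = 1)
    {g e e' : G} (hgn : g ^ n = 1) (hg1 : g ≠ 1) (he : d e (g * e) ≤ C) (hA : A ≤ d e e') :
    d e' e + d e (g * e') ≤ d e' (g * e') + 2 * A := by
  by_contra hcon
  rw [not_le] at hcon
  obtain ⟨q, hq, hqA⟩ := hG.path.geod e e' A hA
  have hq' : d e q + d q e' = d e e' := hq
  have h1 : d e (g * q) ≤ A + C := by
    have h2 := hG.path.tri e (g * e) (g * q)
    rw [hG.inv] at h2
    omega
  have h2 : A ≤ d e (g * q) + C := by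
    have h3 := hG.path.tri (g * e) e (g * q)
    rw [hG.inv, hG.path.symm (g * e) e] at h3
    omega
  have h3 : d (g * q) (g * e') = d q e' := hG.inv g q e'
  have h4 : d e e' ≤ d e (g * e') + C := by
    have h5 := hG.path.tri (g * e) e (g * e')
    rw [hG.inv, hG.path.symm (g * e) e] at h5
    omega
  have hs := hG.path.symm e e'
  -- four point conditions
  have f1 := hb_four hG q e (g * e') e'
  have f2 := hb_four hG q e (g * q) (g * e')
  have s1 := hG.path.symm (g * e') e'
  have s2 := hG.path.symm e' e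
  have s3 := hG.path.symm (g * e') e
  have s4 := hG.path.symm (g * q) (g * e')
  have s5 := hG.path.symm q e
  have s6 := hG.path.symm q e'
  have s7 := hG.path.symm (g * e') (g * q)
  have s8 := hG.path.symm (g * q) e
  have s9 := hG.path.symm q (g * e')
  have key : d q (g * q) ≤ 3 * C + 4 * δ := by omega
  have hδ := hG.one
  apply hg1
  refine hac g e q hgn (by omega) (by omega) (by omega)

/-- Torsion elements do not normalise relators. -/
theorem rot_ne {q L Ax : ℕ} {H : Hubs d (Lx d (100 * C)) C} (hC : 1 ≤ C) (hn : 0 < n)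
    (hA : Alg H n q L Ax) (hF : Fam H F Δ Tm) {g v : G} (hg : g ∈ F) (hv : v ^ n = 1)
    (hv1 : v ≠ 1) : v * g * v⁻¹ ≠ g ∧ v * g * v⁻¹ ≠ g⁻¹ := by
  have hgX := hF.sub hg
  have hT := H.Tbig g hgX
  have hC' : (1 : ℝ) ≤ C := by exact_mod_cast hC
  have hTpos : 0 < H.T g := by linarith
  have hgz : ∀ m : ℤ, m ≠ 0 → g ^ m ≠ 1 := by
    intro m hm h1
    have h2 := hl_zpow H hgX 1 m
    rw [h1, one_mul, hl_refl H hgX] at h2
    rcases mul_eq_zero.1 h2.symm with h3 | h3
    · exact hm (by exact_mod_cast h3)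
    · exact hTpos.ne' h3
  have hgn : g ^ n ≠ 1 := by
    have := hgz n (by exact_mod_cast hn.ne')
    rwa [zpow_natCast] at this
  have key : ¬ Commute v g := by
    intro hc
    obtain ⟨r, hr⟩ := hA.cent g hgn
    obtain ⟨a, ha⟩ := Subgroup.mem_zpowers_iff.1 ((hr v).1 hc)
    obtain ⟨b, hb⟩ := Subgroup.mem_zpowers_iff.1 ((hr g).1 (Commute.refl g))
    have ha0 : a ≠ 0 := by
      rintro rfl
      rw [zpow_zero] at ha
      exact hv1 ha.symm
    have h1 : g ^ (a * n) = 1 := by
      rw [← hb, ← zpow_mul, mul_comm b, mul_assoc, mul_comm (n : ℤ) b, ← mul_assoc,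
        mul_comm (a * b), mul_comm (n : ℤ), mul_assoc, mul_comm b (n : ℤ), ← mul_assoc, zpow_mul,
        zpow_mul, ha, zpow_natCast, hv, one_zpow]
    exact hgz _ (mul_ne_zero ha0 (by exact_mod_cast hn.ne')) h1
  refine ⟨fun h => key ?_, fun h => key ?_⟩
  · exact mul_inv_eq_iff_eq_mul.1 h
  · exact hA.ninv g v 1 (-1) hgn one_ne_zero (by rw [zpow_one, zpow_neg_one]; exact h)

section chain

variable {D per : ℕ} {U : G} {p v : ℕ → G} {H : Hubs d X C}

theorem ch_chain (hG : HypG d δ) (hC : 100 * δ ≤ C) (hch : CH H F A D n per U p v)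
    (hD : 2 * A + 4 * C ≤ D) {i j k : ℕ} (hij : i ≤ j) (hjk : j ≤ k) :
    d (p i) (p j) + d (p j) (p k) ≤ d (p i) (p k) + (2 * A + 3 * C) := by
  have h1 := hb_chain hG (m := k) (a := 2 * A + 2 * C) (x := p) (fun i _ => hch.gp i)
    (fun i _ => by have := hch.lo i; omega) hij hjk le_rfl
  omega

theorem ch_pow (hch : CH H F A D n per U p v) (j m : ℕ) : p (j + per * m) = U ^ m * p j := by
  induction m with
  | zero => simp
  | succ m ih =>
    have e : j + per * (m + 1) = (j + per * m) + per := by ring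
    rw [e, hch.hper, ih, pow_succ', mul_assoc]

theorem ch_grow (hG : HypG d δ) (hC : 100 * δ ≤ C) (hch : CH H F A D n per U p v)
    (hD : 2 * A + 4 * C ≤ D) (i k : ℕ) :
    k * (D - (2 * A + 4 * C)) ≤ d (p i) (p (i + k)) := by
  induction k with
  | zero => simp
  | succ k ih =>
    have h1 := ch_chain hG hC hch hD (i := i) (j := i + k) (k := i + (k + 1)) (by omega)
      (by omega)
    have h2 := hch.lo (i + k)
    have e : i + k + 1 = i + (k + 1) := by ring
    rw [e] at h2
    have h3 : (k + 1) * (D - (2 * A + 4 * C)) =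
      k * (D - (2 * A + 4 * C)) + (D - (2 * A + 4 * C)) := by ring
    rw [h3]
    omega

/-- `U` is not torsion -/
theorem ch_ne (hG : HypG d δ) (hC : 100 * δ ≤ C) (hch : CH H F A D n per U p v)
    (hD : 2 * A + 4 * C < D) {m : ℕ} (hm : 0 < m) : U ^ m ≠ 1 := by
  intro h
  have h1 := ch_pow hch 0 m
  have h2 := ch_grow hG hC hch hD.le 0 (per * m)
  rw [h1, h, one_mul, hb_self hG] at h2
  have h3 : 0 < per * m * (D - (2 * A + 4 * C)) :=
    Nat.mul_pos (Nat.mul_pos (by have := hch.per2; omega) hm) (by omega)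
  omega

/-- `U` moves all points far -/
theorem ch_Lx (hG : HypG d δ) (hC : 100 * δ ≤ C) (hch : CH H F A D n per U p v) {B : ℕ}
    (hD : 2 * (2 * A + 4 * C) + B < 2 * D) : U ∈ Lx d B := by
  intro z
  by_contra hcon
  rw [not_le] at hcon
  have hz : ∀ m : ℕ, d z (U ^ m * z) ≤ m * B := by
    intro m
    induction m with
    | zero => rw [pow_zero, one_mul, hb_self hG]; exact Nat.zero_le _
    | succ m ih =>
      have h1 := hG.path.tri z (U ^ m * z) (U ^ (m + 1) * z)
      have h2 : d (U ^ m * z) (U ^ (m + 1) * z) = d z (U * z) := by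
        rw [pow_succ, mul_assoc, hG.inv]
      have h3 : (m + 1) * B = m * B + B := by ring
      omega
  set m := 2 * d z (p 0) + 1 with hm
  have h1 := hz m
  have h2 := ch_grow hG hC hch (by omega) 0 (per * m)
  rw [ch_pow hch 0 m] at h2
  have t1 := hG.path.tri (p 0) z (U ^ m * p 0)
  have t2 := hG.path.tri z (U ^ m * z) (U ^ m * p 0)
  have t3 := hG.inv (U ^ m) z (p 0)
  have t4 := hG.path.symm (p 0) z
  have h4 : m * (B + 1) ≤ per * m * (D - (2 * A + 4 * C)) := by
    have e : per * m * (D - (2 * A + 4 * C)) = m * (per * (D - (2 * A + 4 * C))) := by ring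
    rw [e]
    apply Nat.mul_le_mul_left
    have h5 : 2 * (D - (2 * A + 4 * C)) ≤ per * (D - (2 * A + 4 * C)) :=
      Nat.mul_le_mul_right _ hch.per2
    omega
  have h6 : m * (B + 1) = m * B + m := by ring
  omega

end chain

end J1

end Pool.Agent.Helper74.TB
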