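import Pool.Agent.Helper74.TB.J1a

/-! MP_7d16da_al, Part J1, second part: relators along a chain. -/

set_option autoImplicit false

namespace Pool.Agent.Helper74.TB

open Pool.Agent.Helper74.MH

namespace J1

variable {G : Type*} [Group G] {d : G → G → ℕ} {δ C Δ A n : ℕ} {X F : Set G} {Tm : ℝ}
variable {D per : ℕ} {U : G} {p v : ℕ → G} {H : Hubs d X C}

/-- linear growth of the displacement along the chain -/
theorem ch_lin (hG : HypG d δ) (hC : 100 * δ ≤ C) (hch : CH H F A D n per U p v)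
    (hD : 2 * A + 4 * C ≤ D) (j m : ℕ) :
    m * d (p j) (U * p j) ≤ d (p j) (U ^ m * p j) + m * (2 * A + 3 * C) := by
  induction m with
  | zero => rw [pow_zero, one_mul, hb_self hG]; omega
  | succ m ih =>
    have h1 := ch_chain hG hC hch hD (i := j) (j := j + per * m) (k := j + per * (m + 1))
      (by omega) (Nat.add_le_add_left (Nat.mul_le_mul_left _ (Nat.le_succ m)) _)
    rw [ch_pow hch, ch_pow hch] at h1
    have h2 : d (U ^ m * p j) (U ^ (m + 1) * p j) = d (p j) (U * p j) := by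
      rw [pow_succ, mul_assoc, hG.inv]
    have h3 : (m + 1) * d (p j) (U * p j) = m * d (p j) (U * p j) + d (p j) (U * p j) := by ring
    have h4 : (m + 1) * (2 * A + 3 * C) = m * (2 * A + 3 * C) + (2 * A + 3 * C) := by ring
    omega

theorem ch_T (hG : HypG d δ) (hC : 100 * δ ≤ C) (hch : CH H F A D n per U p v)
    (hD : 2 * A + 4 * C ≤ D) (hU : U ∈ X) (j : ℕ) :
    (d (p j) (U * p j) : ℝ) ≤ H.T U + (2 * A + 3 * C) := by
  by_contra hcon
  push Not at hcon
  obtain ⟨E, hE⟩ := hl_len hG H hU (p j)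
  set ε := (d (p j) (U * p j) : ℝ) - (H.T U + (2 * A + 3 * C)) with hε
  have hεpos : 0 < ε := by linarith
  obtain ⟨M, hM⟩ := exists_nat_gt (E / ε)
  have hM1 : E < M * ε := by rwa [div_lt_iff₀ hεpos] at hM
  have k1 := (abs_le.1 (hE M)).2
  have k2 : (M : ℝ) * d (p j) (U * p j) ≤ d (p j) (U ^ M * p j) + M * (2 * A + 3 * C) := by
    exact_mod_cast ch_lin hG hC hch hD j M
  have k6 : (M : ℝ) * ε = M * d (p j) (U * p j) - M * H.T U - M * (2 * A + 3 * C) := by
    rw [hε]; ring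
  linarith

/-- the vertices of the chain are near the axis of `U` -/
theorem ch_near (hG : HypG d δ) (hC : 100 * δ ≤ C) (hch : CH H F A D n per U p v)
    (hD : 2 * A + 4 * C ≤ D) (hU : U ∈ X) (j : ℕ) :
    d (p j) (H.pr U (p j)) ≤ A + 2 * C := by
  have h1 := ch_T hG hC hch hD hU j
  have h2 := hl_dispZ hG H hU (p j)
  have h3 : 2 * (d (p j) (H.pr U (p j)) : ℝ) ≤ 2 * A + 4 * C := by linarith
  have h4 : 2 * d (p j) (H.pr U (p j)) ≤ 2 * A + 4 * C := by exact_mod_cast h3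
  omega

theorem ch_chain' (hG : HypG d δ) (hC : 100 * δ ≤ C) (hch : CH H F A D n per U p v)
    (hD : 2 * A + 4 * C ≤ D) {i j k : ℕ} (hij : i ≤ j) (hjk : j ≤ k) :
    d (p i) (p j) + d (p j) (p k) ≤ d (p i) (p k) + (2 * A + 2 * C + 4 * δ) := by
  have h1 := hb_chain hG (m := k) (a := 2 * A + 2 * C) (x := p) (fun i _ => hch.gp i)
    (fun i _ => by have := hch.lo i; omega) hij hjk le_rfl
  omega

theorem ch_disp (hG : HypG d δ) (hch : CH H F A D n per U p v) (j : ℕ) :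
    d (p j) (U * p j) ≤ 4 * (D + C) := by
  have h : ∀ k, d (p j) (p (j + k)) ≤ k * (D + C) := by
    intro k
    induction k with
    | zero => rw [Nat.add_zero, hb_self hG]; omega
    | succ k ih =>
      have h1 := hG.path.tri (p j) (p (j + k)) (p (j + (k + 1)))
      have h2 := hch.hi (j + k)
      have h3 : (k + 1) * (D + C) = k * (D + C) + (D + C) := by ring
      have e : j + k + 1 = j + (k + 1) := by ring
      rw [e] at h2
      omega
  have h1 := h per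
  rw [hch.hper] at h1
  exact h1.trans (Nat.mul_le_mul_right _ hch.per4)

/-- a point of a first segment is near the relator axis -/
theorem side_near (hG : HypG d δ) (hC : 100 * δ ≤ C) {g : G} (hg : g ∈ X) {e b c q : G}
    (h1 : d e b + d b c ≤ d e c + (2 * A + 2 * C + 4 * δ)) (hΔ : 1000 * C ≤ Δ)
    (hΦ : 3 / 2 * (Δ : ℝ) < |H.Φ g e c|) (he : d e (H.pr g e) ≤ A + 4 * C)
    (hq : d e q + d q b = d e b) (hl1 : A + 4 * C ≤ d e q) (hl2 : 4 * d e q ≤ 5 * Δ) :
    Nh d (2 * A + 10 * C) (H.Z g) q := by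
  have hδ := hG.one
  have hC1 : (100 : ℝ) ≤ C := by exact_mod_cast (by omega : 100 ≤ C)
  have hΔ' : 1000 * (C : ℝ) ≤ Δ := by exact_mod_cast hΔ
  obtain ⟨γ, hγ0, hγ1, hγ⟩ := exists_geo hG.path e c
  obtain ⟨i1, i2, -, h12, hi2j, e1, e2, -, e4, e5, e6, -, -, -⟩ :=
    hl_ee hG H hC hg hγ (i := 0) (j := d e c) (Nat.zero_le _) le_rfl (by
      rw [hγ0, hγ1]; linarith)
  rw [hγ0] at e6
  rw [hγ1] at e4
  have hi2 : d e q ≤ i2 := by
    have k1 := H.coc g hg e (γ i2) c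
    have k2 := H.lip g hg e (γ i2)
    have k3 := hγ 0 i2 (Nat.zero_le _) (by omega)
    rw [hγ0, Nat.add_zero] at k3
    rw [k3] at k2
    have k4 : (4 : ℝ) * d e q ≤ 5 * Δ := by exact_mod_cast hl2
    have k5 : |H.Φ g e c| ≤ |H.Φ g e (γ i2)| + |H.Φ g (γ i2) c| := by
      rw [← k1]; exact abs_add_le _ _
    have k6 : (d e q : ℝ) ≤ i2 := by linarith
    exact_mod_cast k6
  have h2 := hG.path.tri q b c
  have h3 := hb_pt hG hγ (z := q) (e := 2 * A + 2 * C + 4 * δ) (by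
    rw [hγ0, hγ1]; omega)
  rw [hγ0] at h3
  have h4 : d e q ≤ d e c := by
    have := hγ 0 i2 (Nat.zero_le _) (by omega)
    omega
  rw [min_eq_left h4] at h3
  have e6' : i1 ≤ d e (H.pr g e) := e6
  obtain ⟨z, hz, hdz⟩ := e5 (d e q) (by omega) hi2
  refine ⟨z, hz, ?_⟩
  have h5 := hG.path.tri q (γ (d e q)) z
  have h6 := hG.path.symm q (γ (d e q))
  omega

/-- A relator does not run along both sides of a vertex of the chain. -/
theorem deep (hG : HypG d δ) (hC : 100 * δ ≤ C) (hF : Fam H F Δ Tm)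
    (hch : CH H F A D n per U p v)
    (hrot : ∀ g ∈ F, ∀ w : G, w ^ n = 1 → w ≠ 1 → w * g * w⁻¹ ≠ g ∧ w * g * w⁻¹ ≠ g⁻¹)
    (hAΔ : 300 * A ≤ Δ) (hD : 2 * Δ ≤ D) {g : G} (hg : g ∈ F) {j k : ℕ} (hj : 0 < j)
    (hjk : j < k) (h1 : 3 / 2 * (Δ : ℝ) < |H.Φ g (p 0) (p j)|)
    (h2 : 3 / 2 * (Δ : ℝ) < |H.Φ g (p j) (p k)|) : False := by
  have hgX := hF.sub hg
  have hδ := hG.one
  have hΔ := hF.hC
  have hC1 : 100 ≤ C := by omega
  have hC1' : (100 : ℝ) ≤ C := by exact_mod_cast hC1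
  have hΔ' : 1000 * (C : ℝ) ≤ Δ := by exact_mod_cast hΔ
  have hC' : 100 * (δ : ℝ) ≤ C := by exact_mod_cast hC
  obtain ⟨i, rfl⟩ : ∃ i, j = i + 1 := ⟨j - 1, by omega⟩
  have hDA : 2 * A + 4 * C ≤ D := by omega
  -- the vertex is near the axis
  have he : d (p (i + 1)) (H.pr g (p (i + 1))) ≤ A + 4 * C := by
    have hK := ch_chain' hG hC hch hDA (i := 0) (j := i + 1) (k := k) (Nat.zero_le _) hjk.le
    have t1 := H.thr g hgX (p 0) (p (i + 1)) (by linarith)
    have t2 := H.thr g hgX (p (i + 1)) (p k) (by linarith)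
    have t3 := hl_onpr H hgX (p 0) (p k)
    have t4 := H.coc g hgX (p 0) (p (i + 1)) (p k)
    have t5 := abs_add_le (H.Φ g (p 0) (p (i + 1))) (H.Φ g (p (i + 1)) (p k))
    rw [t4] at t5
    have t6 := hG.path.tri (p 0) (H.pr g (p 0)) (p k)
    have t7 := hG.path.tri (H.pr g (p 0)) (H.pr g (p k)) (p k)
    have t8 := hG.path.symm (H.pr g (p (i + 1))) (p (i + 1))
    rw [t8] at t1
    have t9 : (d (p 0) (p k) : ℝ) ≤ d (p 0) (H.pr g (p 0)) + d (H.pr g (p 0)) (H.pr g (p k)) +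
        d (H.pr g (p k)) (p k) := by
      have : d (p 0) (p k) ≤ d (p 0) (H.pr g (p 0)) + d (H.pr g (p 0)) (H.pr g (p k)) +
        d (H.pr g (p k)) (p k) := by omega
      exact_mod_cast this
    have hK' : (d (p 0) (p (i + 1)) : ℝ) + d (p (i + 1)) (p k) ≤
        d (p 0) (p k) + (2 * A + 2 * C + 4 * δ) := by exact_mod_cast hK
    have h3 : 2 * (d (p (i + 1)) (H.pr g (p (i + 1))) : ℝ) ≤ 2 * A + 8 * C := by linarith
    have h4 : 2 * d (p (i + 1)) (H.pr g (p (i + 1))) ≤ 2 * A + 8 * C := by exact_mod_cast h3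
    omega
  -- the two sides
  obtain ⟨ζ, hζ0, hζ1, hζ⟩ := exists_geo hG.path (p (i + 1)) (p (i + 2))
  have hlo1 := hch.lo i
  have hlo2 : D ≤ d (p (i + 1)) (p (i + 2)) + C := hch.lo (i + 1)
  have hhi1 := hch.hi i
  have hs1 := hG.path.symm (p i) (p (i + 1))
  set l := Δ + 12 * A + 98 * C with hl
  have hlN : l + C ≤ d (p (i + 1)) (p (i + 2)) := by omega
  have hq1 : d (p (i + 1)) (ζ l) = l := by
    have := hζ 0 l (Nat.zero_le _) (by omega)
    rw [hζ0] at this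
    omega
  have hq2 : d (ζ l) (p (i + 2)) + l = d (p (i + 1)) (p (i + 2)) := by
    have := hζ l _ (by omega) le_rfl
    rw [hζ1] at this
    exact this
  obtain ⟨q', hq'b, hq'l⟩ := hG.path.geod (p (i + 1)) (p i) l (by omega)
  have hq'b' : d (p (i + 1)) q' + d q' (p i) = d (p (i + 1)) (p i) := hq'b
  have n1 : Nh d (2 * A + 10 * C) (H.Z g) (ζ l) := by
    refine side_near hG hC hgX (e := p (i + 1)) (b := p (i + 2)) (c := p k) ?_ hΔ h2 he
      ?_ ?_ ?_
    · exact ch_chain' hG hC hch hDA (by omega) (by omega)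
    · omega
    · omega
    · omega
  have n2 : Nh d (2 * A + 10 * C) (H.Z g) q' := by
    refine side_near hG hC hgX (e := p (i + 1)) (b := p i) (c := p 0) ?_ hΔ ?_ he
      hq'b' ?_ ?_
    · have k1 := ch_chain' hG hC hch hDA (i := 0) (j := i) (k := i + 1) (by omega) (by omega)
      have k2 := hG.path.symm (p 0) (p i)
      have k3 := hG.path.symm (p 0) (p (i + 1))
      omega
    · rw [hl_symm H hgX (p 0) (p (i + 1)), abs_neg]; exact h1
    · omega
    · omega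
  -- the rotation
  have hv0 := hch.v0 i
  have hv1 := hch.v1 i
  set w := v i with hw
  have hg' : w * g * w⁻¹ ∈ F := hF.conj g hg w
  have hne := hrot g hg w (hch.vn i) (hch.vne i)
  have m1 : d (ζ l) (w * q') ≤ 6 * C := by
    have k1 := hG.inv w (p (i + 1)) q'
    have k2 := hG.inv w q' (p i)
    have k3 := hG.path.tri (p (i + 1)) (w * p (i + 1)) (w * q')
    have k4 := hG.path.symm (p (i + 1)) (w * p (i + 1))
    have k5 := hG.path.tri (w * q') (w * p i) (p (i + 2))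
    have k6 := hG.path.tri (w * p (i + 1)) (p (i + 1)) (w * q')
    have k7 := hb_pt hG hζ (z := w * q') (e := 4 * C) (by
      rw [hζ0, hζ1]; omega)
    rw [hζ0, min_eq_left (by omega)] at k7
    have k8 : d (ζ l) (ζ (d (p (i + 1)) (w * q'))) ≤ C := by
      rcases le_total l (d (p (i + 1)) (w * q')) with h | h
      · have := hζ _ _ h (by omega)
        omega
      · have := hζ _ _ h (by omega)
        rw [hG.path.symm (ζ l)]
        omega
    have k9 := hG.path.tri (ζ l) (ζ (d (p (i + 1)) (w * q'))) (w * q')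
    omega
  have a1 : Nh d (2 * A + 16 * C) (H.Z g) (p (i + 1)) :=
    ⟨H.pr g (p (i + 1)), H.pr_mem g hgX _, by omega⟩
  have a2 : Nh d (2 * A + 16 * C) (H.Z g) (ζ l) := by
    obtain ⟨z, hz, hdz⟩ := n1
    exact ⟨z, hz, by omega⟩
  have a3 : Nh d (2 * A + 16 * C) (H.Z (w * g * w⁻¹)) (p (i + 1)) := by
    refine ⟨w * H.pr g (p (i + 1)), (H.Zconj g hgX w _).2 (H.pr_mem g hgX _), ?_⟩
    have k1 := hG.inv w (p (i + 1)) (H.pr g (p (i + 1)))
    have k2 := hG.path.tri (p (i + 1)) (w * p (i + 1)) (w * H.pr g (p (i + 1)))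
    have k3 := hG.path.symm (p (i + 1)) (w * p (i + 1))
    omega
  have a4 : Nh d (2 * A + 16 * C) (H.Z (w * g * w⁻¹)) (ζ l) := by
    obtain ⟨z, hz, hdz⟩ := n2
    refine ⟨w * z, (H.Zconj g hgX w _).2 hz, ?_⟩
    have k1 := hG.inv w q' z
    have k2 := hG.path.tri (ζ l) (w * q') (w * z)
    omega
  have b1 := hl_near hG H hgX a1 a2
  have b2 := hl_sep hG hF hg hg' hne.1 hne.2 a3 a4
  rw [hq1, hl] at b1
  push_cast at b1 b2
  linarith

/-- A relator along the chain sees at most one segment. -/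
theorem overlap (hG : HypG d δ) (hC : 100 * δ ≤ C) (hF : Fam H F Δ Tm)
    (hch : CH H F A D n per U p v)
    (hrot : ∀ g ∈ F, ∀ w : G, w ^ n = 1 → w ≠ 1 → w * g * w⁻¹ ≠ g ∧ w * g * w⁻¹ ≠ g⁻¹)
    (hAΔ : 300 * A ≤ Δ) (hD : 2 * Δ ≤ D) {g : G} (hg : g ∈ F) (k : ℕ) :
    |H.Φ g (p 0) (p k)| ≤ H.T g / 2 + 3 * Δ + 13 * C := by
  have hgX := hF.sub hg
  have hT := hl_Tpos H hgX
  have hC0 : (0 : ℝ) ≤ C := Nat.cast_nonneg C
  have hΔ0 : (0 : ℝ) ≤ Δ := Nat.cast_nonneg Δ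
  have key : ∀ j, j ≤ k → (∃ i ≤ j, |H.Φ g (p 0) (p i)| ≤ 3 / 2 * (Δ : ℝ) ∧
      ∀ m, i < m → m ≤ j → 3 / 2 * (Δ : ℝ) < |H.Φ g (p 0) (p m)|) := by
    intro j
    induction j with
    | zero =>
      intro _
      refine ⟨0, le_rfl, ?_, fun m h1 h2 => by omega⟩
      rw [hl_refl H hgX, abs_zero]; linarith
    | succ j ih =>
      intro hj
      obtain ⟨i, hi, h1, h2⟩ := ih (by omega)
      by_cases h3 : |H.Φ g (p 0) (p (j + 1))| ≤ 3 / 2 * (Δ : ℝ)
      · exact ⟨j + 1, le_rfl, h3, fun m h4 h5 => by omega⟩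
      · refine ⟨i, by omega, h1, fun m h4 h5 => ?_⟩
        rcases Nat.lt_or_ge m (j + 1) with h6 | h6
        · exact h2 m h4 (by omega)
        · have : m = j + 1 := by omega
          rw [this]
          exact lt_of_not_ge h3
  obtain ⟨i, hi, h1, h2⟩ := key k le_rfl
  rcases hi.eq_or_lt with rfl | hik
  · linarith
  have c1 := H.coc g hgX (p 0) (p i) (p k)
  have c2 := H.coc g hgX (p i) (p (i + 1)) (p k)
  have s1 := hch.seg g hg i
  have r1 := abs_add_le (H.Φ g (p 0) (p i)) (H.Φ g (p i) (p k))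
  have r2 := abs_add_le (H.Φ g (p i) (p (i + 1))) (H.Φ g (p (i + 1)) (p k))
  rw [c1] at r1
  rw [c2] at r2
  have r3 : |H.Φ g (p (i + 1)) (p k)| ≤ 3 / 2 * (Δ : ℝ) := by
    rcases Nat.lt_or_ge (i + 1) k with h3 | h3
    · by_contra hcon
      exact deep hG hC hF hch hrot hAΔ hD hg (Nat.succ_pos i) h3
        (h2 (i + 1) (Nat.lt_succ_self i) h3.le) (lt_of_not_ge hcon)
    · have : i + 1 = k := by omega
      rw [this, hl_refl H hgX, abs_zero]
      linarith
  linarith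

end J1

end Pool.Agent.Helper74.TB
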