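import Pool.Agent.Helper74.TB.J1b

/-! MP_7d16da_al, Part J1, third part: tightness along the axis. -/

set_option autoImplicit false

namespace Pool.Agent.Helper74.TB

open Pool.Agent.Helper74.MH

namespace J1

variable {G : Type*} [Group G] {d : G → G → ℕ} {δ C Δ A n : ℕ} {X F : Set G} {Tm : ℝ}
variable {D per : ℕ} {U : G} {p v : ℕ → G} {H : Hubs d X C}

/-- a point of the axis is close to a long geodesic between translates of `p 0` -/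
theorem axis_near (hG : HypG d δ) (hC : 100 * δ ≤ C) {x z : G} (hU : U ∈ X)
    (hx : d x (H.pr U x) ≤ A + 2 * C) (hz : z ∈ H.Z U) {a b : ℕ}
    (ha : -H.Φ U x z + C ≤ a * H.T U) (hb : H.Φ U x z + C ≤ b * H.T U)
    {N : ℕ} {γ : ℕ → G} (hγ : IsGeo d N γ) (h0 : γ 0 = U ^ (-(a : ℤ)) * x)
    (h1 : γ N = U ^ (b : ℤ) * x) : ∃ t ≤ N, d (γ t) z ≤ 2 * A + 7 * C := by
  have hT := hl_Tpos H hU
  have hN := hγ 0 N (Nat.zero_le _) le_rfl
  rw [Nat.add_zero, h0, h1] at hN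
  have hC0 : (0 : ℝ) ≤ C := Nat.cast_nonneg C
  -- the projected end points
  set x0 := H.pr U x with hx0
  have hx0Z : x0 ∈ H.Z U := H.pr_mem U hU x
  have hxp := H.pr_phi U hU x
  have hZa : U ^ (-(a : ℤ)) * x0 ∈ H.Z U := (hl_Zpow H hU x0 _).2 hx0Z
  have hZb : U ^ (b : ℤ) * x0 ∈ H.Z U := (hl_Zpow H hU x0 _).2 hx0Z
  have k1 := H.on U hU _ hZa z hz
  have k2 := H.on U hU z hz _ hZb
  have e1 : H.Φ U (U ^ (-(a : ℤ)) * x0) z = a * H.T U + H.Φ U x0 z := by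
    have c1 := H.coc U hU x0 (U ^ (-(a : ℤ)) * x0) z
    have c2 := hl_zpow H hU x0 (-(a : ℤ))
    push_cast at c2
    linarith
  have e2 : H.Φ U z (U ^ (b : ℤ) * x0) = b * H.T U - H.Φ U x0 z := by
    have c1 := H.coc U hU x0 z (U ^ (b : ℤ) * x0)
    have c2 := hl_zpow H hU x0 (b : ℤ)
    push_cast at c2
    linarith
  have e3 := H.coc U hU x x0 z
  rw [abs_le] at hxp
  rw [e1, abs_of_nonneg (by linarith [hxp.1, hxp.2])] at k1
  rw [e2, abs_of_nonneg (by linarith [hxp.1, hxp.2])] at k2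
  have k3 : ((a : ℝ) + b) * H.T U ≤ d (U ^ (-(a : ℤ)) * x) (U ^ (b : ℤ) * x) := by
    have c1 := H.lip U hU (U ^ (-(a : ℤ)) * x) (U ^ (b : ℤ) * x)
    have c2 := hl_zpow H hU x (-(a : ℤ))
    have c3 := hl_zpow H hU x (b : ℤ)
    have c4 := H.coc U hU x (U ^ (-(a : ℤ)) * x) (U ^ (b : ℤ) * x)
    push_cast at c2 c3
    have c5 := le_abs_self (H.Φ U (U ^ (-(a : ℤ)) * x) (U ^ (b : ℤ) * x))
    linarith
  have t1 := hG.path.tri (U ^ (-(a : ℤ)) * x) (U ^ (-(a : ℤ)) * x0) z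
  have t2 := hG.inv (U ^ (-(a : ℤ))) x x0
  have t3 := hG.path.tri z (U ^ (b : ℤ) * x0) (U ^ (b : ℤ) * x)
  have t4 := hG.inv (U ^ (b : ℤ)) x0 x
  have t5 := hG.path.symm x0 x
  have k4 : (d (U ^ (-(a : ℤ)) * x0) z : ℝ) + d z (U ^ (b : ℤ) * x0) ≤
      d (U ^ (-(a : ℤ)) * x) (U ^ (b : ℤ) * x) + 2 * C := by linarith
  have k5 : d (U ^ (-(a : ℤ)) * x0) z + d z (U ^ (b : ℤ) * x0) ≤
      d (U ^ (-(a : ℤ)) * x) (U ^ (b : ℤ) * x) + 2 * C := by exact_mod_cast k4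
  have k6 := hb_pt hG hγ (z := z) (e := 2 * A + 6 * C) (by rw [h0, h1]; omega)
  refine ⟨_, min_le_right _ _, k6.trans (by omega)⟩

/-- `Φ` between two points of a geodesic, in any order -/
theorem phi_any (hG : HypG d δ) (hC : 100 * δ ≤ C) {f : G} (hf : f ∈ X) {N : ℕ} {γ : ℕ → G}
    (hγ : IsGeo d N γ) {i j : ℕ} (hi : i ≤ N) (hj : j ≤ N) :
    H.Φ f (γ i) (γ j) ≤ |H.Φ f (γ 0) (γ N)| + 6 * C := by
  rcases le_total i j with h | h
  · refine (hl_sub hG H hC hf hγ h hj).trans ?_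
    have := le_abs_self (H.Φ f (γ 0) (γ N))
    have h2 := abs_nonneg (H.Φ f (γ 0) (γ N))
    have := max_le this h2
    linarith
  · have h1 := hl_sub hG H hC hf (hb_rev hG hγ) (i := N - i) (j := N - j) (by omega) (by omega)
    simp only [Nat.sub_zero, Nat.sub_self] at h1
    rw [Nat.sub_sub_self hi, Nat.sub_sub_self hj, hl_symm H hf (γ 0) (γ N)] at h1
    refine h1.trans ?_
    have := neg_le_abs (H.Φ f (γ 0) (γ N))
    have h2 := abs_nonneg (H.Φ f (γ 0) (γ N))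
    have := max_le this h2
    linarith

/-- tightness along the axis when the steps are long -/
theorem tight_long (hG : HypG d δ) (hC : 100 * δ ≤ C) (hF : Fam H F Δ Tm)
    (hch : CH H F A D n per U p v)
    (hrot : ∀ g ∈ F, ∀ w : G, w ^ n = 1 → w ≠ 1 → w * g * w⁻¹ ≠ g ∧ w * g * w⁻¹ ≠ g⁻¹)
    (hAΔ : 300 * A ≤ Δ) (hD : 2 * Δ ≤ D) (hU : U ∈ X) {g : G} (hg : g ∈ F) {z z' : G}
    (hz : z ∈ H.Z U) (hz' : z' ∈ H.Z U) :
    H.Φ g z z' ≤ H.T g / 2 + 4 * Δ := by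
  have hgX := hF.sub hg
  have hδ := hG.one
  have hΔ := hF.hC
  have hC1' : (1 : ℝ) ≤ C := by exact_mod_cast hF.hC1
  have hΔ' : 1000 * (C : ℝ) ≤ Δ := by exact_mod_cast hΔ
  have hAΔ' : 300 * (A : ℝ) ≤ Δ := by exact_mod_cast hAΔ
  have hT := H.Tbig U hU
  have hTpos : 0 < H.T U := by linarith
  have hx : d (p 0) (H.pr U (p 0)) ≤ A + 2 * C := ch_near hG hC hch (by omega) hU 0
  obtain ⟨a, ha⟩ := exists_nat_gt ((|H.Φ U (p 0) z| + |H.Φ U (p 0) z'| + C) / H.T U)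
  rw [div_lt_iff₀ hTpos] at ha
  have b1 := abs_nonneg (H.Φ U (p 0) z)
  have b2 := abs_nonneg (H.Φ U (p 0) z')
  have b3 := le_abs_self (H.Φ U (p 0) z)
  have b4 := le_abs_self (H.Φ U (p 0) z')
  have b5 := neg_le_abs (H.Φ U (p 0) z)
  have b6 := neg_le_abs (H.Φ U (p 0) z')
  obtain ⟨γ, hγ0, hγ1, hγ⟩ := exists_geo hG.path (U ^ (-(a : ℤ)) * p 0) (U ^ (a : ℤ) * p 0)
  obtain ⟨t, ht, hdt⟩ := axis_near (A := A) (x := p 0) (z := z) (a := a) (b := a) hG hC hU hx hz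
    (by linarith) (by linarith) hγ hγ0 hγ1
  obtain ⟨t', ht', hdt'⟩ := axis_near (A := A) (x := p 0) (z := z') (a := a) (b := a) hG hC hU hx
    hz' (by linarith) (by linarith) hγ hγ0 hγ1
  have k1 := phi_any (H := H) hG hC hgX hγ ht ht'
  have k2 := hl_lip2 hG H hgX z z' (γ t) (γ t')
  have k3 := hG.path.symm z (γ t)
  have k4 := hG.path.symm z' (γ t')
  rw [k3, k4] at k2
  have k5 : (d (γ t) z : ℝ) ≤ 2 * A + 7 * C := by exact_mod_cast hdt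
  have k6 : (d (γ t') z' : ℝ) ≤ 2 * A + 7 * C := by exact_mod_cast hdt'
  have k7 := le_abs_self (H.Φ g z z' - H.Φ g (γ t) (γ t'))
  -- the long pair
  have hg' : U ^ (a : ℤ) * g * (U ^ (a : ℤ))⁻¹ ∈ F := hF.conj g hg _
  have m1 := overlap hG hC hF hch hrot hAΔ hD hg' (0 + per * (a + a))
  rw [ch_pow hch 0 (a + a)] at m1
  have m2 := H.equi g hgX (U ^ (a : ℤ)) (U ^ (-(a : ℤ)) * p 0) (U ^ (a : ℤ) * p 0)
  have e1 : U ^ (a : ℤ) * (U ^ (-(a : ℤ)) * p 0) = p 0 := by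
    rw [zpow_neg, mul_inv_cancel_left]
  have e2 : U ^ (a : ℤ) * (U ^ (a : ℤ) * p 0) = U ^ (a + a) * p 0 := by
    rw [← mul_assoc, pow_add, zpow_natCast]
  rw [e1, e2] at m2
  rw [H.Tconj g hgX] at m1
  rw [hγ0, hγ1] at k1
  have m3 : |H.Φ g (U ^ (-(a : ℤ)) * p 0) (U ^ (a : ℤ) * p 0)| ≤
      H.T g / 2 + 3 * Δ + 13 * C + C := by
    rw [abs_le] at m1 m2 ⊢
    constructor <;> linarith [m1.1, m1.2, m2.1, m2.2]
  linarith

/-- the chain does not commute with a relator unless the steps are short -/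
theorem comm_short (hG : HypG d δ) (hC : 100 * δ ≤ C) (hF : Fam H F Δ Tm)
    (hch : CH H F A D n per U p v)
    (hrot : ∀ g ∈ F, ∀ w : G, w ^ n = 1 → w ≠ 1 → w * g * w⁻¹ ≠ g ∧ w * g * w⁻¹ ≠ g⁻¹)
    (hAΔ : 300 * A ≤ Δ) (hDA : 2 * A + 4 * C ≤ D) (hU : U ∈ X) {f : G} (hf : f ∈ F)
    (hc : Commute U f) : Nh d (A + 4 * C) (H.Z f) (p 0) ∧ D < 2 * Δ := by
  have hfX := hF.sub hf
  have hδ := hG.one
  have hΔ := hF.hC
  have hC1' : (1 : ℝ) ≤ C := by exact_mod_cast hF.hC1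
  have hΔ' : 1000 * (C : ℝ) ≤ Δ := by exact_mod_cast hΔ
  have hAΔ' : 300 * (A : ℝ) ≤ Δ := by exact_mod_cast hAΔ
  have hnear : ∀ j, Nh d (A + 4 * C) (H.Z f) (p j) := by
    intro j
    obtain ⟨z, hz, hdz⟩ := hl_comm hG H hF.hC1 hU hfX hc (H.pr_mem U hU (p j))
    have h1 := ch_near hG hC hch hDA hU j
    have h2 := hG.path.tri (p j) (H.pr U (p j)) z
    exact ⟨z, hz, by omega⟩
  refine ⟨hnear 0, ?_⟩
  by_contra hD
  rw [not_lt] at hD
  have hD' : 2 * (Δ : ℝ) ≤ D := by exact_mod_cast hD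
  have key : ∀ j, 3 / 2 * (Δ : ℝ) < |H.Φ f (p j) (p (j + 1))| := by
    intro j
    have h1 := hl_near hG H hfX (hnear j) (hnear (j + 1))
    have h2 : (D : ℝ) ≤ d (p j) (p (j + 1)) + C := by exact_mod_cast hch.lo j
    push_cast at h1
    linarith
  exact deep hG hC hF hch hrot hAΔ hD hf Nat.one_pos (by omega : 1 < 2) (key 0) (key 1)

end J1

end Pool.Agent.Helper74.TB
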