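import Pool.Agent.Helper74.TB.J1c

/-! MP_7d16da_al, Part J2, first part: chains of hubs. -/

set_option autoImplicit false

namespace Pool.Agent.Helper74.TB

open Pool.Agent.Helper74.MH

namespace J2

variable {G : Type} [Group G] {d : G → G → ℕ} {δ C Δ : ℕ} {X F : Set G} {Tm : ℝ}

/-- A chain of hubs with incoming gates `p j`. -/
structure JC (H : Hubs d X C) (F : Set G) (Δ : ℕ) (h p : ℕ → G) : Prop where
  hF : ∀ j, h j ∈ F
  hp : ∀ j, p j ∈ H.Z (h j)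
  ne : ∀ j, h (j + 1) ≠ h j ∧ h (j + 1) ≠ (h j)⁻¹
  gate : ∀ j, ∀ a ∈ H.Z (h j), |H.Φ (h (j + 1)) a (p (j + 1))| ≤ 3 * Δ
  lo : ∀ j, ∀ b ∈ H.Z (h (j + 1)), 8 * (Δ : ℝ) ≤ |H.Φ (h j) (p j) b|
  hi : ∀ j, ∀ b ∈ H.Z (h (j + 1)), |H.Φ (h j) (p j) b| ≤ H.T (h j) / 2 + 3 * Δ
  seg : ∀ j, ∀ g ∈ F, |H.Φ g (p j) (p (j + 1))| ≤ H.T g / 2 + 35 * Δ

section
variable {H : Hubs d X C} {h p : ℕ → G}

theorem jc_gap (hF : Fam H F Δ Tm) (J : JC H F Δ h p) (j : ℕ) {a b : G} (ha : a ∈ H.Z (h j))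
    (hb : b ∈ H.Z (h (j + 2))) : 5 * (Δ : ℝ) ≤ |H.Φ (h (j + 1)) a b| ∧
      |H.Φ (h (j + 1)) a b| ≤ H.T (h (j + 1)) / 2 + 6 * Δ := by
  have hX := hF.sub (J.hF (j + 1))
  have h1 := J.gate j a ha
  have h2 := J.lo (j + 1) b hb
  have h3 := J.hi (j + 1) b hb
  have h4 := H.coc (h (j + 1)) hX a (p (j + 1)) b
  have h5 := abs_add_le (H.Φ (h (j + 1)) a (p (j + 1))) (H.Φ (h (j + 1)) (p (j + 1)) b)
  rw [h4] at h5
  have h6 : |H.Φ (h (j + 1)) (p (j + 1)) b| ≤ |H.Φ (h (j + 1)) a b| +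
      |H.Φ (h (j + 1)) a (p (j + 1))| := by
    have e : H.Φ (h (j + 1)) (p (j + 1)) b = H.Φ (h (j + 1)) a b - H.Φ (h (j + 1)) a (p (j + 1)) := by
      linarith
    rw [e]
    exact abs_sub _ _
  constructor <;> linarith

theorem jc_left (hG : HypG d δ) (hF : Fam H F Δ Tm) (J : JC H F Δ h p) (j : ℕ) :
    ∀ b ∈ H.Z (h j), |H.Φ (h (j + 1)) (p 0) b| ≤ Δ + 10 * C := by
  have hΔC : 1000 * (C : ℝ) ≤ Δ := by exact_mod_cast hF.hC
  have hC1 : (1 : ℝ) ≤ C := by exact_mod_cast hF.hC1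
  refine hl_chain hG hF (m := j + 1) (h := h) (fun i _ => J.hF i) (fun i _ => J.ne i) ?_ ?_ j
    (Nat.lt_succ_self j)
  · intro i _ a ha b hb
    have := (jc_gap hF J i ha hb).1
    linarith
  · intro _
    refine ⟨p 1, J.hp 1, ?_⟩
    have := J.lo 0 (p 1) (J.hp 1)
    linarith

theorem jc_right (hG : HypG d δ) (hF : Fam H F Δ Tm) (J : JC H F Δ h p) {j M : ℕ}
    (hj : j + 2 ≤ M) : ∀ b ∈ H.Z (h (j + 1)), |H.Φ (h j) (p M) b| ≤ Δ + 10 * C := by
  have hΔC : 1000 * (C : ℝ) ≤ Δ := by exact_mod_cast hF.hC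
  have hC1 : (1 : ℝ) ≤ C := by exact_mod_cast hF.hC1
  have key := hl_chain hG hF (m := M - 1) (h := fun i => h (M - 1 - i)) (x := p M)
    (fun i _ => J.hF _) (fun i hi => by
      have e : M - 1 - i = M - 1 - (i + 1) + 1 := by omega
      have := J.ne (M - 1 - (i + 1))
      rw [← e] at this
      refine ⟨fun h => this.1 h.symm, fun h => this.2 ?_⟩
      rw [h, inv_inv]) (by
      intro i hi a ha b hb
      have e1 : M - 1 - i = M - 1 - (i + 2) + 2 := by omega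
      have e2 : M - 1 - (i + 1) = M - 1 - (i + 2) + 1 := by omega
      change a ∈ H.Z (h (M - 1 - i)) at ha
      change b ∈ H.Z (h (M - 1 - (i + 2))) at hb
      change _ ≤ |H.Φ (h (M - 1 - (i + 1))) a b|
      rw [e1] at ha
      rw [e2]
      have := (jc_gap hF J (M - 1 - (i + 2)) hb ha).1
      rw [hl_symm H (hF.sub (J.hF _)), abs_neg]
      linarith) (by
      intro _
      refine ⟨p (M - 2), ?_, ?_⟩
      · have e : M - 1 - 1 = M - 2 := by omega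
        change p (M - 2) ∈ H.Z (h (M - 1 - 1))
        rw [e]
        exact J.hp _
      · change _ < |H.Φ (h (M - 1 - 0)) (p M) (p (M - 2))|
        have e1 : M = M - 2 + 2 := by omega
        have e2 : M - 1 - 0 = M - 2 + 1 := by omega
        have h1 := J.hp M
        have h2 := J.hp (M - 2)
        have h3 : p M ∈ H.Z (h (M - 2 + 2)) := by rw [← e1]; exact h1
        have := (jc_gap hF J (M - 2) h2 h3).1
        rw [e2, hl_symm H (hF.sub (J.hF _)), abs_neg]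
        linarith) (M - 2 - j) (by omega)
  intro b hb
  have e1 : M - 1 - (M - 2 - j) = j + 1 := by omega
  have e2 : M - 1 - (M - 2 - j + 1) = j := by omega
  have h1 := key b (by
    change b ∈ H.Z (h (M - 1 - (M - 2 - j)))
    rw [e1]; exact hb)
  change |H.Φ (h (M - 1 - (M - 2 - j + 1))) (p M) b| ≤ _ at h1
  rw [e2] at h1
  exact h1

theorem jc_mid (hG : HypG d δ) (hF : Fam H F Δ Tm) (J : JC H F Δ h p) {j M : ℕ} (hj : j + 1 < M) :
    3 * (Δ : ℝ) - 20 * C ≤ |H.Φ (h (j + 1)) (p 0) (p M)| ∧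
      |H.Φ (h (j + 1)) (p 0) (p M)| ≤ H.T (h (j + 1)) / 2 + 8 * Δ + 20 * C := by
  have hX := hF.sub (J.hF (j + 1))
  have h1 := jc_left hG hF J j (p j) (J.hp j)
  have h2 := jc_gap hF J j (J.hp j) (J.hp (j + 2))
  have h3 : |H.Φ (h (j + 1)) (p (j + 2)) (p M)| ≤ Δ + 10 * C := by
    rcases Nat.lt_or_ge (j + 2) M with h | h
    · have := jc_right hG hF J (j := j + 1) (M := M) (by omega) (p (j + 2)) (J.hp (j + 2))
      rw [hl_symm H hX, abs_neg]
      exact this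
    · have e : M = j + 2 := by omega
      rw [e, hl_refl H hX, abs_zero]
      positivity
  have c1 := H.coc (h (j + 1)) hX (p 0) (p j) (p M)
  have c2 := H.coc (h (j + 1)) hX (p j) (p (j + 2)) (p M)
  obtain ⟨h4, h5⟩ := h2
  have e1 : H.Φ (h (j + 1)) (p 0) (p M) = H.Φ (h (j + 1)) (p 0) (p j) +
    H.Φ (h (j + 1)) (p j) (p (j + 2)) + H.Φ (h (j + 1)) (p (j + 2)) (p M) := by linarith
  constructor
  · have e2 : H.Φ (h (j + 1)) (p j) (p (j + 2)) = H.Φ (h (j + 1)) (p 0) (p M) -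
      H.Φ (h (j + 1)) (p 0) (p j) - H.Φ (h (j + 1)) (p (j + 2)) (p M) := by linarith
    have e3 : |H.Φ (h (j + 1)) (p j) (p (j + 2))| ≤ |H.Φ (h (j + 1)) (p 0) (p M)| +
      |H.Φ (h (j + 1)) (p 0) (p j)| + |H.Φ (h (j + 1)) (p (j + 2)) (p M)| := by
      rw [e2]
      exact (abs_sub _ _).trans (add_le_add (abs_sub _ _) le_rfl)
    linarith
  · rw [e1]
    have := abs_add_three (H.Φ (h (j + 1)) (p 0) (p j)) (H.Φ (h (j + 1)) (p j) (p (j + 2)))
      (H.Φ (h (j + 1)) (p (j + 2)) (p M))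
    linarith

/-- all relators are short along the chain -/
theorem jc_tight (hCHB : StCHB) (hG : HypG d δ) (hF : Fam H F Δ Tm) (J : JC H F Δ h p) (M : ℕ)
    {g : G} (hg : g ∈ F) : |H.Φ g (p 0) (p M)| ≤ H.T g / 2 + 38 * Δ := by
  have hΔC : 1000 * (C : ℝ) ≤ Δ := by exact_mod_cast hF.hC
  have hC1 : (1 : ℝ) ≤ C := by exact_mod_cast hF.hC1
  have hX := hF.sub hg
  have hT := hl_Tpos H hX
  rcases M with _ | _ | M
  · rw [hl_refl H hX, abs_zero]
    positivity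
  · have := J.seg 0 g hg
    rw [Nat.zero_add] at this ⊢
    linarith
  by_cases hex : ∃ j ≤ M, g = h (j + 1) ∨ g = (h (j + 1))⁻¹
  · obtain ⟨j, hj, hgj⟩ := hex
    have h1 := (jc_mid hG hF J (j := j) (M := M + 2) (by omega)).2
    have hX' := hF.sub (J.hF (j + 1))
    rcases hgj with rfl | rfl
    · change |H.Φ (h (j + 1)) (p 0) (p (M + 2))| ≤ _
      linarith
    · rw [H.Tinv _ hX']
      have h2 := H.neg _ hX' (p 0) (p (M + 2))
      change |H.Φ (h (j + 1))⁻¹ (p 0) (p (M + 2))| ≤ _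
      rw [abs_le] at h1 h2 ⊢
      constructor <;> linarith [h1.1, h1.2, h2.1, h2.2]
  · push Not at hex
    have h1 := hCHB G d δ C Δ X F H Tm (H.T g / 2 + 35 * Δ) hG hF M (fun i => h (i + 1)) (p 0)
      (p (M + 2)) g (fun i => p (i + 1)) (fun i => p (i + 1)) (fun i _ => J.hF _) hg
      (fun i hi => hex i hi) (fun i hi => by
        have := (jc_mid hG hF J (j := i) (M := M + 2) (by omega)).1
        linarith) (fun i _ => J.hp _) (fun i _ => J.hp _) (J.seg 0 g hg)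
      (fun i _ => J.seg (i + 1) g hg) (J.seg (M + 1) g hg)
    change |H.Φ g (p 0) (p (M + 2))| ≤ _
    linarith

/-- growth along the chain -/
theorem jc_grow (hG : HypG d δ) (hC : 100 * δ ≤ C) (hF : Fam H F Δ Tm) (J : JC H F Δ h p)
    (k : ℕ) : k * Δ ≤ d (p 0) (p k) := by
  have hΔ := hF.hC
  have hδ := hG.one
  have hΔC : 1000 * (C : ℝ) ≤ Δ := by exact_mod_cast hF.hC
  have hC1 : (1 : ℝ) ≤ C := by exact_mod_cast hF.hC1
  have step : ∀ j, 8 * Δ ≤ d (p j) (p (j + 1)) := by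
    intro j
    have h1 := J.lo j (p (j + 1)) (J.hp (j + 1))
    have h2 := H.lip (h j) (hF.sub (J.hF j)) (p j) (p (j + 1))
    have h3 : 8 * (Δ : ℝ) ≤ d (p j) (p (j + 1)) := h1.trans h2
    exact_mod_cast h3
  have prod : ∀ j, d (p j) (p (j + 1)) + d (p (j + 1)) (p (j + 2)) ≤ d (p j) (p (j + 2)) +
      (6 * Δ + 7 * C) := by
    intro j
    have hX := hF.sub (J.hF (j + 1))
    set f := h (j + 1) with hf
    have h1 := (jc_gap hF J j (J.hp j) (J.hp (j + 2))).1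
    rw [← hf] at h1
    have t1 := H.thr f hX (p j) (p (j + 2)) (by linarith)
    have g1 := J.gate j (p j) (J.hp j)
    rw [← hf] at g1
    have o1 := H.on f hX _ (H.pr_mem f hX (p j)) _ (J.hp (j + 1))
    have o2 := H.on f hX _ (J.hp (j + 1)) _ (H.pr_mem f hX (p (j + 2)))
    have q1 := H.pr_phi f hX (p j)
    have q2 := H.pr_phi f hX (p (j + 2))
    have c1 := H.coc f hX (p j) (H.pr f (p j)) (p (j + 1))
    have c2 := H.coc f hX (p (j + 1)) (p (j + 2)) (H.pr f (p (j + 2)))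
    have c3 := H.coc f hX (p j) (p (j + 1)) (p (j + 2))
    have s1 := hG.path.tri (p j) (H.pr f (p j)) (p (j + 1))
    have s2 := hG.path.tri (p (j + 1)) (H.pr f (p (j + 2))) (p (j + 2))
    have a1 : |H.Φ f (H.pr f (p j)) (p (j + 1))| ≤ 3 * Δ + C := by
      have e : H.Φ f (H.pr f (p j)) (p (j + 1)) = H.Φ f (p j) (p (j + 1)) -
        H.Φ f (p j) (H.pr f (p j)) := by linarith
      rw [e]
      exact (abs_sub _ _).trans (by linarith)
    have a2 : |H.Φ f (p (j + 1)) (H.pr f (p (j + 2)))| ≤ |H.Φ f (p j) (p (j + 2))| + 3 * Δ + C := by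
      have e : H.Φ f (p (j + 1)) (H.pr f (p (j + 2))) = H.Φ f (p j) (p (j + 2)) -
        H.Φ f (p j) (p (j + 1)) + H.Φ f (p (j + 2)) (H.pr f (p (j + 2))) := by linarith
      rw [e]
      refine (abs_add_le _ _).trans ?_
      have := abs_sub (H.Φ f (p j) (p (j + 2))) (H.Φ f (p j) (p (j + 1)))
      linarith
    have s1' : (d (p j) (p (j + 1)) : ℝ) ≤ d (p j) (H.pr f (p j)) +
        d (H.pr f (p j)) (p (j + 1)) := by exact_mod_cast s1
    have s2' : (d (p (j + 1)) (p (j + 2)) : ℝ) ≤ d (p (j + 1)) (H.pr f (p (j + 2))) +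
        d (H.pr f (p (j + 2))) (p (j + 2)) := by exact_mod_cast s2
    have fin : (d (p j) (p (j + 1)) : ℝ) + d (p (j + 1)) (p (j + 2)) ≤ d (p j) (p (j + 2)) +
      (6 * Δ + 7 * C) := by linarith
    exact_mod_cast fin
  induction k with
  | zero => simp
  | succ k ih =>
    have h1 := hb_chain hG (m := k + 1) (a := 6 * Δ + 7 * C) (x := p) (fun i _ => prod i)
      (fun i _ => by have := step i; omega) (i := 0) (j := k) (k := k + 1) (Nat.zero_le _)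
      (Nat.le_succ k) le_rfl
    have h2 := step k
    have h3 : (k + 1) * Δ = k * Δ + Δ := by ring
    rw [h3]
    omega

/-- displacement of `U` -/
theorem jc_Lx (hG : HypG d δ) (hC : 100 * δ ≤ C) (hF : Fam H F Δ Tm) (J : JC H F Δ h p) {U : G}
    (hU : ∀ m : ℕ, p (4 * m) = U ^ m * p 0) : U ∈ Lx d (100 * C) := by
  intro z
  by_contra hcon
  rw [not_le] at hcon
  have hΔ := hF.hC
  have hC1 := hF.hC1
  have hz : ∀ m : ℕ, d z (U ^ m * z) ≤ m * (100 * C) := by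
    intro m
    induction m with
    | zero => rw [pow_zero, one_mul, hb_self hG]; exact Nat.zero_le _
    | succ m ih =>
      have h1 := hG.path.tri z (U ^ m * z) (U ^ (m + 1) * z)
      have h2 : d (U ^ m * z) (U ^ (m + 1) * z) = d z (U * z) := by
        rw [pow_succ, mul_assoc, hG.inv]
      have h3 : (m + 1) * (100 * C) = m * (100 * C) + 100 * C := by ring
      omega
  set m := 2 * d z (p 0) + 1 with hm
  have h1 := hz m
  have h2 := jc_grow hG hC hF J (4 * m)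
  rw [hU] at h2
  have t1 := hG.path.tri (p 0) z (U ^ m * p 0)
  have t2 := hG.path.tri z (U ^ m * z) (U ^ m * p 0)
  have t3 := hG.inv (U ^ m) z (p 0)
  have t4 := hG.path.symm (p 0) z
  have h4 : m * (100 * C + 1) ≤ 4 * m * Δ := by
    have e : 4 * m * Δ = m * (4 * Δ) := by ring
    rw [e]
    exact Nat.mul_le_mul_left _ (by omega)
  have h6 : m * (100 * C + 1) = m * (100 * C) + m := by ring
  omega

theorem jc_pow_ne (hG : HypG d δ) (hC : 100 * δ ≤ C) (hF : Fam H F Δ Tm) (J : JC H F Δ h p)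
    {U : G} (hU : ∀ m : ℕ, p (4 * m) = U ^ m * p 0) {m : ℕ} (hm : 0 < m) : U ^ m ≠ 1 := by
  intro h1
  have h2 := jc_grow hG hC hF J (4 * m)
  rw [hU, h1, one_mul, hb_self hG] at h2
  have := hF.hC
  have := hF.hC1
  have : 0 < 4 * m * Δ := Nat.mul_pos (by omega) (by omega)
  omega

end

/-- a point of the axis is close to a long geodesic between translates of any point -/
theorem axis_near (hG : HypG d δ) (hC : 100 * δ ≤ C) (H : Hubs d X C) {U x z : G} (hU : U ∈ X)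
    (hz : z ∈ H.Z U) {a : ℕ}
    (ha : |H.Φ U x z| + d x (H.pr U x) + 10 * C < a * H.T U)
    {N : ℕ} {γ : ℕ → G} (hγ : IsGeo d N γ) (h0 : γ 0 = U ^ (-(a : ℤ)) * x)
    (h1 : γ N = U ^ (a : ℤ) * x) : ∃ t ≤ N, d (γ t) z ≤ 3 * C := by
  have hδ := hG.one
  have hT := hl_Tpos H hU
  have hC0 : (0 : ℝ) ≤ C := Nat.cast_nonneg C
  set x0 := H.pr U x with hx0
  have hx0Z : x0 ∈ H.Z U := H.pr_mem U hU x
  have hxp := H.pr_phi U hU x
  have hZa : U ^ (-(a : ℤ)) * x0 ∈ H.Z U := (hl_Zpow H hU x0 _).2 hx0Z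
  have hZb : U ^ (a : ℤ) * x0 ∈ H.Z U := (hl_Zpow H hU x0 _).2 hx0Z
  have k1 := H.on U hU _ hZa z hz
  have k2 := H.on U hU z hz _ hZb
  have b1 := le_abs_self (H.Φ U x z)
  have b2 := neg_abs_le (H.Φ U x z)
  have b0 : (0 : ℝ) ≤ d x x0 := Nat.cast_nonneg _
  have e1 : H.Φ U (U ^ (-(a : ℤ)) * x0) z = a * H.T U + H.Φ U x0 z := by
    have c1 := H.coc U hU x0 (U ^ (-(a : ℤ)) * x0) z
    have c2 := hl_zpow H hU x0 (-(a : ℤ))
    push_cast at c2
    linarith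
  have e2 : H.Φ U z (U ^ (a : ℤ) * x0) = a * H.T U - H.Φ U x0 z := by
    have c1 := H.coc U hU x0 z (U ^ (a : ℤ) * x0)
    have c2 := hl_zpow H hU x0 (a : ℤ)
    push_cast at c2
    linarith
  have e3 := H.coc U hU x x0 z
  rw [abs_le] at hxp
  have p1 : (d x x0 : ℝ) + 9 * C < a * H.T U + H.Φ U x0 z := by linarith [hxp.1, hxp.2]
  have p2 : (d x x0 : ℝ) + 9 * C < a * H.T U - H.Φ U x0 z := by linarith [hxp.1, hxp.2]
  rw [e1, abs_of_nonneg (by linarith)] at k1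
  rw [e2, abs_of_nonneg (by linarith)] at k2
  have l1 := H.lip U hU (U ^ (-(a : ℤ)) * x0) z
  rw [e1, abs_of_nonneg (by linarith)] at l1
  have l2 := H.lip U hU z (U ^ (a : ℤ) * x0)
  rw [e2, abs_of_nonneg (by linarith)] at l2
  have k3 : 2 * (a : ℝ) * H.T U ≤ d (U ^ (-(a : ℤ)) * x0) (U ^ (a : ℤ) * x0) := by
    have c1 := H.lip U hU (U ^ (-(a : ℤ)) * x0) (U ^ (a : ℤ) * x0)
    have c4 := H.coc U hU (U ^ (-(a : ℤ)) * x0) z (U ^ (a : ℤ) * x0)
    have c5 := le_abs_self (H.Φ U (U ^ (-(a : ℤ)) * x0) (U ^ (a : ℤ) * x0))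
    linarith
  obtain ⟨η, hη0, hη1, hη⟩ := exists_geo hG.path (U ^ (-(a : ℤ)) * x0) (U ^ (a : ℤ) * x0)
  have k4 : (d (U ^ (-(a : ℤ)) * x0) z : ℝ) + d z (U ^ (a : ℤ) * x0) ≤
      d (U ^ (-(a : ℤ)) * x0) (U ^ (a : ℤ) * x0) + 2 * C := by linarith
  have k5 : d (U ^ (-(a : ℤ)) * x0) z + d z (U ^ (a : ℤ) * x0) ≤
      d (U ^ (-(a : ℤ)) * x0) (U ^ (a : ℤ) * x0) + 2 * C := by exact_mod_cast k4
  have k6 := hb_pt hG hη (z := z) (e := 2 * C) (by rw [hη0, hη1]; exact k5)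
  set s := min (d (η 0) z) (d (U ^ (-(a : ℤ)) * x0) (U ^ (a : ℤ) * x0)) with hs
  have hsN : s ≤ d (U ^ (-(a : ℤ)) * x0) (U ^ (a : ℤ) * x0) := min_le_right _ _
  have m1 : d x x0 + 9 * C < d (U ^ (-(a : ℤ)) * x0) z := by
    have : (d x x0 : ℝ) + 9 * C < d (U ^ (-(a : ℤ)) * x0) z := by linarith
    exact_mod_cast this
  have m2 : d x x0 + 9 * C < d z (U ^ (a : ℤ) * x0) := by
    have : (d x x0 : ℝ) + 9 * C < d z (U ^ (a : ℤ) * x0) := by linarith
    exact_mod_cast this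
  obtain ⟨ζ1, hζ10, hζ11, hζ1⟩ := exists_geo hG.path (U ^ (-(a : ℤ)) * x0) (U ^ (-(a : ℤ)) * x)
  obtain ⟨ζ2, hζ20, hζ21, hζ2⟩ := exists_geo hG.path (U ^ (a : ℤ) * x) (U ^ (a : ℤ) * x0)
  have i1 := hG.inv (U ^ (-(a : ℤ))) x0 x
  have i2 := hG.inv (U ^ (a : ℤ)) x x0
  have i3 := hG.path.symm x x0
  rcases hb_quad hG hη hζ1 hγ hζ2 (hη0.trans hζ10.symm) (hζ11.trans h0.symm)
    (h1.trans hζ20.symm) (hη1.trans hζ21.symm) hsN with ⟨t, ht, hd⟩ | ⟨t, ht, hd⟩ | ⟨t, ht, hd⟩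
  · exfalso
    have n1 := hζ1 0 t (Nat.zero_le _) ht
    rw [hζ10] at n1
    have n2 := hG.path.tri (U ^ (-(a : ℤ)) * x0) (ζ1 t) z
    have n3 := hG.path.tri (ζ1 t) (η s) z
    have n4 := hG.path.symm (ζ1 t) (η s)
    omega
  · refine ⟨t, ht, ?_⟩
    have n3 := hG.path.tri (γ t) (η s) z
    have n4 := hG.path.symm (γ t) (η s)
    omega
  · exfalso
    have n1 := hζ2 t _ ht le_rfl
    rw [hζ21] at n1
    have n2 := hG.path.tri z (ζ2 t) (U ^ (a : ℤ) * x0)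
    have n3 := hG.path.tri z (η s) (ζ2 t)
    have n4 := hG.path.symm z (η s)
    omega

end J2

end Pool.Agent.Helper74.TB
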