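import Pool.Agent.Helper74.TB.J2a

/-! MP_7d16da_al, Part J2, second part: from a chain of hubs to the quotient. -/

set_option autoImplicit false

namespace Pool.Agent.Helper74.TB

open Pool.Agent.Helper74.MH

namespace J2

/-- the translation length statement, for a fixed constant -/
def TLM (M1 : ℕ) : Prop :=
  ∀ (G G' : Type) [Group G] [Group G'] (d : G → G → ℕ) (d' : G' → G' → ℕ)
    (δ C Δ R n q A L Ax L1 : ℕ) (F : Set G) (H : Hubs d (Lx d (100 * C)) C) (c Tm : ℝ)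
    (π : G →* G'), Stage d δ n q A L → Alg H n q L Ax → Rels H F n L1 Δ Tm →
    Cst2 δ C Δ R n q L Ax L1 M1 Tm → Quo H F R π d' → 0 ≤ c → 200 * c ≤ Tm →
    ∀ g ∈ Lx d (100 * C), (∀ f ∈ F, ¬ Commute g f) → ∀ l : ℕ, l ≤ R → (l : ℝ) ≤ 2 * H.T g →
      (∀ x ∈ H.Z g, ∀ m : ℕ, Tight H F (fun f => H.T f / 2) c x (g ^ m * x)) →
      ∀ (a : G') (m : ℕ), l * m ≤ 10 * R * M1 * d' a (π g ^ m * a)

variable {G G' : Type} [Group G] [Group G'] {d : G → G → ℕ} {d' : G' → G' → ℕ}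
  {δ C Δ R n q A L Ax L1 M1 : ℕ} {F : Set G} {H : Hubs d (Lx d (100 * C)) C} {Tm : ℝ}
  {π : G →* G'}

theorem jc_fin (hCHB : StCHB) (hTL : TLM M1) (hS : Stage d δ n q A L) (hA : Alg H n q L Ax)
    (hR : Rels H F n L1 Δ Tm) (hc : Cst2 δ C Δ R n q L Ax L1 M1 Tm) (hQ : Quo H F R π d')
    {h p : ℕ → G} (J : JC H F Δ h p) {U : G} (hU : ∀ m : ℕ, p (4 * m) = U ^ m * p 0) :
    U ^ n ≠ 1 ∧ π U ^ n ≠ 1 := by
  have hG : HypG d δ := hS.toHypG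
  have hF : Fam H F Δ Tm := hR.toFam
  have hC := hc.cst.hC
  have hC1 := hF.hC1
  have hn := hc.hn
  have hΔC : 1000 * (C : ℝ) ≤ Δ := by exact_mod_cast hF.hC
  have hC1' : (1 : ℝ) ≤ C := by exact_mod_cast hC1
  have hUX := jc_Lx hG hC hF J hU
  have hT := H.Tbig U hUX
  have hTpos : 0 < H.T U := by linarith
  -- all translates
  have key : ∀ (a : ℕ), ∀ g ∈ F,
      |H.Φ g (U ^ (-(a : ℤ)) * p 0) (U ^ (a : ℤ) * p 0)| ≤ H.T g / 2 + 38 * Δ + C := by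
    intro a g hg
    have hgX := hF.sub hg
    have hg' : U ^ (a : ℤ) * g * (U ^ (a : ℤ))⁻¹ ∈ F := hF.conj g hg _
    have m1 := jc_tight hCHB hG hF J (4 * (a + a)) hg'
    rw [hU] at m1
    have m2 := H.equi g hgX (U ^ (a : ℤ)) (U ^ (-(a : ℤ)) * p 0) (U ^ (a : ℤ) * p 0)
    have e1 : U ^ (a : ℤ) * (U ^ (-(a : ℤ)) * p 0) = p 0 := by
      rw [zpow_neg, mul_inv_cancel_left]
    have e2 : U ^ (a : ℤ) * (U ^ (a : ℤ) * p 0) = U ^ (a + a) * p 0 := by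
      rw [← mul_assoc, pow_add, zpow_natCast]
    rw [e1, e2] at m2
    rw [H.Tconj g hgX] at m1
    rw [abs_le] at m1 m2 ⊢
    constructor <;> linarith [m1.1, m1.2, m2.1, m2.2]
  -- tightness on the axis
  have tight : ∀ z ∈ H.Z U, ∀ z' ∈ H.Z U, ∀ g ∈ F, H.Φ g z z' ≤ H.T g / 2 + 39 * Δ := by
    intro z hz z' hz' g hg
    have hgX := hF.sub hg
    obtain ⟨a, ha⟩ := exists_nat_gt
      ((|H.Φ U (p 0) z| + |H.Φ U (p 0) z'| + d (p 0) (H.pr U (p 0)) + 10 * C) / H.T U)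
    rw [div_lt_iff₀ hTpos] at ha
    have b1 := abs_nonneg (H.Φ U (p 0) z)
    have b2 := abs_nonneg (H.Φ U (p 0) z')
    obtain ⟨γ, hγ0, hγ1, hγ⟩ := exists_geo hG.path (U ^ (-(a : ℤ)) * p 0) (U ^ (a : ℤ) * p 0)
    obtain ⟨t, ht, hdt⟩ := axis_near hG hC H hUX hz (a := a) (by linarith) hγ hγ0 hγ1
    obtain ⟨t', ht', hdt'⟩ := axis_near hG hC H hUX hz' (a := a) (by linarith) hγ hγ0 hγ1
    have k1 := J1.phi_any (H := H) hG hC hgX hγ ht ht'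
    have k2 := hl_lip2 hG H hgX z z' (γ t) (γ t')
    have k3 := hG.path.symm z (γ t)
    have k4 := hG.path.symm z' (γ t')
    rw [k3, k4] at k2
    have k5 : (d (γ t) z : ℝ) ≤ 3 * C := by exact_mod_cast hdt
    have k6 : (d (γ t') z' : ℝ) ≤ 3 * C := by exact_mod_cast hdt'
    have k7 := le_abs_self (H.Φ g z z' - H.Φ g (γ t) (γ t'))
    rw [hγ0, hγ1] at k1
    have k8 := key a g hg
    linarith
  -- no commuting relator
  have hcom : ∀ f ∈ F, ¬ Commute U f := by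
    intro f hf hUf
    have hfX := hF.sub hf
    set z := H.pr U 1 with hz
    have hzZ : z ∈ H.Z U := H.pr_mem U hUX 1
    obtain ⟨m, hm⟩ := exists_nat_gt ((H.T f / 2 + 39 * Δ + 20 * C) / H.T U)
    rw [div_lt_iff₀ hTpos] at hm
    have hmZ : U ^ m * z ∈ H.Z U := by
      have := (hl_Zpow H hUX z (m : ℤ)).2 hzZ
      rwa [zpow_natCast] at this
    have n1 : Nh d (2 * C) (H.Z f) z := hl_comm hG H hC1 hUX hfX hUf hzZ
    have n2 : Nh d (2 * C) (H.Z f) (U ^ m * z) := hl_comm hG H hC1 hUX hfX hUf hmZ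
    have n3 := hl_near hG H hfX n1 n2
    have n4 := H.lip U hUX z (U ^ m * z)
    have n5 := hl_zpow H hUX z (m : ℤ)
    rw [zpow_natCast] at n5
    push_cast at n5
    have n6 := le_abs_self (H.Φ U z (U ^ m * z))
    have n7 := tight z hzZ _ hmZ f hf
    have n8 := tight _ hmZ z hzZ f hf
    rw [hl_symm H hfX z (U ^ m * z)] at n8
    have n9 : |H.Φ f z (U ^ m * z)| ≤ H.T f / 2 + 39 * Δ := abs_le.2 ⟨by linarith, n7⟩
    push_cast at n3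
    linarith
  have hT10 := hc.cst.hcT
  refine ⟨jc_pow_ne hG hC hF J hU (by omega), ?_⟩
  intro hpi
  have h1 := hTL G G' d d' δ C Δ R n q A L Ax L1 F H (39 * Δ) Tm π hS hA hR hc hQ
    (by positivity) (by linarith) U hUX hcom 1 (by
      have := hc.cst.hR
      have := hc.cst.hΔ
      omega) (by push_cast; linarith) (fun z hz m g hg => by
      have hmZ : U ^ m * z ∈ H.Z U := by
        have := (hl_Zpow H hUX z (m : ℤ)).2 hz
        rwa [zpow_natCast] at this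
      exact tight z hz _ hmZ g hg) 1 n
  rw [hpi, one_mul, one_mul, (hQ.path.zero_iff 1 1).2 rfl, mul_zero] at h1
  omega

/-- step condition -/
structure SC {X : Set G} (H : Hubs d X C) (F : Set G) (Δ : ℕ) (φ c s φ' c' : G) : Prop where
  ne : s * φ' * s⁻¹ ≠ φ ∧ s * φ' * s⁻¹ ≠ φ⁻¹
  gate : ∀ a ∈ H.Z φ, |H.Φ (s * φ' * s⁻¹) a (s * c')| ≤ 3 * Δ - C
  lo : ∀ b ∈ H.Z (s * φ' * s⁻¹), 8 * (Δ : ℝ) + C ≤ |H.Φ φ c b|
  hi : ∀ b ∈ H.Z (s * φ' * s⁻¹), |H.Φ φ c b| ≤ H.T φ / 2 + 3 * Δ - C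
  seg : ∀ g ∈ F, |H.Φ g c (s * c')| ≤ H.T g / 2 + 35 * Δ - C

/-- partial products -/
def wd (s : ℕ → G) : ℕ → G
  | 0 => 1
  | j + 1 => wd s j * s j

theorem wd_per {s : ℕ → G} {U : G} (hU : wd s 4 = U) (hs : ∀ j, s (j + 4) = s j) (j : ℕ) :
    wd s (j + 4) = U * wd s j := by
  induction j with
  | zero => rw [Nat.zero_add, hU]; exact (mul_one U).symm
  | succ j ih =>
    have e : j + 1 + 4 = (j + 4) + 1 := by ring
    rw [e]
    change wd s (j + 4) * s (j + 4) = U * (wd s j * s j)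
    rw [ih, hs, mul_assoc]

theorem jc_of_sc {X : Set G} {H : Hubs d X C} (hF : Fam H F Δ Tm) {φ c s : ℕ → G}
    (hφ : ∀ j, φ j ∈ F) (hcc : ∀ j, c j ∈ H.Z (φ j))
    (hsc : ∀ j, SC H F Δ (φ j) (c j) (s j) (φ (j + 1)) (c (j + 1))) :
    JC H F Δ (fun j => wd s j * φ j * (wd s j)⁻¹) (fun j => wd s j * c j) := by
  have e1 : ∀ j, wd s (j + 1) * φ (j + 1) * (wd s (j + 1))⁻¹ =
      wd s j * (s j * φ (j + 1) * (s j)⁻¹) * (wd s j)⁻¹ := by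
    intro j
    change wd s j * s j * φ (j + 1) * (wd s j * s j)⁻¹ = _
    group
  have e2 : ∀ j, wd s (j + 1) * c (j + 1) = wd s j * (s j * c (j + 1)) := by
    intro j
    change wd s j * s j * c (j + 1) = _
    group
  refine ⟨fun j => hF.conj _ (hφ j) _, fun j => (H.Zconj _ (hF.sub (hφ j)) _ _).2 (hcc j), ?_, ?_,
    ?_, ?_, ?_⟩
  · intro j
    change wd s (j + 1) * φ (j + 1) * (wd s (j + 1))⁻¹ ≠ wd s j * φ j * (wd s j)⁻¹ ∧
      wd s (j + 1) * φ (j + 1) * (wd s (j + 1))⁻¹ ≠ (wd s j * φ j * (wd s j)⁻¹)⁻¹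
    rw [e1 j]
    refine ⟨fun h => (hsc j).ne.1 ?_, fun h => (hsc j).ne.2 ?_⟩
    · have h2 := mul_left_cancel (mul_right_cancel h)
      exact h2
    · have e3 : (wd s j * φ j * (wd s j)⁻¹)⁻¹ = wd s j * (φ j)⁻¹ * (wd s j)⁻¹ := by group
      rw [e3] at h
      exact mul_left_cancel (mul_right_cancel h)
  · intro j a ha
    change |H.Φ (wd s (j + 1) * φ (j + 1) * (wd s (j + 1))⁻¹) a (wd s (j + 1) * c (j + 1))| ≤ _
    change a ∈ H.Z (wd s j * φ j * (wd s j)⁻¹) at ha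
    rw [e1 j, e2 j]
    have hX := hF.sub (hF.conj _ (hφ (j + 1)) (s j))
    have ha' : (wd s j)⁻¹ * a ∈ H.Z (φ j) := by
      rw [← H.Zconj _ (hF.sub (hφ j)) (wd s j), mul_inv_cancel_left]
      exact ha
    have h1 := (hsc j).gate _ ha'
    have h2 := H.equi _ hX (wd s j) ((wd s j)⁻¹ * a) (s j * c (j + 1))
    rw [mul_inv_cancel_left] at h2
    have h3 := abs_sub_abs_le_abs_sub
      (H.Φ (wd s j * (s j * φ (j + 1) * (s j)⁻¹) * (wd s j)⁻¹) a (wd s j * (s j * c (j + 1))))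
      (H.Φ (s j * φ (j + 1) * (s j)⁻¹) ((wd s j)⁻¹ * a) (s j * c (j + 1)))
    linarith
  · intro j b hb
    change b ∈ H.Z (wd s (j + 1) * φ (j + 1) * (wd s (j + 1))⁻¹) at hb
    change _ ≤ |H.Φ (wd s j * φ j * (wd s j)⁻¹) (wd s j * c j) b|
    rw [e1 j] at hb
    have hX := hF.sub (hF.conj _ (hφ (j + 1)) (s j))
    have hb' : (wd s j)⁻¹ * b ∈ H.Z (s j * φ (j + 1) * (s j)⁻¹) := by
      rw [← H.Zconj _ hX (wd s j), mul_inv_cancel_left]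
      exact hb
    have h1 := (hsc j).lo _ hb'
    have h2 := H.equi _ (hF.sub (hφ j)) (wd s j) (c j) ((wd s j)⁻¹ * b)
    rw [mul_inv_cancel_left, abs_sub_comm] at h2
    have h3 := abs_sub_abs_le_abs_sub (H.Φ (φ j) (c j) ((wd s j)⁻¹ * b))
      (H.Φ (wd s j * φ j * (wd s j)⁻¹) (wd s j * c j) b)
    linarith
  · intro j b hb
    change b ∈ H.Z (wd s (j + 1) * φ (j + 1) * (wd s (j + 1))⁻¹) at hb
    change |H.Φ (wd s j * φ j * (wd s j)⁻¹) (wd s j * c j) b| ≤ H.T (wd s j * φ j * (wd s j)⁻¹) / 2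
      + 3 * Δ
    rw [e1 j] at hb
    have hX := hF.sub (hF.conj _ (hφ (j + 1)) (s j))
    have hb' : (wd s j)⁻¹ * b ∈ H.Z (s j * φ (j + 1) * (s j)⁻¹) := by
      rw [← H.Zconj _ hX (wd s j), mul_inv_cancel_left]
      exact hb
    have h1 := (hsc j).hi _ hb'
    have h2 := H.equi _ (hF.sub (hφ j)) (wd s j) (c j) ((wd s j)⁻¹ * b)
    rw [mul_inv_cancel_left] at h2
    have h3 := abs_sub_abs_le_abs_sub (H.Φ (wd s j * φ j * (wd s j)⁻¹) (wd s j * c j) b)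
      (H.Φ (φ j) (c j) ((wd s j)⁻¹ * b))
    rw [H.Tconj _ (hF.sub (hφ j))]
    linarith
  · intro j g hg
    change |H.Φ g (wd s j * c j) (wd s (j + 1) * c (j + 1))| ≤ _
    rw [e2 j]
    have hg' : (wd s j)⁻¹ * g * ((wd s j)⁻¹)⁻¹ ∈ F := hF.conj g hg (wd s j)⁻¹
    have h1 := (hsc j).seg _ hg'
    have h2 := H.equi _ (hF.sub hg') (wd s j) (c j) (s j * c (j + 1))
    have e : wd s j * ((wd s j)⁻¹ * g * ((wd s j)⁻¹)⁻¹) * (wd s j)⁻¹ = g := by group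
    rw [e] at h2
    rw [H.Tconj g (hF.sub hg)] at h1
    have h3 := abs_sub_abs_le_abs_sub (H.Φ g (wd s j * c j) (wd s j * (s j * c (j + 1))))
      (H.Φ ((wd s j)⁻¹ * g * ((wd s j)⁻¹)⁻¹) (c j) (s j * c (j + 1)))
    linarith

/-- four step conditions in a cycle -/
theorem sc_fin (hCHB : StCHB) (hTL : TLM M1) (hS : Stage d δ n q A L) (hA : Alg H n q L Ax)
    (hR : Rels H F n L1 Δ Tm) (hc : Cst2 δ C Δ R n q L Ax L1 M1 Tm) (hQ : Quo H F R π d')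
    {φ0 φ1 φ2 φ3 c0 c1 c2 c3 s0 s1 s2 s3 : G} (f0 : φ0 ∈ F) (f1 : φ1 ∈ F) (f2 : φ2 ∈ F)
    (f3 : φ3 ∈ F) (z0 : c0 ∈ H.Z φ0) (z1 : c1 ∈ H.Z φ1) (z2 : c2 ∈ H.Z φ2) (z3 : c3 ∈ H.Z φ3)
    (h0 : SC H F Δ φ0 c0 s0 φ1 c1) (h1 : SC H F Δ φ1 c1 s1 φ2 c2)
    (h2 : SC H F Δ φ2 c2 s2 φ3 c3) (h3 : SC H F Δ φ3 c3 s3 φ0 c0) {U : G}
    (hU : U = s0 * s1 * s2 * s3) : U ^ n ≠ 1 ∧ π U ^ n ≠ 1 := by
  set sel : G → G → G → G → ℕ → G := fun a0 a1 a2 a3 j =>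
    if j % 4 = 0 then a0 else if j % 4 = 1 then a1 else if j % 4 = 2 then a2 else a3 with hsel
  have sper : ∀ a0 a1 a2 a3 j, sel a0 a1 a2 a3 (j + 4) = sel a0 a1 a2 a3 j := by
    intro a0 a1 a2 a3 j
    simp only [hsel, Nat.add_mod_right]
  have scase : ∀ (a0 a1 a2 a3 : G) (j : ℕ), j % 4 = 0 ∧ sel a0 a1 a2 a3 j = a0 ∧
      sel a0 a1 a2 a3 (j + 1) = a1 ∨ j % 4 = 1 ∧ sel a0 a1 a2 a3 j = a1 ∧
      sel a0 a1 a2 a3 (j + 1) = a2 ∨ j % 4 = 2 ∧ sel a0 a1 a2 a3 j = a2 ∧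
      sel a0 a1 a2 a3 (j + 1) = a3 ∨ j % 4 = 3 ∧ sel a0 a1 a2 a3 j = a3 ∧
      sel a0 a1 a2 a3 (j + 1) = a0 := by
    intro a0 a1 a2 a3 j
    have h5 : j % 4 = 0 ∨ j % 4 = 1 ∨ j % 4 = 2 ∨ j % 4 = 3 := by omega
    rcases h5 with h | h | h | h
    · have h' : (j + 1) % 4 = 1 := by omega
      left; simp only [hsel, h, h']; simp
    · have h' : (j + 1) % 4 = 2 := by omega
      right; left; simp only [hsel, h, h']; simp
    · have h' : (j + 1) % 4 = 3 := by omega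
      right; right; left; simp only [hsel, h, h']; simp
    · have h' : (j + 1) % 4 = 0 := by omega
      right; right; right; simp only [hsel, h, h']; simp
  have hF : Fam H F Δ Tm := hR.toFam
  have J : JC H F Δ (fun j => wd (sel s0 s1 s2 s3) j * sel φ0 φ1 φ2 φ3 j *
      (wd (sel s0 s1 s2 s3) j)⁻¹) (fun j => wd (sel s0 s1 s2 s3) j * sel c0 c1 c2 c3 j) := by
    refine jc_of_sc hF ?_ ?_ ?_
    · intro j
      rcases scase φ0 φ1 φ2 φ3 j with ⟨-, h, -⟩ | ⟨-, h, -⟩ | ⟨-, h, -⟩ | ⟨-, h, -⟩ <;> rw [h] <;>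
        assumption
    · intro j
      rcases scase φ0 φ1 φ2 φ3 j with ⟨e, h, -⟩ | ⟨e, h, -⟩ | ⟨e, h, -⟩ | ⟨e, h, -⟩ <;>
      rcases scase c0 c1 c2 c3 j with ⟨e', h', -⟩ | ⟨e', h', -⟩ | ⟨e', h', -⟩ | ⟨e', h', -⟩ <;>
      first
        | (exfalso; omega)
        | (rw [h, h']; assumption)
    · intro j
      rcases scase φ0 φ1 φ2 φ3 j with ⟨e, h, k⟩ | ⟨e, h, k⟩ | ⟨e, h, k⟩ | ⟨e, h, k⟩ <;>
      rcases scase c0 c1 c2 c3 j with ⟨e', h', k'⟩ | ⟨e', h', k'⟩ | ⟨e', h', k'⟩ | ⟨e', h', k'⟩ <;>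
      first
        | (exfalso; omega)
        | (rcases scase s0 s1 s2 s3 j with ⟨e'', h'', -⟩ | ⟨e'', h'', -⟩ | ⟨e'', h'', -⟩ |
              ⟨e'', h'', -⟩ <;>
            first
              | (exfalso; omega)
              | (rw [h, h', h'', k, k']; assumption))
  have hw4 : wd (sel s0 s1 s2 s3) 4 = U := by
    change (1 : G) * sel s0 s1 s2 s3 0 * sel s0 s1 s2 s3 1 * sel s0 s1 s2 s3 2 *
      sel s0 s1 s2 s3 3 = U
    rw [hU, one_mul]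
    simp [hsel]
  refine jc_fin hCHB hTL hS hA hR hc hQ J ?_
  intro m
  change wd (sel s0 s1 s2 s3) (4 * m) * sel c0 c1 c2 c3 (4 * m) =
    U ^ m * (wd (sel s0 s1 s2 s3) 0 * sel c0 c1 c2 c3 0)
  have hc' : sel c0 c1 c2 c3 (4 * m) = sel c0 c1 c2 c3 0 := by
    simp only [hsel, Nat.mul_mod_right, Nat.zero_mod]
  have hw : wd (sel s0 s1 s2 s3) (4 * m) = U ^ m := by
    induction m with
    | zero => simp [wd]
    | succ m ih =>
      have e : 4 * (m + 1) = 4 * m + 4 := by ring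
      rw [e, wd_per hw4 (sper _ _ _ _), ih (by
        simp only [hsel, Nat.mul_mod_right, Nat.zero_mod]), pow_succ']
  rw [hw, hc']
  change _ = U ^ m * (1 * sel c0 c1 c2 c3 0)
  rw [one_mul]

end J2

end Pool.Agent.Helper74.TB
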