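import Pool.Agent.Helper74.TB.StK2
import Pool.Agent.Helper74.TB.Len
import Pool.Agent.Helper74.TB.TR

/-! MP_7d16da_al, Part K2B: images of chains of hubs in the quotient (`StKA2`). -/

set_option autoImplicit false

namespace Pool.Agent.Helper74.TB.K2

open Pool.Agent.Helper74.MH

section
variable {G G' : Type} [Group G] [Group G'] {d : G → G → ℕ} {d' : G' → G' → ℕ}
  {δ C Δ R : ℕ} {X F : Set G} {H : Hubs d X C} {Tm : ℝ} {π : G →* G'}

theorem ka2_len (hG : HypG d δ) (hQ : Quo H F R π d') {x y : G} {n : ℕ}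
    (h : d x y ≤ n * R) : d' (π x) (π y) ≤ n := by
  obtain ⟨q, hq0, hqn, hq⟩ := de_len (H := H) (F := F) hG h
  have key : ∀ i ≤ n, d' (π (q 0)) (π (q i)) ≤ i := by
    intro i
    induction i with
    | zero =>
      intro _
      rw [(hQ.path.zero_iff _ _).2 rfl]
    | succ i ih =>
      intro hi
      have h1 := ih (by omega)
      have h2 := TR.q_le_of_adj hQ (hq i (by omega))
      have h3 := hQ.path.tri (π (q 0)) (π (q i)) (π (q (i + 1)))
      omega
  have := key n le_rfl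
  rwa [hq0, hqn] at this

/-- points near the same hub -/
theorem ka2_hub (hG : HypG d δ) (hQ : Quo H F R π d') {B E : ℕ} (hBE : B ≤ R * E) {f : G}
    (hf : f ∈ F) {x y : G} (hx : Nh d (20 * C) (H.Z f) x) (hy : Nh d B (H.Z f) y) :
    d' (π x) (π y) ≤ E + 1 := by
  obtain ⟨p, hp, hyp⟩ := hy
  have h1 : Adj H F R x p := Or.inr ⟨f, hf, hx, p, hp, by rw [hb_self hG]; exact Nat.zero_le _⟩
  have h2 := TR.q_le_of_adj hQ h1
  have h3 : d' (π p) (π y) ≤ E := ka2_len hG hQ (by
    rw [hG.path.symm]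
    calc d y p ≤ B := hyp
      _ ≤ R * E := hBE
      _ = E * R := Nat.mul_comm _ _)
  have h4 := hQ.path.tri (π x) (π p) (π y)
  omega

end

/-- Part KA2. -/
theorem stKA2 (hA : StKA) : StKA2 := by
  intro G G' _ _ d d' δ C Δ R X F H Tm π B E lo hi h y hG hC hF hQ hR hBE hlo hhi hc
  obtain ⟨-, hA2, -, -, -⟩ := hA G d δ C Δ X F H Tm B lo hi h y hG hC hF hlo hhi hc
  have hC1 := hF.hC1
  have hCΔ := hF.hC
  have hC0 : (1 : ℝ) ≤ C := by exact_mod_cast hC1
  have hCΔ' : 1000 * (C : ℝ) ≤ Δ := by exact_mod_cast hCΔ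
  have hB0 : (0 : ℝ) ≤ B := Nat.cast_nonneg B
  have hself' : ∀ a : G', d' a a = 0 := fun a => (hQ.path.zero_iff a a).2 rfl
  refine ⟨?_, ?_⟩
  · intro k
    obtain ⟨p, hp, hyp⟩ := hc.nr' k
    have h1 := ka2_hub hG hQ hBE (hc.mem (k + 1)) (x := p)
      ⟨p, hp, by rw [hb_self hG]; exact Nat.zero_le _⟩ (hc.nr (k + 1))
    have h2 : d' (π (y k)) (π p) ≤ E := ka2_len hG hQ (by
      calc d (y k) p ≤ B := hyp
        _ ≤ R * E := hBE
        _ = E * R := Nat.mul_comm _ _)
    have h3 := hQ.path.tri (π (y k)) (π p) (π (y (k + 1)))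
    omega
  intro i j hij N γ hγ hγ0 hγN
  set D : ℕ := 11 * Δ + 14 * B with hD
  -- passage data
  have hpass : ∀ k, i < k → k ≤ j → ∃ a b : ℕ, a < b ∧ b ≤ N ∧ d (γ a) (y (k - 1)) ≤ D ∧
      d (γ b) (y k) ≤ D ∧ (∀ t, a ≤ t → t ≤ b → Nh d (7 * C) (H.Z (h k)) (γ t)) := by
    intro k hik hkj
    have hkF := hc.mem k
    have hkX := hF.sub hkF
    have h1 := hA2 i k j hik hkj
    have h2 := hc.ge (k - 1)
    rw [sub_add_cancel] at h2
    have h3 : 10 * (C : ℝ) ≤ |H.Φ (h k) (γ 0) (γ N)| := by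
      rw [hγ0, hγN]
      have h4 := abs_sub_abs_le_abs_sub (H.Φ (h k) (y (k - 1)) (y k)) (H.Φ (h k) (y i) (y j))
      rw [abs_sub_comm] at h4
      linarith
    obtain ⟨a, b, -, hab, hbN, ha, hb, -, -, hn, -⟩ :=
      hl_ee hG H hC hkX hγ (Nat.zero_le N) le_rfl h3
    rw [hγ0] at ha
    rw [hγN] at hb
    refine ⟨a, b, hab, hbN, ?_, ?_, hn⟩
    · -- the point `y (k-1)` near the projection of `y i`
      have n1 := hc.nr' (k - 1)
      rw [sub_add_cancel] at n1
      have n2 : Nh d B (H.Z (h k)) (H.pr (h k) (y i)) :=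
        ⟨_, H.pr_mem _ hkX _, by rw [hb_self hG]; exact Nat.zero_le _⟩
      have n3 := hl_near hG H hkX n2 n1
      have n4 := hA2 i k k hik le_rfl
      have n5 := H.coc (h k) hkX (y i) (y (k - 1)) (y k)
      have n6 := H.coc (h k) hkX (y i) (H.pr (h k) (y i)) (y (k - 1))
      have n7 := H.pr_phi (h k) hkX (y i)
      have n8 : |H.Φ (h k) (H.pr (h k) (y i)) (y (k - 1))| ≤ 10 * ((Δ : ℝ) + B) + C := by
        rw [abs_le] at n4 n7 ⊢
        constructor <;> linarith [n4.1, n4.2, n7.1, n7.2]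
      have n9 : (d (H.pr (h k) (y i)) (y (k - 1)) : ℝ) ≤ ((10 * Δ + 14 * B + 2 * C : ℕ) : ℝ) := by
        push_cast; linarith
      have n10 : d (H.pr (h k) (y i)) (y (k - 1)) ≤ 10 * Δ + 14 * B + 2 * C := by
        exact_mod_cast n9
      have n11 := hG.path.tri (γ a) (H.pr (h k) (y i)) (y (k - 1))
      omega
    · have n1 := hc.nr k
      have n2 : Nh d B (H.Z (h k)) (H.pr (h k) (y j)) :=
        ⟨_, H.pr_mem _ hkX _, by rw [hb_self hG]; exact Nat.zero_le _⟩
      have n3 := hl_near hG H hkX n2 n1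
      have n4 := hA2 (k - 1) k j (by omega) hkj
      have n5 := H.coc (h k) hkX (y (k - 1)) (y k) (y j)
      have n6 := H.coc (h k) hkX (y k) (y j) (H.pr (h k) (y j))
      have n7 := H.pr_phi (h k) hkX (y j)
      have n7' := hl_symm H hkX (H.pr (h k) (y j)) (y k)
      have n8 : |H.Φ (h k) (H.pr (h k) (y j)) (y k)| ≤ 10 * ((Δ : ℝ) + B) + C := by
        rw [abs_le] at n4 n7 ⊢
        constructor <;> linarith [n4.1, n4.2, n7.1, n7.2]
      have n9 : (d (H.pr (h k) (y j)) (y k) : ℝ) ≤ ((10 * Δ + 14 * B + 2 * C : ℕ) : ℝ) := by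
        push_cast; linarith
      have n10 : d (H.pr (h k) (y j)) (y k) ≤ 10 * Δ + 14 * B + 2 * C := by
        exact_mod_cast n9
      have n11 := hG.path.tri (γ b) (H.pr (h k) (y j)) (y k)
      omega
  -- points within `2 D` of some `y k`
  have hDR : 2 * D ≤ (28 * E + 1) * R := by
    have e1 : (28 * E + 1) * R = 28 * (R * E) + R := by ring
    rw [e1, hD]
    omega
  have hfar : ∀ (t : ℕ) (k : ℤ), d (γ t) (y k) ≤ 2 * D → d' (π (γ t)) (π (y k)) ≤ 40 * E + 2 := by
    intro t k ht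
    have := ka2_len hG hQ (H := H) (F := F) (ht.trans hDR)
    omega
  have hhub : ∀ (t : ℕ) (k : ℤ), Nh d (7 * C) (H.Z (h k)) (γ t) →
      d' (π (γ t)) (π (y k)) ≤ E + 1 := by
    intro t k ht
    exact ka2_hub hG hQ hBE (hc.mem k) (TR.nh_mono (by omega) ht) (hc.nr k)
  refine ⟨?_, ?_⟩
  · intro t ht
    by_cases hex : ∃ k, i < k ∧ k ≤ j ∧ ∃ a b : ℕ, a < b ∧ b ≤ N ∧ d (γ a) (y (k - 1)) ≤ D ∧
      d (γ b) (y k) ≤ D ∧ (∀ t, a ≤ t → t ≤ b → Nh d (7 * C) (H.Z (h k)) (γ t)) ∧ a ≤ t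
    · obtain ⟨k, ⟨hik, hkj, a, b, hab, hbN, ha, hb, hn, hat⟩, hmax⟩ :=
        Int.exists_greatest_of_bdd (P := fun k => i < k ∧ k ≤ j ∧ ∃ a b : ℕ, a < b ∧ b ≤ N ∧
          d (γ a) (y (k - 1)) ≤ D ∧ d (γ b) (y k) ≤ D ∧
          (∀ t, a ≤ t → t ≤ b → Nh d (7 * C) (H.Z (h k)) (γ t)) ∧ a ≤ t)
          ⟨j, fun z hz => hz.2.1⟩ hex
      refine ⟨k, hik.le, hkj, ?_⟩
      by_cases htb : t ≤ b
      · have := hhub t k (hn t hat htb)
        omega
      push Not at htb
      apply hfar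
      rcases hkj.eq_or_lt with hkj' | hkj'
      · -- last gap
        have e1 : d (γ b) (γ N) ≤ D := by rw [hγN, ← hkj']; exact hb
        have e2 := hγ b N (by omega) le_rfl
        have e3 := hγ b t (by omega) ht
        have e4 := hG.path.tri (γ t) (γ b) (y k)
        have e5 := hG.path.symm (γ t) (γ b)
        omega
      · obtain ⟨a', b', hab', hbN', ha', hb', hn'⟩ := hpass (k + 1) (by omega) (by omega)
        have hta : t < a' := by
          by_contra hcon
          push Not at hcon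
          have := hmax (k + 1) ⟨by omega, by omega, a', b', hab', hbN', ha', hb', hn', hcon⟩
          omega
        rw [add_sub_cancel_right] at ha'
        have e1 := hγ b t (by omega) ht
        have e2 := hγ t a' (by omega) (by omega)
        have e3 := hγ b a' (by omega) (by omega)
        have e4 := hG.path.tri (γ t) (γ b) (y k)
        have e5 := hG.path.symm (γ t) (γ b)
        have e6 := hG.path.tri (γ t) (γ a') (y k)
        have e7 := hG.path.tri (γ b) (y k) (γ a')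
        have e8 := hG.path.symm (y k) (γ a')
        omega
    · refine ⟨i, le_rfl, hij, ?_⟩
      apply hfar
      rcases hij.eq_or_lt with hij' | hij'
      · have e1 := hγ 0 N (Nat.zero_le _) le_rfl
        rw [hγ0, hγN, ← hij', hb_self hG] at e1
        have e2 : t = 0 := by omega
        rw [e2, hγ0, hb_self hG]
        exact Nat.zero_le _
      · obtain ⟨a', b', hab', hbN', ha', hb', hn'⟩ := hpass (i + 1) (by omega) (by omega)
        have hta : t < a' := by
          by_contra hcon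
          push Not at hcon
          exact hex ⟨i + 1, by omega, by omega, a', b', hab', hbN', ha', hb', hn', hcon⟩
        rw [add_sub_cancel_right] at ha'
        have e1 := hγ 0 a' (Nat.zero_le _) (by omega)
        have e2 := hγ 0 t (Nat.zero_le _) ht
        rw [hγ0] at e1 e2
        have e3 := hG.path.symm (y i) (γ a')
        have e4 := hG.path.symm (y i) (γ t)
        omega
  · intro k hik hkj
    rcases hik.eq_or_lt with hik' | hik'
    · refine ⟨0, Nat.zero_le _, ?_⟩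
      rw [hγ0, hik', hself']
      exact Nat.zero_le _
    · obtain ⟨a, b, hab, hbN, -, -, hn⟩ := hpass k hik' hkj
      exact ⟨a, by omega, hhub a k (hn a le_rfl hab.le)⟩

end Pool.Agent.Helper74.TB.K2
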