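import Pool.Agent.Helper74.TB.StK2
import Pool.Agent.Helper74.TB.Len
import Pool.Agent.Helper74.TB.E
import Pool.Agent.Helper74.TB.P

/-! MP_7d16da_al, Part K (simplified version), module K2C: periodic chains give elements of the
quotient with a long axis (helper20). -/

set_option autoImplicit false

namespace Pool.Agent.Helper74.TB.K2

open Pool.Agent.Helper74.MH

namespace C2

/-- discrete intermediate value theorem -/
theorem ivt {φ : ℤ → ℝ} {e : ℝ} (he : 0 ≤ e) (hφ : ∀ k, φ k ≤ φ (k + 1) + e) {a : ℤ}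
    (ha : 0 ≤ φ a) : ∀ n : ℕ, φ (a + n) ≤ 0 → ∃ k, |φ k| ≤ e := by
  intro n
  induction n with
  | zero =>
    intro h
    refine ⟨a, ?_⟩
    have h1 : φ (a + (0 : ℕ)) = φ a := by
      congr 1
      push_cast
      ring
    rw [h1] at h
    rw [abs_le]
    constructor <;> linarith
  | succ n ih =>
    intro h
    by_cases h1 : φ (a + n) ≤ 0
    · exact ih h1
    · push Not at h1
      refine ⟨a + n, ?_⟩
      have h2 := hφ (a + n)
      have h3 : φ (a + n + 1) = φ (a + ((n + 1 : ℕ) : ℤ)) := by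
        congr 1
        push_cast
        ring
      rw [h3] at h2
      rw [abs_of_pos h1]
      linarith

section Abs

variable {G' : Type} [Group G'] {d' : G' → G' → ℕ} {C : ℕ} {W : G'} {P : ℤ → G'} {p E : ℕ}
  {Tm : ℝ}

theorem P_mul (hP : ∀ k, P (k + p) = W * P k) (k : ℤ) (m : ℕ) :
    P (k + m * p) = W ^ m * P k := by
  induction m with
  | zero =>
    rw [pow_zero, one_mul]
    congr 1
    push_cast
    ring
  | succ m ih =>
    have e : k + ((m + 1 : ℕ) : ℤ) * p = (k + m * p) + p := by push_cast; ring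
    rw [e, hP, ih, pow_succ', mul_assoc]

/-- linear growth of the displacement -/
theorem grow (hG : HypG d' 2000) (hP : ∀ k, P (k + p) = W * P k)
    (hadd : ∀ i k j, i ≤ k → k ≤ j →
      d' (P i) (P k) + d' (P k) (P j) ≤ d' (P i) (P j) + (2 * E + 302)) (k : ℤ) (m : ℕ) :
    m * d' (P k) (P (k + p)) ≤ d' (P k) (W ^ m * P k) + (2 * E + 302) * m := by
  induction m with
  | zero => omega
  | succ m ih =>
    have hmp : (0 : ℤ) ≤ (m : ℤ) * p := by positivity
    have a1 := hadd k (k + m * p) (k + m * p + p) (by omega) (by omega)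
    rw [P_mul hP k m, hP (k + m * p), P_mul hP k m] at a1
    have a2 : d' (W ^ m * P k) (W * (W ^ m * P k)) = d' (P k) (P (k + p)) := by
      rw [hP, ← mul_assoc, ← pow_succ', pow_succ, mul_assoc, hG.inv]
    have a3 : W * (W ^ m * P k) = W ^ (m + 1) * P k := by
      rw [← mul_assoc, ← pow_succ']
    rw [a2, a3] at a1
    have a4 : (m + 1) * d' (P k) (P (k + p)) =
      m * d' (P k) (P (k + p)) + d' (P k) (P (k + p)) := by ring
    have a5 : (2 * E + 302) * (m + 1) = (2 * E + 302) * m + (2 * E + 302) := by ring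
    omega

theorem disp_pow (hG : HypG d' 2000) (x : G') (m : ℕ) :
    d' x (W ^ m * x) ≤ m * d' x (W * x) := by
  induction m with
  | zero => rw [pow_zero, one_mul, (hG.path.zero_iff _ _).2 rfl]; omega
  | succ m ih =>
    have h1 := hG.path.tri x (W ^ m * x) (W ^ (m + 1) * x)
    have h2 : d' (W ^ m * x) (W ^ (m + 1) * x) = d' x (W * x) := by
      rw [pow_succ, mul_assoc, hG.inv]
    have h3 : (m + 1) * d' x (W * x) = m * d' x (W * x) + d' x (W * x) := by ring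
    omega

theorem absB (hG : HypG d' 2000) (hC : 200000 ≤ C) (H' : Hubs d' (Lx d' (100 * C)) C)
    (hTm : 0 ≤ Tm) (hP : ∀ k, P (k + p) = W * P k)
    (hst : ∀ k, d' (P k) (P (k + 1)) ≤ 2 * E + 1)
    (hadd : ∀ i k j, i ≤ k → k ≤ j →
      d' (P i) (P k) + d' (P k) (P j) ≤ d' (P i) (P j) + (2 * E + 302))
    (hu : ∀ k, Tm + 100 * C + 2 * E + 999 ≤ (d' (P k) (P (k + p)) : ℝ)) :
    W ∈ Lx d' (100 * C) ∧ Tm ≤ H'.T W ∧ (∀ k, Nh d' (100 * E + 11 * C) (H'.Z W) (P k)) ∧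
      ∀ z ∈ H'.Z W, ∃ k, d' z (P k) ≤ 100 * E + 11 * C := by
  have hC0 : (200000 : ℝ) ≤ C := by exact_mod_cast hC
  have he0 : (0 : ℝ) ≤ E := Nat.cast_nonneg _
  have hgrow : ∀ (k : ℤ) (m : ℕ), ((d' (P k) (P (k + p)) : ℝ) - (2 * E + 302)) * m ≤
      d' (P k) (W ^ m * P k) := by
    intro k m
    have h3 := grow hG hP hadd k m
    have h4 : (m : ℝ) * d' (P k) (P (k + p)) ≤ d' (P k) (W ^ m * P k) + (2 * E + 302) * m := by
      exact_mod_cast h3
    linarith
  have hX : W ∈ Lx d' (100 * C) := by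
    intro x
    have h4 : (d' (P 0) (P (0 + p)) : ℝ) - (2 * E + 302) ≤ d' x (W * x) := by
      apply p_lim (c := 2 * (d' (P 0) x : ℝ))
      intro m
      have h5 := hgrow 0 m
      have h6 := disp_pow (W := W) hG x m
      have t1 := hG.path.tri (P 0) x (W ^ m * P 0)
      have t2 := hG.path.tri x (W ^ m * x) (W ^ m * P 0)
      have t3 := hG.inv (W ^ m) x (P 0)
      have t4 := hG.path.symm x (P 0)
      have h7 : d' (P 0) (W ^ m * P 0) ≤ m * d' x (W * x) + 2 * d' (P 0) x := by omega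
      have h8 : (d' (P 0) (W ^ m * P 0) : ℝ) ≤ m * d' x (W * x) + 2 * d' (P 0) x := by
        exact_mod_cast h7
      linarith
    have h5 := hu 0
    have h6 : ((100 * C : ℕ) : ℝ) ≤ d' x (W * x) := by
      push_cast
      linarith
    exact_mod_cast h6
  have hT : ∀ k, (d' (P k) (P (k + p)) : ℝ) - (2 * E + 302) ≤ H'.T W := by
    intro k
    obtain ⟨E1, hE1⟩ := hl_len hG H' hX (P k)
    apply p_lim (c := E1)
    intro m
    have h5 := hgrow k m
    have h6 := (abs_le.1 (hE1 m)).2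
    linarith
  have hTbig : Tm ≤ H'.T W := by
    have h3 := hT 0
    have h4 := hu 0
    linarith
  have hnear : ∀ k, Nh d' (E + C) (H'.Z W) (P k) := by
    intro k
    refine ⟨H'.pr W (P k), H'.pr_mem W hX _, ?_⟩
    have h3 := hl_dispZ hG H' hX (P k)
    rw [← hP k] at h3
    have h4 := hT k
    have h5 : 2 * (d' (P k) (H'.pr W (P k)) : ℝ) ≤ 2 * (E + C) := by linarith
    have h6 : (d' (P k) (H'.pr W (P k)) : ℝ) ≤ (E + C : ℕ) := by
      push_cast
      linarith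
    exact_mod_cast h6
  refine ⟨hX, hTbig, fun k => E1.nh_mono (by omega) (hnear k), ?_⟩
  intro z hz
  have hφ1 : ∀ k : ℤ, H'.Φ W (P k) z ≤ H'.Φ W (P (k + 1)) z + (2 * E + 1) := by
    intro k
    have h3 := H'.coc W hX (P k) (P (k + 1)) z
    have h4 := H'.lip W hX (P k) (P (k + 1))
    have h5 : (d' (P k) (P (k + 1)) : ℝ) ≤ 2 * E + 1 := by exact_mod_cast hst k
    have h6 := (abs_le.1 h4).2
    linarith
  have hφ2 : ∀ (k : ℤ) (m : ℕ), H'.Φ W (P (k + m * p)) z = H'.Φ W (P k) z - m * H'.T W := by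
    intro k m
    rw [P_mul hP k m]
    have h3 := H'.coc W hX (P k) (W ^ m * P k) z
    have h4 := hl_zpow H' hX (P k) (m : ℤ)
    rw [zpow_natCast] at h4
    push_cast at h4
    linarith
  have hTpos : 0 < H'.T W := by
    have := H'.Tbig W hX
    linarith
  obtain ⟨M, hM⟩ := exists_nat_gt (|H'.Φ W (P 0) z| / H'.T W)
  rw [div_lt_iff₀ hTpos] at hM
  have hab := abs_le.1 (le_refl |H'.Φ W (P 0) z|)
  have h3 := hφ2 0 M
  have h4 := hφ2 (-(M * p : ℤ)) M
  have e1 : -(M * p : ℤ) + M * p = 0 := by ring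
  rw [e1] at h4
  have h5 : 0 ≤ H'.Φ W (P (-(M * p : ℤ))) z := by linarith [hab.1]
  have h6 : H'.Φ W (P (-(M * p : ℤ) + ((2 * (M * p) : ℕ) : ℤ))) z ≤ 0 := by
    have e2 : -(M * p : ℤ) + ((2 * (M * p) : ℕ) : ℤ) = 0 + M * p := by push_cast; ring
    rw [e2, h3]
    linarith [hab.2]
  obtain ⟨k, hk⟩ := ivt (φ := fun k => H'.Φ W (P k) z) (by positivity) hφ1 h5 _ h6
  refine ⟨k, ?_⟩
  have h7 := hl_near hG H' hX (hnear k) (⟨z, hz, by rw [hb_self hG]; exact Nat.zero_le _⟩ :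
    Nh d' (E + C) (H'.Z W) z)
  rw [hG.path.symm z (P k)]
  have h8 : (d' (P k) z : ℝ) ≤ (100 * E + 11 * C : ℕ) := by
    push_cast at h7 ⊢
    have : |H'.Φ W (P k) z| ≤ 2 * E + 1 := hk
    linarith
  exact_mod_cast h8

end Abs

section Chain

variable {G G' : Type} [Group G] [Group G'] {d : G → G → ℕ} {d' : G' → G' → ℕ}
  {δ C Δ R B E p : ℕ} {X F : Set G} {H : Hubs d X C} {c Tm lo hi : ℝ} {π : G →* G'}
  {h y : ℤ → G}

/-- the images of the passage points are close to a geodesic of the quotient -/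
theorem addL (hE : StE) (hA : StKA) (hA2 : StKA2) (hG : HypG d δ) (hF : Fam H F Δ Tm)
    (hcst : Cst δ C Δ R c Tm) (hQ : Quo H F R π d') (hcB : 10 * ((Δ : ℝ) + B) ≤ c)
    (hBE : B ≤ R * E) (hlo : 100 * ((Δ : ℝ) + B) ≤ lo) (hhi : 100 * ((Δ : ℝ) + B) ≤ hi)
    (hch : Chn H F B lo hi h y) {i k j : ℤ} (hik : i ≤ k) (hkj : k ≤ j) :
    d' (π (y i)) (π (y k)) + d' (π (y k)) (π (y j)) ≤
      d' (π (y i)) (π (y j)) + (2 * E + 302) := by
  have hTm : 0 ≤ Tm := by
    have e1 := hcst.hT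
    have e2 : (0 : ℝ) ≤ R := Nat.cast_nonneg _
    linarith
  obtain ⟨γ, hγ0, hγ1, hγ⟩ := exists_geo hG.path (y i) (y j)
  obtain ⟨-, a1⟩ := hA2 G G' d d' δ C Δ R X F H Tm π B E lo hi h y hG hcst.hC hF hQ hcst.hR hBE
    hlo hhi hch
  obtain ⟨-, a2⟩ := a1 i j (by omega) _ γ hγ hγ0 hγ1
  obtain ⟨t, ht, ht'⟩ := a2 k hik hkj
  obtain ⟨-, -, -, -, a3⟩ := hA G d δ C Δ X F H Tm B lo hi h y hG hcst.hC hF hlo hhi hch
  obtain ⟨hG', hE'⟩ := hE G G' d d' δ C Δ R X F H _ Tm π hG hF hcst hQ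
  obtain ⟨γ', hγ0', hγ1', hγ'⟩ := exists_geo hG'.path (π (y i)) (π (y j))
  have htight : Tight H F (fun f => H.T f / 2) c (γ 0) (γ (d (y i) (y j))) := by
    rw [hγ0, hγ1]
    exact E1.tight_mono hcB (a3 i j)
  obtain ⟨b1, -⟩ := hE' (fun f => H.T f / 2) (E1.wt_half hF) (fun g hg => by
    show |H.T g / 2 - H.T g / 2| ≤ Tm / 10
    rw [sub_self, abs_zero]
    linarith) _ γ hγ htight _ γ' hγ' (by rw [hγ0, hγ0']) (by rw [hγ1, hγ1'])
  obtain ⟨s, hs, hs'⟩ := b1 t ht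
  have t1 := hγ' 0 s (Nat.zero_le _) hs
  have t2 := hγ' s _ hs le_rfl
  rw [hγ0'] at t1
  rw [hγ1'] at t2
  have t3 := hG'.path.tri (π (y i)) (γ' s) (π (γ t))
  have t4 := hG'.path.tri (π (y i)) (π (γ t)) (π (y k))
  have t5 := hG'.path.tri (π (y k)) (π (γ t)) (γ' s)
  have t6 := hG'.path.tri (π (y k)) (γ' s) (π (y j))
  have t7 := hG'.path.symm (π (y k)) (π (γ t))
  have t8 := hG'.path.symm (π (γ t)) (γ' s)
  omega

/-- counting the hubs of a period -/
theorem cntL (hCo : StCount) (hA : StKA) (hG : HypG d δ) (hF : Fam H F Δ Tm)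
    (hcst : Cst δ C Δ R c Tm) (hlo : 100 * ((Δ : ℝ) + B) ≤ lo)
    (hhi : 100 * ((Δ : ℝ) + B) ≤ hi) (hch : Chn H F B lo hi h y) (hR : 2 * ((R : ℝ) * p) ≤ lo)
    {N : ℕ} {k : ℤ} (hDE : DE H F R N (y k) (y (k + p))) : p ≤ N := by
  classical
  by_contra hcon
  push Not at hcon
  obtain ⟨a1, a2, -, -, -⟩ := hA G d δ C Δ X F H Tm B lo hi h y hG hcst.hC hF hlo hhi hch
  have hC1 : (1 : ℝ) ≤ C := by exact_mod_cast hF.hC1
  have hCΔ : 1000 * (C : ℝ) ≤ Δ := by exact_mod_cast hF.hC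
  have hB0 : (0 : ℝ) ≤ B := Nat.cast_nonneg _
  have hne : ∀ a b : ℤ, a ≠ b → h a ≠ h b ∧ h a ≠ (h b)⁻¹ := by
    intro a b hab
    rcases lt_or_gt_of_ne hab with h1 | h1
    · exact a1 a b h1
    · have h2 := a1 b a h1
      refine ⟨fun h3 => h2.1 h3.symm, fun h3 => h2.2 ?_⟩
      rw [h3, inv_inv]
  have hinj : Set.InjOn h (Finset.Ioc k (k + p) : Set ℤ) := by
    intro a _ b _ hab
    by_contra hne'
    exact (hne a b hne').1 hab
  have hS := hCo G d δ C Δ R X F H _ Tm hG hF hcst N (y k) (y (k + p)) hDE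
    ((Finset.Ioc k (k + p)).image h)
    (by
      intro g hg
      obtain ⟨j, -, rfl⟩ := Finset.mem_image.1 hg
      exact hch.mem j)
    (by
      intro g hg
      obtain ⟨j, hj, rfl⟩ := Finset.mem_image.1 hg
      rw [Finset.mem_Ioc] at hj
      have e1 := a2 k j (k + p) hj.1 hj.2
      have e2 := abs_sub_abs_le_abs_sub (H.Φ (h j) (y (j - 1)) (y j))
        (H.Φ (h j) (y k) (y (k + p)))
      rw [abs_sub_comm] at e2
      have e3 := hch.ge (j - 1)
      rw [sub_add_cancel] at e3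
      have e4 : (R : ℝ) * N ≤ R * p := by
        have e5 : (N : ℝ) ≤ p := by exact_mod_cast hcon.le
        exact mul_le_mul_of_nonneg_left e5 (Nat.cast_nonneg _)
      linarith)
    (by
      intro g hg g' hg'
      obtain ⟨j, -, rfl⟩ := Finset.mem_image.1 hg
      obtain ⟨j', -, rfl⟩ := Finset.mem_image.1 hg'
      by_cases hjj : j' = j
      · rw [hjj]
        exact fam_ne_inv hF (hch.mem j)
      · exact (hne j' j hjj).2)
  rw [Finset.card_image_of_injOn hinj, Int.card_Ioc] at hS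
  have h2 : (k + (p : ℤ) - k).toNat = p := by
    have : k + (p : ℤ) - k = p := by ring
    rw [this, Int.toNat_natCast]
  omega

end Chain

end C2

/-- Module K2C. -/
theorem stKB (hE : StE) (hLen : StLen) (hCo : StCount) (hA : StKA) (hA2 : StKA2) : StKB := by
  obtain ⟨Ml, hLen⟩ := hLen
  refine ⟨max 1 Ml, le_max_left _ _, ?_⟩
  intro G G' _ _ d d' δ C Δ R X F H H' c Tm π B E p lo hi h y w hG hF hcst hc hM hQ hG' hC hcB
    hBE hlo hhi hch hh hy hR hp
  have rM : (1 : ℝ) ≤ ((max 1 Ml : ℕ) : ℝ) := by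
    exact_mod_cast le_max_left 1 Ml
  have rM' : (Ml : ℝ) ≤ ((max 1 Ml : ℕ) : ℝ) := by
    exact_mod_cast le_max_right 1 Ml
  have hTm : 0 ≤ Tm := by
    have e1 := hcst.hT
    have e2 : (0 : ℝ) ≤ R := Nat.cast_nonneg _
    linarith
  obtain ⟨-, -, -, -, a3⟩ := hA G d δ C Δ X F H Tm B lo hi h y hG hcst.hC hF hlo hhi hch
  obtain ⟨a1, -⟩ := hA2 G G' d d' δ C Δ R X F H Tm π B E lo hi h y hG hcst.hC hF hQ hcst.hR hBE
    hlo hhi hch
  have hu : ∀ k, Tm + 100 * C + 2 * E + 999 ≤ (d' (π (y k)) (π (y (k + p))) : ℝ) := by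
    intro k
    have h1 := hLen G G' d d' δ C Δ R X F H c Tm π hG hF hcst hc hQ (by
      have e2 : (0 : ℝ) ≤ R := Nat.cast_nonneg _
      have e3 := mul_le_mul_of_nonneg_right rM' e2
      linarith) (fun f => H.T f / 2) (E1.wt_half hF) (fun g hg => by
        show |H.T g / 2 - H.T g / 2| ≤ Tm / 10
        rw [sub_self, abs_zero]
        linarith) (y k) (y (k + p)) (E1.tight_mono hcB (a3 k (k + p))) _ le_rfl
    have h2 := C2.cntL hCo hA hG hF hcst hlo hhi hch hR h1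
    set m := d' (π (y k)) (π (y (k + p))) with hm
    have h4 : (p : ℝ) ≤ Ml * (m + 1) := by exact_mod_cast h2
    have h5 : (Ml : ℝ) * (m + 1) ≤ ((max 1 Ml : ℕ) : ℝ) * (m + 1) :=
      mul_le_mul_of_nonneg_right rM' (by positivity)
    have h6 : ((max 1 Ml : ℕ) : ℝ) * (Tm + 100 * C + 2 * E + 1000) ≤
      ((max 1 Ml : ℕ) : ℝ) * (m + 1) := by linarith
    have h7 : Tm + 100 * C + 2 * E + 1000 ≤ (m : ℝ) + 1 :=
      le_of_mul_le_mul_left h6 (by linarith)
    linarith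
  exact C2.absB (P := fun k => π (y k)) hG' hC H' hTm
    (fun k => by
      show π (y (k + p)) = π w * π (y k)
      rw [hy k, map_mul]) a1
    (fun i k j hik hkj => C2.addL hE hA hA2 hG hF hcst hQ hcB hBE hlo hhi hch hik hkj) hu

end Pool.Agent.Helper74.TB.K2
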