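import Pool.Agent.Helper74.TB.StK2

/-!
MP_7d16da_al, Part K2D: if the images of two chains of hubs are close at both ends, then one
translate of the second chain runs along many consecutive hubs of the first chain.
-/

set_option autoImplicit false

namespace Pool.Agent.Helper74.TB.K2

open Pool.Agent.Helper74.MH

namespace KC

theorem abs_lo {a b e : ℝ} (h : |a - b| ≤ e) : |b| - e ≤ |a| := by
  have h1 := abs_sub_abs_le_abs_sub b a
  rw [abs_sub_comm] at h1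
  linarith

theorem abs_hi {a b e : ℝ} (h : |a - b| ≤ e) : |a| ≤ |b| + e := by
  have h1 := abs_sub_abs_le_abs_sub a b
  linarith

section

variable {G : Type*} [Group G] {d : G → G → ℕ} {δ C Δ R : ℕ} {X F : Set G} {H : Hubs d X C}
  {Tm : ℝ}

/-- the digon structure restricted to a run without hub pieces -/
theorem dc_run {b b' : G → ℝ} {c0 r0 : ℝ} {γ γ' : ℕ → G} {N N' i j : ℕ} {u : G}
    (h : DC H F R b b' c0 r0 γ γ' N N' i j u) {s1 s2 : ℕ} (h2 : s2 ≤ N)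
    (hno : ∀ f ∈ F, ∀ i1 i2, i1 < i2 → i2 ≤ N →
      (∀ t, i1 ≤ t → t ≤ i2 → Nh d (7 * C) (H.Z f) (γ t)) →
      b f - c0 ≤ H.Φ f (γ i1) (γ i2) → i2 ≤ s1 ∨ s2 ≤ i1) (h1 : i ≤ s1) :
    ∃ u' ∈ Subgroup.closure F, ∀ t, s1 ≤ t → t ≤ s2 →
      ∃ t' ≤ N', (d (γ t) (u' * γ' t') : ℝ) ≤ r0 := by
  induction h with
  | fin i j u hi hj hu hN hcl =>
    refine ⟨u, hu, fun t ht1 ht2 => ?_⟩
    obtain ⟨t', -, ht', -, hd⟩ := hcl.1 t (by omega) (by omega)
    exact ⟨t', ht', hd⟩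
  | hub i j u i1 i2 j1 j2 f hf hu hi hi12 hi2 hj hj12 hj2 hcl hn1 hn2 hb1 hb2 _ ih =>
    rcases hno f hf i1 i2 hi12 hi2 hn1 hb1 with h | h
    · exact ih h
    · refine ⟨u, hu, fun t ht1 ht2 => ?_⟩
      obtain ⟨t', -, ht', -, hd⟩ := hcl.1 t (by omega) (by omega)
      exact ⟨t', by omega, hd⟩

/-- coarse monotonicity, absolute values -/
theorem mono_abs (hG : HypG d δ) (H : Hubs d X C) {f : G} (hf : f ∈ X) {x p y : G}
    (hp : d x p + d p y = d x y) {a : ℝ} (h1 : |H.Φ f x y| ≤ a)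
    (h2 : a + 10 * C < |H.Φ f x p|) : False := by
  have hC0 : (0 : ℝ) ≤ C := Nat.cast_nonneg C
  have ha : 0 ≤ a := (abs_nonneg _).trans h1
  have h3 := H.coc f hf x p y
  have h4 : |H.Φ f x p| - a ≤ |H.Φ f p y| := by
    have h5 := abs_sub_abs_le_abs_sub (H.Φ f x p) (H.Φ f x y)
    have h6 : H.Φ f x p - H.Φ f x y = -H.Φ f p y := by linarith
    rw [h6, abs_neg] at h5
    linarith
  have h7 := hl_mono_aux hG H hf hp (by linarith) (by linarith)
  linarith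

theorem mono_abs' (hG : HypG d δ) (H : Hubs d X C) {f : G} (hf : f ∈ X) {x p y : G}
    (hp : d x p + d p y = d x y) {a : ℝ} (h1 : |H.Φ f x y| ≤ a)
    (h2 : a + 10 * C < |H.Φ f p y|) : False := by
  have h3 : d y p + d p x = d y x := by
    rw [hG.path.symm y p, hG.path.symm p x, hG.path.symm y x]
    omega
  refine mono_abs hG H hf h3 (a := a) ?_ ?_
  · rw [hl_symm H hf, abs_neg]; exact h1
  · rw [hl_symm H hf, abs_neg]; exact h2

/-- pieces of a geodesic, absolute values -/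
theorem sub_abs (hG : HypG d δ) (H : Hubs d X C) (hC : 100 * δ ≤ C) {f : G} (hf : f ∈ X)
    {N : ℕ} {γ : ℕ → G} (hγ : IsGeo d N γ) {i j : ℕ} (hi : i ≤ N) (hj : j ≤ N) :
    |H.Φ f (γ i) (γ j)| ≤ |H.Φ f (γ 0) (γ N)| + 8 * C := by
  have hC0 : (0 : ℝ) ≤ C := Nat.cast_nonneg C
  have key : ∀ i j, i ≤ j → j ≤ N → |H.Φ f (γ i) (γ j)| ≤ |H.Φ f (γ 0) (γ N)| + 8 * C := by
    intro i j hij hj
    have h1 := hl_sub hG H hC hf hγ hij hj
    have h2 := hl_sub hG H hC (H.Xinv f hf) hγ hij hj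
    have h3 := H.neg f hf (γ i) (γ j)
    have h4 := H.neg f hf (γ 0) (γ N)
    have h5 : max (H.Φ f (γ 0) (γ N)) 0 ≤ |H.Φ f (γ 0) (γ N)| :=
      max_le (le_abs_self _) (abs_nonneg _)
    have h6 : max (H.Φ f⁻¹ (γ 0) (γ N)) 0 ≤ |H.Φ f (γ 0) (γ N)| + C := by
      refine max_le ?_ (by positivity)
      have := neg_abs_le (H.Φ f (γ 0) (γ N))
      rw [abs_le] at h4
      linarith [h4.2]
    rw [abs_le] at h3
    rw [abs_le]
    constructor <;> linarith [h3.1, h3.2]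
  rcases le_total i j with h | h
  · exact key i j h hj
  · rw [hl_symm H hf, abs_neg]
    exact key j i h hi

omit [Group G] in
theorem nh_mono {r r' : ℕ} (hr : r ≤ r') {S : Set G} {x : G} (h : Nh d r S x) : Nh d r' S x := by
  obtain ⟨z, hz, hd⟩ := h
  exact ⟨z, hz, hd.trans hr⟩

theorem nh_move (hG : HypG d δ) {r s : ℕ} {S : Set G} {x y : G} (h : Nh d r S y)
    (hxy : d x y ≤ s) : Nh d (r + s) S x := by
  obtain ⟨z, hz, hd⟩ := h
  refine ⟨z, hz, ?_⟩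
  have := hG.path.tri x y z
  omega

section chain

variable {B : ℕ} {lo hi : ℝ} {h y : ℤ → G}

/-- What is used about a chain. -/
structure Ch (H : Hubs d X C) (F : Set G) (Δ B : ℕ) (lo hi : ℝ) (h y : ℤ → G) : Prop where
  mem : ∀ k, h k ∈ F
  nr : ∀ k, Nh d B (H.Z (h k)) (y k)
  ge : ∀ k, lo ≤ |H.Φ (h k) (y (k - 1)) (y k)|
  le : ∀ k, |H.Φ (h k) (y (k - 1)) (y k)| ≤ H.T (h k) / 2 - hi
  dist : ∀ i j, i < j → h i ≠ h j ∧ h i ≠ (h j)⁻¹
  on : ∀ i k j, i < k → k ≤ j → |H.Φ (h k) (y i) (y j) - H.Φ (h k) (y (k - 1)) (y k)| ≤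
      10 * ((Δ : ℝ) + B)
  btw : ∀ i k j, i < k → k < j → ∀ a ∈ H.Z (h i), ∀ b ∈ H.Z (h j),
      |H.Φ (h k) a b - H.Φ (h k) (y (k - 1)) (y k)| ≤ 10 * ((Δ : ℝ) + B)
  off : ∀ i j, i ≤ j → ∀ g ∈ F, (∀ k, i < k → k ≤ j → g ≠ h k ∧ g ≠ (h k)⁻¹) →
      |H.Φ g (y i) (y j)| ≤ 10 * ((Δ : ℝ) + B)
  tight : ∀ i j, Tight H F (fun f => H.T f / 2) (10 * ((Δ : ℝ) + B)) (y i) (y j)

/-- positions on both sides of a hub -/
theorem pos1 (hG : HypG d δ) (hF : Fam H F Δ Tm) (hc : Ch H F Δ B lo hi h y) {i k j : ℤ}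
    (h1 : i < k) (h2 : k < j) {r r' : ℕ} {p q : G}
    (hp : Nh d r (H.Z (h i)) p) (hq : Nh d r' (H.Z (h j)) q) :
    |H.Φ (h k) p q - H.Φ (h k) (y (k - 1)) (y k)| ≤ 10 * ((Δ : ℝ) + B) + r + r' := by
  obtain ⟨a, ha, hpa⟩ := hp
  obtain ⟨b, hb, hqb⟩ := hq
  have h3 := hc.btw i k j h1 h2 a ha b hb
  have h4 := hl_lip2 hG H (hF.sub (hc.mem k)) p q a b
  have h5 : (d p a : ℝ) ≤ r := by exact_mod_cast hpa
  have h6 : (d q b : ℝ) ≤ r' := by exact_mod_cast hqb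
  rw [abs_le] at h3 h4 ⊢
  constructor <;> linarith [h3.1, h3.2, h4.1, h4.2]

/-- both positions before the hub -/
theorem pos2 (hG : HypG d δ) (hF : Fam H F Δ Tm) (hc : Ch H F Δ B lo hi h y) {i j k : ℤ}
    (h1 : i < k) (h2 : j < k) {r r' : ℕ} {p q : G}
    (hp : Nh d r (H.Z (h i)) p) (hq : Nh d r' (H.Z (h j)) q) :
    |H.Φ (h k) p q| ≤ 20 * ((Δ : ℝ) + B) + r + r' := by
  obtain ⟨w, hw, -⟩ := hc.nr (k + 1)
  have hz : Nh d 0 (H.Z (h (k + 1))) w := ⟨w, hw, by rw [hb_self hG]⟩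
  have h3 := pos1 hG hF hc h1 (lt_add_one k) hp hz
  have h4 := pos1 hG hF hc h2 (lt_add_one k) hq hz
  have h5 := H.coc (h k) (hF.sub (hc.mem k)) p q w
  push_cast at h3 h4
  rw [abs_le] at h3 h4 ⊢
  constructor <;> linarith [h3.1, h3.2, h4.1, h4.2]

/-- both positions after the hub -/
theorem pos3 (hG : HypG d δ) (hF : Fam H F Δ Tm) (hc : Ch H F Δ B lo hi h y) {i j k : ℤ}
    (h1 : k < i) (h2 : k < j) {r r' : ℕ} {p q : G}
    (hp : Nh d r (H.Z (h i)) p) (hq : Nh d r' (H.Z (h j)) q) :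
    |H.Φ (h k) p q| ≤ 20 * ((Δ : ℝ) + B) + r + r' := by
  obtain ⟨w, hw, -⟩ := hc.nr (k - 1)
  have hz : Nh d 0 (H.Z (h (k - 1))) w := ⟨w, hw, by rw [hb_self hG]⟩
  have h3 := pos1 hG hF hc (sub_one_lt k) h1 hz hp
  have h4 := pos1 hG hF hc (sub_one_lt k) h2 hz hq
  have h5 := H.coc (h k) (hF.sub (hc.mem k)) w p q
  push_cast at h3 h4
  rw [abs_le] at h3 h4 ⊢
  constructor <;> linarith [h3.1, h3.2, h4.1, h4.2]

/-- The core lemma, positive direction. -/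
theorem core_fwd (hG : HypG d δ) (hC : 100 * δ ≤ C) (hF : Fam H F Δ Tm)
    (hlo : 1000 * ((Δ : ℝ) + B) ≤ lo) (hhi : 1000 * ((Δ : ℝ) + B) ≤ hi)
    (hT : 1000 * ((Δ : ℝ) + B) ≤ Tm)
    (hc : Ch H F Δ B lo hi h y) {ka kb s s' : ℤ}
    (h1 : ka + 2 < s) (h2 : s ≤ s') (h3 : s' + 2 < kb)
    {N M : ℕ} {γ η : ℕ → G} (hγ : IsGeo d N γ) (hγ0 : γ 0 = y ka) (hγ1 : γ N = y kb)
    (hη : IsGeo d M η) {tA tB sA sB : ℕ} (htA : tA ≤ N) (htB : tB ≤ N) (hsAB : sA ≤ sB)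
    (hsB : sB ≤ M) (hA : d (γ tA) (η sA) ≤ 20 * C) (hB : d (γ tB) (η sB) ≤ 20 * C)
    (hAn : Nh d (7 * C) (H.Z (h (s - 2))) (γ tA))
    (hAe : |H.Φ (h (s - 2)) (γ 0) (γ tA)| ≤ 6 * C)
    (hBn : Nh d (7 * C) (H.Z (h (s' + 2))) (γ tB))
    (hBe : |H.Φ (h (s' + 2)) (γ tB) (γ N)| ≤ 6 * C) :
    ∃ σ1 σ2, σ1 ≤ σ2 ∧ σ2 ≤ M ∧
      (∀ k, s ≤ k → k ≤ s' → lo - 11 * ((Δ : ℝ) + B) ≤ |H.Φ (h k) (η σ1) (η σ2)|) ∧
      ∀ g ∈ F, ∀ i1 i2, i1 < i2 → i2 ≤ M →
        (∀ t, i1 ≤ t → t ≤ i2 → Nh d (7 * C) (H.Z g) (η t)) →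
        H.T g / 2 - 50 * ((Δ : ℝ) + B) ≤ |H.Φ g (η i1) (η i2)| → i2 ≤ σ1 ∨ σ2 ≤ i1 := by
  have hδ := hG.one
  have hC100 : 100 ≤ C := by omega
  have rC : (100 : ℝ) ≤ C := by exact_mod_cast hC100
  have rΔ : 1000 * (C : ℝ) ≤ Δ := by exact_mod_cast hF.hC
  have rD : (0 : ℝ) ≤ B := Nat.cast_nonneg _
  have fX : ∀ k, h k ∈ X := fun k => hF.sub (hc.mem k)
  -- tA ≤ tB
  have htAB : tA ≤ tB := by
    by_contra hcon
    push Not at hcon
    have a1 := pos2 hG hF hc (i := ka) (j := s - 2) (k := s) (by omega) (by omega) (hc.nr ka) hAn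
    have a2 := pos1 hG hF hc (i := ka) (j := s' + 2) (k := s) (by omega) (by omega) (hc.nr ka) hBn
    have a3 := hc.ge s
    have a4 := abs_lo a2
    push_cast at a1 a4
    rw [← hγ0] at a1 a4
    exact mono_abs hG H (fX s) (hb_btw hG hγ (Nat.zero_le tB) hcon.le htA) a1 (by linarith)
  have hAη : Nh d (27 * C) (H.Z (h (s - 2))) (η sA) := by
    have h4 := nh_move hG hAn (x := η sA) (s := 20 * C) (by rw [hG.path.symm]; exact hA)
    exact nh_mono (by omega) h4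
  have hBη : Nh d (27 * C) (H.Z (h (s' + 2))) (η sB) := by
    have h4 := nh_move hG hBn (x := η sB) (s := 20 * C) (by rw [hG.path.symm]; exact hB)
    exact nh_mono (by omega) h4
  -- closeness on `[sA, sB]`
  have hclose : ∀ t, sA ≤ t → t ≤ sB → ∃ t1 ≤ N, d (η t) (γ t1) ≤ 21 * C := by
    intro t ht1 ht2
    have e1 : γ (tA + (tB - tA)) = γ tB := by congr 1; omega
    have e2 : η (sA + (sB - sA)) = η sB := by congr 1; omega
    obtain ⟨s1, hs1, hd1⟩ := hb_ft hG (hb_sub hG hη hsAB hsB) (hb_sub hG hγ htAB htB)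
      (r := 20 * C) (by simpa [hG.path.symm (η sA) (γ tA)] using hA)
      (by simp only [e1, e2]; rw [hG.path.symm]; exact hB) (t := t - sA) (by omega)
    have e3 : sA + (t - sA) = t := by omega
    simp only [e3] at hd1
    exact ⟨tA + s1, by omega, by omega⟩
  -- angles on `[sA, sB]`
  have hang : ∀ k, s - 1 ≤ k → k ≤ s' + 1 →
      900 * ((Δ : ℝ) + B) ≤ |H.Φ (h k) (η sA) (η sB)| := by
    intro k hk1 hk2
    have a1 := pos1 hG hF hc (i := s - 2) (j := s' + 2) (k := k) (by omega) (by omega) hAη hBη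
    have a2 := abs_lo a1
    have a3 := hc.ge k
    push_cast at a2
    linarith
  obtain ⟨ρ1, σ1, hσ10, hσ11, hσ1B, -, -, -, hσ1e, hσ1n, -⟩ := hl_ee hG H hC (fX (s - 1)) hη hsAB
    hsB (by have := hang (s - 1) le_rfl (by omega); linarith)
  obtain ⟨σ2, ρ2, hσ2A, hσ21, hρ2B, -, -, hσ2e, -, hσ2n, -⟩ := hl_ee hG H hC (fX (s' + 1)) hη hsAB
    hsB (by have := hang (s' + 1) (by omega) le_rfl; linarith)
  have hσ1A : sA ≤ σ1 := by omega
  have hσ2B : σ2 ≤ sB := by omega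
  have n1 : Nh d (7 * C) (H.Z (h (s - 1))) (η σ1) := hσ1n σ1 hσ11.le le_rfl
  have n2 : Nh d (7 * C) (H.Z (h (s' + 1))) (η σ2) := hσ2n σ2 le_rfl hσ21.le
  have hσ12 : σ1 ≤ σ2 := by
    by_contra hcon
    push Not at hcon
    have a1 := pos2 hG hF hc (i := s - 2) (j := s - 1) (k := s) (by omega) (by omega) hAη n1
    have a2 := pos1 hG hF hc (i := s - 2) (j := s' + 1) (k := s) (by omega) (by omega) hAη n2
    have a3 := hc.ge s
    have a4 := abs_lo a2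
    push_cast at a1 a4
    exact mono_abs hG H (fX s) (hb_btw hG hη hσ2A hcon.le (by omega)) a1 (by linarith)
  refine ⟨σ1, σ2, hσ12, by omega, ?_, ?_⟩
  · intro k hk1 hk2
    have a1 := pos1 hG hF hc (i := s - 1) (j := s' + 1) (k := k) (by omega) (by omega) n1 n2
    have a2 := abs_lo a1
    have a3 := hc.ge k
    push_cast at a2
    linarith
  intro g hg i1 i2 hi12 hi2M hgn hgΦ
  by_contra hcon
  push Not at hcon
  obtain ⟨hc1, hc2⟩ := hcon
  have hTg := hF.big g hg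
  -- case (a)
  have ca : sA ≤ i1 := by
    by_contra hcon
    push Not at hcon
    have m1 := hgn sA (by omega) (by omega)
    have m2 := hgn σ1 (by omega) (by omega)
    -- first hub
    have b1 : g = h (s - 1) ∨ g = (h (s - 1))⁻¹ := by
      by_contra hne
      push Not at hne
      have c1 := hl_sep hG hF (hc.mem (s - 1)) hg hne.1 hne.2 m1 m2
      have c2 := H.coc (h (s - 1)) (fX (s - 1)) (η sA) (η σ1) (η sB)
      have c3 := hang (s - 1) le_rfl (by omega)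
      have c4 := abs_add_le (H.Φ (h (s - 1)) (η sA) (η σ1)) (H.Φ (h (s - 1)) (η σ1) (η sB))
      rw [c2] at c4
      push_cast at c1
      linarith
    have b2 : g = h (s - 2) ∨ g = (h (s - 2))⁻¹ := by
      by_contra hne
      push Not at hne
      have c1 := hl_sep hG hF (hc.mem (s - 2)) hg hne.1 hne.2 m1 m2
      have c2 := pos1 hG hF hc (i := ka) (j := s - 1) (k := s - 2) (by omega) (by omega)
        (hc.nr ka) n1
      have c3 := hc.ge (s - 2)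
      have c4 := abs_lo c2
      rw [← hγ0] at c4
      have c5 := H.coc (h (s - 2)) (fX (s - 2)) (γ 0) (γ tA) (η σ1)
      have c6 := H.coc (h (s - 2)) (fX (s - 2)) (γ tA) (η sA) (η σ1)
      have c7 := H.lip (h (s - 2)) (fX (s - 2)) (γ tA) (η sA)
      have c8 : (d (γ tA) (η sA) : ℝ) ≤ 20 * C := by exact_mod_cast hA
      have c9 : |H.Φ (h (s - 2)) (γ 0) (η σ1)| ≤ |H.Φ (h (s - 2)) (η sA) (η σ1)| + 26 * C := by
        apply abs_hi
        have e : H.Φ (h (s - 2)) (γ 0) (η σ1) - H.Φ (h (s - 2)) (η sA) (η σ1) =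
          H.Φ (h (s - 2)) (γ 0) (γ tA) + H.Φ (h (s - 2)) (γ tA) (η sA) := by linarith
        rw [e]
        exact (abs_add_le _ _).trans (by linarith)
      push_cast at c1 c4
      linarith
    have b3 := hc.dist (s - 2) (s - 1) (by omega)
    rcases b1 with b1 | b1 <;> rcases b2 with b2 | b2
    · exact b3.1 (b2.symm.trans b1)
    · apply b3.2
      rw [← b1, b2, inv_inv]
    · exact b3.2 (b2.symm.trans b1)
    · exact b3.1 (inv_injective (b2.symm.trans b1))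
  have cb : i2 ≤ sB := by
    by_contra hcon
    push Not at hcon
    have m1 := hgn σ2 (by omega) (by omega)
    have m2 := hgn sB (by omega) (by omega)
    have b1 : g = h (s' + 1) ∨ g = (h (s' + 1))⁻¹ := by
      by_contra hne
      push Not at hne
      have c1 := hl_sep hG hF (hc.mem (s' + 1)) hg hne.1 hne.2 m1 m2
      have c2 := H.coc (h (s' + 1)) (fX (s' + 1)) (η sA) (η σ2) (η sB)
      have c3 := hang (s' + 1) (by omega) le_rfl
      have c4 := abs_add_le (H.Φ (h (s' + 1)) (η sA) (η σ2)) (H.Φ (h (s' + 1)) (η σ2) (η sB))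
      rw [c2] at c4
      push_cast at c1
      linarith
    have b2 : g = h (s' + 2) ∨ g = (h (s' + 2))⁻¹ := by
      by_contra hne
      push Not at hne
      have c1 := hl_sep hG hF (hc.mem (s' + 2)) hg hne.1 hne.2 m1 m2
      have c2 := pos1 hG hF hc (i := s' + 1) (j := kb) (k := s' + 2) (by omega) (by omega)
        n2 (hc.nr kb)
      have c3 := hc.ge (s' + 2)
      have c4 := abs_lo c2
      rw [← hγ1] at c4
      have c5 := H.coc (h (s' + 2)) (fX (s' + 2)) (η σ2) (γ tB) (γ N)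
      have c6 := H.coc (h (s' + 2)) (fX (s' + 2)) (η σ2) (η sB) (γ tB)
      have c7 := H.lip (h (s' + 2)) (fX (s' + 2)) (η sB) (γ tB)
      have c8 : (d (η sB) (γ tB) : ℝ) ≤ 20 * C := by
        rw [hG.path.symm]; exact_mod_cast hB
      have c9 : |H.Φ (h (s' + 2)) (η σ2) (γ N)| ≤ |H.Φ (h (s' + 2)) (η σ2) (η sB)| + 26 * C := by
        apply abs_hi
        have e : H.Φ (h (s' + 2)) (η σ2) (γ N) - H.Φ (h (s' + 2)) (η σ2) (η sB) =
          H.Φ (h (s' + 2)) (η sB) (γ tB) + H.Φ (h (s' + 2)) (γ tB) (γ N) := by linarith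
        rw [e]
        exact (abs_add_le _ _).trans (by linarith)
      push_cast at c1 c4
      linarith
    have b3 := hc.dist (s' + 1) (s' + 2) (by omega)
    rcases b1 with b1 | b1 <;> rcases b2 with b2 | b2
    · exact b3.1 (b1.symm.trans b2)
    · exact b3.2 (b1.symm.trans b2)
    · apply b3.2
      rw [← b2, b1, inv_inv]
    · exact b3.1 (inv_injective (b1.symm.trans b2))
  -- case (b): the piece is inside `[sA, sB]`
  obtain ⟨t1, ht1, hd1⟩ := hclose i1 ca (by omega)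
  obtain ⟨t2, ht2, hd2⟩ := hclose i2 (by omega) cb
  have gX := hF.sub hg
  have d1 : |H.Φ g (η i1) (η i2)| ≤ |H.Φ g (γ t1) (γ t2)| + 42 * C := by
    apply abs_hi
    have e1 := hl_lip2 hG H gX (η i1) (η i2) (γ t1) (γ t2)
    have e2 : (d (η i1) (γ t1) : ℝ) ≤ 21 * C := by exact_mod_cast hd1
    have e3 : (d (η i2) (γ t2) : ℝ) ≤ 21 * C := by exact_mod_cast hd2
    linarith
  have d2 := sub_abs hG H hC gX hγ ht1 ht2
  rw [hγ0, hγ1] at d2
  have d3 : ∃ k, ka < k ∧ k ≤ kb ∧ (g = h k ∨ g = (h k)⁻¹) := by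
    by_contra hne
    push Not at hne
    have e1 := hc.off ka kb (by omega) g hg (fun k hk1 hk2 => hne k hk1 hk2)
    linarith
  obtain ⟨k, hk1, hk2, hgk⟩ := d3
  have hTk : H.T (h k) = H.T g := by
    rcases hgk with hgk | hgk
    · rw [hgk]
    · rw [hgk, H.Tinv _ (fX k)]
  have d4 : |H.Φ g (y ka) (y kb)| ≤
      |H.Φ (h k) (y (k - 1)) (y k)| + 10 * ((Δ : ℝ) + B) + C := by
    have e1 := abs_hi (hc.on ka k kb hk1 hk2)
    rcases hgk with hgk | hgk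
    · rw [hgk]; linarith
    · have e2 := H.neg (h k) (fX k) (y ka) (y kb)
      rw [← hgk] at e2
      have e3 : |H.Φ g (y ka) (y kb)| ≤ |H.Φ (h k) (y ka) (y kb)| + C := by
        have e4 : |H.Φ g (y ka) (y kb)| ≤ |-H.Φ (h k) (y ka) (y kb)| + C := by
          apply abs_hi
          rw [sub_neg_eq_add]; exact e2
        rwa [abs_neg] at e4
      linarith
  have d5 := hc.le k
  rw [hTk] at d5
  linarith

/-- The core lemma. -/
theorem core (hG : HypG d δ) (hC : 100 * δ ≤ C) (hF : Fam H F Δ Tm)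
    (hlo : 1000 * ((Δ : ℝ) + B) ≤ lo) (hhi : 1000 * ((Δ : ℝ) + B) ≤ hi)
    (hT : 1000 * ((Δ : ℝ) + B) ≤ Tm)
    (hc : Ch H F Δ B lo hi h y) {ka kb s s' : ℤ}
    (h1 : ka + 2 < s) (h2 : s ≤ s') (h3 : s' + 2 < kb)
    {N M : ℕ} {γ η : ℕ → G} (hγ : IsGeo d N γ) (hγ0 : γ 0 = y ka) (hγ1 : γ N = y kb)
    (hη : IsGeo d M η)
    (hnear : ∀ k, s - 2 ≤ k → k ≤ s' + 2 → ∀ t ≤ N, Nh d (7 * C) (H.Z (h k)) (γ t) →
      ∃ u ≤ M, d (γ t) (η u) ≤ 20 * C) :
    ∃ σ1 σ2, σ1 ≤ σ2 ∧ σ2 ≤ M ∧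
      (∀ k, s ≤ k → k ≤ s' → lo - 11 * ((Δ : ℝ) + B) ≤ |H.Φ (h k) (η σ1) (η σ2)|) ∧
      ∀ g ∈ F, ∀ i1 i2, i1 < i2 → i2 ≤ M →
        (∀ t, i1 ≤ t → t ≤ i2 → Nh d (7 * C) (H.Z g) (η t)) →
        H.T g / 2 - 50 * ((Δ : ℝ) + B) ≤ |H.Φ g (η i1) (η i2)| → i2 ≤ σ1 ∨ σ2 ≤ i1 := by
  have hδ := hG.one
  have hC100 : 100 ≤ C := by omega
  have rC : (100 : ℝ) ≤ C := by exact_mod_cast hC100
  have rΔ : 1000 * (C : ℝ) ≤ Δ := by exact_mod_cast hF.hC
  have rD : (0 : ℝ) ≤ B := Nat.cast_nonneg _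
  have fX : ∀ k, h k ∈ X := fun k => hF.sub (hc.mem k)
  have hbig : ∀ k, s - 2 ≤ k → k ≤ s' + 2 → 10 * (C : ℝ) ≤ |H.Φ (h k) (γ 0) (γ N)| := by
    intro k hk1 hk2
    have a1 := abs_lo (hc.on ka k kb (by omega) (by omega))
    have a2 := hc.ge k
    rw [hγ0, hγ1]
    linarith
  obtain ⟨tA, ρA, -, hA1, hA2, -, -, hAe, -, hAn, -⟩ := hl_ee hG H hC (fX (s - 2)) hγ
    (Nat.zero_le N) le_rfl (hbig _ le_rfl (by omega))
  obtain ⟨ρB, tB, -, hB1, hB2, -, -, -, hBe, hBn, -⟩ := hl_ee hG H hC (fX (s' + 2)) hγ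
    (Nat.zero_le N) le_rfl (hbig _ (by omega) le_rfl)
  have nA := hAn tA le_rfl hA1.le
  have nB := hBn tB hB1.le le_rfl
  obtain ⟨sA, hsA, hdA⟩ := hnear (s - 2) le_rfl (by omega) tA (by omega) nA
  obtain ⟨sB, hsB, hdB⟩ := hnear (s' + 2) (by omega) le_rfl tB hB2 nB
  rcases le_total sA sB with hs | hs
  · exact core_fwd hG hC hF hlo hhi hT hc h1 h2 h3 hγ hγ0 hγ1 hη (by omega) hB2 hs hsB hdA
      hdB nA hAe nB hBe
  · obtain ⟨σ1, σ2, h12, h2M, ha, hb⟩ := core_fwd hG hC hF hlo hhi hT hc h1 h2 h3 hγ hγ0 hγ1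
      (hb_rev hG hη) (sA := M - sA) (sB := M - sB) (tA := tA) (tB := tB) (by omega) hB2
      (by omega) (by omega) (by rw [Nat.sub_sub_self hsA]; exact hdA)
      (by rw [Nat.sub_sub_self hsB]; exact hdB) nA hAe nB hBe
    refine ⟨M - σ2, M - σ1, by omega, by omega, ?_, ?_⟩
    · intro k hk1 hk2
      have := ha k hk1 hk2
      rw [hl_symm H (fX k), abs_neg] at this
      exact this
    · intro g hg i1 i2 hi hi2 hn hΦ
      have := hb g hg (M - i2) (M - i1) (by omega) (by omega) (by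
        intro t ht1 ht2
        exact hn (M - t) (by omega) (by omega)) (by
        rw [Nat.sub_sub_self hi2, Nat.sub_sub_self (by omega : i1 ≤ M),
          hl_symm H (hF.sub hg), abs_neg]
        exact hΦ)
      omega

end chain

end

section quot

variable {G G' : Type*} [Group G] [Group G'] {d : G → G → ℕ} {d' : G' → G' → ℕ}
  {δ C Δ R : ℕ} {X F : Set G} {H : Hubs d X C} {Tm : ℝ} {π : G →* G'}

/-- long distances in the quotient -/
theorem q_len (hG : HypG d δ) (hQ : Quo H F R π d') (E : ℕ) :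
    ∀ x y : G, d x y ≤ R * E → d' (π x) (π y) ≤ E := by
  induction E with
  | zero =>
    intro x y h
    rw [Nat.mul_zero] at h
    have h1 : x = y := (hG.path.zero_iff x y).1 (by omega)
    rw [h1, (hQ.path.zero_iff _ _).2 rfl]
  | succ E ih =>
    intro x y h
    rcases le_total (d x y) R with h1 | h1
    · have := (hQ.adj (π x) (π y)).2 ⟨x, y, rfl, rfl, Or.inl h1⟩
      omega
    · obtain ⟨γ, h0, hN, hγ⟩ := exists_geo hG.path x y
      have e1 := hγ 0 R (Nat.zero_le _) h1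
      have e2 := hγ R _ h1 le_rfl
      rw [h0] at e1
      rw [hN] at e2
      have e3 : R * (E + 1) = R * E + R := by ring
      have e4 := ih (γ R) y (by omega)
      have e5 := (hQ.adj (π x) (π (γ R))).2 ⟨x, γ R, rfl, rfl, Or.inl (by omega)⟩
      have e6 := hQ.path.tri (π x) (π (γ R)) (π y)
      omega

/-- discrete intermediate value -/
theorem iv (φ : ℤ → ℕ) {ka kb : ℤ} (hab : ka ≤ kb) {m : ℕ} (h0 : φ ka < m) (h1 : m ≤ φ kb) :
    ∃ k, ka < k ∧ k ≤ kb ∧ m ≤ φ k ∧ φ (k - 1) < m := by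
  classical
  have hex : ∃ n : ℕ, m ≤ φ (ka + n) := ⟨(kb - ka).toNat, by
    rw [Int.toNat_of_nonneg (by omega)]
    have : ka + (kb - ka) = kb := by ring
    rwa [this]⟩
  have h2 := Nat.find_spec hex
  have h3 : Nat.find hex ≠ 0 := by
    intro h
    rw [h] at h2
    simp only [Nat.cast_zero, add_zero] at h2
    omega
  have h4 : Nat.find hex ≤ (kb - ka).toNat := Nat.find_min' hex (by
    rw [Int.toNat_of_nonneg (by omega)]
    have : ka + (kb - ka) = kb := by ring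
    rwa [this])
  have h5 := Nat.find_min hex (m := Nat.find hex - 1) (by omega)
  refine ⟨ka + Nat.find hex, by omega, by omega, h2, ?_⟩
  have h6 : ka + (Nat.find hex : ℤ) - 1 = ka + ((Nat.find hex - 1 : ℕ) : ℤ) := by
    have : 1 ≤ Nat.find hex := by omega
    push_cast [Nat.cast_sub this]
    ring
  rw [h6]
  omega

/-- slow variation -/
theorem slow (hQ : Quo H F R π d') {y : ℤ → G} {E : ℕ}
    (hs : ∀ k, d' (π (y k)) (π (y (k + 1))) ≤ 2 * E + 1) (n : ℕ) :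
    ∀ k : ℤ, d' (π (y k)) (π (y (k + n))) ≤ n * (2 * E + 1) := by
  induction n with
  | zero =>
    intro k
    simp only [Nat.cast_zero, add_zero]
    rw [(hQ.path.zero_iff _ _).2 rfl]
    exact Nat.zero_le _
  | succ n ih =>
    intro k
    have h1 := ih k
    have h2 := hs (k + n)
    have h3 := hQ.path.tri (π (y k)) (π (y (k + n))) (π (y (k + n + 1)))
    have e : k + ((n + 1 : ℕ) : ℤ) = k + n + 1 := by push_cast; ring
    rw [e]
    have e2 : (n + 1) * (2 * E + 1) = n * (2 * E + 1) + (2 * E + 1) := by ring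
    omega

end quot

end KC

open KC in
theorem stKC (hTR : StTR) (hDig : StDig) (hA : StKA) (hA2 : StKA2) : StKC := by
  intro G G' _ _ d d' δ C Δ R X F H Tm π B E Q n0 lo hi h1 y1 h2 y2 hG hF hQ hcst hBE hlo hhi
    hc1 hc2 ka kb la lb hab hda hdb hD
  have hδ := hG.one
  have hC := hcst.hC
  have hC100 : 100 ≤ C := by omega
  have rC : (100 : ℝ) ≤ C := by exact_mod_cast hC100
  have rΔ : 1000 * (C : ℝ) ≤ Δ := by exact_mod_cast hF.hC
  have rD : (0 : ℝ) ≤ B := Nat.cast_nonneg _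
  have hTm := hcst.hcT
  have mk : ∀ h y : ℤ → G, Chn H F B lo hi h y → Ch H F Δ B lo hi h y := by
    intro h y hc
    obtain ⟨a1, a2, a3, a4, a5⟩ := hA G d δ C Δ X F H Tm B lo hi h y hG hC hF (by linarith)
      (by linarith) hc
    refine ⟨hc.mem, hc.nr, fun k => ?_, fun k => ?_, a1, a2, a3, a4, a5⟩
    · have := hc.ge (k - 1)
      rwa [sub_add_cancel] at this
    · have := hc.le (k - 1)
      rwa [sub_add_cancel] at this
  have ho1 := mk h1 y1 hc1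
  have ho2 := mk h2 y2 hc2
  obtain ⟨hstep, -⟩ := hA2 G G' d d' δ C Δ R X F H Tm π B E lo hi h1 y1 hG hC hF hQ hcst.hR hBE
    (by linarith) (by linarith) hc1
  -- the middle of the chain
  set D := d' (π (y1 ka)) (π (y1 kb)) with hDdef
  obtain ⟨P, hP⟩ : ∃ P, P = (E + 1) * (n0 + 1) := ⟨_, rfl⟩
  have hP0 : 10 ^ 4 * (E + 1) * (n0 + 1) = 10000 * P := by rw [hP]; ring
  rw [hP0] at hD
  have hPE : E + 1 ≤ P := by
    rw [hP]
    exact Nat.le_mul_of_pos_right _ (by omega)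
  have hkk : ∃ k, ka < k ∧ k ≤ kb ∧ Q + 5000 * P ≤ d' (π (y1 ka)) (π (y1 k)) ∧
      d' (π (y1 ka)) (π (y1 (k - 1))) < Q + 5000 * P := by
    have i0 : d' (π (y1 ka)) (π (y1 ka)) < Q + 5000 * P := by
      rw [(hQ.path.zero_iff _ _).2 rfl]
      omega
    have i1 : Q + 5000 * P ≤ d' (π (y1 ka)) (π (y1 kb)) := by omega
    exact iv (fun k => d' (π (y1 ka)) (π (y1 k))) hab i0 i1
  obtain ⟨kc, hkc1, hkc2, hkc3, hkc4⟩ := hkk
  have hkc5 : d' (π (y1 ka)) (π (y1 kc)) ≤ Q + 5000 * P + 2 * E + 1 := by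
    have a1 := hstep (kc - 1)
    rw [sub_add_cancel] at a1
    have a2 := hQ.path.tri (π (y1 ka)) (π (y1 (kc - 1))) (π (y1 kc))
    omega
  have hgood : ∀ k, kc - (n0 + 5) ≤ k → k ≤ kc + (n0 + 5) →
      Q + 4000 + 100 * (E + 1) ≤ d' (π (y1 k)) (π (y1 ka)) ∧
      Q + 4000 + 100 * (E + 1) ≤ d' (π (y1 k)) (π (y1 kb)) := by
    intro k hk1 hk2
    have a1 : d' (π (y1 k)) (π (y1 kc)) ≤ (n0 + 5) * (2 * E + 1) := by
      rcases le_total k kc with hk | hk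
      · have a2 := slow hQ hstep (kc - k).toNat k
        rw [Int.toNat_of_nonneg (by omega)] at a2
        have e : k + (kc - k) = kc := by ring
        rw [e] at a2
        exact a2.trans (Nat.mul_le_mul_right _ (by omega))
      · have a2 := slow hQ hstep (k - kc).toNat kc
        rw [Int.toNat_of_nonneg (by omega)] at a2
        have e : kc + (k - kc) = k := by ring
        rw [e, hQ.path.symm] at a2
        exact a2.trans (Nat.mul_le_mul_right _ (by omega))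
    have a3 : (n0 + 5) * (2 * E + 1) ≤ 10 * P := by
      have e1 : (n0 + 5) * (2 * E + 1) ≤ (5 * (n0 + 1)) * (2 * (E + 1)) :=
        Nat.mul_le_mul (by omega) (by omega)
      have e2 : (5 * (n0 + 1)) * (2 * (E + 1)) = 10 * P := by rw [hP]; ring
      omega
    have b1 := hQ.path.tri (π (y1 ka)) (π (y1 k)) (π (y1 kc))
    have b2 := hQ.path.symm (π (y1 ka)) (π (y1 k))
    have b3 := hQ.path.tri (π (y1 ka)) (π (y1 kc)) (π (y1 kb))
    have b4 := hQ.path.tri (π (y1 kc)) (π (y1 k)) (π (y1 kb))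
    have b5 := hQ.path.symm (π (y1 kc)) (π (y1 k))
    constructor <;> omega
  have hka : ka < kc - (n0 + 5) := by
    by_contra hcon
    have a1 := (hgood ka (by omega) (by omega)).1
    rw [(hQ.path.zero_iff _ _).2 rfl] at a1
    omega
  have hkb : kc + (n0 + 5) < kb := by
    by_contra hcon
    have a1 := (hgood kb (by omega) (by omega)).2
    rw [(hQ.path.zero_iff _ _).2 rfl] at a1
    omega
  -- weights
  have hW : Wt H F (fun f => H.T f / 2) :=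
    { conj := fun f hf g => by rw [H.Tconj f (hF.sub hf)]
      add := fun f hf => by rw [H.Tinv f (hF.sub hf)]; ring
      ge := fun f hf => by
        have := hl_Tpos H (hF.sub hf)
        linarith }
  set K0 : ℝ := (Δ : ℝ) + B with hK0
  have hTm0 : 0 ≤ Tm := by linarith
  have hbT : ∀ f ∈ F, |(fun f => H.T f / 2) f - H.T f / 2| ≤ Tm / 10 := fun f hf => by
    simp only [sub_self, abs_zero]
    linarith
  -- geodesics
  obtain ⟨γ1, g10, g11, hγ1⟩ := exists_geo hG.path (y1 ka) (y1 kb)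
  obtain ⟨γ2, g20, g21, hγ2⟩ := exists_geo hG.path (y2 la) (y2 lb)
  set N1 := d (y1 ka) (y1 kb) with hN1
  set N2 := d (y2 la) (y2 lb) with hN2
  have ti1 : Tight H F (fun f => H.T f / 2) (10 * K0) (γ1 0) (γ1 N1) := by
    rw [g10, g11]
    exact ho1.tight ka kb
  have ti2 : Tight H F (fun f => H.T f / 2) (10 * K0) (γ2 0) (γ2 N2) := by
    rw [g20, g21]
    exact ho2.tight la lb
  -- existence of tight pairs
  have hEx : ∀ x y, d' (π x) (π y) ≤ Q → ∃ k ∈ Subgroup.closure F,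
      Tight H F (fun f => H.T f / 2) (10 * K0) x (k * y) := by
    intro x y _
    classical
    have hex : ∃ n, ∃ k ∈ Subgroup.closure F, d x (k * y) = n :=
      ⟨_, 1, Subgroup.one_mem _, rfl⟩
    obtain ⟨k, hk, hk'⟩ := Nat.find_spec hex
    refine ⟨k, hk, ?_⟩
    have hmin := hl_min hG hF (by linarith : 100 * (C : ℝ) ≤ Tm) (x := x) (y := k * y) (by
      intro k' hk2
      have h4 := Nat.find_min' hex ⟨k' * k, mul_mem hk2 hk, rfl⟩
      rw [hk']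
      rw [mul_assoc] at h4
      omega)
    intro f hf
    have := hmin f hf
    linarith
  obtain ⟨κ, hκ, κ2, hκ2, κ3, hκ3, N3, γ3, hγ3, h30, h31, ti3, hcl⟩ := hTR G G' d d' δ C Δ R X F H
    (fun f => H.T f / 2) (10 * K0) Tm π hG hF (by linarith) hcst hQ hW hbT Q hEx N1 N2
    γ1 γ2 hγ1 hγ2 ti1 ti2 (by rw [g10, g20]; exact hda) (by rw [g11, g21]; exact hdb)
  -- the digon
  have hdc := hDig G d δ C Δ R X F H (fun f => H.T f / 2) (fun f => H.T f / 2) (10 * K0 + 7 * Δ) 0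
    Tm hG hF ⟨hcst.hδ, hcst.hC, hcst.hΔ, hcst.hR, by linarith, by linarith, hcst.hT⟩ hW hW
    (fun f _ => by simp) le_rfl (by linarith) N3 N2 γ3 (fun t => κ2 * γ2 t) hγ3
    (hb_smul hG hγ2 κ2) h30 ⟨κ3 * κ2⁻¹, mul_mem hκ3 (inv_mem hκ2), by rw [h31]; group⟩ ti3 (by
      intro f hf
      have hf' : κ2⁻¹ * f * κ2⁻¹⁻¹ ∈ F := hF.conj f hf κ2⁻¹
      have h4 := ti2 _ hf'
      have h44 := H.Tconj f (hF.sub hf) κ2⁻¹
      show H.Φ f (κ2 * γ2 0) (κ2 * γ2 N2) ≤ H.T f / 2 + (10 * K0 + 7 * ↑Δ)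
      have h45 : H.Φ (κ2⁻¹ * f * κ2⁻¹⁻¹) (γ2 0) (γ2 N2) ≤
        H.T (κ2⁻¹ * f * κ2⁻¹⁻¹) / 2 + 10 * K0 := h4
      have h5 := H.equi f (hF.sub hf) κ2⁻¹ (κ2 * γ2 0) (κ2 * γ2 N2)
      rw [inv_mul_cancel_left, inv_mul_cancel_left] at h5
      have h6 := (abs_le.1 h5).1
      linarith)
  -- the core lemma for `κ⁻¹ γ3`
  obtain ⟨σ1, σ2, h12, h2N, hang, hno⟩ := core hG hC hF hlo hhi (by linarith) ho1
    (s := kc) (s' := kc + n0) (ka := ka) (kb := kb) (by omega) (by omega) (by omega) hγ1 g10 g11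
    (hb_smul hG hγ3 κ⁻¹) (by
      intro k hk1 hk2 t ht hn
      have h4 : d' (π (γ1 t)) (π (y1 k)) ≤ E + 1 := by
        obtain ⟨p, hp, hdp⟩ := ho1.nr k
        have a1 : d' (π (γ1 t)) (π p) ≤ 1 := by
          refine (hQ.adj _ _).2 ⟨γ1 t, p, rfl, rfl, Or.inr ⟨h1 k, ho1.mem k, ?_, ?_⟩⟩
          · exact nh_mono (by omega) hn
          · exact ⟨p, hp, by rw [hb_self hG]; exact Nat.zero_le _⟩
        have a2 := q_len hG hQ E p (y1 k) (by rw [hG.path.symm]; omega)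
        have a3 := hQ.path.tri (π (γ1 t)) (π p) (π (y1 k))
        omega
      obtain ⟨h5, h6⟩ := hgood k (by omega) (by omega)
      have h7 := hQ.path.tri (π (y1 k)) (π (γ1 t)) (π (y1 ka))
      have h8 := hQ.path.tri (π (y1 k)) (π (γ1 t)) (π (y1 kb))
      have h9 := hQ.path.symm (π (y1 k)) (π (γ1 t))
      obtain ⟨u, hu, hdu⟩ := hcl t ht (by rw [g10]; omega) (by rw [g11]; omega)
      refine ⟨u, hu, ?_⟩
      have h10 := hG.inv κ (γ1 t) (κ⁻¹ * γ3 u)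
      rw [mul_inv_cancel_left] at h10
      omega)
  obtain ⟨u, hu, hrun⟩ := dc_run hdc h2N (by
    intro f hf i1 i2 hi hi2 hn hΦ
    have hf' : κ⁻¹ * f * κ⁻¹⁻¹ ∈ F := hF.conj f hf κ⁻¹
    refine hno _ hf' i1 i2 hi hi2 (fun t ht1 ht2 => ?_) ?_
    · obtain ⟨w, hw, hd⟩ := hn t ht1 ht2
      exact ⟨κ⁻¹ * w, (H.Zconj f (hF.sub hf) κ⁻¹ w).2 hw, by rw [hG.inv]; exact hd⟩
    · rw [H.Tconj f (hF.sub hf) κ⁻¹]
      have h5 := H.equi f (hF.sub hf) κ⁻¹ (γ3 i1) (γ3 i2)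
      have h6 := (abs_le.1 h5).1
      have h7 := le_abs_self (H.Φ (κ⁻¹ * f * κ⁻¹⁻¹) (κ⁻¹ * γ3 i1) (κ⁻¹ * γ3 i2))
      linarith) (Nat.zero_le _)
  obtain ⟨t1, ht1, hd1⟩ := hrun σ1 le_rfl h12
  obtain ⟨t2, ht2, hd2⟩ := hrun σ2 h12 le_rfl
  refine ⟨κ⁻¹ * u * κ2, mul_mem (mul_mem (inv_mem hκ) hu) hκ2, kc, fun j hj1 hj2 => ?_⟩
  set v := κ⁻¹ * u * κ2 with hv
  set k := kc + j with hk
  have fX := hF.sub (ho1.mem k)
  have e1 := hang k (by omega) (by omega)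
  have hd1' : (d (κ⁻¹ * γ3 σ1) (v * γ2 t1) : ℝ) ≤ 0 + 2 * (10 * K0 + 7 * Δ) + 25 * Δ := by
    have : v * γ2 t1 = κ⁻¹ * (u * (κ2 * γ2 t1)) := by rw [hv]; group
    rw [this, hG.inv]
    exact hd1
  have hd2' : (d (κ⁻¹ * γ3 σ2) (v * γ2 t2) : ℝ) ≤ 0 + 2 * (10 * K0 + 7 * Δ) + 25 * Δ := by
    have : v * γ2 t2 = κ⁻¹ * (u * (κ2 * γ2 t2)) := by rw [hv]; group
    rw [this, hG.inv]
    exact hd2
  have e2 := hl_lip2 hG H fX (κ⁻¹ * γ3 σ1) (κ⁻¹ * γ3 σ2) (v * γ2 t1) (v * γ2 t2)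
  have e3 : |H.Φ (h1 k) (κ⁻¹ * γ3 σ1) (κ⁻¹ * γ3 σ2)| ≤
      |H.Φ (h1 k) (v * γ2 t1) (v * γ2 t2)| + (40 * K0 + 78 * Δ) := by
    apply abs_hi
    linarith
  have e5 := sub_abs hG H hC fX (hb_smul hG hγ2 v) ht1 ht2
  simp only [g20, g21] at e5
  linarith

end Pool.Agent.Helper74.TB.K2
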