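import Pool.Agent.Helper74.TB.StK2
import Pool.Agent.Helper74.TB.P
import Pool.Agent.Helper74.TB.H

/-! MP_7d16da_al, Part K (simplified), Part KE: words give chains. -/

set_option autoImplicit false

namespace Pool.Agent.Helper74.TB.K2

open Pool.Agent.Helper74.MH
open PH

/-- Part KE: words give chains. -/
theorem stKE : StKE := by
  intro G _ d δ C Δ X F H Tm n B B2 lo hi r x s e g hG _hδC hF hn hW
  set f := r ^ n with hf
  have fF : f ∈ F := hW.mem
  have fX : f ∈ X := hF.sub fF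
  have hn0 : (0 : ℝ) < n := by exact_mod_cast hn
  have hT0 : 0 ≤ H.T f := hl_Tpos H fX
  have hrf : Commute r f := (Commute.refl r).pow_right n
  have hrbf : ∀ m : ℤ, Commute (r ^ m) f := fun m => hrf.zpow_left m
  -- moving along the hub
  have hmove : ∀ (m : ℤ) (y : G), |H.Φ f y (r ^ m * y) - m * H.T f / n| ≤ C := by
    intro m y
    have e1 := p_lin H fX (hrbf m) y n
    have e2 : (r ^ m) ^ n = f ^ m := by
      rw [hf, ← zpow_natCast, ← zpow_mul, ← zpow_natCast, ← zpow_mul, mul_comm]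
    rw [e2, hl_zpow H fX] at e1
    have e3 : (m : ℝ) * H.T f - n * H.Φ f y (r ^ m * y) =
        -(n * (H.Φ f y (r ^ m * y) - m * H.T f / n)) := by
      field_simp
      ring
    rw [e3, abs_neg, abs_mul, abs_of_pos hn0] at e1
    exact le_of_mul_le_mul_left e1 hn0
  have hub : ∀ k, g (k + 1) * f * (g (k + 1))⁻¹ = g k * (s k * f * (s k)⁻¹) * (g k)⁻¹ := by
    intro k
    have e1 : r ^ e k * f * (r ^ e k)⁻¹ = f := conj_of_commute (hrbf (e k)).symm
    rw [hW.rc k]
    calc g k * (s k * r ^ e k) * f * (g k * (s k * r ^ e k))⁻¹ =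
        g k * (s k * (r ^ e k * f * (r ^ e k)⁻¹) * (s k)⁻¹) * (g k)⁻¹ := by group
      _ = _ := by rw [e1]
  have hub' : ∀ k, g (k + 1) * f * (g (k + 1))⁻¹ = (g k * s k) * f * (g k * s k)⁻¹ := by
    intro k
    rw [hub k]
    group
  have hci : ∀ (x y z : G), x * y * x⁻¹ = x * z * x⁻¹ → y = z := by
    intro x y z hxyz
    exact mul_left_cancel (mul_right_cancel hxyz)
  have hang : ∀ k, |H.Φ (g (k + 1) * f * (g (k + 1))⁻¹) (g k * x) (g (k + 1) * x) -
      (e k : ℝ) * H.T f / n| ≤ 3 * C + B2 := by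
    intro k
    rw [hub' k]
    have e1 : g k * x = (g k * s k) * ((s k)⁻¹ * x) := by group
    have e2 : g (k + 1) * x = (g k * s k) * (r ^ e k * x) := by rw [hW.rc k]; group
    rw [e1, e2]
    have e3 := H.equi f fX (g k * s k) ((s k)⁻¹ * x) (r ^ e k * x)
    have e4 := H.coc f fX ((s k)⁻¹ * x) x (r ^ e k * x)
    have e5 := H.lip f fX ((s k)⁻¹ * x) x
    have e6 : d ((s k)⁻¹ * x) x ≤ B2 := by
      have h1 := hG.inv (s k) ((s k)⁻¹ * x) x
      rw [mul_inv_cancel_left] at h1
      rw [← h1]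
      exact hW.move k
    have e7 : (d ((s k)⁻¹ * x) x : ℝ) ≤ B2 := by exact_mod_cast e6
    have e8 := hmove (e k) x
    have hC0 : (0 : ℝ) ≤ C := Nat.cast_nonneg C
    rw [abs_le] at e3 e5 e8 ⊢
    constructor <;> linarith [e3.1, e3.2, e5.1, e5.2, e8.1, e8.2]
  have habs : ∀ k, |(e k : ℝ) * H.T f / n| = |(e k : ℝ)| * H.T f / n := by
    intro k
    rw [abs_div, abs_mul, abs_of_nonneg hT0, abs_of_pos hn0]
  refine ⟨?_, hang, ?_⟩
  · refine
      { mem := fun k => hF.conj f fF _
        ne := ?_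
        ne' := ?_
        nr := ?_
        nr' := ?_
        ge := ?_
        le := ?_ }
    · intro k
      show g (k + 1) * f * (g (k + 1))⁻¹ ≠ g k * f * (g k)⁻¹
      rw [hub k]
      exact fun h1 => hW.s1 k (hci _ _ _ h1)
    · intro k
      show g (k + 1) * f * (g (k + 1))⁻¹ ≠ (g k * f * (g k)⁻¹)⁻¹
      rw [hub k]
      intro h1
      apply hW.s2 k
      apply hci (g k)
      show g k * (s k * f * (s k)⁻¹) * (g k)⁻¹ = g k * f⁻¹ * (g k)⁻¹
      rw [h1]
      group
    · intro k
      obtain ⟨z, hz, hxz⟩ := hW.near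
      refine ⟨g k * z, Z_conj H fX _ hz, ?_⟩
      show d (g k * x) (g k * z) ≤ B + B2
      rw [hG.inv]
      omega
    · intro k
      obtain ⟨z, hz, hxz⟩ := hW.near
      refine ⟨g k * s k * z, ?_, ?_⟩
      · show g k * s k * z ∈ H.Z (g (k + 1) * f * (g (k + 1))⁻¹)
        rw [hub' k]
        exact Z_conj H fX _ hz
      · show d (g k * x) (g k * s k * z) ≤ B + B2
        rw [mul_assoc, hG.inv]
        have h1 := hG.path.tri x (s k * x) (s k * z)
        have h2 := hG.inv (s k) x z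
        have h3 := hW.move k
        omega
    · intro k
      show lo - 3 * C - B2 ≤ |H.Φ (g (k + 1) * f * (g (k + 1))⁻¹) (g k * x) (g (k + 1) * x)|
      have h1 := hang k
      have h2 := hW.lo k
      rw [← habs k] at h2
      have h3 := abs_sub_abs_le_abs_sub ((e k : ℝ) * H.T f / n)
        (H.Φ (g (k + 1) * f * (g (k + 1))⁻¹) (g k * x) (g (k + 1) * x))
      rw [abs_sub_comm] at h3
      linarith
    · intro k
      show |H.Φ (g (k + 1) * f * (g (k + 1))⁻¹) (g k * x) (g (k + 1) * x)| ≤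
        H.T (g (k + 1) * f * (g (k + 1))⁻¹) / 2 - (hi - 3 * C - B2)
      rw [H.Tconj f fX]
      have h1 := hang k
      have h2 := hW.hi k
      rw [← habs k] at h2
      have h3 := abs_sub_abs_le_abs_sub
        (H.Φ (g (k + 1) * f * (g (k + 1))⁻¹) (g k * x) (g (k + 1) * x)) ((e k : ℝ) * H.T f / n)
      linarith
  · intro p hs he k
    have hstep : ∀ k, g (k + 1 + p) = g (k + p) * (s k * r ^ e k) := by
      intro k
      have h1 := hW.rc (k + p)
      rw [hs k, he k] at h1
      rw [show k + 1 + (p : ℤ) = k + p + 1 by ring]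
      exact h1
    induction k using Int.induction_on with
    | zero => rw [zero_add]; group
    | succ k ih =>
      rw [hstep, ih, hW.rc]
      group
    | pred k ih =>
      have h1 := hstep (-(k : ℤ) - 1)
      have h2 := hW.rc (-(k : ℤ) - 1)
      rw [sub_add_cancel] at h1 h2
      rw [h1, h2] at ih
      have h3 : g (-(k : ℤ) - 1 + p) * (s (-(k : ℤ) - 1) * r ^ e (-(k : ℤ) - 1)) =
          (g p * (g 0)⁻¹ * g (-(k : ℤ) - 1)) * (s (-(k : ℤ) - 1) * r ^ e (-(k : ℤ) - 1)) := by
        rw [ih]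
        group
      exact mul_right_cancel h3

end Pool.Agent.Helper74.TB.K2
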