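import Pool.Agent.Helper74.TB.StK2
import Pool.Agent.Helper74.TB.P

/-! MP_7d16da_al, Part K (simplified version), module K2G: algebra of matched words. -/

set_option autoImplicit false

namespace Pool.Agent.Helper74.TB.K2

open Pool.Agent.Helper74.MH

namespace KG

/-- the general hypotheses -/
structure Ctx {G : Type} [Group G] {d : G → G → ℕ} {C : ℕ} (H : Hubs d (Lx d (100 * C)) C)
    (F : Set G) (δ Δ n q A L Ax L1 : ℕ) (Tm : ℝ) : Prop where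
  hS : Stage d δ n q A L
  hA : Alg H n q L Ax
  hR : Rels H F n L1 Δ Tm
  h3 : 3 ≤ n
  hδ : 100 * δ ≤ C
  hF : Fp d n L1 ⊆ F

section

variable {G : Type} [Group G] {d : G → G → ℕ} {δ C Δ n q A L Ax L1 L2 km : ℕ}
    {F : Set G} {H : Hubs d (Lx d (100 * C)) C} {Tm : ℝ}

theorem pow_ne (K : Ctx H F δ Δ n q A L Ax L1 Tm) {f : G} (hf : f ∈ F) : f ^ n ≠ 1 := by
  intro h0
  obtain ⟨x, hx⟩ := K.hA.ctr f h0
  have h1 := K.hR.sub hf x
  have h2 := hx 1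
  rw [zpow_one] at h2
  have h3 := K.hδ
  have h4 := K.hS.one
  omega

theorem zpow_ne (K : Ctx H F δ Δ n q A L Ax L1 Tm) {f : G} (hf : f ∈ F) {m : ℤ}
    (hm : f ^ m = 1) : m = 0 := by
  by_contra h0
  have h1 : f ^ m.natAbs = 1 := by
    rcases Int.natAbs_eq m with h2 | h2
    · rw [h2, zpow_natCast] at hm
      exact hm
    · rw [h2, zpow_neg, zpow_natCast, inv_eq_one] at hm
      exact hm
  have h2 := (K.hS.tor f).resolve_left (pow_ne K hf) 1 m.natAbs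
  rw [h1, one_mul, (K.hS.path.zero_iff 1 1).2 rfl, mul_zero] at h2
  omega

theorem r_inf (K : Ctx H F δ Δ n q A L Ax L1 Tm) {S r : G} {a : ℤ}
    (P : Pair H n L1 L2 km S r a) {m : ℤ} (hm : r ^ m = 1) : m = 0 := by
  apply zpow_ne K (K.hF P.fp)
  rw [← zpow_natCast, ← zpow_mul, mul_comm, zpow_mul, hm, one_zpow]

theorem r_inj (K : Ctx H F δ Δ n q A L Ax L1 Tm) {S r : G} {a : ℤ}
    (P : Pair H n L1 L2 km S r a) {m m' : ℤ} (hm : r ^ m = r ^ m') : m = m' := by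
  have h1 : r ^ (m - m') = 1 := by rw [zpow_sub, hm, mul_inv_cancel]
  have := r_inf K P h1
  omega

theorem S_notin (K : Ctx H F δ Δ n q A L Ax L1 Tm) {S r : G} {a : ℤ}
    (P : Pair H n L1 L2 km S r a) : ¬ Commute S (r ^ n) := by
  intro h0
  obtain ⟨j, hj⟩ := Subgroup.mem_zpowers_iff.1 ((P.cen S).1 h0)
  have h1 : r ^ (j * n) = 1 := by
    rw [zpow_mul, hj, zpow_natCast, P.tor]
  have h2 := r_inf K P h1
  have h3 := K.h3
  have h4 : j = 0 := by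
    rcases mul_eq_zero.1 h2 with h5 | h5
    · exact h5
    · omega
  rw [h4, zpow_zero] at hj
  exact P.ne hj.symm

theorem m_zero (K : Ctx H F δ Δ n q A L Ax L1 Tm) {S r : G} {a : ℤ}
    (P : Pair H n L1 L2 km S r a) {m m' : ℤ} (h0 : S⁻¹ * r ^ m * S = r ^ m') : m = 0 := by
  by_contra hm
  have h1 : (r : G) ^ n ≠ 1 := by
    intro h2
    have h3 : r ^ (n : ℤ) = 1 := by rw [zpow_natCast, h2]
    have h4 := r_inf K P h3
    have h5 := K.h3
    omega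
  have h2 := K.hA.ninv r S⁻¹ m m' h1 hm (by rw [inv_inv, h0])
  apply S_notin K P
  have h3 : Commute S r := by
    have := h2.inv_left
    rwa [inv_inv] at this
  exact h3.pow_right n

theorem s_ne (K : Ctx H F δ Δ n q A L Ax L1 Tm) {S r : G} {a : ℤ}
    (P : Pair H n L1 L2 km S r a) :
    S * r ^ n * S⁻¹ ≠ r ^ n ∧ S * r ^ n * S⁻¹ ≠ (r ^ n)⁻¹ := by
  have hfn := pow_ne K (K.hF P.fp)
  constructor
  · intro h0
    exact S_notin K P (mul_inv_eq_iff_eq_mul.1 h0)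
  · intro h0
    have h1 := K.hA.ninv (r ^ n) S 1 (-1) hfn one_ne_zero (by rw [zpow_one, zpow_neg_one, h0])
    exact S_notin K P h1

/-- the translation length of `r ^ n` is at least `n / q` -/
theorem tau (K : Ctx H F δ Δ n q A L Ax L1 Tm) {S r : G} {a : ℤ}
    (P : Pair H n L1 L2 km S r a) : (n : ℝ) ≤ q * H.T (r ^ n) := by
  have hf : r ^ n ∈ Lx d (100 * C) := K.hR.sub (K.hF P.fp)
  have hr : r ^ n ≠ 1 := by
    intro h2
    have h3 : r ^ (n : ℤ) = 1 := by rw [zpow_natCast, h2]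
    have h4 := r_inf K P h3
    have h5 := K.h3
    omega
  have h1 := (K.hS.tor r).resolve_left hr 1
  obtain ⟨E, hE⟩ := hl_len K.hS.toHypG H hf 1
  apply p_lim (c := q * E)
  intro m
  have h2 := h1 (n * m)
  rw [pow_mul] at h2
  have h3 : (n : ℝ) * m ≤ q * d 1 ((r ^ n) ^ m * 1) := by exact_mod_cast h2
  have h4 := (abs_le.1 (hE m)).2
  have h5 : (0 : ℝ) ≤ q := Nat.cast_nonneg q
  nlinarith

end

/-- powers of `lam` -/
theorem pow_match {a b : ℤ} {km lam i j : ℕ} (ha : a ≠ 0) (hb : b ≠ 0) (hak : |a| ≤ km)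
    (hbk : |b| ≤ km) (hl : km + 2 ≤ lam) (h : a * (lam : ℤ) ^ i = b * (lam : ℤ) ^ j) :
    i = j ∧ a = b := by
  have hl0 : (lam : ℤ) ≠ 0 := by omega
  have key : ∀ (a b : ℤ) (i j : ℕ), a ≠ 0 → |b| ≤ km → i > j →
      a * (lam : ℤ) ^ i = b * (lam : ℤ) ^ j → False := by
    intro a b i j ha hbk hij h
    obtain ⟨c, rfl⟩ := Nat.exists_eq_add_of_lt hij
    have h1 : a * (lam : ℤ) ^ (c + 1) = b := by
      have h2 : (a * (lam : ℤ) ^ (c + 1)) * (lam : ℤ) ^ j = b * (lam : ℤ) ^ j := by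
        rw [← h]; ring
      exact mul_right_cancel₀ (pow_ne_zero _ hl0) h2
    have h3 : (lam : ℤ) ≤ |a * (lam : ℤ) ^ (c + 1)| := by
      rw [abs_mul, abs_of_nonneg (by positivity : (0 : ℤ) ≤ (lam : ℤ) ^ (c + 1))]
      have h4 : 1 ≤ |a| := Int.one_le_abs ha
      have h5 : (1 : ℤ) ≤ (lam : ℤ) ^ c := one_le_pow₀ (by omega)
      calc (lam : ℤ) = 1 * (1 * lam) := by ring
        _ ≤ |a| * ((lam : ℤ) ^ c * lam) := by
          apply mul_le_mul h4 _ (by positivity) (by positivity)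
          exact mul_le_mul_of_nonneg_right h5 (by positivity)
        _ = |a| * (lam : ℤ) ^ (c + 1) := by ring
    rw [h1] at h3
    have h6 : (km : ℤ) + 2 ≤ lam := by exact_mod_cast hl
    omega
  rcases lt_trichotomy i j with h1 | h1 | h1
  · exact (key b a j i hb hak h1 h.symm).elim
  · subst h1
    exact ⟨rfl, mul_right_cancel₀ (pow_ne_zero _ hl0) h⟩
  · exact (key a b i j ha hbk h1 h).elim

/-- comparison of the exponents -/
theorem ee_match {a b σ u v : ℤ} {km lam M0 h : ℕ} (hh : 1 ≤ h) (hM : 1 ≤ M0) (ha : a ≠ 0)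
    (hb : b ≠ 0) (hak : |a| ≤ km) (hbk : |b| ≤ km) (hl : km + 2 ≤ lam) (hσ : σ = 1 ∨ σ = -1)
    (he : a * ee h M0 lam u = σ * (b * ee h M0 lam v)) :
    (h : ℤ) ∣ u - v ∧ a = σ * b := by
  have hh' : (h : ℤ) ≠ 0 := by omega
  have h1 : a * (lam : ℤ) ^ (u % (h : ℤ)).toNat = (σ * b) * (lam : ℤ) ^ (v % (h : ℤ)).toNat := by
    have hM' : (M0 : ℤ) ≠ 0 := by omega
    apply mul_left_cancel₀ hM'
    rw [ee, ee] at he
    linarith
  have hσb : |σ * b| ≤ km := by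
    rcases hσ with rfl | rfl
    · rwa [one_mul]
    · rwa [neg_one_mul, abs_neg]
  have hσ0 : σ * b ≠ 0 := by
    rcases hσ with rfl | rfl
    · rwa [one_mul]
    · rw [neg_one_mul]; exact neg_ne_zero.2 hb
  obtain ⟨h2, h3⟩ := pow_match ha hσ0 hak hσb hl h1
  refine ⟨?_, h3⟩
  have h4 : u % (h : ℤ) = v % (h : ℤ) := by
    have e1 := Int.emod_nonneg u hh'
    have e2 := Int.emod_nonneg v hh'
    omega
  exact Int.ModEq.dvd (h4.symm)

theorem ee_congr {u v : ℤ} {lam M0 h : ℕ} (hd : (h : ℤ) ∣ u - v) :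
    ee h M0 lam u = ee h M0 lam v := by
  have h1 : v % (h : ℤ) = u % (h : ℤ) := (Int.modEq_iff_dvd).2 hd
  rw [ee, ee, h1]

section

variable {G : Type} [Group G] {d : G → G → ℕ} {δ C Δ n q A L Ax L1 L2 km : ℕ}
    {F : Set G} {H : Hubs d (Lx d (100 * C)) C} {Tm : ℝ}

/-- close angles have equal exponents -/
theorem ang_match (K : Ctx H F δ Δ n q A L Ax L1 Tm) {T : ℝ} (hT : (n : ℝ) ≤ q * T)
    {M0 Θ R h : ℕ} (hM0 : 10 * q * Θ ≤ M0) (hΘ : 10 ^ 4 * (Δ + L2 + R * h) ≤ Θ)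
    {α β N : ℤ} (hN : α - β = M0 * N) {P1 P2 : ℝ} (h1 : |P1 - (α : ℝ) * T / n| ≤ 4 * C)
    (h2 : |P2 - (β : ℝ) * T / n| ≤ 6 * C)
    (h3 : |P1 - P2| ≤ 4 * ((Δ : ℝ) + (L2 + C : ℕ))) : N = 0 := by
  by_contra h0
  have hn : (0 : ℝ) < n := by
    have := K.h3
    have : 0 < n := by omega
    exact_mod_cast this
  have hq0 : (0 : ℝ) ≤ q := Nat.cast_nonneg q
  have hT0 : 0 < T := by
    by_contra hcon
    push Not at hcon
    nlinarith
  have e1 : (10 : ℝ) * q * Θ ≤ M0 := by exact_mod_cast hM0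
  have e2 : (10 : ℝ) ^ 4 * (Δ + L2) ≤ Θ := by
    have : 10 ^ 4 * (Δ + L2) ≤ Θ := by
      have : 10 ^ 4 * (Δ + L2) ≤ 10 ^ 4 * (Δ + L2 + R * h) :=
        Nat.mul_le_mul_left _ (Nat.le_add_right _ _)
      omega
    exact_mod_cast this
  have e3 : (1000 : ℝ) * C ≤ Δ := by exact_mod_cast K.hR.hC
  have e4 : (1 : ℝ) ≤ C := by exact_mod_cast K.hR.hC1
  have e5 : (0 : ℝ) ≤ L2 := Nat.cast_nonneg _
  have hΘ0 : (0 : ℝ) ≤ Θ := Nat.cast_nonneg _
  have e6 : 10 * (Θ : ℝ) ≤ M0 * T / n := by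
    rw [le_div_iff₀ hn]
    calc 10 * (Θ : ℝ) * n ≤ 10 * Θ * (q * T) := by gcongr
      _ = (10 * q * Θ) * T := by ring
      _ ≤ M0 * T := by gcongr
  have e7 : (1 : ℝ) ≤ |(N : ℝ)| := by exact_mod_cast Int.one_le_abs h0
  have e8 : (α : ℝ) * T / n - (β : ℝ) * T / n = N * (M0 * T / n) := by
    have : (α : ℝ) - β = M0 * N := by exact_mod_cast hN
    rw [← sub_div, ← sub_mul, this]
    ring
  have e9 : M0 * T / n ≤ |(α : ℝ) * T / n - (β : ℝ) * T / n| := by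
    rw [e8, abs_mul, abs_of_nonneg (by positivity : (0 : ℝ) ≤ M0 * T / n)]
    exact le_mul_of_one_le_left (by positivity) e7
  have e10 : |(α : ℝ) * T / n - (β : ℝ) * T / n| ≤
      4 * C + 4 * ((Δ : ℝ) + (L2 + C : ℕ)) + 6 * C := by
    obtain ⟨a1, a2⟩ := abs_le.1 h1
    obtain ⟨a3, a4⟩ := abs_le.1 h2
    obtain ⟨a5, a6⟩ := abs_le.1 h3
    rw [abs_le]
    constructor <;> linarith
  push_cast at e10
  linarith

/-- one matched hub -/
theorem one_match (K : Ctx H F δ Δ n q A L Ax L1 Tm) {S1 r1 S2 r2 : G} {a1 a2 : ℤ}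
    (P1 : Pair H n L1 L2 km S1 r1 a1) (P2 : Pair H n L1 L2 km S2 r2 a2)
    {M0 Θ R h lam M1 : ℕ} (hc : Cst3 C Δ R n q L1 L2 km h M0 lam Θ M1 Tm) (hh : 1 ≤ h)
    {w1 w2 κ u1 v1 u2 v2 : G} {k l σ0 : ℤ} (hσ0 : σ0 = 1 ∨ σ0 = -1)
    (A1 : |H.Φ (w1 * r1 ^ n * w1⁻¹) u1 v1 -
      ((a1 * ee h M0 lam k : ℤ) : ℝ) * H.T (r1 ^ n) / n| ≤ 4 * C)
    (A2 : |H.Φ (w2 * r2 ^ n * w2⁻¹) u2 v2 -
      σ0 * (((a2 * ee h M0 lam l : ℤ) : ℝ) * H.T (r2 ^ n) / n)| ≤ 4 * C)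
    (hm : w1 * r1 ^ n * w1⁻¹ = κ * (w2 * r2 ^ n * w2⁻¹) * κ⁻¹ ∨
      w1 * r1 ^ n * w1⁻¹ = (κ * (w2 * r2 ^ n * w2⁻¹) * κ⁻¹)⁻¹)
    (h3 : |H.Φ (w1 * r1 ^ n * w1⁻¹) u1 v1 - H.Φ (w1 * r1 ^ n * w1⁻¹) (κ * u2) (κ * v2)| ≤
      4 * ((Δ : ℝ) + (L2 + C : ℕ))) :
    ∃ ε : ℤ, (ε = 1 ∨ ε = -1) ∧
      w1 * r1 ^ n * w1⁻¹ = (κ * (w2 * r2 ^ n * w2⁻¹) * κ⁻¹) ^ ε ∧
      (h : ℤ) ∣ k - l ∧ a1 = (ε * σ0) * a2 := by
  have hX1 : r1 ^ n ∈ Lx d (100 * C) := K.hR.sub (K.hF P1.fp)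
  have hX2 : r2 ^ n ∈ Lx d (100 * C) := K.hR.sub (K.hF P2.fp)
  have hY2 : w2 * r2 ^ n * w2⁻¹ ∈ Lx d (100 * C) := H.Xconj _ hX2 w2
  have hZ2 : κ * (w2 * r2 ^ n * w2⁻¹) * κ⁻¹ ∈ Lx d (100 * C) := H.Xconj _ hY2 κ
  have hT1 : H.T (w1 * r1 ^ n * w1⁻¹) = H.T (r1 ^ n) := H.Tconj _ hX1 w1
  have hT2 : H.T (κ * (w2 * r2 ^ n * w2⁻¹) * κ⁻¹) = H.T (r2 ^ n) := by
    rw [H.Tconj _ hY2 κ, H.Tconj _ hX2 w2]
  obtain ⟨T, hTd⟩ : ∃ T, T = H.T (r1 ^ n) := ⟨_, rfl⟩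
  have hT : (n : ℝ) ≤ q * T := by rw [hTd]; exact tau K P1
  have hTT : H.T (r2 ^ n) = T := by
    rw [hTd, ← hT1]
    rcases hm with h4 | h4
    · rw [h4, hT2]
    · rw [h4, H.Tinv _ hZ2, hT2]
  obtain ⟨ε, hε, hfε, hA3⟩ : ∃ ε : ℤ, (ε = 1 ∨ ε = -1) ∧
      w1 * r1 ^ n * w1⁻¹ = (κ * (w2 * r2 ^ n * w2⁻¹) * κ⁻¹) ^ ε ∧
      |H.Φ (w1 * r1 ^ n * w1⁻¹) (κ * u2) (κ * v2) -
        ε * H.Φ (w2 * r2 ^ n * w2⁻¹) u2 v2| ≤ 2 * C := by
    have e1 := H.equi _ hY2 κ u2 v2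
    have hC0 : (0 : ℝ) ≤ C := Nat.cast_nonneg C
    rcases hm with h4 | h4
    · refine ⟨1, Or.inl rfl, by rw [h4, zpow_one], ?_⟩
      rw [h4, Int.cast_one, one_mul]
      linarith
    · refine ⟨-1, Or.inr rfl, by rw [h4, zpow_neg_one], ?_⟩
      have e2 := H.neg _ hZ2 (κ * u2) (κ * v2)
      rw [h4]
      obtain ⟨b1, b2⟩ := abs_le.1 e1
      obtain ⟨b3, b4⟩ := abs_le.1 e2
      push_cast
      rw [abs_le]
      constructor <;> linarith
  have hA4 : |H.Φ (w1 * r1 ^ n * w1⁻¹) (κ * u2) (κ * v2) -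
      (((ε * σ0) * (a2 * ee h M0 lam l) : ℤ) : ℝ) * T / n| ≤ 6 * C := by
    rw [hTT] at A2
    obtain ⟨b1, b2⟩ := abs_le.1 hA3
    obtain ⟨b3, b4⟩ := abs_le.1 A2
    have e : (((ε * σ0) * (a2 * ee h M0 lam l) : ℤ) : ℝ) * T / n =
        ε * (σ0 * (((a2 * ee h M0 lam l : ℤ) : ℝ) * T / n)) := by
      push_cast
      ring
    rw [e]
    rcases hε with rfl | rfl
    · push_cast at *
      rw [abs_le]
      constructor <;> linarith
    · push_cast at *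
      rw [abs_le]
      constructor <;> linarith
  refine ⟨ε, hε, hfε, ?_⟩
  have hσ : ε * σ0 = 1 ∨ ε * σ0 = -1 := by
    rcases hε with rfl | rfl <;> rcases hσ0 with rfl | rfl <;> norm_num
  rw [← hTd] at A1
  have hM1 : 1 ≤ M0 := by
    have e1 := hc.hM0
    have e2 := hc.hΘ
    have e3 := K.hR.hC
    have e4 := K.hR.hC1
    have hq : 1 ≤ q := by
      rcases Nat.eq_zero_or_pos q with h5 | h5
      · exfalso
        rw [h5] at hT
        have := K.h3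
        have : 0 < n := by omega
        have : (0 : ℝ) < n := by exact_mod_cast this
        simp at hT
        linarith
      · exact h5
    have e5 : 1 ≤ Θ := by
      have : 10 ^ 4 * (Δ + L2) ≤ 10 ^ 4 * (Δ + L2 + R * h) :=
        Nat.mul_le_mul_left _ (Nat.le_add_right _ _)
      omega
    have e6 : 1 * 1 ≤ q * Θ := Nat.mul_le_mul hq e5
    have e7 : 10 * q * Θ = 10 * (q * Θ) := by ring
    omega
  have hN := ang_match (L2 := L2) K hT hc.hM0 hc.hΘ (α := a1 * ee h M0 lam k)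
    (β := (ε * σ0) * (a2 * ee h M0 lam l))
    (N := a1 * (lam : ℤ) ^ (k % (h : ℤ)).toNat - (ε * σ0) * (a2 * (lam : ℤ) ^ (l % (h : ℤ)).toNat))
    (by rw [ee, ee]; ring) A1 hA4 h3
  exact ee_match hh hM1 P1.a0 P2.a0 P1.ak P2.ak hc.hlam hσ (by
    rw [ee, ee]
    have : (M0 : ℤ) * (a1 * (lam : ℤ) ^ (k % (h : ℤ)).toNat -
      (ε * σ0) * (a2 * (lam : ℤ) ^ (l % (h : ℤ)).toNat)) = 0 := by rw [hN, mul_zero]
    linarith)

end

section

variable {G : Type} [Group G] {d : G → G → ℕ} {δ C Δ n q A L Ax L1 L2 km : ℕ}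
    {F : Set G} {H : Hubs d (Lx d (100 * C)) C} {Tm : ℝ}

theorem hub1 {S r : G} {g : ℤ → G} {b : ℤ → ℤ} (n : ℕ) (j : ℤ) (t : G)
    (hg : ∀ k, g (k + 1) = g k * (S * r ^ b k)) :
    t * g (j + 1) * r ^ n * (t * g (j + 1))⁻¹ =
      (t * g j) * (S * r ^ n * S⁻¹) * (t * g j)⁻¹ := by
  rw [hg]
  have h1 : r ^ b j * r ^ n * (r ^ b j)⁻¹ = r ^ n := by
    rw [← zpow_natCast, ← zpow_neg, ← zpow_add, ← zpow_add]
    congr 1
    ring
  calc t * (g j * (S * r ^ b j)) * r ^ n * (t * (g j * (S * r ^ b j)))⁻¹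
      = (t * g j) * (S * (r ^ b j * r ^ n * (r ^ b j)⁻¹) * S⁻¹) * (t * g j)⁻¹ := by
        simp only [mul_inv_rev, mul_assoc]
    _ = _ := by rw [h1]

theorem hub2 {S r : G} {g : ℤ → G} {b : ℤ → ℤ} (n : ℕ) (j : ℤ) (t : G)
    (hg : ∀ k, g (k + 1) = g k * (S * r ^ b k)) :
    t * g (j + 2) * r ^ n * (t * g (j + 2))⁻¹ =
      (t * g j) * ((S * r ^ b j * S) * r ^ n * (S * r ^ b j * S)⁻¹) * (t * g j)⁻¹ := by
  have e : j + 2 = (j + 1) + 1 := by ring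
  rw [e, hub1 n (j + 1) t hg, hg j]
  simp only [mul_inv_rev, mul_assoc]

/-- the frames -/
theorem frame (K : Ctx H F δ Δ n q A L Ax L1 Tm) {S1 r1 S2 r2 : G} {a1 : ℤ}
    (P1 : Pair H n L1 L2 km S1 r1 a1) {g1 g2 : ℤ → G}
    {b1 b2 : ℤ → ℤ} (hg1 : ∀ k, g1 (k + 1) = g1 k * (S1 * r1 ^ b1 k))
    (hg2 : ∀ k, g2 (k + 1) = g2 k * (S2 * r2 ^ b2 k)) {κ : G} {k l ε : ℤ}
    (hε : ε = 1 ∨ ε = -1)
    (H6 : ∀ i : ℤ, 0 ≤ i → i ≤ 2 → g1 (k + i) * r1 ^ n * (g1 (k + i))⁻¹ =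
      (κ * (g2 (l + i) * r2 ^ n * (g2 (l + i))⁻¹) * κ⁻¹) ^ ε)
    (hb : b1 k = ε * b2 l) : ∃ x, x = (g1 k)⁻¹ * κ * g2 l ∧ x * r2 * x⁻¹ = r1 ^ ε ∧
      x * S2 * x⁻¹ = S1 := by
  have hn := K.h3
  have hεε : ε * ε = 1 := by rcases hε with rfl | rfl <;> norm_num
  obtain ⟨x, hx⟩ : ∃ x, x = (g1 k)⁻¹ * κ * g2 l := ⟨_, rfl⟩
  have hx' : κ * g2 l = 1 * g1 k * x := by rw [hx]; group
  have H7 : ∀ i : ℤ, 0 ≤ i → i ≤ 2 → 1 * g1 (k + i) * r1 ^ n * (1 * g1 (k + i))⁻¹ =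
      (κ * g2 (l + i) * r2 ^ n * (κ * g2 (l + i))⁻¹) ^ ε := by
    intro i h1 h2
    rw [one_mul, H6 i h1 h2]
    simp only [mul_inv_rev, mul_assoc]
  have T0 : r1 ^ n = x * (r2 ^ n) ^ ε * x⁻¹ := by
    have h1 := H7 0 le_rfl (by norm_num)
    rw [add_zero, add_zero, hx', conj_zpow] at h1
    have h2 : 1 * g1 k * r1 ^ n * (1 * g1 k)⁻¹ =
        1 * g1 k * (x * (r2 ^ n) ^ ε * x⁻¹) * (1 * g1 k)⁻¹ := by
      refine h1.trans ?_
      simp only [mul_inv_rev, mul_assoc]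
    exact mul_left_cancel (mul_right_cancel h2)
  have T0' : (r2 ^ n) ^ ε = x⁻¹ * r1 ^ n * x := by rw [T0]; group
  have hxr : x * r2 * x⁻¹ = r1 ^ ε := by
    have h1 : Commute (x * r2 * x⁻¹) (r1 ^ n) := by
      rw [T0]
      exact ((Commute.refl r2).pow_right n |>.zpow_right ε).conj x
    obtain ⟨c, hc⟩ := Subgroup.mem_zpowers_iff.1 ((P1.cen _).1 h1)
    have h2 : r1 ^ (c * (n * ε)) = r1 ^ (n : ℤ) := by
      rw [zpow_mul, hc, conj_zpow, zpow_mul, zpow_natCast, ← T0, zpow_natCast]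
    have h3 := r_inj K P1 h2
    have h4 : (n : ℤ) * (c * ε) = n * 1 := by
      calc (n : ℤ) * (c * ε) = c * (n * ε) := by ring
        _ = n * 1 := by rw [h3, mul_one]
    have h5 : c * ε = 1 := mul_left_cancel₀ (by omega) h4
    have h6 : c = ε := by
      calc c = c * (ε * ε) := by rw [hεε, mul_one]
        _ = (c * ε) * ε := by ring
        _ = ε := by rw [h5, one_mul]
    rw [← hc, h6]
  obtain ⟨b', hb'⟩ : ∃ b' : ℤ, x * S2 * x⁻¹ = S1 * r1 ^ b' := by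
    have h1 := H7 1 (by norm_num) (by norm_num)
    rw [hub1 n k 1 hg1, hub1 n l κ hg2, hx', conj_zpow, conj_zpow, T0'] at h1
    have h2 : 1 * g1 k * (S1 * r1 ^ n * S1⁻¹) * (1 * g1 k)⁻¹ =
        1 * g1 k * ((x * S2 * x⁻¹) * r1 ^ n * (x * S2 * x⁻¹)⁻¹) * (1 * g1 k)⁻¹ := by
      refine h1.trans ?_
      simp only [mul_inv_rev, mul_assoc, inv_inv]
    have h3 := mul_left_cancel (mul_right_cancel h2)
    have h4 : Commute (S1⁻¹ * (x * S2 * x⁻¹)) (r1 ^ n) := by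
      change S1⁻¹ * (x * S2 * x⁻¹) * r1 ^ n = r1 ^ n * (S1⁻¹ * (x * S2 * x⁻¹))
      have h5 : (x * S2 * x⁻¹) * r1 ^ n = (S1 * r1 ^ n * S1⁻¹) * (x * S2 * x⁻¹) := by
        rw [h3]; group
      rw [mul_assoc, h5]
      group
    obtain ⟨b', hb'⟩ := Subgroup.mem_zpowers_iff.1 ((P1.cen _).1 h4)
    exact ⟨b', by rw [hb']; group⟩
  have hm : b' + ε * b2 l - b1 k = 0 := by
    have h1 := H7 2 (by norm_num) (by norm_num)
    rw [hub2 n k 1 hg1, hub2 n l κ hg2, hx', conj_zpow, conj_zpow, T0'] at h1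
    have h2 : 1 * g1 k * ((S1 * r1 ^ b1 k * S1) * r1 ^ n * (S1 * r1 ^ b1 k * S1)⁻¹) *
        (1 * g1 k)⁻¹ =
        1 * g1 k * ((x * (S2 * r2 ^ b2 l * S2) * x⁻¹) * r1 ^ n *
          (x * (S2 * r2 ^ b2 l * S2) * x⁻¹)⁻¹) * (1 * g1 k)⁻¹ := by
      refine h1.trans ?_
      simp only [mul_inv_rev, mul_assoc, inv_inv]
    have h3 := mul_left_cancel (mul_right_cancel h2)
    have h4 : x * (S2 * r2 ^ b2 l * S2) * x⁻¹ = S1 * r1 ^ (b' + ε * b2 l) * S1 * r1 ^ b' := by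
      calc x * (S2 * r2 ^ b2 l * S2) * x⁻¹
          = (x * S2 * x⁻¹) * (x * r2 ^ b2 l * x⁻¹) * (x * S2 * x⁻¹) := by group
        _ = (x * S2 * x⁻¹) * (x * r2 * x⁻¹) ^ b2 l * (x * S2 * x⁻¹) := by rw [conj_zpow]
        _ = (S1 * r1 ^ b') * (r1 ^ ε) ^ b2 l * (S1 * r1 ^ b') := by rw [hb', hxr]
        _ = _ := by rw [← zpow_mul, zpow_add]; simp only [mul_assoc]
    rw [h4] at h3
    obtain ⟨y, hy⟩ : ∃ y,
      y = (S1 * r1 ^ b1 k * S1)⁻¹ * (S1 * r1 ^ (b' + ε * b2 l) * S1 * r1 ^ b') := ⟨_, rfl⟩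
    have hy' : S1 * r1 ^ (b' + ε * b2 l) * S1 * r1 ^ b' = (S1 * r1 ^ b1 k * S1) * y := by
      rw [hy]; group
    rw [hy'] at h3
    have h5 : Commute y (r1 ^ n) := by
      have h6 : (S1 * r1 ^ b1 k * S1) * (r1 ^ n) * (S1 * r1 ^ b1 k * S1)⁻¹ =
          (S1 * r1 ^ b1 k * S1) * (y * r1 ^ n * y⁻¹) * (S1 * r1 ^ b1 k * S1)⁻¹ := by
        refine h3.trans ?_
        simp only [mul_inv_rev, mul_assoc]
      have h7 := mul_left_cancel (mul_right_cancel h6)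
      exact mul_inv_eq_iff_eq_mul.1 h7.symm
    obtain ⟨j, hj⟩ := Subgroup.mem_zpowers_iff.1 ((P1.cen _).1 h5)
    apply m_zero K P1 (m' := j - b')
    rw [zpow_sub r1 j b', hj, hy, zpow_sub]
    group
  refine ⟨x, hx, hxr, ?_⟩
  have h1 : b' = 0 := by linarith
  rw [hb', h1, zpow_zero, mul_one]

/-- the word chain of a pair, from `StKE` -/
theorem chain (hE : StKE) (K : Ctx H F δ Δ n q A L Ax L1 Tm) {S r : G} {a : ℤ}
    (P : Pair H n L1 L2 km S r a)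
    {M0 Θ R h lam M1 : ℕ} (hc : Cst3 C Δ R n q L1 L2 km h M0 lam Θ M1 Tm) (hh : 1 ≤ h)
    {x : G} (hx : ∀ j : ℤ, d x (S ^ j * x) ≤ C) (hx' : Nh d L2 (H.Z (r ^ n)) x)
    {g : ℤ → G} (hg : ∀ k, g (k + 1) = g k * (S * r ^ (a * ee h M0 lam k))) :
    (∀ k, |H.Φ (g (k + 1) * r ^ n * (g (k + 1))⁻¹) (g k * x) (g (k + 1) * x) -
      ((a * ee h M0 lam k : ℤ) : ℝ) * H.T (r ^ n) / n| ≤ 4 * C) ∧
    ∀ k, g (k + h) = g h * (g 0)⁻¹ * g k := by
  have hn : 1 ≤ n := by have := K.h3; omega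
  have hn' : (0 : ℝ) < n := by exact_mod_cast hn
  have hX : r ^ n ∈ Lx d (100 * C) := K.hR.sub (K.hF P.fp)
  have hT := hl_Tpos H hX
  have hlam1 : 1 ≤ lam := by have := hc.hlam; omega
  have hee : ∀ k, 0 ≤ ee h M0 lam k ∧ ee h M0 lam k ≤ M0 * (lam : ℤ) ^ h := by
    intro k
    have h1 : (k % (h : ℤ)).toNat ≤ h := by
      have := Int.emod_lt_of_pos k (by omega : (0 : ℤ) < h)
      omega
    refine ⟨by rw [ee]; positivity, ?_⟩
    rw [ee]
    apply mul_le_mul_of_nonneg_left _ (by positivity)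
    exact pow_le_pow_right₀ (by exact_mod_cast hlam1) h1
  have hae : ∀ k, 8 * |(((a * ee h M0 lam k : ℤ)) : ℝ)| ≤ n := by
    intro k
    have h1 : |a * ee h M0 lam k| ≤ km * (M0 * (lam : ℤ) ^ h) := by
      rw [abs_mul, abs_of_nonneg (hee k).1]
      exact mul_le_mul P.ak (hee k).2 (hee k).1 (by positivity)
    have h2 := hc.hn
    have h3 : 8 * |a * ee h M0 lam k| ≤ n := by
      have h4 : ((8 * km * M0 * lam ^ h : ℕ) : ℤ) ≤ n := by exact_mod_cast h2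
      push_cast at h4
      nlinarith
    exact_mod_cast h3
  have h0 := hE G d δ C Δ (Lx d (100 * C)) F H Tm n L2 C 0 0 r x (fun _ => S)
    (fun k => a * ee h M0 lam k) g K.hS.toHypG K.hδ K.hR.toFam hn
    { mem := K.hF P.fp
      s1 := fun _ => (s_ne K P).1
      s2 := fun _ => (s_ne K P).2
      near := hx'
      move := fun _ => by have := hx 1; rwa [zpow_one] at this
      lo := fun k => by positivity
      hi := fun k => by
        have h1 := hae k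
        rw [sub_zero, div_le_iff₀ hn']
        have h2 : |((a * ee h M0 lam k : ℤ) : ℝ)| * H.T (r ^ n) ≤ (n / 8) * H.T (r ^ n) := by
          apply mul_le_mul_of_nonneg_right _ hT
          linarith
        nlinarith
      rc := hg }
  refine ⟨fun k => ?_, ?_⟩
  · have h1 := h0.2.1 k
    linarith
  · exact h0.2.2 h (fun _ => rfl) (fun k => by
      change a * ee h M0 lam (k + h) = a * ee h M0 lam k
      rw [ee_congr (u := k + h) (v := k) ⟨1, by ring⟩])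

end

end KG

open KG in
theorem stKF (hE : StKE) : StKF := by
  intro G _ d δ C Δ n q A L Ax L1 L2 km h M0 lam Θ R M1 F H Tm S1 r1 S2 r2 a1 a2 x1 x2 κ g1 g2
    k0 l0 hS hA hR _ h3 hδ hc hh3 P1 P2 hF hx1 hx1' hx2 hx2' hg1 hg2
  have K : Ctx H F δ Δ n q A L Ax L1 Tm := ⟨hS, hA, hR, h3, hδ, hF⟩
  have hh : 1 ≤ h := by omega
  obtain ⟨A1, Q1⟩ := chain hE K P1 hc hh hx1 hx1' hg1
  obtain ⟨A2, Q2⟩ := chain hE K P2 hc hh hx2 hx2' hg2
  constructor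
  · intro hM
    have hj : ∀ j : ℤ, 0 ≤ j → j ≤ 3 → ∃ ε : ℤ, (ε = 1 ∨ ε = -1) ∧
        g1 (k0 + j) * r1 ^ n * (g1 (k0 + j))⁻¹ =
          (κ * (g2 (l0 + j) * r2 ^ n * (g2 (l0 + j))⁻¹) * κ⁻¹) ^ ε ∧
        (h : ℤ) ∣ (k0 + j - 1) - (l0 + j - 1) ∧ a1 = (ε * 1) * a2 := by
      intro j h0 h3
      obtain ⟨m1, m2⟩ := hM j h0 (by exact_mod_cast h3)
      have B1 := A1 (k0 + j - 1)
      rw [sub_add_cancel] at B1
      have B2 := A2 (l0 + j - 1)
      rw [sub_add_cancel] at B2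
      exact one_match K P1 P2 hc hh (Or.inl rfl) B1 (by rw [Int.cast_one, one_mul]; exact B2) m1 m2
    obtain ⟨ε, hε, -, -, ha⟩ := hj 0 le_rfl (by norm_num)
    rw [mul_one] at ha
    have hd : (h : ℤ) ∣ k0 - l0 := by
      obtain ⟨_, -, -, h4, -⟩ := hj 1 (by norm_num) (by norm_num)
      have e : k0 + 1 - 1 - (l0 + 1 - 1) = k0 - l0 := by ring
      rwa [e] at h4
    have H6 : ∀ i : ℤ, 0 ≤ i → i ≤ 2 → g1 (k0 + i) * r1 ^ n * (g1 (k0 + i))⁻¹ =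
        (κ * (g2 (l0 + i) * r2 ^ n * (g2 (l0 + i))⁻¹) * κ⁻¹) ^ ε := by
      intro i h1 h2
      obtain ⟨ε', -, h4, -, h5⟩ := hj i h1 (by omega)
      rw [mul_one] at h5
      have h6 : ε' = ε := mul_right_cancel₀ P2.a0 (h5.symm.trans ha)
      rw [h4, h6]
    have hee : ∀ i : ℤ, a1 * ee h M0 lam (k0 + i) = ε * (a2 * ee h M0 lam (l0 + i)) := by
      intro i
      rw [ha, ee_congr (u := k0 + i) (v := l0 + i) (by
        have e : k0 + i - (l0 + i) = k0 - l0 := by ring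
        rwa [e])]
      ring
    obtain ⟨x, hx, hxr, hxS⟩ := frame K P1 hg1 hg2 hε H6 (by
      have := hee 0
      rwa [add_zero, add_zero] at this)
    have hx' : g1 k0 * x = κ * g2 l0 := by rw [hx]; group
    have hw : ∀ i : ℕ, x * ((g2 l0)⁻¹ * g2 (l0 + i)) * x⁻¹ = (g1 k0)⁻¹ * g1 (k0 + i) := by
      intro i
      induction i with
      | zero => simp
      | succ i ih =>
        have e1 : l0 + ((i + 1 : ℕ) : ℤ) = (l0 + i) + 1 := by push_cast; ring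
        have e2 : k0 + ((i + 1 : ℕ) : ℤ) = (k0 + i) + 1 := by push_cast; ring
        rw [e1, e2, hg1, hg2, hee i]
        calc x * ((g2 l0)⁻¹ * (g2 (l0 + i) * (S2 * r2 ^ (a2 * ee h M0 lam (l0 + i))))) * x⁻¹
            = (x * ((g2 l0)⁻¹ * g2 (l0 + i)) * x⁻¹) * ((x * S2 * x⁻¹) *
              (x * r2 ^ (a2 * ee h M0 lam (l0 + i)) * x⁻¹)) := by group
          _ = ((g1 k0)⁻¹ * g1 (k0 + i)) * (S1 * (r1 ^ ε) ^ (a2 * ee h M0 lam (l0 + i))) := by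
              rw [ih, hxS, ← conj_zpow, hxr]
          _ = _ := by rw [← zpow_mul]; simp only [mul_assoc]
    refine ⟨?_, ⟨x, ε, hε, ha, ?_, hxS⟩, ?_⟩
    · have h1 := hw h
      rw [Q1, Q2] at h1
      have h2 : g1 h * (g1 0)⁻¹ = g1 k0 * ((g1 k0)⁻¹ * (g1 h * (g1 0)⁻¹ * g1 k0)) * (g1 k0)⁻¹ := by
        group
      rw [h2, ← h1]
      have h4 : g1 k0 * (x * ((g2 l0)⁻¹ * (g2 h * (g2 0)⁻¹ * g2 l0)) * x⁻¹) * (g1 k0)⁻¹ =
          (g1 k0 * x) * ((g2 l0)⁻¹ * (g2 h * (g2 0)⁻¹ * g2 l0)) * (g1 k0 * x)⁻¹ := by group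
      rw [h4, hx']
      group
    · rw [← conj_zpow, hxr, ← zpow_mul]
      have : ε * ε = 1 := by rcases hε with rfl | rfl <;> norm_num
      rw [this, zpow_one]
    · intro hSS hrr haa
      subst hSS hrr haa
      have hε1 : ε = 1 := by
        rcases hε with h1 | h1
        · exact h1
        · exfalso
          rw [h1] at ha
          have := P1.a0
          omega
      rw [hε1, zpow_one] at hxr
      have h1 : Commute x (r1 ^ n) := by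
        have : Commute x r1 := mul_inv_eq_iff_eq_mul.1 hxr
        exact this.pow_right n
      obtain ⟨c, hc'⟩ := Subgroup.mem_zpowers_iff.1 ((P1.cen _).1 h1)
      have h2 : c = 0 := by
        apply m_zero K P1 (m' := c)
        rw [hc']
        have h4 : x * S1 = S1 * x := mul_inv_eq_iff_eq_mul.1 hxS
        rw [mul_assoc, h4]
        group
      rw [h2, zpow_zero] at hc'
      rw [← hc', mul_one] at hx'
      -- the two normalized chains are equal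
      have hu : ∀ k : ℤ, (g1 0)⁻¹ * g1 k = (g2 0)⁻¹ * g2 k := by
        intro k
        induction k using Int.induction_on with
        | zero => simp
        | succ i ih =>
          rw [hg1, hg2, ← mul_assoc, ih, mul_assoc]
        | pred i ih =>
          have e : (-(i : ℤ)) = (-(i : ℤ) - 1) + 1 := by ring
          have h5 : ((g1 0)⁻¹ * g1 (-(i : ℤ) - 1)) * (S1 * r1 ^ (a1 * ee h M0 lam (-(i : ℤ) - 1))) =
              ((g2 0)⁻¹ * g2 (-(i : ℤ) - 1)) * (S1 * r1 ^ (a1 * ee h M0 lam (-(i : ℤ) - 1))) := by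
            rw [mul_assoc, mul_assoc, ← hg1, ← hg2, ← e]
            exact ih
          exact mul_right_cancel h5
      have hper : ∀ m : ℤ, ∀ k : ℤ, (g1 0)⁻¹ * g1 (k + m * h) =
          ((g1 0)⁻¹ * g1 h) ^ m * ((g1 0)⁻¹ * g1 k) := by
        intro m k
        induction m using Int.induction_on with
        | zero => simp
        | succ i ih =>
          have e : k + ((i : ℤ) + 1) * h = (k + i * h) + h := by ring
          rw [e, Q1]
          have h4 : (g1 0)⁻¹ * (g1 h * (g1 0)⁻¹ * g1 (k + i * h)) =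
              ((g1 0)⁻¹ * g1 h) * ((g1 0)⁻¹ * g1 (k + i * h)) := by group
          rw [h4, ih, ← mul_assoc, ← zpow_one_add, add_comm]
        | pred i ih =>
          have e : k + (-(i : ℤ)) * h = (k + (-(i : ℤ) - 1) * h) + h := by ring
          rw [e, Q1] at ih
          have h4 : (g1 0)⁻¹ * g1 (k + (-(i : ℤ) - 1) * h) = ((g1 0)⁻¹ * g1 h)⁻¹ *
              ((g1 0)⁻¹ * (g1 h * (g1 0)⁻¹ * g1 (k + (-(i : ℤ) - 1) * h))) := by group
          rw [h4, ih, ← mul_assoc, ← zpow_neg_one, ← zpow_add]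
          congr 2
          ring
      have hww : (g1 0)⁻¹ * g1 h = ww S1 r1 a1 h (fun k => (M0 : ℤ) * lam ^ k) := by
        have key : ∀ j : ℕ, j ≤ h → (g1 0)⁻¹ * g1 j =
            ((List.range j).map (fun k => S1 * r1 ^ (a1 * ((M0 : ℤ) * lam ^ k)))).prod := by
          intro j
          induction j with
          | zero => intro _; simp
          | succ j ih =>
            intro hjh
            rw [List.range_succ, List.map_append, List.prod_append, ← ih (by omega)]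
            have e : ((j + 1 : ℕ) : ℤ) = (j : ℤ) + 1 := by push_cast; ring
            rw [e, hg1]
            have e2 : ee h M0 lam j = (M0 : ℤ) * lam ^ j := by
              rw [ee, Int.emod_eq_of_lt (by positivity) (by omega), Int.toNat_natCast]
            rw [e2]
            simp [mul_assoc]
        exact key h le_rfl
      obtain ⟨m, hm⟩ := hd
      have h4 : (g1 0)⁻¹ * κ * g2 0 = ((g1 0)⁻¹ * g1 h) ^ m := by
        have e : k0 = l0 + m * h := by linarith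
        have h5 := hper m l0
        rw [← e] at h5
        have h6 : ((g1 0)⁻¹ * g1 h) ^ m = ((g1 0)⁻¹ * g1 k0) * ((g1 0)⁻¹ * g1 l0)⁻¹ := by
          rw [h5]; group
        rw [h6, hu l0, hx']
        group
      rw [h4, hww]
      exact Subgroup.zpow_mem_zpowers _ _
  · intro hM
    have hj : ∀ j : ℤ, 0 ≤ j → j ≤ 3 → (h : ℤ) ∣ (k0 + j - 1) - (-(l0 + j) - 1) := by
      intro j h0 h3
      obtain ⟨m1, m2⟩ := hM j h0 (by exact_mod_cast h3)
      have B1 := A1 (k0 + j - 1)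
      rw [sub_add_cancel] at B1
      have B2 := A2 (-(l0 + j) - 1)
      rw [sub_add_cancel] at B2
      have hX2 : r2 ^ n ∈ Lx d (100 * C) := K.hR.sub (K.hF P2.fp)
      have hY2 : g2 (-(l0 + j)) * r2 ^ n * (g2 (-(l0 + j)))⁻¹ ∈ Lx d (100 * C) :=
        H.Xconj _ hX2 _
      have B3 := hl_symm H hY2 (g2 (-(l0 + j) - 1) * x2) (g2 (-(l0 + j)) * x2)
      have e : -(l0 + j - 1) - 1 = -(l0 + j) := by ring
      simp only [e] at m2
      obtain ⟨_, -, -, h4, -⟩ := one_match K P1 P2 hc hh (σ0 := -1) (Or.inr rfl) B1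
        (u2 := g2 (-(l0 + j)) * x2) (v2 := g2 (-(l0 + j) - 1) * x2) (l := -(l0 + j) - 1) (by
          rw [B3]
          obtain ⟨b1, b2⟩ := abs_le.1 B2
          push_cast at *
          rw [abs_le]
          constructor <;> linarith) m1 m2
      exact h4
    have h1 := hj 0 le_rfl (by norm_num)
    have h2 := hj 1 (by norm_num) (by norm_num)
    have h4 := dvd_sub h2 h1
    have e : (k0 + 1 - 1 - (-(l0 + 1) - 1)) - (k0 + 0 - 1 - (-(l0 + 0) - 1)) = 2 := by ring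
    rw [e] at h4
    have h5 := Int.le_of_dvd (by norm_num) h4
    omega

end Pool.Agent.Helper74.TB.K2
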