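import Pool.Agent.Helper74.TB.StK2
import Pool.Agent.Helper74.TB.P
import Pool.Agent.Helper74.TB.H
import Pool.Agent.Helper74.TB.TR
import Pool.Agent.Helper74.TB.F0

/-! MP_7d16da_al, Part K: two word relators whose axes run together are equal. -/

set_option autoImplicit false

namespace Pool.Agent.Helper74.TB.K2

open Pool.Agent.Helper74.MH

theorem exists_rec {G : Type*} [Group G] (c : ℤ → G) (t : G) :
    ∃ g : ℤ → G, g 0 = t ∧ ∀ k, g (k + 1) = g k * c k := by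
  let p : ℕ → G := fun n => Nat.rec t (fun k x => x * c k) n
  let m : ℕ → G := fun n => Nat.rec t (fun k x => x * (c (-((k : ℤ) + 1)))⁻¹) n
  have hp : ∀ n : ℕ, p (n + 1) = p n * c n := fun n => rfl
  have hm : ∀ n : ℕ, m (n + 1) = m n * (c (-((n : ℤ) + 1)))⁻¹ := fun n => rfl
  refine ⟨fun k => if 0 ≤ k then p k.toNat else m (-k).toNat, by simp [p], ?_⟩
  intro k
  by_cases hk : 0 ≤ k
  · obtain ⟨n, rfl⟩ := Int.eq_ofNat_of_zero_le hk
    have h1 : (0 : ℤ) ≤ (n : ℤ) + 1 := by omega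
    have h2 : ((n : ℤ) + 1).toNat = n + 1 := by omega
    simp only [hk, h1, if_true, h2, Int.toNat_natCast]
    exact hp n
  · obtain ⟨n, hn⟩ := Int.eq_ofNat_of_zero_le (show 0 ≤ -k - 1 by omega)
    have e : k = -((n : ℤ) + 1) := by omega
    subst e
    have h2 : (-(-((n : ℤ) + 1))).toNat = n + 1 := by omega
    simp only [hk, if_false, h2, hm]
    by_cases hn0 : n = 0
    · subst hn0
      simp [p, m]
    · have h3 : ¬ (0 : ℤ) ≤ -((n : ℤ) + 1) + 1 := by omega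
      have h4 : (-(-((n : ℤ) + 1) + 1)).toNat = n := by omega
      simp only [h3, if_false, h4]
      rw [inv_mul_cancel_right]

theorem rec_prod {G : Type*} [Group G] {c g : ℤ → G} (hg : ∀ k, g (k + 1) = g k * c k) (m : ℕ) :
    g m = g 0 * ((List.range m).map (fun k : ℕ => c (k : ℤ))).prod := by
  induction m with
  | zero => simp
  | succ m ih =>
    rw [List.range_succ, List.map_append, List.prod_append, ← mul_assoc, ← ih]
    simp only [List.map_cons, List.map_nil, List.prod_cons, List.prod_nil, mul_one]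
    push_cast
    exact hg m

theorem ee_nat {h M0 lam k : ℕ} (hk : k < h) : ee h M0 lam (k : ℤ) = (M0 : ℤ) * (lam : ℤ) ^ k := by
  unfold ee
  rw [Int.emod_eq_of_lt (by omega) (by exact_mod_cast hk), Int.toNat_natCast]

theorem ee_per {h M0 lam : ℕ} (k : ℤ) : ee h M0 lam (k + h) = ee h M0 lam k := by
  unfold ee
  rw [Int.add_emod_right]

theorem ee_bd {h M0 lam : ℕ} (hh : 1 ≤ h) (hl : 1 ≤ lam) (k : ℤ) :
    (M0 : ℤ) ≤ ee h M0 lam k ∧ ee h M0 lam k ≤ (M0 : ℤ) * (lam : ℤ) ^ h := by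
  unfold ee
  have h1 : (k % (h : ℤ)).toNat ≤ h := by
    have := Int.emod_lt_of_pos k (show (0 : ℤ) < h by omega)
    omega
  have h2 : (1 : ℤ) ≤ (lam : ℤ) := by exact_mod_cast hl
  have h3 : (1 : ℤ) ≤ (lam : ℤ) ^ (k % (h : ℤ)).toNat := one_le_pow₀ h2
  have h4 : (lam : ℤ) ^ (k % (h : ℤ)).toNat ≤ (lam : ℤ) ^ h := pow_le_pow_right₀ h2 h1
  have h5 : (0 : ℤ) ≤ M0 := by positivity
  constructor
  · nlinarith
  · exact mul_le_mul_of_nonneg_left h4 h5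

theorem ww_eq {G : Type*} [Group G] {S r : G} {a : ℤ} {h M0 lam : ℕ} {g : ℤ → G}
    (hg : ∀ k, g (k + 1) = g k * (S * r ^ (a * ee h M0 lam k))) :
    g h = g 0 * ww S r a h (fun k => (M0 : ℤ) * lam ^ k) := by
  rw [rec_prod hg h]
  congr 1
  unfold ww
  congr 1
  apply List.map_congr_left
  intro k hk
  rw [ee_nat (List.mem_range.1 hk)]

theorem num_aux {e y L1 D : ℕ} (e4 : e ≤ y) (e5 : 10 ^ 13 * y ≤ L1) (e6 : 1 ≤ y)
    (hd : 52 * L1 ≤ D) : 2 * (8 * L1) + 10 ^ 4 * (e + 1) * (5 + 1) ≤ D := by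
  have e3 : 10 ^ 4 * (e + 1) * (5 + 1) = 60000 * (e + 1) := by ring
  rw [e3]
  omega

/-- The hypotheses. -/
structure Cx {G G' : Type} [Group G] [Group G'] (d : G → G → ℕ) (d' : G' → G' → ℕ)
    (C Δ R n q A L Ax L1 L2 km h M0 lam Θ M1 : ℕ) (F : Set G)
    (H : Hubs d (Lx d (100 * C)) C) (Tm : ℝ) (π : G →* G') : Prop where
  hS : Stage d 2000 n q A L
  hA : Alg H n q L Ax
  hAx : 10 ^ 5 * q * L * C ≤ Ax
  hR : Rels H F n L1 Δ Tm
  hc : Cst2 2000 C Δ R n q L Ax L1 M1 Tm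
  hQ : Quo H F R π d'
  hFp : Fp d n L1 ⊆ F
  hS' : Stage d' 2000 n q A L
  hc3 : Cst3 C Δ R n q L1 L2 km h M0 lam Θ M1 Tm
  hM1 : 1 ≤ M1

namespace Cx

variable {G G' : Type} [Group G] [Group G'] {d : G → G → ℕ} {d' : G' → G' → ℕ}
    {C Δ R n q A L Ax L1 L2 km h M0 lam Θ M1 : ℕ} {F : Set G}
    {H : Hubs d (Lx d (100 * C)) C} {Tm : ℝ} {π : G →* G'}

theorem hC (K : Cx d d' C Δ R n q A L Ax L1 L2 km h M0 lam Θ M1 F H Tm π) :
    200000 ≤ C := K.hc.cst.hC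

theorem q1 (K : Cx d d' C Δ R n q A L Ax L1 L2 km h M0 lam Θ M1 F H Tm π) : 1 ≤ q := by
  rcases Nat.eq_zero_or_pos q with h0 | h0
  · exfalso
    have h1 := K.hc.hq
    have h2 := K.hc.cst.hR
    have h3 := K.hc.cst.hΔ
    have h4 := K.hC
    rw [h0, zero_mul] at h1
    have h6 : 0 < 10 * R * M1 := Nat.mul_pos (by omega) (by have := K.hM1; omega)
    omega
  · exact h0

theorem h1 (K : Cx d d' C Δ R n q A L Ax L1 L2 km h M0 lam Θ M1 F H Tm π) : 10000 ≤ h := by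
  have h10 := K.hc3.hh
  have h11 := K.hM1
  have h12 : (1 : ℝ) ≤ M1 := by exact_mod_cast h11
  have h13 : 0 ≤ Tm := by
    have := K.hc.cst.hT
    have : (0 : ℝ) ≤ R := Nat.cast_nonneg _
    linarith
  have h14 : (0 : ℝ) ≤ C := Nat.cast_nonneg _
  have h15 : (10000 : ℝ) ≤ h := by nlinarith
  exact_mod_cast h15

theorem qC (K : Cx d d' C Δ R n q A L Ax L1 L2 km h M0 lam Θ M1 F H Tm π) :
    10 ^ 13 * (q * C) ≤ L1 ∧ C ≤ q * C := by
  have h1 := K.hAx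
  have h2 := K.hc.hAx
  have h3 := K.hc.hL
  have h4 := K.hC
  have h5 : 10 ^ 8 ≤ L := by omega
  have h6 : 10 ^ 5 * q * 10 ^ 8 * C ≤ 10 ^ 5 * q * L * C := by gcongr
  refine ⟨?_, Nat.le_mul_of_pos_left C K.q1⟩
  calc 10 ^ 13 * (q * C) = 10 ^ 5 * q * 10 ^ 8 * C := by ring
    _ ≤ _ := by omega

theorem E1 (K : Cx d d' C Δ R n q A L Ax L1 L2 km h M0 lam Θ M1 F H Tm π) :
    (L2 + C) / R + 1 ≤ q * C ∧ L2 + C ≤ R * ((L2 + C) / R + 1) := by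
  have hR := K.hc.cst.hR
  have hΔ := K.hc.hΔ
  have hΔ2 := K.hc.cst.hΔ
  have h4 := K.hC
  have hq := K.q1
  have hL2 := K.hc3.hL2
  have hR0 : 0 < R := by omega
  have hL1 := K.qC.1
  have hqC := K.qC.2
  constructor
  · have : (L2 + C) / R < q * C := by
      rw [Nat.div_lt_iff_lt_mul hR0]
      have e1 : L2 ≤ 1000 * (q * C * L1) := by
        have : q * C * L1 * 10 ^ 5 = 100 * (1000 * (q * C * L1)) := by ring
        omega
      have e2 : 300000 * L1 ≤ R := by omega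
      have e3 : q * C * (300000 * L1) ≤ q * C * R := Nat.mul_le_mul_left _ e2
      have e4 : q * C * (300000 * L1) = 300000 * (q * C * L1) := by ring
      have e5 : q * C * 1 ≤ q * C * L1 := Nat.mul_le_mul_left _ (by omega)
      omega
    omega
  · exact (Nat.lt_mul_div_succ _ hR0).le

/-- the numeric facts used below -/
theorem nums (K : Cx d d' C Δ R n q A L Ax L1 L2 km h M0 lam Θ M1 F H Tm π) :
    1000 * C ≤ Δ ∧ 1000 * Δ ≤ R ∧ 300 * L1 ≤ Δ ∧ 10 ^ 4 * (Δ + L2 + R * h) ≤ Θ ∧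
    10 * q * Θ ≤ M0 ∧ 8 * (km * M0 * lam ^ h) ≤ n ∧ 10 * (R : ℝ) ≤ Tm ∧
    10 ^ 4 * ((Δ : ℝ) + L2) ≤ Tm ∧ 1 ≤ lam ∧ 1 ≤ km := by
  have h1 := K.hc3.hlam
  refine ⟨K.hc.cst.hΔ, K.hc.cst.hR, K.hc.hΔ, K.hc3.hΘ, K.hc3.hM0, ?_, K.hc.cst.hT, K.hc3.hT,
    by omega, K.hc3.hk⟩
  have := K.hc3.hn
  calc 8 * (km * M0 * lam ^ h) = 8 * km * M0 * lam ^ h := by ring
    _ ≤ n := this

theorem tau (K : Cx d d' C Δ R n q A L Ax L1 L2 km h M0 lam Θ M1 F H Tm π) {f : G}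
    (hf : f ∈ Fp d n L1) : (n : ℝ) ≤ q * H.T f := by
  obtain ⟨g, r, hg, hx, hr, hfr⟩ := hf
  have hn : 100 * C * q ≤ n := by
    obtain ⟨a1, a2, a3, a4, a5, a6, -, -, a9, a10⟩ := K.nums
    have b1 : M0 ≤ km * M0 * lam ^ h := by
      calc M0 = 1 * M0 * 1 := by ring
        _ ≤ km * M0 * lam ^ h := by
          apply Nat.mul_le_mul (Nat.mul_le_mul_right _ a10) (Nat.one_le_pow _ _ a9)
    have b2 : C ≤ Θ := by
      have : Δ + L2 + R * h ≤ Θ := by omega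
      have : Δ ≤ Θ := by omega
      omega
    have b3 : q * C ≤ q * Θ := Nat.mul_le_mul_left _ b2
    have b4 : 10 * q * Θ = 10 * (q * Θ) := by ring
    have b5 : 100 * C * q = 100 * (q * C) := by ring
    have b6 : 10 ^ 4 * Δ ≤ Θ := by
      have : 10 ^ 4 * (Δ + L2 + R * h) = 10 ^ 4 * Δ + 10 ^ 4 * L2 + 10 ^ 4 * (R * h) := by ring
      omega
    have b7 : 100 * C ≤ Θ := by omega
    have b8 : q * (100 * C) ≤ q * Θ := Nat.mul_le_mul_left _ b7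
    have b9 : q * (100 * C) = 100 * (q * C) := by ring
    omega
  exact (p_one H K.hS K.hc.odd K.q1 K.hA hn hg hx hr hfr).2.1

theorem pair_facts (K : Cx d d' C Δ R n q A L Ax L1 L2 km h M0 lam Θ M1 F H Tm π) {S r : G}
    {a : ℤ} (P : Pair H n L1 L2 km S r a) :
    S * r ^ n * S⁻¹ ≠ r ^ n ∧ S * r ^ n * S⁻¹ ≠ (r ^ n)⁻¹ := by
  have hfF := K.hFp P.fp
  have hT : 1000 * (Δ : ℝ) ≤ Tm := by
    have h1 : 1000 * (Δ : ℝ) ≤ R := by exact_mod_cast K.hc.cst.hR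
    have h2 := K.hc.cst.hT
    have h3 : (0 : ℝ) ≤ R := Nat.cast_nonneg _
    linarith
  have key : ¬ Commute S (r ^ n) := fun hcom =>
    P.ne (PH.cent_tf K.hA K.hR.toFam hT K.hc.hn hfF hcom P.tor)
  constructor
  · intro h
    exact key (PH.comm_of_pm K.hA K.hR.toFam hT K.hc.hn hfF (Or.inl h))
  · intro h
    exact key (PH.comm_of_pm K.hA K.hR.toFam hT K.hc.hn hfF (Or.inr h))

/-- The chain of a pair, started at `τ`, with its properties. -/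
structure Pk {G G' : Type} [Group G] [Group G'] {d : G → G → ℕ} {d' : G' → G' → ℕ} {C : ℕ}
    (H : Hubs d (Lx d (100 * C)) C) (H' : Hubs d' (Lx d' (100 * C)) C) (F : Set G)
    (π : G →* G') (n R L2 h M0 lam Θ : ℕ) (Tm : ℝ) (S r : G) (a : ℤ) (τ x : G)
    (g : ℤ → G) : Prop where
  cx : ∀ j : ℤ, d x (S ^ j * x) ≤ C
  nx : Nh d L2 (H.Z (r ^ n)) x
  g0 : g 0 = τ
  gs : ∀ k, g (k + 1) = g k * (S * r ^ (a * ee h M0 lam k))
  ch : Chn H F (L2 + C) (10 * Θ - 3 * C - C) (10 * Θ - 3 * C - C)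
    (fun k => g k * r ^ n * (g k)⁻¹) (fun k => g k * x)
  gh : g h * (g 0)⁻¹ = τ * ww S r a h (fun k => (M0 : ℤ) * lam ^ k) * τ⁻¹
  mem : π (g h * (g 0)⁻¹) ∈ Lx d' (100 * C)
  big : Tm ≤ H'.T (π (g h * (g 0)⁻¹))
  cov : ∀ z ∈ H'.Z (π (g h * (g 0)⁻¹)), ∃ k,
    d' z (π (g k * x)) ≤ 100 * ((L2 + C) / R + 1) + 11 * C

theorem exists_pk (hKB : ∀ (G G' : Type) [Group G] [Group G'] (d : G → G → ℕ)
    (d' : G' → G' → ℕ)
    (δ C Δ R : ℕ) (X F : Set G) (H : Hubs d X C) (H' : Hubs d' (Lx d' (100 * C)) C) (c Tm : ℝ)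
    (π : G →* G') (B E p : ℕ) (lo hi : ℝ) (h y : ℤ → G) (w : G), HypG d δ → Fam H F Δ Tm →
    Cst δ C Δ R c Tm → 200 * c ≤ Tm → (M1 : ℝ) * R ≤ Tm → Quo H F R π d' → HypG d' 2000 →
    100 * 2000 ≤ C → 10 * ((Δ : ℝ) + B) ≤ c → B ≤ R * E → 100 * ((Δ : ℝ) + B) ≤ lo →
    100 * ((Δ : ℝ) + B) ≤ hi → Chn H F B lo hi h y → (∀ k, h (k + p) = w * h k * w⁻¹) →
    (∀ k, y (k + p) = w * y k) → 2 * ((R : ℝ) * p) ≤ lo →
    (M1 : ℝ) * (Tm + 100 * C + 2 * E + 1000) ≤ p →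
    π w ∈ Lx d' (100 * C) ∧ Tm ≤ H'.T (π w) ∧
    (∀ k, Nh d' (100 * E + 11 * C) (H'.Z (π w)) (π (y k))) ∧
    ∀ z ∈ H'.Z (π w), ∃ k, d' z (π (y k)) ≤ 100 * E + 11 * C)
    (hKE : StKE) (K : Cx d d' C Δ R n q A L Ax L1 L2 km h M0 lam Θ M1 F H Tm π)
    (H' : Hubs d' (Lx d' (100 * C)) C) {S r : G} {a : ℤ} (P : Pair H n L1 L2 km S r a) (τ : G) :
    ∃ (x : G) (g : ℤ → G), Pk H H' F π n R L2 h M0 lam Θ Tm S r a τ x g := by
  obtain ⟨x, hx1, hx2⟩ := P.near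
  obtain ⟨g, g0, gs⟩ := exists_rec (fun k => S * r ^ (a * ee h M0 lam k)) τ
  have hG := K.hS.toHypG
  have hG' := K.hS'.toHypG
  have hC := K.hC
  have hh := K.h1
  obtain ⟨hΔ, hR, hL1, hΘ, hM0, hn, hTR, hTL, hlam, hkm⟩ := K.nums
  have hE := K.E1
  have hqC := K.qC
  have hF := K.hR.toFam
  have hfF := K.hFp P.fp
  have htau := K.tau P.fp
  have hn3 := K.hc.hn
  have hq := K.q1
  have hM1 := K.hM1
  have hpf := K.pair_facts P
  -- real versions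
  have rC : (200000 : ℝ) ≤ C := by exact_mod_cast hC
  have rΔ : 1000 * (C : ℝ) ≤ Δ := by exact_mod_cast hΔ
  have rR : 1000 * (Δ : ℝ) ≤ R := by exact_mod_cast hR
  have rΘ : 10 ^ 4 * ((Δ : ℝ) + L2 + R * h) ≤ Θ := by exact_mod_cast hΘ
  have rL2 : (0 : ℝ) ≤ L2 := Nat.cast_nonneg _
  have rq : (1 : ℝ) ≤ q := by exact_mod_cast hq
  have rn : (0 : ℝ) < n := by
    have : 0 < n := by omega
    exact_mod_cast this
  have rM0 : 10 * (q : ℝ) * Θ ≤ M0 := by exact_mod_cast hM0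
  have rRh : (0 : ℝ) ≤ R * h := by positivity
  have rΘ0 : (0 : ℝ) ≤ Θ := Nat.cast_nonneg _
  have hT0 : 0 < H.T (r ^ n) := by
    have := H.Tbig _ (hF.sub hfF)
    linarith
  -- `10 Θ ≤ M0 T / n`
  have k1 : 10 * (Θ : ℝ) ≤ M0 * H.T (r ^ n) / n := by
    rw [le_div_iff₀ rn]
    calc 10 * (Θ : ℝ) * n ≤ 10 * Θ * (q * H.T (r ^ n)) := by gcongr
      _ = 10 * q * Θ * H.T (r ^ n) := by ring
      _ ≤ M0 * H.T (r ^ n) := by gcongr
  have hee := fun k => ee_bd (h := h) (M0 := M0) (by omega) hlam k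
  have ha : (1 : ℤ) ≤ |a| := Int.one_le_abs P.a0
  have hM00 : (0 : ℤ) ≤ M0 := by positivity
  have k2 : ∀ k, (M0 : ℤ) ≤ |a * ee h M0 lam k| := by
    intro k
    have h1 := (hee k).1
    rw [abs_mul, abs_of_nonneg (hM00.trans h1)]
    nlinarith
  have k3 : ∀ k, 8 * |a * ee h M0 lam k| ≤ (n : ℤ) := by
    intro k
    have h1 := hee k
    have h2 : (8 * (km * M0 * lam ^ h) : ℤ) ≤ n := by exact_mod_cast hn
    rw [abs_mul, abs_of_nonneg (hM00.trans h1.1)]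
    have h3 := P.ak
    have h4 : |a| * ee h M0 lam k ≤ km * ((M0 : ℤ) * (lam : ℤ) ^ h) :=
      mul_le_mul h3 h1.2 (hM00.trans h1.1) (by positivity)
    nlinarith
  have k4 : 80 * (Θ : ℝ) ≤ H.T (r ^ n) := by
    have h2 : (8 * (M0 : ℤ)) ≤ n := by
      have := k2 0
      have := k3 0
      omega
    have h3 : 8 * (M0 : ℝ) ≤ n := by exact_mod_cast h2
    have h4 : q * (80 * (Θ : ℝ)) ≤ q * H.T (r ^ n) := by linarith
    exact le_of_mul_le_mul_left h4 (by linarith)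
  have hWD : WD H F n L2 C (10 * Θ) (10 * Θ) r x (fun _ => S)
      (fun k => a * ee h M0 lam k) g := by
    refine ⟨hfF, fun _ => hpf.1, fun _ => hpf.2, hx2, fun _ => ?_, fun k => ?_, fun k => ?_, gs⟩
    · have := hx1 1
      rwa [zpow_one] at this
    · have h1 : (M0 : ℝ) ≤ |((a * ee h M0 lam k : ℤ) : ℝ)| := by
        have := k2 k
        rw [← Int.cast_abs]
        exact_mod_cast this
      refine k1.trans ?_
      gcongr
    · have h1 : 8 * |((a * ee h M0 lam k : ℤ) : ℝ)| ≤ n := by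
        have := k3 k
        rw [← Int.cast_abs]
        exact_mod_cast this
      rw [div_le_iff₀ rn]
      have h2 : |((a * ee h M0 lam k : ℤ) : ℝ)| * H.T (r ^ n) ≤ n / 8 * H.T (r ^ n) := by
        gcongr
        linarith
      have h3 : 10 * (Θ : ℝ) * n ≤ H.T (r ^ n) / 8 * n := by
        gcongr
        linarith
      nlinarith
  obtain ⟨ch, -, per⟩ := hKE G d 2000 C Δ (Lx d (100 * C)) F H Tm n L2 C (10 * Θ) (10 * Θ) r x
    (fun _ => S) (fun k => a * ee h M0 lam k) g hG hC hF (by omega) hWD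
  have per' := per h (fun _ => rfl) (fun k => by
    show a * ee h M0 lam (k + h) = a * ee h M0 lam k
    rw [ee_per])
  have hw : g h = g 0 * ww S r a h (fun k => (M0 : ℤ) * lam ^ k) := ww_eq gs
  have hh' : ∀ k : ℤ, (fun k => g k * r ^ n * (g k)⁻¹) (k + h) =
      (g h * (g 0)⁻¹) * (fun k => g k * r ^ n * (g k)⁻¹) k * (g h * (g 0)⁻¹)⁻¹ := by
    intro k
    show g (k + h) * r ^ n * (g (k + h))⁻¹ = _
    rw [per' k]
    group
  have hy' : ∀ k : ℤ, (fun k => g k * x) (k + h) = (g h * (g 0)⁻¹) * (fun k => g k * x) k := by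
    intro k
    show g (k + h) * x = _
    rw [per' k]
    group
  have hMR := K.hc.hM
  have hhh := K.hc3.hh
  have rM1 : (1 : ℝ) ≤ M1 := by exact_mod_cast hM1
  have rE : ((((L2 + C) / R + 1 : ℕ) : ℝ)) ≤ Tm := by
    have e1 : (L2 + C) / R + 1 ≤ R := by
      have := hE.1
      have := hqC.1
      omega
    have e2 : ((((L2 + C) / R + 1 : ℕ) : ℝ)) ≤ R := by exact_mod_cast e1
    have e3 : (0 : ℝ) ≤ R := Nat.cast_nonneg _
    linarith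
  have hcst := K.hc.cst
  have := hKB G G' d d' 2000 C Δ R (Lx d (100 * C)) F H H' (10 * ((Δ : ℝ) + (L2 + C : ℕ))) Tm π
    (L2 + C) ((L2 + C) / R + 1) h (10 * Θ - 3 * C - C) (10 * Θ - 3 * C - C)
    (fun k => g k * r ^ n * (g k)⁻¹) (fun k => g k * x) (g h * (g 0)⁻¹) hG hF
    ⟨hcst.hδ, hcst.hC, hcst.hΔ, hcst.hR, by positivity, by push_cast; linarith, hcst.hT⟩
    (by push_cast; linarith) hMR K.hQ hG' hC le_rfl hE.2 (by push_cast; nlinarith)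
    (by push_cast; nlinarith) ch hh' hy' (by nlinarith) (by nlinarith)
  obtain ⟨w1, w2, -, w4⟩ := this
  exact ⟨x, g, ⟨hx1, hx2, g0, gs, ch, by rw [hw, g0, mul_assoc], w1, w2, w4⟩⟩

end Cx

open Cx in
theorem stKG (hKB : StKB) (hKC : StKC) (hKD : StKD) (hKE : StKE) (hKF : StKF) : StKG := by
  obtain ⟨M1, hM1, hKB'⟩ := hKB
  refine ⟨M1, hM1, ?_⟩
  intro G G' _ _ d d' C Δ R n q A L Ax L1 L2 km h M0 lam Θ F H H' Tm π S1 r1 S2 r2 a1 a2 t1 t2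
    hS hA hAx hR hc hQ hFp hS' hc3 P1 P2 w1 w2 hw1 hw2
  have K : Cx d d' C Δ R n q A L Ax L1 L2 km h M0 lam Θ M1 F H Tm π :=
    ⟨hS, hA, hAx, hR, hc, hQ, hFp, hS', hc3, hM1⟩
  obtain ⟨τ1, hτ1⟩ := hQ.surj t1
  obtain ⟨τ2, hτ2⟩ := hQ.surj t2
  obtain ⟨x1, g1, k1⟩ := K.exists_pk hKB' hKE H' P1 τ1
  obtain ⟨x2, g2, k2⟩ := K.exists_pk hKB' hKE H' P2 τ2
  have e1 : π (g1 h * (g1 0)⁻¹) = w1 := by
    rw [k1.gh, hw1, map_mul, map_mul, map_inv, hτ1]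
  have e2 : π (g2 h * (g2 0)⁻¹) = w2 := by
    rw [k2.gh, hw2, map_mul, map_mul, map_inv, hτ2]
  refine ⟨e1 ▸ k1.mem, e1 ▸ k1.big, ?_⟩
  intro a b hab ha1 hb1 ha2 hb2
  have hG := hS.toHypG
  have hG' := hS'.toHypG
  have hC := K.hC
  have hh := K.h1
  obtain ⟨hΔ, hR', hL1, hΘ, hM0, hn, hTR, hTL, hlam, hkm⟩ := K.nums
  have hE := K.E1
  have hqC := K.qC
  have hF := K.hR.toFam
  have hcst := hc.cst
  have rC : (200000 : ℝ) ≤ C := by exact_mod_cast hC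
  have rΔ : 1000 * (C : ℝ) ≤ Δ := by exact_mod_cast hΔ
  have rΘ : 10 ^ 4 * ((Δ : ℝ) + L2 + R * h) ≤ Θ := by exact_mod_cast hΘ
  have rL2 : (0 : ℝ) ≤ L2 := Nat.cast_nonneg _
  have rRh : (0 : ℝ) ≤ (R : ℝ) * h := by positivity
  have core : ∀ ka kb la lb : ℤ, ka ≤ kb → d' (π (g1 ka * x1)) (π (g2 la * x2)) ≤ 8 * L1 →
      d' (π (g1 kb * x1)) (π (g2 lb * x2)) ≤ 8 * L1 →
      52 * L1 ≤ d' (π (g1 ka * x1)) (π (g1 kb * x1)) →
      w1 = w2 ∧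
        (∃ (x : G) (ε : ℤ), (ε = 1 ∨ ε = -1) ∧ a1 = ε * a2 ∧ x * r2 ^ ε * x⁻¹ = r1 ∧
          x * S2 * x⁻¹ = S1) ∧
        (S1 = S2 → r1 = r2 → a1 = a2 →
          t1⁻¹ * t2 ∈ Subgroup.zpowers (π (ww S1 r1 a1 h (fun k => (M0 : ℤ) * lam ^ k)))) := by
    intro ka kb la lb hk hla hlb hd
    have hnum : 2 * (8 * L1) + 10 ^ 4 * ((L2 + C) / R + 1 + 1) * (5 + 1) ≤
        d' (π (g1 ka * x1)) (π (g1 kb * x1)) := by
      exact num_aux hE.1 hqC.1 (le_trans (by omega) hqC.2) hd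
    obtain ⟨κ, hκ, k0, hrun⟩ := hKC G G' d d' 2000 C Δ R (Lx d (100 * C)) F H Tm π (L2 + C)
      ((L2 + C) / R + 1) (8 * L1) 5 (10 * Θ - 3 * C - C) (10 * Θ - 3 * C - C)
      (fun k => g1 k * r1 ^ n * (g1 k)⁻¹) (fun k => g1 k * x1)
      (fun k => g2 k * r2 ^ n * (g2 k)⁻¹) (fun k => g2 k * x2) hG hF hQ
      ⟨hcst.hδ, hcst.hC, hcst.hΔ, hcst.hR, by positivity, by push_cast; linarith, hcst.hT⟩
      hE.2 (by push_cast; linarith) (by push_cast; linarith) k1.ch k2.ch ka kb la lb hk hla hlb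
      hnum
    obtain ⟨l0, hMt⟩ := hKD G d 2000 C Δ (Lx d (100 * C)) F H Tm (L2 + C) 3
      (10 * Θ - 3 * C - C) (10 * Θ - 3 * C - C)
      (fun k => g1 k * r1 ^ n * (g1 k)⁻¹) (fun k => g1 k * x1)
      (fun k => g2 k * r2 ^ n * (g2 k)⁻¹) (fun k => g2 k * x2) κ k0 la lb hG hC hF
      (by push_cast; linarith) (by push_cast; linarith) k1.ch k2.ch
      (fun j hj0 hj => hrun j hj0 (by push_cast at hj ⊢; omega))
    obtain ⟨f1, f2⟩ := hKF G d 2000 C Δ n q A L Ax L1 L2 km h M0 lam Θ R M1 F H Tm S1 r1 S2 r2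
      a1 a2 x1 x2 κ g1 g2 (k0 + 1) l0 hS hA hR hc.odd hc.hn hC hc3 (by omega) P1 P2 hFp k1.cx
      k1.nx k2.cx k2.nx k1.gs k2.gs
    rcases hMt with hMt | hMt
    · obtain ⟨f3, f4, f5⟩ := f1 hMt
      have hκ1 : π κ = 1 := (hQ.ker κ).2 hκ
      refine ⟨?_, f4, ?_⟩
      · rw [← e1, ← e2, f3, map_mul, map_mul, map_inv, hκ1]
        group
      · intro h1 h2 h3
        obtain ⟨m, hm⟩ := Subgroup.mem_zpowers_iff.1 (f5 h1 h2 h3)
        refine Subgroup.mem_zpowers_iff.2 ⟨m, ?_⟩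
        rw [← map_zpow, hm, map_mul, map_mul, map_inv, hκ1, mul_one, k1.g0, k2.g0, hτ1, hτ2]
    · exact absurd hMt f2
  have hc4 : 100 * ((L2 + C) / R + 1) + 11 * C ≤ L1 := by omega
  have cov : ∀ (g : ℤ → G) (x : G) (w : G'), (∀ z ∈ H'.Z w, ∃ k,
      d' z (π (g k * x)) ≤ 100 * ((L2 + C) / R + 1) + 11 * C) → ∀ p : G', Nh d' (3 * L1) (H'.Z w) p →
      ∃ k, d' p (π (g k * x)) ≤ 4 * L1 := by
    rintro g x w hw p ⟨z, hz, hpz⟩
    obtain ⟨k, hk⟩ := hw z hz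
    refine ⟨k, ?_⟩
    have := hG'.path.tri p z (π (g k * x))
    omega
  obtain ⟨ka, hka⟩ := cov g1 x1 w1 (e1 ▸ k1.cov) a ha1
  obtain ⟨kb, hkb⟩ := cov g1 x1 w1 (e1 ▸ k1.cov) b hb1
  obtain ⟨la, hla⟩ := cov g2 x2 w2 (e2 ▸ k2.cov) a ha2
  obtain ⟨lb, hlb⟩ := cov g2 x2 w2 (e2 ▸ k2.cov) b hb2
  have s1 := hG'.path.symm (π (g1 ka * x1)) a
  have s2 := hG'.path.symm (π (g1 kb * x1)) b
  have u1 := hG'.path.tri (π (g1 ka * x1)) a (π (g2 la * x2))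
  have u2 := hG'.path.tri (π (g1 kb * x1)) b (π (g2 lb * x2))
  have u3 := hG'.path.tri a (π (g1 ka * x1)) b
  have u4 := hG'.path.tri (π (g1 ka * x1)) (π (g1 kb * x1)) b
  rcases le_total ka kb with hk | hk
  · exact core ka kb la lb hk (by omega) (by omega) (by omega)
  · have s3 := hG'.path.symm (π (g1 ka * x1)) (π (g1 kb * x1))
    exact core kb ka lb la hk (by omega) (by omega) (by omega)

end Pool.Agent.Helper74.TB.K2
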