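import Pool.Agent.Helper74.TB.KAl
import Pool.Agent.Helper74.TB.P

/-! MP_7d16da_al, Part K: the word relators and the power relators form a relator family. -/

set_option autoImplicit false

namespace Pool.Agent.Helper74.TB

open Pool.Agent.Helper74.MH

/-- Two word relators whose axes run together are equal (weak form). -/
def StKGw : Prop :=
  ∃ M1 : ℕ, 1 ≤ M1 ∧
    ∀ (G G' : Type) [Group G] [Group G'] (d : G → G → ℕ) (d' : G' → G' → ℕ)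
    (C Δ R n q A L Ax L1 L2 km h M0 lam Θ : ℕ) (F : Set G) (H : Hubs d (Lx d (100 * C)) C)
    (H' : Hubs d' (Lx d' (100 * C)) C) (Tm : ℝ) (π : G →* G'),
    KHyp d d' C Δ R n q A L Ax L1 L2 km h M0 lam Θ M1 F H H' Tm π →
    ∀ (S1 r1 S2 r2 : G) (a1 a2 : ℤ) (t1 t2 : G'), Pair H n L1 L2 km S1 r1 a1 →
    Pair H n L1 L2 km S2 r2 a2 →
    ∀ w1 w2 : G', w1 = t1 * π (ww S1 r1 a1 h (fun k => (M0 : ℤ) * lam ^ k)) * t1⁻¹ →
      w2 = t2 * π (ww S2 r2 a2 h (fun k => (M0 : ℤ) * lam ^ k)) * t2⁻¹ →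
      w1 ∈ Lx d' (100 * C) ∧ Tm ≤ H'.T w1 ∧
      ∀ a b : G', 60 * L1 ≤ d' a b → Nh d' (3 * L1) (H'.Z w1) a → Nh d' (3 * L1) (H'.Z w1) b →
        Nh d' (3 * L1) (H'.Z w2) a → Nh d' (3 * L1) (H'.Z w2) b →
        w1 = w2 ∧ (S1 = S2 → r1 = r2 → a1 = a2 →
          t1⁻¹ * t2 ∈ Subgroup.zpowers (π (ww S1 r1 a1 h (fun k => (M0 : ℤ) * lam ^ k))))

namespace KG

section hub

variable {G' : Type} [Group G'] {d' : G' → G' → ℕ} {δ C L1 Δ : ℕ}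
  {X : Set G'} {H' : Hubs d' X C}

theorem nh_mono {r s : ℕ} (h : r ≤ s) {S : Set G'} {x : G'} (hx : Nh d' r S x) : Nh d' s S x := by
  obtain ⟨z, hz, hd⟩ := hx
  exact ⟨z, hz, hd.trans h⟩

theorem overlap (hG : HypG d' δ) (hC : 100 * δ ≤ C) (hC1 : 1 ≤ C) (hCL : 1000 * C ≤ L1)
    (hΔ : 300 * L1 ≤ Δ) {f f' : G'} (hf : f ∈ X) (hf' : f' ∈ X) {x y : G'} (hx : x ∈ H'.Z f')
    (hy : y ∈ H'.Z f') (hΦ : (Δ : ℝ) < |H'.Φ f x y|) :
    ∃ a b, 60 * L1 ≤ d' a b ∧ Nh d' (7 * C) (H'.Z f) a ∧ Nh d' (7 * C) (H'.Z f) b ∧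
      Nh d' (7 * C) (H'.Z f') a ∧ Nh d' (7 * C) (H'.Z f') b := by
  have hC1' : (1 : ℝ) ≤ C := by exact_mod_cast hC1
  have hCL' : 1000 * (C : ℝ) ≤ L1 := by exact_mod_cast hCL
  have hΔ' : 300 * (L1 : ℝ) ≤ Δ := by exact_mod_cast hΔ
  obtain ⟨γ, hγ0, hγ1, hγ⟩ := exists_geo hG.path x y
  obtain ⟨i1, i2, -, h12, h2N, -, -, h3, h4, h5, -⟩ := hl_ee hG H' hC hf hγ
    (Nat.zero_le (d' x y)) le_rfl (by rw [hγ0, hγ1]; linarith)
  rw [hγ0] at h3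
  rw [hγ1] at h4
  have nf' : ∀ t ≤ d' x y, Nh d' (7 * C) (H'.Z f') (γ t) := by
    intro t ht
    have h6 := hb_btw hG hγ (Nat.zero_le t) ht le_rfl
    rw [hγ0, hγ1] at h6
    obtain ⟨w, hw, hdw⟩ := H'.qc f' hf' x hx y hy _ h6
    exact ⟨w, hw, by omega⟩
  refine ⟨γ i1, γ i2, ?_, h5 i1 le_rfl h12.le, h5 i2 h12.le le_rfl, nf' i1 (by omega),
    nf' i2 h2N⟩
  have c1 := H'.coc f hf x (γ i1) y
  have c2 := H'.coc f hf (γ i1) (γ i2) y
  have e1 : H'.Φ f x y = H'.Φ f x (γ i1) + H'.Φ f (γ i1) (γ i2) + H'.Φ f (γ i2) y := by linarith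
  have e2 : |H'.Φ f x y| ≤ |H'.Φ f x (γ i1)| + |H'.Φ f (γ i1) (γ i2)| + |H'.Φ f (γ i2) y| := by
    rw [e1]; exact abs_add_three _ _ _
  have e3 := H'.lip f hf (γ i1) (γ i2)
  have e4 : 60 * (L1 : ℝ) ≤ d' (γ i1) (γ i2) := by linarith
  exact_mod_cast e4

end hub

section main

variable {G G' : Type} [Group G] [Group G'] {d : G → G → ℕ} {d' : G' → G' → ℕ}
    {C Δ R n q A L Ax L1 L2 km h M0 lam Θ M1 : ℕ} {F : Set G}
    {H : Hubs d (Lx d (100 * C)) C} {H' : Hubs d' (Lx d' (100 * C)) C} {Tm : ℝ} {π : G →* G'}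

theorem n_big (K : KHyp d d' C Δ R n q A L Ax L1 L2 km h M0 lam Θ M1 F H H' Tm π) :
    (q : ℝ) * Tm ≤ n ∧ 100 * C * q ≤ n := by
  obtain ⟨nC, nL, nL1, -, -, nΔ, nR, nΘ, nΘR, nΘ'⟩ := K.nums
  have hM0 := K.hc3.hM0
  have hlam := K.hc3.hlam
  have hk := K.hc3.hk
  have hh := K.hc3.hh
  have hn := K.hc3.hn
  have hM1 : (1 : ℝ) ≤ M1 := by exact_mod_cast K.hM1
  have hΘ0 : 100 * C ≤ Θ := by
    have := K.hR.hC
    omega
  have hTm0 : 0 ≤ Tm := by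
    have h1 := K.hc.cst.hT
    have : (0 : ℝ) ≤ R := Nat.cast_nonneg _
    linarith
  have hC0 : (0 : ℝ) ≤ C := Nat.cast_nonneg _
  have hTh : Tm ≤ h := by
    have h1 : 1 * (Tm + 1000 + 100 * C) ≤ 10 ^ 4 * (M1 : ℝ) * (Tm + 1000 + 100 * C) := by
      apply mul_le_mul_of_nonneg_right _ (by positivity)
      linarith
    linarith
  have h2 : h ≤ lam ^ h := (Nat.lt_pow_self (by omega)).le
  have h3 : 1 ≤ lam ^ h := Nat.one_le_pow _ _ (by omega)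
  have h4 : q * Θ ≤ M0 := by
    have : q * Θ ≤ 10 * q * Θ := by
      have : 10 * q * Θ = 10 * (q * Θ) := by ring
      omega
    omega
  have h5 : M0 ≤ 8 * km * M0 := by
    have : 1 * M0 ≤ 8 * km * M0 := Nat.mul_le_mul_right _ (by omega)
    omega
  have h6 : q * Θ * lam ^ h ≤ n :=
    (Nat.mul_le_mul_right _ (h4.trans h5)).trans hn
  constructor
  · have h7 : q * h ≤ n := by
      calc q * h = q * 1 * h := by ring
        _ ≤ q * Θ * lam ^ h := Nat.mul_le_mul (Nat.mul_le_mul_left _ (by omega)) h2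
        _ ≤ n := h6
    have h8 : (q : ℝ) * h ≤ n := by exact_mod_cast h7
    exact (mul_le_mul_of_nonneg_left hTh (Nat.cast_nonneg _)).trans h8
  · calc 100 * C * q = q * (100 * C) * 1 := by ring
      _ ≤ q * Θ * lam ^ h := Nat.mul_le_mul (Nat.mul_le_mul_left _ hΘ0) h3
      _ ≤ n := h6

/-- the property of the words given by `StKGw` -/
def WP (H : Hubs d (Lx d (100 * C)) C) (H' : Hubs d' (Lx d' (100 * C)) C) (Tm : ℝ)
    (π : G →* G') (n L1 L2 km h : ℕ) (e : ℕ → ℤ) : Prop :=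
  ∀ (S1 r1 S2 r2 : G) (a1 a2 : ℤ) (t1 t2 : G'), Pair H n L1 L2 km S1 r1 a1 →
    Pair H n L1 L2 km S2 r2 a2 →
    ∀ w1 w2 : G', w1 = t1 * π (ww S1 r1 a1 h e) * t1⁻¹ → w2 = t2 * π (ww S2 r2 a2 h e) * t2⁻¹ →
      w1 ∈ Lx d' (100 * C) ∧ Tm ≤ H'.T w1 ∧
      ∀ a b : G', 60 * L1 ≤ d' a b → Nh d' (3 * L1) (H'.Z w1) a → Nh d' (3 * L1) (H'.Z w1) b →
        Nh d' (3 * L1) (H'.Z w2) a → Nh d' (3 * L1) (H'.Z w2) b →
        w1 = w2 ∧ (S1 = S2 → r1 = r2 → a1 = a2 →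
          t1⁻¹ * t2 ∈ Subgroup.zpowers (π (ww S1 r1 a1 h e)))

variable {e : ℕ → ℤ}

/-- centralizers of words -/
theorem w_cent (hG' : HypG d' 2000) (hW : WP H H' Tm π n L1 L2 km h e)
    (hTL : 60 * (L1 : ℝ) ≤ Tm) {S r : G} {a : ℤ}
    {t : G'} (hp : Pair H n L1 L2 km S r a) {y : G'}
    (hy : Commute y (t * π (ww S r a h e) * t⁻¹)) :
    y ∈ Subgroup.zpowers (t * π (ww S r a h e) * t⁻¹) := by
  set w := t * π (ww S r a h e) * t⁻¹ with hw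
  have e2 : w = y * t * π (ww S r a h e) * (y * t)⁻¹ := by
    have : y * t * π (ww S r a h e) * (y * t)⁻¹ = y * w * y⁻¹ := by rw [hw]; group
    rw [this, hy.eq, mul_inv_cancel_right]
  obtain ⟨h1, h2, h3⟩ := hW S r S r a a t (y * t) hp hp w w hw e2
  have hz := H'.pr_mem w h1 1
  set z := H'.pr w 1 with hzdef
  have hz' : w * z ∈ H'.Z w := by
    have := (hl_Zpow H' h1 z 1).2 hz
    rwa [zpow_one] at this
  have hself : ∀ x : G', x ∈ H'.Z w → Nh d' (3 * L1) (H'.Z w) x := by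
    intro x hx
    exact ⟨x, hx, by rw [hb_self hG']; exact Nat.zero_le _⟩
  have hd : 60 * L1 ≤ d' z (w * z) := by
    have h4 := hl_disp H' h1 z
    have h5 : 60 * (L1 : ℝ) ≤ d' z (w * z) := by linarith
    exact_mod_cast h5
  obtain ⟨-, h4⟩ := h3 z (w * z) hd (hself z hz) (hself _ hz') (hself z hz) (hself _ hz')
  obtain ⟨m, hm⟩ := Subgroup.mem_zpowers_iff.1 (h4 rfl rfl rfl)
  refine Subgroup.mem_zpowers_iff.2 ⟨m, ?_⟩
  rw [hw, conj_zpow, hm]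
  group

/-- words and power relators -/
theorem w_p (hG' : HypG d' 2000) (hC : 1 ≤ C) (hCL : 1000 * C ≤ L1)
    (hW : WP H H' Tm π n L1 L2 km h e) (hTL : 60 * (L1 : ℝ) ≤ Tm) {S r : G} {a : ℤ}
    {t : G'} (hp : Pair H n L1 L2 km S r a) {p rp : G'} (hpX : p ∈ Lx d' (100 * C))
    (hrp : p = rp ^ n) (hmv : ∀ z ∈ H'.Z p, d' z (rp * z) ≤ L1 + 10 * C) {x y : G'}
    (hxy : 60 * L1 ≤ d' x y) (hx : Nh d' (7 * C) (H'.Z (t * π (ww S r a h e) * t⁻¹)) x)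
    (hy : Nh d' (7 * C) (H'.Z (t * π (ww S r a h e) * t⁻¹)) y)
    (hxp : Nh d' (7 * C) (H'.Z p) x) (hyp : Nh d' (7 * C) (H'.Z p) y) : False := by
  set w := t * π (ww S r a h e) * t⁻¹ with hw
  have e2 : rp * w * rp⁻¹ = rp * t * π (ww S r a h e) * (rp * t)⁻¹ := by rw [hw]; group
  obtain ⟨h1, h2, h3⟩ := hW S r S r a a t (rp * t) hp hp w (rp * w * rp⁻¹) hw e2
  have near : ∀ x, Nh d' (7 * C) (H'.Z w) x → Nh d' (7 * C) (H'.Z p) x →
      Nh d' (3 * L1) (H'.Z (rp * w * rp⁻¹)) x := by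
    rintro x ⟨z, hz, hdz⟩ ⟨v, hv, hdv⟩
    refine ⟨rp * z, (H'.Zconj w h1 rp z).2 hz, ?_⟩
    have k1 := hmv v hv
    have k2 := hG'.path.tri x v (rp * v)
    have k3 := hG'.path.tri x (rp * v) (rp * z)
    have k4 := hG'.inv rp v z
    have k5 := hG'.path.tri v x z
    have k6 := hG'.path.symm v x
    omega
  have h4 := (h3 x y hxy (nh_mono (by omega) hx) (nh_mono (by omega) hy) (near x hx hxp)
    (near y hy hyp)).2 rfl rfl rfl
  obtain ⟨m, hm⟩ := Subgroup.mem_zpowers_iff.1 h4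
  have h5 : rp = w ^ m := by
    rw [hw, conj_zpow, hm]
    group
  have hz := H'.pr_mem p hpX 1
  have k1 := hmv _ hz
  have k2 := hl_zpow H' h1 (H'.pr p 1) m
  rw [← h5] at k2
  have k3 := H'.lip w h1 (H'.pr p 1) (rp * H'.pr p 1)
  rw [k2, abs_mul] at k3
  have k4 : (d' (H'.pr p 1) (rp * H'.pr p 1) : ℝ) ≤ L1 + 10 * C := by exact_mod_cast k1
  have hC' : (1 : ℝ) ≤ C := by exact_mod_cast hC
  have hCL' : 1000 * (C : ℝ) ≤ L1 := by exact_mod_cast hCL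
  have hm0 : m = 0 := by
    by_contra hne
    have k5 : (1 : ℝ) ≤ |(m : ℝ)| := by
      have : (1 : ℤ) ≤ |m| := Int.one_le_abs hne
      exact_mod_cast this
    have k6 : |H'.T w| = H'.T w := abs_of_nonneg (hl_Tpos H' h1)
    rw [k6] at k3
    have k7 : 1 * H'.T w ≤ |(m : ℝ)| * H'.T w :=
      mul_le_mul_of_nonneg_right k5 (hl_Tpos H' h1)
    linarith
  rw [hm0, zpow_zero] at h5
  rw [h5, one_pow] at hrp
  have k8 : 100 * C ≤ d' 1 (p * 1) := hpX 1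
  rw [hrp, one_mul, hb_self hG'] at k8
  omega

theorem Z_pm {w f : G'} (hw : w ∈ Lx d' (100 * C)) (h : f = w ∨ f = w⁻¹) :
    H'.Z f = H'.Z w := by
  rcases h with rfl | rfl
  · rfl
  · exact H'.Zinv w hw

end main

end KG

open KG in
theorem stK_of_w (hGw : StKGw) : StK := by
  obtain ⟨M1, hM1, hGw⟩ := hGw
  refine ⟨M1, hM1, ?_⟩
  intro G G' _ _ d d' C Δ R n q A L Ax L1 L2 km h M0 lam Θ F H H' Tm π P hS hA hAx hR hc hRL hQ
    hFp hS' hA' hR' hc3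
  have K : KHyp d d' C Δ R n q A L Ax L1 L2 km h M0 lam Θ M1 F H H' Tm π :=
    ⟨hS, hA, hAx, hR, hc, hRL, hQ, hFp, hS', hA', hR', hc3, hM1⟩
  obtain ⟨nC, nL, nL1, -, -, nΔ, nR, nΘ, nΘR, nΘ'⟩ := K.nums
  have hG' : HypG d' 2000 := hS'.toHypG
  have hF' : Fam H' (Fp d' n L1) Δ Tm := hR'.toFam
  have hC1 : 1 ≤ C := hF'.hC1
  have hCL : 1000 * C ≤ L1 := by omega
  set e : ℕ → ℤ := fun k => (M0 : ℤ) * lam ^ k with he
  have hW : WP H H' Tm π n L1 L2 km h e := by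
    intro S1 r1 S2 r2 a1 a2 t1 t2 hp1 hp2 w1 w2 hw1 hw2
    exact hGw G G' d d' C Δ R n q A L Ax L1 L2 km h M0 lam Θ F H H' Tm π K S1 r1 S2 r2 a1 a2 t1 t2
      hp1 hp2 w1 w2 hw1 hw2
  have hTL : 60 * (L1 : ℝ) ≤ Tm := by
    have h1 := K.hc.cst.hT
    have h2 : 60 * L1 ≤ 10 * R := by omega
    have h3 : 60 * (L1 : ℝ) ≤ 10 * R := by exact_mod_cast h2
    linarith
  obtain ⟨hq1, hq2⟩ := n_big K
  obtain ⟨-, hroot⟩ := stP G' d' 2000 C n q A L Ax L1 Δ Tm H' hS' hc.odd K.hC hC1 hc.hL K.q1 hA'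
    hc.hL1 hc.hAx hc.hΔ hq1 hq2
  -- words
  have wX : ∀ {S r : G} {a : ℤ} {t w : G'}, Pair H n L1 L2 km S r a →
      w = t * π (ww S r a h e) * t⁻¹ → w ∈ Lx d' (100 * C) ∧ Tm ≤ H'.T w := by
    intro S r a t w hp hw
    obtain ⟨h1, h2, -⟩ := hW S r S r a a t t hp hp w w hw hw
    exact ⟨h1, h2⟩
  have split : ∀ f ∈ Fw H π n L1 L2 km h e P, ∃ (S r : G) (a : ℤ) (t w : G'),
      Pair H n L1 L2 km S r a ∧ w = t * π (ww S r a h e) * t⁻¹ ∧ (f = w ∨ f = w⁻¹) ∧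
      w ∈ Lx d' (100 * C) ∧ f ∈ Lx d' (100 * C) ∧ Tm ≤ H'.T f ∧ H'.Z f = H'.Z w := by
    rintro f ⟨S, r, a, t, hp, -, hf⟩
    obtain ⟨h1, h2⟩ := wX (t := t) hp rfl
    refine ⟨S, r, a, t, _, hp, rfl, hf, h1, ?_, ?_, Z_pm h1 hf⟩
    · rcases hf with hf | hf
      · rw [hf]; exact h1
      · rw [hf]; exact H'.Xinv _ h1
    · rcases hf with hf | hf
      · rw [hf]; exact h2
      · rw [hf, H'.Tinv _ h1]; exact h2
  have root : ∀ p ∈ Fp d' n L1, ∃ rp : G', p = rp ^ n ∧ ∀ z ∈ H'.Z p,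
      d' z (rp * z) ≤ L1 + 10 * C := by
    intro p hp
    obtain ⟨rp, h1, -, h2⟩ := hroot p hp
    exact ⟨rp, h1, h2⟩
  have hcen : ∀ w ∈ Fw H π n L1 L2 km h e P, ∀ y, Commute y w ↔ y ∈ Subgroup.zpowers w := by
    intro f hf y
    constructor
    · intro hy
      obtain ⟨S, r, a, t, w, hp, hw, hfw, -⟩ := split f hf
      have hy' : Commute y w := by
        rcases hfw with h1 | h1
        · rwa [h1] at hy
        · rw [h1] at hy
          have := hy.inv_right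
          rwa [inv_inv] at this
      rw [hw] at hy'
      have h1 := w_cent hG' hW hTL hp hy'
      rw [← hw] at h1
      rcases hfw with h2 | h2
      · rw [h2]; exact h1
      · rw [h2, Subgroup.zpowers_inv]; exact h1
    · intro hy
      obtain ⟨m, rfl⟩ := Subgroup.mem_zpowers_iff.1 hy
      exact (Commute.refl f).zpow_left m
  refine ⟨?_, hcen⟩
  refine
    { sub := ?_
      conj := ?_
      inv := ?_
      sep := ?_
      big := ?_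
      hC := hF'.hC
      hC1 := hF'.hC1
      short := ?_
      cent := ?_ }
  · rintro f (hf | hf)
    · exact hF'.sub hf
    · obtain ⟨_, _, _, _, _, _, _, _, _, h1, _⟩ := split f hf
      exact h1
  · rintro f (hf | hf) g
    · exact Or.inl (hF'.conj f hf g)
    · obtain ⟨S, r, a, t, hp, hP, hf⟩ := hf
      refine Or.inr ⟨S, r, a, g * t, hp, hP, ?_⟩
      rcases hf with hf | hf
      · left; rw [hf]; group
      · right; rw [hf]; group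
  · rintro f (hf | hf)
    · exact Or.inl (hF'.inv f hf)
    · obtain ⟨S, r, a, t, hp, hP, hf⟩ := hf
      refine Or.inr ⟨S, r, a, t, hp, hP, ?_⟩
      rcases hf with hf | hf
      · right; rw [hf]
      · left; rw [hf, inv_inv]
  · intro f hf f' hf' hne hne' x hx y hy
    by_contra hcon
    push Not at hcon
    rcases hf with hf | hf <;> rcases hf' with hf' | hf'
    · have := hF'.sep f hf f' hf' hne hne' x hx y hy
      linarith
    · -- `f` power, `f'` word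
      obtain ⟨S, r, a, t, w, hp, hw, hfw, hwX, hfX, hT, hZ⟩ := split f' hf'
      obtain ⟨u, v, h1, h2, h3, h4, h5⟩ := overlap hG' K.hC hC1 hCL nΔ (hF'.sub hf) hfX hx hy hcon
      obtain ⟨rp, h6, h7⟩ := root f hf
      rw [hZ, hw] at h4 h5
      exact w_p hG' hC1 hCL hW hTL hp (hF'.sub hf) h6 h7 h1 h4 h5 h2 h3
    · obtain ⟨S, r, a, t, w, hp, hw, hfw, hwX, hfX, hT, hZ⟩ := split f hf
      obtain ⟨u, v, h1, h2, h3, h4, h5⟩ := overlap hG' K.hC hC1 hCL nΔ hfX (hF'.sub hf') hx hy hcon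
      obtain ⟨rp, h6, h7⟩ := root f' hf'
      rw [hZ, hw] at h2 h3
      exact w_p hG' hC1 hCL hW hTL hp (hF'.sub hf') h6 h7 h1 h2 h3 h4 h5
    · obtain ⟨S, r, a, t, w, hp, hw, hfw, hwX, hfX, hT, hZ⟩ := split f hf
      obtain ⟨S', r', a', t', w', hp', hw', hfw', hwX', hfX', hT', hZ'⟩ := split f' hf'
      obtain ⟨u, v, h1, h2, h3, h4, h5⟩ := overlap hG' K.hC hC1 hCL nΔ hfX hfX' hx hy hcon
      rw [hZ] at h2 h3
      rw [hZ'] at h4 h5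
      have h6 := ((hW S r S' r' a a' t t' hp hp' w w' hw hw').2.2 u v h1
        (nh_mono (by omega) h2) (nh_mono (by omega) h3) (nh_mono (by omega) h4)
        (nh_mono (by omega) h5)).1
      rw [← h6] at hfw'
      rcases hfw with h7 | h7 <;> rcases hfw' with h8 | h8
      · exact hne (h8.trans h7.symm)
      · exact hne' (by rw [h8, h7])
      · exact hne' (by rw [h8, h7, inv_inv])
      · exact hne (h8.trans h7.symm)
  · rintro f (hf | hf)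
    · exact hF'.big f hf
    · obtain ⟨_, _, _, _, _, _, _, _, _, _, h1, _⟩ := split f hf
      exact h1
  · intro g hg hx
    obtain ⟨f, hf, hgf⟩ := hR'.short g hg hx
    exact ⟨f, Or.inl hf, hgf⟩
  · rintro f (hf | hf) g hgf
    · exact hR'.cent f hf g hgf
    · obtain ⟨m, hm⟩ := Subgroup.mem_zpowers_iff.1 ((hcen f hf g).1 hgf)
      refine ⟨m * n, ?_⟩
      rw [← hm, ← zpow_natCast, ← zpow_mul]

/-- The weak form from the alignment lemma (old route). -/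
theorem stKGw_of_al (hKA : StKA) (hKC : StKC) (hal : StKal) : StKGw := by
  obtain ⟨M1, hM1, hKC⟩ := hKC
  refine ⟨M1, hM1, ?_⟩
  intro G G' _ _ d d' C Δ R n q A L Ax L1 L2 km h M0 lam Θ F H H' Tm π K S1 r1 S2 r2 a1 a2 t1 t2
    hp1 hp2 w1 w2 hw1 hw2
  obtain ⟨g1, b1, u1, v1, θ1, c1⟩ := hKA G G' d d' C Δ R n q A L Ax L1 L2 km h M0 lam Θ M1 F H H'
    Tm π K S1 r1 a1 hp1
  have x1 := hKC G G' d d' C Δ R n q A L Ax L1 L2 km h M0 lam Θ F H H' Tm π K S1 r1 a1 g1 b1 u1 v1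
    θ1 hp1 c1
  obtain ⟨s1, hs1⟩ := K.hQ.surj t1
  obtain ⟨s2, hs2⟩ := K.hQ.surj t2
  have e1 : w1 = t1 * π (g1 h) * t1⁻¹ := by rw [hw1, c1.word]
  refine ⟨?_, ?_, ?_⟩
  · rw [e1]; exact H'.Xconj _ x1.mem t1
  · rw [e1, H'.Tconj _ x1.mem]; exact x1.big
  intro a b hab ha1 hb1 ha2 hb2
  by_cases hsame : S1 = S2 ∧ r1 = r2 ∧ a1 = a2
  · obtain ⟨rfl, rfl, rfl⟩ := hsame
    have e2 : w2 = t2 * π (g1 h) * t2⁻¹ := by rw [hw2, c1.word]
    rw [e1, ← hs1] at ha1 hb1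
    rw [e2, ← hs2] at ha2 hb2
    have h1 := hal G G' d d' C Δ R n q A L Ax L1 L2 km h M0 lam Θ M1 F H H' Tm π K S1 r1 a1 g1 b1 u1
      v1 θ1 S1 r1 a1 g1 b1 u1 v1 θ1 hp1 c1 x1 hp2 c1 x1 s1 s2 a b hab ha1 hb1 ha2 hb2
    rw [hs1, hs2, ← e1, ← e2] at h1
    refine ⟨h1.1, fun _ _ _ => ?_⟩
    have h2 := h1.2 rfl rfl rfl rfl
    rw [c1.word] at h2
    exact h2
  · obtain ⟨g2, b2, u2, v2, θ2, c2⟩ := hKA G G' d d' C Δ R n q A L Ax L1 L2 km h M0 lam Θ M1 F H H'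
      Tm π K S2 r2 a2 hp2
    have x2 := hKC G G' d d' C Δ R n q A L Ax L1 L2 km h M0 lam Θ F H H' Tm π K S2 r2 a2 g2 b2 u2
      v2 θ2 hp2 c2
    have e2 : w2 = t2 * π (g2 h) * t2⁻¹ := by rw [hw2, c2.word]
    rw [e1, ← hs1] at ha1 hb1
    rw [e2, ← hs2] at ha2 hb2
    have h1 := hal G G' d d' C Δ R n q A L Ax L1 L2 km h M0 lam Θ M1 F H H' Tm π K S1 r1 a1 g1 b1 u1
      v1 θ1 S2 r2 a2 g2 b2 u2 v2 θ2 hp1 c1 x1 hp2 c2 x2 s1 s2 a b hab ha1 hb1 ha2 hb2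
    rw [hs1, hs2, ← e1, ← e2] at h1
    exact ⟨h1.1, fun h2 h3 h4 => absurd ⟨h2, h3, h4⟩ hsame⟩

end Pool.Agent.Helper74.TB
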