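import Pool.Agent.Helper74.TB.StL

/-! MP_7d16da_al: the common statement behind Part CL and Part LS. -/

set_option autoImplicit false

namespace Pool.Agent.Helper74.TB

open Pool.Agent.Helper74.MH

/-- The product (`c = true`) or the commutator (`c = false`). -/
def cu {G : Type*} [Group G] (c : Bool) (P Q : G) : G :=
  if c = true then P * Q else P * Q * P⁻¹ * Q⁻¹

/-- Data at stage `i`: a torsion representative of `S`, a representative of `g` and a centre
moved at most `E`. -/
structure CDat {B : Type} [Group B] (P : Par) (T : Tow B P.C) {D : Type} [Group D]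
    (ω : B →* D) (S g : D) (E : ℕ) (i : ℕ) (bs bt : B) (x : T.G i) : Prop where
  hs : ω bs = S
  ht : ω bt = g
  tor : (T.p i bs) ^ P.n = 1
  cen : ∀ k : ℤ, T.d i x ((T.p i bs) ^ k * x) ≤ P.C
  len : T.d i x (T.p i bt * x) ≤ E

/-- The common core of Parts CL and LS: for the product and for the commutator of `S ^ N1` and
`g S ^ N2 g⁻¹` there is a stage with a non-torsion representative. -/
def StCore : Prop :=
  ∀ (B : Type) [Group B] (P : Par) (M1 T0 : ℕ) (T : Tow B P.C)
    (deg : B →* Multiplicative (ZMod P.n)) (D : Type) [Group D] (ω : B →* D),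
    P.Ok M1 T0 → T.Good P deg → Lim T ω → ∀ S g : D, S ≠ 1 → ¬ Commute g S → ∀ c : Bool,
    ∃ (i : ℕ) (bs bt : B) (x : T.G i),
      T.p i (cu c (bs ^ P.N1) (bt * bs ^ P.N2 * bt⁻¹)) ^ P.n ≠ 1 ∧
      (CDat P T ω S g (100 * P.Ax + 2 * 10 ^ 6 * P.L) i bs bt x ∨
        (CDat P T ω S g (2 * P.Δ) i bs bt x ∧
          ∃ f ∈ T.F i, Commute (T.p i (cu c (bs ^ P.N1) (bt * bs ^ P.N2 * bt⁻¹))) f ∧
            Nh (T.d i) (4 * P.Ax) ((T.H i).Z f) x))

end Pool.Agent.Helper74.TB
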