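import Pool.Agent.Helper74.TB.StX
import Pool.Agent.Helper74.TB.HL2

/-! MP_7d16da_al: statements of Parts TR, J, K, L. -/

set_option autoImplicit false

namespace Pool.Agent.Helper74.TB

open Pool.Agent.Helper74.MH

/-- Chain bound: a relator outside a chain of long hubs sees only one bridge. -/
def StCHB : Prop :=
  ∀ (G : Type) [Group G] (d : G → G → ℕ) (δ C Δ : ℕ) (X F : Set G) (H : Hubs d X C) (Tm B : ℝ),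
    HypG d δ → Fam H F Δ Tm → ∀ (m : ℕ) (h : ℕ → G) (z z' g : G) (pm pp : ℕ → G),
    (∀ j ≤ m, h j ∈ F) → g ∈ F → (∀ j ≤ m, g ≠ h j ∧ g ≠ (h j)⁻¹) →
    (∀ j ≤ m, 2 * ((Δ : ℝ) + 10 * C) < |H.Φ (h j) z z'|) →
    (∀ j ≤ m, pm j ∈ H.Z (h j)) → (∀ j ≤ m, pp j ∈ H.Z (h j)) →
    |H.Φ g z (pm 0)| ≤ B → (∀ j < m, |H.Φ g (pp j) (pm (j + 1))| ≤ B) →
    |H.Φ g (pp m) z'| ≤ B → |H.Φ g z z'| ≤ B + 2 * ((Δ : ℝ) + 10 * C)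

/-- Part TR: transfer of a tight geodesic to a tight geodesic with close ends. -/
def StTR : Prop :=
  ∀ (G G' : Type) [Group G] [Group G'] (d : G → G → ℕ) (d' : G' → G' → ℕ) (δ C Δ R : ℕ)
    (X F : Set G) (H : Hubs d X C) (b : G → ℝ) (c Tm : ℝ) (π : G →* G'), HypG d δ →
    Fam H F Δ Tm → 0 ≤ c → Cst δ C Δ R (c + 10 * Δ) Tm → Quo H F R π d' → Wt H F b →
    (∀ f ∈ F, |b f - H.T f / 2| ≤ Tm / 10) →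
    ∀ E : ℕ, (∀ x y, d' (π x) (π y) ≤ E → ∃ k ∈ Subgroup.closure F, Tight H F b c x (k * y)) →
    ∀ (N1 N2 : ℕ) (γ1 γ2 : ℕ → G), IsGeo d N1 γ1 → IsGeo d N2 γ2 →
      Tight H F b c (γ1 0) (γ1 N1) → Tight H F b c (γ2 0) (γ2 N2) →
      d' (π (γ1 0)) (π (γ2 0)) ≤ E → d' (π (γ1 N1)) (π (γ2 N2)) ≤ E →
      ∃ κ ∈ Subgroup.closure F, ∃ κ2 ∈ Subgroup.closure F, ∃ κ3 ∈ Subgroup.closure F,
      ∃ (N3 : ℕ) (γ3 : ℕ → G), IsGeo d N3 γ3 ∧ γ3 0 = κ2 * γ2 0 ∧ γ3 N3 = κ3 * γ2 N2 ∧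
        Tight H F b (c + 7 * Δ) (γ3 0) (γ3 N3) ∧
        ∀ t ≤ N1, E + 3000 ≤ d' (π (γ1 t)) (π (γ1 0)) → E + 3000 ≤ d' (π (γ1 t)) (π (γ1 N1)) →
          ∃ s ≤ N3, d (κ * γ1 t) (γ3 s) ≤ 20 * C

/-- Part J1: products and commutators of two torsion elements with distant centres. -/
def StJ1 : Prop :=
  ∃ M1 : ℕ, ∀ (G G' : Type) [Group G] [Group G'] (d : G → G → ℕ) (d' : G' → G' → ℕ)
    (δ C Δ R n q A L Ax L1 : ℕ) (F : Set G) (H : Hubs d (Lx d (100 * C)) C) (Tm : ℝ)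
    (π : G →* G'), Stage d δ n q A L → Alg H n q L Ax → A + C ≤ Ax → Rels H F n L1 Δ Tm →
    Cst2 δ C Δ R n q L Ax L1 M1 Tm → Quo H F R π d' →
    ∀ P Q x y : G, P ^ n = 1 → P ≠ 1 → Q ^ n = 1 → Q ≠ 1 → (∀ j : ℤ, d x (P ^ j * x) ≤ C) →
      (∀ j : ℤ, d y (Q ^ j * y) ≤ C) → (∀ k ∈ Subgroup.closure F, d x y ≤ d x (k * y)) →
      100 * Ax ≤ d x y → ∀ U, U = P * Q ∨ U = P * Q * P⁻¹ * Q⁻¹ →
      U ^ n ≠ 1 ∧ (((∃ f ∈ F, Commute U f ∧ Nh d (4 * Ax) (H.Z f) x) ∧ d x y ≤ 2 * Δ) ∨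
        π U ^ n ≠ 1)

/-- Part J2: products and commutators of two rotations about distinct hubs. -/
def StJ2 : Prop :=
  ∃ M1 : ℕ, ∀ (G G' : Type) [Group G] [Group G'] (d : G → G → ℕ) (d' : G' → G' → ℕ)
    (δ C Δ R n q A L Ax L1 : ℕ) (F : Set G) (H : Hubs d (Lx d (100 * C)) C) (Tm : ℝ)
    (π : G →* G'), Stage d δ n q A L → Alg H n q L Ax → Rels H F n L1 Δ Tm →
    Cst2 δ C Δ R n q L Ax L1 M1 Tm → Quo H F R π d' →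
    ∀ f ∈ F, ∀ r t : G, (∀ y, Commute y f ↔ y ∈ Subgroup.zpowers r) → f = r ^ n →
      t * f * t⁻¹ ≠ f → t * f * t⁻¹ ≠ f⁻¹ → ∀ x ∈ H.Z f, ∀ y ∈ H.Z (t * f * t⁻¹),
      (∀ x' ∈ H.Z f, ∀ y' ∈ H.Z (t * f * t⁻¹), ∀ k ∈ Subgroup.closure F,
        d x y ≤ d x' (k * y')) →
      ∀ k1 k2 : ℤ, k1 ≠ 0 → k2 ≠ 0 → 2 * |k1| ≤ n → 2 * |k2| ≤ n →
      (100 * (Δ : ℝ) * n ≤ |(k1 : ℝ)| * H.T f ∨ 100 * (Δ : ℝ) * n ≤ |(k2 : ℝ)| * H.T f) →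
      ∀ U, U = r ^ k1 * (t * r ^ k2 * t⁻¹) ∨
        U = r ^ k1 * (t * r ^ k2 * t⁻¹) * (r ^ k1)⁻¹ * (t * r ^ k2 * t⁻¹)⁻¹ →
      U ^ n ≠ 1 ∧ π U ^ n ≠ 1

/-- Pair data: a torsion element `S` with a centre near the hub of `r ^ n`. -/
structure Pair {G : Type*} [Group G] {d : G → G → ℕ} {C : ℕ} (H : Hubs d (Lx d (100 * C)) C)
    (n L1 L2 km : ℕ) (S r : G) (a : ℤ) : Prop where
  tor : S ^ n = 1
  ne : S ≠ 1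
  a0 : a ≠ 0
  ak : |a| ≤ km
  fp : r ^ n ∈ Fp d n L1
  cen : ∀ y, Commute y (r ^ n) ↔ y ∈ Subgroup.zpowers r
  near : ∃ x, (∀ j : ℤ, d x (S ^ j * x) ≤ C) ∧ Nh d L2 (H.Z (r ^ n)) x

/-- The word `∏_{k<h} S r^(a e_k)`. -/
def ww {G : Type*} [Group G] (S r : G) (a : ℤ) (h : ℕ) (e : ℕ → ℤ) : G :=
  ((List.range h).map (fun k => S * r ^ (a * e k))).prod

/-- The word relators. -/
def Fw {G G' : Type*} [Group G] [Group G'] {d : G → G → ℕ} {C : ℕ}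
    (H : Hubs d (Lx d (100 * C)) C) (π : G →* G') (n L1 L2 km h : ℕ) (e : ℕ → ℤ)
    (P : G → G → ℤ → Prop) : Set G' :=
  {w | ∃ (S r : G) (a : ℤ) (t : G'), Pair H n L1 L2 km S r a ∧ P S r a ∧
    (w = t * π (ww S r a h e) * t⁻¹ ∨ w = (t * π (ww S r a h e) * t⁻¹)⁻¹)}

/-- Constants for the word relators. -/
structure Cst3 (C Δ R n q L1 L2 km h M0 lam Θ M1 : ℕ) (Tm : ℝ) : Prop where
  hL2 : 100 * L2 ≤ q * C * L1 * 10 ^ 5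
  hΘ : 10 ^ 4 * (Δ + L2 + R * h) ≤ Θ
  hM0 : 10 * q * Θ ≤ M0
  hlam : km + 2 ≤ lam
  hk : 1 ≤ km
  hh : 10 ^ 4 * (M1 : ℝ) * (Tm + 1000 + 100 * C) ≤ h
  hn : 8 * km * M0 * lam ^ h ≤ n
  hT : 10 ^ 4 * ((Δ : ℝ) + L2) ≤ Tm

/-- Part K: the word relators together with the power relators form a relator family. -/
def StK : Prop :=
  ∃ M1 : ℕ, 1 ≤ M1 ∧
    ∀ (G G' : Type) [Group G] [Group G'] (d : G → G → ℕ) (d' : G' → G' → ℕ)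
    (C Δ R n q A L Ax L1 L2 km h M0 lam Θ : ℕ) (F : Set G) (H : Hubs d (Lx d (100 * C)) C)
    (H' : Hubs d' (Lx d' (100 * C)) C) (Tm : ℝ) (π : G →* G') (P : G → G → ℤ → Prop),
    Stage d 2000 n q A L → Alg H n q L Ax → 10 ^ 5 * q * L * C ≤ Ax →
    Rels H F n L1 Δ Tm → Cst2 2000 C Δ R n q L Ax L1 M1 Tm → R ≤ 10 ^ 6 * L1 →
    Quo H F R π d' → Fp d n L1 ⊆ F →
    Stage d' 2000 n q A L → Alg H' n q L Ax → Rels H' (Fp d' n L1) n L1 Δ Tm →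
    Cst3 C Δ R n q L1 L2 km h M0 lam Θ M1 Tm →
    Rels H' (Fp d' n L1 ∪ Fw H π n L1 L2 km h (fun k => M0 * lam ^ k) P) n L1 Δ Tm ∧
    ∀ w ∈ Fw H π n L1 L2 km h (fun k => M0 * lam ^ k) P, ∀ y,
      Commute y w ↔ y ∈ Subgroup.zpowers w

end Pool.Agent.Helper74.TB
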