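import Pool.Agent.Helper74.TB.StJK

/-! MP_7d16da_al: statements of the pieces of Part K (simplified version: the angle of a word
chain at a hub is `a e_k τ` up to a small error, because `S` moves the point `x` little). -/

set_option autoImplicit false

namespace Pool.Agent.Helper74.TB.K2

open Pool.Agent.Helper74.MH

/-- A two-sided chain of hubs `h k` with passage points `y k`: `y k` is close to the hubs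
`h k` and `h (k + 1)`, and between `y k` and `y (k + 1)` the chain turns along `h (k + 1)`. -/
structure Chn {G : Type*} [Group G] {d : G → G → ℕ} {X : Set G} {C : ℕ} (H : Hubs d X C)
    (F : Set G) (B : ℕ) (lo hi : ℝ) (h y : ℤ → G) : Prop where
  mem : ∀ k, h k ∈ F
  ne : ∀ k, h (k + 1) ≠ h k
  ne' : ∀ k, h (k + 1) ≠ (h k)⁻¹
  nr : ∀ k, Nh d B (H.Z (h k)) (y k)
  nr' : ∀ k, Nh d B (H.Z (h (k + 1))) (y k)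
  ge : ∀ k, lo ≤ |H.Φ (h (k + 1)) (y k) (y (k + 1))|
  le : ∀ k, |H.Φ (h (k + 1)) (y k) (y (k + 1))| ≤ H.T (h (k + 1)) / 2 - hi

/-- Part KA: geometry of chains (from the chain bound and `hl_chain`). -/
def StKA : Prop :=
  ∀ (G : Type) [Group G] (d : G → G → ℕ) (δ C Δ : ℕ) (X F : Set G) (H : Hubs d X C) (Tm : ℝ)
    (B : ℕ) (lo hi : ℝ) (h y : ℤ → G), HypG d δ → 100 * δ ≤ C → Fam H F Δ Tm →
    100 * ((Δ : ℝ) + B) ≤ lo → 100 * ((Δ : ℝ) + B) ≤ hi → Chn H F B lo hi h y →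
    (∀ i j, i < j → h i ≠ h j ∧ h i ≠ (h j)⁻¹) ∧
    (∀ i k j, i < k → k ≤ j → |H.Φ (h k) (y i) (y j) - H.Φ (h k) (y (k - 1)) (y k)| ≤
      10 * ((Δ : ℝ) + B)) ∧
    (∀ i k j, i < k → k < j → ∀ a ∈ H.Z (h i), ∀ b ∈ H.Z (h j),
      |H.Φ (h k) a b - H.Φ (h k) (y (k - 1)) (y k)| ≤ 10 * ((Δ : ℝ) + B)) ∧
    (∀ i j, i ≤ j → ∀ g ∈ F, (∀ k, i < k → k ≤ j → g ≠ h k ∧ g ≠ (h k)⁻¹) →
      |H.Φ g (y i) (y j)| ≤ 10 * ((Δ : ℝ) + B)) ∧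
    ∀ i j, Tight H F (fun f => H.T f / 2) (10 * ((Δ : ℝ) + B)) (y i) (y j)

/-- Part KA2: images of chains. -/
def StKA2 : Prop :=
  ∀ (G G' : Type) [Group G] [Group G'] (d : G → G → ℕ) (d' : G' → G' → ℕ) (δ C Δ R : ℕ)
    (X F : Set G) (H : Hubs d X C) (Tm : ℝ) (π : G →* G') (B E : ℕ) (lo hi : ℝ)
    (h y : ℤ → G), HypG d δ → 100 * δ ≤ C → Fam H F Δ Tm → Quo H F R π d' → 1000 * Δ ≤ R →
    B ≤ R * E → 100 * ((Δ : ℝ) + B) ≤ lo → 100 * ((Δ : ℝ) + B) ≤ hi → Chn H F B lo hi h y →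
    (∀ k, d' (π (y k)) (π (y (k + 1))) ≤ 2 * E + 1) ∧
    ∀ i j, i ≤ j → ∀ (N : ℕ) (γ : ℕ → G), IsGeo d N γ → γ 0 = y i → γ N = y j →
      (∀ t ≤ N, ∃ k, i ≤ k ∧ k ≤ j ∧ d' (π (γ t)) (π (y k)) ≤ 40 * E + 2) ∧
      ∀ k, i ≤ k → k ≤ j → ∃ t ≤ N, d' (π (γ t)) (π (y k)) ≤ E + 1

/-- Part KB: a periodic chain gives an element of the quotient with a long axis along the
image of the chain. -/
def StKB : Prop :=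
  ∃ M1 : ℕ, 1 ≤ M1 ∧ ∀ (G G' : Type) [Group G] [Group G'] (d : G → G → ℕ) (d' : G' → G' → ℕ)
    (δ C Δ R : ℕ) (X F : Set G) (H : Hubs d X C) (H' : Hubs d' (Lx d' (100 * C)) C) (c Tm : ℝ)
    (π : G →* G') (B E p : ℕ) (lo hi : ℝ) (h y : ℤ → G) (w : G), HypG d δ → Fam H F Δ Tm →
    Cst δ C Δ R c Tm → 200 * c ≤ Tm → (M1 : ℝ) * R ≤ Tm → Quo H F R π d' → HypG d' 2000 →
    100 * 2000 ≤ C → 10 * ((Δ : ℝ) + B) ≤ c → B ≤ R * E → 100 * ((Δ : ℝ) + B) ≤ lo →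
    100 * ((Δ : ℝ) + B) ≤ hi → Chn H F B lo hi h y → (∀ k, h (k + p) = w * h k * w⁻¹) →
    (∀ k, y (k + p) = w * y k) → 2 * ((R : ℝ) * p) ≤ lo →
    (M1 : ℝ) * (Tm + 100 * C + 2 * E + 1000) ≤ p →
    π w ∈ Lx d' (100 * C) ∧ Tm ≤ H'.T (π w) ∧
    (∀ k, Nh d' (100 * E + 11 * C) (H'.Z (π w)) (π (y k))) ∧
    ∀ z ∈ H'.Z (π w), ∃ k, d' z (π (y k)) ≤ 100 * E + 11 * C

/-- Part KC: if the images of two chains are close at both ends, then one translate of the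
second chain runs along many consecutive hubs of the first chain. -/
def StKC : Prop :=
  ∀ (G G' : Type) [Group G] [Group G'] (d : G → G → ℕ) (d' : G' → G' → ℕ) (δ C Δ R : ℕ)
    (X F : Set G) (H : Hubs d X C) (Tm : ℝ) (π : G →* G') (B E Q n0 : ℕ) (lo hi : ℝ)
    (h1 y1 h2 y2 : ℤ → G), HypG d δ → Fam H F Δ Tm → Quo H F R π d' →
    Cst δ C Δ R (10 * ((Δ : ℝ) + B) + 10 * Δ) Tm → B ≤ R * E → 1000 * ((Δ : ℝ) + B) ≤ lo →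
    1000 * ((Δ : ℝ) + B) ≤ hi → Chn H F B lo hi h1 y1 → Chn H F B lo hi h2 y2 →
    ∀ ka kb la lb : ℤ, ka ≤ kb → d' (π (y1 ka)) (π (y2 la)) ≤ Q →
    d' (π (y1 kb)) (π (y2 lb)) ≤ Q →
    2 * Q + 10 ^ 4 * (E + 1) * (n0 + 1) ≤ d' (π (y1 ka)) (π (y1 kb)) →
    ∃ κ ∈ Subgroup.closure F, ∃ k0 : ℤ, ∀ j : ℤ, 0 ≤ j → j ≤ n0 →
      200 * ((Δ : ℝ) + B) ≤ |H.Φ (h1 (k0 + j)) (κ * y2 la) (κ * y2 lb)|

/-- `n0 + 1` consecutive hubs of two chains match after translation by `κ`, with the same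
angles. -/
def Mt {G : Type*} [Group G] {d : G → G → ℕ} {X : Set G} {C : ℕ} (H : Hubs d X C)
    (Δ B n0 : ℕ) (h1 y1 h2 y2 : ℤ → G) (κ : G) (k0 l0 : ℤ) : Prop :=
  ∀ j : ℤ, 0 ≤ j → j ≤ n0 →
    (h1 (k0 + j) = κ * h2 (l0 + j) * κ⁻¹ ∨ h1 (k0 + j) = (κ * h2 (l0 + j) * κ⁻¹)⁻¹) ∧
    |H.Φ (h1 (k0 + j)) (y1 (k0 + j - 1)) (y1 (k0 + j)) -
      H.Φ (h1 (k0 + j)) (κ * y2 (l0 + j - 1)) (κ * y2 (l0 + j))| ≤ 4 * ((Δ : ℝ) + B)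

/-- Part KD: matching of the hubs (for the reversed second chain in the second case). -/
def StKD : Prop :=
  ∀ (G : Type) [Group G] (d : G → G → ℕ) (δ C Δ : ℕ) (X F : Set G) (H : Hubs d X C) (Tm : ℝ)
    (B n0 : ℕ) (lo hi : ℝ) (h1 y1 h2 y2 : ℤ → G) (κ : G) (k0 la lb : ℤ), HypG d δ →
    100 * δ ≤ C → Fam H F Δ Tm → 1000 * ((Δ : ℝ) + B) ≤ lo → 1000 * ((Δ : ℝ) + B) ≤ hi →
    Chn H F B lo hi h1 y1 → Chn H F B lo hi h2 y2 →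
    (∀ j : ℤ, 0 ≤ j → j ≤ n0 + 2 →
      200 * ((Δ : ℝ) + B) ≤ |H.Φ (h1 (k0 + j)) (κ * y2 la) (κ * y2 lb)|) →
    ∃ l0 : ℤ, Mt H Δ B n0 h1 y1 h2 y2 κ (k0 + 1) l0 ∨
      Mt H Δ B n0 h1 y1 (fun k => h2 (-k)) (fun k => y2 (-k - 1)) κ (k0 + 1) l0

/-- Data of a word with syllables `s k * r ^ e k`, with the point `x` close to the hub of
`r ^ n` and moved little by all `s k`. -/
structure WD {G : Type*} [Group G] {d : G → G → ℕ} {X : Set G} {C : ℕ} (H : Hubs d X C)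
    (F : Set G) (n B B2 : ℕ) (lo hi : ℝ) (r x : G) (s : ℤ → G) (e : ℤ → ℤ) (g : ℤ → G) :
    Prop where
  mem : r ^ n ∈ F
  s1 : ∀ k, s k * r ^ n * (s k)⁻¹ ≠ r ^ n
  s2 : ∀ k, s k * r ^ n * (s k)⁻¹ ≠ (r ^ n)⁻¹
  near : Nh d B (H.Z (r ^ n)) x
  move : ∀ k, d x (s k * x) ≤ B2
  lo : ∀ k, lo ≤ |(e k : ℝ)| * H.T (r ^ n) / n
  hi : ∀ k, |(e k : ℝ)| * H.T (r ^ n) / n ≤ H.T (r ^ n) / 2 - hi
  rc : ∀ k, g (k + 1) = g k * (s k * r ^ e k)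

/-- Part KE: words give chains. -/
def StKE : Prop :=
  ∀ (G : Type) [Group G] (d : G → G → ℕ) (δ C Δ : ℕ) (X F : Set G) (H : Hubs d X C) (Tm : ℝ)
    (n B B2 : ℕ) (lo hi : ℝ) (r x : G) (s : ℤ → G) (e : ℤ → ℤ) (g : ℤ → G), HypG d δ →
    100 * δ ≤ C → Fam H F Δ Tm → 1 ≤ n → WD H F n B B2 lo hi r x s e g →
    Chn H F (B + B2) (lo - 3 * C - B2) (hi - 3 * C - B2) (fun k => g k * r ^ n * (g k)⁻¹)
      (fun k => g k * x) ∧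
    (∀ k, |H.Φ (g (k + 1) * r ^ n * (g (k + 1))⁻¹) (g k * x) (g (k + 1) * x) -
      (e k : ℝ) * H.T (r ^ n) / n| ≤ 3 * C + B2) ∧
    ∀ p : ℕ, (∀ k, s (k + p) = s k) → (∀ k, e (k + p) = e k) →
      ∀ k, g (k + p) = g p * (g 0)⁻¹ * g k

/-- The two-sided periodic exponent sequence. -/
def ee (h M0 lam : ℕ) (k : ℤ) : ℤ := (M0 : ℤ) * (lam : ℤ) ^ (k % (h : ℤ)).toNat

/-- Part KF: algebra of matched words. -/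
def StKF : Prop :=
  ∀ (G : Type) [Group G] (d : G → G → ℕ) (δ C Δ n q A L Ax L1 L2 km h M0 lam Θ R M1 : ℕ)
    (F : Set G) (H : Hubs d (Lx d (100 * C)) C) (Tm : ℝ) (S1 r1 S2 r2 : G) (a1 a2 : ℤ)
    (x1 x2 κ : G) (g1 g2 : ℤ → G) (k0 l0 : ℤ),
    Stage d δ n q A L → Alg H n q L Ax → Rels H F n L1 Δ Tm → Odd n → 3 ≤ n →
    100 * δ ≤ C → Cst3 C Δ R n q L1 L2 km h M0 lam Θ M1 Tm → 3 ≤ h →
    Pair H n L1 L2 km S1 r1 a1 → Pair H n L1 L2 km S2 r2 a2 → Fp d n L1 ⊆ F →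
    (∀ j : ℤ, d x1 (S1 ^ j * x1) ≤ C) → Nh d L2 (H.Z (r1 ^ n)) x1 →
    (∀ j : ℤ, d x2 (S2 ^ j * x2) ≤ C) → Nh d L2 (H.Z (r2 ^ n)) x2 →
    (∀ k, g1 (k + 1) = g1 k * (S1 * r1 ^ (a1 * ee h M0 lam k))) →
    (∀ k, g2 (k + 1) = g2 k * (S2 * r2 ^ (a2 * ee h M0 lam k))) →
    (Mt H Δ (L2 + C) 3 (fun k => g1 k * r1 ^ n * (g1 k)⁻¹) (fun k => g1 k * x1)
        (fun k => g2 k * r2 ^ n * (g2 k)⁻¹) (fun k => g2 k * x2) κ k0 l0 →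
      g1 h * (g1 0)⁻¹ = κ * (g2 h * (g2 0)⁻¹) * κ⁻¹ ∧
      (∃ (x : G) (ε : ℤ), (ε = 1 ∨ ε = -1) ∧ a1 = ε * a2 ∧ x * r2 ^ ε * x⁻¹ = r1 ∧
        x * S2 * x⁻¹ = S1) ∧
      (S1 = S2 → r1 = r2 → a1 = a2 → (g1 0)⁻¹ * κ * g2 0 ∈
        Subgroup.zpowers (ww S1 r1 a1 h (fun k => (M0 : ℤ) * lam ^ k)))) ∧
    ¬ Mt H Δ (L2 + C) 3 (fun k => g1 k * r1 ^ n * (g1 k)⁻¹) (fun k => g1 k * x1)
        (fun k => g2 (-k) * r2 ^ n * (g2 (-k))⁻¹) (fun k => g2 (-k - 1) * x2) κ k0 l0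

/-- Part KG: two word relators whose axes run together are equal. -/
def StKG : Prop :=
  ∃ M1 : ℕ, 1 ≤ M1 ∧
    ∀ (G G' : Type) [Group G] [Group G'] (d : G → G → ℕ) (d' : G' → G' → ℕ)
    (C Δ R n q A L Ax L1 L2 km h M0 lam Θ : ℕ) (F : Set G) (H : Hubs d (Lx d (100 * C)) C)
    (H' : Hubs d' (Lx d' (100 * C)) C) (Tm : ℝ) (π : G →* G') (S1 r1 S2 r2 : G) (a1 a2 : ℤ)
    (t1 t2 : G'),
    Stage d 2000 n q A L → Alg H n q L Ax → 10 ^ 5 * q * L * C ≤ Ax →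
    Rels H F n L1 Δ Tm → Cst2 2000 C Δ R n q L Ax L1 M1 Tm →
    Quo H F R π d' → Fp d n L1 ⊆ F → Stage d' 2000 n q A L →
    Cst3 C Δ R n q L1 L2 km h M0 lam Θ M1 Tm → Pair H n L1 L2 km S1 r1 a1 →
    Pair H n L1 L2 km S2 r2 a2 →
    ∀ w1 w2 : G', w1 = t1 * π (ww S1 r1 a1 h (fun k => (M0 : ℤ) * lam ^ k)) * t1⁻¹ →
      w2 = t2 * π (ww S2 r2 a2 h (fun k => (M0 : ℤ) * lam ^ k)) * t2⁻¹ →
      w1 ∈ Lx d' (100 * C) ∧ Tm ≤ H'.T w1 ∧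
      ∀ a b : G', 60 * L1 ≤ d' a b → Nh d' (3 * L1) (H'.Z w1) a → Nh d' (3 * L1) (H'.Z w1) b →
        Nh d' (3 * L1) (H'.Z w2) a → Nh d' (3 * L1) (H'.Z w2) b →
        w1 = w2 ∧
        (∃ (x : G) (ε : ℤ), (ε = 1 ∨ ε = -1) ∧ a1 = ε * a2 ∧ x * r2 ^ ε * x⁻¹ = r1 ∧
          x * S2 * x⁻¹ = S1) ∧
        (S1 = S2 → r1 = r2 → a1 = a2 →
          t1⁻¹ * t2 ∈ Subgroup.zpowers (π (ww S1 r1 a1 h (fun k => (M0 : ℤ) * lam ^ k))))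

end Pool.Agent.Helper74.TB.K2
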