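import Pool.Agent.Helper74.TB.StJK

/-!
MP_7d16da_al, Part K split into modules (statements, by helper14).
Plan: /team-store/MP_7d16da-plan.md, (K0)-(K9); details of the split: /team-store/MP_7d16da-K.md
-/

set_option autoImplicit false

namespace Pool.Agent.Helper74.TB

open Pool.Agent.Helper74.MH

/-- A bi-infinite chain of hubs `f k` with incoming gates `y k` and outgoing gates `z k`; `θ k` is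
the angle (signed length) at `f k`. -/
structure HChain {G : Type*} [Group G] {d : G → G → ℕ} {X : Set G} {C : ℕ} (H : Hubs d X C)
    (F : Set G) (D0 Θ : ℕ) (f z y : ℤ → G) (θ : ℤ → ℝ) : Prop where
  hf : ∀ k, f k ∈ F
  hz : ∀ k, z k ∈ H.Z (f k)
  hy : ∀ k, y k ∈ H.Z (f k)
  hD : ∀ k, d (z k) (y (k + 1)) ≤ D0
  g1 : ∀ k, |H.Φ (f k) (z k) (y (k + 1))| ≤ 3 * C
  g2 : ∀ k, |H.Φ (f (k + 1)) (z k) (y (k + 1))| ≤ 3 * C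
  ang : ∀ k, |H.Φ (f k) (y k) (z k) - θ k| ≤ 3 * C
  ne1 : ∀ k, f (k + 1) ≠ f k ∧ f (k + 1) ≠ (f k)⁻¹
  ne2 : ∀ k, f (k + 2) ≠ f k ∧ f (k + 2) ≠ (f k)⁻¹
  half : ∀ k, 2 * |θ k| ≤ H.T (f k)
  iso : ∀ k, 4 * (Θ : ℝ) ≤ |θ k| ∨ 4 * (Θ : ℝ) ≤ |θ (k + 1)|

/-- Consequences for a chain of hubs (`cK = 10 (Δ + D0)`). -/
structure HOut {G : Type*} [Group G] {d : G → G → ℕ} {X : Set G} {C : ℕ} (H : Hubs d X C)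
    (F : Set G) (Δ D0 : ℕ) (f z : ℤ → G) (θ : ℤ → ℝ) : Prop where
  dist : ∀ k l, k ≠ l → f k ≠ f l ∧ f k ≠ (f l)⁻¹
  on : ∀ i k j, i < k → k ≤ j → |H.Φ (f k) (z i) (z j) - θ k| ≤ 10 * ((Δ : ℝ) + D0)
  off : ∀ i j, i ≤ j → ∀ g ∈ F, (∀ k, i < k → k ≤ j → g ≠ f k ∧ g ≠ (f k)⁻¹) →
    |H.Φ g (z i) (z j)| ≤ 10 * ((Δ : ℝ) + D0)
  btw : ∀ i k j, i < k → k < j → ∀ a ∈ H.Z (f i), ∀ b ∈ H.Z (f j),
    |H.Φ (f k) a b - θ k| ≤ 10 * ((Δ : ℝ) + D0)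
  tight : ∀ i j, ∀ g ∈ F, |H.Φ g (z i) (z j)| ≤ H.T g / 2 + 10 * ((Δ : ℝ) + D0)

/-- Module KB: a chain of hubs is a quasi-geodesic. -/
def StKB : Prop :=
  ∀ (G : Type) [Group G] (d : G → G → ℕ) (δ C Δ D0 Θ : ℕ) (X F : Set G) (H : Hubs d X C)
    (Tm : ℝ), HypG d δ → 100 * δ ≤ C → Fam H F Δ Tm → 10 ^ 3 * (Δ + D0) ≤ Θ →
    ∀ (f z y : ℤ → G) (θ : ℤ → ℝ), HChain H F D0 Θ f z y θ → HOut H F Δ D0 f z θ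

/-- The hypotheses of Part K. -/
structure KHyp {G G' : Type} [Group G] [Group G'] (d : G → G → ℕ) (d' : G' → G' → ℕ)
    (C Δ R n q A L Ax L1 L2 km h M0 lam Θ M1 : ℕ) (F : Set G)
    (H : Hubs d (Lx d (100 * C)) C) (H' : Hubs d' (Lx d' (100 * C)) C) (Tm : ℝ)
    (π : G →* G') : Prop where
  hS : Stage d 2000 n q A L
  hA : Alg H n q L Ax
  hAx : 10 ^ 5 * q * L * C ≤ Ax
  hR : Rels H F n L1 Δ Tm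
  hc : Cst2 2000 C Δ R n q L Ax L1 M1 Tm
  hRL : R ≤ 10 ^ 6 * L1
  hQ : Quo H F R π d'
  hFp : Fp d n L1 ⊆ F
  hS' : Stage d' 2000 n q A L
  hA' : Alg H' n q L Ax
  hR' : Rels H' (Fp d' n L1) n L1 Δ Tm
  hc3 : Cst3 C Δ R n q L1 L2 km h M0 lam Θ M1 Tm
  hM1 : 1 ≤ M1

/-- The chain of a pair `S, r, a`: `g (k+1) = g k * S * r ^ b k`, hubs `g k * r ^ n * (g k)⁻¹`,
gates `g k * u` (outgoing) and `g (k-1) * v` (incoming). -/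
structure WCh {G G' : Type} [Group G] [Group G'] {d : G → G → ℕ} {C : ℕ}
    (H : Hubs d (Lx d (100 * C)) C) (F : Set G) (π : G →* G') (n q L2 h M0 lam Θ : ℕ)
    (S r : G) (a : ℤ) (g : ℤ → G) (b : ℤ → ℤ) (u v : G) (θ : ℤ → ℝ) : Prop where
  g0 : g 0 = 1
  gs : ∀ k, g (k + 1) = g k * (S * r ^ b k)
  gp : ∀ k, g (k + h) = g h * g k
  bp : ∀ k, b (k + h) = b k
  be : ∀ k : ℕ, k < h → (n : ℤ) ∣ b k - a * ((M0 : ℤ) * (lam : ℤ) ^ k)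
  word : π (g h) = π (ww S r a h (fun k => (M0 : ℤ) * (lam : ℤ) ^ k))
  tr : ∀ t : G, HChain H F (2 * L2 + C) Θ (fun k => t * g k * r ^ n * (t * g k)⁻¹)
    (fun k => t * g k * u) (fun k => t * g (k - 1) * v) θ
  ang : ∃ β : ℝ, ∀ k, θ (k + 1) = β + b k * (H.T (r ^ n) / n)
  per : ∀ k, θ (k + h) = θ k
  circ : ∀ k l, ¬ (h : ℤ) ∣ k - l → ∀ m : ℤ, 10 * (Θ : ℝ) ≤ |θ k - θ l + m * H.T (r ^ n)|
  tau : (n : ℝ) ≤ q * H.T (r ^ n)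

/-- Module KA: every pair has a chain. -/
def StKA : Prop :=
  ∀ (G G' : Type) [Group G] [Group G'] (d : G → G → ℕ) (d' : G' → G' → ℕ)
    (C Δ R n q A L Ax L1 L2 km h M0 lam Θ M1 : ℕ) (F : Set G) (H : Hubs d (Lx d (100 * C)) C)
    (H' : Hubs d' (Lx d' (100 * C)) C) (Tm : ℝ) (π : G →* G'),
    KHyp d d' C Δ R n q A L Ax L1 L2 km h M0 lam Θ M1 F H H' Tm π →
    ∀ (S r : G) (a : ℤ), Pair H n L1 L2 km S r a →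
      ∃ (g : ℤ → G) (b : ℤ → ℤ) (u v : G) (θ : ℤ → ℝ),
        WCh H F π n q L2 h M0 lam Θ S r a g b u v θ

/-- The axis of the word of a pair follows the chain. -/
structure WAx {G G' : Type} [Group G] [Group G'] {d' : G' → G' → ℕ} {C : ℕ}
    (H' : Hubs d' (Lx d' (100 * C)) C) (π : G →* G') (L1 h : ℕ) (Tm : ℝ)
    (g : ℤ → G) (u : G) : Prop where
  mem : π (g h) ∈ Lx d' (100 * C)
  big : Tm ≤ H'.T (π (g h))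
  near : ∀ k, Nh d' L1 (H'.Z (π (g h))) (π (g k * u))
  cov : ∀ p ∈ H'.Z (π (g h)), ∃ k, d' (π (g k * u)) p ≤ L1
  step : ∀ k, 10 ^ 6 * d' (π (g k * u)) (π (g (k + 1) * u)) ≤ L1
  far : ∀ k l : ℤ, k + h ≤ l → 100 * L1 < d' (π (g k * u)) (π (g l * u))

/-- Module KC: displacement of the words. -/
def StKC : Prop :=
  ∃ M1 : ℕ, 1 ≤ M1 ∧ ∀ (G G' : Type) [Group G] [Group G'] (d : G → G → ℕ) (d' : G' → G' → ℕ)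
    (C Δ R n q A L Ax L1 L2 km h M0 lam Θ : ℕ) (F : Set G) (H : Hubs d (Lx d (100 * C)) C)
    (H' : Hubs d' (Lx d' (100 * C)) C) (Tm : ℝ) (π : G →* G'),
    KHyp d d' C Δ R n q A L Ax L1 L2 km h M0 lam Θ M1 F H H' Tm π →
    ∀ (S r : G) (a : ℤ) (g : ℤ → G) (b : ℤ → ℤ) (u v : G) (θ : ℤ → ℝ),
      Pair H n L1 L2 km S r a → WCh H F π n q L2 h M0 lam Θ S r a g b u v θ →
      WAx H' π L1 h Tm g u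

/-- Module KD: two chains of hubs which are close in the quotient have common hubs in `G`. -/
def StKD : Prop :=
  ∀ (G G' : Type) [Group G] [Group G'] (d : G → G → ℕ) (d' : G' → G' → ℕ)
    (δ C Δ R D0 Θ E : ℕ) (X F : Set G) (H : Hubs d X C) (Tm : ℝ) (π : G →* G'),
    HypG d δ → Fam H F Δ Tm → Cst δ C Δ R (100 * Δ) Tm → Quo H F R π d' →
    10 ^ 3 * (Δ + D0) ≤ Θ → 4000 * ((Δ : ℝ) + D0) ≤ Tm →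
    ∀ (f1 z1 y1 : ℤ → G) (θ1 : ℤ → ℝ) (f2 z2 y2 : ℤ → G) (θ2 : ℤ → ℝ),
    HChain H F D0 Θ f1 z1 y1 θ1 → HOut H F Δ D0 f1 z1 θ1 →
    HChain H F D0 Θ f2 z2 y2 θ2 → HOut H F Δ D0 f2 z2 θ2 →
    ∀ ka kb la lb s s' : ℤ, d' (π (z1 ka)) (π (z2 la)) ≤ E → d' (π (z1 kb)) (π (z2 lb)) ≤ E →
      ka + 2 < s → s ≤ s' → s' + 2 < kb →
      (∀ k, s - 2 ≤ k → k ≤ s' + 2 → 5 * (Θ : ℝ) ≤ |θ1 k| ∧
        2 * |θ1 k| + 10 * (Θ : ℝ) ≤ H.T (f1 k) ∧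
        E + 4000 ≤ d' (π (z1 k)) (π (z1 ka)) ∧ E + 4000 ≤ d' (π (z1 k)) (π (z1 kb))) →
      ∃ κ ∈ Subgroup.closure F, ∀ k, s ≤ k → k ≤ s' → ∃ l, min la lb < l ∧ l ≤ max la lb ∧
        4 * (Θ : ℝ) ≤ |θ2 l| ∧ (f1 k = κ * f2 l * κ⁻¹ ∨ f1 k = (κ * f2 l * κ⁻¹)⁻¹)

/-- Module KE: matching of the hubs of two chains gives matching of the exponents. -/
def StKE : Prop :=
  ∀ (G G' : Type) [Group G] [Group G'] (d : G → G → ℕ) (d' : G' → G' → ℕ)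
    (C Δ R n q A L Ax L1 L2 km h M0 lam Θ M1 : ℕ) (F : Set G) (H : Hubs d (Lx d (100 * C)) C)
    (H' : Hubs d' (Lx d' (100 * C)) C) (Tm : ℝ) (π : G →* G'),
    KHyp d d' C Δ R n q A L Ax L1 L2 km h M0 lam Θ M1 F H H' Tm π →
    ∀ (S1 r1 : G) (a1 : ℤ) (g1 : ℤ → G) (b1 : ℤ → ℤ) (u1 v1 : G) (θ1 : ℤ → ℝ)
      (S2 r2 : G) (a2 : ℤ) (g2 : ℤ → G) (b2 : ℤ → ℤ) (u2 v2 : G) (θ2 : ℤ → ℝ),
      Pair H n L1 L2 km S1 r1 a1 → WCh H F π n q L2 h M0 lam Θ S1 r1 a1 g1 b1 u1 v1 θ1 →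
      Pair H n L1 L2 km S2 r2 a2 → WCh H F π n q L2 h M0 lam Θ S2 r2 a2 g2 b2 u2 v2 θ2 →
      ∀ t1 t2 : G,
      HOut H F Δ (2 * L2 + C) (fun k => t1 * g1 k * r1 ^ n * (t1 * g1 k)⁻¹)
        (fun k => t1 * g1 k * u1) θ1 →
      HOut H F Δ (2 * L2 + C) (fun k => t2 * g2 k * r2 ^ n * (t2 * g2 k)⁻¹)
        (fun k => t2 * g2 k * u2) θ2 →
      ∀ s l0 : ℤ, (∀ k, s ≤ k → k ≤ s + 100 → ∃ l, l0 < l ∧ l < l0 + h ∧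
        4 * (Θ : ℝ) ≤ |θ2 l| ∧
        (t1 * g1 k * r1 ^ n * (t1 * g1 k)⁻¹ = t2 * g2 l * r2 ^ n * (t2 * g2 l)⁻¹ ∨
          t1 * g1 k * r1 ^ n * (t1 * g1 k)⁻¹ = (t2 * g2 l * r2 ^ n * (t2 * g2 l)⁻¹)⁻¹)) →
      ∃ (k l ε : ℤ), (h : ℤ) ∣ k - l ∧ (ε = 1 ∨ ε = -1) ∧ a1 = ε * a2 ∧
        ∀ i, 0 ≤ i → i ≤ 2 → t1 * g1 (k + i) * r1 ^ n * (t1 * g1 (k + i))⁻¹ =
          (t2 * g2 (l + i) * r2 ^ n * (t2 * g2 (l + i))⁻¹) ^ ε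

/-- Module KF: algebra of the frames. -/
def StKF : Prop :=
  ∀ (G G' : Type) [Group G] [Group G'] (d : G → G → ℕ) (d' : G' → G' → ℕ)
    (C Δ R n q A L Ax L1 L2 km h M0 lam Θ M1 : ℕ) (F : Set G) (H : Hubs d (Lx d (100 * C)) C)
    (H' : Hubs d' (Lx d' (100 * C)) C) (Tm : ℝ) (π : G →* G'),
    KHyp d d' C Δ R n q A L Ax L1 L2 km h M0 lam Θ M1 F H H' Tm π →
    ∀ (S1 r1 : G) (a1 : ℤ) (g1 : ℤ → G) (b1 : ℤ → ℤ) (u1 v1 : G) (θ1 : ℤ → ℝ)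
      (S2 r2 : G) (a2 : ℤ) (g2 : ℤ → G) (b2 : ℤ → ℤ) (u2 v2 : G) (θ2 : ℤ → ℝ),
      Pair H n L1 L2 km S1 r1 a1 → WCh H F π n q L2 h M0 lam Θ S1 r1 a1 g1 b1 u1 v1 θ1 →
      Pair H n L1 L2 km S2 r2 a2 → WCh H F π n q L2 h M0 lam Θ S2 r2 a2 g2 b2 u2 v2 θ2 →
      ∀ (t1 t2 : G) (k l ε : ℤ), (h : ℤ) ∣ k - l → (ε = 1 ∨ ε = -1) → a1 = ε * a2 →
      (∀ i, 0 ≤ i → i ≤ 2 → t1 * g1 (k + i) * r1 ^ n * (t1 * g1 (k + i))⁻¹ =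
          (t2 * g2 (l + i) * r2 ^ n * (t2 * g2 (l + i))⁻¹) ^ ε) →
      π t1 * π (g1 h) * (π t1)⁻¹ = π t2 * π (g2 h) * (π t2)⁻¹ ∧
      (S1 = S2 → r1 = r2 → a1 = a2 → g1 = g2 →
        (π t1)⁻¹ * π t2 ∈ Subgroup.zpowers (π (g1 h)))

/-- Module KW: the window. Two words whose axes are close for a length `60 L1` in the quotient
have chains satisfying the hypotheses of `StKD`. -/
def StKW : Prop :=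
  ∀ (G G' : Type) [Group G] [Group G'] (d : G → G → ℕ) (d' : G' → G' → ℕ)
    (C Δ R n q A L Ax L1 L2 km h M0 lam Θ M1 : ℕ) (F : Set G) (H : Hubs d (Lx d (100 * C)) C)
    (H' : Hubs d' (Lx d' (100 * C)) C) (Tm : ℝ) (π : G →* G'),
    KHyp d d' C Δ R n q A L Ax L1 L2 km h M0 lam Θ M1 F H H' Tm π →
    ∀ (S1 r1 : G) (a1 : ℤ) (g1 : ℤ → G) (b1 : ℤ → ℤ) (u1 v1 : G) (θ1 : ℤ → ℝ)
      (S2 r2 : G) (a2 : ℤ) (g2 : ℤ → G) (b2 : ℤ → ℤ) (u2 v2 : G) (θ2 : ℤ → ℝ),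
      WCh H F π n q L2 h M0 lam Θ S1 r1 a1 g1 b1 u1 v1 θ1 → WAx H' π L1 h Tm g1 u1 →
      WCh H F π n q L2 h M0 lam Θ S2 r2 a2 g2 b2 u2 v2 θ2 → WAx H' π L1 h Tm g2 u2 →
      ∀ (t1 t2 : G) (a b : G'), 60 * L1 ≤ d' a b →
      Nh d' (3 * L1) (H'.Z (π t1 * π (g1 h) * (π t1)⁻¹)) a →
      Nh d' (3 * L1) (H'.Z (π t1 * π (g1 h) * (π t1)⁻¹)) b →
      Nh d' (3 * L1) (H'.Z (π t2 * π (g2 h) * (π t2)⁻¹)) a →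
      Nh d' (3 * L1) (H'.Z (π t2 * π (g2 h) * (π t2)⁻¹)) b →
      ∃ ka kb la lb s : ℤ,
        d' (π (t1 * g1 ka * u1)) (π (t2 * g2 la * u2)) ≤ 9 * L1 ∧
        d' (π (t1 * g1 kb * u1)) (π (t2 * g2 lb * u2)) ≤ 9 * L1 ∧
        ka + 2 < s ∧ s + 100 + 2 < kb ∧ max la lb < min la lb + h ∧
        ∀ k, s - 2 ≤ k → k ≤ s + 100 + 2 → 5 * (Θ : ℝ) ≤ |θ1 k| ∧
          2 * |θ1 k| + 10 * (Θ : ℝ) ≤ H.T (t1 * g1 k * r1 ^ n * (t1 * g1 k)⁻¹) ∧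
          9 * L1 + 4000 ≤ d' (π (t1 * g1 k * u1)) (π (t1 * g1 ka * u1)) ∧
          9 * L1 + 4000 ≤ d' (π (t1 * g1 k * u1)) (π (t1 * g1 kb * u1))

/-- The alignment lemma. -/
def StKal : Prop :=
  ∀ (G G' : Type) [Group G] [Group G'] (d : G → G → ℕ) (d' : G' → G' → ℕ)
    (C Δ R n q A L Ax L1 L2 km h M0 lam Θ M1 : ℕ) (F : Set G) (H : Hubs d (Lx d (100 * C)) C)
    (H' : Hubs d' (Lx d' (100 * C)) C) (Tm : ℝ) (π : G →* G'),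
    KHyp d d' C Δ R n q A L Ax L1 L2 km h M0 lam Θ M1 F H H' Tm π →
    ∀ (S1 r1 : G) (a1 : ℤ) (g1 : ℤ → G) (b1 : ℤ → ℤ) (u1 v1 : G) (θ1 : ℤ → ℝ)
      (S2 r2 : G) (a2 : ℤ) (g2 : ℤ → G) (b2 : ℤ → ℤ) (u2 v2 : G) (θ2 : ℤ → ℝ),
      Pair H n L1 L2 km S1 r1 a1 → WCh H F π n q L2 h M0 lam Θ S1 r1 a1 g1 b1 u1 v1 θ1 →
      WAx H' π L1 h Tm g1 u1 →
      Pair H n L1 L2 km S2 r2 a2 → WCh H F π n q L2 h M0 lam Θ S2 r2 a2 g2 b2 u2 v2 θ2 →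
      WAx H' π L1 h Tm g2 u2 →
      ∀ (t1 t2 : G) (a b : G'), 60 * L1 ≤ d' a b →
      Nh d' (3 * L1) (H'.Z (π t1 * π (g1 h) * (π t1)⁻¹)) a →
      Nh d' (3 * L1) (H'.Z (π t1 * π (g1 h) * (π t1)⁻¹)) b →
      Nh d' (3 * L1) (H'.Z (π t2 * π (g2 h) * (π t2)⁻¹)) a →
      Nh d' (3 * L1) (H'.Z (π t2 * π (g2 h) * (π t2)⁻¹)) b →
      π t1 * π (g1 h) * (π t1)⁻¹ = π t2 * π (g2 h) * (π t2)⁻¹ ∧
      (S1 = S2 → r1 = r2 → a1 = a2 → g1 = g2 →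
        (π t1)⁻¹ * π t2 ∈ Subgroup.zpowers (π (g1 h)))

end Pool.Agent.Helper74.TB
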