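import Pool.Agent.Helper74.TB.StDE

/-! MP_7d16da_al: stages, relator families, statements of Parts X, F, G, H. -/

set_option autoImplicit false

namespace Pool.Agent.Helper74.TB

open Pool.Agent.Helper74.MH

/-- Properties of a stage group. -/
structure Stage {G : Type*} [Group G] (d : G → G → ℕ) (δ n q A L : ℕ) : Prop
    extends HypG d δ where
  tor : ∀ g : G, g ^ n = 1 ∨ ∀ (x : G) (m : ℕ), m ≤ q * d x (g ^ m * x)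
  acyl : ∀ g h p p', A ≤ d p p' → d p (g * p) ≤ L → d p' (g * p') ≤ L →
    d p (h * p) ≤ L → d p' (h * p') ≤ L → Commute g h
  acylt : ∀ g p p', g ^ n = 1 → A ≤ d p p' → d p (g * p) ≤ L → d p' (g * p') ≤ L → g = 1
  cyc : ∀ g : G, g ^ n = 1 → g ≠ 1 → ∃ c, ∀ x, Commute x g → x ∈ Subgroup.zpowers c
  mal : ∀ g x t : G, g ^ n = 1 → g ≠ 1 → x ≠ 1 → Commute x g → Commute (t * x * t⁻¹) g →
    Commute t g

/-- Algebraic consequences of the stage properties (Part X). -/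
structure Alg {G : Type*} [Group G] {d : G → G → ℕ} {C : ℕ} (H : Hubs d (Lx d (100 * C)) C)
    (n q L Ax : ℕ) : Prop where
  ext : ∀ (g h a b : G) (ρ : ℕ), L ≤ ρ → Ax + 100 * ρ ≤ d a b → d a (g * a) ≤ ρ →
    d b (g * b) ≤ ρ → d a (h * a) ≤ ρ → d b (h * b) ≤ ρ → Commute g h
  extt : ∀ (g a b : G) (ρ : ℕ), g ^ n = 1 → L ≤ ρ → Ax + 100 * ρ ≤ d a b → d a (g * a) ≤ ρ →
    d b (g * b) ≤ ρ → g = 1
  cent : ∀ g : G, g ^ n ≠ 1 → ∃ r, ∀ y, Commute y g ↔ y ∈ Subgroup.zpowers r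
  ninv : ∀ (g t : G) (a b : ℤ), g ^ n ≠ 1 → a ≠ 0 → t * g ^ a * t⁻¹ = g ^ b → Commute t g
  ctr : ∀ g : G, g ^ n = 1 → ∃ x, ∀ j : ℤ, d x (g ^ j * x) ≤ C
  win : ∀ (g a b p : G) (ρ : ℕ), g ^ n ≠ 1 → L ≤ ρ → Ax + 100 * ρ ≤ d a b → d a (g * a) ≤ ρ →
    d b (g * b) ≤ ρ → d a p + d p b = d a b → Ax + 120 * ρ ≤ 4 * d a p →
    Ax + 120 * ρ ≤ 4 * d p b → Nh d (10 * C) (H.Z (g ^ (100 * C * q + 1))) p

/-- Part X. -/
def StX : Prop :=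
  ∀ (G : Type) [Group G] (d : G → G → ℕ) (δ C n q A L Ax : ℕ)
    (H : Hubs d (Lx d (100 * C)) C), Stage d δ n q A L → Odd n → 100 * δ ≤ C →
    1000 * C ≤ L → 1 ≤ q → A + 10 ^ 5 * q * L * C ≤ Ax → Alg H n q L Ax

/-- Relator families for the step. -/
structure Rels {G : Type*} [Group G] {d : G → G → ℕ} {X : Set G} {C : ℕ} (H : Hubs d X C)
    (F : Set G) (n L1 Δ : ℕ) (Tm : ℝ) : Prop extends Fam H F Δ Tm where
  short : ∀ g : G, g ^ n ≠ 1 → (∃ x, d x (g * x) ≤ L1) → ∃ f ∈ F, Commute g f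
  cent : ∀ f ∈ F, ∀ g, Commute g f → ∃ m : ℤ, g ^ n = f ^ m

/-- The power relators: `n`-th powers of generators of centralizers of short non-torsion
elements. -/
def Fp {G : Type*} [Group G] (d : G → G → ℕ) (n L1 : ℕ) : Set G :=
  {f | ∃ g r : G, g ^ n ≠ 1 ∧ (∃ x, d x (g * x) ≤ L1) ∧
    (∀ y, Commute y g ↔ y ∈ Subgroup.zpowers r) ∧ f = r ^ n}

/-- Part P: the power relators form a relator family. -/
def StP : Prop :=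
  ∀ (G : Type) [Group G] (d : G → G → ℕ) (δ C n q A L Ax L1 Δ : ℕ) (Tm : ℝ)
    (H : Hubs d (Lx d (100 * C)) C),
    Stage d δ n q A L → Odd n → 100 * δ ≤ C → 1 ≤ C → 1000 * C ≤ L → 1 ≤ q → Alg H n q L Ax →
    L ≤ L1 → Ax ≤ L1 → 300 * L1 ≤ Δ → (q : ℝ) * Tm ≤ n → 100 * C * q ≤ n →
    Rels H (Fp d n L1) n L1 Δ Tm ∧
    ∀ f ∈ Fp d n L1, ∃ r : G, f = r ^ n ∧ (∀ y, Commute y f ↔ y ∈ Subgroup.zpowers r) ∧
      (∀ z ∈ H.Z f, d z (r * z) ≤ L1 + 10 * C)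

/-- Constants of the step. -/
structure Cst2 (δ C Δ R n q L Ax L1 M1 : ℕ) (Tm : ℝ) : Prop where
  cst : Cst δ C Δ R (100 * Δ) Tm
  odd : Odd n
  hn : 3 ≤ n
  hq : 10 * R * M1 ≤ q * L1
  hL : 1000 * C ≤ L
  hL1 : L ≤ L1
  hAx : Ax ≤ L1
  hΔ : 300 * L1 ≤ Δ
  hM : (M1 : ℝ) * R ≤ Tm

/-- Part F0: overlap of an axis with a hub. -/
def StF0 : Prop :=
  ∀ (G : Type) [Group G] (d : G → G → ℕ) (δ C Δ n q A L Ax L1 : ℕ) (F : Set G)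
    (H : Hubs d (Lx d (100 * C)) C) (Tm : ℝ), Stage d δ n q A L → Alg H n q L Ax →
    Rels H F n L1 Δ Tm → 100 * δ ≤ C → Odd n → 3 ≤ n →
    ∀ g ∈ Lx d (100 * C), ∀ f ∈ F, ¬ Commute g f → ∀ x ∈ H.Z g, ∀ y ∈ H.Z g,
      |H.Φ f x y| ≤ H.T g + Δ + 500 * C

/-- Part F1: translation length of elements with tight axis. -/
def StTL : Prop :=
  ∃ M1 : ℕ, ∀ (G G' : Type) [Group G] [Group G'] (d : G → G → ℕ) (d' : G' → G' → ℕ)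
    (δ C Δ R n q A L Ax L1 : ℕ) (F : Set G) (H : Hubs d (Lx d (100 * C)) C) (c Tm : ℝ)
    (π : G →* G'), Stage d δ n q A L → Alg H n q L Ax → Rels H F n L1 Δ Tm →
    Cst2 δ C Δ R n q L Ax L1 M1 Tm → Quo H F R π d' → 0 ≤ c → 200 * c ≤ Tm →
    ∀ g ∈ Lx d (100 * C), (∀ f ∈ F, ¬ Commute g f) → ∀ l : ℕ, l ≤ R → (l : ℝ) ≤ 2 * H.T g →
      (∀ x ∈ H.Z g, ∀ m : ℕ, Tight H F (fun f => H.T f / 2) c x (g ^ m * x)) →
      ∀ (a : G') (m : ℕ), l * m ≤ 10 * R * M1 * d' a (π g ^ m * a)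

/-- Part F2: classification of the elements of the quotient. -/
def StF : Prop :=
  ∃ M1 : ℕ, ∀ (G G' : Type) [Group G] [Group G'] (d : G → G → ℕ) (d' : G' → G' → ℕ)
    (δ C Δ R n q A L Ax L1 : ℕ) (F : Set G) (H : Hubs d (Lx d (100 * C)) C) (Tm : ℝ)
    (π : G →* G'), Stage d δ n q A L → Alg H n q L Ax → Rels H F n L1 Δ Tm →
    Cst2 δ C Δ R n q L Ax L1 M1 Tm → Quo H F R π d' →
    ∀ a : G', (∃ g, g ^ n = 1 ∧ π g = a) ∨ (∃ f ∈ F, ∃ y, Commute y f ∧ π y = a) ∨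
      ∀ (x : G') (m : ℕ), m ≤ q * d' x (a ^ m * x)

/-- Part G: acylindricity of the quotient. -/
def StG : Prop :=
  ∀ (C L : ℕ), 100 * 2000 ≤ C → 1000 * C ≤ L → ∃ T0 : ℕ,
    ∀ (G G' : Type) [Group G] [Group G'] (d : G → G → ℕ) (d' : G' → G' → ℕ)
    (Δ R n q A Ax L1 M1 : ℕ) (F : Set G) (H : Hubs d (Lx d (100 * C)) C) (Tm : ℝ)
    (π : G →* G'), Stage d 2000 n q A L → Alg H n q L Ax → Rels H F n L1 Δ Tm →
    Cst2 2000 C Δ R n q L Ax L1 M1 Tm → Quo H F R π d' → (T0 : ℝ) * R ≤ Tm →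
    (∀ g h p p', 10 ^ 6 * L ≤ d' p p' → d' p (g * p) ≤ L → d' p' (g * p') ≤ L →
      d' p (h * p) ≤ L → d' p' (h * p') ≤ L → Commute g h) ∧
    (∀ g p p', g ^ n = 1 → 10 ^ 6 * L ≤ d' p p' → d' p (g * p) ≤ L → d' p' (g * p') ≤ L →
      g = 1)

/-- Torsion in the quotient (Part H). -/
structure Tors {G G' : Type*} [Group G] [Group G'] (F : Set G) (π : G →* G') (n : ℕ) :
    Prop where
  t11 : ∀ g₁ g₂ : G, g₁ ^ n = 1 → g₂ ^ n = 1 → ∀ t' : G', π g₁ = t' * π g₂ * t'⁻¹ →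
    ∃ t, π t = t' ∧ g₁ = t * g₂ * t⁻¹
  t1 : ∀ g : G, g ^ n = 1 → π g = 1 → g = 1
  t22 : ∀ f₁ ∈ F, ∀ f₂ ∈ F, ∀ y₁ y₂ : G, Commute y₁ f₁ → Commute y₂ f₂ → π y₁ ≠ 1 →
    ∀ t' : G', π y₁ = t' * π y₂ * t'⁻¹ →
    ∃ t, π t = t' ∧ (f₁ = t * f₂ * t⁻¹ ∨ f₁ = t * f₂⁻¹ * t⁻¹)
  t2 : ∀ f ∈ F, ∀ y : G, Commute y f → π y = 1 → y ∈ Subgroup.zpowers f
  t12 : ∀ g : G, g ^ n = 1 → ∀ f ∈ F, ∀ y : G, Commute y f → π y ≠ 1 → ∀ t' : G',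
    π g ≠ t' * π y * t'⁻¹

/-- Part H1. -/
def StH : Prop :=
  ∀ (G G' : Type) [Group G] [Group G'] (d : G → G → ℕ) (d' : G' → G' → ℕ)
    (δ C Δ R n q A L Ax L1 M1 : ℕ) (F : Set G) (H : Hubs d (Lx d (100 * C)) C) (Tm : ℝ)
    (π : G →* G'), Stage d δ n q A L → Alg H n q L Ax → Rels H F n L1 Δ Tm →
    Cst2 δ C Δ R n q L Ax L1 M1 Tm → Quo H F R π d' → Tors F π n

/-- Part H2: the step theorem. -/
def StStep : Prop :=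
  ∃ M1 : ℕ, ∀ (C L : ℕ), 100 * 2000 ≤ C → 1000 * C ≤ L → ∃ T0 : ℕ,
    ∀ (G G' : Type) [Group G] [Group G'] (d : G → G → ℕ) (d' : G' → G' → ℕ)
    (Δ R n q Ax L1 : ℕ) (F : Set G) (H : Hubs d (Lx d (100 * C)) C) (Tm : ℝ)
    (π : G →* G'), Stage d 2000 n q (10 ^ 6 * L) L → Alg H n q L Ax → Rels H F n L1 Δ Tm →
    Cst2 2000 C Δ R n q L Ax L1 M1 Tm → Quo H F R π d' → (T0 : ℝ) * R ≤ Tm →
    Stage d' 2000 n q (10 ^ 6 * L) L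

end Pool.Agent.Helper74.TB
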