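import Pool.Agent.Helper74.TB.StX

/-!
MP_7d16da_al, Part X: the window lemma, commutators, chains of powers.
-/

set_option autoImplicit false

namespace Pool.Agent.Helper74.TB

open Pool.Agent.Helper74.MH

variable {G : Type*} [Group G] {d : G → G → ℕ} {δ C : ℕ}

/-- one point of the window -/
theorem xw_pt (hG : HypG d δ) {N ρ : ℕ} {γ : ℕ → G} (hγ : IsGeo d N γ) {g : G}
    (h0 : d (γ 0) (g * γ 0) ≤ ρ) (h1 : d (γ N) (g * γ N) ≤ ρ) {t : ℕ} (ht : ρ + 2 * δ ≤ t)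
    (ht' : t + ρ + 3 * δ ≤ N) :
    ∃ θ ≤ N, d (g * γ t) (γ θ) ≤ 6 * δ ∧ θ ≤ t + ρ ∧ t ≤ θ + ρ := by
  have hδ := hG.one
  have a1 := hγ 0 N (Nat.zero_le _) le_rfl
  have a2 := hγ 0 t (Nat.zero_le _) (by omega)
  have a3 := hγ t N (by omega) le_rfl
  have b2 := hG.inv g (γ 0) (γ t)
  have b3 := hG.inv g (γ t) (γ N)
  have b4 := hG.inv g (γ 0) (γ N)
  have k1 := hb_four hG (g * γ 0) (γ 0) (g * γ N) (g * γ t)
  have k2 := hb_four hG (γ 0) (g * γ t) (g * γ N) (γ N)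
  have s1 := hG.path.symm (g * γ 0) (γ 0)
  have s2 := hG.path.symm (g * γ N) (γ N)
  have s3 := hG.path.symm (g * γ N) (g * γ t)
  have t1 := hG.path.tri (g * γ 0) (γ 0) (g * γ t)
  have t2 := hG.path.tri (γ 0) (g * γ 0) (g * γ t)
  have t3 := hG.path.tri (g * γ t) (γ N) (g * γ N)
  have t4 := hG.path.tri (g * γ t) (g * γ N) (γ N)
  have hz : d (γ 0) (g * γ t) + d (g * γ t) (γ N) ≤ N + 4 * δ := by omega
  have hp := hb_pt hG hγ hz
  refine ⟨min (d (γ 0) (g * γ t)) N, min_le_right _ _, ?_, ?_, ?_⟩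
  · rw [hG.path.symm]; omega
  · omega
  · omega

/-- the window lemma: a shift -/
theorem xw_shift (hG : HypG d δ) {N ρ : ℕ} {γ : ℕ → G} (hγ : IsGeo d N γ) {g : G}
    (h0 : d (γ 0) (g * γ 0) ≤ ρ) (h1 : d (γ N) (g * γ N) ≤ ρ) (hρ : 2 * δ ≤ ρ)
    (hN : 10 * ρ ≤ N) :
    ∃ s : ℤ, |s| ≤ ρ ∧ ∀ t t' : ℕ, 5 * ρ ≤ t → t + 5 * ρ ≤ N → (t' : ℤ) = t + s →
      d (g * γ t) (γ t') ≤ 18 * δ := by
  have hδ := hG.one
  obtain ⟨θ, hθN, hθ, hθ1, hθ2⟩ := xw_pt hG hγ h0 h1 (t := N - ρ - 3 * δ) (by omega) (by omega)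
  refine ⟨(θ : ℤ) - ((N - ρ - 3 * δ : ℕ) : ℤ), ?_, ?_⟩
  · rw [abs_le]; constructor <;> omega
  · intro t t' ht1 ht2 htt
    obtain ⟨η, hηN, hη, hη1, hη2⟩ := xw_pt hG hγ h0 h1 (t := t) (by omega) (by omega)
    have a1 := hγ η θ (by omega) hθN
    have a2 := hγ t (N - ρ - 3 * δ) (by omega) (by omega)
    have a3 := hG.inv g (γ t) (γ (N - ρ - 3 * δ))
    have t1 := hG.path.tri (γ η) (g * γ t) (γ θ)
    have t2 := hG.path.tri (g * γ t) (g * γ (N - ρ - 3 * δ)) (γ θ)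
    have t3 := hG.path.tri (g * γ t) (γ η) (g * γ (N - ρ - 3 * δ))
    have t4 := hG.path.tri (γ η) (γ θ) (g * γ (N - ρ - 3 * δ))
    have s1 := hG.path.symm (γ η) (g * γ t)
    have s2 := hG.path.symm (γ θ) (g * γ (N - ρ - 3 * δ))
    have t5 := hG.path.tri (g * γ t) (γ η) (γ t')
    rcases le_total η t' with h | h
    · have a4 := hγ η t' h (by omega)
      omega
    · have a4 := hγ t' η h (by omega)
      have s3 := hG.path.symm (γ t') (γ η)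
      omega

/-- consequence: displacement of window points -/
theorem xw_disp (hG : HypG d δ) {N ρ : ℕ} {γ : ℕ → G} (hγ : IsGeo d N γ) {g : G} {s : ℤ}
    (hs : |s| ≤ ρ) (h : ∀ t t' : ℕ, 5 * ρ ≤ t → t + 5 * ρ ≤ N → (t' : ℤ) = t + s →
      d (g * γ t) (γ t') ≤ 18 * δ) {t : ℕ} (h1 : 5 * ρ ≤ t) (h2 : t + 5 * ρ ≤ N) :
    (d (γ t) (g * γ t) : ℤ) ≤ |s| + 18 * δ ∧ |s| ≤ d (γ t) (g * γ t) + 18 * δ := by
  have hs' := abs_le.1 hs
  obtain ⟨t', ht'⟩ : ∃ t' : ℕ, (t' : ℤ) = t + s := ⟨(t + s).toNat, by omega⟩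
  have a1 := h t t' h1 h2 ht'
  have s1 := hG.path.symm (g * γ t) (γ t')
  have t1 := hG.path.tri (γ t) (γ t') (g * γ t)
  have t2 := hG.path.tri (γ t) (g * γ t) (γ t')
  rcases le_total t t' with hh | hh
  · have a4 := hγ t t' hh (by omega)
    rw [abs_of_nonneg (by omega : (0 : ℤ) ≤ s)]
    constructor <;> omega
  · have a4 := hγ t' t hh (by omega)
    have s3 := hG.path.symm (γ t') (γ t)
    rw [abs_of_nonpos (by omega : s ≤ (0 : ℤ))]
    constructor <;> omega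

/-- commutators move window points little -/
theorem xw_comm (hG : HypG d δ) {N ρ : ℕ} {γ : ℕ → G} (hγ : IsGeo d N γ) {g h : G}
    (h0 : d (γ 0) (g * γ 0) ≤ ρ) (h1 : d (γ N) (g * γ N) ≤ ρ)
    (k0 : d (γ 0) (h * γ 0) ≤ ρ) (k1 : d (γ N) (h * γ N) ≤ ρ) (hρ : 2 * δ ≤ ρ)
    (hN : 16 * ρ ≤ N) {t : ℕ} (ht : 8 * ρ ≤ t) (ht' : t + 8 * ρ ≤ N) :
    d (γ t) (g * h * g⁻¹ * h⁻¹ * γ t) ≤ 72 * δ := by
  obtain ⟨s, hs, hg⟩ := xw_shift hG hγ h0 h1 hρ (by omega)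
  obtain ⟨s', hs', hh⟩ := xw_shift hG hγ k0 k1 hρ (by omega)
  rw [abs_le] at hs hs'
  obtain ⟨t1, e1⟩ : ∃ t1 : ℕ, (t1 : ℤ) = t - s' := ⟨(t - s').toNat, by omega⟩
  obtain ⟨t2, e2⟩ : ∃ t2 : ℕ, (t2 : ℤ) = t - s' - s := ⟨(t - s' - s).toNat, by omega⟩
  obtain ⟨t3, e3⟩ : ∃ t3 : ℕ, (t3 : ℤ) = t - s := ⟨(t - s).toNat, by omega⟩
  have a1 := hh t1 t (by omega) (by omega) (by omega)
  have a2 := hh t2 t3 (by omega) (by omega) (by omega)
  have a3 := hg t2 t1 (by omega) (by omega) (by omega)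
  have a4 := hg t3 t (by omega) (by omega) (by omega)
  have b1 := hG.inv (g * h * g⁻¹ * h⁻¹) (h * γ t1) (γ t)
  have b2 := hG.inv (g * h * g⁻¹) (g * γ t2) (γ t1)
  have b3 := hG.inv g (h * γ t2) (γ t3)
  have c1 : g * h * g⁻¹ * h⁻¹ * (h * γ t1) = g * h * g⁻¹ * γ t1 := by group
  have c2 : g * h * g⁻¹ * (g * γ t2) = g * (h * γ t2) := by group
  rw [c1] at b1
  rw [c2] at b2
  have t1' := hG.path.tri (γ t) (g * γ t3) (g * h * g⁻¹ * h⁻¹ * γ t)
  have t2' := hG.path.tri (g * γ t3) (g * (h * γ t2)) (g * h * g⁻¹ * h⁻¹ * γ t)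
  have t3' := hG.path.tri (g * (h * γ t2)) (g * h * g⁻¹ * γ t1) (g * h * g⁻¹ * h⁻¹ * γ t)
  have s1 := hG.path.symm (γ t) (g * γ t3)
  have s2 := hG.path.symm (g * γ t3) (g * (h * γ t2))
  omega

theorem x_pow_le (hG : HypG d δ) (g x : G) (m : ℕ) : d x (g ^ m * x) ≤ m * d x (g * x) := by
  induction m with
  | zero => rw [pow_zero, one_mul, hb_self hG]; exact Nat.zero_le _
  | succ m ih =>
    have h1 := hG.path.tri x (g * x) (g ^ (m + 1) * x)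
    have h2 := hG.inv g x (g ^ m * x)
    have e : g * (g ^ m * x) = g ^ (m + 1) * x := by rw [pow_succ', mul_assoc]
    rw [e] at h2
    have e2 : (m + 1) * d x (g * x) = m * d x (g * x) + d x (g * x) := by ring
    omega

theorem x_inv_disp (hG : HypG d δ) (g x : G) : d x (g⁻¹ * x) = d x (g * x) := by
  have h := hG.inv g x (g⁻¹ * x)
  rw [mul_inv_cancel_left, hG.path.symm (g * x) x] at h
  exact h.symm

/-- conjugates -/
theorem xw_conj (hG : HypG d δ) {N ρ : ℕ} {γ : ℕ → G} {g k : G} {s : ℤ}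
    (hs : |s| ≤ ρ) (h : ∀ t t' : ℕ, 5 * ρ ≤ t → t + 5 * ρ ≤ N → (t' : ℤ) = t + s →
      d (g * γ t) (γ t') ≤ 18 * δ) {E : ℕ}
    (hk : ∀ t, 8 * ρ ≤ t → t + 8 * ρ ≤ N → d (γ t) (k * γ t) ≤ E)
    {t : ℕ} (h1 : 9 * ρ ≤ t) (h2 : t + 9 * ρ ≤ N) :
    d (γ t) (g * k * g⁻¹ * γ t) ≤ E + 36 * δ := by
  rw [abs_le] at hs
  obtain ⟨t1, e1⟩ : ∃ t1 : ℕ, (t1 : ℤ) = t - s := ⟨(t - s).toNat, by omega⟩
  have a1 := h t1 t (by omega) (by omega) (by omega)
  have a2 := hk t1 (by omega) (by omega)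
  have b1 := hG.inv g (γ t1) (k * γ t1)
  have b2 := hG.inv (g * k * g⁻¹) (g * γ t1) (γ t)
  have c1 : g * k * g⁻¹ * (g * γ t1) = g * (k * γ t1) := by group
  rw [c1] at b2
  have t1' := hG.path.tri (γ t) (g * γ t1) (g * k * g⁻¹ * γ t)
  have t2' := hG.path.tri (g * γ t1) (g * (k * γ t1)) (g * k * g⁻¹ * γ t)
  have s1 := hG.path.symm (γ t) (g * γ t1)
  omega

/-- chains of powers: linear growth -/
theorem x_chain (hG : HypG d δ) {g x : G} {σ : ℕ} (h1 : 82 * δ + σ ≤ d x (g * x))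
    (h2 : 2 * d x (g * x) ≤ d x (g ^ 2 * x) + 72 * δ) (m : ℕ) :
    (6 * δ + σ) * m ≤ d x (g ^ m * x) := by
  have key : ∀ m, (6 * δ + σ) * m ≤ d x (g ^ m * x) := by
    intro m
    induction m with
    | zero => simp
    | succ m ih =>
      rcases Nat.eq_zero_or_pos m with rfl | hm
      · simp only [Nat.zero_add, Nat.mul_one, pow_one]
        omega
      have hc := hb_chain hG (m := m + 1) (a := 72 * δ) (x := fun i => g ^ i * x)
        (by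
          intro i hi
          have e1 := hG.inv (g ^ i) x (g * x)
          have e2 := hG.inv (g ^ (i + 1)) x (g * x)
          have e3 := hG.inv (g ^ i) x (g ^ 2 * x)
          have f1 : g ^ i * (g * x) = g ^ (i + 1) * x := by rw [pow_succ, mul_assoc]
          have f2 : g ^ (i + 1) * (g * x) = g ^ (i + 2) * x := by
            rw [pow_succ g (i + 1), mul_assoc]
          have f3 : g ^ i * (g ^ 2 * x) = g ^ (i + 2) * x := by rw [pow_add, mul_assoc]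
          rw [f1] at e1
          rw [f2] at e2
          rw [f3] at e3
          change d (g ^ i * x) (g ^ (i + 1) * x) + d (g ^ (i + 1) * x) (g ^ (i + 2) * x) ≤
            d (g ^ i * x) (g ^ (i + 2) * x) + 72 * δ
          omega)
        (by
          intro i hi
          have e1 := hG.inv (g ^ i) x (g * x)
          have f1 : g ^ i * (g * x) = g ^ (i + 1) * x := by rw [pow_succ, mul_assoc]
          rw [f1] at e1
          change 72 * δ + 10 * δ ≤ d (g ^ i * x) (g ^ (i + 1) * x)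
          omega) (i := 0) (j := m) (k := m + 1) (Nat.zero_le _) (Nat.le_succ m) le_rfl
      simp only [pow_zero, one_mul] at hc
      have e1 := hG.inv (g ^ m) x (g * x)
      have f1 : g ^ m * (g * x) = g ^ (m + 1) * x := by rw [pow_succ, mul_assoc]
      rw [f1] at e1
      have e2 : (6 * δ + σ) * (m + 1) = (6 * δ + σ) * m + (6 * δ + σ) := by ring
      omega
  exact key m

/-- window points of an element with a large shift -/
theorem xw_chain (hG : HypG d δ) {N ρ : ℕ} {γ : ℕ → G} (hγ : IsGeo d N γ) {g : G} {s : ℤ}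
    (hs : |s| ≤ ρ) (h : ∀ t t' : ℕ, 5 * ρ ≤ t → t + 5 * ρ ≤ N → (t' : ℤ) = t + s →
      d (g * γ t) (γ t') ≤ 18 * δ) {t σ : ℕ} (h1 : 6 * ρ ≤ t) (h2 : t + 6 * ρ ≤ N)
      (hσ : (100 * δ + σ : ℤ) ≤ |s|) (m : ℕ) : (6 * δ + σ) * m ≤ d (γ t) (g ^ m * γ t) := by
  have hd := xw_disp hG hγ hs h (t := t) (by omega) (by omega)
  refine x_chain hG (σ := σ) (by omega) ?_ m
  have hs' := abs_le.1 hs
  obtain ⟨t1, e1⟩ : ∃ t1 : ℕ, (t1 : ℤ) = t + s := ⟨(t + s).toNat, by omega⟩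
  obtain ⟨t2, e2⟩ : ∃ t2 : ℕ, (t2 : ℤ) = t + 2 * s := ⟨(t + 2 * s).toNat, by omega⟩
  have a1 := h t t1 (by omega) (by omega) (by omega)
  have a2 := h t1 t2 (by omega) (by omega) (by omega)
  have b1 := hG.inv g (g * γ t) (γ t1)
  have c1 : g * (g * γ t) = g ^ 2 * γ t := by rw [pow_two, mul_assoc]
  rw [c1] at b1
  have t1' := hG.path.tri (γ t) (g ^ 2 * γ t) (γ t2)
  have t2' := hG.path.tri (g ^ 2 * γ t) (g * γ t1) (γ t2)
  rcases le_total t t2 with hh | hh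
  · have a4 := hγ t t2 hh (by omega)
    rw [abs_of_nonneg (by omega : (0 : ℤ) ≤ s)] at hd hσ
    omega
  · have a4 := hγ t2 t hh (by omega)
    have s3 := hG.path.symm (γ t2) (γ t)
    rw [abs_of_nonpos (by omega : s ≤ (0 : ℤ))] at hd hσ
    omega

end Pool.Agent.Helper74.TB
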