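import Pool.Agent.Helper74.TB.X2

/-!
MP_7d16da_al, Part X: centralizers.
-/

set_option autoImplicit false

namespace Pool.Agent.Helper74.TB

open Pool.Agent.Helper74.MH

variable {G : Type*} [Group G] {d : G → G → ℕ} {δ C n q A L : ℕ}

theorem x_window (S : Stage d δ n q A L) (hC1 : 1 ≤ C) (H : Hubs d (Lx d (100 * C)) C)
    {f : G} (hf : f ∈ Lx d (100 * C)) :
    ∃ x ∈ H.Z f, ∃ x' ∈ H.Z f, A ≤ d x x' := by
  refine ⟨H.pr f 1, H.pr_mem f hf 1, f ^ (A : ℤ) * H.pr f 1,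
    (hl_Zpow H hf _ _).2 (H.pr_mem f hf 1), ?_⟩
  have h1 := (x_len S.toHypG H hf (H.pr f 1) (A : ℤ)).1
  have h2 := H.Tbig f hf
  have h3 : (1 : ℝ) ≤ C := by exact_mod_cast hC1
  have h4 : |((A : ℤ) : ℝ)| = A := by
    push_cast
    exact abs_of_nonneg (Nat.cast_nonneg A)
  rw [h4] at h1
  have h5 : (A : ℝ) ≤ A * H.T f := by
    have : (0 : ℝ) ≤ A := Nat.cast_nonneg A
    nlinarith
  have h6 : (A : ℝ) ≤ d (H.pr f 1) (f ^ (A : ℤ) * H.pr f 1) := h5.trans h1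
  exact_mod_cast h6

theorem x_Bcomm (S : Stage d δ n q A L) (hC1 : 1 ≤ C) (H : Hubs d (Lx d (100 * C)) C)
    {f : G} (hf : f ∈ Lx d (100 * C)) {b b' : G} (hb : ∀ x ∈ H.Z f, d x (b * x) ≤ L)
    (hb' : ∀ x ∈ H.Z f, d x (b' * x) ≤ L) : Commute b b' := by
  obtain ⟨x, hx, x', hx', hd⟩ := x_window S hC1 H hf
  exact S.acyl b b' x x' hd (hb x hx) (hb x' hx') (hb' x hx) (hb' x' hx')

theorem x_Btor (S : Stage d δ n q A L) (hC1 : 1 ≤ C) (H : Hubs d (Lx d (100 * C)) C)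
    {f : G} (hf : f ∈ Lx d (100 * C)) {b : G} (hb : ∀ x ∈ H.Z f, d x (b * x) ≤ L)
    (hn : b ^ n = 1) : b = 1 := by
  obtain ⟨x, hx, x', hx', hd⟩ := x_window S hC1 H hf
  exact S.acylt b x x' hn hd (hb x hx) (hb x' hx')

/-- bounded powers are torsion -/
theorem x_bdtor (S : Stage d δ n q A L) {g x : G} {E : ℕ} (h : ∀ m : ℕ, d x (g ^ m * x) ≤ E) :
    g ^ n = 1 := by
  by_contra hg
  have h1 := x_tor S hg x (q * E + 1)
  have h2 := Nat.mul_le_mul_left q (h (q * E + 1))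
  omega

/-- (ii) -/
theorem x_Bcent (S : Stage d δ n q A L) (hC1 : 1 ≤ C) (hL : 1000 * C ≤ L)
    (H : Hubs d (Lx d (100 * C)) C) {f : G} (hf : f ∈ Lx d (100 * C)) {b y : G}
    (hb : ∀ x ∈ H.Z f, d x (b * x) ≤ L) (hbf : Commute b f) (hy : Commute y f) :
    Commute y b := by
  have hb1 : ∀ x ∈ H.Z f, d x (y * b * y⁻¹ * x) ≤ L := by
    intro x hx
    have h1 := hb _ ((x_Zc H hf hy.inv_left).2 hx)
    have h2 := S.inv y (y⁻¹ * x) (b * (y⁻¹ * x))
    have e1 : y * (y⁻¹ * x) = x := by group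
    have e2 : y * (b * (y⁻¹ * x)) = y * b * y⁻¹ * x := by group
    rw [e1, e2] at h2
    omega
  have hc : Commute (y * b * y⁻¹) b := x_Bcomm S hC1 H hf hb1 hb
  have hpow : ∀ m : ℕ, (y * b * y⁻¹ * b⁻¹) ^ m = y * b ^ m * y⁻¹ * (b ^ m)⁻¹ := by
    intro m
    rw [hc.inv_right.mul_pow, inv_pow, conj_pow]
  have hd : ∀ x ∈ H.Z f, ∀ m : ℕ, d x ((y * b * y⁻¹ * b⁻¹) ^ m * x) ≤ 6 * C := by
    intro x hx m
    rw [hpow]
    exact x_commdisp H hf hy (hbf.pow_left m) hx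
  have ht : (y * b * y⁻¹ * b⁻¹) ^ n = 1 := x_bdtor S (hd _ (H.pr_mem f hf 1))
  have h1 : y * b * y⁻¹ * b⁻¹ = 1 := by
    refine x_Btor S hC1 H hf (fun x hx => ?_) ht
    have := hd x hx 1
    rw [pow_one] at this
    omega
  rw [mul_inv_eq_one, mul_inv_eq_iff_eq_mul] at h1
  exact h1

/-- (iii) the centralizer of `f` is abelian -/
theorem x_ab (S : Stage d δ n q A L) (hC1 : 1 ≤ C) (hL : 1000 * C ≤ L)
    (H : Hubs d (Lx d (100 * C)) C) {f : G} (hf : f ∈ Lx d (100 * C)) {y z : G}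
    (hy : Commute y f) (hz : Commute z f) : Commute y z := by
  have hcf : Commute (y * z * y⁻¹ * z⁻¹) f :=
    ((hy.mul_left hz).mul_left hy.inv_left).mul_left hz.inv_left
  have hcB : ∀ x ∈ H.Z f, d x (y * z * y⁻¹ * z⁻¹ * x) ≤ L := by
    intro x hx
    have := x_commdisp H hf hy hz hx
    omega
  have hyc : Commute y (y * z * y⁻¹ * z⁻¹) := x_Bcent S hC1 hL H hf hcB hcf hy
  have hzc : Commute z (y * z * y⁻¹ * z⁻¹) := x_Bcent S hC1 hL H hf hcB hcf hz
  have hpow : ∀ m : ℕ, (y * z * y⁻¹ * z⁻¹) ^ m = y ^ m * z * (y ^ m)⁻¹ * z⁻¹ := by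
    intro m
    have h0 : ∀ m : ℕ, y ^ m * z = (y * z * y⁻¹ * z⁻¹) ^ m * z * y ^ m := by
      intro m
      induction m with
      | zero => simp
      | succ m ih =>
        have h1 : y * z = (y * z * y⁻¹ * z⁻¹) * z * y := by group
        have h2 : y * (y * z * y⁻¹ * z⁻¹) ^ m = (y * z * y⁻¹ * z⁻¹) ^ m * y := hyc.pow_right m
        calc y ^ (m + 1) * z = y * (y ^ m * z) := by rw [pow_succ', mul_assoc]
          _ = y * (y * z * y⁻¹ * z⁻¹) ^ m * z * y ^ m := by rw [ih]; group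
          _ = (y * z * y⁻¹ * z⁻¹) ^ m * (y * z) * y ^ m := by rw [h2]; group
          _ = (y * z * y⁻¹ * z⁻¹) ^ m * ((y * z * y⁻¹ * z⁻¹) * z * y) * y ^ m := by rw [← h1]
          _ = (y * z * y⁻¹ * z⁻¹) ^ (m + 1) * z * y ^ (m + 1) := by
            rw [pow_succ (y * z * y⁻¹ * z⁻¹) m, pow_succ' y m]
            simp only [mul_assoc]
    rw [h0 m]
    group
  have hd : ∀ x ∈ H.Z f, ∀ m : ℕ, d x ((y * z * y⁻¹ * z⁻¹) ^ m * x) ≤ 6 * C := by
    intro x hx m
    rw [hpow]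
    exact x_commdisp H hf (hy.pow_left m) hz hx
  have ht : (y * z * y⁻¹ * z⁻¹) ^ n = 1 := x_bdtor S (hd _ (H.pr_mem f hf 1))
  have h1 : y * z * y⁻¹ * z⁻¹ = 1 := x_Btor S hC1 H hf hcB ht
  rw [mul_inv_eq_one, mul_inv_eq_iff_eq_mul] at h1
  exact h1

/-- (iv) the centralizer of `f` is torsion free -/
theorem x_ctf (S : Stage d δ n q A L) (hn : n ≠ 0) (hC1 : 1 ≤ C) (hL : 1000 * C ≤ L)
    (H : Hubs d (Lx d (100 * C)) C) {f : G} (hf : f ∈ Lx d (100 * C)) {t : G}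
    (ht : Commute t f) (htn : t ^ n = 1) : t = 1 := by
  refine x_Btor S hC1 H hf (fun x hx => ?_) htn
  have h1 := x_powphi' H hf ht x n
  rw [htn, one_mul, hl_refl H hf, zero_sub, abs_neg, abs_mul,
    abs_of_nonneg (Nat.cast_nonneg n : (0 : ℝ) ≤ n)] at h1
  have hn' : (0 : ℝ) < n := by exact_mod_cast Nat.pos_of_ne_zero hn
  have h2 := le_of_mul_le_mul_left h1 hn'
  have h3 := H.on f hf x hx _ ((x_Zc H hf ht).2 hx)
  have h4 : (d x (t * x) : ℝ) ≤ 2 * C := by linarith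
  have h5 : d x (t * x) ≤ 2 * C := by exact_mod_cast h4
  omega

/-- (v) the centralizer of `f` is cyclic -/
theorem x_cyc (S : Stage d δ n q A L) (hn : n ≠ 0) (hq : 1 ≤ q) (hC1 : 1 ≤ C)
    (hL : 1000 * C ≤ L) (H : Hubs d (Lx d (100 * C)) C) {f : G}
    (hf : f ∈ Lx d (100 * C)) : ∃ r, ∀ y, Commute y f ↔ y ∈ Subgroup.zpowers r := by
  have hx := H.pr_mem f hf 1
  generalize H.pr f 1 = x at hx
  have hcm : ∀ y : Subgroup.centralizer ({f} : Set G), Commute (y : G) f := by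
    intro y
    have := y.2
    rw [Subgroup.mem_centralizer_singleton_iff] at this
    exact this
  have hβ : ∀ y : Subgroup.centralizer ({f} : Set G),
      ∃ β : ℝ, ∀ m : ℕ, |H.Φ f x ((y : G) ^ m * x) - m * β| ≤ C := by
    intro y
    refine x_homog (fun m => H.Φ f x ((y : G) ^ m * x)) C
      (fun m m' => x_powphi H hf (hcm y) x m m') (d x ((y : G) * x)) fun m => ?_
    refine (H.lip f hf _ _).trans ?_
    have := x_pow_le S.toHypG (y : G) x m
    have h2 : (d x ((y : G) ^ m * x) : ℝ) ≤ m * d x ((y : G) * x) := by exact_mod_cast this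
    linarith
  choose β hβ using hβ
  have hadd : ∀ y z, β (y * z) = β y + β z := by
    intro y z
    have hz : |β (y * z) - β y - β z| ≤ 0 := by
      refine x_lin (E := 4 * C) fun m => ?_
      have a1 := hβ (y * z) m
      have a2 := hβ y m
      have a3 := hβ z m
      have a4 := x_mul H hf ((hcm y).pow_left m) ((z : G) ^ m) x
      have a5 : ((y * z : Subgroup.centralizer ({f} : Set G)) : G) ^ m =
          (y : G) ^ m * (z : G) ^ m := by
        rw [Subgroup.coe_mul]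
        exact (x_ab S hC1 hL H hf (hcm y) (hcm z)).mul_pow m
      rw [a5] at a1
      rw [← abs_of_nonneg (Nat.cast_nonneg m : (0 : ℝ) ≤ m), ← abs_mul, abs_of_nonneg
        (Nat.cast_nonneg m : (0 : ℝ) ≤ m)]
      rw [abs_le] at a1 a2 a3 a4
      rw [mul_zero, zero_add, abs_le]
      constructor <;> nlinarith [a1.1, a1.2, a2.1, a2.2, a3.1, a3.2, a4.1, a4.2]
    have := abs_nonpos_iff.1 hz
    linarith
  have hbig : ∀ y, y ≠ 1 → 1 ≤ (q : ℝ) * |β y| := by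
    intro y hy
    have hyn : (y : G) ^ n ≠ 1 := by
      intro h
      exact hy (Subtype.ext (x_ctf S hn hC1 hL H hf (hcm y) h))
    refine x_lin (E := 2 * C * q) fun m => ?_
    have a1 := x_tor S hyn x m
    have a2 : (m : ℝ) ≤ q * d x ((y : G) ^ m * x) := by exact_mod_cast a1
    have a3 := H.on f hf x hx _ ((x_Zc H hf ((hcm y).pow_left m)).2 hx)
    have a4 := hβ y m
    have a5 := abs_sub_abs_le_abs_sub (H.Φ f x ((y : G) ^ m * x)) (m * β y)
    rw [abs_mul, abs_of_nonneg (Nat.cast_nonneg m : (0 : ℝ) ≤ m)] at a5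
    have hq' : (0 : ℝ) ≤ q := Nat.cast_nonneg q
    have a6 : (d x ((y : G) ^ m * x) : ℝ) ≤ m * |β y| + 2 * C := by linarith
    have a7 := mul_le_mul_of_nonneg_left a6 hq'
    nlinarith
  let φ : Additive (Subgroup.centralizer ({f} : Set G)) →+ ℝ :=
    AddMonoidHom.mk' (fun y => β (Additive.toMul y)) (fun y z => hadd _ _)
  have hq' : (0 : ℝ) < q := by exact_mod_cast hq
  obtain ⟨b, hb⟩ := AddSubgroup.cyclic_of_isolated_zero (H := φ.range) (a := 1 / (q : ℝ))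
    (by positivity) (by
      rw [Set.disjoint_left]
      rintro t ⟨y, rfl⟩ ⟨h1, h2⟩
      have h3 : Additive.toMul y ≠ 1 := by
        intro h
        have h4 : y = 0 := h
        rw [h4, map_zero] at h1
        exact lt_irrefl _ h1
      have h4 := hbig _ h3
      have h5 : φ y = β (Additive.toMul y) := rfl
      rw [← h5, abs_of_pos h1] at h4
      rw [lt_div_iff₀ hq'] at h2
      linarith)
  obtain ⟨r, hr⟩ : b ∈ φ.range := by rw [hb]; exact AddSubgroup.mem_closure_singleton_self b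
  refine ⟨((Additive.toMul r : Subgroup.centralizer ({f} : Set G)) : G), fun y => ⟨?_, ?_⟩⟩
  · intro hy
    have hyc : y ∈ Subgroup.centralizer ({f} : Set G) := by
      rw [Subgroup.mem_centralizer_singleton_iff]; exact hy
    have h1 : φ (Additive.ofMul ⟨y, hyc⟩) ∈ AddSubgroup.closure ({b} : Set ℝ) := by
      rw [← hb]; exact ⟨_, rfl⟩
    rw [AddSubgroup.mem_closure_singleton] at h1
    obtain ⟨k, hk⟩ := h1
    rw [← hr, ← map_zsmul] at hk
    have h2 : φ (k • r - Additive.ofMul ⟨y, hyc⟩) = 0 := by rw [map_sub, hk, sub_self]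
    have h3 : Additive.toMul (k • r - Additive.ofMul ⟨y, hyc⟩) = 1 := by
      by_contra hne
      have h4 := hbig _ hne
      have h5 : β (Additive.toMul (k • r - Additive.ofMul ⟨y, hyc⟩)) = 0 := h2
      rw [h5, abs_zero, mul_zero] at h4
      linarith
    have h4 : k • r = Additive.ofMul ⟨y, hyc⟩ := sub_eq_zero.1 h3
    rw [Subgroup.mem_zpowers_iff]
    refine ⟨k, ?_⟩
    have h5 := congrArg (fun w => ((Additive.toMul w : Subgroup.centralizer ({f} : Set G)) : G)) h4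
    simpa using h5
  · intro hy
    rw [Subgroup.mem_zpowers_iff] at hy
    obtain ⟨k, rfl⟩ := hy
    exact (hcm _).zpow_left k

/-- `cent` of `Alg` -/
theorem x_cent (S : Stage d δ n q A L) (hn : n ≠ 0) (hq : 1 ≤ q) (hC1 : 1 ≤ C)
    (hL : 1000 * C ≤ L) (H : Hubs d (Lx d (100 * C)) C) {g : G} (hg : g ^ n ≠ 1) :
    ∃ r, ∀ y, Commute y g ↔ y ∈ Subgroup.zpowers r := by
  have hf := x_mem0 (C := C) S hg
  obtain ⟨r, hr⟩ := x_cyc S hn hq hC1 hL H hf
  refine ⟨r, fun y => ⟨fun h => (hr y).1 (h.pow_right _), fun h => ?_⟩⟩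
  exact x_ab S hC1 hL H hf ((hr y).2 h) ((Commute.refl g).pow_right _)

/-- `ninv` of `Alg` -/
theorem x_ninv (S : Stage d δ n q A L) (hn : Odd n) (hq : 1 ≤ q) (hC1 : 1 ≤ C)
    (hL : 1000 * C ≤ L) (H : Hubs d (Lx d (100 * C)) C) {g t : G} {a b : ℤ} (hg : g ^ n ≠ 1)
    (ha : a ≠ 0) (hab : t * g ^ a * t⁻¹ = g ^ b) : Commute t g := by
  have hn0 : n ≠ 0 := by rintro rfl; exact absurd hn (by decide)
  have hb : b ≠ 0 := by
    rintro rfl
    rw [zpow_zero, mul_inv_eq_iff_eq_mul, one_mul, mul_eq_left] at hab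
    exact x_zinf S hg ha hab
  obtain ⟨r, hr⟩ := x_cent S hn0 hq hC1 hL H (x_zn S hn0 hg ha)
  have hgr : g ∈ Subgroup.zpowers r := (hr g).1 ((Commute.refl g).zpow_right a)
  -- lengths
  have hN : ((100 * C * q + 1 : ℕ) : ℤ) ≠ 0 := by positivity
  have hmem : ∀ k : ℤ, k ≠ 0 → g ^ (k * ((100 * C * q + 1 : ℕ) : ℤ)) ∈ Lx d (100 * C) := by
    intro k hk
    refine x_mem (C := C) S hg ?_
    rw [abs_mul, abs_of_nonneg (by positivity : (0 : ℤ) ≤ ((100 * C * q + 1 : ℕ) : ℤ))]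
    have h1 : 1 ≤ |k| := Int.one_le_abs hk
    push_cast
    nlinarith [show (0 : ℤ) ≤ 100 * C * q + 1 by positivity]
  have hf : g ^ (((100 * C * q + 1 : ℕ) : ℤ)) ∈ Lx d (100 * C) := by
    have := hmem 1 one_ne_zero
    rwa [one_mul] at this
  have hT : ∀ k : ℤ, k ≠ 0 → H.T (g ^ (k * ((100 * C * q + 1 : ℕ) : ℤ))) =
      |(k : ℝ)| * H.T (g ^ (((100 * C * q + 1 : ℕ) : ℤ))) := by
    intro k hk
    have hk' := hmem k hk
    have e : ∀ m : ℕ, (g ^ (k * ((100 * C * q + 1 : ℕ) : ℤ))) ^ ((m : ℕ) : ℤ) =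
        (g ^ (((100 * C * q + 1 : ℕ) : ℤ))) ^ (k * (m : ℤ)) := by
      intro m
      rw [← zpow_mul, ← zpow_mul]
      congr 1
      ring
    have em : ∀ m : ℕ, |(((k * (m : ℤ)) : ℤ) : ℝ)| = m * |(k : ℝ)| := by
      intro m
      push_cast
      rw [abs_mul, abs_of_nonneg (Nat.cast_nonneg m : (0 : ℝ) ≤ m), mul_comm]
    have em' : ∀ m : ℕ, |(((m : ℕ) : ℤ) : ℝ)| = m := by
      intro m
      push_cast
      exact abs_of_nonneg (Nat.cast_nonneg m : (0 : ℝ) ≤ m)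
    apply le_antisymm
    · refine x_lin (E := C + 2 * d 1 (H.pr (g ^ (((100 * C * q + 1 : ℕ) : ℤ))) 1)) fun m => ?_
      have a1 := (x_len S.toHypG H hk' 1 (m : ℤ)).1
      have a2 := (x_len S.toHypG H hf 1 (k * (m : ℤ))).2
      rw [e m] at a1
      rw [em m] at a2
      rw [em' m] at a1
      linarith
    · refine x_lin (E := C + 2 * d 1 (H.pr (g ^ (k * ((100 * C * q + 1 : ℕ) : ℤ))) 1))
        fun m => ?_
      have a1 := (x_len S.toHypG H hk' 1 (m : ℤ)).2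
      have a2 := (x_len S.toHypG H hf 1 (k * (m : ℤ))).1
      rw [e m] at a1
      rw [em m] at a2
      rw [em' m] at a1
      linarith
  have hpos : 0 < H.T (g ^ (((100 * C * q + 1 : ℕ) : ℤ))) := by
    have h1 := H.Tbig _ hf
    have h3 : (1 : ℝ) ≤ C := by exact_mod_cast hC1
    linarith
  have habs : |(a : ℝ)| = |(b : ℝ)| := by
    have h1 := H.Tconj _ (hmem a ha) t
    have h2 : t * g ^ (a * ((100 * C * q + 1 : ℕ) : ℤ)) * t⁻¹ =
        g ^ (b * ((100 * C * q + 1 : ℕ) : ℤ)) := by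
      rw [zpow_mul, ← conj_zpow, hab, ← zpow_mul]
    rw [h2, hT a ha, hT b hb] at h1
    exact (mul_right_cancel₀ hpos.ne' h1).symm
  have habz : |a| = |b| := by exact_mod_cast habs
  rcases abs_eq_abs.1 habz with h | h
  · -- b = a
    rw [← h, mul_inv_eq_iff_eq_mul] at hab
    have ht : t ∈ Subgroup.zpowers r := (hr t).1 hab
    rw [Subgroup.mem_zpowers_iff] at ht hgr
    obtain ⟨i, rfl⟩ := ht
    obtain ⟨j, rfl⟩ := hgr
    exact (Commute.refl r).zpow_zpow i j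
  · -- b = -a
    exfalso
    have hab' : t * g ^ a * t⁻¹ = (g ^ a)⁻¹ := by
      rw [hab, ← zpow_neg]
      congr 1
      omega
    have h2 : Commute (t ^ 2) (g ^ a) := by
      have h3 : t ^ 2 * g ^ a * (t ^ 2)⁻¹ = g ^ a := by
        have e : t ^ 2 * g ^ a * (t ^ 2)⁻¹ = t * (t * g ^ a * t⁻¹) * t⁻¹ := by
          rw [pow_two]; group
        rw [e, hab']
        have e2 : t * (g ^ a)⁻¹ * t⁻¹ = (t * g ^ a * t⁻¹)⁻¹ := by group
        rw [e2, hab', inv_inv]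
      rwa [mul_inv_eq_iff_eq_mul] at h3
    have ht2 : t ^ 2 ∈ Subgroup.zpowers r := (hr _).1 h2
    have hga : g ^ a ∈ Subgroup.zpowers r := (hr _).1 (Commute.refl _)
    rw [Subgroup.mem_zpowers_iff] at ht2 hga
    obtain ⟨i, hi⟩ := ht2
    obtain ⟨j, hj⟩ := hga
    -- `(g^a)^i` is inverted by `t` and is a power of `t^2`
    have h4 : t * (g ^ a) ^ i * t⁻¹ = ((g ^ a) ^ i)⁻¹ := by
      rw [← conj_zpow, hab', inv_zpow]
    have h5 : (g ^ a) ^ i = (t ^ 2) ^ j := by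
      rw [← hi, ← hj, ← zpow_mul, ← zpow_mul, mul_comm]
    have h6 : t * (g ^ a) ^ i * t⁻¹ = (g ^ a) ^ i := by
      rw [h5, mul_inv_eq_iff_eq_mul]
      exact (((Commute.refl t).pow_right 2).zpow_right j).eq
    rw [h6] at h4
    have h7 : g ^ (2 * (a * i)) = 1 := by
      rw [← zpow_mul] at h4
      rw [two_mul, zpow_add]
      nth_rewrite 1 [h4]
      exact inv_mul_cancel _
    have h8 : i = 0 := by
      by_contra hi0
      exact x_zinf S hg (mul_ne_zero two_ne_zero (mul_ne_zero ha hi0)) h7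
    rw [h8, zpow_zero] at hi
    -- t^2 = 1
    have h9 : t ^ n = 1 := by
      by_contra htn
      exact x_inf S htn two_ne_zero hi.symm
    obtain ⟨k, hk⟩ := hn
    rw [hk, pow_succ, pow_mul, ← hi, one_pow, one_mul] at h9
    rw [h9, one_mul, inv_one, mul_one] at hab'
    have h10 : g ^ (a + a) = 1 := by
      rw [zpow_add]
      nth_rewrite 1 [hab']
      exact inv_mul_cancel _
    exact x_zinf S hg (by omega) h10

end Pool.Agent.Helper74.TB
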